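import Pool.Agent.SQG.Stmts

/-!
# Regularity of the solutions (module SQG_REG, helper69)
-/

set_option autoImplicit false

namespace Pool.Agent.SQG

open Complex MeasureTheory Set Filter Topology ProbabilityTheory

namespace REGAux

/-- the weight -/
noncomputable def wt (ξ : P2) : ℝ := 1 + nm ξ ^ 2

lemma nm_sq (ξ : P2) : nm ξ ^ 2 = ξ.1 ^ 2 + ξ.2 ^ 2 := Real.sq_sqrt (by positivity)

lemma nm_nonneg (ξ : P2) : 0 ≤ nm ξ := Real.sqrt_nonneg _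

lemma one_le_wt (ξ : P2) : 1 ≤ wt ξ := by
  unfold wt
  nlinarith [sq_nonneg (nm ξ)]

lemma wt_pos (ξ : P2) : 0 < wt ξ := lt_of_lt_of_le one_pos (one_le_wt ξ)

lemma nm_le_wt (ξ : P2) : nm ξ ≤ wt ξ := by
  unfold wt
  nlinarith [sq_nonneg (nm ξ - 1), sq_nonneg (nm ξ)]

lemma continuous_nm : Continuous nm := by
  unfold nm
  fun_prop

lemma continuous_wt : Continuous wt := by
  unfold wt
  have := continuous_nm
  fun_prop

lemma abs_dot_le (a ξ : P2) : |a.1 * ξ.1 + a.2 * ξ.2| ≤ (|a.1| + |a.2|) * nm ξ := by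
  have h1 : |ξ.1| ≤ nm ξ := Real.abs_le_sqrt (by nlinarith [sq_nonneg ξ.2])
  have h2 : |ξ.2| ≤ nm ξ := Real.abs_le_sqrt (by nlinarith [sq_nonneg ξ.1])
  calc |a.1 * ξ.1 + a.2 * ξ.2| ≤ |a.1 * ξ.1| + |a.2 * ξ.2| := abs_add_le _ _
    _ = |a.1| * |ξ.1| + |a.2| * |ξ.2| := by rw [abs_mul, abs_mul]
    _ ≤ |a.1| * nm ξ + |a.2| * nm ξ := by gcongr
    _ = _ := by ring

lemma integrable_wt : Integrable (fun ξ : P2 => (wt ξ)⁻¹ ^ 2) := by
  have h := (integrable_inv_one_add_sq).mul_prod (integrable_inv_one_add_sq)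
  refine Integrable.mono' h ?_ (ae_of_all _ fun ξ => ?_)
  · have := continuous_wt.inv₀ (fun ξ => (wt_pos ξ).ne')
    exact (this.pow 2).aestronglyMeasurable
  · rw [Real.norm_of_nonneg (by positivity), ← mul_inv, inv_pow]
    refine inv_anti₀ (by positivity) ?_
    unfold wt
    rw [nm_sq]
    nlinarith [sq_nonneg ξ.1, sq_nonneg ξ.2, mul_nonneg (sq_nonneg ξ.1) (sq_nonneg ξ.2),
      sq_nonneg (ξ.1 ^ 2 + ξ.2 ^ 2)]

/-- the constant of the Cauchy-Schwarz inequality -/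
noncomputable def K0 : ℝ := √(∫ ξ : P2, (wt ξ)⁻¹ ^ 2)

lemma l1 (k : ℕ) (ψ : P2 → ℂ) (hm : AEStronglyMeasurable ψ)
    (h2 : Integrable (fun ξ => wt ξ ^ (2 * k + 2) * ‖ψ ξ‖ ^ 2)) :
    Integrable (fun ξ => wt ξ ^ k * ‖ψ ξ‖) ∧
      ∫ ξ, wt ξ ^ k * ‖ψ ξ‖ ≤ K0 * √(∫ ξ, wt ξ ^ (2 * k + 2) * ‖ψ ξ‖ ^ 2) := by
  have hf : MemLp (fun ξ : P2 => (wt ξ)⁻¹) 2 := by
    rw [memLp_two_iff_integrable_sq]
    · exact integrable_wt
    · exact (continuous_wt.inv₀ (fun ξ => (wt_pos ξ).ne')).aestronglyMeasurable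
  have e2 : ∀ ξ, (wt ξ ^ (k + 1) * ‖ψ ξ‖) ^ 2 = wt ξ ^ (2 * k + 2) * ‖ψ ξ‖ ^ 2 := by
    intro ξ
    ring
  have hg : MemLp (fun ξ : P2 => wt ξ ^ (k + 1) * ‖ψ ξ‖) 2 := by
    rw [memLp_two_iff_integrable_sq]
    · simp only [e2]
      exact h2
    · exact ((continuous_wt.pow _).aestronglyMeasurable).mul hm.norm
  have e1 : ∀ ξ, (wt ξ)⁻¹ * (wt ξ ^ (k + 1) * ‖ψ ξ‖) = wt ξ ^ k * ‖ψ ξ‖ := by
    intro ξ
    have := (wt_pos ξ).ne'
    field_simp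
    ring
  constructor
  · have h := hf.integrable_mul hg
    refine h.congr (ae_of_all _ fun ξ => ?_)
    exact e1 ξ
  · have h := integral_mul_le_Lp_mul_Lq_of_nonneg (μ := (volume : Measure P2))
      Real.HolderConjugate.two_two
      (f := fun ξ => (wt ξ)⁻¹) (g := fun ξ => wt ξ ^ (k + 1) * ‖ψ ξ‖)
      (ae_of_all _ fun ξ => (inv_pos.2 (wt_pos ξ)).le)
      (ae_of_all _ fun ξ => mul_nonneg (pow_nonneg (wt_pos ξ).le _) (norm_nonneg _))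
      (by simpa using hf) (by simpa using hg)
    simp only [e1, Real.rpow_two, e2] at h
    rw [← Real.sqrt_eq_rpow, ← Real.sqrt_eq_rpow] at h
    exact h

/-- the exponential -/
lemma norm_ex (x ξ : P2) : ‖cexp (I * ((x.1 * ξ.1 + x.2 * ξ.2 : ℝ) : ℂ))‖ = 1 := by
  rw [mul_comm, Complex.norm_exp_ofReal_mul_I]

lemma ex_sub_le (x y ξ : P2) : ‖cexp (I * ((x.1 * ξ.1 + x.2 * ξ.2 : ℝ) : ℂ)) -
    cexp (I * ((y.1 * ξ.1 + y.2 * ξ.2 : ℝ) : ℂ))‖ ≤ (|x.1 - y.1| + |x.2 - y.2|) * nm ξ := by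
  have e : cexp (I * ((x.1 * ξ.1 + x.2 * ξ.2 : ℝ) : ℂ)) -
      cexp (I * ((y.1 * ξ.1 + y.2 * ξ.2 : ℝ) : ℂ)) =
      cexp (I * ((y.1 * ξ.1 + y.2 * ξ.2 : ℝ) : ℂ)) *
        (cexp (I * (((x.1 - y.1) * ξ.1 + (x.2 - y.2) * ξ.2 : ℝ) : ℂ)) - 1) := by
    rw [mul_sub, mul_one, ← Complex.exp_add]
    congr 2
    push_cast
    ring
  rw [e, norm_mul, norm_ex, one_mul]
  refine (Real.norm_exp_I_mul_ofReal_sub_one_le).trans ?_
  rw [Real.norm_eq_abs]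
  exact abs_dot_le (x.1 - y.1, x.2 - y.2) ξ

lemma continuous_ex (x : P2) : Continuous fun ξ : P2 =>
    cexp (I * ((x.1 * ξ.1 + x.2 * ξ.2 : ℝ) : ℂ)) := by
  fun_prop

lemma int_ex {ψ : P2 → ℂ} (h : Integrable ψ) (x : P2) :
    Integrable fun ξ => ψ ξ * cexp (I * ((x.1 * ξ.1 + x.2 * ξ.2 : ℝ) : ℂ)) := by
  refine h.mono (h.aestronglyMeasurable.mul (continuous_ex x).aestronglyMeasurable)
    (ae_of_all _ fun ξ => ?_)
  rw [norm_mul, norm_ex, mul_one]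

lemma IF_sub {ψ χ : P2 → ℂ} (h : Integrable ψ) (h' : Integrable χ) (x : P2) :
    ‖IF ψ x - IF χ x‖ ≤ ∫ ξ, ‖ψ ξ - χ ξ‖ := by
  unfold IF
  rw [← integral_sub (int_ex h x) (int_ex h' x)]
  refine (norm_integral_le_integral_norm _).trans (le_of_eq ?_)
  refine integral_congr_ae (ae_of_all _ fun ξ => ?_)
  simp only
  rw [← sub_mul, norm_mul, norm_ex, mul_one]

lemma IF_lip {ψ : P2 → ℂ} (h : Integrable ψ) (h1 : Integrable fun ξ => wt ξ ^ 1 * ‖ψ ξ‖)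
    (x y : P2) : ‖IF ψ x - IF ψ y‖ ≤ (∫ ξ, wt ξ ^ 1 * ‖ψ ξ‖) * (|x.1 - y.1| + |x.2 - y.2|) := by
  unfold IF
  rw [← integral_sub (int_ex h x) (int_ex h y), ← integral_mul_const]
  refine (norm_integral_le_integral_norm _).trans ?_
  refine integral_mono ((int_ex h x).sub (int_ex h y)).norm (h1.mul_const _) fun ξ => ?_
  simp only
  rw [← mul_sub, norm_mul]
  have h2 := ex_sub_le x y ξ
  have h3 := nm_le_wt ξ
  have h4 : 0 ≤ |x.1 - y.1| + |x.2 - y.2| := by positivity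
  calc ‖ψ ξ‖ * _ ≤ ‖ψ ξ‖ * ((|x.1 - y.1| + |x.2 - y.2|) * wt ξ) := by
        refine mul_le_mul_of_nonneg_left (h2.trans ?_) (norm_nonneg _)
        exact mul_le_mul_of_nonneg_left h3 h4
    _ = _ := by ring

/-- Riemann-Lebesgue -/
lemma IF_dec (ψ : P2 → ℂ) (ε : ℝ) (hε : 0 < ε) :
    ∃ R, ∀ x : P2, R ≤ |x.1| + |x.2| → ‖IF ψ x‖ ≤ ε := by
  let w : P2 → StrongDual ℝ P2 := fun x =>
    (-(x.1 / (2 * Real.pi))) • ContinuousLinearMap.fst ℝ ℝ ℝ +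
      (-(x.2 / (2 * Real.pi))) • ContinuousLinearMap.snd ℝ ℝ ℝ
  have hw1 : ∀ x, |x.1| ≤ 2 * Real.pi * ‖w x‖ := by
    intro x
    have h1 := (w x).le_opNorm ((1 : ℝ), (0 : ℝ))
    have h2 : w x ((1 : ℝ), (0 : ℝ)) = -(x.1 / (2 * Real.pi)) := by simp [w]
    have h3 : ‖((1 : ℝ), (0 : ℝ))‖ = 1 := by simp
    rw [h2, h3, mul_one, norm_neg, norm_div, Real.norm_eq_abs,
      Real.norm_of_nonneg (by positivity), div_le_iff₀ (by positivity)] at h1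
    linarith
  have hw2 : ∀ x, |x.2| ≤ 2 * Real.pi * ‖w x‖ := by
    intro x
    have h1 := (w x).le_opNorm ((0 : ℝ), (1 : ℝ))
    have h2 : w x ((0 : ℝ), (1 : ℝ)) = -(x.2 / (2 * Real.pi)) := by simp [w]
    have h3 : ‖((0 : ℝ), (1 : ℝ))‖ = 1 := by simp
    rw [h2, h3, mul_one, norm_neg, norm_div, Real.norm_eq_abs,
      Real.norm_of_nonneg (by positivity), div_le_iff₀ (by positivity)] at h1
    linarith
  have h := tendsto_integral_exp_smul_cocompact ψ (volume : Measure P2)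
  rw [← Metric.cobounded_eq_cocompact, Metric.tendsto_nhds] at h
  have h0 := h ε hε
  rw [← comap_norm_atTop, eventually_comap] at h0
  obtain ⟨R, hR⟩ := eventually_atTop.1 h0
  refine ⟨4 * Real.pi * R, fun x hx => ?_⟩
  have h1 := hR ‖w x‖ ?_ (w x) rfl
  · rw [dist_zero_right] at h1
    refine le_of_eq_of_le ?_ h1.le
    congr 1
    unfold IF
    refine integral_congr_ae (ae_of_all _ fun ξ => ?_)
    simp only
    rw [Circle.smul_def, Real.fourierChar_apply, smul_eq_mul, mul_comm]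
    congr 2
    have : w x ξ = -(x.1 / (2 * Real.pi)) * ξ.1 + -(x.2 / (2 * Real.pi)) * ξ.2 := by
      simp [w]
    rw [this, mul_comm I]
    congr 2
    have := Real.pi_ne_zero
    field_simp
    ring
  · have := hw1 x
    have := hw2 x
    have h5 : 4 * Real.pi * R ≤ 4 * Real.pi * ‖w x‖ := by linarith
    exact le_of_mul_le_mul_left h5 (by positivity)

variable {α κ T : ℝ} {θ : ℝ → P2 → ℝ} {φ : ℝ → P2 → ℂ}

lemma sobN (h : Sol α κ T θ φ) {t : ℝ} (ht : t ∈ Ioo 0 T) (m : ℕ) :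
    Integrable (fun ξ => wt ξ ^ m * ‖φ t ξ‖ ^ 2) := by
  have h1 := h.sob t ht m
  simp only [Real.rpow_natCast] at h1
  exact h1

lemma intN (h : Sol α κ T θ φ) {t : ℝ} (ht : t ∈ Ioo 0 T) (k : ℕ) :
    Integrable (fun ξ => wt ξ ^ k * ‖φ t ξ‖) :=
  (l1 k (φ t) (h.meas t ht) (sobN h ht _)).1

lemma int0 (h : Sol α κ T θ φ) {t : ℝ} (ht : t ∈ Ioo 0 T) : Integrable (φ t) := by
  have h1 := intN h ht 0
  simp only [pow_zero, one_mul] at h1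
  exact (integrable_norm_iff (h.meas t ht)).1 h1

lemma sobD (h : Sol α κ T θ φ) {t t' : ℝ} (ht : t ∈ Ioo 0 T) (ht' : t' ∈ Ioo 0 T) (m : ℕ) :
    Integrable (fun ξ => wt ξ ^ m * ‖φ t' ξ - φ t ξ‖ ^ 2) := by
  have h1 := ((sobN h ht m).const_mul 2).add ((sobN h ht' m).const_mul 2)
  refine h1.mono' ?_ (ae_of_all _ fun ξ => ?_)
  · exact ((continuous_wt.pow _).aestronglyMeasurable).mul
      (((h.meas t' ht').sub (h.meas t ht)).norm.pow 2)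
  · have hw : 0 ≤ wt ξ ^ m := pow_nonneg (wt_pos ξ).le _
    rw [Real.norm_of_nonneg (by positivity)]
    have h2 := norm_sub_le (φ t' ξ) (φ t ξ)
    have h3 : ‖φ t' ξ - φ t ξ‖ ^ 2 ≤ 2 * ‖φ t ξ‖ ^ 2 + 2 * ‖φ t' ξ‖ ^ 2 := by
      nlinarith [norm_nonneg (φ t' ξ - φ t ξ), norm_nonneg (φ t' ξ), norm_nonneg (φ t ξ),
        sq_nonneg (‖φ t' ξ‖ - ‖φ t ξ‖)]
    simp only [Pi.add_apply]
    calc wt ξ ^ m * ‖φ t' ξ - φ t ξ‖ ^ 2 ≤ wt ξ ^ m * (2 * ‖φ t ξ‖ ^ 2 + 2 * ‖φ t' ξ‖ ^ 2) :=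
          mul_le_mul_of_nonneg_left h3 hw
      _ = _ := by ring

lemma l1D (h : Sol α κ T θ φ) {t t' : ℝ} (ht : t ∈ Ioo 0 T) (ht' : t' ∈ Ioo 0 T) (k : ℕ) :
    Integrable (fun ξ => wt ξ ^ k * ‖φ t' ξ - φ t ξ‖) ∧
      ∫ ξ, wt ξ ^ k * ‖φ t' ξ - φ t ξ‖ ≤
        K0 * √(∫ ξ, wt ξ ^ (2 * k + 2) * ‖φ t' ξ - φ t ξ‖ ^ 2) :=
  l1 k (fun ξ => φ t' ξ - φ t ξ) ((h.meas t' ht').sub (h.meas t ht)) (sobD h ht ht' _)

lemma tend (h : Sol α κ T θ φ) {t : ℝ} (ht : t ∈ Ioo 0 T) (k : ℕ) :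
    Tendsto (fun t' => ∫ ξ, wt ξ ^ k * ‖φ t' ξ - φ t ξ‖) (𝓝 t) (𝓝 0) := by
  have h1 := h.cont t ht ((2 * k + 2 : ℕ) : ℝ)
  simp only [Real.rpow_natCast] at h1
  have h2 := ((Real.continuous_sqrt.tendsto 0).comp h1).const_mul K0
  rw [Real.sqrt_zero, mul_zero] at h2
  refine squeeze_zero' (Eventually.of_forall fun t' => ?_) ?_ h2
  · exact integral_nonneg fun ξ => mul_nonneg (pow_nonneg (wt_pos ξ).le _) (norm_nonneg _)
  · filter_upwards [isOpen_Ioo.mem_nhds ht] with t' ht'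
    exact (l1D h ht ht' k).2

lemma tend0 (h : Sol α κ T θ φ) {t : ℝ} (ht : t ∈ Ioo 0 T) :
    Tendsto (fun t' => ∫ ξ, ‖φ t' ξ - φ t ξ‖) (𝓝 t) (𝓝 0) := by
  have h1 := tend h ht 0
  simp only [pow_zero, one_mul] at h1
  exact h1

lemma th_eq (h : Sol α κ T θ φ) {t : ℝ} (ht : t ∈ Ioo 0 T) (x : P2) {s : ℝ}
    (hs : s ∈ Ioo 0 T) (y : P2) : |θ t x - θ s y| = ‖IF (φ t) x - IF (φ s) y‖ := by
  rw [← h.rep t ht, ← h.rep s hs, ← Complex.ofReal_sub, Complex.norm_real, Real.norm_eq_abs]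

/-- the weighted norm -/
noncomputable def An (φ : ℝ → P2 → ℂ) (t : ℝ) : ℝ := ∫ ξ, wt ξ ^ 1 * ‖φ t ξ‖

lemma An_cont (h : Sol α κ T θ φ) : ContinuousOn (An φ) (Ioo 0 T) := by
  intro t ht
  refine ContinuousAt.continuousWithinAt ?_
  unfold ContinuousAt
  rw [tendsto_iff_dist_tendsto_zero]
  refine squeeze_zero' (Eventually.of_forall fun _ => dist_nonneg) ?_ (tend h ht 1)
  filter_upwards [isOpen_Ioo.mem_nhds ht] with t' ht'
  rw [Real.dist_eq]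
  unfold An
  rw [← integral_sub (intN h ht' 1) (intN h ht 1)]
  refine (abs_integral_le_integral_abs).trans ?_
  refine integral_mono ((intN h ht' 1).sub (intN h ht 1)).abs (l1D h ht ht' 1).1 fun ξ => ?_
  simp only
  have hw : 0 ≤ wt ξ ^ 1 := pow_nonneg (wt_pos ξ).le _
  rw [← mul_sub, abs_mul, abs_of_nonneg hw]
  exact mul_le_mul_of_nonneg_left (abs_norm_sub_norm_le _ _) hw

lemma An_nonneg (φ : ℝ → P2 → ℂ) (t : ℝ) : 0 ≤ An φ t :=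
  integral_nonneg fun ξ => mul_nonneg (pow_nonneg (wt_pos ξ).le _) (norm_nonneg _)

lemma lipx (h : Sol α κ T θ φ) {t : ℝ} (ht : t ∈ Ioo 0 T) (x y : P2) :
    |θ t x - θ t y| ≤ An φ t * (|x.1 - y.1| + |x.2 - y.2|) := by
  rw [th_eq h ht x ht y]
  exact IF_lip (int0 h ht) (intN h ht 1) x y

lemma timx (h : Sol α κ T θ φ) {t s : ℝ} (ht : t ∈ Ioo 0 T) (hs : s ∈ Ioo 0 T) (x : P2) :
    |θ t x - θ s x| ≤ ∫ ξ, ‖φ t ξ - φ s ξ‖ := by
  rw [th_eq h ht x hs x]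
  exact IF_sub (int0 h ht) (int0 h hs) x

end REGAux

open REGAux in
theorem reg : Stmt_REG := by
  intro α κ T θ φ h
  refine ⟨fun t ht => ⟨h.meas t ht, fun k => ?_, h.rep t ht⟩, ?_, ?_, ?_⟩
  · refine (intN h ht k).mono' ?_ (ae_of_all _ fun ξ => ?_)
    · exact ((continuous_nm.pow _).aestronglyMeasurable).mul (h.meas t ht).norm
    · rw [Real.norm_of_nonneg (mul_nonneg (pow_nonneg (nm_nonneg ξ) _) (norm_nonneg _))]
      exact mul_le_mul_of_nonneg_right (pow_le_pow_left₀ (nm_nonneg ξ) (nm_le_wt ξ) k)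
        (norm_nonneg _)
  · rintro ⟨t, x⟩ ⟨ht, -⟩
    refine ContinuousAt.continuousWithinAt ?_
    unfold ContinuousAt
    rw [tendsto_iff_dist_tendsto_zero]
    have h1 : Tendsto (fun p : ℝ × P2 => (∫ ξ, ‖φ p.1 ξ - φ t ξ‖) +
        An φ t * (|p.2.1 - x.1| + |p.2.2 - x.2|)) (𝓝 (t, x)) (𝓝 0) := by
      have a1 := (tend0 h ht).comp (continuous_fst.tendsto (t, x))
      have a2 : Continuous fun p : ℝ × P2 => An φ t * (|p.2.1 - x.1| + |p.2.2 - x.2|) := by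
        fun_prop
      have a3 := a1.add (a2.tendsto (t, x))
      simp only [sub_self, abs_zero, add_zero, mul_zero] at a3
      exact a3
    refine squeeze_zero' (Eventually.of_forall fun _ => dist_nonneg) ?_ h1
    have h2 : ∀ᶠ p : ℝ × P2 in 𝓝 (t, x), p.1 ∈ Ioo 0 T :=
      continuous_fst.continuousAt.eventually (isOpen_Ioo.mem_nhds ht)
    filter_upwards [h2] with p hp
    rw [Real.dist_eq]
    calc |θ p.1 p.2 - θ t x| ≤ |θ p.1 p.2 - θ t p.2| + |θ t p.2 - θ t x| := abs_sub_le _ _ _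
      _ ≤ _ := add_le_add (timx h hp ht p.2) (lipx h ht p.2 x)
  · intro t₀ t₁ h0 h1
    have hsub : Icc t₀ t₁ ⊆ Ioo 0 T := fun t ht => ⟨h0.trans_le ht.1, ht.2.trans_lt h1⟩
    obtain ⟨L, hL⟩ := isCompact_Icc.bddAbove_image ((An_cont h).mono hsub)
    refine ⟨max L 0, le_max_right _ _, fun t ht x y => (lipx h (hsub ht) x y).trans ?_⟩
    refine mul_le_mul_of_nonneg_right ?_ (by positivity)
    exact (hL ⟨t, ht, rfl⟩).trans (le_max_left _ _)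
  · intro t₀ t₁ h0 h1 ε hε
    have hsub : Icc t₀ t₁ ⊆ Ioo 0 T := fun t ht => ⟨h0.trans_le ht.1, ht.2.trans_lt h1⟩
    have key : ∃ R, ∀ t ∈ Icc t₀ t₁, t ∈ Ioo 0 T → ∀ x : P2, R ≤ |x.1| + |x.2| → |θ t x| ≤ ε := by
      refine isCompact_Icc.induction_on (p := fun S => ∃ R, ∀ t ∈ S, t ∈ Ioo 0 T → ∀ x : P2,
        R ≤ |x.1| + |x.2| → |θ t x| ≤ ε) ?_ ?_ ?_ ?_
      · exact ⟨0, fun t ht => absurd ht (notMem_empty t)⟩
      · rintro S S' hS ⟨R, hR⟩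
        exact ⟨R, fun t ht => hR t (hS ht)⟩
      · rintro S S' ⟨R, hR⟩ ⟨R', hR'⟩
        refine ⟨max R R', fun t ht hT x hx => ?_⟩
        rcases ht with ht | ht
        · exact hR t ht hT x ((le_max_left _ _).trans hx)
        · exact hR' t ht hT x ((le_max_right _ _).trans hx)
      · intro s hs
        obtain ⟨R, hR⟩ := IF_dec (φ s) (ε / 2) (half_pos hε)
        have h2 : ∀ᶠ t in 𝓝 s, ∫ ξ, ‖φ t ξ - φ s ξ‖ < ε / 2 :=
          (tend0 h (hsub hs)).eventually_lt_const (half_pos hε)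
        refine ⟨_, mem_nhdsWithin_of_mem_nhds h2, R, fun t ht hT x hx => ?_⟩
        have h3 := timx h hT (hsub hs) x
        have h4 : |θ s x| ≤ ε / 2 := by
          have := hR x hx
          rwa [← h.rep s (hsub hs), Complex.norm_real, Real.norm_eq_abs] at this
        have h5 : |θ t x| ≤ |θ t x - θ s x| + |θ s x| := by
          have := abs_add_le (θ t x - θ s x) (θ s x)
          rwa [sub_add_cancel] at this
        have h6 : ∫ ξ, ‖φ t ξ - φ s ξ‖ < ε / 2 := ht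
        linarith
    obtain ⟨R, hR⟩ := key
    exact ⟨R, fun t ht => hR t ht (hsub ht)⟩

end Pool.Agent.SQG
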