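import Pool.Agent.SQG.Stmts2
import Pool.Agent.SQG.Reg

/-!
# The directional seminorm is a continuous function of time (module SQG_CTM, helper83)
-/

set_option autoImplicit false

namespace Pool.Agent.SQG

open Complex MeasureTheory Set Filter Topology ProbabilityTheory

namespace CTMAux

open REGAux

lemma ex_dir (d : ℝ) (h0 : 0 < d) (h1 : d ≤ 1) (x ξ : P2) (a : ℝ) :
    ‖cexp (I * (((x.1 + a) * ξ.1 + x.2 * ξ.2 : ℝ) : ℂ)) -
      cexp (I * ((x.1 * ξ.1 + x.2 * ξ.2 : ℝ) : ℂ))‖ ≤ 2 * |a| ^ d * wt ξ ^ 1 := by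
  have hw := one_le_wt ξ
  have ha : 0 ≤ |a| := abs_nonneg a
  have had : 0 ≤ |a| ^ d := Real.rpow_nonneg ha d
  rcases le_total |a| 1 with h | h
  · have e1 := ex_sub_le (x.1 + a, x.2) x ξ
    simp only [add_sub_cancel_left, sub_self, abs_zero, add_zero] at e1
    refine e1.trans ?_
    have e2 : |a| ≤ |a| ^ d := by
      rcases ha.eq_or_lt with h2 | h2
      · rw [← h2, Real.zero_rpow h0.ne']
      · have := Real.rpow_le_rpow_of_exponent_ge h2 h h1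
        rwa [Real.rpow_one] at this
    have e3 := nm_le_wt ξ
    have e4 := nm_nonneg ξ
    calc |a| * nm ξ ≤ |a| ^ d * wt ξ := mul_le_mul e2 e3 e4 had
      _ ≤ 2 * |a| ^ d * wt ξ ^ 1 := by
        rw [pow_one]
        nlinarith [mul_nonneg had (wt_pos ξ).le]
  · have e1 : ‖cexp (I * (((x.1 + a) * ξ.1 + x.2 * ξ.2 : ℝ) : ℂ)) -
        cexp (I * ((x.1 * ξ.1 + x.2 * ξ.2 : ℝ) : ℂ))‖ ≤ 1 + 1 := by
      refine (norm_sub_le _ _).trans (add_le_add ?_ ?_)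
      · exact (norm_ex (x.1 + a, x.2) ξ).le
      · exact (norm_ex x ξ).le
    have e2 : 1 ≤ |a| ^ d := Real.one_le_rpow h h0.le
    refine e1.trans ?_
    rw [pow_one]
    nlinarith

lemma dirb (d : ℝ) (h0 : 0 < d) (h1 : d ≤ 1) {ψ χ : P2 → ℂ} (h : Integrable ψ) (h' : Integrable χ)
    (hi : Integrable fun ξ => wt ξ ^ 1 * ‖ψ ξ - χ ξ‖) (x : P2) (a : ℝ) :
    ‖(IF ψ (x.1 + a, x.2) - IF ψ x) - (IF χ (x.1 + a, x.2) - IF χ x)‖ ≤
      2 * (∫ ξ, wt ξ ^ 1 * ‖ψ ξ - χ ξ‖) * |a| ^ d := by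
  have i1 := int_ex h (x.1 + a, x.2)
  have i2 := int_ex h x
  have i3 := int_ex h' (x.1 + a, x.2)
  have i4 := int_ex h' x
  have e0 : (IF ψ (x.1 + a, x.2) - IF ψ x) - (IF χ (x.1 + a, x.2) - IF χ x) =
      ∫ ξ : P2, (ψ ξ * cexp (I * (((x.1 + a) * ξ.1 + x.2 * ξ.2 : ℝ) : ℂ)) -
      ψ ξ * cexp (I * ((x.1 * ξ.1 + x.2 * ξ.2 : ℝ) : ℂ)) -
      (χ ξ * cexp (I * (((x.1 + a) * ξ.1 + x.2 * ξ.2 : ℝ) : ℂ)) -
      χ ξ * cexp (I * ((x.1 * ξ.1 + x.2 * ξ.2 : ℝ) : ℂ)))) := by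
    refine Eq.symm ((integral_sub (i1.sub i2) (i3.sub i4)).trans ?_)
    exact congrArg₂ (· - ·) (integral_sub i1 i2) (integral_sub i3 i4)
  rw [e0]
  refine (norm_integral_le_integral_norm _).trans ?_
  have e : 2 * (∫ ξ, wt ξ ^ 1 * ‖ψ ξ - χ ξ‖) * |a| ^ d =
      ∫ ξ, 2 * (wt ξ ^ 1 * ‖ψ ξ - χ ξ‖) * |a| ^ d := by
    rw [integral_mul_const, integral_const_mul]
  rw [e]
  refine integral_mono ((i1.sub i2).sub (i3.sub i4)).norm ((hi.const_mul 2).mul_const _)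
    fun ξ => ?_
  simp only
  have e1 : ψ ξ * cexp (I * (((x.1 + a) * ξ.1 + x.2 * ξ.2 : ℝ) : ℂ)) -
      ψ ξ * cexp (I * ((x.1 * ξ.1 + x.2 * ξ.2 : ℝ) : ℂ)) -
      (χ ξ * cexp (I * (((x.1 + a) * ξ.1 + x.2 * ξ.2 : ℝ) : ℂ)) -
      χ ξ * cexp (I * ((x.1 * ξ.1 + x.2 * ξ.2 : ℝ) : ℂ))) =
      (ψ ξ - χ ξ) * (cexp (I * (((x.1 + a) * ξ.1 + x.2 * ξ.2 : ℝ) : ℂ)) -
      cexp (I * ((x.1 * ξ.1 + x.2 * ξ.2 : ℝ) : ℂ))) := by ring
  rw [e1, norm_mul]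
  calc ‖ψ ξ - χ ξ‖ * _ ≤ ‖ψ ξ - χ ξ‖ * (2 * |a| ^ d * wt ξ ^ 1) :=
        mul_le_mul_of_nonneg_left (ex_dir d h0 h1 x ξ a) (norm_nonneg _)
    _ = _ := by ring

variable {α κ T : ℝ} {θ : ℝ → P2 → ℝ} {φ : ℝ → P2 → ℂ}

/-- the difference quotient -/
noncomputable def Q (θ : ℝ → P2 → ℝ) (d t : ℝ) (p : P2 × ℝ) : ℝ :=
  |θ t (p.1.1 + p.2, p.1.2) - θ t p.1| / |p.2| ^ d

/-- the seminorm -/
noncomputable def Mm (θ : ℝ → P2 → ℝ) (d t : ℝ) : ℝ := ⨆ p : P2 × ℝ, Q θ d t p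

lemma Q_le (h : Sol α κ T θ φ) (d : ℝ) (h0 : 0 < d) (h1 : d ≤ 1) {t s : ℝ}
    (ht : t ∈ Ioo 0 T) (hs : s ∈ Ioo 0 T) (p : P2 × ℝ) :
    Q θ d t p ≤ Q θ d s p + 2 * ∫ ξ, wt ξ ^ 1 * ‖φ t ξ - φ s ξ‖ := by
  obtain ⟨x, a⟩ := p
  unfold Q
  have hn : 0 ≤ ∫ ξ, wt ξ ^ 1 * ‖φ t ξ - φ s ξ‖ :=
    integral_nonneg fun ξ => mul_nonneg (pow_nonneg (wt_pos ξ).le _) (norm_nonneg _)
  rcases eq_or_ne a 0 with ha | ha
  · subst ha
    simp only [abs_zero, Real.zero_rpow h0.ne', div_zero]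
    linarith
  · have hp : 0 < |a| ^ d := Real.rpow_pos_of_pos (abs_pos.2 ha) d
    have e := dirb d h0 h1 (int0 h ht) (int0 h hs) (l1D h hs ht 1).1 x a
    rw [← h.rep t ht, ← h.rep t ht, ← h.rep s hs, ← h.rep s hs, ← Complex.ofReal_sub,
      ← Complex.ofReal_sub, ← Complex.ofReal_sub, Complex.norm_real, Real.norm_eq_abs] at e
    have e2 := abs_sub_abs_le_abs_sub (θ t (x.1 + a, x.2) - θ t x) (θ s (x.1 + a, x.2) - θ s x)
    have e3 : |θ t (x.1 + a, x.2) - θ t x| ≤ |θ s (x.1 + a, x.2) - θ s x| +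
        2 * (∫ ξ, wt ξ ^ 1 * ‖φ t ξ - φ s ξ‖) * |a| ^ d := by linarith
    simp only
    rw [div_le_iff₀ hp, add_mul, div_mul_cancel₀ _ hp.ne']
    exact e3

lemma Q_bdd (h : Sol α κ T θ φ) (d : ℝ) (h0 : 0 < d) (h1 : d ≤ 1) {t : ℝ}
    (ht : t ∈ Ioo 0 T) : BddAbove (range (Q θ d t)) := by
  refine ⟨2 * An φ t, ?_⟩
  rintro _ ⟨⟨x, a⟩, rfl⟩
  unfold Q
  rcases eq_or_ne a 0 with ha | ha
  · subst ha
    simp only [abs_zero, Real.zero_rpow h0.ne', div_zero]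
    have := An_nonneg φ t
    linarith
  · have hp : 0 < |a| ^ d := Real.rpow_pos_of_pos (abs_pos.2 ha) d
    have hi : Integrable fun ξ => wt ξ ^ 1 * ‖φ t ξ - (0 : P2 → ℂ) ξ‖ := by
      simpa using intN h ht 1
    have e := dirb d h0 h1 (int0 h ht) (integrable_zero P2 ℂ volume) hi x a
    have e0 : ∀ y : P2, IF (0 : P2 → ℂ) y = 0 := by
      intro y
      unfold IF
      simp
    simp only [e0, sub_zero, Pi.zero_apply] at e
    rw [← h.rep t ht, ← h.rep t ht, ← Complex.ofReal_sub, Complex.norm_real,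
      Real.norm_eq_abs] at e
    simp only
    rw [div_le_iff₀ hp]
    exact e

lemma Mm_le (h : Sol α κ T θ φ) (d : ℝ) (h0 : 0 < d) (h1 : d ≤ 1) {t s : ℝ}
    (ht : t ∈ Ioo 0 T) (hs : s ∈ Ioo 0 T) :
    Mm θ d t ≤ Mm θ d s + 2 * ∫ ξ, wt ξ ^ 1 * ‖φ t ξ - φ s ξ‖ := by
  refine ciSup_le fun p => (Q_le h d h0 h1 ht hs p).trans ?_
  have := le_ciSup (Q_bdd h d h0 h1 hs) p
  unfold Mm
  linarith

end CTMAux

open REGAux CTMAux in
theorem ctm : Stmt_CTM := by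
  intro α κ T θ φ h d h0 h1
  refine ⟨Mm θ d, ?_, ?_, ?_⟩
  · intro t ht
    refine ContinuousAt.continuousWithinAt ?_
    unfold ContinuousAt
    rw [tendsto_iff_dist_tendsto_zero]
    have h2 := (tend h ht 1).const_mul 2
    rw [mul_zero] at h2
    refine squeeze_zero' (Eventually.of_forall fun _ => dist_nonneg) ?_ h2
    filter_upwards [isOpen_Ioo.mem_nhds ht] with t' ht'
    rw [Real.dist_eq, abs_le]
    have a1 := Mm_le h d h0 h1 ht ht'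
    have a2 := Mm_le h d h0 h1 ht' ht
    have a3 : ∫ ξ, wt ξ ^ 1 * ‖φ t ξ - φ t' ξ‖ = ∫ ξ, wt ξ ^ 1 * ‖φ t' ξ - φ t ξ‖ := by
      refine integral_congr_ae (ae_of_all _ fun ξ => ?_)
      simp only
      rw [norm_sub_rev]
    rw [a3] at a1
    constructor <;> linarith
  · intro t ht
    refine ⟨Real.iSup_nonneg fun p => by unfold Q; positivity, fun x a => ?_⟩
    rcases eq_or_ne a 0 with ha | ha
    · subst ha
      simp [Real.zero_rpow h0.ne']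
    · have hp : 0 < |a| ^ d := Real.rpow_pos_of_pos (abs_pos.2 ha) d
      have := le_ciSup (Q_bdd h d h0 h1 ht) (x, a)
      have h3 : |θ t (x.1 + a, x.2) - θ t x| / |a| ^ d ≤ Mm θ d t := this
      rwa [div_le_iff₀ hp] at h3
  · intro t ht M' hM
    refine ciSup_le fun p => ?_
    obtain ⟨x, a⟩ := p
    unfold Q
    simp only
    rcases eq_or_ne a 0 with ha | ha
    · subst ha
      rw [abs_zero, Real.zero_rpow h0.ne', div_zero]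
      have := hM x 1
      rw [abs_one, Real.one_rpow, mul_one] at this
      exact (abs_nonneg _).trans this
    · have hp : 0 < |a| ^ d := Real.rpow_pos_of_pos (abs_pos.2 ha) d
      rw [div_le_iff₀ hp]
      exact hM x a

end Pool.Agent.SQG
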