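import Pool.Agent.SQG.Stmts6
import Pool.Agent.SQG.Ctm

/-!
# The optimal directional coefficient is a continuous function of time (module SQG_CT2, helper15)
-/

set_option autoImplicit false

namespace Pool.Agent.SQG

open Complex MeasureTheory Set Filter Topology ProbabilityTheory

namespace CT2Aux

open REGAux CTMAux

variable {α κ T : ℝ} {θ : ℝ → P2 → ℝ} {φ : ℝ → P2 → ℂ}

/-- the quotient, with the defect `ε |a|^β` -/
noncomputable def Qe (θ : ℝ → P2 → ℝ) (d ε β t : ℝ) (p : P2 × ℝ) : ℝ :=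
  max 0 ((|θ t (p.1.1 + p.2, p.1.2) - θ t p.1| - ε * |p.2| ^ β) / |p.2| ^ d)

/-- the optimal coefficient -/
noncomputable def Me (θ : ℝ → P2 → ℝ) (d ε β t : ℝ) : ℝ := ⨆ p : P2 × ℝ, Qe θ d ε β t p

lemma Qe_nonneg (d ε β t : ℝ) (p : P2 × ℝ) : 0 ≤ Qe θ d ε β t p := le_max_left _ _

lemma Qe_zero (d ε β t : ℝ) (h0 : 0 < d) (x : P2) : Qe θ d ε β t (x, 0) = 0 := by
  unfold Qe
  simp [Real.zero_rpow h0.ne']

/-- the increments of two times, in one direction -/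
lemma dir_ts (h : Sol α κ T θ φ) (d : ℝ) (h0 : 0 < d) (h1 : d ≤ 1) {t s : ℝ}
    (ht : t ∈ Ioo 0 T) (hs : s ∈ Ioo 0 T) (x : P2) (a : ℝ) :
    |θ t (x.1 + a, x.2) - θ t x| ≤ |θ s (x.1 + a, x.2) - θ s x| +
        2 * (∫ ξ, wt ξ ^ 1 * ‖φ t ξ - φ s ξ‖) * |a| ^ d := by
  have e := dirb d h0 h1 (int0 h ht) (int0 h hs) (l1D h hs ht 1).1 x a
  rw [← h.rep t ht, ← h.rep t ht, ← h.rep s hs, ← h.rep s hs, ← Complex.ofReal_sub,
    ← Complex.ofReal_sub, ← Complex.ofReal_sub, Complex.norm_real, Real.norm_eq_abs] at e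
  have e2 := abs_sub_abs_le_abs_sub (θ t (x.1 + a, x.2) - θ t x) (θ s (x.1 + a, x.2) - θ s x)
  linarith

lemma Qe_le (h : Sol α κ T θ φ) (d ε β : ℝ) (h0 : 0 < d) (h1 : d ≤ 1) {t s : ℝ}
    (ht : t ∈ Ioo 0 T) (hs : s ∈ Ioo 0 T) (p : P2 × ℝ) :
    Qe θ d ε β t p ≤ Qe θ d ε β s p + 2 * ∫ ξ, wt ξ ^ 1 * ‖φ t ξ - φ s ξ‖ := by
  obtain ⟨x, a⟩ := p
  have hn : 0 ≤ ∫ ξ, wt ξ ^ 1 * ‖φ t ξ - φ s ξ‖ :=
    integral_nonneg fun ξ => mul_nonneg (pow_nonneg (wt_pos ξ).le _) (norm_nonneg _)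
  rcases eq_or_ne a 0 with ha | ha
  · subst ha
    rw [Qe_zero d ε β t h0, Qe_zero d ε β s h0]
    linarith
  · have hp : 0 < |a| ^ d := Real.rpow_pos_of_pos (abs_pos.2 ha) d
    have e3 := dir_ts h d h0 h1 ht hs x a
    have e4 := Qe_nonneg (θ := θ) d ε β s (x, a)
    refine max_le (by linarith) ?_
    have e5 : (|θ s (x.1 + a, x.2) - θ s x| - ε * |a| ^ β) / |a| ^ d ≤ Qe θ d ε β s (x, a) :=
      le_max_right _ _
    rw [div_le_iff₀ hp] at e5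
    simp only
    rw [div_le_iff₀ hp, add_mul]
    linarith

lemma Qe_bdd (h : Sol α κ T θ φ) (d ε β : ℝ) (h0 : 0 < d) (h1 : d ≤ 1) (hε : 0 ≤ ε) {t : ℝ}
    (ht : t ∈ Ioo 0 T) : BddAbove (range (Qe θ d ε β t)) := by
  obtain ⟨B, hB⟩ := Q_bdd h d h0 h1 ht
  have hQ : ∀ p, Q θ d t p ≤ B := fun p => hB (mem_range_self p)
  refine ⟨B, ?_⟩
  rintro _ ⟨⟨x, a⟩, rfl⟩
  have h2 := hQ (x, a)
  have h3 : 0 ≤ Q θ d t (x, a) := by unfold Q; positivity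
  refine max_le (h3.trans h2) (le_trans ?_ h2)
  unfold Q
  simp only
  have h4 : 0 ≤ |a| ^ d := Real.rpow_nonneg (abs_nonneg a) d
  have h5 : 0 ≤ ε * |a| ^ β := mul_nonneg hε (Real.rpow_nonneg (abs_nonneg a) β)
  exact div_le_div_of_nonneg_right (by linarith) h4

lemma Me_le (h : Sol α κ T θ φ) (d ε β : ℝ) (h0 : 0 < d) (h1 : d ≤ 1) (hε : 0 ≤ ε) {t s : ℝ}
    (ht : t ∈ Ioo 0 T) (hs : s ∈ Ioo 0 T) :
    Me θ d ε β t ≤ Me θ d ε β s + 2 * ∫ ξ, wt ξ ^ 1 * ‖φ t ξ - φ s ξ‖ := by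
  refine ciSup_le fun p => (Qe_le h d ε β h0 h1 ht hs p).trans ?_
  have := le_ciSup (Qe_bdd h d ε β h0 h1 hε hs) p
  unfold Me
  linarith

end CT2Aux

open REGAux CTMAux CT2Aux in
theorem ct2 : Stmt_CT2 := by
  intro α κ T θ φ h d ε β h0 h1 hε hβ
  refine ⟨Me θ d ε β, ?_, ?_, ?_⟩
  · intro t ht
    refine ContinuousAt.continuousWithinAt ?_
    unfold ContinuousAt
    rw [tendsto_iff_dist_tendsto_zero]
    have h2 := (tend h ht 1).const_mul 2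
    rw [mul_zero] at h2
    refine squeeze_zero' (Eventually.of_forall fun _ => dist_nonneg) ?_ h2
    filter_upwards [isOpen_Ioo.mem_nhds ht] with t' ht'
    rw [Real.dist_eq, abs_le]
    have a1 := Me_le h d ε β h0 h1 hε ht ht'
    have a2 := Me_le h d ε β h0 h1 hε ht' ht
    have a3 : ∫ ξ, wt ξ ^ 1 * ‖φ t ξ - φ t' ξ‖ = ∫ ξ, wt ξ ^ 1 * ‖φ t' ξ - φ t ξ‖ := by
      refine integral_congr_ae (ae_of_all _ fun ξ => ?_)
      simp only
      rw [norm_sub_rev]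
    rw [a3] at a1
    constructor <;> linarith
  · intro t ht
    refine ⟨Real.iSup_nonneg fun p => Qe_nonneg d ε β t p, fun x a => ?_⟩
    rcases eq_or_ne a 0 with ha | ha
    · subst ha
      simp [Real.zero_rpow h0.ne', Real.zero_rpow hβ.ne']
    · have hp : 0 < |a| ^ d := Real.rpow_pos_of_pos (abs_pos.2 ha) d
      have h3 : (|θ t (x.1 + a, x.2) - θ t x| - ε * |a| ^ β) / |a| ^ d ≤ Me θ d ε β t :=
        (le_max_right _ _).trans (le_ciSup (Qe_bdd h d ε β h0 h1 hε ht) (x, a))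
      rw [div_le_iff₀ hp] at h3
      linarith
  · intro t ht M' hM0 hM
    refine ciSup_le fun p => ?_
    obtain ⟨x, a⟩ := p
    rcases eq_or_ne a 0 with ha | ha
    · subst ha
      rw [Qe_zero d ε β t h0]
      exact hM0
    · have hp : 0 < |a| ^ d := Real.rpow_pos_of_pos (abs_pos.2 ha) d
      refine max_le hM0 ?_
      simp only
      rw [div_le_iff₀ hp]
      have := hM x a
      linarith

end Pool.Agent.SQG
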