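import Pool.Agent.SQG.Stmts

/-!
# Hölder regularity in one direction excludes blow-up: elementary facts on smooth functions
-/

set_option autoImplicit false

namespace Pool.Agent.SQG

open Complex MeasureTheory Set Filter Topology ProbabilityTheory

namespace DERAux

lemma abs_fst_le (ξ : P2) : |ξ.1| ≤ nm ξ := by
  unfold nm
  rw [← Real.sqrt_sq_eq_abs]
  exact Real.sqrt_le_sqrt (by nlinarith [sq_nonneg ξ.2])

lemma abs_snd_le (ξ : P2) : |ξ.2| ≤ nm ξ := by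
  unfold nm
  rw [← Real.sqrt_sq_eq_abs]
  exact Real.sqrt_le_sqrt (by nlinarith [sq_nonneg ξ.1])

lemma nm_nonneg (ξ : P2) : 0 ≤ nm ξ := Real.sqrt_nonneg _

lemma sr_apply (L : P2 →L[ℝ] ℝ) (c : ℂ) (v : P2) :
    ContinuousLinearMap.smulRightL ℝ P2 ℂ L c v = (L v : ℂ) * c := by
  change (L v) • c = _
  exact Complex.real_smul

/-- the exponential -/
noncomputable def ex (x ξ : P2) : ℂ := cexp (I * ((x.1 * ξ.1 + x.2 * ξ.2 : ℝ) : ℂ))

lemma norm_ex (x ξ : P2) : ‖ex x ξ‖ = 1 := by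
  unfold ex
  rw [mul_comm]
  exact Complex.norm_exp_ofReal_mul_I _

lemma cont_ex (x : P2) : Continuous (ex x) := by
  unfold ex
  fun_prop

lemma IF_eq (φ : P2 → ℂ) (x : P2) : IF φ x = ∫ ξ, φ ξ * ex x ξ := rfl

lemma norm_D1_le (φ : P2 → ℂ) (ξ : P2) : ‖D1 φ ξ‖ ≤ nm ξ ^ 1 * ‖φ ξ‖ := by
  unfold D1
  rw [norm_mul, norm_mul, Complex.norm_I, one_mul, pow_one, Complex.norm_real, Real.norm_eq_abs]
  exact mul_le_mul_of_nonneg_right (abs_fst_le ξ) (norm_nonneg _)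

lemma norm_D2_le (φ : P2 → ℂ) (ξ : P2) : ‖D2 φ ξ‖ ≤ nm ξ ^ 1 * ‖φ ξ‖ := by
  unfold D2
  rw [norm_mul, norm_mul, Complex.norm_I, one_mul, pow_one, Complex.norm_real, Real.norm_eq_abs]
  exact mul_le_mul_of_nonneg_right (abs_snd_le ξ) (norm_nonneg _)

lemma meas_D1 {φ : P2 → ℂ} (h : AEStronglyMeasurable φ) : AEStronglyMeasurable (D1 φ) := by
  unfold D1
  exact (Continuous.aestronglyMeasurable (by fun_prop)).mul h

lemma meas_D2 {φ : P2 → ℂ} (h : AEStronglyMeasurable φ) : AEStronglyMeasurable (D2 φ) := by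
  unfold D2
  exact (Continuous.aestronglyMeasurable (by fun_prop)).mul h

lemma meas_ex {ψ : P2 → ℂ} (h : AEStronglyMeasurable ψ) (x : P2) :
    AEStronglyMeasurable (fun ξ => ψ ξ * ex x ξ) :=
  h.mul (cont_ex x).aestronglyMeasurable

/-- The derivative of the integrand. -/
noncomputable def Fd (φ : P2 → ℂ) (x ξ : P2) : P2 →L[ℝ] ℂ :=
  ContinuousLinearMap.smulRightL ℝ P2 ℂ (ContinuousLinearMap.fst ℝ ℝ ℝ) (D1 φ ξ * ex x ξ) +
    ContinuousLinearMap.smulRightL ℝ P2 ℂ (ContinuousLinearMap.snd ℝ ℝ ℝ) (D2 φ ξ * ex x ξ)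

lemma Fd_apply (φ : P2 → ℂ) (x ξ v : P2) :
    Fd φ x ξ v = (v.1 : ℂ) * (D1 φ ξ * ex x ξ) + (v.2 : ℂ) * (D2 φ ξ * ex x ξ) := by
  unfold Fd
  rw [ContinuousLinearMap.add_apply, sr_apply, sr_apply]
  rfl

lemma norm_Fd_le (φ : P2 → ℂ) (x ξ : P2) : ‖Fd φ x ξ‖ ≤ 2 * (nm ξ ^ 1 * ‖φ ξ‖) := by
  have hn := nm_nonneg ξ
  refine ContinuousLinearMap.opNorm_le_bound _ (by positivity) fun v => ?_
  rw [Fd_apply]
  have h1 : ‖(v.1 : ℂ) * (D1 φ ξ * ex x ξ)‖ ≤ nm ξ ^ 1 * ‖φ ξ‖ * ‖v‖ := by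
    rw [norm_mul, norm_mul, norm_ex, mul_one, Complex.norm_real, mul_comm]
    exact mul_le_mul (norm_D1_le φ ξ) (norm_fst_le v) (norm_nonneg _) (by positivity)
  have h2 : ‖(v.2 : ℂ) * (D2 φ ξ * ex x ξ)‖ ≤ nm ξ ^ 1 * ‖φ ξ‖ * ‖v‖ := by
    rw [norm_mul, norm_mul, norm_ex, mul_one, Complex.norm_real, mul_comm]
    exact mul_le_mul (norm_D2_le φ ξ) (norm_snd_le v) (norm_nonneg _) (by positivity)
  calc _ ≤ _ := norm_add_le _ _
    _ ≤ nm ξ ^ 1 * ‖φ ξ‖ * ‖v‖ + nm ξ ^ 1 * ‖φ ξ‖ * ‖v‖ := add_le_add h1 h2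
    _ = _ := by ring

lemma hasF (φ : P2 → ℂ) (x ξ : P2) : HasFDerivAt (fun y => φ ξ * ex y ξ) (Fd φ x ξ) x := by
  have h1 : HasFDerivAt (fun y : P2 => y.1 * ξ.1 + y.2 * ξ.2)
      (ξ.1 • ContinuousLinearMap.fst ℝ ℝ ℝ + ξ.2 • ContinuousLinearMap.snd ℝ ℝ ℝ) x := by
    exact (hasFDerivAt_fst.mul_const ξ.1).add (hasFDerivAt_snd.mul_const ξ.2)
  have h2 : HasFDerivAt (fun y : P2 => ((y.1 * ξ.1 + y.2 * ξ.2 : ℝ) : ℂ))
      (Complex.ofRealCLM.comp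
        (ξ.1 • ContinuousLinearMap.fst ℝ ℝ ℝ + ξ.2 • ContinuousLinearMap.snd ℝ ℝ ℝ)) x :=
    Complex.ofRealCLM.hasFDerivAt.comp x h1
  have h3 := ((h2.const_mul I).cexp).const_mul (φ ξ)
  refine h3.congr_fderiv ?_
  ext v
  · simp only [ContinuousLinearMap.comp_apply, ContinuousLinearMap.inl_apply, Fd_apply]
    simp [D1, D2, ex]
    ring
  · simp only [ContinuousLinearMap.comp_apply, ContinuousLinearMap.inr_apply, Fd_apply]
    simp [D1, D2, ex]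
    ring

lemma int_of_le {φ ψ : P2 → ℂ} {k : ℕ} (h : Integrable (fun ξ => nm ξ ^ k * ‖φ ξ‖))
    (hψ : AEStronglyMeasurable ψ) (hb : ∀ ξ, ‖ψ ξ‖ ≤ nm ξ ^ k * ‖φ ξ‖) (x : P2) :
    Integrable (fun ξ => ψ ξ * ex x ξ) := by
  refine h.mono' (meas_ex hψ x) (Filter.Eventually.of_forall fun ξ => ?_)
  rw [norm_mul, norm_ex, mul_one]
  exact hb ξ

/-- The derivative of the inverse Fourier transform. -/
lemma hasIF {f : P2 → ℝ} {φ : P2 → ℂ} (h : NF f φ) (x : P2) :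
    HasFDerivAt (IF φ)
      (ContinuousLinearMap.smulRightL ℝ P2 ℂ (ContinuousLinearMap.fst ℝ ℝ ℝ) (IF (D1 φ) x) +
        ContinuousLinearMap.smulRightL ℝ P2 ℂ (ContinuousLinearMap.snd ℝ ℝ ℝ) (IF (D2 φ) x))
      x := by
  have i1 := int_of_le (h.int 1) (meas_D1 h.meas) (norm_D1_le φ) x
  have i2 := int_of_le (h.int 1) (meas_D2 h.meas) (norm_D2_le φ) x
  have i0 := int_of_le (h.int 0) h.meas (fun ξ => by simp) x
  have e1 : ∫ ξ, ContinuousLinearMap.smulRightL ℝ P2 ℂ (ContinuousLinearMap.fst ℝ ℝ ℝ)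
      (D1 φ ξ * ex x ξ) = ContinuousLinearMap.smulRightL ℝ P2 ℂ
        (ContinuousLinearMap.fst ℝ ℝ ℝ) (IF (D1 φ) x) :=
    ContinuousLinearMap.integral_comp_comm _ i1
  have e2 : ∫ ξ, ContinuousLinearMap.smulRightL ℝ P2 ℂ (ContinuousLinearMap.snd ℝ ℝ ℝ)
      (D2 φ ξ * ex x ξ) = ContinuousLinearMap.smulRightL ℝ P2 ℂ
        (ContinuousLinearMap.snd ℝ ℝ ℝ) (IF (D2 φ) x) :=
    ContinuousLinearMap.integral_comp_comm _ i2
  have j1 := ContinuousLinearMap.integrable_comp (ContinuousLinearMap.smulRightL ℝ P2 ℂ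
    (ContinuousLinearMap.fst ℝ ℝ ℝ)) i1
  have j2 := ContinuousLinearMap.integrable_comp (ContinuousLinearMap.smulRightL ℝ P2 ℂ
    (ContinuousLinearMap.snd ℝ ℝ ℝ)) i2
  have e3 : ∫ ξ, Fd φ x ξ =
      ContinuousLinearMap.smulRightL ℝ P2 ℂ (ContinuousLinearMap.fst ℝ ℝ ℝ) (IF (D1 φ) x) +
        ContinuousLinearMap.smulRightL ℝ P2 ℂ (ContinuousLinearMap.snd ℝ ℝ ℝ)
          (IF (D2 φ) x) := by
    rw [← e1, ← e2]
    exact integral_add j1 j2
  rw [← e3]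
  exact hasFDerivAt_integral_of_dominated_of_fderiv_le (F := fun y ξ => φ ξ * ex y ξ)
    (F' := fun y ξ => Fd φ y ξ) (bound := fun ξ => 2 * (nm ξ ^ 1 * ‖φ ξ‖)) Filter.univ_mem
    (Filter.Eventually.of_forall fun y => meas_ex h.meas y) i0
    (j1.aestronglyMeasurable.add j2.aestronglyMeasurable)
    (Filter.Eventually.of_forall fun ξ y _ => norm_Fd_le φ y ξ) ((h.int 1).const_mul 2)
    (Filter.Eventually.of_forall fun ξ y _ => hasF φ y ξ)

end DERAux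

open DERAux in
theorem der : Stmt_DER := by
  intro f φ h
  have key : ∀ x, IF (D1 φ) x = (((IF (D1 φ) x).re : ℝ) : ℂ) ∧
      IF (D2 φ) x = (((IF (D2 φ) x).re : ℝ) : ℂ) ∧
      HasFDerivAt f ((IF (D1 φ) x).re • ContinuousLinearMap.fst ℝ ℝ ℝ +
        (IF (D2 φ) x).re • ContinuousLinearMap.snd ℝ ℝ ℝ) x := by
    intro x
    have h0 := hasIF h x
    have hf : IF φ = fun y => (f y : ℂ) := funext fun y => (h.rep y).symm
    rw [hf] at h0
    have hre := Complex.reCLM.hasFDerivAt.comp x h0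
    have him := Complex.imCLM.hasFDerivAt.comp x h0
    have him0 : HasFDerivAt (fun _ : P2 => (0 : ℝ)) (0 : P2 →L[ℝ] ℝ) x :=
      hasFDerivAt_const (0 : ℝ) x
    have him' : (Complex.imCLM ∘ fun y => (f y : ℂ)) = fun _ : P2 => (0 : ℝ) := by
      funext y
      simp
    rw [him'] at him
    have hu := him.unique him0
    have hre' : (Complex.reCLM ∘ fun y => (f y : ℂ)) = f := by
      funext y
      simp
    rw [hre'] at hre
    have k1 : (IF (D1 φ) x).im = 0 := by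
      have := congrArg (fun L : P2 →L[ℝ] ℝ => L (1, 0)) hu
      simpa [sr_apply]
        using this
    have k2 : (IF (D2 φ) x).im = 0 := by
      have := congrArg (fun L : P2 →L[ℝ] ℝ => L (0, 1)) hu
      simpa [sr_apply]
        using this
    refine ⟨Complex.ext (by simp) (by simp [k1]), Complex.ext (by simp) (by simp [k2]), ?_⟩
    refine hre.congr_fderiv ?_
    ext v
    · simp [sr_apply]
    · simp [sr_apply]
  refine ⟨?_, ⟨∫ ξ, ‖φ ξ‖, fun x => ?_⟩, key⟩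
  · exact continuous_iff_continuousAt.2 fun x => (key x).2.2.continuousAt
  · have h1 : |f x| = ‖IF φ x‖ := by rw [← h.rep x, Complex.norm_real, Real.norm_eq_abs]
    rw [h1, IF_eq]
    refine (norm_integral_le_integral_norm _).trans (le_of_eq ?_)
    congr 1
    funext ξ
    rw [norm_mul, norm_ex, mul_one]

end Pool.Agent.SQG
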