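import Pool.Agent.SQG.Stmts

/-!
# SQG, module FOC: the equation at a touching point
-/

set_option autoImplicit false

namespace Pool.Agent.SQG

open Complex MeasureTheory Set Filter Topology ProbabilityTheory

namespace FOCAux

/-- a function which is at most its value at `t` to the left of `t` has a nonnegative derivative -/
theorem deriv_nonneg_left {f : ℝ → ℝ} {f' t t₀ : ℝ} (ht : t₀ < t) (hf : HasDerivAt f f' t)
    (hmax : ∀ s ∈ Icc t₀ t, f s ≤ f t) : 0 ≤ f' := by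
  have h1 : HasDerivWithinAt f f' (Iio t) t := hf.hasDerivWithinAt
  rw [hasDerivWithinAt_iff_tendsto_slope' (by simp)] at h1
  refine ge_of_tendsto h1 ?_
  have h2 : Ioo t₀ t ∈ 𝓝[<] t := Ioo_mem_nhdsLT ht
  filter_upwards [h2] with s hs
  rw [slope_def_field]
  have h3 : f s - f t ≤ 0 := by linarith [hmax s ⟨hs.1.le, hs.2.le⟩]
  have h4 : s - t ≤ 0 := by linarith [hs.2]
  exact div_nonneg_of_nonpos h3 h4

/-- the region is a neighbourhood of its strict points -/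
theorem Rg_mem {lam : ℝ} {h : P2} (h0 : 0 < |h.2|) (h1 : |h.2| < 1) (h2 : |h.1| < |h.2| ^ lam) :
    Rg lam ∈ 𝓝 h := by
  have c1 : ContinuousAt (fun k : P2 => |k.2|) h := by fun_prop
  have c2 : ContinuousAt (fun k : P2 => |k.1|) h := by fun_prop
  have c3 : ContinuousAt (fun k : P2 => |k.2| ^ lam) h := c1.rpow_const (Or.inl h0.ne')
  have e1 : ∀ᶠ k : P2 in 𝓝 h, 0 < |k.2| := c1.eventually (lt_mem_nhds h0)
  have e2 : ∀ᶠ k : P2 in 𝓝 h, |k.2| < 1 := c1.eventually (gt_mem_nhds h1)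
  have e3 : ∀ᶠ k : P2 in 𝓝 h, |k.1| < |k.2| ^ lam := c2.eventually_lt c3 h2
  filter_upwards [e1, e2, e3] with k k1 k2 k3
  exact ⟨k1, k2.le, k3.le⟩

theorem hasDerivAt_abs_rpow {y : ℝ} (hy : y ≠ 0) (p : ℝ) :
    ∃ σ : ℝ, |σ| = 1 ∧ HasDerivAt (fun z : ℝ => |z| ^ p) (σ * (p * |y| ^ (p - 1))) y := by
  rcases lt_or_gt_of_ne hy with h | h
  · refine ⟨-1, by norm_num, ?_⟩
    have h1 : HasDerivAt (fun z : ℝ => |z|) (-1) y := hasDerivAt_abs_neg h
    have h2 := h1.rpow_const (p := p) (Or.inl (abs_pos.2 hy).ne')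
    convert h2 using 1
    ring
  · refine ⟨1, by norm_num, ?_⟩
    have h1 : HasDerivAt (fun z : ℝ => |z|) 1 y := hasDerivAt_abs_pos h
    have h2 := h1.rpow_const (p := p) (Or.inl (abs_pos.2 hy).ne')
    convert h2 using 1
    ring

end FOCAux

theorem foc (hR : Stmt_REG) (hD : Stmt_DER) : Stmt_FOC := by
  intro α κ T θ φ hS N M β lam δ t₀ t x h ht0 htt htT hM hN hβ hlam hδ h20 h21 h12 heq hle
  have htI : t ∈ Ioo 0 T := ⟨ht0.trans htt, htT⟩
  have hNF : NF (θ t) (φ t) := (hR α κ T θ φ hS).1 t htI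
  obtain ⟨-, -, hder⟩ := hD (θ t) (φ t) hNF
  have hRg : h ∈ Rg lam := ⟨h20, h21.le, h12.le⟩
  have h2ne : h.2 ≠ 0 := abs_pos.1 h20
  -- the gradient
  set p1 : P2 → ℝ := fun y => (IF (D1 (φ t)) y).re with hp1
  set p2 : P2 → ℝ := fun y => (IF (D2 (φ t)) y).re with hp2
  have hfd : ∀ y, HasFDerivAt (θ t) (p1 y • ContinuousLinearMap.fst ℝ ℝ ℝ +
      p2 y • ContinuousLinearMap.snd ℝ ℝ ℝ) y := fun y => (hder y).2.2
  have hD1 : ∀ y, IF (D1 (φ t)) y = ((p1 y : ℝ) : ℂ) := fun y => (hder y).1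
  have hD2 : ∀ y, IF (D2 (φ t)) y = ((p2 y : ℝ) : ℂ) := fun y => (hder y).2.1
  -- (1) time derivative
  have htime : ∀ y, HasDerivAt (fun s => θ s y)
      ((-(IF (V1 (φ t)) y * IF (D1 (φ t)) y + IF (V2 (φ t)) y * IF (D2 (φ t)) y) -
      κ * IF (LL α (φ t)) y).re) t := by
    intro y
    have h1 := hS.eqn t htI y
    have h2 := Complex.reCLM.hasFDerivAt.comp_hasDerivAt t h1
    simpa [Function.comp_def] using h2
  have hT := (htime (x + h)).sub (htime x)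
  have hnonneg := FOCAux.deriv_nonneg_left htt hT (by
    intro s hs
    have h1 := hle s hs x h hRg
    have h2 := (abs_le.1 h1).2
    simp only [Pi.sub_apply]
    rw [heq]
    exact h2)
  -- (2) the gradients agree
  have hmax2 : IsLocalMax (fun y => θ t (y + h) - θ t y) x := by
    refine Filter.Eventually.of_forall fun y => ?_
    show θ t (y + h) - θ t y ≤ θ t (x + h) - θ t x
    rw [heq]
    exact (abs_le.1 (hle t ⟨htt.le, le_rfl⟩ y h hRg)).2
  have hfd2 : HasFDerivAt (fun y => θ t (y + h) - θ t y)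
      ((p1 (x + h) • ContinuousLinearMap.fst ℝ ℝ ℝ + p2 (x + h) • ContinuousLinearMap.snd ℝ ℝ ℝ) -
        (p1 x • ContinuousLinearMap.fst ℝ ℝ ℝ + p2 x • ContinuousLinearMap.snd ℝ ℝ ℝ)) x := by
    have h1 : HasFDerivAt (fun y => θ t (y + h))
        (p1 (x + h) • ContinuousLinearMap.fst ℝ ℝ ℝ + p2 (x + h) • ContinuousLinearMap.snd ℝ ℝ ℝ) x :=
      (hasFDerivAt_comp_add_right h).2 (hfd (x + h))
    exact h1.sub (hfd x)
  have hz := hmax2.hasFDerivAt_eq_zero hfd2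
  have e1 : p1 (x + h) = p1 x := by
    have := congrArg (fun L : P2 →L[ℝ] ℝ => L (1, 0)) hz
    simp at this
    linarith
  have e2 : p2 (x + h) = p2 x := by
    have := congrArg (fun L : P2 →L[ℝ] ℝ => L (0, 1)) hz
    simp at this
    linarith
  -- (3) the gradient is the gradient of the modulus
  have hnb := FOCAux.Rg_mem h20 h21 h12
  have hloc : ∀ᶠ k in 𝓝 h, θ t (x + k) - Om N M β lam δ k ≤ θ t (x + h) - Om N M β lam δ h := by
    filter_upwards [hnb] with k hk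
    have h1 := (abs_le.1 (hle t ⟨htt.le, le_rfl⟩ x k hk)).2
    linarith [heq]
  have hx1 : p1 (x + h) = 4 * M * h.1 * |h.2| ^ (lam * (δ - 2)) := by
    have hc : Tendsto (fun z : ℝ => ((z, h.2) : P2)) (𝓝 h.1) (𝓝 h) := by
      have : ContinuousAt (fun z : ℝ => ((z, h.2) : P2)) h.1 := by fun_prop
      exact this
    have hm : IsLocalMax (fun z : ℝ => θ t (x + (z, h.2)) - Om N M β lam δ (z, h.2)) h.1 := by
      filter_upwards [hc.eventually hloc] with z hz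
      exact hz
    have hl : HasDerivAt (fun z : ℝ => x + ((z, h.2) : P2)) ((1, 0) : P2) h.1 := by
      have : HasDerivAt (fun z : ℝ => ((z, h.2) : P2)) ((1, 0) : P2) h.1 :=
        (hasDerivAt_id h.1).prodMk (hasDerivAt_const h.1 h.2)
      exact this.const_add x
    have hd1 := (hfd (x + h)).comp_hasDerivAt_of_eq h.1 hl rfl
    have hd2 : HasDerivAt (fun z : ℝ => Om N M β lam δ (z, h.2))
        (4 * M * h.1 * |h.2| ^ (lam * (δ - 2))) h.1 := by
      unfold Om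
      have h3 : HasDerivAt (fun z : ℝ => z ^ 2) (2 * h.1) h.1 := by
        simpa using hasDerivAt_pow 2 h.1
      have h4 := (((h3.const_mul (2 * M)).mul_const (|h.2| ^ (lam * (δ - 2)))).const_add
        (N * |h.2| ^ β))
      exact h4.congr_deriv (by ring)
    have h5 := hm.hasDerivAt_eq_zero (hd1.sub hd2)
    simp at h5
    linarith
  have hx2 : |p2 (x + h)| ≤ N * β * |h.2| ^ (β - 1) +
      2 * M * h.1 ^ 2 * (lam * (2 - δ)) * |h.2| ^ (lam * (δ - 2) - 1) := by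
    have hc : Tendsto (fun z : ℝ => ((h.1, z) : P2)) (𝓝 h.2) (𝓝 h) := by
      have : ContinuousAt (fun z : ℝ => ((h.1, z) : P2)) h.2 := by fun_prop
      exact this
    have hm : IsLocalMax (fun z : ℝ => θ t (x + (h.1, z)) - Om N M β lam δ (h.1, z)) h.2 := by
      filter_upwards [hc.eventually hloc] with z hz
      exact hz
    have hl : HasDerivAt (fun z : ℝ => x + ((h.1, z) : P2)) ((0, 1) : P2) h.2 := by
      have : HasDerivAt (fun z : ℝ => ((h.1, z) : P2)) ((0, 1) : P2) h.2 :=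
        (hasDerivAt_const h.2 h.1).prodMk (hasDerivAt_id h.2)
      exact this.const_add x
    have hd1 := (hfd (x + h)).comp_hasDerivAt_of_eq h.2 hl rfl
    obtain ⟨σ, hσ, hdσ⟩ := FOCAux.hasDerivAt_abs_rpow h2ne β
    obtain ⟨τ, hτ, hdτ⟩ := FOCAux.hasDerivAt_abs_rpow h2ne (lam * (δ - 2))
    have hd2 : HasDerivAt (fun z : ℝ => Om N M β lam δ (h.1, z))
        (N * (σ * (β * |h.2| ^ (β - 1))) +
          2 * M * h.1 ^ 2 * (τ * ((lam * (δ - 2)) * |h.2| ^ (lam * (δ - 2) - 1)))) h.2 := by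
      unfold Om
      exact (hdσ.const_mul N).add (hdτ.const_mul (2 * M * h.1 ^ 2))
    have h5 := hm.hasDerivAt_eq_zero (hd1.sub hd2)
    simp at h5
    have h6 : p2 (x + h) = N * (σ * (β * |h.2| ^ (β - 1))) +
          2 * M * h.1 ^ 2 * (τ * ((lam * (δ - 2)) * |h.2| ^ (lam * (δ - 2) - 1))) := by linarith
    rw [h6]
    refine (abs_add_le _ _).trans ?_
    have hp1' : 0 ≤ |h.2| ^ (β - 1) := Real.rpow_nonneg (abs_nonneg _) _
    have hp2' : 0 ≤ |h.2| ^ (lam * (δ - 2) - 1) := Real.rpow_nonneg (abs_nonneg _) _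
    have a1 : |N * (σ * (β * |h.2| ^ (β - 1)))| = N * β * |h.2| ^ (β - 1) := by
      rw [abs_mul, abs_mul, abs_mul, hσ, abs_of_nonneg hN, abs_of_nonneg hβ, abs_of_nonneg hp1']
      ring
    have a2 : |2 * M * h.1 ^ 2 * (τ * ((lam * (δ - 2)) * |h.2| ^ (lam * (δ - 2) - 1)))| =
        2 * M * h.1 ^ 2 * (lam * (2 - δ)) * |h.2| ^ (lam * (δ - 2) - 1) := by
      rw [abs_mul, abs_mul τ, hτ, abs_mul (lam * (δ - 2)), abs_mul lam, abs_of_nonneg hlam,
        abs_of_nonneg hp2', abs_of_nonneg (by positivity : 0 ≤ 2 * M * h.1 ^ 2),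
        abs_of_nonpos (by linarith : δ - 2 ≤ 0)]
      ring
    rw [a1, a2]
  -- (4) combine
  have e1' : IF (D1 (φ t)) (x + h) = ((p1 (x + h) : ℝ) : ℂ) := hD1 _
  have e2' : IF (D2 (φ t)) (x + h) = ((p2 (x + h) : ℝ) : ℂ) := hD2 _
  have e1'' : IF (D1 (φ t)) x = ((p1 (x + h) : ℝ) : ℂ) := by rw [e1]; exact hD1 x
  have e2'' : IF (D2 (φ t)) x = ((p2 (x + h) : ℝ) : ℂ) := by rw [e2]; exact hD2 x
  rw [e1', e2', e1'', e2''] at hnonneg
  simp only [Complex.sub_re, Complex.neg_re, Complex.add_re, Complex.mul_re, Complex.ofReal_re,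
    Complex.ofReal_im, mul_zero, sub_zero, zero_mul] at hnonneg
  simp only [Complex.sub_re]
  have n1 : |(IF (V1 (φ t)) (x + h)).re - (IF (V1 (φ t)) x).re| ≤
      ‖IF (V1 (φ t)) (x + h) - IF (V1 (φ t)) x‖ := by
    rw [← Complex.sub_re]; exact Complex.abs_re_le_norm _
  have n2 : |(IF (V2 (φ t)) (x + h)).re - (IF (V2 (φ t)) x).re| ≤
      ‖IF (V2 (φ t)) (x + h) - IF (V2 (φ t)) x‖ := by
    rw [← Complex.sub_re]; exact Complex.abs_re_le_norm _
  have a1 : |p1 (x + h)| = 4 * M * |h.1| * |h.2| ^ (lam * (δ - 2)) := by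
    rw [hx1, abs_mul, abs_mul, abs_of_nonneg (by positivity : 0 ≤ 4 * M),
      abs_of_nonneg (Real.rpow_nonneg (abs_nonneg _) _)]
  have b1 : -(((IF (V1 (φ t)) (x + h)).re - (IF (V1 (φ t)) x).re) * p1 (x + h)) ≤
      ‖IF (V1 (φ t)) (x + h) - IF (V1 (φ t)) x‖ * (4 * M * |h.1| * |h.2| ^ (lam * (δ - 2))) := by
    rw [← a1]
    calc -(((IF (V1 (φ t)) (x + h)).re - (IF (V1 (φ t)) x).re) * p1 (x + h))
        ≤ |((IF (V1 (φ t)) (x + h)).re - (IF (V1 (φ t)) x).re) * p1 (x + h)| := neg_le_abs _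
      _ = |(IF (V1 (φ t)) (x + h)).re - (IF (V1 (φ t)) x).re| * |p1 (x + h)| := abs_mul _ _
      _ ≤ _ := mul_le_mul_of_nonneg_right n1 (abs_nonneg _)
  have b2 : -(((IF (V2 (φ t)) (x + h)).re - (IF (V2 (φ t)) x).re) * p2 (x + h)) ≤
      ‖IF (V2 (φ t)) (x + h) - IF (V2 (φ t)) x‖ * (N * β * |h.2| ^ (β - 1) +
        2 * M * h.1 ^ 2 * (lam * (2 - δ)) * |h.2| ^ (lam * (δ - 2) - 1)) := by
    calc -(((IF (V2 (φ t)) (x + h)).re - (IF (V2 (φ t)) x).re) * p2 (x + h))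
        ≤ |((IF (V2 (φ t)) (x + h)).re - (IF (V2 (φ t)) x).re) * p2 (x + h)| := neg_le_abs _
      _ = |(IF (V2 (φ t)) (x + h)).re - (IF (V2 (φ t)) x).re| * |p2 (x + h)| := abs_mul _ _
      _ ≤ ‖IF (V2 (φ t)) (x + h) - IF (V2 (φ t)) x‖ * |p2 (x + h)| :=
          mul_le_mul_of_nonneg_right n2 (abs_nonneg _)
      _ ≤ _ := mul_le_mul_of_nonneg_left hx2 (norm_nonneg _)
  linarith

end Pool.Agent.SQG
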