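import Pool.Agent.SQG.Stmts2
import Pool.Agent.SQG.Foc

/-!
# SQG, module FO2: the equation at a touching point, for the modulus `E(t) O2(h)`
-/

set_option autoImplicit false

namespace Pool.Agent.SQG

open Complex MeasureTheory Set Filter Topology ProbabilityTheory

namespace FO2Aux

/-- the region is a neighbourhood of its strict points -/
theorem Rq_mem {h : P2} (h0 : 0 < |h.2|) (h1 : |h.2| < 1) (h2 : |h.1| < 1) : Rq ∈ 𝓝 h := by
  have c1 : ContinuousAt (fun k : P2 => |k.2|) h := by fun_prop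
  have c2 : ContinuousAt (fun k : P2 => |k.1|) h := by fun_prop
  have e1 : ∀ᶠ k : P2 in 𝓝 h, 0 < |k.2| := c1.eventually (lt_mem_nhds h0)
  have e2 : ∀ᶠ k : P2 in 𝓝 h, |k.2| < 1 := c1.eventually (gt_mem_nhds h1)
  have e3 : ∀ᶠ k : P2 in 𝓝 h, |k.1| < 1 := c2.eventually (gt_mem_nhds h2)
  filter_upwards [e1, e2, e3] with k k1 k2 k3
  exact ⟨k1, k2.le, k3.le⟩

end FO2Aux

theorem fo2 (hR : Stmt_REG) (hD : Stmt_DER) : Stmt_FO2 := by
  intro α κ T θ φ hS n k β p t₀ t E' m E x h ht0 htt htT hn hk hβ hp hm h20 h21 h12 hE hE' heq hle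
  have htI : t ∈ Ioo 0 T := ⟨ht0.trans htt, htT⟩
  have hNF : NF (θ t) (φ t) := (hR α κ T θ φ hS).1 t htI
  obtain ⟨-, -, hder⟩ := hD (θ t) (φ t) hNF
  have hRg : h ∈ Rq := ⟨h20, h21.le, h12.le⟩
  have h2ne : h.2 ≠ 0 := abs_pos.1 h20
  -- the gradient
  set p1 : P2 → ℝ := fun y => (IF (D1 (φ t)) y).re with hp1
  set p2 : P2 → ℝ := fun y => (IF (D2 (φ t)) y).re with hp2
  have hfd : ∀ y, HasFDerivAt (θ t) (p1 y • ContinuousLinearMap.fst ℝ ℝ ℝ +
      p2 y • ContinuousLinearMap.snd ℝ ℝ ℝ) y := fun y => (hder y).2.2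
  have hD1 : ∀ y, IF (D1 (φ t)) y = ((p1 y : ℝ) : ℂ) := fun y => (hder y).1
  have hD2 : ∀ y, IF (D2 (φ t)) y = ((p2 y : ℝ) : ℂ) := fun y => (hder y).2.1
  -- (1) time derivative
  have htime : ∀ y, HasDerivAt (fun s => θ s y)
      ((-(IF (V1 (φ t)) y * IF (D1 (φ t)) y + IF (V2 (φ t)) y * IF (D2 (φ t)) y) -
      κ * IF (LL α (φ t)) y).re) t := by
    intro y
    have h1 := hS.eqn t htI y
    have h2 := Complex.reCLM.hasFDerivAt.comp_hasDerivAt t h1
    simpa [Function.comp_def] using h2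
  have hT := ((htime (x + h)).sub (htime x)).sub (hE'.mul_const (O2 n k β p m h))
  have hnonneg := FOCAux.deriv_nonneg_left htt hT (by
    intro s hs
    have h1 := hle s hs x h hRg
    have h2 := (abs_le.1 h1).2
    simp only [Pi.sub_apply]
    rw [heq]
    linarith)
  -- (2) the gradients agree
  have hmax2 : IsLocalMax (fun y => θ t (y + h) - θ t y) x := by
    refine Filter.Eventually.of_forall fun y => ?_
    show θ t (y + h) - θ t y ≤ θ t (x + h) - θ t x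
    rw [heq]
    exact (abs_le.1 (hle t ⟨htt.le, le_rfl⟩ y h hRg)).2
  have hfd2 : HasFDerivAt (fun y => θ t (y + h) - θ t y)
      ((p1 (x + h) • ContinuousLinearMap.fst ℝ ℝ ℝ + p2 (x + h) • ContinuousLinearMap.snd ℝ ℝ ℝ) -
        (p1 x • ContinuousLinearMap.fst ℝ ℝ ℝ + p2 x • ContinuousLinearMap.snd ℝ ℝ ℝ)) x := by
    have h1 : HasFDerivAt (fun y => θ t (y + h))
        (p1 (x + h) • ContinuousLinearMap.fst ℝ ℝ ℝ + p2 (x + h) • ContinuousLinearMap.snd ℝ ℝ ℝ) x :=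
      (hasFDerivAt_comp_add_right h).2 (hfd (x + h))
    exact h1.sub (hfd x)
  have hz := hmax2.hasFDerivAt_eq_zero hfd2
  have e1 : p1 (x + h) = p1 x := by
    have := congrArg (fun L : P2 →L[ℝ] ℝ => L (1, 0)) hz
    simp at this
    linarith
  have e2 : p2 (x + h) = p2 x := by
    have := congrArg (fun L : P2 →L[ℝ] ℝ => L (0, 1)) hz
    simp at this
    linarith
  -- (3) the gradient is the gradient of the modulus
  have hnb := FO2Aux.Rq_mem h20 h21 h12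
  have hloc : ∀ᶠ l in 𝓝 h, θ t (x + l) - E t * O2 n k β p m l ≤
      θ t (x + h) - E t * O2 n k β p m h := by
    filter_upwards [hnb] with l hl
    have h1 := (abs_le.1 (hle t ⟨htt.le, le_rfl⟩ x l hl)).2
    linarith [heq]
  have hx1 : p1 (x + h) = E t * (k * (2 * m * h.1 ^ (2 * m - 1)) * |h.2| ^ (-p)) := by
    have hc : Tendsto (fun z : ℝ => ((z, h.2) : P2)) (𝓝 h.1) (𝓝 h) := by
      have : ContinuousAt (fun z : ℝ => ((z, h.2) : P2)) h.1 := by fun_prop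
      exact this
    have hm : IsLocalMax (fun z : ℝ => θ t (x + (z, h.2)) - E t * O2 n k β p m (z, h.2)) h.1 := by
      filter_upwards [hc.eventually hloc] with z hz
      exact hz
    have hl : HasDerivAt (fun z : ℝ => x + ((z, h.2) : P2)) ((1, 0) : P2) h.1 := by
      have : HasDerivAt (fun z : ℝ => ((z, h.2) : P2)) ((1, 0) : P2) h.1 :=
        (hasDerivAt_id h.1).prodMk (hasDerivAt_const h.1 h.2)
      exact this.const_add x
    have hd1 := (hfd (x + h)).comp_hasDerivAt_of_eq h.1 hl rfl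
    have hd2 : HasDerivAt (fun z : ℝ => E t * O2 n k β p m (z, h.2))
        (E t * (k * (2 * m * h.1 ^ (2 * m - 1)) * |h.2| ^ (-p))) h.1 := by
      unfold O2
      have h3 : HasDerivAt (fun z : ℝ => z ^ (2 * m)) (2 * m * h.1 ^ (2 * m - 1)) h.1 := by
        simpa using hasDerivAt_pow (2 * m) h.1
      exact (((h3.const_mul k).mul_const (|h.2| ^ (-p))).const_add (n * |h.2| ^ β)).const_mul (E t)
    have h5 := hm.hasDerivAt_eq_zero (hd1.sub hd2)
    simp at h5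
    linarith
  have hx2 : |p2 (x + h)| ≤ E t * (n * β * |h.2| ^ (β - 1) +
      k * h.1 ^ (2 * m) * p * |h.2| ^ (-p - 1)) := by
    have hc : Tendsto (fun z : ℝ => ((h.1, z) : P2)) (𝓝 h.2) (𝓝 h) := by
      have : ContinuousAt (fun z : ℝ => ((h.1, z) : P2)) h.2 := by fun_prop
      exact this
    have hm : IsLocalMax (fun z : ℝ => θ t (x + (h.1, z)) - E t * O2 n k β p m (h.1, z)) h.2 := by
      filter_upwards [hc.eventually hloc] with z hz
      exact hz
    have hl : HasDerivAt (fun z : ℝ => x + ((h.1, z) : P2)) ((0, 1) : P2) h.2 := by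
      have : HasDerivAt (fun z : ℝ => ((h.1, z) : P2)) ((0, 1) : P2) h.2 :=
        (hasDerivAt_const h.2 h.1).prodMk (hasDerivAt_id h.2)
      exact this.const_add x
    have hd1 := (hfd (x + h)).comp_hasDerivAt_of_eq h.2 hl rfl
    obtain ⟨σ, hσ, hdσ⟩ := FOCAux.hasDerivAt_abs_rpow h2ne β
    obtain ⟨τ, hτ, hdτ⟩ := FOCAux.hasDerivAt_abs_rpow h2ne (-p)
    have hd2 : HasDerivAt (fun z : ℝ => E t * O2 n k β p m (h.1, z))
        (E t * (n * (σ * (β * |h.2| ^ (β - 1))) +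
          k * h.1 ^ (2 * m) * (τ * ((-p) * |h.2| ^ (-p - 1))))) h.2 := by
      unfold O2
      exact ((hdσ.const_mul n).add (hdτ.const_mul (k * h.1 ^ (2 * m)))).const_mul (E t)
    have h5 := hm.hasDerivAt_eq_zero (hd1.sub hd2)
    simp at h5
    have h6 : p2 (x + h) = E t * (n * (σ * (β * |h.2| ^ (β - 1))) +
          k * h.1 ^ (2 * m) * (τ * ((-p) * |h.2| ^ (-p - 1)))) := by linarith
    rw [h6, abs_mul, abs_of_nonneg hE]
    refine mul_le_mul_of_nonneg_left ?_ hE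
    refine (abs_add_le _ _).trans ?_
    have hp1' : 0 ≤ |h.2| ^ (β - 1) := Real.rpow_nonneg (abs_nonneg _) _
    have hp2' : 0 ≤ |h.2| ^ (-p - 1) := Real.rpow_nonneg (abs_nonneg _) _
    have hq : 0 ≤ h.1 ^ (2 * m) := by
      rw [pow_mul]; positivity
    have a1 : |n * (σ * (β * |h.2| ^ (β - 1)))| = n * β * |h.2| ^ (β - 1) := by
      rw [abs_mul, abs_mul, abs_mul, hσ, abs_of_nonneg hn, abs_of_nonneg hβ, abs_of_nonneg hp1']
      ring
    have a2 : |k * h.1 ^ (2 * m) * (τ * ((-p) * |h.2| ^ (-p - 1)))| =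
        k * h.1 ^ (2 * m) * p * |h.2| ^ (-p - 1) := by
      rw [abs_mul, abs_mul τ, hτ, abs_mul (-p), abs_neg, abs_of_nonneg hp,
        abs_of_nonneg hp2', abs_of_nonneg (mul_nonneg hk hq)]
      ring
    rw [a1, a2]
  -- (4) combine
  have e1' : IF (D1 (φ t)) (x + h) = ((p1 (x + h) : ℝ) : ℂ) := hD1 _
  have e2' : IF (D2 (φ t)) (x + h) = ((p2 (x + h) : ℝ) : ℂ) := hD2 _
  have e1'' : IF (D1 (φ t)) x = ((p1 (x + h) : ℝ) : ℂ) := by rw [e1]; exact hD1 x
  have e2'' : IF (D2 (φ t)) x = ((p2 (x + h) : ℝ) : ℂ) := by rw [e2]; exact hD2 x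
  rw [e1', e2', e1'', e2''] at hnonneg
  simp only [Complex.sub_re, Complex.neg_re, Complex.add_re, Complex.mul_re, Complex.ofReal_re,
    Complex.ofReal_im, mul_zero, sub_zero, zero_mul] at hnonneg
  simp only [Complex.sub_re]
  have n1 : |(IF (V1 (φ t)) (x + h)).re - (IF (V1 (φ t)) x).re| ≤
      ‖IF (V1 (φ t)) (x + h) - IF (V1 (φ t)) x‖ := by
    rw [← Complex.sub_re]; exact Complex.abs_re_le_norm _
  have n2 : |(IF (V2 (φ t)) (x + h)).re - (IF (V2 (φ t)) x).re| ≤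
      ‖IF (V2 (φ t)) (x + h) - IF (V2 (φ t)) x‖ := by
    rw [← Complex.sub_re]; exact Complex.abs_re_le_norm _
  have a1 : |p1 (x + h)| = E t * (k * (2 * m) * |h.1| ^ (2 * m - 1) * |h.2| ^ (-p)) := by
    rw [hx1, abs_mul, abs_of_nonneg hE, abs_mul, abs_mul, abs_mul, abs_of_nonneg hk, abs_pow,
      abs_of_nonneg (Real.rpow_nonneg (abs_nonneg _) _), abs_of_nonneg (by positivity :
        (0 : ℝ) ≤ 2 * m)]
    ring
  have b1 : -(((IF (V1 (φ t)) (x + h)).re - (IF (V1 (φ t)) x).re) * p1 (x + h)) ≤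
      ‖IF (V1 (φ t)) (x + h) - IF (V1 (φ t)) x‖ *
        (E t * (k * (2 * m) * |h.1| ^ (2 * m - 1) * |h.2| ^ (-p))) := by
    rw [← a1]
    calc -(((IF (V1 (φ t)) (x + h)).re - (IF (V1 (φ t)) x).re) * p1 (x + h))
        ≤ |((IF (V1 (φ t)) (x + h)).re - (IF (V1 (φ t)) x).re) * p1 (x + h)| := neg_le_abs _
      _ = |(IF (V1 (φ t)) (x + h)).re - (IF (V1 (φ t)) x).re| * |p1 (x + h)| := abs_mul _ _
      _ ≤ _ := mul_le_mul_of_nonneg_right n1 (abs_nonneg _)
  have b2 : -(((IF (V2 (φ t)) (x + h)).re - (IF (V2 (φ t)) x).re) * p2 (x + h)) ≤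
      ‖IF (V2 (φ t)) (x + h) - IF (V2 (φ t)) x‖ * (E t * (n * β * |h.2| ^ (β - 1) +
        k * h.1 ^ (2 * m) * p * |h.2| ^ (-p - 1))) := by
    calc -(((IF (V2 (φ t)) (x + h)).re - (IF (V2 (φ t)) x).re) * p2 (x + h))
        ≤ |((IF (V2 (φ t)) (x + h)).re - (IF (V2 (φ t)) x).re) * p2 (x + h)| := neg_le_abs _
      _ = |(IF (V2 (φ t)) (x + h)).re - (IF (V2 (φ t)) x).re| * |p2 (x + h)| := abs_mul _ _
      _ ≤ ‖IF (V2 (φ t)) (x + h) - IF (V2 (φ t)) x‖ * |p2 (x + h)| :=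
          mul_le_mul_of_nonneg_right n2 (abs_nonneg _)
      _ ≤ _ := mul_le_mul_of_nonneg_left hx2 (norm_nonneg _)
  linarith

end Pool.Agent.SQG
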