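import Pool.Agent.SQG.Stmts6
import Pool.Agent.SQG.Fo2

/-!
# SQG, module FO3: the equation at a touching point, for the modulus `E(t) O3(h)`
-/

set_option autoImplicit false

namespace Pool.Agent.SQG

open Complex MeasureTheory Set Filter Topology ProbabilityTheory

namespace FO3Aux

/-- the positive part to an even power is continuously differentiable -/
theorem hasDerivAt_pos {m : ℕ} (hm : 1 ≤ m) (x : ℝ) :
    HasDerivAt (fun y : ℝ => (max y 0) ^ (2 * m)) (2 * m * (max x 0) ^ (2 * m - 1)) x := by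
  rcases lt_trichotomy x 0 with h | h | h
  · have e : (fun y : ℝ => (max y 0) ^ (2 * m)) =ᶠ[𝓝 x] fun _ => 0 := by
      filter_upwards [gt_mem_nhds h] with y hy
      rw [max_eq_right (le_of_lt hy), zero_pow (by omega)]
    have h1 : (2 * m * (max x 0) ^ (2 * m - 1) : ℝ) = 0 := by
      rw [max_eq_right h.le, zero_pow (by omega), mul_zero]
    rw [h1]
    exact (hasDerivAt_const x (0 : ℝ)).congr_of_eventuallyEq e
  · subst h
    have h1 : (2 * m * (max (0 : ℝ) 0) ^ (2 * m - 1) : ℝ) = 0 := by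
      rw [max_self, zero_pow (by omega), mul_zero]
    rw [h1, hasDerivAt_iff_isLittleO]
    have h2 : (fun y : ℝ => y ^ (2 * m)) =o[𝓝 0] fun y : ℝ => y :=
      Asymptotics.isLittleO_pow_id (by omega)
    have h3 : (fun y : ℝ => (max y 0) ^ (2 * m)) =O[𝓝 0] fun y : ℝ => y ^ (2 * m) := by
      refine Asymptotics.IsBigO.of_bound 1 (Filter.Eventually.of_forall fun y => ?_)
      rw [one_mul, norm_pow, norm_pow]
      refine pow_le_pow_left₀ (norm_nonneg _) ?_ _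
      rw [Real.norm_eq_abs, Real.norm_eq_abs, abs_of_nonneg (le_max_right _ _)]
      exact max_le (le_abs_self y) (abs_nonneg y)
    have h4 := h3.trans_isLittleO h2
    refine h4.congr (fun y => ?_) (fun y => ?_)
    · rw [max_self, zero_pow (by omega : 2 * m ≠ 0)]
      simp
    · simp
  · have e : (fun y : ℝ => (max y 0) ^ (2 * m)) =ᶠ[𝓝 x] fun y => y ^ (2 * m) := by
      filter_upwards [lt_mem_nhds h] with y hy
      rw [max_eq_left (le_of_lt hy)]
    rw [max_eq_left h.le]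
    have h1 : HasDerivAt (fun y : ℝ => y ^ (2 * m)) (2 * m * x ^ (2 * m - 1)) x := by
      simpa using hasDerivAt_pow (2 * m) x
    exact h1.congr_of_eventuallyEq e

/-- the absolute value at a nonzero point -/
theorem hasDerivAt_abs' {x : ℝ} (h : x ≠ 0) : ∃ σ : ℝ, |σ| = 1 ∧ HasDerivAt (fun y : ℝ => |y|) σ x := by
  rcases lt_or_gt_of_ne h with h | h
  · exact ⟨-1, by simp, hasDerivAt_abs_neg h⟩
  · exact ⟨1, by simp, hasDerivAt_abs_pos h⟩

/-- the derivative in the first variable -/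
theorem deriv_one {m : ℕ} (hm : 1 ≤ m) {b : ℝ} (hb : 0 < b) (x : ℝ) :
    ∃ σ : ℝ, |σ| ≤ 1 ∧ HasDerivAt (fun y : ℝ => (max (|y| - b) 0) ^ (2 * m))
      (2 * m * (max (|x| - b) 0) ^ (2 * m - 1) * σ) x := by
  by_cases hx : x = 0
  · subst hx
    refine ⟨0, by simp, ?_⟩
    rw [mul_zero]
    have e : (fun y : ℝ => (max (|y| - b) 0) ^ (2 * m)) =ᶠ[𝓝 0] fun _ => 0 := by
      have c : ContinuousAt (fun y : ℝ => |y|) 0 := by fun_prop
      have h0 : |(0 : ℝ)| < b := by simpa using hb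
      filter_upwards [c.eventually (gt_mem_nhds h0)] with y hy
      rw [max_eq_right (by linarith), zero_pow (by omega)]
    exact (hasDerivAt_const (0 : ℝ) (0 : ℝ)).congr_of_eventuallyEq e
  · obtain ⟨σ, hσ, hd⟩ := hasDerivAt_abs' hx
    refine ⟨σ, hσ.le, ?_⟩
    exact HasDerivAt.comp (h₂ := fun y : ℝ => (max y 0) ^ (2 * m)) (h := fun y : ℝ => |y| - b) x
      (hasDerivAt_pos hm (|x| - b)) (hd.sub_const b)

/-- the derivative in the second variable -/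
theorem deriv_two {m : ℕ} (hm : 1 ≤ m) (a : ℝ) {x : ℝ} (hx : x ≠ 0) :
    ∃ σ : ℝ, |σ| = 1 ∧ HasDerivAt (fun y : ℝ => (max (a - |y|) 0) ^ (2 * m))
      (2 * m * (max (a - |x|) 0) ^ (2 * m - 1) * σ) x := by
  obtain ⟨σ, hσ, hd⟩ := hasDerivAt_abs' hx
  refine ⟨-σ, by rw [abs_neg, hσ], ?_⟩
  exact HasDerivAt.comp (h₂ := fun y : ℝ => (max y 0) ^ (2 * m)) (h := fun y : ℝ => a - |y|) x
    (hasDerivAt_pos hm (a - |x|)) (hd.const_sub a)

end FO3Aux

theorem fo3 (hR : Stmt_REG) (hD : Stmt_DER) : Stmt_FO3 := by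
  intro α κ T θ φ hS η n ε β β' t₀ t E' m E x h ht0 htt htT hη hn hε hβ hβ1 hβ' hβ1' hm h20 h21 h12 hE hE' heq hle
  have htI : t ∈ Ioo 0 T := ⟨ht0.trans htt, htT⟩
  have hNF : NF (θ t) (φ t) := (hR α κ T θ φ hS).1 t htI
  obtain ⟨-, -, hder⟩ := hD (θ t) (φ t) hNF
  have hRg : h ∈ Rq := ⟨h20, h21.le, h12.le⟩
  have h2ne : h.2 ≠ 0 := abs_pos.1 h20
  -- the gradient
  set p1 : P2 → ℝ := fun y => (IF (D1 (φ t)) y).re with hp1
  set p2 : P2 → ℝ := fun y => (IF (D2 (φ t)) y).re with hp2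
  have hfd : ∀ y, HasFDerivAt (θ t) (p1 y • ContinuousLinearMap.fst ℝ ℝ ℝ +
      p2 y • ContinuousLinearMap.snd ℝ ℝ ℝ) y := fun y => (hder y).2.2
  have hD1 : ∀ y, IF (D1 (φ t)) y = ((p1 y : ℝ) : ℂ) := fun y => (hder y).1
  have hD2 : ∀ y, IF (D2 (φ t)) y = ((p2 y : ℝ) : ℂ) := fun y => (hder y).2.1
  -- (1) time derivative
  have htime : ∀ y, HasDerivAt (fun s => θ s y)
      ((-(IF (V1 (φ t)) y * IF (D1 (φ t)) y + IF (V2 (φ t)) y * IF (D2 (φ t)) y) -
      κ * IF (LL α (φ t)) y).re) t := by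
    intro y
    have h1 := hS.eqn t htI y
    have h2 := Complex.reCLM.hasFDerivAt.comp_hasDerivAt t h1
    simpa [Function.comp_def] using h2
  have hT := ((htime (x + h)).sub (htime x)).sub (hE'.mul_const (O3 η n ε β β' m h))
  have hnonneg := FOCAux.deriv_nonneg_left htt hT (by
    intro s hs
    have h1 := hle s hs x h hRg
    have h2 := (abs_le.1 h1).2
    simp only [Pi.sub_apply]
    rw [heq]
    linarith)
  -- (2) the gradients agree
  have hmax2 : IsLocalMax (fun y => θ t (y + h) - θ t y) x := by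
    refine Filter.Eventually.of_forall fun y => ?_
    show θ t (y + h) - θ t y ≤ θ t (x + h) - θ t x
    rw [heq]
    exact (abs_le.1 (hle t ⟨htt.le, le_rfl⟩ y h hRg)).2
  have hfd2 : HasFDerivAt (fun y => θ t (y + h) - θ t y)
      ((p1 (x + h) • ContinuousLinearMap.fst ℝ ℝ ℝ + p2 (x + h) • ContinuousLinearMap.snd ℝ ℝ ℝ) -
        (p1 x • ContinuousLinearMap.fst ℝ ℝ ℝ + p2 x • ContinuousLinearMap.snd ℝ ℝ ℝ)) x := by
    have h1 : HasFDerivAt (fun y => θ t (y + h))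
        (p1 (x + h) • ContinuousLinearMap.fst ℝ ℝ ℝ + p2 (x + h) • ContinuousLinearMap.snd ℝ ℝ ℝ) x :=
      (hasFDerivAt_comp_add_right h).2 (hfd (x + h))
    exact h1.sub (hfd x)
  have hz := hmax2.hasFDerivAt_eq_zero hfd2
  have e1 : p1 (x + h) = p1 x := by
    have := congrArg (fun L : P2 →L[ℝ] ℝ => L (1, 0)) hz
    simp at this
    linarith
  have e2 : p2 (x + h) = p2 x := by
    have := congrArg (fun L : P2 →L[ℝ] ℝ => L (0, 1)) hz
    simp at this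
    linarith
  -- (3) the gradient is the gradient of the modulus
  have hnb := FO2Aux.Rq_mem h20 h21 h12
  have hloc : ∀ᶠ l in 𝓝 h, θ t (x + l) - E t * O3 η n ε β β' m l ≤
      θ t (x + h) - E t * O3 η n ε β β' m h := by
    filter_upwards [hnb] with l hl
    have h1 := (abs_le.1 (hle t ⟨htt.le, le_rfl⟩ x l hl)).2
    linarith [heq]
  set P : ℝ := max (|h.1| - |h.2|) 0 with hP
  have hP0 : 0 ≤ P := le_max_right _ _
  have hPa : P ≤ |h.1| := max_le (by linarith [abs_nonneg h.2]) (abs_nonneg _)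
  have hr : ∀ γ : ℝ, 0 ≤ |h.2| ^ γ := fun γ => Real.rpow_nonneg (abs_nonneg _) _
  have hx1 : |p1 (x + h)| ≤ E t * (4 * ε * |h.1| * |h.2| ^ (β - 2) +
      η * (2 * m) * P ^ (2 * m - 1) * |h.2| ^ (β - 2 * m)) := by
    have hc : Tendsto (fun z : ℝ => ((z, h.2) : P2)) (𝓝 h.1) (𝓝 h) := by
      have : ContinuousAt (fun z : ℝ => ((z, h.2) : P2)) h.1 := by fun_prop
      exact this
    have hm' : IsLocalMax (fun z : ℝ => θ t (x + (z, h.2)) - E t * O3 η n ε β β' m (z, h.2)) h.1 := by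
      filter_upwards [hc.eventually hloc] with z hz
      exact hz
    have hl : HasDerivAt (fun z : ℝ => x + ((z, h.2) : P2)) ((1, 0) : P2) h.1 := by
      have : HasDerivAt (fun z : ℝ => ((z, h.2) : P2)) ((1, 0) : P2) h.1 :=
        (hasDerivAt_id h.1).prodMk (hasDerivAt_const h.1 h.2)
      exact this.const_add x
    have hd1 := (hfd (x + h)).comp_hasDerivAt_of_eq h.1 hl rfl
    obtain ⟨σ, hσ, hdσ⟩ := FO3Aux.deriv_one hm h20 h.1
    have hd2 : HasDerivAt (fun z : ℝ => E t * O3 η n ε β β' m (z, h.2))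
        (E t * (2 * ε * (2 * h.1) * |h.2| ^ (β - 2) +
          η * (2 * m * P ^ (2 * m - 1) * σ) * |h.2| ^ (β - 2 * m))) h.1 := by
      unfold O3
      have h3 : HasDerivAt (fun z : ℝ => z ^ 2) (2 * h.1) h.1 := by
        simpa using hasDerivAt_pow 2 h.1
      exact ((((h3.const_mul (2 * ε)).mul_const (|h.2| ^ (β - 2))).const_add
        (η * |h.2| ^ β + n * |h.2| ^ β')).add
        ((hdσ.const_mul η).mul_const (|h.2| ^ (β - 2 * m)))).const_mul (E t)
    have h5 := hm'.hasDerivAt_eq_zero (hd1.sub hd2)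
    simp at h5
    have h6 : p1 (x + h) = E t * (2 * ε * (2 * h.1) * |h.2| ^ (β - 2) +
          η * (2 * m * P ^ (2 * m - 1) * σ) * |h.2| ^ (β - 2 * m)) := by linarith
    rw [h6, abs_mul, abs_of_nonneg hE]
    refine mul_le_mul_of_nonneg_left ?_ hE
    refine (abs_add_le _ _).trans ?_
    have a1 : |2 * ε * (2 * h.1) * |h.2| ^ (β - 2)| = 4 * ε * |h.1| * |h.2| ^ (β - 2) := by
      rw [abs_mul, abs_mul, abs_mul, abs_mul, abs_of_nonneg (hr _), abs_of_nonneg hε, abs_two]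
      ring
    have a2 : |η * (2 * m * P ^ (2 * m - 1) * σ) * |h.2| ^ (β - 2 * m)| ≤
        η * (2 * m) * P ^ (2 * m - 1) * |h.2| ^ (β - 2 * m) := by
      have hq : (0 : ℝ) ≤ η * (2 * m) * P ^ (2 * m - 1) * |h.2| ^ (β - 2 * m) :=
        mul_nonneg (mul_nonneg (mul_nonneg hη (by positivity)) (pow_nonneg hP0 _)) (hr _)
      have e : η * (2 * m * P ^ (2 * m - 1) * σ) * |h.2| ^ (β - 2 * m) =
          η * (2 * m) * P ^ (2 * m - 1) * |h.2| ^ (β - 2 * m) * σ := by ring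
      rw [e, abs_mul, abs_of_nonneg hq]
      exact mul_le_of_le_one_right hq hσ
    linarith
  have hx2 : |p2 (x + h)| ≤ E t * (η * |h.2| ^ (β - 1) + n * |h.2| ^ (β' - 1) +
      4 * ε * h.1 ^ 2 * |h.2| ^ (β - 3) +
      η * (2 * m) * P ^ (2 * m - 1) * (|h.1| + |h.2|) * |h.2| ^ (β - 2 * m - 1)) := by
    have hc : Tendsto (fun z : ℝ => ((h.1, z) : P2)) (𝓝 h.2) (𝓝 h) := by
      have : ContinuousAt (fun z : ℝ => ((h.1, z) : P2)) h.2 := by fun_prop
      exact this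
    have hm' : IsLocalMax (fun z : ℝ => θ t (x + (h.1, z)) - E t * O3 η n ε β β' m (h.1, z)) h.2 := by
      filter_upwards [hc.eventually hloc] with z hz
      exact hz
    have hl : HasDerivAt (fun z : ℝ => x + ((h.1, z) : P2)) ((0, 1) : P2) h.2 := by
      have : HasDerivAt (fun z : ℝ => ((h.1, z) : P2)) ((0, 1) : P2) h.2 :=
        (hasDerivAt_const h.2 h.1).prodMk (hasDerivAt_id h.2)
      exact this.const_add x
    have hd1 := (hfd (x + h)).comp_hasDerivAt_of_eq h.2 hl rfl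
    obtain ⟨σ, hσ, hdσ⟩ := FOCAux.hasDerivAt_abs_rpow h2ne β
    obtain ⟨σ', hσ', hdσ'⟩ := FOCAux.hasDerivAt_abs_rpow h2ne β'
    obtain ⟨τ, hτ, hdτ⟩ := FOCAux.hasDerivAt_abs_rpow h2ne (β - 2)
    obtain ⟨ρ, hρ, hdρ⟩ := FOCAux.hasDerivAt_abs_rpow h2ne (β - 2 * m)
    obtain ⟨s, hs, hds⟩ := FO3Aux.deriv_two hm |h.1| h2ne
    have hd2 : HasDerivAt (fun z : ℝ => E t * O3 η n ε β β' m (h.1, z))
        (E t * (η * (σ * (β * |h.2| ^ (β - 1))) + n * (σ' * (β' * |h.2| ^ (β' - 1))) +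
          2 * ε * h.1 ^ 2 * (τ * ((β - 2) * |h.2| ^ (β - 2 - 1))) +
          (η * (2 * m * P ^ (2 * m - 1) * s) * |h.2| ^ (β - 2 * m) +
            η * P ^ (2 * m) * (ρ * ((β - 2 * m) * |h.2| ^ (β - 2 * m - 1)))))) h.2 := by
      unfold O3
      exact ((((hdσ.const_mul η).add (hdσ'.const_mul n)).add
        (hdτ.const_mul (2 * ε * h.1 ^ 2))).add ((hds.const_mul η).mul hdρ)).const_mul (E t)
    have h5 := hm'.hasDerivAt_eq_zero (hd1.sub hd2)
    simp at h5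
    have h6 : p2 (x + h) = E t * (η * (σ * (β * |h.2| ^ (β - 1))) + n * (σ' * (β' * |h.2| ^ (β' - 1))) +
          2 * ε * h.1 ^ 2 * (τ * ((β - 2) * |h.2| ^ (β - 2 - 1))) +
          (η * (2 * m * P ^ (2 * m - 1) * s) * |h.2| ^ (β - 2 * m) +
            η * P ^ (2 * m) * (ρ * ((β - 2 * m) * |h.2| ^ (β - 2 * m - 1))))) := by linarith
    rw [h6, abs_mul, abs_of_nonneg hE]
    refine mul_le_mul_of_nonneg_left ?_ hE
    have hm1 : (1 : ℝ) ≤ m := by exact_mod_cast hm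
    have a1 : |η * (σ * (β * |h.2| ^ (β - 1)))| ≤ η * |h.2| ^ (β - 1) := by
      rw [abs_mul, abs_mul, abs_mul, hσ, abs_of_nonneg hη, abs_of_nonneg hβ, abs_of_nonneg (hr _),
        one_mul]
      exact mul_le_mul_of_nonneg_left (mul_le_of_le_one_left (hr _) hβ1) hη
    have a2 : |n * (σ' * (β' * |h.2| ^ (β' - 1)))| ≤ n * |h.2| ^ (β' - 1) := by
      rw [abs_mul, abs_mul, abs_mul, hσ', abs_of_nonneg hn, abs_of_nonneg hβ', abs_of_nonneg (hr _),
        one_mul]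
      exact mul_le_mul_of_nonneg_left (mul_le_of_le_one_left (hr _) hβ1') hn
    have a3 : |2 * ε * h.1 ^ 2 * (τ * ((β - 2) * |h.2| ^ (β - 2 - 1)))| ≤
        4 * ε * h.1 ^ 2 * |h.2| ^ (β - 3) := by
      have e3 : β - 2 - 1 = β - 3 := by ring
      have hq : (0 : ℝ) ≤ 2 * ε * h.1 ^ 2 := by positivity
      rw [e3, abs_mul (2 * ε * h.1 ^ 2), abs_mul τ, abs_mul (β - 2), hτ, abs_of_nonneg hq, abs_of_nonneg (hr _), one_mul,
        abs_of_nonpos (by linarith : β - 2 ≤ 0)]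
      have h7 : -(β - 2) * |h.2| ^ (β - 3) ≤ 2 * |h.2| ^ (β - 3) :=
        mul_le_mul_of_nonneg_right (by linarith) (hr _)
      calc 2 * ε * h.1 ^ 2 * (-(β - 2) * |h.2| ^ (β - 3))
          ≤ 2 * ε * h.1 ^ 2 * (2 * |h.2| ^ (β - 3)) := mul_le_mul_of_nonneg_left h7 hq
        _ = _ := by ring
    have a4 : |η * (2 * m * P ^ (2 * m - 1) * s) * |h.2| ^ (β - 2 * m)| =
        η * (2 * m) * P ^ (2 * m - 1) * |h.2| * |h.2| ^ (β - 2 * m - 1) := by
      have hq : (0 : ℝ) ≤ η * (2 * m) * P ^ (2 * m - 1) * |h.2| ^ (β - 2 * m) :=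
        mul_nonneg (mul_nonneg (mul_nonneg hη (by positivity)) (pow_nonneg hP0 _)) (hr _)
      have e : η * (2 * m * P ^ (2 * m - 1) * s) * |h.2| ^ (β - 2 * m) =
          η * (2 * m) * P ^ (2 * m - 1) * |h.2| ^ (β - 2 * m) * s := by ring
      rw [e, abs_mul, abs_of_nonneg hq, hs, mul_one]
      have e2 : |h.2| ^ (β - 2 * m) = |h.2| * |h.2| ^ (β - 2 * m - 1) := by
        rw [Real.rpow_sub_one h20.ne']
        field_simp
      rw [e2]
      ring
    have a5 : |η * P ^ (2 * m) * (ρ * ((β - 2 * m) * |h.2| ^ (β - 2 * m - 1)))| ≤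
        η * (2 * m) * P ^ (2 * m - 1) * |h.1| * |h.2| ^ (β - 2 * m - 1) := by
      have hq : (0 : ℝ) ≤ η * P ^ (2 * m) := mul_nonneg hη (pow_nonneg hP0 _)
      have hPP : P ^ (2 * m) = P ^ (2 * m - 1) * P := by
        rw [← pow_succ]
        congr 1
        omega
      rw [abs_mul (η * P ^ (2 * m)), abs_mul ρ, abs_mul (β - 2 * m), hρ, abs_of_nonneg hq, abs_of_nonneg (hr _), one_mul,
        abs_of_nonpos (by linarith : β - 2 * m ≤ 0)]
      have h7 : -(β - 2 * m) * |h.2| ^ (β - 2 * m - 1) ≤ (2 * m) * |h.2| ^ (β - 2 * m - 1) :=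
        mul_le_mul_of_nonneg_right (by linarith) (hr _)
      calc η * P ^ (2 * m) * (-(β - 2 * m) * |h.2| ^ (β - 2 * m - 1))
          ≤ η * P ^ (2 * m) * ((2 * m) * |h.2| ^ (β - 2 * m - 1)) :=
            mul_le_mul_of_nonneg_left h7 hq
        _ = η * (2 * m) * P ^ (2 * m - 1) * P * |h.2| ^ (β - 2 * m - 1) := by
            rw [hPP]
            ring
        _ ≤ η * (2 * m) * P ^ (2 * m - 1) * |h.1| * |h.2| ^ (β - 2 * m - 1) := by
            refine mul_le_mul_of_nonneg_right ?_ (hr _)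
            exact mul_le_mul_of_nonneg_left hPa
              (mul_nonneg (mul_nonneg hη (by positivity)) (pow_nonneg hP0 _))
    refine (abs_add_le _ _).trans ?_
    have b1 := abs_add_le (η * (σ * (β * |h.2| ^ (β - 1))) + n * (σ' * (β' * |h.2| ^ (β' - 1))))
      (2 * ε * h.1 ^ 2 * (τ * ((β - 2) * |h.2| ^ (β - 2 - 1))))
    have b2 := abs_add_le (η * (σ * (β * |h.2| ^ (β - 1)))) (n * (σ' * (β' * |h.2| ^ (β' - 1))))
    have b3 := abs_add_le (η * (2 * m * P ^ (2 * m - 1) * s) * |h.2| ^ (β - 2 * m))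
      (η * P ^ (2 * m) * (ρ * ((β - 2 * m) * |h.2| ^ (β - 2 * m - 1))))
    have e6 : η * (2 * m) * P ^ (2 * m - 1) * (|h.1| + |h.2|) * |h.2| ^ (β - 2 * m - 1) =
        η * (2 * m) * P ^ (2 * m - 1) * |h.2| * |h.2| ^ (β - 2 * m - 1) +
          η * (2 * m) * P ^ (2 * m - 1) * |h.1| * |h.2| ^ (β - 2 * m - 1) := by ring
    rw [e6]
    rw [a4] at b3
    linarith
  -- (4) combine
  have e1' : IF (D1 (φ t)) (x + h) = ((p1 (x + h) : ℝ) : ℂ) := hD1 _
  have e2' : IF (D2 (φ t)) (x + h) = ((p2 (x + h) : ℝ) : ℂ) := hD2 _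
  have e1'' : IF (D1 (φ t)) x = ((p1 (x + h) : ℝ) : ℂ) := by rw [e1]; exact hD1 x
  have e2'' : IF (D2 (φ t)) x = ((p2 (x + h) : ℝ) : ℂ) := by rw [e2]; exact hD2 x
  rw [e1', e2', e1'', e2''] at hnonneg
  simp only [Complex.sub_re, Complex.neg_re, Complex.add_re, Complex.mul_re, Complex.ofReal_re,
    Complex.ofReal_im, mul_zero, sub_zero, zero_mul] at hnonneg
  simp only [Complex.sub_re]
  have n1 : |(IF (V1 (φ t)) (x + h)).re - (IF (V1 (φ t)) x).re| ≤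
      ‖IF (V1 (φ t)) (x + h) - IF (V1 (φ t)) x‖ := by
    rw [← Complex.sub_re]; exact Complex.abs_re_le_norm _
  have n2 : |(IF (V2 (φ t)) (x + h)).re - (IF (V2 (φ t)) x).re| ≤
      ‖IF (V2 (φ t)) (x + h) - IF (V2 (φ t)) x‖ := by
    rw [← Complex.sub_re]; exact Complex.abs_re_le_norm _
  have b1 : -(((IF (V1 (φ t)) (x + h)).re - (IF (V1 (φ t)) x).re) * p1 (x + h)) ≤
      ‖IF (V1 (φ t)) (x + h) - IF (V1 (φ t)) x‖ *
        (E t * (4 * ε * |h.1| * |h.2| ^ (β - 2) +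
          η * (2 * m) * P ^ (2 * m - 1) * |h.2| ^ (β - 2 * m))) := by
    calc -(((IF (V1 (φ t)) (x + h)).re - (IF (V1 (φ t)) x).re) * p1 (x + h))
        ≤ |((IF (V1 (φ t)) (x + h)).re - (IF (V1 (φ t)) x).re) * p1 (x + h)| := neg_le_abs _
      _ = |(IF (V1 (φ t)) (x + h)).re - (IF (V1 (φ t)) x).re| * |p1 (x + h)| := abs_mul _ _
      _ ≤ ‖IF (V1 (φ t)) (x + h) - IF (V1 (φ t)) x‖ * |p1 (x + h)| :=
          mul_le_mul_of_nonneg_right n1 (abs_nonneg _)
      _ ≤ _ := mul_le_mul_of_nonneg_left hx1 (norm_nonneg _)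
  have b2 : -(((IF (V2 (φ t)) (x + h)).re - (IF (V2 (φ t)) x).re) * p2 (x + h)) ≤
      ‖IF (V2 (φ t)) (x + h) - IF (V2 (φ t)) x‖ * (E t * (η * |h.2| ^ (β - 1) +
        n * |h.2| ^ (β' - 1) + 4 * ε * h.1 ^ 2 * |h.2| ^ (β - 3) +
        η * (2 * m) * P ^ (2 * m - 1) * (|h.1| + |h.2|) * |h.2| ^ (β - 2 * m - 1))) := by
    calc -(((IF (V2 (φ t)) (x + h)).re - (IF (V2 (φ t)) x).re) * p2 (x + h))
        ≤ |((IF (V2 (φ t)) (x + h)).re - (IF (V2 (φ t)) x).re) * p2 (x + h)| := neg_le_abs _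
      _ = |(IF (V2 (φ t)) (x + h)).re - (IF (V2 (φ t)) x).re| * |p2 (x + h)| := abs_mul _ _
      _ ≤ ‖IF (V2 (φ t)) (x + h) - IF (V2 (φ t)) x‖ * |p2 (x + h)| :=
          mul_le_mul_of_nonneg_right n2 (abs_nonneg _)
      _ ≤ _ := mul_le_mul_of_nonneg_left hx2 (norm_nonneg _)
  linarith

end Pool.Agent.SQG
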