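import Pool.Agent.SQG.Stmts6
import Pool.Agent.SQG.Foc

/-!
# SQG, module FOI: the equation at a touching point, for the modulus `N |h|^β`
-/

set_option autoImplicit false

namespace Pool.Agent.SQG

open Complex MeasureTheory Set Filter Topology ProbabilityTheory

namespace FOIAux

theorem continuous_nm : Continuous nm := by
  unfold nm
  fun_prop

theorem abs_fst_le (h : P2) : |h.1| ≤ nm h := by
  unfold nm
  exact Real.abs_le_sqrt (by nlinarith [sq_nonneg h.2])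

theorem abs_snd_le (h : P2) : |h.2| ≤ nm h := by
  unfold nm
  exact Real.abs_le_sqrt (by nlinarith [sq_nonneg h.1])

/-- the partial derivatives of the norm -/
theorem deriv_nm1 {h : P2} (h0 : 0 < nm h) :
    HasDerivAt (fun z : ℝ => nm (z, h.2)) (h.1 / nm h) h.1 := by
  have h1 : HasDerivAt (fun z : ℝ => z ^ 2 + h.2 ^ 2) (2 * h.1) h.1 := by
    simpa using (hasDerivAt_pow 2 h.1).add_const (h.2 ^ 2)
  have h2 : h.1 ^ 2 + h.2 ^ 2 ≠ 0 := by
    intro h3
    unfold nm at h0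
    rw [h3, Real.sqrt_zero] at h0
    exact lt_irrefl _ h0
  have h3 := h1.sqrt h2
  have h4 : 2 * h.1 / (2 * √(h.1 ^ 2 + h.2 ^ 2)) = h.1 / nm h := by
    unfold nm
    rw [mul_div_mul_left _ _ (by norm_num : (2 : ℝ) ≠ 0)]
  rw [h4] at h3
  exact h3

theorem deriv_nm2 {h : P2} (h0 : 0 < nm h) :
    HasDerivAt (fun z : ℝ => nm (h.1, z)) (h.2 / nm h) h.2 := by
  have h1 : HasDerivAt (fun z : ℝ => h.1 ^ 2 + z ^ 2) (2 * h.2) h.2 := by
    simpa using (hasDerivAt_pow 2 h.2).const_add (h.1 ^ 2)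
  have h2 : h.1 ^ 2 + h.2 ^ 2 ≠ 0 := by
    intro h3
    unfold nm at h0
    rw [h3, Real.sqrt_zero] at h0
    exact lt_irrefl _ h0
  have h3 := h1.sqrt h2
  have h4 : 2 * h.2 / (2 * √(h.1 ^ 2 + h.2 ^ 2)) = h.2 / nm h := by
    unfold nm
    rw [mul_div_mul_left _ _ (by norm_num : (2 : ℝ) ≠ 0)]
  rw [h4] at h3
  exact h3

theorem abs_grad {N β L a : ℝ} (hN : 0 ≤ N) (hβ : 0 ≤ β) (hL : 0 < L) (ha : |a| ≤ L) :
    |N * (a / L * β * L ^ (β - 1))| ≤ N * β * L ^ (β - 1) := by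
  have h1 : |a / L| ≤ 1 := by
    rw [abs_div, abs_of_pos hL, div_le_one hL]
    exact ha
  have h2 : 0 ≤ L ^ (β - 1) := Real.rpow_nonneg hL.le _
  rw [abs_mul, abs_mul, abs_mul, abs_of_nonneg hN, abs_of_nonneg hβ, abs_of_nonneg h2]
  have h3 : 0 ≤ N * β * L ^ (β - 1) := by positivity
  calc N * (|a / L| * β * L ^ (β - 1)) = |a / L| * (N * β * L ^ (β - 1)) := by ring
    _ ≤ 1 * (N * β * L ^ (β - 1)) := mul_le_mul_of_nonneg_right h1 h3
    _ = _ := one_mul _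

end FOIAux

theorem foi (hR : Stmt_REG) (hD : Stmt_DER) : Stmt_FOI := by
  intro α κ T θ φ hS N β t₀ t x h ht0 htt htT hN hβ h0 h1' heq hle
  have htI : t ∈ Ioo 0 T := ⟨ht0.trans htt, htT⟩
  have hNF : NF (θ t) (φ t) := (hR α κ T θ φ hS).1 t htI
  obtain ⟨-, -, hder⟩ := hD (θ t) (φ t) hNF
  -- the gradient
  set p1 : P2 → ℝ := fun y => (IF (D1 (φ t)) y).re with hp1
  set p2 : P2 → ℝ := fun y => (IF (D2 (φ t)) y).re with hp2
  have hfd : ∀ y, HasFDerivAt (θ t) (p1 y • ContinuousLinearMap.fst ℝ ℝ ℝ +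
      p2 y • ContinuousLinearMap.snd ℝ ℝ ℝ) y := fun y => (hder y).2.2
  have hD1 : ∀ y, IF (D1 (φ t)) y = ((p1 y : ℝ) : ℂ) := fun y => (hder y).1
  have hD2 : ∀ y, IF (D2 (φ t)) y = ((p2 y : ℝ) : ℂ) := fun y => (hder y).2.1
  -- (1) time derivative
  have htime : ∀ y, HasDerivAt (fun s => θ s y)
      ((-(IF (V1 (φ t)) y * IF (D1 (φ t)) y + IF (V2 (φ t)) y * IF (D2 (φ t)) y) -
      κ * IF (LL α (φ t)) y).re) t := by
    intro y
    have h1 := hS.eqn t htI y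
    have h2 := Complex.reCLM.hasFDerivAt.comp_hasDerivAt t h1
    simpa [Function.comp_def] using h2
  have hT := (htime (x + h)).sub (htime x)
  have hnonneg := FOCAux.deriv_nonneg_left htt hT (by
    intro s hs
    have h1 := hle s hs x h h1'.le
    have h2 := (abs_le.1 h1).2
    simp only [Pi.sub_apply]
    rw [heq]
    linarith)
  -- (2) the gradients agree
  have hmax2 : IsLocalMax (fun y => θ t (y + h) - θ t y) x := by
    refine Filter.Eventually.of_forall fun y => ?_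
    show θ t (y + h) - θ t y ≤ θ t (x + h) - θ t x
    rw [heq]
    exact (abs_le.1 (hle t ⟨htt.le, le_rfl⟩ y h h1'.le)).2
  have hfd2 : HasFDerivAt (fun y => θ t (y + h) - θ t y)
      ((p1 (x + h) • ContinuousLinearMap.fst ℝ ℝ ℝ + p2 (x + h) • ContinuousLinearMap.snd ℝ ℝ ℝ) -
        (p1 x • ContinuousLinearMap.fst ℝ ℝ ℝ + p2 x • ContinuousLinearMap.snd ℝ ℝ ℝ)) x := by
    have h1 : HasFDerivAt (fun y => θ t (y + h))
        (p1 (x + h) • ContinuousLinearMap.fst ℝ ℝ ℝ + p2 (x + h) • ContinuousLinearMap.snd ℝ ℝ ℝ) x :=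
      (hasFDerivAt_comp_add_right h).2 (hfd (x + h))
    exact h1.sub (hfd x)
  have hz := hmax2.hasFDerivAt_eq_zero hfd2
  have e1 : p1 (x + h) = p1 x := by
    have := congrArg (fun L : P2 →L[ℝ] ℝ => L (1, 0)) hz
    simp at this
    linarith
  have e2 : p2 (x + h) = p2 x := by
    have := congrArg (fun L : P2 →L[ℝ] ℝ => L (0, 1)) hz
    simp at this
    linarith
  -- (3) the gradient is the gradient of the modulus
  have hnb : {l : P2 | nm l ≤ 1} ∈ 𝓝 h := by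
    have e1 : ∀ᶠ k : P2 in 𝓝 h, nm k < 1 :=
      (FOIAux.continuous_nm.continuousAt (x := h)).eventually (gt_mem_nhds h1')
    filter_upwards [e1] with k k1
    exact k1.le
  have hloc : ∀ᶠ l in 𝓝 h, θ t (x + l) - N * nm l ^ β ≤ θ t (x + h) - N * nm h ^ β := by
    filter_upwards [hnb] with l hl
    have h1 := (abs_le.1 (hle t ⟨htt.le, le_rfl⟩ x l hl)).2
    linarith [heq]
  have hx1 : p1 (x + h) = N * (h.1 / nm h * β * nm h ^ (β - 1)) := by
    have hc : Tendsto (fun z : ℝ => ((z, h.2) : P2)) (𝓝 h.1) (𝓝 h) := by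
      have : ContinuousAt (fun z : ℝ => ((z, h.2) : P2)) h.1 := by fun_prop
      exact this
    have hm : IsLocalMax (fun z : ℝ => θ t (x + (z, h.2)) - N * nm (z, h.2) ^ β) h.1 := by
      filter_upwards [hc.eventually hloc] with z hz
      exact hz
    have hl : HasDerivAt (fun z : ℝ => x + ((z, h.2) : P2)) ((1, 0) : P2) h.1 := by
      have : HasDerivAt (fun z : ℝ => ((z, h.2) : P2)) ((1, 0) : P2) h.1 :=
        (hasDerivAt_id h.1).prodMk (hasDerivAt_const h.1 h.2)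
      exact this.const_add x
    have hd1 := (hfd (x + h)).comp_hasDerivAt_of_eq h.1 hl rfl
    have hd2 : HasDerivAt (fun z : ℝ => N * nm (z, h.2) ^ β)
        (N * (h.1 / nm h * β * nm h ^ (β - 1))) h.1 :=
      ((FOIAux.deriv_nm1 h0).rpow_const (p := β) (Or.inl h0.ne')).const_mul N
    have h5 := hm.hasDerivAt_eq_zero (hd1.sub hd2)
    simp at h5
    linarith
  have hx2 : p2 (x + h) = N * (h.2 / nm h * β * nm h ^ (β - 1)) := by
    have hc : Tendsto (fun z : ℝ => ((h.1, z) : P2)) (𝓝 h.2) (𝓝 h) := by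
      have : ContinuousAt (fun z : ℝ => ((h.1, z) : P2)) h.2 := by fun_prop
      exact this
    have hm : IsLocalMax (fun z : ℝ => θ t (x + (h.1, z)) - N * nm (h.1, z) ^ β) h.2 := by
      filter_upwards [hc.eventually hloc] with z hz
      exact hz
    have hl : HasDerivAt (fun z : ℝ => x + ((h.1, z) : P2)) ((0, 1) : P2) h.2 := by
      have : HasDerivAt (fun z : ℝ => ((h.1, z) : P2)) ((0, 1) : P2) h.2 :=
        (hasDerivAt_const h.2 h.1).prodMk (hasDerivAt_id h.2)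
      exact this.const_add x
    have hd1 := (hfd (x + h)).comp_hasDerivAt_of_eq h.2 hl rfl
    have hd2 : HasDerivAt (fun z : ℝ => N * nm (h.1, z) ^ β)
        (N * (h.2 / nm h * β * nm h ^ (β - 1))) h.2 :=
      ((FOIAux.deriv_nm2 h0).rpow_const (p := β) (Or.inl h0.ne')).const_mul N
    have h5 := hm.hasDerivAt_eq_zero (hd1.sub hd2)
    simp at h5
    linarith
  -- (4) combine
  have e1' : IF (D1 (φ t)) (x + h) = ((p1 (x + h) : ℝ) : ℂ) := hD1 _
  have e2' : IF (D2 (φ t)) (x + h) = ((p2 (x + h) : ℝ) : ℂ) := hD2 _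
  have e1'' : IF (D1 (φ t)) x = ((p1 (x + h) : ℝ) : ℂ) := by rw [e1]; exact hD1 x
  have e2'' : IF (D2 (φ t)) x = ((p2 (x + h) : ℝ) : ℂ) := by rw [e2]; exact hD2 x
  rw [e1', e2', e1'', e2''] at hnonneg
  simp only [Complex.sub_re, Complex.neg_re, Complex.add_re, Complex.mul_re, Complex.ofReal_re,
    Complex.ofReal_im, mul_zero, sub_zero, zero_mul] at hnonneg
  simp only [Complex.sub_re]
  have n1 : |(IF (V1 (φ t)) (x + h)).re - (IF (V1 (φ t)) x).re| ≤
      ‖IF (V1 (φ t)) (x + h) - IF (V1 (φ t)) x‖ := by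
    rw [← Complex.sub_re]; exact Complex.abs_re_le_norm _
  have n2 : |(IF (V2 (φ t)) (x + h)).re - (IF (V2 (φ t)) x).re| ≤
      ‖IF (V2 (φ t)) (x + h) - IF (V2 (φ t)) x‖ := by
    rw [← Complex.sub_re]; exact Complex.abs_re_le_norm _
  have a1 : |p1 (x + h)| ≤ N * β * nm h ^ (β - 1) := by
    rw [hx1]
    exact FOIAux.abs_grad hN hβ h0 (FOIAux.abs_fst_le h)
  have a2 : |p2 (x + h)| ≤ N * β * nm h ^ (β - 1) := by
    rw [hx2]
    exact FOIAux.abs_grad hN hβ h0 (FOIAux.abs_snd_le h)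
  have b1 : -(((IF (V1 (φ t)) (x + h)).re - (IF (V1 (φ t)) x).re) * p1 (x + h)) ≤
      ‖IF (V1 (φ t)) (x + h) - IF (V1 (φ t)) x‖ * (N * β * nm h ^ (β - 1)) := by
    calc -(((IF (V1 (φ t)) (x + h)).re - (IF (V1 (φ t)) x).re) * p1 (x + h))
        ≤ |((IF (V1 (φ t)) (x + h)).re - (IF (V1 (φ t)) x).re) * p1 (x + h)| := neg_le_abs _
      _ = |(IF (V1 (φ t)) (x + h)).re - (IF (V1 (φ t)) x).re| * |p1 (x + h)| := abs_mul _ _
      _ ≤ _ := mul_le_mul n1 a1 (abs_nonneg _) (norm_nonneg _)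
  have b2 : -(((IF (V2 (φ t)) (x + h)).re - (IF (V2 (φ t)) x).re) * p2 (x + h)) ≤
      ‖IF (V2 (φ t)) (x + h) - IF (V2 (φ t)) x‖ * (N * β * nm h ^ (β - 1)) := by
    calc -(((IF (V2 (φ t)) (x + h)).re - (IF (V2 (φ t)) x).re) * p2 (x + h))
        ≤ |((IF (V2 (φ t)) (x + h)).re - (IF (V2 (φ t)) x).re) * p2 (x + h)| := neg_le_abs _
      _ = |(IF (V2 (φ t)) (x + h)).re - (IF (V2 (φ t)) x).re| * |p2 (x + h)| := abs_mul _ _
      _ ≤ _ := mul_le_mul n2 a2 (abs_nonneg _) (norm_nonneg _)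
  rw [add_mul]
  linarith

end Pool.Agent.SQG
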