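import Pool.Agent.SQG.Gb

/-!
# The fractional Laplacian by Gaussian averages
-/

set_option autoImplicit false

namespace Pool.Agent.SQG

open Complex MeasureTheory Set Filter Topology ProbabilityTheory

namespace GAAux

/-- the integrand of the constant -/
noncomputable def G (α : ℝ) (v : ℝ) : ℝ := (1 - Real.exp (-(v ^ 2 / 2))) * v ^ (-1 - 2 * α)

theorem G_nonneg (α v : ℝ) (hv : 0 < v) : 0 ≤ G α v := by
  unfold G
  refine mul_nonneg ?_ (Real.rpow_nonneg hv.le _)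
  have : Real.exp (-(v ^ 2 / 2)) ≤ 1 := Real.exp_le_one_iff.2 (by nlinarith [sq_nonneg v])
  linarith

theorem G_pos (α v : ℝ) (hv : 0 < v) : 0 < G α v := by
  unfold G
  refine mul_pos ?_ (Real.rpow_pos_of_pos hv _)
  have : Real.exp (-(v ^ 2 / 2)) < 1 :=
    lt_of_lt_of_eq (Real.exp_lt_exp.2 (by nlinarith [sq_pos_of_pos hv] : -(v ^ 2 / 2) < 0)) Real.exp_zero
  linarith

theorem G_meas (α : ℝ) : Measurable (G α) := by
  unfold G
  fun_prop

theorem G_int (α : ℝ) (h0 : 0 < α) (h1 : α < 1 / 2) : IntegrableOn (G α) (Ioi 0) := by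
  have hA : IntegrableOn (G α) (Ioc 0 1) := by
    have h2 : IntegrableOn (fun v : ℝ => v ^ (1 - 2 * α)) (Ioc 0 1) := by
      have h3 := (intervalIntegral.intervalIntegrable_rpow' (a := 0) (b := 1)
        (r := 1 - 2 * α) (by linarith))
      rwa [intervalIntegrable_iff_integrableOn_Ioc_of_le (by norm_num)] at h3
    refine Integrable.mono' h2 (G_meas α).aestronglyMeasurable ?_
    refine (ae_restrict_iff' measurableSet_Ioc).2 (Eventually.of_forall fun v hv => ?_)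
    rw [Real.norm_of_nonneg (G_nonneg α v hv.1)]
    unfold G
    have h3 : 1 - Real.exp (-(v ^ 2 / 2)) ≤ v ^ 2 / 2 := by
      have := Real.add_one_le_exp (-(v ^ 2 / 2))
      linarith
    have h4 : v ^ (1 - 2 * α) = v ^ 2 * v ^ (-1 - 2 * α) := by
      rw [← Real.rpow_natCast v 2, ← Real.rpow_add hv.1]
      congr 1
      push_cast
      ring
    rw [h4]
    have h5 : 0 ≤ v ^ (-1 - 2 * α) := Real.rpow_nonneg hv.1.le _
    nlinarith [mul_nonneg (sq_nonneg v) h5, mul_le_mul_of_nonneg_right h3 h5]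
  have hB : IntegrableOn (G α) (Ioi 1) := by
    have h2 : IntegrableOn (fun v : ℝ => v ^ (-1 - 2 * α)) (Ioi 1) :=
      integrableOn_Ioi_rpow_of_lt (by linarith) (by norm_num)
    refine Integrable.mono' h2 (G_meas α).aestronglyMeasurable ?_
    refine (ae_restrict_iff' measurableSet_Ioi).2 (Eventually.of_forall fun v hv => ?_)
    have hv0 : (0 : ℝ) < v := lt_trans one_pos hv
    rw [Real.norm_of_nonneg (G_nonneg α v hv0)]
    unfold G
    have h5 : 0 ≤ v ^ (-1 - 2 * α) := Real.rpow_nonneg hv0.le _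
    have h6 := Real.exp_pos (-(v ^ 2 / 2))
    nlinarith [mul_nonneg h6.le h5]
  rw [← Ioc_union_Ioi_eq_Ioi (zero_le_one' ℝ)]
  exact hA.union hB

theorem I_pos (α : ℝ) (h0 : 0 < α) (h1 : α < 1 / 2) : 0 < ∫ v in Ioi (0 : ℝ), G α v := by
  rw [setIntegral_pos_iff_support_of_nonneg_ae]
  · have : (Ioi (0 : ℝ)) ⊆ Function.support (G α) ∩ Ioi 0 := by
      intro v hv
      exact ⟨(G_pos α v hv).ne', hv⟩
    refine lt_of_lt_of_le ?_ (measure_mono this)
    rw [Real.volume_Ioi]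
    exact ENNReal.coe_lt_top
  · refine (ae_restrict_iff' measurableSet_Ioi).2 (Eventually.of_forall fun v hv => ?_)
    exact G_nonneg α v hv
  · exact G_int α h0 h1

theorem cL_eq (α : ℝ) : cL α = (∫ v in Ioi (0 : ℝ), G α v)⁻¹ := rfl

theorem G_scale (α b : ℝ) (hb : 0 < b) (r : ℝ) (hr : 0 < r) :
    (1 - Real.exp (-(r ^ 2 * b ^ 2 / 2))) * r ^ (-1 - 2 * α) = b ^ (1 + 2 * α) * G α (b * r) := by
  unfold G
  rw [Real.mul_rpow hb.le hr.le]
  have h1 : b ^ (1 + 2 * α) * b ^ (-1 - 2 * α) = 1 := by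
    rw [← Real.rpow_add hb]
    have : 1 + 2 * α + (-1 - 2 * α) = 0 := by ring
    rw [this, Real.rpow_zero]
  have h2 : (b * r) ^ 2 / 2 = r ^ 2 * b ^ 2 / 2 := by ring
  rw [h2]
  calc (1 - Real.exp (-(r ^ 2 * b ^ 2 / 2))) * r ^ (-1 - 2 * α)
      = (b ^ (1 + 2 * α) * b ^ (-1 - 2 * α)) *
        ((1 - Real.exp (-(r ^ 2 * b ^ 2 / 2))) * r ^ (-1 - 2 * α)) := by rw [h1, one_mul]
    _ = _ := by ring

theorem scale_int (α b : ℝ) (h0 : 0 < α) (h1 : α < 1 / 2) (hb : 0 < b) :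
    IntegrableOn (fun r : ℝ => (1 - Real.exp (-(r ^ 2 * b ^ 2 / 2))) * r ^ (-1 - 2 * α)) (Ioi 0) ∧
    ∫ r in Ioi (0 : ℝ), (1 - Real.exp (-(r ^ 2 * b ^ 2 / 2))) * r ^ (-1 - 2 * α) =
      b ^ (2 * α) * ∫ v in Ioi (0 : ℝ), G α v := by
  constructor
  · have h2 : IntegrableOn (fun r : ℝ => G α (b * r)) (Ioi 0) := by
      rw [integrableOn_Ioi_comp_mul_left_iff _ _ hb, mul_zero]
      exact G_int α h0 h1
    have h3 : IntegrableOn (fun r : ℝ => b ^ (1 + 2 * α) * G α (b * r)) (Ioi 0) :=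
      h2.const_mul (b ^ (1 + 2 * α))
    exact h3.congr_fun (fun r hr => (G_scale α b hb r hr).symm) measurableSet_Ioi
  · rw [setIntegral_congr_fun measurableSet_Ioi (fun r hr => G_scale α b hb r hr),
      integral_const_mul, integral_comp_mul_left_Ioi (G α) 0 hb, mul_zero, smul_eq_mul,
      ← mul_assoc]
    congr 1
    rw [Real.rpow_add hb, Real.rpow_one]
    field_simp

theorem mom0 (r : ℝ) (ξ : P2) :
    ∫ z : P2, (((fun _ : P2 => (1 : ℝ)) z : ℝ) : ℂ) *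
      cexp (I * ((r * (z.1 * ξ.1 + z.2 * ξ.2) : ℝ) : ℂ)) ∂gm =
      ((Real.exp (-(r ^ 2 * nm ξ ^ 2 / 2)) : ℝ) : ℂ) := by
  have h1 : ∫ z : P2, (((fun _ : P2 => (1 : ℝ)) z : ℝ) : ℂ) *
      cexp (I * ((r * (z.1 * ξ.1 + z.2 * ξ.2) : ℝ) : ℂ)) ∂gm =
      ∫ z : ℝ × ℝ, (fun a : ℝ => cexp (I * ((r * ξ.1 * a : ℝ) : ℂ))) z.1 *
        (fun b : ℝ => cexp (I * ((r * ξ.2 * b : ℝ) : ℂ))) z.2
        ∂(gaussianReal 0 1).prod (gaussianReal 0 1) := by
    refine integral_congr_ae (Filter.Eventually.of_forall fun z => ?_)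
    simp only
    have h2 : I * ((r * (z.1 * ξ.1 + z.2 * ξ.2) : ℝ) : ℂ) =
        I * ((r * ξ.1 * z.1 : ℝ) : ℂ) + I * ((r * ξ.2 * z.2 : ℝ) : ℂ) := by
      push_cast
      ring
    rw [h2, Complex.exp_add]
    push_cast
    ring
  refine (h1.trans (integral_prod_mul (L := ℂ)
    (fun a : ℝ => cexp (I * ((r * ξ.1 * a : ℝ) : ℂ)))
    (fun b : ℝ => cexp (I * ((r * ξ.2 * b : ℝ) : ℂ))))).trans ?_
  rw [GBAux.g0, GBAux.g0, GBAux.nm_sq]
  have h3 : Real.exp (-(r ^ 2 * (ξ.1 ^ 2 + ξ.2 ^ 2) / 2)) =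
      Real.exp (-((r * ξ.1) ^ 2 / 2)) * Real.exp (-((r * ξ.2) ^ 2 / 2)) := by
    rw [← Real.exp_add]
    congr 1
    ring
  rw [h3]
  push_cast
  ring

theorem main (α : ℝ) (h0 : 0 < α) (h1 : α < 1 / 2) {φ : P2 → ℂ} (hi : Integrable φ)
    (hi1 : Integrable fun ξ => nm ξ * ‖φ ξ‖) (x : P2) (Df : ℝ → ℝ)
    (hD : ∀ r, 0 < r → (Df r : ℂ) = ∫ ξ : P2,
      φ ξ * cexp (I * ((x.1 * ξ.1 + x.2 * ξ.2 : ℝ) : ℂ)) *
        ((1 - Real.exp (-(r ^ 2 * nm ξ ^ 2 / 2)) : ℝ) : ℂ)) :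
    IntegrableOn (fun r : ℝ => Df r * r ^ (-1 - 2 * α)) (Ioi 0) ∧
    ∫ ξ : P2, ((nm ξ ^ (2 * α) : ℝ) : ℂ) * φ ξ *
      cexp (I * ((x.1 * ξ.1 + x.2 * ξ.2 : ℝ) : ℂ)) =
      ((cL α * ∫ r in Ioi (0 : ℝ), Df r * r ^ (-1 - 2 * α) : ℝ) : ℂ) := by
  set I0 : ℝ := ∫ v in Ioi (0 : ℝ), G α v with hI0
  have hI0p : 0 < I0 := I_pos α h0 h1
  set E : P2 → ℂ := fun ξ => cexp (I * ((x.1 * ξ.1 + x.2 * ξ.2 : ℝ) : ℂ)) with hE
  have hEc : Continuous E := by
    rw [hE]
    fun_prop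
  have hEn : ∀ ξ, ‖E ξ‖ = 1 := fun ξ => GBAux.norm_cexp _
  set k : ℝ → ℝ → ℝ := fun b r => (1 - Real.exp (-(r ^ 2 * b ^ 2 / 2))) * r ^ (-1 - 2 * α) with hk
  have hk0 : ∀ b r, 0 < r → 0 ≤ k b r := by
    intro b r hr
    simp only [hk]
    refine mul_nonneg ?_ (Real.rpow_nonneg hr.le _)
    have : Real.exp (-(r ^ 2 * b ^ 2 / 2)) ≤ 1 :=
      Real.exp_le_one_iff.2 (by nlinarith [mul_nonneg (sq_nonneg r) (sq_nonneg b)])
    linarith
  set K : P2 × ℝ → ℂ := fun p => φ p.1 * E p.1 * ((k (nm p.1) p.2 : ℝ) : ℂ) with hK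
  have hnmm : Measurable nm := GBAux.continuous_nm.measurable
  have hKm : AEStronglyMeasurable K
      ((volume : Measure P2).prod ((volume : Measure ℝ).restrict (Ioi 0))) := by
    have h1 : AEStronglyMeasurable (fun p : P2 × ℝ => φ p.1)
        ((volume : Measure P2).prod ((volume : Measure ℝ).restrict (Ioi 0))) :=
      hi.aestronglyMeasurable.comp_fst
    have h2 : Measurable fun p : P2 × ℝ => E p.1 * ((k (nm p.1) p.2 : ℝ) : ℂ) := by
      have h3 := hEc.measurable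
      simp only [hk]
      fun_prop
    have h3 := h1.mul h2.aestronglyMeasurable
    refine h3.congr (Filter.Eventually.of_forall fun p => ?_)
    simp only [hK, Pi.mul_apply]
    ring
  have hkz : ∀ ξ, nm ξ = 0 → ∀ r, k (nm ξ) r = 0 := by
    intro ξ h r
    simp only [hk]
    rw [h]
    simp
  have hKi : Integrable K
      ((volume : Measure P2).prod ((volume : Measure ℝ).restrict (Ioi 0))) := by
    rw [integrable_prod_iff hKm]
    constructor
    · refine Filter.Eventually.of_forall fun ξ => ?_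
      by_cases h : nm ξ = 0
      · have h1 : (fun r => K (ξ, r)) = fun _ => 0 := by
          funext r
          simp only [hK]
          rw [hkz ξ h]
          simp
        rw [h1]
        exact integrable_zero _ _ _
      · have hpos : 0 < nm ξ := lt_of_le_of_ne (GBAux.nm_nonneg ξ) (Ne.symm h)
        have h1 := ((scale_int α (nm ξ) h0 h1 hpos).1.ofReal (𝕜 := ℂ)).const_mul (φ ξ * E ξ)
        exact h1
    · have h1 := hKm.norm.integral_prod_right'
      refine Integrable.mono' ((hi.norm.add hi1).const_mul I0) h1 ?_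
      refine Filter.Eventually.of_forall fun ξ => ?_
      have hKn : ∀ r ∈ Ioi (0 : ℝ), ‖K (ξ, r)‖ = ‖φ ξ‖ * k (nm ξ) r := by
        intro r hr
        simp only [hK]
        rw [norm_mul, norm_mul, hEn, Complex.norm_real, Real.norm_of_nonneg (hk0 _ _ hr)]
        ring
      rw [setIntegral_congr_fun measurableSet_Ioi hKn, integral_const_mul]
      by_cases h : nm ξ = 0
      · simp only [hkz ξ h, integral_zero, mul_zero, norm_zero, Pi.add_apply]
        have := GBAux.nm_nonneg ξ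
        positivity
      · have hpos : 0 < nm ξ := lt_of_le_of_ne (GBAux.nm_nonneg ξ) (Ne.symm h)
        have h2 : ∫ r in Ioi (0 : ℝ), k (nm ξ) r = nm ξ ^ (2 * α) * I0 :=
          (scale_int α (nm ξ) h0 ‹α < 1 / 2› hpos).2
        rw [h2, Real.norm_of_nonneg (by positivity)]
        have h3 : nm ξ ^ (2 * α) ≤ 1 + nm ξ := by
          rcases le_total (nm ξ) 1 with h4 | h4
          · have := Real.rpow_le_one hpos.le h4 (by linarith : (0 : ℝ) ≤ 2 * α)
            linarith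
          · have := Real.rpow_le_rpow_of_exponent_le h4 (by linarith : 2 * α ≤ 1)
            rw [Real.rpow_one] at this
            linarith
        simp only [Pi.add_apply]
        calc ‖φ ξ‖ * (nm ξ ^ (2 * α) * I0) = (‖φ ξ‖ * I0) * nm ξ ^ (2 * α) := by ring
          _ ≤ (‖φ ξ‖ * I0) * (1 + nm ξ) := mul_le_mul_of_nonneg_left h3 (by positivity)
          _ = _ := by ring
  have hDK : ∀ r ∈ Ioi (0 : ℝ), ((Df r * r ^ (-1 - 2 * α) : ℝ) : ℂ) = ∫ ξ, K (ξ, r) := by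
    intro r hr
    have hr0 : (0 : ℝ) < r := hr
    rw [ofReal_mul, hD r hr0, ← integral_mul_const]
    refine integral_congr_ae (Filter.Eventually.of_forall fun ξ => ?_)
    simp only [hK, hE, hk]
    push_cast
    ring
  have hI1 : IntegrableOn (fun r : ℝ => ((Df r * r ^ (-1 - 2 * α) : ℝ) : ℂ)) (Ioi 0) := by
    have h1 : IntegrableOn (fun r : ℝ => ∫ ξ, K (ξ, r)) (Ioi 0) := hKi.integral_prod_right
    exact h1.congr_fun (fun r hr => (hDK r hr).symm) measurableSet_Ioi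
  constructor
  · have h1 := hI1.re
    exact h1
  · have h1 : ((∫ r in Ioi (0 : ℝ), Df r * r ^ (-1 - 2 * α) : ℝ) : ℂ) =
        ∫ r in Ioi (0 : ℝ), ∫ ξ, K (ξ, r) := by
      rw [← integral_complex_ofReal]
      exact setIntegral_congr_fun measurableSet_Ioi hDK
    have h2 : ∫ r in Ioi (0 : ℝ), ∫ ξ, K (ξ, r) = ∫ ξ, ∫ r in Ioi (0 : ℝ), K (ξ, r) :=
      (integral_integral_swap (f := fun ξ r => K (ξ, r)) hKi).symm
    rw [ofReal_mul, h1, h2, ← integral_const_mul]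
    refine integral_congr_ae (Filter.Eventually.of_forall fun ξ => ?_)
    simp only
    by_cases h : nm ξ = 0
    · have h3 : ∀ r, K (ξ, r) = 0 := by
        intro r
        simp only [hK]
        rw [hkz ξ h]
        simp
      simp only [h3]
      rw [h, Real.zero_rpow (by positivity)]
      simp
    · have hpos : 0 < nm ξ := lt_of_le_of_ne (GBAux.nm_nonneg ξ) (Ne.symm h)
      have h3 : ∫ r in Ioi (0 : ℝ), K (ξ, r) = φ ξ * E ξ * ((nm ξ ^ (2 * α) * I0 : ℝ) : ℂ) := by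
        rw [← (scale_int α (nm ξ) h0 ‹α < 1 / 2› hpos).2, ← integral_complex_ofReal,
          ← integral_const_mul]
      rw [h3, cL_eq, ← hI0]
      change ((nm ξ ^ (2 * α) : ℝ) : ℂ) * φ ξ * E ξ = _
      have h4 : ((I0⁻¹ : ℝ) : ℂ) * ((I0 : ℝ) : ℂ) = 1 := by
        rw [← ofReal_mul, inv_mul_cancel₀ hI0p.ne', ofReal_one]
      calc ((nm ξ ^ (2 * α) : ℝ) : ℂ) * φ ξ * E ξ
          = (((I0⁻¹ : ℝ) : ℂ) * ((I0 : ℝ) : ℂ)) * (((nm ξ ^ (2 * α) : ℝ) : ℂ) * φ ξ * E ξ) := by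
            rw [h4, one_mul]
        _ = _ := by
            rw [ofReal_mul (nm ξ ^ (2 * α)) I0]
            ring

end GAAux

theorem ga : Stmt_GA := by
  intro α h0 h1
  refine ⟨?_, ?_⟩
  · rw [GAAux.cL_eq]
    exact inv_pos.2 (GAAux.I_pos α h0 h1)
  intro f φ hf x
  have hφ : Integrable φ := by
    have h1 := hf.int 0
    simp only [pow_zero, one_mul] at h1
    exact (integrable_norm_iff hf.meas).1 h1
  have hφ1 : Integrable fun ξ => nm ξ * ‖φ ξ‖ := by
    have h1 := hf.int 1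
    simpa only [pow_one] using h1
  have key : ∀ r : ℝ, ((Av r f x : ℝ) : ℂ) =
      ∫ ξ : P2, φ ξ * cexp (I * ((x.1 * ξ.1 + x.2 * ξ.2 : ℝ) : ℂ)) *
        ((Real.exp (-(r ^ 2 * nm ξ ^ 2 / 2)) : ℝ) : ℂ) := by
    intro r
    have h2 := GBAux.fub hφ (fun _ => (1 : ℝ)) (integrable_const _) r x
    simp only [GAAux.mom0] at h2
    rw [← h2]
    unfold Av
    rw [← integral_complex_ofReal]
    refine integral_congr_ae (Filter.Eventually.of_forall fun z => ?_)
    simp only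
    rw [hf.rep, ofReal_one, one_mul]
  obtain ⟨h2, h3⟩ := GAAux.main α h0 h1 hφ hφ1 x (fun r => f x - Av r f x) (by
    intro r _
    rw [ofReal_sub, key r, hf.rep x]
    unfold IF
    rw [← integral_sub]
    · refine integral_congr_ae (Filter.Eventually.of_forall fun ξ => ?_)
      simp only
      push_cast
      ring
    · refine hφ.mono (hφ.aestronglyMeasurable.mul (by fun_prop)) ?_
      refine Filter.Eventually.of_forall fun ξ => ?_
      rw [norm_mul, GBAux.norm_cexp, mul_one]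
    · have hc := GBAux.continuous_nm
      refine hφ.mono ((hφ.aestronglyMeasurable.mul (by fun_prop)).mul (by fun_prop)) ?_
      refine Filter.Eventually.of_forall fun ξ => ?_
      rw [norm_mul, norm_mul, GBAux.norm_cexp, mul_one, Complex.norm_real, Real.norm_eq_abs,
        Real.abs_exp]
      have : Real.exp (-(r ^ 2 * nm ξ ^ 2 / 2)) ≤ 1 :=
        Real.exp_le_one_iff.2 (by nlinarith [mul_nonneg (sq_nonneg r) (sq_nonneg (nm ξ))])
      nlinarith [norm_nonneg (φ ξ)])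
  exact ⟨h2, h3⟩

end Pool.Agent.SQG
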