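import Pool.Agent.SQG.Stmts

/-!
# The Riesz transforms by Gaussian averages
-/

set_option autoImplicit false

namespace Pool.Agent.SQG

open Complex MeasureTheory Set Filter Topology ProbabilityTheory

namespace GBAux

theorem g0 (a : ℝ) : ∫ z, cexp (I * ((a * z : ℝ) : ℂ)) ∂(gaussianReal 0 1) =
    ((Real.exp (-(a ^ 2 / 2)) : ℝ) : ℂ) := by
  have h := complexMGF_id_gaussianReal (μ := 0) (v := 1) (I * a)
  unfold complexMGF at h
  have h1 : (I * (a : ℂ)) * ((0 : ℝ) : ℂ) + ((1 : NNReal) : ℂ) * (I * (a : ℂ)) ^ 2 / 2 =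
      ((-(a ^ 2 / 2) : ℝ) : ℂ) := by
    push_cast
    rw [mul_pow, I_sq]
    ring
  rw [h1] at h
  rw [ofReal_exp, ← h]
  refine integral_congr_ae (Filter.Eventually.of_forall fun z => ?_)
  simp only [id]
  congr 1
  push_cast
  ring

theorem g1 (a : ℝ) : ∫ z, (z : ℂ) * cexp (I * ((a * z : ℝ) : ℂ)) ∂(gaussianReal 0 1) =
    I * ((a : ℝ) : ℂ) * ((Real.exp (-(a ^ 2 / 2)) : ℝ) : ℂ) := by
  have h1 := hasDerivAt_complexMGF (X := id) (μ := gaussianReal 0 1) (z := I * a) (by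
    rw [integrableExpSet_id_gaussianReal]
    simp)
  have h2 : complexMGF id (gaussianReal 0 1) = fun z => cexp (z ^ 2 / 2) := by
    funext z
    rw [complexMGF_id_gaussianReal]
    simp
  rw [h2] at h1
  have h3 : HasDerivAt (fun z : ℂ => cexp (z ^ 2 / 2))
      (cexp ((I * (a : ℂ)) ^ 2 / 2) * (((2 : ℕ) : ℂ) * (I * (a : ℂ)) ^ (2 - 1) / 2)) (I * a) :=
    ((hasDerivAt_pow 2 (I * (a : ℂ))).div_const 2).cexp
  have h4 := h1.unique h3
  have h5 : (I * (a : ℂ)) ^ 2 / 2 = ((-(a ^ 2 / 2) : ℝ) : ℂ) := by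
    push_cast
    rw [mul_pow, I_sq]
    ring
  have h6 : ∫ z, (z : ℂ) * cexp (I * ((a * z : ℝ) : ℂ)) ∂(gaussianReal 0 1) =
      ∫ x, (fun ω => ((id ω : ℝ) : ℂ) * cexp (I * a * ((id ω : ℝ) : ℂ))) x ∂(gaussianReal 0 1) := by
    refine integral_congr_ae (Filter.Eventually.of_forall fun z => ?_)
    simp only [id]
    congr 2
    push_cast
    ring
  rw [h6, h4, h5, ofReal_exp]
  push_cast
  ring

theorem nm_sq (ξ : P2) : nm ξ ^ 2 = ξ.1 ^ 2 + ξ.2 ^ 2 := by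
  unfold nm
  rw [Real.sq_sqrt (by positivity)]

theorem nm_nonneg (ξ : P2) : 0 ≤ nm ξ := Real.sqrt_nonneg _

theorem abs_fst_le (ξ : P2) : |ξ.1| ≤ nm ξ := by
  unfold nm
  refine Real.abs_le_sqrt ?_
  nlinarith [sq_nonneg ξ.2]

theorem abs_snd_le (ξ : P2) : |ξ.2| ≤ nm ξ := by
  unfold nm
  refine Real.abs_le_sqrt ?_
  nlinarith [sq_nonneg ξ.1]

theorem continuous_nm : Continuous nm := by
  unfold nm
  fun_prop

theorem mom2 (r : ℝ) (ξ : P2) :
    ∫ z : P2, ((z.2 : ℝ) : ℂ) * cexp (I * ((r * (z.1 * ξ.1 + z.2 * ξ.2) : ℝ) : ℂ)) ∂gm =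
      I * ((r * ξ.2 : ℝ) : ℂ) * ((Real.exp (-(r ^ 2 * nm ξ ^ 2 / 2)) : ℝ) : ℂ) := by
  have h1 : ∫ z : P2, ((z.2 : ℝ) : ℂ) * cexp (I * ((r * (z.1 * ξ.1 + z.2 * ξ.2) : ℝ) : ℂ)) ∂gm =
      ∫ z : ℝ × ℝ, (fun a : ℝ => cexp (I * ((r * ξ.1 * a : ℝ) : ℂ))) z.1 *
        (fun b : ℝ => (b : ℂ) * cexp (I * ((r * ξ.2 * b : ℝ) : ℂ))) z.2
        ∂(gaussianReal 0 1).prod (gaussianReal 0 1) := by
    refine integral_congr_ae (Filter.Eventually.of_forall fun z => ?_)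
    simp only
    have h2 : I * ((r * (z.1 * ξ.1 + z.2 * ξ.2) : ℝ) : ℂ) =
        I * ((r * ξ.1 * z.1 : ℝ) : ℂ) + I * ((r * ξ.2 * z.2 : ℝ) : ℂ) := by
      push_cast
      ring
    rw [h2, Complex.exp_add]
    ring
  refine (h1.trans (integral_prod_mul (L := ℂ)
    (fun a : ℝ => cexp (I * ((r * ξ.1 * a : ℝ) : ℂ)))
    (fun b : ℝ => (b : ℂ) * cexp (I * ((r * ξ.2 * b : ℝ) : ℂ))))).trans ?_
  rw [g0, g1, nm_sq]
  have h3 : Real.exp (-(r ^ 2 * (ξ.1 ^ 2 + ξ.2 ^ 2) / 2)) =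
      Real.exp (-((r * ξ.1) ^ 2 / 2)) * Real.exp (-((r * ξ.2) ^ 2 / 2)) := by
    rw [← Real.exp_add]
    congr 1
    ring
  rw [h3]
  push_cast
  ring

theorem mom1 (r : ℝ) (ξ : P2) :
    ∫ z : P2, ((z.1 : ℝ) : ℂ) * cexp (I * ((r * (z.1 * ξ.1 + z.2 * ξ.2) : ℝ) : ℂ)) ∂gm =
      I * ((r * ξ.1 : ℝ) : ℂ) * ((Real.exp (-(r ^ 2 * nm ξ ^ 2 / 2)) : ℝ) : ℂ) := by
  have h1 : ∫ z : P2, ((z.1 : ℝ) : ℂ) * cexp (I * ((r * (z.1 * ξ.1 + z.2 * ξ.2) : ℝ) : ℂ)) ∂gm =
      ∫ z : ℝ × ℝ, (fun b : ℝ => (b : ℂ) * cexp (I * ((r * ξ.1 * b : ℝ) : ℂ))) z.1 *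
        (fun a : ℝ => cexp (I * ((r * ξ.2 * a : ℝ) : ℂ))) z.2
        ∂(gaussianReal 0 1).prod (gaussianReal 0 1) := by
    refine integral_congr_ae (Filter.Eventually.of_forall fun z => ?_)
    simp only
    have h2 : I * ((r * (z.1 * ξ.1 + z.2 * ξ.2) : ℝ) : ℂ) =
        I * ((r * ξ.1 * z.1 : ℝ) : ℂ) + I * ((r * ξ.2 * z.2 : ℝ) : ℂ) := by
      push_cast
      ring
    rw [h2, Complex.exp_add]
    ring
  refine (h1.trans (integral_prod_mul (L := ℂ)
    (fun b : ℝ => (b : ℂ) * cexp (I * ((r * ξ.1 * b : ℝ) : ℂ)))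
    (fun a : ℝ => cexp (I * ((r * ξ.2 * a : ℝ) : ℂ))))).trans ?_
  rw [g0, g1, nm_sq]
  have h3 : Real.exp (-(r ^ 2 * (ξ.1 ^ 2 + ξ.2 ^ 2) / 2)) =
      Real.exp (-((r * ξ.1) ^ 2 / 2)) * Real.exp (-((r * ξ.2) ^ 2 / 2)) := by
    rw [← Real.exp_add]
    congr 1
    ring
  rw [h3]
  push_cast
  ring

instance : IsProbabilityMeasure gm := by
  unfold gm
  infer_instance

theorem integrable_id_gauss : Integrable (fun z : ℝ => z) (gaussianReal 0 1) := by
  have h := (memLp_id_gaussianReal (μ := 0) (v := 1) 1).integrable (by norm_num)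
  exact h

theorem integrable_snd : Integrable (fun z : P2 => z.2) gm := by
  have h := Integrable.mul_prod (μ := gaussianReal 0 1) (ν := gaussianReal 0 1)
    (integrable_const (1 : ℝ)) integrable_id_gauss
  simpa [gm] using h

theorem integrable_fst : Integrable (fun z : P2 => z.1) gm := by
  have h := Integrable.mul_prod (μ := gaussianReal 0 1) (ν := gaussianReal 0 1)
    integrable_id_gauss (integrable_const (1 : ℝ))
  simpa [gm] using h

theorem norm_cexp (a : ℝ) : ‖cexp (I * (a : ℂ))‖ = 1 := by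
  rw [mul_comm, Complex.norm_exp_ofReal_mul_I]

theorem fub {φ : P2 → ℂ} (hi : Integrable φ) (c : P2 → ℝ)
    (hci : Integrable c gm) (r : ℝ) (x : P2) :
    ∫ z : P2, (c z : ℂ) * IF φ (x.1 + r * z.1, x.2 + r * z.2) ∂gm =
      ∫ ξ : P2, φ ξ * cexp (I * ((x.1 * ξ.1 + x.2 * ξ.2 : ℝ) : ℂ)) *
        ∫ z : P2, (c z : ℂ) * cexp (I * ((r * (z.1 * ξ.1 + z.2 * ξ.2) : ℝ) : ℂ)) ∂gm := by
  have h1 : Integrable (Function.uncurry fun (z ξ : P2) => ((c z : ℂ) * φ ξ) *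
      cexp (I * (((x.1 + r * z.1) * ξ.1 + (x.2 + r * z.2) * ξ.2 : ℝ) : ℂ))) (gm.prod volume) := by
    have h2 : Integrable (fun p : P2 × P2 => (c p.1 : ℂ) * φ p.2) (gm.prod volume) :=
      Integrable.mul_prod hci.ofReal hi
    have h3 : Continuous fun p : P2 × P2 =>
        cexp (I * (((x.1 + r * p.1.1) * p.2.1 + (x.2 + r * p.1.2) * p.2.2 : ℝ) : ℂ)) := by
      fun_prop
    refine h2.mono (h2.aestronglyMeasurable.mul h3.aestronglyMeasurable) ?_
    refine Filter.Eventually.of_forall fun p => ?_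
    simp only [Function.uncurry]
    rw [norm_mul, norm_cexp, mul_one]
  calc ∫ z : P2, (c z : ℂ) * IF φ (x.1 + r * z.1, x.2 + r * z.2) ∂gm
      = ∫ z : P2, (∫ ξ : P2, ((c z : ℂ) * φ ξ) *
        cexp (I * (((x.1 + r * z.1) * ξ.1 + (x.2 + r * z.2) * ξ.2 : ℝ) : ℂ))) ∂gm := by
        refine integral_congr_ae (Filter.Eventually.of_forall fun z => ?_)
        simp only [IF]
        rw [← integral_const_mul]
        refine integral_congr_ae (Filter.Eventually.of_forall fun ξ => ?_)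
        simp only
        ring
    _ = ∫ ξ : P2, (∫ z : P2, ((c z : ℂ) * φ ξ) *
        cexp (I * (((x.1 + r * z.1) * ξ.1 + (x.2 + r * z.2) * ξ.2 : ℝ) : ℂ)) ∂gm) :=
        integral_integral_swap h1
    _ = _ := by
        refine integral_congr_ae (Filter.Eventually.of_forall fun ξ => ?_)
        simp only
        rw [← integral_const_mul]
        refine integral_congr_ae (Filter.Eventually.of_forall fun z => ?_)
        simp only
        have h2 : I * (((x.1 + r * z.1) * ξ.1 + (x.2 + r * z.2) * ξ.2 : ℝ) : ℂ) =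
            I * ((x.1 * ξ.1 + x.2 * ξ.2 : ℝ) : ℂ) +
              I * ((r * (z.1 * ξ.1 + z.2 * ξ.2) : ℝ) : ℂ) := by
          push_cast
          ring
        rw [h2, Complex.exp_add]
        ring

theorem gint {b : ℝ} (hb : 0 < b) :
    ∫ r in Ioi (0 : ℝ), Real.exp (-(r ^ 2 * b ^ 2 / 2)) = √(Real.pi / 2) / b := by
  have h1 : ∀ r : ℝ, Real.exp (-(r ^ 2 * b ^ 2 / 2)) = Real.exp (-(b ^ 2 / 2) * r ^ 2) := by
    intro r
    congr 1
    ring
  simp only [h1]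
  rw [integral_gaussian_Ioi]
  have h2 : Real.pi / (b ^ 2 / 2) = (2 / b) ^ 2 * (Real.pi / 2) := by
    field_simp
  rw [h2, Real.sqrt_mul (by positivity), Real.sqrt_sq (by positivity)]
  field_simp

theorem main {φ : P2 → ℂ} (hi : Integrable φ) (c : P2 → ℝ) (hc : Measurable c)
    (hcn : ∀ ξ, |c ξ| ≤ nm ξ) (x : P2) (Bf : ℝ → ℝ)
    (hB : ∀ r, 0 < r → (Bf r : ℂ) = ∫ ξ : P2,
      φ ξ * cexp (I * ((x.1 * ξ.1 + x.2 * ξ.2 : ℝ) : ℂ)) *
        (I * ((r * c ξ : ℝ) : ℂ) * ((Real.exp (-(r ^ 2 * nm ξ ^ 2 / 2)) : ℝ) : ℂ))) :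
    IntegrableOn (fun r : ℝ => Bf r / r) (Ioi 0) ∧
    ∫ ξ : P2, I * ((c ξ / nm ξ : ℝ) : ℂ) * φ ξ *
      cexp (I * ((x.1 * ξ.1 + x.2 * ξ.2 : ℝ) : ℂ)) =
      ((√(2 / Real.pi) * ∫ r in Ioi (0 : ℝ), Bf r / r : ℝ) : ℂ) := by
  set E : P2 → ℂ := fun ξ => cexp (I * ((x.1 * ξ.1 + x.2 * ξ.2 : ℝ) : ℂ)) with hE
  have hEc : Continuous E := by
    rw [hE]
    fun_prop
  have hEn : ∀ ξ, ‖E ξ‖ = 1 := fun ξ => norm_cexp _
  set K : P2 × ℝ → ℂ := fun p => φ p.1 * E p.1 *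
    (I * ((c p.1 : ℝ) : ℂ) * ((Real.exp (-(p.2 ^ 2 * nm p.1 ^ 2 / 2)) : ℝ) : ℂ)) with hK
  have hnmm : Measurable nm := continuous_nm.measurable
  have hKm : AEStronglyMeasurable K
      ((volume : Measure P2).prod ((volume : Measure ℝ).restrict (Ioi 0))) := by
    have h1 : AEStronglyMeasurable (fun p : P2 × ℝ => φ p.1)
        ((volume : Measure P2).prod ((volume : Measure ℝ).restrict (Ioi 0))) :=
      hi.aestronglyMeasurable.comp_fst
    have h2 : Measurable fun p : P2 × ℝ => E p.1 *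
        (I * ((c p.1 : ℝ) : ℂ) * ((Real.exp (-(p.2 ^ 2 * nm p.1 ^ 2 / 2)) : ℝ) : ℂ)) := by
      have h3 := hEc.measurable
      fun_prop
    have h3 := h1.mul h2.aestronglyMeasurable
    refine h3.congr (Filter.Eventually.of_forall fun p => ?_)
    simp only [hK, Pi.mul_apply]
    ring
  have hKn : ∀ ξ r, ‖K (ξ, r)‖ = ‖φ ξ‖ * |c ξ| * Real.exp (-(r ^ 2 * nm ξ ^ 2 / 2)) := by
    intro ξ r
    simp only [hK]
    rw [norm_mul, norm_mul, norm_mul, norm_mul, hEn, Complex.norm_I, Complex.norm_real,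
      Complex.norm_real, Real.norm_eq_abs, Real.norm_eq_abs, Real.abs_exp]
    ring
  have hc0 : ∀ ξ, nm ξ = 0 → c ξ = 0 := by
    intro ξ h
    have := hcn ξ
    rw [h] at this
    exact abs_eq_zero.1 (le_antisymm this (abs_nonneg _))
  have hexpi : ∀ ξ, nm ξ ≠ 0 → IntegrableOn
      (fun r : ℝ => Real.exp (-(r ^ 2 * nm ξ ^ 2 / 2))) (Ioi 0) := by
    intro ξ h
    have h1 : 0 < nm ξ ^ 2 / 2 := by positivity
    have h2 := (integrable_exp_neg_mul_sq h1).integrableOn (s := Ioi (0 : ℝ))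
    refine h2.congr_fun (fun r _ => ?_) measurableSet_Ioi
    simp only
    congr 1
    ring
  have hKi : Integrable K
      ((volume : Measure P2).prod ((volume : Measure ℝ).restrict (Ioi 0))) := by
    rw [integrable_prod_iff hKm]
    constructor
    · refine Filter.Eventually.of_forall fun ξ => ?_
      by_cases h : nm ξ = 0
      · have h1 : (fun r => K (ξ, r)) = fun _ => 0 := by
          funext r
          simp only [hK]
          rw [hc0 ξ h]
          simp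
        rw [h1]
        exact integrable_zero _ _ _
      · have h1 := ((hexpi ξ h).ofReal (𝕜 := ℂ)).const_mul (φ ξ * E ξ * (I * ((c ξ : ℝ) : ℂ)))
        refine h1.congr (Filter.Eventually.of_forall fun r => ?_)
        simp only [hK]
        change _ * ((Real.exp (-(r ^ 2 * nm ξ ^ 2 / 2)) : ℝ) : ℂ) = _
        ring
    · have h1 := hKm.norm.integral_prod_right'
      refine Integrable.mono' (hi.norm.const_mul √(Real.pi / 2)) h1 ?_
      refine Filter.Eventually.of_forall fun ξ => ?_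
      simp only [hKn]
      rw [integral_const_mul]
      by_cases h : nm ξ = 0
      · rw [hc0 ξ h, abs_zero, mul_zero, zero_mul, norm_zero]
        positivity
      · have hpos : 0 < nm ξ := lt_of_le_of_ne (nm_nonneg ξ) (Ne.symm h)
        rw [gint hpos, Real.norm_of_nonneg (by positivity)]
        have h2 : |c ξ| / nm ξ ≤ 1 := by
          rw [div_le_one hpos]
          exact hcn ξ
        calc ‖φ ξ‖ * |c ξ| * (√(Real.pi / 2) / nm ξ)
            = √(Real.pi / 2) * ‖φ ξ‖ * (|c ξ| / nm ξ) := by ring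
          _ ≤ √(Real.pi / 2) * ‖φ ξ‖ * 1 := mul_le_mul_of_nonneg_left h2 (by positivity)
          _ = √(Real.pi / 2) * ‖φ ξ‖ := mul_one _
  have hBK : ∀ r ∈ Ioi (0 : ℝ), ((Bf r / r : ℝ) : ℂ) = ∫ ξ, K (ξ, r) := by
    intro r hr
    have hr0 : (0 : ℝ) < r := hr
    have hrc : ((r : ℝ) : ℂ) ≠ 0 := by exact_mod_cast hr0.ne'
    rw [ofReal_div, hB r hr0, div_eq_iff hrc, ← integral_mul_const]
    refine integral_congr_ae (Filter.Eventually.of_forall fun ξ => ?_)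
    simp only [hK, hE]
    push_cast
    ring
  have hI1 : IntegrableOn (fun r : ℝ => ((Bf r / r : ℝ) : ℂ)) (Ioi 0) := by
    have h1 : IntegrableOn (fun r : ℝ => ∫ ξ, K (ξ, r)) (Ioi 0) := hKi.integral_prod_right
    exact h1.congr_fun (fun r hr => (hBK r hr).symm) measurableSet_Ioi
  constructor
  · have h1 := hI1.re
    exact h1
  · have h1 : ((∫ r in Ioi (0 : ℝ), Bf r / r : ℝ) : ℂ) = ∫ r in Ioi (0 : ℝ), ∫ ξ, K (ξ, r) := by
      rw [← integral_complex_ofReal]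
      exact setIntegral_congr_fun measurableSet_Ioi hBK
    have h2 : ∫ r in Ioi (0 : ℝ), ∫ ξ, K (ξ, r) = ∫ ξ, ∫ r in Ioi (0 : ℝ), K (ξ, r) :=
      (integral_integral_swap (f := fun ξ r => K (ξ, r)) hKi).symm
    rw [ofReal_mul, h1, h2, ← integral_const_mul]
    refine integral_congr_ae (Filter.Eventually.of_forall fun ξ => ?_)
    simp only
    by_cases h : nm ξ = 0
    · have h3 : ∀ r, K (ξ, r) = 0 := by
        intro r
        simp only [hK]
        rw [hc0 ξ h]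
        simp
      simp only [h3]
      rw [hc0 ξ h]
      simp
    · have hpos : 0 < nm ξ := lt_of_le_of_ne (nm_nonneg ξ) (Ne.symm h)
      have h3 : ∫ r in Ioi (0 : ℝ), K (ξ, r) =
          φ ξ * E ξ * (I * ((c ξ : ℝ) : ℂ)) * ((√(Real.pi / 2) / nm ξ : ℝ) : ℂ) := by
        rw [← gint hpos, ← integral_complex_ofReal, ← integral_const_mul]
        refine integral_congr_ae (Filter.Eventually.of_forall fun r => ?_)
        simp only [hK]
        change _ = _ * ((Real.exp (-(r ^ 2 * nm ξ ^ 2 / 2)) : ℝ) : ℂ)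
        ring
      rw [h3]
      have h4 : √(2 / Real.pi) * √(Real.pi / 2) = 1 := by
        rw [← Real.sqrt_mul (by positivity)]
        have : 2 / Real.pi * (Real.pi / 2) = 1 := by
          have := Real.pi_pos
          field_simp
        rw [this, Real.sqrt_one]
      have h5 : ((√(2 / Real.pi) : ℝ) : ℂ) * ((√(Real.pi / 2) : ℝ) : ℂ) = 1 := by
        rw [← ofReal_mul, h4, ofReal_one]
      change I * ((c ξ / nm ξ : ℝ) : ℂ) * φ ξ * E ξ = _
      rw [ofReal_div, ofReal_div]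
      calc I * ((c ξ : ℂ) / (nm ξ : ℂ)) * φ ξ * E ξ
          = (((√(2 / Real.pi) : ℝ) : ℂ) * ((√(Real.pi / 2) : ℝ) : ℂ)) *
            (I * ((c ξ : ℂ) / (nm ξ : ℂ)) * φ ξ * E ξ) := by rw [h5, one_mul]
        _ = _ := by ring

end GBAux

theorem gb : Stmt_GB := by
  intro f φ hf x
  have hφ : Integrable φ := by
    have h1 := hf.int 0
    simp only [pow_zero, one_mul] at h1
    exact (integrable_norm_iff hf.meas).1 h1
  have key : ∀ (c : P2 → ℝ), Integrable c gm → ∀ r : ℝ,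
      ((∫ z : P2, c z * f (x.1 + r * z.1, x.2 + r * z.2) ∂gm : ℝ) : ℂ) =
      ∫ ξ : P2, φ ξ * cexp (I * ((x.1 * ξ.1 + x.2 * ξ.2 : ℝ) : ℂ)) *
        ∫ z : P2, (c z : ℂ) * cexp (I * ((r * (z.1 * ξ.1 + z.2 * ξ.2) : ℝ) : ℂ)) ∂gm := by
    intro c hc r
    rw [← GBAux.fub hφ c hc r x, ← integral_complex_ofReal]
    refine integral_congr_ae (Filter.Eventually.of_forall fun z => ?_)
    simp only
    rw [ofReal_mul, hf.rep]
  obtain ⟨h1, h2⟩ := GBAux.main hφ (fun ξ => ξ.2) measurable_snd GBAux.abs_snd_le x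
    (fun r => B2 r f x) (by
      intro r _
      simp only [B2]
      rw [key (fun z => z.2) GBAux.integrable_snd r]
      simp only [GBAux.mom2])
  obtain ⟨h3, h4⟩ := GBAux.main hφ (fun ξ => ξ.1) measurable_fst GBAux.abs_fst_le x
    (fun r => B1 r f x) (by
      intro r _
      simp only [B1]
      rw [key (fun z => z.1) GBAux.integrable_fst r]
      simp only [GBAux.mom1])
  refine ⟨h1, h3, ?_, ?_⟩
  · rw [← h2]
    rfl
  · rw [ofReal_neg, ← h4, ← integral_neg]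
    refine integral_congr_ae (Filter.Eventually.of_forall fun ξ => ?_)
    simp only [V2]
    ring

end Pool.Agent.SQG
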