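import Pool.Agent.SQG.Stmts6

/-!
# From the anisotropic modulus to an isotropic one (`IS5`)
-/

set_option autoImplicit false

namespace Pool.Agent.SQG

open Set

namespace IS5Aux

/-- The modulus in the cone `|h₁| ≤ |h₂|`. -/
theorem o3_le {η n ε β β' L : ℝ} {m : ℕ} (hβ : 0 < β) (hβ' : 0 < β') (hη : 0 ≤ η) (hn : 0 ≤ n)
    (hε : 0 ≤ ε) (hm : 1 ≤ m) {h : P2} (h0 : 0 < |h.2|) (h1 : |h.1| ≤ |h.2|) (hL : |h.2| ≤ L) :
    O3 η n ε β β' m h ≤ (η + 2 * ε) * L ^ β + n * L ^ β' := by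
  unfold O3
  have h2 : max (|h.1| - |h.2|) 0 = 0 := max_eq_right (by linarith)
  have h3 : (0 : ℝ) ^ (2 * m) = 0 := zero_pow (by omega)
  rw [h2, h3]
  have h4 : |h.2| ^ β ≤ L ^ β := Real.rpow_le_rpow h0.le hL hβ.le
  have h5 : |h.2| ^ β' ≤ L ^ β' := Real.rpow_le_rpow h0.le hL hβ'.le
  have h6 : h.1 ^ 2 * |h.2| ^ (β - 2) ≤ |h.2| ^ β := by
    have h7 : h.1 ^ 2 ≤ |h.2| ^ 2 := by
      rw [← sq_abs h.1]
      exact pow_le_pow_left₀ (abs_nonneg _) h1 2
    calc h.1 ^ 2 * |h.2| ^ (β - 2) ≤ |h.2| ^ 2 * |h.2| ^ (β - 2) :=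
          mul_le_mul_of_nonneg_right h7 (Real.rpow_nonneg h0.le _)
      _ = |h.2| ^ β := by
          rw [← Real.rpow_natCast, ← Real.rpow_add h0]
          congr 1
          push_cast
          ring
  have h8 : η * |h.2| ^ β ≤ η * L ^ β := mul_le_mul_of_nonneg_left h4 hη
  have h9 : n * |h.2| ^ β' ≤ n * L ^ β' := mul_le_mul_of_nonneg_left h5 hn
  have h10 : 2 * ε * h.1 ^ 2 * |h.2| ^ (β - 2) ≤ 2 * ε * L ^ β := by
    rw [mul_assoc]
    exact mul_le_mul_of_nonneg_left (h6.trans h4) (by linarith)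
  linarith

/-- The modulus on the axis. -/
theorem o3_axis {η n ε β β' c : ℝ} {m : ℕ} (hm : 1 ≤ m) (hc : 0 < c) :
    O3 η n ε β β' m (0, c) = η * c ^ β + n * c ^ β' := by
  unfold O3
  have h2 : max (|(0 : ℝ)| - |c|) 0 = 0 := max_eq_right (by rw [abs_zero, abs_of_pos hc]; linarith)
  have h3 : (0 : ℝ) ^ (2 * m) = 0 := zero_pow (by omega)
  show η * |c| ^ β + n * |c| ^ β' + 2 * ε * (0 : ℝ) ^ 2 * |c| ^ (β - 2) +
    η * (max (|(0 : ℝ)| - |c|) 0) ^ (2 * m) * |c| ^ (β - 2 * m) = _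
  rw [h2, h3, abs_of_pos hc]
  ring

theorem two_rpow {L β : ℝ} (hL : 0 ≤ L) (hβ : β < 1) : (2 * L) ^ β ≤ 2 * L ^ β := by
  rw [Real.mul_rpow (by norm_num) hL]
  have h1 : (2 : ℝ) ^ β ≤ 2 ^ (1 : ℝ) := Real.rpow_le_rpow_of_exponent_le (by norm_num) hβ.le
  rw [Real.rpow_one] at h1
  exact mul_le_mul_of_nonneg_right h1 (Real.rpow_nonneg hL _)

end IS5Aux

open IS5Aux in
theorem is5 : Stmt_IS5 := by
  intro f M₀ η n ε β β' m hβ hβ1 hβ' hβ1' hη hn hε hm hM hf x y
  have hM0 : 0 ≤ M₀ := (abs_nonneg _).trans (hM x)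
  set L : ℝ := nm (x - y) with hLdef
  have hL0 : 0 ≤ L := Real.sqrt_nonneg _
  have hLβ : 0 ≤ L ^ β := Real.rpow_nonneg hL0 _
  have hLβ' : 0 ≤ L ^ β' := Real.rpow_nonneg hL0 _
  have hab1 : |(x - y).1| ≤ L := by
    rw [hLdef, nm, ← Real.sqrt_sq_eq_abs]
    exact Real.sqrt_le_sqrt (by nlinarith [sq_nonneg (x - y).2])
  have hab2 : |(x - y).2| ≤ L := by
    rw [hLdef, nm, ← Real.sqrt_sq_eq_abs]
    exact Real.sqrt_le_sqrt (by nlinarith [sq_nonneg (x - y).1])
  have p1 : 0 ≤ η * L ^ β := mul_nonneg hη hLβ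
  have p2 : 0 ≤ ε * L ^ β := mul_nonneg hε hLβ
  have p3 : 0 ≤ n * L ^ β' := mul_nonneg hn hLβ'
  have p4 : 0 ≤ M₀ * L ^ β' := mul_nonneg hM0 hLβ'
  rcases le_or_gt (1 / 2) L with hbig | hsmall
  · have h1 : (1 / 2 : ℝ) ≤ L ^ β' := by
      calc (1 / 2 : ℝ) = (1 / 2 : ℝ) ^ (1 : ℝ) := (Real.rpow_one _).symm
        _ ≤ (1 / 2 : ℝ) ^ β' :=
            Real.rpow_le_rpow_of_exponent_ge (by norm_num) (by norm_num) hβ1'.le
        _ ≤ L ^ β' := Real.rpow_le_rpow (by norm_num) hbig hβ'.le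
    have h2 : |f x - f y| ≤ 2 * M₀ := by
      have h3 := abs_sub (f x) (f y)
      have h4 := hM x
      have h5 := hM y
      linarith
    have h6 : M₀ * (1 / 2) ≤ M₀ * L ^ β' := mul_le_mul_of_nonneg_left h1 hM0
    nlinarith
  · rcases le_or_gt |(x - y).1| |(x - y).2| with hc | hc
    · rcases eq_or_ne (x - y).2 0 with h0 | h0
      · have h1 : (x - y).1 = 0 := by
          rw [h0, abs_zero] at hc
          exact abs_eq_zero.1 (le_antisymm hc (abs_nonneg _))
        have h2 : x - y = 0 := Prod.ext h1 h0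
        have h3 : x = y := sub_eq_zero.1 h2
        rw [h3, sub_self, abs_zero]
        nlinarith
      · have h1 : 0 < |(x - y).2| := abs_pos.2 h0
        have h2 : x - y ∈ Rq := ⟨h1, by linarith, by linarith⟩
        have h3 := hf y (x - y) h2
        rw [add_sub_cancel] at h3
        have h4 := o3_le (m := m) hβ hβ' hη hn hε hm h1 hc hab2
        nlinarith
    · set a : ℝ := |(x - y).1| with ha
      have ha0 : 0 < a := lt_of_le_of_lt (abs_nonneg _) hc
      set c : ℝ := a - (x - y).2 with hcdef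
      have hc1 : -a < (x - y).2 ∧ (x - y).2 < a := abs_lt.1 hc
      have hcpos : 0 < c := by
        rw [hcdef]
        linarith [hc1.2]
      have hc2 : c ≤ 2 * L := by
        rw [hcdef]
        linarith [hc1.1]
      have h1 : ((x - y).1, a) ∈ Rq := by
        refine ⟨?_, ?_, ?_⟩
        · show 0 < |a|
          rw [abs_of_pos ha0]
          exact ha0
        · show |a| ≤ 1
          rw [abs_of_pos ha0]
          linarith
        · show |(x - y).1| ≤ 1
          linarith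
      have h2 : ((0 : ℝ), c) ∈ Rq := by
        refine ⟨?_, ?_, ?_⟩
        · show 0 < |c|
          rw [abs_of_pos hcpos]
          exact hcpos
        · show |c| ≤ 1
          rw [abs_of_pos hcpos]
          linarith
        · show |(0 : ℝ)| ≤ 1
          rw [abs_zero]
          norm_num
      have h3 := hf y _ h1
      have h4 := hf x _ h2
      have h5 : y + ((x - y).1, a) = x + (0, c) := by
        apply Prod.ext
        · simp
        · simp only [Prod.snd_add, hcdef, Prod.snd_sub]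
          ring
      rw [h5] at h3
      have h6 : O3 η n ε β β' m ((x - y).1, a) ≤ (η + 2 * ε) * L ^ β + n * L ^ β' := by
        apply o3_le hβ hβ' hη hn hε hm
        · show 0 < |a|
          rw [abs_of_pos ha0]
          exact ha0
        · show |(x - y).1| ≤ |a|
          rw [abs_of_pos ha0]
        · show |a| ≤ L
          rw [abs_of_pos ha0]
          exact hab1
      rw [o3_axis hm hcpos] at h4
      have h7 : c ^ β ≤ 2 * L ^ β :=
        (Real.rpow_le_rpow hcpos.le hc2 hβ.le).trans (two_rpow hL0 hβ1)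
      have h8 : c ^ β' ≤ 2 * L ^ β' :=
        (Real.rpow_le_rpow hcpos.le hc2 hβ'.le).trans (two_rpow hL0 hβ1')
      have h9 : η * c ^ β ≤ η * (2 * L ^ β) := mul_le_mul_of_nonneg_left h7 hη
      have h10 : n * c ^ β' ≤ n * (2 * L ^ β') := mul_le_mul_of_nonneg_left h8 hn
      have h11 : |f x - f y| ≤ |f (x + (0, c)) - f y| + |f (x + (0, c)) - f x| := by
        have h12 : f x - f y = (f (x + (0, c)) - f y) - (f (x + (0, c)) - f x) := by ring
        rw [h12]
        exact abs_sub _ _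
      nlinarith

end Pool.Agent.SQG
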