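import Pool.Agent.SQG.Stmts

/-!
# Lower bound for the dissipation at a maximum
-/

set_option autoImplicit false

namespace Pool.Agent.SQG

open Complex MeasureTheory Set Filter Topology ProbabilityTheory

namespace LBAux

instance gm_prob : IsProbabilityMeasure gm := by
  unfold gm
  infer_instance

lemma av_int {f : P2 → ℝ} (hc : Continuous f) {B : ℝ} (hB : ∀ x, |f x| ≤ B) (r : ℝ) (x : P2) :
    Integrable (fun z : P2 => f (x.1 + r * z.1, x.2 + r * z.2)) gm := by
  have h1 : Continuous fun z : P2 => f (x.1 + r * z.1, x.2 + r * z.2) := by fun_prop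
  exact Integrable.of_bound h1.aestronglyMeasurable B
    (Filter.Eventually.of_forall fun z => by rw [Real.norm_eq_abs]; exact hB _)

/-- The average of a function with increments at most `Ω` has increments at most `Ω`. -/
lemma av_le {f : P2 → ℝ} (hc : Continuous f) {B : ℝ} (hB : ∀ x, |f x| ≤ B) (r : ℝ) (x y : P2)
    (Ω : ℝ) (h : ∀ z : P2, f (y.1 + r * z.1, y.2 + r * z.2) - f (x.1 + r * z.1, x.2 + r * z.2) ≤ Ω) :
    Av r f y - Av r f x ≤ Ω := by
  unfold Av
  rw [← integral_sub (av_int hc hB r y) (av_int hc hB r x)]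
  calc ∫ z : P2, (f (y.1 + r * z.1, y.2 + r * z.2) - f (x.1 + r * z.1, x.2 + r * z.2)) ∂gm
      ≤ ∫ _ : P2, Ω ∂gm :=
        integral_mono ((av_int hc hB r y).sub (av_int hc hB r x)) (integrable_const _) h
    _ = Ω := by simp

end LBAux

open LBAux

theorem lb (hD : Stmt_DER) (hGA : Stmt_GA) (hEB : Stmt_EB) : Stmt_LB := by
  intro α δ hα hα2 hδ hδ1
  obtain ⟨C, hC, hEB⟩ := hEB δ hδ hδ1
  obtain ⟨hcL, hGA⟩ := hGA α hα hα2
  refine ⟨cL α / (4 * α) * (1 / (2 * C)) ^ (2 * α / (1 - δ)), by positivity, ?_⟩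
  intro f φ M₁ δ₁ M₂ hf h1 hM₂ h2 x h Y hh2 hY hΩ hmax
  obtain ⟨hc, ⟨B, hB⟩, -⟩ := hD f φ hf
  obtain ⟨hi1, he1⟩ := hGA f φ hf (x + h)
  obtain ⟨hi2, he2⟩ := hGA f φ hf x
  have hh : 0 < |h.2| := abs_pos.mpr hh2
  set Ω : ℝ := f (x + h) - f x with hΩdef
  -- the right hand side
  have hR : (IF (LL α φ) (x + h) - IF (LL α φ) x).re =
      cL α * ∫ r in Ioi (0 : ℝ), (Ω - (Av r f (x + h) - Av r f x)) * r ^ (-1 - 2 * α) := by
    rw [he1, he2, ← Complex.ofReal_sub, Complex.ofReal_re, ← mul_sub, ← integral_sub hi1 hi2]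
    congr 1
    refine integral_congr_ae (Filter.Eventually.of_forall fun r => ?_)
    simp only [hΩdef]
    ring
  have hint : IntegrableOn (fun r : ℝ => (Ω - (Av r f (x + h) - Av r f x)) * r ^ (-1 - 2 * α))
      (Ioi 0) := by
    refine (hi1.sub hi2).congr (Filter.Eventually.of_forall fun r => ?_)
    simp only [hΩdef, Pi.sub_apply]
    ring
  -- nonnegativity
  have hnn : ∀ r : ℝ, 0 ≤ Ω - (Av r f (x + h) - Av r f x) := by
    intro r
    have h3 : Av r f (x + h) - Av r f x ≤ Ω := by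
      refine av_le hc hB r x (x + h) Ω fun z => ?_
      have h4 := hmax (x.1 + r * z.1, x.2 + r * z.2)
      have h5 : ((x + h).1 + r * z.1, (x + h).2 + r * z.2) =
          ((x.1 + r * z.1, x.2 + r * z.2) : P2) + h := by
        apply Prod.ext
        · simp only [Prod.fst_add]; ring
        · simp only [Prod.snd_add]; ring
      rw [h5]
      exact h4
    linarith
  -- the lower bound for large `r`
  have hlow : ∀ r : ℝ, 0 < r → Y - C * M₂ * |h.2| * r ^ (δ - 1) ≤
      Ω - (Av r f (x + h) - Av r f x) := by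
    intro r hr
    have h3 : Av r f (x + h) - Av r f (x.1, x.2 + h.2) ≤ M₁ * |h.1| ^ δ₁ := by
      refine av_le hc hB r (x.1, x.2 + h.2) (x + h) _ fun z => ?_
      have h4 := h1 (x.1 + r * z.1, x.2 + h.2 + r * z.2) h.1
      have h5 : (((x + h).1 + r * z.1, (x + h).2 + r * z.2) : P2) =
          (x.1 + r * z.1 + h.1, x.2 + h.2 + r * z.2) := by
        apply Prod.ext
        · simp only [Prod.fst_add]; ring
        · simp only [Prod.snd_add]
      rw [h5]
      exact (le_abs_self _).trans h4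
    have h6 := (le_abs_self _).trans ((((hEB f φ M₂ hf hM₂.le).2 h2 r hr x h).2.2) h.2)
    linarith
  set ρ : ℝ := (2 * C * M₂ * |h.2| / Y) ^ (1 / (1 - δ)) with hρ
  have hq : 0 < 2 * C * M₂ * |h.2| / Y := by positivity
  have hρ0 : 0 < ρ := Real.rpow_pos_of_pos hq _
  have hδ' : 0 < 1 - δ := by linarith
  have hρ1 : ρ ^ (δ - 1) = Y / (2 * C * M₂ * |h.2|) := by
    rw [hρ, ← Real.rpow_mul hq.le]
    have h3 : 1 / (1 - δ) * (δ - 1) = -1 := by
      field_simp
      ring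
    rw [h3, Real.rpow_neg_one, inv_div]
  have hhalf : ∀ r ∈ Ioi ρ, Y / 2 ≤ Ω - (Av r f (x + h) - Av r f x) := by
    intro r hr
    have hr0 : 0 < r := hρ0.trans hr
    have h3 : r ^ (δ - 1) ≤ ρ ^ (δ - 1) :=
      Real.rpow_le_rpow_of_nonpos hρ0 (le_of_lt hr) (by linarith)
    have h4 : C * M₂ * |h.2| * r ^ (δ - 1) ≤ C * M₂ * |h.2| * (Y / (2 * C * M₂ * |h.2|)) := by
      rw [← hρ1]
      exact mul_le_mul_of_nonneg_left h3 (by positivity)
    have h5 : C * M₂ * |h.2| * (Y / (2 * C * M₂ * |h.2|)) = Y / 2 := by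
      field_simp
    have h6 := hlow r hr0
    linarith
  have hsub : Ioi ρ ⊆ Ioi (0 : ℝ) := Ioi_subset_Ioi hρ0.le
  have hI : Y / 2 * (ρ ^ (-(2 * α)) / (2 * α)) ≤
      ∫ r in Ioi (0 : ℝ), (Ω - (Av r f (x + h) - Av r f x)) * r ^ (-1 - 2 * α) := by
    have h3 : ∫ r in Ioi ρ, Y / 2 * r ^ (-1 - 2 * α) = Y / 2 * (ρ ^ (-(2 * α)) / (2 * α)) := by
      rw [integral_const_mul, integral_Ioi_rpow_of_lt (by linarith) hρ0]
      congr 1
      have h4 : (-1 - 2 * α + 1 : ℝ) = -(2 * α) := by ring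
      rw [h4, neg_div_neg_eq]
    rw [← h3]
    calc ∫ r in Ioi ρ, Y / 2 * r ^ (-1 - 2 * α)
        ≤ ∫ r in Ioi ρ, (Ω - (Av r f (x + h) - Av r f x)) * r ^ (-1 - 2 * α) := by
          refine setIntegral_mono_on ?_ (hint.mono_set hsub) measurableSet_Ioi fun r hr => ?_
          · exact (integrableOn_Ioi_rpow_of_lt (by linarith) hρ0).const_mul _
          · exact mul_le_mul_of_nonneg_right (hhalf r hr)
              (Real.rpow_nonneg (hρ0.trans hr).le _)
      _ ≤ _ := by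
          refine setIntegral_mono_set hint ?_ hsub.eventuallyLE
          refine (ae_restrict_iff' measurableSet_Ioi).mpr
            (Filter.Eventually.of_forall fun r hr => ?_)
          exact mul_nonneg (hnn r) (Real.rpow_nonneg (le_of_lt hr) _)
  rw [hR]
  have hρ2 : ρ ^ (-(2 * α)) =
      (1 / (2 * C)) ^ (2 * α / (1 - δ)) * (Y / (M₂ * |h.2|)) ^ (2 * α / (1 - δ)) := by
    rw [← Real.mul_rpow (by positivity) (by positivity), hρ, ← Real.rpow_mul hq.le]
    have h3 : 1 / (1 - δ) * -(2 * α) = -(2 * α / (1 - δ)) := by ring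
    have h4 : 1 / (2 * C) * (Y / (M₂ * |h.2|)) = (2 * C * M₂ * |h.2| / Y)⁻¹ := by
      rw [inv_div]
      field_simp
    rw [h3, h4, Real.rpow_neg hq.le, Real.inv_rpow hq.le]
  rw [hρ2] at hI
  have h7 := mul_le_mul_of_nonneg_left hI hcL.le
  refine le_trans (le_of_eq ?_) h7
  field_simp
  ring

end Pool.Agent.SQG
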