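import Pool.Agent.SQG.Stmts2
import Pool.Agent.SQG.Lb

/-!
# The dissipation is nonnegative at a maximum (module LB0)
-/

set_option autoImplicit false

namespace Pool.Agent.SQG

open Complex MeasureTheory Set Filter Topology ProbabilityTheory

open LBAux in
theorem lb0 (hGA : Stmt_GA) (hD : Stmt_DER) : Stmt_LB0 := by
  intro α hα hα2 f φ hf x h hmax
  obtain ⟨hcL, hGA⟩ := hGA α hα hα2
  obtain ⟨hc, ⟨B, hB⟩, -⟩ := hD f φ hf
  obtain ⟨hi1, he1⟩ := hGA f φ hf (x + h)
  obtain ⟨hi2, he2⟩ := hGA f φ hf x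
  have hnn : ∀ r : ℝ, 0 ≤ f (x + h) - f x - (Av r f (x + h) - Av r f x) := by
    intro r
    have h3 : Av r f (x + h) - Av r f x ≤ f (x + h) - f x := by
      refine av_le hc hB r x (x + h) (f (x + h) - f x) fun z => ?_
      have h4 := hmax (x.1 + r * z.1, x.2 + r * z.2)
      have h5 : ((x + h).1 + r * z.1, (x + h).2 + r * z.2) =
          ((x.1 + r * z.1, x.2 + r * z.2) : P2) + h := by
        apply Prod.ext
        · simp only [Prod.fst_add]; ring
        · simp only [Prod.snd_add]; ring
      rw [h5]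
      exact h4
    linarith
  have hR : (IF (LL α φ) (x + h) - IF (LL α φ) x).re =
      cL α * ∫ r in Ioi (0 : ℝ),
        (f (x + h) - f x - (Av r f (x + h) - Av r f x)) * r ^ (-1 - 2 * α) := by
    rw [he1, he2, ← Complex.ofReal_sub, Complex.ofReal_re, ← mul_sub, ← integral_sub hi1 hi2]
    congr 1
    refine integral_congr_ae (Filter.Eventually.of_forall fun r => ?_)
    simp only
    ring
  rw [hR]
  refine mul_nonneg hcL.le (setIntegral_nonneg measurableSet_Ioi fun r hr => ?_)
  exact mul_nonneg (hnn r) (Real.rpow_nonneg (le_of_lt hr) _)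

end Pool.Agent.SQG
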