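import Pool.Agent.SQG.Stmts

/-!
# Module MAI: the iteration
-/

set_option autoImplicit false

namespace Pool.Agent.SQG

open Complex MeasureTheory Set Filter Topology ProbabilityTheory

namespace MAIAux

theorem h1_lower {f : P2 → ℝ} {M M₀ M₁ δ δ' : ℝ} (hf : H1 f M δ) (hb : ∀ x, |f x| ≤ M₀)
    (hδ' : 0 < δ') (hle : δ' ≤ δ) (h0 : 0 ≤ M₁) (h1 : M ≤ M₁) (h2 : 2 * M₀ ≤ M₁) :
    H1 f M₁ δ' := by
  intro x a
  rcases le_total |a| 1 with ha | ha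
  · refine (hf x a).trans ?_
    calc M * |a| ^ δ ≤ M₁ * |a| ^ δ :=
          mul_le_mul_of_nonneg_right h1 (Real.rpow_nonneg (abs_nonneg a) _)
      _ ≤ M₁ * |a| ^ δ' := mul_le_mul_of_nonneg_left
          (Real.rpow_le_rpow_of_exponent_ge' (abs_nonneg a) ha hδ'.le hle) h0
  · have h3 : |f (x.1 + a, x.2) - f x| ≤ 2 * M₀ := by
      refine (abs_sub _ _).trans ?_
      have := hb (x.1 + a, x.2)
      have := hb x
      linarith
    have h4 : (1 : ℝ) ≤ |a| ^ δ' := Real.one_le_rpow ha hδ'.le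
    calc |f (x.1 + a, x.2) - f x| ≤ M₁ * 1 := by linarith
      _ ≤ M₁ * |a| ^ δ' := mul_le_mul_of_nonneg_left h4 h0

theorem abs_fst_le (x : P2) : |x.1| ≤ nm x := by
  unfold nm
  exact Real.abs_le_sqrt (by nlinarith [sq_nonneg x.2])

theorem abs_snd_le (x : P2) : |x.2| ≤ nm x := by
  unfold nm
  exact Real.abs_le_sqrt (by nlinarith [sq_nonneg x.1])

theorem nm_nonneg (x : P2) : 0 ≤ nm x := Real.sqrt_nonneg _

theorem mono {M a d e β : ℝ} (ha : 0 ≤ a) (had : a ≤ d) (hd : d ≤ 1) (hβ : 0 < β) (he : β ≤ e) :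
    M * a ^ e ≤ |M| * d ^ β := by
  have hd0 : 0 ≤ d := ha.trans had
  calc M * a ^ e ≤ |M| * a ^ e := mul_le_mul_of_nonneg_right (le_abs_self M)
        (Real.rpow_nonneg ha _)
    _ ≤ |M| * d ^ β := mul_le_mul_of_nonneg_left
        ((Real.rpow_le_rpow ha had (hβ.le.trans he)).trans
          (Real.rpow_le_rpow_of_exponent_ge' hd0 hd hβ.le he)) (abs_nonneg M)

theorem holder {f : P2 → ℝ} {M₀ M₁ M₂ δ₁ δ₂ β : ℝ} (h1 : H1 f M₁ δ₁) (h2 : H2 f M₂ δ₂)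
    (hb : ∀ x, |f x| ≤ M₀) (hβ : 0 < β) (hβ1 : β ≤ δ₁) (hβ2 : β ≤ δ₂) (x y : P2) :
    |f x - f y| ≤ (|M₁| + |M₂| + 2 * |M₀|) * nm (x - y) ^ β := by
  have hn := nm_nonneg (x - y)
  have hp : 0 ≤ nm (x - y) ^ β := Real.rpow_nonneg hn _
  rcases le_total (nm (x - y)) 1 with hd | hd
  · have a1 : |f (x.1, y.2) - f y| ≤ M₁ * |x.1 - y.1| ^ δ₁ := by
      have h := h1 y (x.1 - y.1)
      rwa [add_sub_cancel] at h
    have a2 : |f x - f (x.1, y.2)| ≤ M₂ * |x.2 - y.2| ^ δ₂ := by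
      have h := h2 (x.1, y.2) (x.2 - y.2)
      simp only [add_sub_cancel] at h
      exact h
    have b1 : M₁ * |x.1 - y.1| ^ δ₁ ≤ |M₁| * nm (x - y) ^ β :=
      mono (abs_nonneg _) (abs_fst_le (x - y)) hd hβ hβ1
    have b2 : M₂ * |x.2 - y.2| ^ δ₂ ≤ |M₂| * nm (x - y) ^ β :=
      mono (abs_nonneg _) (abs_snd_le (x - y)) hd hβ hβ2
    have c : |f x - f y| ≤ |f x - f (x.1, y.2)| + |f (x.1, y.2) - f y| := abs_sub_le _ _ _
    have e : 0 ≤ 2 * |M₀| * nm (x - y) ^ β := by positivity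
    calc |f x - f y| ≤ |M₂| * nm (x - y) ^ β + |M₁| * nm (x - y) ^ β := by linarith
      _ ≤ (|M₁| + |M₂| + 2 * |M₀|) * nm (x - y) ^ β := by
        rw [add_mul, add_mul]
        linarith
  · have a1 : |f x - f y| ≤ 2 * |M₀| := by
      refine (abs_sub _ _).trans ?_
      have := (hb x).trans (le_abs_self M₀)
      have := (hb y).trans (le_abs_self M₀)
      linarith
    have a2 : (1 : ℝ) ≤ nm (x - y) ^ β := Real.one_le_rpow hd hβ.le
    calc |f x - f y| ≤ (|M₁| + |M₂| + 2 * |M₀|) * 1 := by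
          have := abs_nonneg M₁
          have := abs_nonneg M₂
          linarith
      _ ≤ (|M₁| + |M₂| + 2 * |M₀|) * nm (x - y) ^ β :=
          mul_le_mul_of_nonneg_left a2 (by positivity)

end MAIAux

open MAIAux in
/-- MAI: the iteration. -/
theorem mai (hS : Stmt_STP) : Stmt_MAI := by
  intro α κ T θ φ hα hα2 hκ hsol M₀ M δ hM₀ hδ hH
  obtain ⟨δ₁, hδ₁⟩ : ∃ δ₁ : ℝ, δ₁ = min δ (1 - α) := ⟨_, rfl⟩
  have hd1 : 1 - 2 * α < δ₁ := by
    rw [hδ₁]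
    exact lt_min hδ (by linarith)
  have hd2 : δ₁ < 1 := by
    rw [hδ₁]
    exact (min_le_right _ _).trans_lt (by linarith)
  have hd3 : δ₁ ≤ δ := by
    rw [hδ₁]
    exact min_le_left _ _
  have hd0 : 0 < δ₁ := by linarith
  obtain ⟨M₁, hM₁⟩ : ∃ M₁ : ℝ, M₁ = max (max M (2 * M₀)) 0 := ⟨_, rfl⟩
  have hH1 : ∀ t ∈ Ioo 0 T, H1 (θ t) M₁ δ₁ := by
    intro t ht
    refine h1_lower (hH t ht) (hM₀ t ht) hd0 hd3 ?_ ?_ ?_
    · rw [hM₁]; exact le_max_right _ _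
    · rw [hM₁]; exact (le_max_left _ _).trans (le_max_left _ _)
    · rw [hM₁]; exact (le_max_right _ _).trans (le_max_left _ _)
  -- the ratio
  obtain ⟨r, hr⟩ : ∃ r : ℝ, r = 1 / (δ₁ + 2 * α) := ⟨_, rfl⟩
  have hs : 1 < δ₁ + 2 * α := by linarith
  have hr0 : 0 < r := by
    rw [hr]
    positivity
  have hr1 : r < 1 := by
    rw [hr, div_lt_one (by linarith)]
    exact hs
  have hex : ∃ k : ℕ, r ^ k < 2 * α := exists_pow_lt_of_lt_one (by linarith) hr1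
  classical
  obtain ⟨K, hK⟩ : ∃ K : ℕ, K = Nat.find hex := ⟨_, rfl⟩
  have hKlt : r ^ K < 2 * α := by
    rw [hK]
    exact Nat.find_spec hex
  have hmin : ∀ k, k < K → 2 * α ≤ r ^ k := by
    intro k hk
    rw [hK] at hk
    exact not_lt.1 (Nat.find_min hex hk)
  -- the induction
  have hind : ∀ k : ℕ, k ≤ K → ∀ t₀ ∈ Ioo 0 T, ∃ M₂, ∀ t ∈ Ico t₀ T, H2 (θ t) M₂ (1 - r ^ k) := by
    intro k
    induction k with
    | zero =>
      intro _ t₀ ht₀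
      refine ⟨2 * M₀, fun t ht x a => ?_⟩
      rw [pow_zero, sub_self, Real.rpow_zero, mul_one]
      have ht' : t ∈ Ioo 0 T := ⟨lt_of_lt_of_le ht₀.1 ht.1, ht.2⟩
      refine (abs_sub _ _).trans ?_
      have := hM₀ t ht' (x.1, x.2 + a)
      have := hM₀ t ht' x
      linarith
    | succ k ih =>
      intro hk t₀ ht₀
      obtain ⟨M₂, hM₂⟩ := ih (by omega) t₀ ht₀
      have hk1 := hmin k (by omega)
      have hk2 : r ^ k ≤ 1 := pow_le_one₀ hr0.le hr1.le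
      obtain ⟨N, hN⟩ := hS α κ T θ φ hα hα2 hκ hsol M₀ M₁ δ₁ M₂ (1 - r ^ k) t₀ hM₀ hd1 hd2 hH1
        (by linarith) (by linarith) ht₀.1 ht₀.2 hM₂
      refine ⟨N, ?_⟩
      have e : 1 - (1 - (1 - r ^ k)) / (δ₁ + 2 * α) = 1 - r ^ (k + 1) := by
        rw [pow_succ, hr]
        ring
      rw [e] at hN
      exact hN
  have hβ1 : 1 - 2 * α < min δ₁ (1 - r ^ K) := lt_min hd1 (by linarith)
  refine ⟨min δ₁ (1 - r ^ K), hβ1, (min_le_left _ _).trans_lt hd2, ?_⟩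
  intro t₀ ht₀
  obtain ⟨M₂, hM₂⟩ := hind K le_rfl t₀ ht₀
  refine ⟨|M₁| + |M₂| + 2 * |M₀|, fun t ht x y => ?_⟩
  have ht' : t ∈ Ioo 0 T := ⟨lt_of_lt_of_le ht₀.1 ht.1, ht.2⟩
  exact holder (hH1 t ht') (hM₂ t ht) (hM₀ t ht') (by linarith) (min_le_left _ _)
    (min_le_right _ _) x y

end Pool.Agent.SQG
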