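import Pool.Agent.SQG.Stmts2
import Pool.Agent.SQG.Mai

/-!
# Module MA2: the a priori bound
-/

set_option autoImplicit false

namespace Pool.Agent.SQG

open Complex MeasureTheory Set Filter Topology ProbabilityTheory

namespace MA2Aux

theorem h1_interp {f : P2 → ℝ} {M M₀ d s : ℝ} (hf : H1 f M d) (hM : 0 ≤ M) (hb : ∀ x, |f x| ≤ M₀)
    (hs0 : 0 < s) (hs1 : s < 1) : H1 f (M ^ s * (2 * M₀) ^ (1 - s)) (s * d) := by
  intro x a
  have hM₀ : 0 ≤ M₀ := (abs_nonneg _).trans (hb x)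
  obtain ⟨D, hD⟩ : ∃ D : ℝ, D = |f (x.1 + a, x.2) - f x| := ⟨_, rfl⟩
  rw [← hD]
  have hD0 : 0 ≤ D := by
    rw [hD]
    exact abs_nonneg _
  have h1 : D ≤ M * |a| ^ d := by
    rw [hD]
    exact hf x a
  have h2 : D ≤ 2 * M₀ := by
    rw [hD]
    refine (abs_sub _ _).trans ?_
    have := hb (x.1 + a, x.2)
    have := hb x
    linarith
  have e : s + (1 - s) = 1 := by ring
  have hp : 0 ≤ |a| ^ d := Real.rpow_nonneg (abs_nonneg a) _
  calc D = D ^ s * D ^ (1 - s) := by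
        rw [← Real.rpow_add' hD0 (by rw [e]; exact one_ne_zero), e, Real.rpow_one]
    _ ≤ (M * |a| ^ d) ^ s * (2 * M₀) ^ (1 - s) :=
        mul_le_mul (Real.rpow_le_rpow hD0 h1 hs0.le) (Real.rpow_le_rpow hD0 h2 (by linarith))
          (Real.rpow_nonneg hD0 _) (Real.rpow_nonneg (mul_nonneg hM hp) _)
    _ = M ^ s * (2 * M₀) ^ (1 - s) * |a| ^ (s * d) := by
        rw [Real.mul_rpow hM hp, ← Real.rpow_mul (abs_nonneg a), mul_comm d s]
        ring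

/-- a bounded Lipschitz function is Hölder continuous -/
theorem lip_holder {f : P2 → ℝ} {L M₀ β : ℝ} (hL : 0 ≤ L)
    (h : ∀ x y : P2, |f x - f y| ≤ L * (|x.1 - y.1| + |x.2 - y.2|))
    (hb : ∀ x, |f x| ≤ M₀) (hβ : 0 < β) (hβ1 : β < 1) (x y : P2) :
    |f x - f y| ≤ (2 * L + 2 * M₀) * nm (x - y) ^ β := by
  have hM₀ : 0 ≤ M₀ := (abs_nonneg _).trans (hb x)
  have hn := MAIAux.nm_nonneg (x - y)
  have hp : 0 ≤ nm (x - y) ^ β := Real.rpow_nonneg hn _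
  rw [add_mul]
  rcases le_total (nm (x - y)) 1 with hd | hd
  · have h1 : |x.1 - y.1| ≤ nm (x - y) := MAIAux.abs_fst_le (x - y)
    have h2 : |x.2 - y.2| ≤ nm (x - y) := MAIAux.abs_snd_le (x - y)
    have h3 : nm (x - y) ≤ nm (x - y) ^ β := by
      have := Real.rpow_le_rpow_of_exponent_ge' hn hd hβ.le hβ1.le
      rwa [Real.rpow_one] at this
    have h4 : L * (|x.1 - y.1| + |x.2 - y.2|) ≤ L * (2 * nm (x - y) ^ β) :=
      mul_le_mul_of_nonneg_left (by linarith) hL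
    have h5 : 0 ≤ 2 * M₀ * nm (x - y) ^ β := by positivity
    calc |f x - f y| ≤ L * (|x.1 - y.1| + |x.2 - y.2|) := h x y
      _ ≤ L * (2 * nm (x - y) ^ β) := h4
      _ ≤ 2 * L * nm (x - y) ^ β + 2 * M₀ * nm (x - y) ^ β := by linarith
  · have h1 : |f x - f y| ≤ 2 * M₀ := by
      refine (abs_sub _ _).trans ?_
      have := hb x
      have := hb y
      linarith
    have h2 : (1 : ℝ) ≤ nm (x - y) ^ β := Real.one_le_rpow hd hβ.le
    have h3 : 2 * M₀ * 1 ≤ 2 * M₀ * nm (x - y) ^ β := mul_le_mul_of_nonneg_left h2 (by linarith)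
    have h4 : 0 ≤ 2 * L * nm (x - y) ^ β := by positivity
    linarith

/-- the integrability of the smaller seminorm -/
theorem integ {T M₀ r s : ℝ} {m M : ℝ → ℝ} (hr : 0 < r) (hs : 0 < s) (hM₀ : 0 ≤ M₀)
    (hm : ∀ t ∈ Ioo 0 T, 0 ≤ m t) (hM : ∀ t ∈ Ioo 0 T, 0 ≤ M t)
    (hle : ∀ t ∈ Ioo 0 T, M t ≤ m t ^ s * (2 * M₀) ^ (1 - s)) (hc : ContinuousOn M (Ioo 0 T))
    (hint : IntegrableOn (fun t => m t ^ r) (Ioo 0 T)) :
    IntegrableOn (fun t => M t ^ (r / s)) (Ioo 0 T) := by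
  have hr' : 0 < r / s := div_pos hr hs
  have h1 : IntegrableOn (fun t => m t ^ r * ((2 * M₀) ^ (1 - s)) ^ (r / s)) (Ioo 0 T) :=
    Integrable.mul_const hint _
  refine Integrable.mono' h1 ?_ ?_
  · exact (hc.rpow_const fun x _ => Or.inr hr'.le).aestronglyMeasurable measurableSet_Ioo
  · refine (ae_restrict_iff' measurableSet_Ioo).2 (ae_of_all _ fun t ht => ?_)
    have h2 : 0 ≤ (2 * M₀) ^ (1 - s) := Real.rpow_nonneg (by linarith) _
    have h3 : 0 ≤ m t ^ s := Real.rpow_nonneg (hm t ht) _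
    rw [Real.norm_of_nonneg (Real.rpow_nonneg (hM t ht) _)]
    calc M t ^ (r / s) ≤ (m t ^ s * (2 * M₀) ^ (1 - s)) ^ (r / s) :=
          Real.rpow_le_rpow (hM t ht) (hle t ht) hr'.le
      _ = m t ^ r * ((2 * M₀) ^ (1 - s)) ^ (r / s) := by
          rw [Real.mul_rpow h3 h2, ← Real.rpow_mul (hm t ht), mul_div_cancel₀ r hs.ne']

theorem nm_swap (x y : P2) : nm ((x.2, -x.1) - (y.2, -y.1) : P2) = nm (x - y) := by
  unfold nm
  congr 1
  change (x.2 - y.2) ^ 2 + (-x.1 - -y.1) ^ 2 = (x.1 - y.1) ^ 2 + (x.2 - y.2) ^ 2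
  ring

end MA2Aux

open MA2Aux in
/-- MA2: the a priori bound. -/
theorem ma2 (hR : Stmt_REG) (hC : Stmt_CTM) (hS : Stmt_ST2) (hM : Stmt_MAI) (hRot : Stmt_ROT)
    (hSh : Stmt_SHF) : Stmt_MA2 := by
  intro α κ T θ φ hα hα2 hκ hT hsol M₀ d r m hM₀ hr hd hd1 hH hint
  obtain ⟨-, hreg⟩ := hR α κ T θ φ hsol
  have hr0 : 0 < r := by linarith
  have hM₀0 : 0 ≤ M₀ :=
    (abs_nonneg _).trans (hM₀ (T / 2) ⟨by linarith, by linarith⟩ (0, 0))
  -- the exponent of the interpolation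
  obtain ⟨w, hw⟩ : ∃ w : ℝ, w = d - 2 * α / r := ⟨_, rfl⟩
  have hw1 : 1 - 2 * α < w := by linarith
  have hw0 : 0 < w := by linarith
  obtain ⟨s, hs1, hs2⟩ : ∃ s : ℝ, (1 - 2 * α) / w < s ∧ s < 1 :=
    exists_between ((div_lt_one hw0).2 hw1)
  have hs0 : 0 < s := (div_pos (by linarith) hw0).trans hs1
  have hs3 : 1 - 2 * α < s * w := (div_lt_iff₀ hw0).1 hs1
  have hd0 : 0 < d := by
    have : 0 < 2 * α / r := by positivity
    linarith
  have hd2 : s * d < 1 := by nlinarith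
  have hr1 : 1 < r / s := by
    rw [one_lt_div hs0]
    linarith
  have he : 2 * α / (r / s) = s * (2 * α / r) := by
    field_simp
  have hd3 : 1 - 2 * α + 2 * α / (r / s) < s * d := by
    rw [he]
    have : s * w = s * d - s * (2 * α / r) := by
      rw [hw]
      ring
    linarith
  obtain ⟨M, hMc, hMH, hMm⟩ := hC α κ T θ φ hsol (s * d) (mul_pos hs0 hd0) hd2.le
  have hMi : IntegrableOn (fun t => M t ^ (r / s)) (Ioo 0 T) :=
    integ hr0 hs0 hM₀0 (fun t ht => (hH t ht).1) (fun t ht => (hMH t ht).1)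
      (fun t ht => hMm t ht _ (h1_interp (hH t ht).2 (hH t ht).1 (hM₀ t ht) hs0 hs2)) hMc hint
  -- the ratio
  obtain ⟨ν, hν⟩ : ∃ ν : ℝ, ν = 1 / (s * d + 2 * α - 2 * α / (r / s)) := ⟨_, rfl⟩
  have hs' : 1 < s * d + 2 * α - 2 * α / (r / s) := by linarith
  have hν0 : 0 < ν := by
    rw [hν]
    exact div_pos one_pos (by linarith)
  have hν1 : ν < 1 := by
    rw [hν, div_lt_one (by linarith)]
    exact hs'
  have hex : ∃ k : ℕ, ν ^ k < 2 * α := exists_pow_lt_of_lt_one (by linarith) hν1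
  classical
  obtain ⟨K, hK⟩ : ∃ K : ℕ, K = Nat.find hex := ⟨_, rfl⟩
  have hKlt : ν ^ K < 2 * α := by
    rw [hK]
    exact Nat.find_spec hex
  have hmin : ∀ k, k < K → 2 * α ≤ ν ^ k := by
    intro k hk
    rw [hK] at hk
    exact not_lt.1 (Nat.find_min hex hk)
  -- the induction
  have hind : ∀ k : ℕ, k ≤ K → ∀ t₀ ∈ Ioo 0 T, ∃ M₂, ∀ t ∈ Ico t₀ T, H2 (θ t) M₂ (1 - ν ^ k) := by
    intro k
    induction k with
    | zero =>
      intro _ t₀ ht₀
      refine ⟨2 * M₀, fun t ht x a => ?_⟩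
      rw [pow_zero, sub_self, Real.rpow_zero, mul_one]
      have ht' : t ∈ Ioo 0 T := ⟨lt_of_lt_of_le ht₀.1 ht.1, ht.2⟩
      refine (abs_sub _ _).trans ?_
      have := hM₀ t ht' (x.1, x.2 + a)
      have := hM₀ t ht' x
      linarith
    | succ k ih =>
      intro hk t₀ ht₀
      obtain ⟨M₂, hM₂⟩ := ih (by omega) t₀ ht₀
      have hk1 := hmin k (by omega)
      have hk2 : ν ^ k ≤ 1 := pow_le_one₀ hν0.le hν1.le
      obtain ⟨N, hN⟩ := hS α κ T θ φ hα hα2 hκ hsol M₀ (s * d) (r / s) M₂ (1 - ν ^ k) t₀ M hM₀ hr1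
        hd3 hd2 hMc hMH (by linarith) (by linarith) ht₀.1 ht₀.2
        (hMi.mono_set (Ioo_subset_Ioo_left ht₀.1.le)) hM₂
      refine ⟨N, ?_⟩
      have e : 1 - (1 - (1 - ν ^ k)) / (s * d + 2 * α - 2 * α / (r / s)) = 1 - ν ^ (k + 1) := by
        rw [pow_succ, hν]
        ring
      rw [e] at hN
      exact hN
  obtain ⟨M₂, hM₂⟩ := hind K le_rfl (T / 2) ⟨by linarith, by linarith⟩
  -- the rotated and translated solution
  have hsh := hSh α κ T (T / 2) θ φ (by linarith) (by linarith) hsol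
  have hrot := hRot α κ (T - T / 2) _ _ (0, 1) (by norm_num) hsh
  obtain ⟨β, hβ1, hβ2, hβ3⟩ := hM α κ (T - T / 2) _ _ hα hα2 hκ hrot M₀ M₂ (1 - ν ^ K)
    (by
      intro t ht x
      exact hM₀ (t + T / 2) ⟨by linarith [ht.1], by linarith [ht.2]⟩ _)
    (by linarith)
    (by
      intro t ht x a
      have h1 := hM₂ (t + T / 2) ⟨by linarith [ht.1], by linarith [ht.2]⟩ (-x.2, x.1) a
      simpa using h1)
  refine ⟨β, hβ1, hβ2, ?_⟩
  intro t₀ ht₀
  obtain ⟨C₁, hC₁⟩ := hβ3 (T / 4) ⟨by linarith, by linarith⟩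
  obtain ⟨L, hL0, hL⟩ := hreg.lip t₀ (3 * T / 4) ht₀.1 (by linarith)
  refine ⟨|C₁| + (2 * L + 2 * M₀), fun t ht x y => ?_⟩
  have ht' : t ∈ Ioo 0 T := ⟨lt_of_lt_of_le ht₀.1 ht.1, ht.2⟩
  have hp : 0 ≤ nm (x - y) ^ β := Real.rpow_nonneg (MAIAux.nm_nonneg _) _
  rw [add_mul]
  rcases le_total t (3 * T / 4) with htt | htt
  · have h1 := lip_holder (β := β) hL0 (hL t ⟨ht.1, htt⟩) (hM₀ t ht') (by linarith) hβ2 x y
    have h2 : 0 ≤ |C₁| * nm (x - y) ^ β := by positivity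
    linarith
  · have h1 := hC₁ (t - T / 2) ⟨by linarith, by linarith [ht.2]⟩ (x.2, -x.1) (y.2, -y.1)
    rw [nm_swap] at h1
    have h2 : |θ t x - θ t y| ≤ C₁ * nm (x - y) ^ β := by
      simpa using h1
    have h3 : C₁ * nm (x - y) ^ β ≤ |C₁| * nm (x - y) ^ β :=
      mul_le_mul_of_nonneg_right (le_abs_self _) hp
    have h4 : 0 ≤ (2 * L + 2 * M₀) * nm (x - y) ^ β := by positivity
    linarith

end Pool.Agent.SQG
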