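import Pool.Agent.SQG.Stmts6
import Pool.Agent.SQG.Ma2

/-!
# Module MA6: the theorem for the direction `(1,0)`
-/

set_option autoImplicit false

namespace Pool.Agent.SQG

open Complex MeasureTheory Set Filter Topology ProbabilityTheory

namespace MA6Aux

/-- all the increments from the short ones -/
theorem h1s_all {f : P2 → ℝ} {M₀ ρ₀ μ d ε β : ℝ} (hb : ∀ x, |f x| ≤ M₀) (hρ : 0 < ρ₀) (hd : 0 < d)
    (hμ : 0 ≤ μ) (hε : 0 ≤ ε)
    (h : ∀ (x : P2) (a : ℝ), |a| ≤ ρ₀ → |f (x.1 + a, x.2) - f x| ≤ μ * |a| ^ d + ε * |a| ^ β) :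
    H1s f (μ + 2 * M₀ * (ρ₀ ^ d)⁻¹) d ε β := by
  intro x a
  have hM₀ : 0 ≤ M₀ := (abs_nonneg _).trans (hb x)
  have hρd : 0 < ρ₀ ^ d := Real.rpow_pos_of_pos hρ d
  have had : 0 ≤ |a| ^ d := Real.rpow_nonneg (abs_nonneg a) _
  have hab : 0 ≤ |a| ^ β := Real.rpow_nonneg (abs_nonneg a) _
  rcases le_total |a| ρ₀ with ha | ha
  · have h1 := h x a ha
    have h2 : 0 ≤ 2 * M₀ * (ρ₀ ^ d)⁻¹ * |a| ^ d := by positivity
    rw [add_mul]
    linarith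
  · have h1 : |f (x.1 + a, x.2) - f x| ≤ 2 * M₀ := by
      refine (abs_sub _ _).trans ?_
      have := hb (x.1 + a, x.2)
      have := hb x
      linarith
    have h2 : ρ₀ ^ d ≤ |a| ^ d := Real.rpow_le_rpow hρ.le ha hd.le
    have h3 : 2 * M₀ ≤ 2 * M₀ * (ρ₀ ^ d)⁻¹ * |a| ^ d := by
      have h4 : 1 ≤ (ρ₀ ^ d)⁻¹ * |a| ^ d := by
        rw [inv_mul_eq_div, one_le_div hρd]
        exact h2
      calc 2 * M₀ = 2 * M₀ * 1 := by ring
        _ ≤ 2 * M₀ * ((ρ₀ ^ d)⁻¹ * |a| ^ d) := mul_le_mul_of_nonneg_left h4 (by linarith)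
        _ = _ := by ring
    have h5 : 0 ≤ μ * |a| ^ d := mul_nonneg hμ had
    have h6 : 0 ≤ ε * |a| ^ β := mul_nonneg hε hab
    rw [add_mul]
    linarith

/-- the integrability of the optimal coefficient -/
theorem integ {T t₁ r c : ℝ} {m M : ℝ → ℝ} (hr : 0 < r) (ht₁ : 0 ≤ t₁) (hc0 : 0 ≤ c)
    (hm : ∀ t ∈ Ioo 0 T, 0 ≤ m t) (hM : ∀ t ∈ Ioo 0 T, 0 ≤ M t)
    (hle : ∀ t ∈ Ioo 0 T, M t ≤ m t + c) (hc : ContinuousOn M (Ioo 0 T))
    (hint : IntegrableOn (fun t => m t ^ r) (Ioo 0 T)) :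
    IntegrableOn (fun t => M t ^ r) (Ioo t₁ T) := by
  refine IntegrableOn.mono_set ?_ (Ioo_subset_Ioo_left ht₁)
  have h1 : IntegrableOn (fun t => 2 ^ r * (m t ^ r + c ^ r)) (Ioo 0 T) := by
    refine Integrable.const_mul (Integrable.add hint ?_) _
    exact integrableOn_const (by simp) (by simp)
  refine Integrable.mono' h1 ?_ ?_
  · exact (hc.rpow_const fun x _ => Or.inr hr.le).aestronglyMeasurable measurableSet_Ioo
  · refine (ae_restrict_iff' measurableSet_Ioo).2 (ae_of_all _ fun t ht => ?_)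
    rw [Real.norm_of_nonneg (Real.rpow_nonneg (hM t ht) _)]
    have hm0 := hm t ht
    have hmr : 0 ≤ m t ^ r := Real.rpow_nonneg hm0 _
    have hcr : 0 ≤ c ^ r := Real.rpow_nonneg hc0 _
    have h2 : M t ≤ 2 * max (m t) c := by
      have := hle t ht
      have := le_max_left (m t) c
      have := le_max_right (m t) c
      linarith
    have h3 : 0 ≤ max (m t) c := le_max_of_le_left hm0
    calc M t ^ r ≤ (2 * max (m t) c) ^ r := Real.rpow_le_rpow (hM t ht) h2 hr.le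
      _ = 2 ^ r * (max (m t) c) ^ r := Real.mul_rpow (by norm_num) h3
      _ ≤ 2 ^ r * (m t ^ r + c ^ r) := by
          refine mul_le_mul_of_nonneg_left ?_ (Real.rpow_nonneg (by norm_num) _)
          rcases le_total (m t) c with h | h
          · rw [max_eq_right h]
            linarith
          · rw [max_eq_left h]
            linarith

end MA6Aux

open MA6Aux in
/-- MA6: the theorem for the direction `(1,0)`. -/
theorem ma6 (hR : Stmt_REG) (hC : Stmt_CT2) (h5 : Stmt_ST5) (hI : Stmt_IS5) (h6 : Stmt_ST6) :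
    Stmt_MA6 := by
  intro α hα hα2
  obtain ⟨ε₁, hε₁, h5⟩ := h5 α hα hα2
  obtain ⟨ε₂, hε₂, h6⟩ := h6 α hα hα2
  obtain ⟨ε₀, hε₀⟩ : ∃ ε₀ : ℝ, ε₀ = min ε₁ (min (ε₁ * ε₂ / 12) (ε₂ / 12)) := ⟨_, rfl⟩
  have e0 : 0 < ε₀ := by
    rw [hε₀]
    have : 0 < ε₁ * ε₂ / 12 := by positivity
    have : 0 < ε₂ / 12 := by positivity
    exact lt_min hε₁ (lt_min (by assumption) (by assumption))
  have e1 : ε₀ ≤ ε₁ := hε₀ ▸ min_le_left _ _
  have e2 : ε₀ ≤ ε₁ * ε₂ / 12 := hε₀ ▸ (min_le_right _ _).trans (min_le_left _ _)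
  have e3 : ε₀ ≤ ε₂ / 12 := hε₀ ▸ (min_le_right _ _).trans (min_le_right _ _)
  clear hε₀
  refine ⟨ε₀, e0, ?_⟩
  intro κ T θ φ hκ hT hsol M₀ r ρ₀ m hM₀ hr hρ₀ hH hint t₀ ht₀
  obtain ⟨-, hreg⟩ := hR α κ T θ φ hsol
  have hM₀0 : 0 ≤ M₀ :=
    (abs_nonneg _).trans (hM₀ (T / 2) ⟨by linarith, by linarith⟩ (0, 0))
  have hr0 : 0 < r := by linarith
  have hαr : 0 < 2 * α / r := by positivity
  have hαr2 : 2 * α / r < 2 * α := by
    rw [div_lt_iff₀ hr0]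
    nlinarith
  obtain ⟨d, hd⟩ : ∃ d : ℝ, d = 1 - 2 * α + 2 * α / r := ⟨_, rfl⟩
  have hd0 : 0 < d := by linarith
  have hd1 : d ≤ 1 := by linarith
  have hεκ : 0 ≤ ε₀ * κ := by positivity
  have hall : ∀ t ∈ Ioo 0 T, H1s (θ t) (m t + 2 * M₀ * (ρ₀ ^ d)⁻¹) d (ε₀ * κ) (1 - 2 * α) := by
    intro t ht
    refine h1s_all (hM₀ t ht) hρ₀ hd0 (hH t ht).1 hεκ ?_
    intro x a ha
    rw [hd]
    exact (hH t ht).2 x a ha
  obtain ⟨M, hMc, hMH, hMm⟩ := hC α κ T θ φ hsol d (ε₀ * κ) (1 - 2 * α) hd0 hd1 hεκ (by linarith)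
  have hc0 : 0 ≤ 2 * M₀ * (ρ₀ ^ d)⁻¹ := by
    have : 0 < ρ₀ ^ d := Real.rpow_pos_of_pos hρ₀ d
    positivity
  have hMi : IntegrableOn (fun t => M t ^ r) (Ioo (T / 2) T) :=
    integ hr0 (by linarith) hc0 (fun t ht => (hH t ht).1) (fun t ht => (hMH t ht).1)
      (fun t ht => hMm t ht _ (add_nonneg (hH t ht).1 hc0) (hall t ht)) hMc hint
  have hη : 0 < ε₂ * κ / 12 := by positivity
  obtain ⟨t', n, k, ht'1, ht'2, hn, hk, hst⟩ := h5 κ T θ φ hκ hsol M₀ r (T / 2) (ε₀ * κ)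
    (ε₂ * κ / 12) M hM₀ hr hεκ (mul_le_mul_of_nonneg_right e1 hκ.le) hη
    (by
      have := mul_le_mul_of_nonneg_right e2 hκ.le
      calc ε₀ * κ ≤ ε₁ * ε₂ / 12 * κ := this
        _ = ε₁ * (ε₂ * κ / 12) := by ring)
    hMc (fun t ht => by
      have := hMH t ht
      rw [hd] at this
      exact this) (by linarith) (by linarith) hMi
  have ht'0 : 0 < t' := by linarith
  have hA : 6 * (ε₂ * κ / 12 + ε₀ * κ) ≤ ε₂ * κ := by
    have := mul_le_mul_of_nonneg_right e3 hκ.le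
    have e : ε₂ / 12 * κ = ε₂ * κ / 12 := by ring
    linarith
  obtain ⟨N, hN⟩ := h6 κ T θ φ hκ hsol M₀ t' (6 * (ε₂ * κ / 12 + ε₀ * κ)) (6 * (n + M₀)) hM₀ ht'0
    ht'2 (by positivity) hA (by positivity) (by
      intro t ht x y
      have ht2 : t ∈ Ioo 0 T := ⟨lt_of_lt_of_le ht'0 ht.1, ht.2⟩
      exact hI (θ t) M₀ (ε₂ * κ / 12) n (ε₀ * κ) (1 - 2 * α) (1 - α) k (by linarith) (by linarith)
        (by linarith) (by linarith) hη.le hn hεκ hk (hM₀ t ht2) (hst t ht) x y)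
  obtain ⟨L, hL0, hL⟩ := hreg.lip t₀ t' ht₀.1 ht'2
  refine ⟨|N| + (2 * L + 2 * M₀), fun t ht x y => ?_⟩
  have ht2 : t ∈ Ioo 0 T := ⟨lt_of_lt_of_le ht₀.1 ht.1, ht.2⟩
  have hp : 0 ≤ nm (x - y) ^ (1 - α) := Real.rpow_nonneg (MAIAux.nm_nonneg _) _
  rw [add_mul]
  rcases le_total t t' with htt | htt
  · have h1 := MA2Aux.lip_holder (β := 1 - α) hL0 (hL t ⟨ht.1, htt⟩) (hM₀ t ht2) (by linarith)
      (by linarith) x y
    have h2 : 0 ≤ |N| * nm (x - y) ^ (1 - α) := by positivity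
    linarith
  · have h2 := hN t ⟨htt, ht.2⟩ x y
    have h3 : N * nm (x - y) ^ (1 - α) ≤ |N| * nm (x - y) ^ (1 - α) :=
      mul_le_mul_of_nonneg_right (le_abs_self _) hp
    have h4 : 0 ≤ (2 * L + 2 * M₀) * nm (x - y) ^ (1 - α) := by positivity
    linarith

end Pool.Agent.SQG
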