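import Pool.Agent.SQG.Stmts6

/-!
# Module NM5: the numerical inequality
-/

set_option autoImplicit false

namespace Pool.Agent.SQG

open Complex MeasureTheory Set Filter Topology

namespace NM5Aux

/-- For `Y ≥ y₀` the numbers `1` and `Y` are at most `D Y^r`. -/
theorem big (r y0 : ℝ) (hr : 1 < r) (hy : 0 < y0) :
    ∃ D : ℝ, 0 < D ∧ ∀ Y : ℝ, y0 ≤ Y → 1 ≤ D * Y ^ r ∧ Y ≤ D * Y ^ r := by
  refine ⟨y0 ^ (-r) + y0 ^ (1 - r), by positivity, fun Y hY => ?_⟩
  have hY0 : 0 < Y := lt_of_lt_of_le hy hY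
  have h1 : 0 < y0 ^ (-r) := Real.rpow_pos_of_pos hy _
  have h2 : 0 < y0 ^ (1 - r) := Real.rpow_pos_of_pos hy _
  have h3 : 0 < Y ^ r := Real.rpow_pos_of_pos hY0 _
  have h4 : 1 ≤ y0 ^ (-r) * Y ^ r := by
    have h5 : y0 ^ r ≤ Y ^ r := Real.rpow_le_rpow hy.le hY (by linarith)
    calc (1 : ℝ) = y0 ^ (-r) * y0 ^ r := by
          rw [← Real.rpow_add hy, neg_add_cancel, Real.rpow_zero]
      _ ≤ y0 ^ (-r) * Y ^ r := mul_le_mul_of_nonneg_left h5 h1.le
  have h6 : Y ≤ y0 ^ (1 - r) * Y ^ r := by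
    have h7 : y0 ^ (r - 1) ≤ Y ^ (r - 1) := Real.rpow_le_rpow hy.le hY (by linarith)
    have h8 : Y ^ r = Y * Y ^ (r - 1) := by
      rw [mul_comm, ← Real.rpow_add_one hY0.ne', sub_add_cancel]
    have h9 : (1 : ℝ) ≤ y0 ^ (1 - r) * Y ^ (r - 1) := by
      calc (1 : ℝ) = y0 ^ (1 - r) * y0 ^ (r - 1) := by
            rw [← Real.rpow_add hy]
            simp
        _ ≤ y0 ^ (1 - r) * Y ^ (r - 1) := mul_le_mul_of_nonneg_left h7 h2.le
    calc Y = Y * 1 := (mul_one _).symm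
      _ ≤ Y * (y0 ^ (1 - r) * Y ^ (r - 1)) := mul_le_mul_of_nonneg_left h9 hY0.le
      _ = y0 ^ (1 - r) * Y ^ r := by rw [h8]; ring
  constructor
  · nlinarith [mul_pos h2 h3]
  · nlinarith [mul_pos h1 h3]

/-- The case `s > 2`: `Y s^d ≤ C Y^r`. -/
theorem large (r d η : ℝ) (m : ℕ) (hr : 1 < r) (hd : 0 < d) (hm : 1 ≤ m)
    (hdm : d ≤ (2 * m - d) * (r - 1)) (hη : 0 < η) :
    ∃ D : ℝ, 0 < D ∧ ∀ K s Y R : ℝ, η ≤ K → 2 ≤ s → 0 ≤ Y → (s / 2) ^ (2 * m) ≤ R →
      K * R ≤ Y * s ^ d → Y * s ^ d ≤ D * Y ^ r := by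
  refine ⟨(η / 2 ^ (2 * m)) ^ (1 - r), by positivity, fun K s Y R hK hs hY hR h => ?_⟩
  have hs0 : 0 < s := by linarith
  have hsd : 0 < s ^ d := Real.rpow_pos_of_pos hs0 _
  set z : ℝ := η / 2 ^ (2 * m) with hz
  have hz0 : 0 < z := by positivity
  -- `z s^{2m} ≤ Y s^d`
  have h1 : z * s ^ (2 * m) ≤ Y * s ^ d := by
    have h2 : η * (s / 2) ^ (2 * m) ≤ K * R := by
      have h3 : (0 : ℝ) ≤ (s / 2) ^ (2 * m) := by positivity
      nlinarith [mul_le_mul hK hR h3 (by linarith)]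
    have h4 : η * (s / 2) ^ (2 * m) = z * s ^ (2 * m) := by
      rw [hz, div_pow]
      ring
    linarith
  have hY0 : 0 < Y := by
    rcases hY.lt_or_eq with h5 | h5
    · exact h5
    · exfalso
      rw [← h5, zero_mul] at h1
      have : 0 < z * s ^ (2 * m) := by positivity
      linarith
  have h2 : z * s ^ ((2 * m : ℝ) - d) ≤ Y := by
    have h3 : s ^ ((2 * m : ℝ) - d) * s ^ d = s ^ (2 * m) := by
      rw [← Real.rpow_add hs0, sub_add_cancel, ← Real.rpow_natCast]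
      norm_num
    have h4 : z * s ^ ((2 * m : ℝ) - d) * s ^ d ≤ Y * s ^ d := by
      rw [mul_assoc, h3]
      exact h1
    exact le_of_mul_le_mul_right h4 hsd
  -- `z^{r-1} s^d ≤ Y^{r-1}`
  have h5 : z ^ (r - 1) * s ^ d ≤ Y ^ (r - 1) := by
    have h6 : (z * s ^ ((2 * m : ℝ) - d)) ^ (r - 1) ≤ Y ^ (r - 1) :=
      Real.rpow_le_rpow (by positivity) h2 (by linarith)
    rw [Real.mul_rpow hz0.le (by positivity), ← Real.rpow_mul hs0.le] at h6
    have h7 : s ^ d ≤ s ^ (((2 * m : ℝ) - d) * (r - 1)) :=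
      Real.rpow_le_rpow_of_exponent_le (by linarith) hdm
    exact le_trans (mul_le_mul_of_nonneg_left h7 (by positivity)) h6
  have h8 : Y ^ r = Y * Y ^ (r - 1) := by
    rw [mul_comm, ← Real.rpow_add_one hY0.ne', sub_add_cancel]
  have h9 : z ^ (1 - r) * z ^ (r - 1) = 1 := by
    rw [← Real.rpow_add hz0]
    simp
  calc Y * s ^ d = Y * (z ^ (1 - r) * (z ^ (r - 1) * s ^ d)) := by
        rw [← mul_assoc (z ^ (1 - r)), h9, one_mul]
    _ ≤ Y * (z ^ (1 - r) * Y ^ (r - 1)) := by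
        have : 0 < z ^ (1 - r) := Real.rpow_pos_of_pos hz0 _
        gcongr
    _ = z ^ (1 - r) * Y ^ r := by rw [h8]; ring

/-- `s ≤ 1`, the upper bound. -/
theorem caseA (N e ε s Y Cu Cd ud ub : ℝ) (hN : 0 ≤ N) (hε : 0 ≤ ε) (hεe : ε ≤ e)
    (he : e ≤ 2 * ε) (h8 : 8 * ε ≤ N) (hs : 0 ≤ s) (hs1 : s ≤ 1) (hY : 0 ≤ Y) (hCu : 0 < Cu)
    (hCd : 0 < Cd) (hud0 : 0 ≤ ud) (hub0 : 0 ≤ ub) (hud : ud ≤ 2) (hub : ub ≤ 2) :
    Cu * N * (1 + s) * (4 * e * s) + (Cd * Y * ud + Cu * ε * ub) * (N + 4 * e * s ^ 2) ≤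
      N * (20 * Cu * ε + 4 * Cd * Y) := by
  have he0 : 0 ≤ e := le_trans hε hεe
  have h1 : Cu * N * (1 + s) * (4 * e * s) ≤ Cu * N * (16 * ε) := by
    have h2 : (1 + s) * (4 * e * s) ≤ 16 * ε := by
      have h3 : (1 + s) * s ≤ 2 := by nlinarith
      have h4 : (1 + s) * s * e ≤ 2 * e := mul_le_mul_of_nonneg_right h3 he0
      nlinarith
    have h5 : 0 ≤ Cu * N := by positivity
    calc Cu * N * (1 + s) * (4 * e * s) = Cu * N * ((1 + s) * (4 * e * s)) := by ring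
      _ ≤ Cu * N * (16 * ε) := mul_le_mul_of_nonneg_left h2 h5
  have h6 : Cd * Y * ud + Cu * ε * ub ≤ 2 * (Cd * Y + Cu * ε) := by
    have h7 : Cd * Y * ud ≤ Cd * Y * 2 := mul_le_mul_of_nonneg_left hud (by positivity)
    have h9 : Cu * ε * ub ≤ Cu * ε * 2 := mul_le_mul_of_nonneg_left hub (by positivity)
    linarith
  have h10 : N + 4 * e * s ^ 2 ≤ 2 * N := by
    have h11 : s ^ 2 ≤ 1 := by nlinarith
    have h12 : e * s ^ 2 ≤ e * 1 := mul_le_mul_of_nonneg_left h11 he0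
    nlinarith
  have h13 : (Cd * Y * ud + Cu * ε * ub) * (N + 4 * e * s ^ 2) ≤
      2 * (Cd * Y + Cu * ε) * (2 * N) :=
    mul_le_mul h6 h10 (by positivity) (by positivity)
  nlinarith

/-- `1 ≤ s ≤ 2`, the upper bounds of the factors. -/
theorem caseB (N K e ε s Y Cu Cd q R1 ud ub : ℝ) (hN : 0 ≤ N) (hK0 : 0 ≤ K) (hε : 0 ≤ ε)
    (hεe : ε ≤ e) (hs : 1 ≤ s) (hs2 : s ≤ 2) (hY : 0 ≤ Y) (hCu : 0 < Cu)
    (hCd : 0 < Cd) (hq : 0 ≤ q) (hR1 : 0 ≤ R1) (hes : e * s ^ 2 ≤ 2 * Y)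
    (hud0 : 0 ≤ ud) (hub0 : 0 ≤ ub) (hud : ud ≤ 3) (hub : ub ≤ 3) :
    Cu * N * (1 + s) * (4 * e * s + q * K * R1) ≤ N * (24 * Cu * Y + 3 * Cu * q * K * R1) ∧
    0 ≤ Cd * Y * ud + Cu * ε * ub ∧
    Cd * Y * ud + Cu * ε * ub ≤ (3 * Cd + 6 * Cu) * Y ∧
    q * K * R1 * (1 + s) ≤ 3 * q * K * R1 := by
  have he0 : 0 ≤ e := le_trans hε hεe
  have h1 : 4 * e * s ≤ 8 * Y := by
    have : e * s ≤ e * s ^ 2 := by
      apply mul_le_mul_of_nonneg_left _ he0
      nlinarith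
    nlinarith
  have h2 : e ≤ 2 * Y := by
    have : e * 1 ≤ e * s ^ 2 := by
      apply mul_le_mul_of_nonneg_left _ he0
      nlinarith
    linarith
  have hqK : 0 ≤ q * K * R1 := by positivity
  refine ⟨?_, by positivity, ?_, ?_⟩
  · have h5 : 0 ≤ Cu * N := by positivity
    have h6 : (1 + s) * (4 * e * s + q * K * R1) ≤ 3 * (8 * Y + q * K * R1) :=
      mul_le_mul (by linarith) (by linarith) (by positivity) (by norm_num)
    calc Cu * N * (1 + s) * (4 * e * s + q * K * R1)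
        = Cu * N * ((1 + s) * (4 * e * s + q * K * R1)) := by ring
      _ ≤ Cu * N * (3 * (8 * Y + q * K * R1)) := mul_le_mul_of_nonneg_left h6 h5
      _ = N * (24 * Cu * Y + 3 * Cu * q * K * R1) := by ring
  · have h7 : Cd * Y * ud ≤ Cd * Y * 3 := mul_le_mul_of_nonneg_left hud (by positivity)
    have h8 : Cu * ε * ub ≤ Cu * (2 * Y) * 3 :=
      mul_le_mul (mul_le_mul_of_nonneg_left (by linarith) hCu.le) hub hub0 (by positivity)
    nlinarith
  · nlinarith

/-- `s ≥ 2`. -/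
theorem caseC (N K e ε s Y Cu Cd q R R1 ud ub sd sb : ℝ) (hN : 0 ≤ N) (hK0 : 0 ≤ K)
    (hε : 0 ≤ ε) (hεe : ε ≤ e) (hs : 2 ≤ s) (hY : 0 ≤ Y) (hCu : 0 < Cu)
    (hCd : 0 < Cd) (hq : 0 ≤ q) (hR0 : 0 ≤ R) (hR1 : 0 ≤ R1) (hsR : s * R1 ≤ 2 * R)
    (hes : e * s ^ 2 + K * R ≤ Y * sd) (hsb : sb ≤ s ^ 2) (hsd0 : 0 ≤ sd) (hsb0 : 0 ≤ sb)
    (hud0 : 0 ≤ ud) (hub0 : 0 ≤ ub) (hud : ud ≤ 2 * sd) (hub : ub ≤ 2 * sb) :
    Cu * N * (1 + s) * (4 * e * s + q * K * R1) +
      (Cd * Y * ud + Cu * ε * ub) * (N + 4 * e * s ^ 2 + q * K * R1 * (1 + s)) ≤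
      (Cu * (6 + 3 * q) + 2 * (Cd + Cu) * (2 + 3 * q)) * (Y * sd) *
        (N + 2 * e * s ^ 2 + K * R) := by
  have he0 : 0 ≤ e := le_trans hε hεe
  have hes0 : 0 ≤ e * s ^ 2 := by positivity
  have hKR : 0 ≤ K * R := by positivity
  have hqKR : 0 ≤ q * (K * R) := by positivity
  have hYs : 0 ≤ Y * sd := by positivity
  have h1 : q * K * R1 * (1 + s) ≤ 3 * (q * (K * R)) := by
    have h2 : (1 + s) * R1 ≤ 3 * R := by nlinarith
    calc q * K * R1 * (1 + s) = q * K * ((1 + s) * R1) := by ring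
      _ ≤ q * K * (3 * R) := mul_le_mul_of_nonneg_left h2 (by positivity)
      _ = 3 * (q * (K * R)) := by ring
  have h3 : (1 + s) * (4 * e * s) ≤ 6 * (e * s ^ 2) := by
    have h4 : (1 + s) * s ≤ 3 / 2 * s ^ 2 := by nlinarith
    have h5 : (1 + s) * s * (4 * e) ≤ 3 / 2 * s ^ 2 * (4 * e) :=
      mul_le_mul_of_nonneg_right h4 (by positivity)
    nlinarith
  have hT1 : Cu * N * (1 + s) * (4 * e * s + q * K * R1) ≤
      Cu * N * ((6 + 3 * q) * (Y * sd)) := by
    have h6 : (1 + s) * (4 * e * s + q * K * R1) ≤ (6 + 3 * q) * (Y * sd) := by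
      have h7 : (6 + 3 * q) * (e * s ^ 2 + K * R) ≤ (6 + 3 * q) * (Y * sd) :=
        mul_le_mul_of_nonneg_left hes (by positivity)
      have h8 : 0 ≤ q * (e * s ^ 2) := by positivity
      nlinarith
    calc Cu * N * (1 + s) * (4 * e * s + q * K * R1)
        = Cu * N * ((1 + s) * (4 * e * s + q * K * R1)) := by ring
      _ ≤ _ := mul_le_mul_of_nonneg_left h6 (by positivity)
  have hω : 0 ≤ N + 2 * e * s ^ 2 + K * R := by positivity
  have h9 : Cd * Y * ud + Cu * ε * ub ≤ 2 * (Cd + Cu) * (Y * sd) := by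
    have h10 : Cd * Y * ud ≤ Cd * Y * (2 * sd) := mul_le_mul_of_nonneg_left hud (by positivity)
    have h11 : ε * ub ≤ 2 * (Y * sd) := by
      calc ε * ub ≤ e * (2 * s ^ 2) := mul_le_mul hεe (by linarith) hub0 he0
        _ = 2 * (e * s ^ 2) := by ring
        _ ≤ 2 * (Y * sd) := by linarith
    have h12 : Cu * (ε * ub) ≤ Cu * (2 * (Y * sd)) := mul_le_mul_of_nonneg_left h11 hCu.le
    nlinarith
  have h13 : N + 4 * e * s ^ 2 + q * K * R1 * (1 + s) ≤
      (2 + 3 * q) * (N + 2 * e * s ^ 2 + K * R) := by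
    have h14 : 0 ≤ q * N := by positivity
    have h15 : 0 ≤ q * (e * s ^ 2) := by positivity
    nlinarith
  have hT2 : (Cd * Y * ud + Cu * ε * ub) * (N + 4 * e * s ^ 2 + q * K * R1 * (1 + s)) ≤
      2 * (Cd + Cu) * (Y * sd) * ((2 + 3 * q) * (N + 2 * e * s ^ 2 + K * R)) :=
    mul_le_mul h9 h13 (by positivity) (by positivity)
  have h16 : Cu * N * ((6 + 3 * q) * (Y * sd)) ≤
      Cu * (6 + 3 * q) * (Y * sd) * (N + 2 * e * s ^ 2 + K * R) := by
    have h17 : N ≤ N + 2 * e * s ^ 2 + K * R := by nlinarith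
    calc Cu * N * ((6 + 3 * q) * (Y * sd)) = Cu * (6 + 3 * q) * (Y * sd) * N := by ring
      _ ≤ _ := mul_le_mul_of_nonneg_left h17 (by positivity)
  calc _ ≤ Cu * (6 + 3 * q) * (Y * sd) * (N + 2 * e * s ^ 2 + K * R) +
        2 * (Cd + Cu) * (Y * sd) * ((2 + 3 * q) * (N + 2 * e * s ^ 2 + K * R)) :=
        add_le_add (le_trans hT1 h16) hT2
    _ = _ := by ring

end NM5Aux

open NM5Aux

theorem nm5 : Stmt_NM5 := by
  intro r d β η κc c₁ Cu Cd m hr hd hd1 hβ hβ1 hm hdm hη hκ hc hc1 hCu hCd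
  have hm' : (1 : ℝ) ≤ m := by exact_mod_cast hm
  obtain ⟨q, hq⟩ : ∃ q : ℝ, q = 2 * m := ⟨_, rfl⟩
  have hq2 : 2 ≤ q := by rw [hq]; linarith
  -- the constants
  obtain ⟨δ, hδ⟩ : ∃ δ : ℝ, δ = min 1 (κc / (24 * Cu * q * η)) := ⟨_, rfl⟩
  have hδ0 : 0 < δ := by
    rw [hδ]
    apply lt_min one_pos
    positivity
  have hδ1 : δ ≤ 1 := by rw [hδ]; exact min_le_left _ _
  have hδ2 : 6 * Cu * q * η * δ ≤ κc / 4 := by
    have h1 : δ ≤ κc / (24 * Cu * q * η) := by rw [hδ]; exact min_le_right _ _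
    rw [le_div_iff₀ (by positivity)] at h1
    linarith
  obtain ⟨C1, hC1⟩ : ∃ C1 : ℝ, C1 = 24 * Cu + 4 * Cd + (3 * Cd + 6 * Cu) * (9 + 3 * q) :=
    ⟨_, rfl⟩
  have hC10 : 0 < C1 := by rw [hC1]; positivity
  obtain ⟨C0, hC0⟩ : ∃ C0 : ℝ, C0 = κc + 6 * Cu * q * η := ⟨_, rfl⟩
  have hC00 : 0 < C0 := by rw [hC0]; positivity
  obtain ⟨y0, hy0⟩ : ∃ y0 : ℝ, y0 = min (c₁ * η / 16) (min (η * δ ^ (2 * m) / 4)
    (κc / (4 * C1))) := ⟨_, rfl⟩
  have hy : 0 < y0 := by
    rw [hy0]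
    refine lt_min (by positivity) (lt_min (by positivity) (by positivity))
  have hy1 : y0 ≤ c₁ * η / 16 := by rw [hy0]; exact min_le_left _ _
  have hy2 : y0 ≤ η * δ ^ (2 * m) / 4 := by
    rw [hy0]; exact le_trans (min_le_right _ _) (min_le_left _ _)
  have hy3 : C1 * y0 ≤ κc / 4 := by
    have h1 : y0 ≤ κc / (4 * C1) := by
      rw [hy0]; exact le_trans (min_le_right _ _) (min_le_right _ _)
    rw [le_div_iff₀ (by positivity)] at h1
    linarith
  obtain ⟨D, hD0, hD⟩ := big r y0 hr hy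
  obtain ⟨C6, hC60, hC6⟩ := large r d η m hr hd hm hdm hη
  refine ⟨C0 * D + C1 * D + (Cu * (6 + 3 * q) + 2 * (Cd + Cu) * (2 + 3 * q)) * C6,
    by positivity, ?_⟩
  intro N K e ε s Y hK hK2 hKN hε hεe he hε1 hε2 hs hY hst
  have hK0 : 0 < K := lt_of_lt_of_le hη hK
  have hN0 : 0 < N := lt_of_lt_of_le hK0 hKN
  have hηN : η ≤ N := le_trans hK hKN
  have he0 : 0 ≤ e := le_trans hε hεe
  have hc1η : c₁ * η ≤ η := mul_le_of_le_one_left hη.le hc1
  have hc1N : c₁ * η ≤ c₁ * N := mul_le_mul_of_nonneg_left hηN hc.le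
  have h8 : 8 * ε ≤ N := by linarith
  have hYr : 0 ≤ Y ^ r := Real.rpow_nonneg hY _
  obtain ⟨P, hP⟩ : ∃ P : ℝ, P = max (s - 1) 0 := ⟨_, rfl⟩
  have hP0 : 0 ≤ P := by rw [hP]; exact le_max_right _ _
  rw [← hP] at hst ⊢
  rw [← hq]
  have hR0 : 0 ≤ P ^ (2 * m) := pow_nonneg hP0 _
  have hR10 : 0 ≤ P ^ (2 * m - 1) := pow_nonneg hP0 _
  have hω : 0 ≤ N + 2 * e * s ^ 2 + K * P ^ (2 * m) := by positivity
  have hNω : N ≤ N + 2 * e * s ^ 2 + K * P ^ (2 * m) := by
    have : 0 ≤ 2 * e * s ^ 2 := by positivity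
    have : 0 ≤ K * P ^ (2 * m) := by positivity
    linarith
  have hif : 0 ≤ (if Y * s ^ d + ε * s ^ β ≤ c₁ * N then κc * N else 0) := by
    split_ifs
    · positivity
    · exact le_rfl
  have hud0 : 0 ≤ (1 + s) ^ d := by positivity
  have hub0 : 0 ≤ (1 + s) ^ β := by positivity
  have hpow : ∀ x : ℝ, 1 ≤ x → ∀ y : ℝ, y < 1 → x ^ y ≤ x := by
    intro x hx y hy
    calc x ^ y ≤ x ^ (1 : ℝ) := Real.rpow_le_rpow_of_exponent_le hx hy.le
      _ = x := Real.rpow_one x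
  -- reduction: it suffices to bound the left side by one of the two
  by_cases hs2 : s ≤ 2
  · -- (A) the general bound and (B) the bound for small `Y`
    have key : (Cu * N * (1 + s) * (4 * e * s + q * K * P ^ (2 * m - 1)) +
        (Cd * Y * (1 + s) ^ d + Cu * ε * (1 + s) ^ β) *
          (N + 4 * e * s ^ 2 + q * K * P ^ (2 * m - 1) * (1 + s)) ≤
        (C0 + C1 * Y) * (N + 2 * e * s ^ 2 + K * P ^ (2 * m))) ∧
        (Y ≤ y0 → Y * s ^ d + ε * s ^ β ≤ c₁ * N ∧
          Cu * N * (1 + s) * (4 * e * s + q * K * P ^ (2 * m - 1)) +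
          (Cd * Y * (1 + s) ^ d + Cu * ε * (1 + s) ^ β) *
          (N + 4 * e * s ^ 2 + q * K * P ^ (2 * m - 1) * (1 + s)) ≤ κc * N) := by
      by_cases hs1 : s ≤ 1
      · have hP1 : P = 0 := by
          rw [hP]
          exact max_eq_right (by linarith)
        have hR : P ^ (2 * m) = 0 := by
          rw [hP1]
          exact zero_pow (by omega)
        have hR1 : P ^ (2 * m - 1) = 0 := by
          rw [hP1]
          exact zero_pow (by omega)
        have hud : (1 + s) ^ d ≤ 2 := le_trans (hpow _ (by linarith) d hd1) (by linarith)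
        have hub : (1 + s) ^ β ≤ 2 := le_trans (hpow _ (by linarith) β hβ1) (by linarith)
        have hA := caseA N e ε s Y Cu Cd _ _ hN0.le hε hεe he h8 hs hs1 hY hCu hCd hud0 hub0
          hud hub
        rw [hR1, hR]
        have hL : Cu * N * (1 + s) * (4 * e * s + q * K * 0) +
            (Cd * Y * (1 + s) ^ d + Cu * ε * (1 + s) ^ β) *
              (N + 4 * e * s ^ 2 + q * K * 0 * (1 + s)) =
            Cu * N * (1 + s) * (4 * e * s) +
            (Cd * Y * (1 + s) ^ d + Cu * ε * (1 + s) ^ β) * (N + 4 * e * s ^ 2) := by ring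
        have h4C : 4 * Cd ≤ C1 := by
          have : 0 ≤ (3 * Cd + 6 * Cu) * (9 + 3 * q) := by positivity
          rw [hC1]
          linarith
        have h4Y : 4 * Cd * Y ≤ C1 * Y := mul_le_mul_of_nonneg_right h4C hY
        rw [hL]
        constructor
        · have h1 : 20 * Cu * ε + 4 * Cd * Y ≤ C0 + C1 * Y := by
            have : κc ≤ C0 := by rw [hC0]; linarith [mul_pos (mul_pos hCu hη) (by linarith : 0 < q)]
            linarith
          have h2 : N ≤ N + 2 * e * s ^ 2 + K * 0 := by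
            have : 0 ≤ 2 * e * s ^ 2 := by positivity
            linarith
          calc _ ≤ N * (20 * Cu * ε + 4 * Cd * Y) := hA
            _ ≤ (N + 2 * e * s ^ 2 + K * 0) * (C0 + C1 * Y) :=
                mul_le_mul h2 h1 (by positivity) (by positivity)
            _ = _ := by ring
        · intro hYy
          constructor
          · have h1 : s ^ d ≤ 1 := Real.rpow_le_one hs hs1 hd.le
            have h2 : s ^ β ≤ 1 := Real.rpow_le_one hs hs1 hβ.le
            have h3 : Y * s ^ d ≤ Y * 1 := mul_le_mul_of_nonneg_left h1 hY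
            have h4 : ε * s ^ β ≤ ε * 1 := mul_le_mul_of_nonneg_left h2 hε
            linarith
          · have h1 : C1 * Y ≤ κc / 4 :=
              le_trans (mul_le_mul_of_nonneg_left hYy hC10.le) hy3
            calc _ ≤ N * (20 * Cu * ε + 4 * Cd * Y) := hA
              _ ≤ N * κc := mul_le_mul_of_nonneg_left (by linarith) hN0.le
              _ = κc * N := by ring
      · push Not at hs1
        have hPs : P = s - 1 := by
          rw [hP]
          exact max_eq_left (by linarith)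
        have hP1 : P ≤ 1 := by linarith
        have hR1P : P ^ (2 * m - 1) ≤ P := pow_le_of_le_one hP0 hP1 (by omega)
        have hud : (1 + s) ^ d ≤ 3 := le_trans (hpow _ (by linarith) d hd1) (by linarith)
        have hub : (1 + s) ^ β ≤ 3 := le_trans (hpow _ (by linarith) β hβ1) (by linarith)
        have hsd2 : s ^ d ≤ 2 := le_trans (hpow _ hs1.le d hd1) hs2
        have hsb2 : s ^ β ≤ 2 := le_trans (hpow _ hs1.le β hβ1) hs2
        have hsb : s ^ β ≤ s ^ 2 :=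
          le_trans (hpow _ hs1.le β hβ1) (le_self_pow₀ hs1.le (by norm_num))
        have hsb0 : 0 ≤ s ^ β := by positivity
        have hst2 : e * s ^ 2 + K * P ^ (2 * m) ≤ Y * s ^ d := by
          have : ε * s ^ β ≤ e * s ^ 2 := mul_le_mul hεe hsb hsb0 he0
          linarith
        have hYsd : Y * s ^ d ≤ 2 * Y := by
          rw [mul_comm 2 Y]
          exact mul_le_mul_of_nonneg_left hsd2 hY
        have hKR : 0 ≤ K * P ^ (2 * m) := by positivity
        have hes : e * s ^ 2 ≤ 2 * Y := by linarith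
        obtain ⟨hb1, hb2, hb3, hb4⟩ := caseB N K e ε s Y Cu Cd q (P ^ (2 * m - 1)) _ _ hN0.le
          hK0.le hε hεe hs1.le hs2 hY hCu hCd (by linarith) hR10 hes hud0 hub0 hud hub
        have hqR1 : 3 * q * K * P ^ (2 * m - 1) ≤ 3 * q * N := by
          calc 3 * q * K * P ^ (2 * m - 1) ≤ 3 * q * N * 1 :=
                mul_le_mul (mul_le_mul_of_nonneg_left hKN (by linarith)) (by linarith) hR10
                  (by positivity)
            _ = 3 * q * N := by ring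
        have hqR1' : 3 * Cu * q * K * P ^ (2 * m - 1) ≤ 6 * Cu * q * η * P ^ (2 * m - 1) := by
          have h1 : 3 * Cu * q * K ≤ 6 * Cu * q * η := by
            have h2 : 0 ≤ 3 * Cu * q := by positivity
            calc 3 * Cu * q * K ≤ 3 * Cu * q * (2 * η) := mul_le_mul_of_nonneg_left hK2 h2
              _ = 6 * Cu * q * η := by ring
          exact mul_le_mul_of_nonneg_right h1 hR10
        have h6 : 0 ≤ 6 * Cu * q * η := by positivity
        have hC1Y : 24 * Cu * Y + (3 * Cd + 6 * Cu) * Y * (9 + 3 * q) ≤ C1 * Y := by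
          rw [hC1]
          linarith [mul_nonneg hCd.le hY]
        have hCY : 0 ≤ (3 * Cd + 6 * Cu) * Y := by positivity
        constructor
        · -- (A)
          have h1 : N + 4 * e * s ^ 2 + q * K * P ^ (2 * m - 1) * (1 + s) ≤
              (9 + 3 * q) * (N + 2 * e * s ^ 2 + K * P ^ (2 * m)) := by
            have h2 : 0 ≤ q * (2 * e * s ^ 2 + K * P ^ (2 * m)) := by positivity
            have h3 : 0 ≤ e * s ^ 2 := by positivity
            linarith
          have h2 : (Cd * Y * (1 + s) ^ d + Cu * ε * (1 + s) ^ β) *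
              (N + 4 * e * s ^ 2 + q * K * P ^ (2 * m - 1) * (1 + s)) ≤
              (3 * Cd + 6 * Cu) * Y * ((9 + 3 * q) * (N + 2 * e * s ^ 2 + K * P ^ (2 * m))) :=
            mul_le_mul hb3 h1 (by positivity) hCY
          have h3 : N * (24 * Cu * Y + 3 * Cu * q * K * P ^ (2 * m - 1)) ≤
              (N + 2 * e * s ^ 2 + K * P ^ (2 * m)) * (24 * Cu * Y + C0) := by
            apply mul_le_mul hNω _ (by positivity) hω
            have h4 : 6 * Cu * q * η * P ^ (2 * m - 1) ≤ 6 * Cu * q * η * 1 :=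
              mul_le_mul_of_nonneg_left (by linarith) h6
            rw [hC0]
            linarith
          calc _ ≤ (N + 2 * e * s ^ 2 + K * P ^ (2 * m)) * (24 * Cu * Y + C0) +
                (3 * Cd + 6 * Cu) * Y * ((9 + 3 * q) * (N + 2 * e * s ^ 2 + K * P ^ (2 * m))) :=
                add_le_add (le_trans hb1 h3) h2
            _ = (C0 + (24 * Cu * Y + (3 * Cd + 6 * Cu) * Y * (9 + 3 * q))) *
                (N + 2 * e * s ^ 2 + K * P ^ (2 * m)) := by ring
            _ ≤ _ := mul_le_mul_of_nonneg_right (by linarith) hω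
        · -- (B)
          intro hYy
          have hYη : Y ≤ c₁ * η / 16 := le_trans hYy hy1
          have hYN : Y ≤ N := by linarith
          constructor
          · have h1 : Y * s ^ d ≤ Y * 2 := mul_le_mul_of_nonneg_left hsd2 hY
            have h2 : ε * s ^ β ≤ ε * 2 := mul_le_mul_of_nonneg_left hsb2 hε
            linarith
          · have hPδ : P ≤ δ := by
              by_contra hcon
              push Not at hcon
              have h1 : δ ^ (2 * m) ≤ P ^ (2 * m) := pow_le_pow_left₀ hδ0.le hcon.le _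
              have h2 : η * δ ^ (2 * m) ≤ K * P ^ (2 * m) :=
                mul_le_mul hK h1 (by positivity) hK0.le
              have h3 : 0 < η * δ ^ (2 * m) := by positivity
              have h4 : 0 ≤ e * s ^ 2 := by positivity
              linarith
            have h1 : N + 4 * e * s ^ 2 + q * K * P ^ (2 * m - 1) * (1 + s) ≤
                (9 + 3 * q) * N := by linarith
            have h2 : (Cd * Y * (1 + s) ^ d + Cu * ε * (1 + s) ^ β) *
                (N + 4 * e * s ^ 2 + q * K * P ^ (2 * m - 1) * (1 + s)) ≤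
                (3 * Cd + 6 * Cu) * Y * ((9 + 3 * q) * N) :=
              mul_le_mul hb3 h1 (by positivity) hCY
            have h3 : 3 * Cu * q * K * P ^ (2 * m - 1) ≤ κc / 4 := by
              have h4 : 6 * Cu * q * η * P ^ (2 * m - 1) ≤ 6 * Cu * q * η * δ :=
                mul_le_mul_of_nonneg_left (by linarith) h6
              linarith
            have h5 : C1 * Y ≤ κc / 4 :=
              le_trans (mul_le_mul_of_nonneg_left hYy hC10.le) hy3
            calc _ ≤ N * (24 * Cu * Y + 3 * Cu * q * K * P ^ (2 * m - 1)) +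
                  (3 * Cd + 6 * Cu) * Y * ((9 + 3 * q) * N) := add_le_add hb1 h2
              _ = N * (24 * Cu * Y + (3 * Cd + 6 * Cu) * Y * (9 + 3 * q) +
                  3 * Cu * q * K * P ^ (2 * m - 1)) := by ring
              _ ≤ N * κc := mul_le_mul_of_nonneg_left (by linarith) hN0.le
              _ = κc * N := by ring
    have hextra : 0 ≤ (Cu * (6 + 3 * q) + 2 * (Cd + Cu) * (2 + 3 * q)) * C6 := by positivity
    rcases le_total Y y0 with hYy | hYy
    · obtain ⟨h1, h2⟩ := key.2 hYy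
      rw [if_pos h1]
      have h3 : 0 ≤ (C0 * D + C1 * D +
          (Cu * (6 + 3 * q) + 2 * (Cd + Cu) * (2 + 3 * q)) * C6) * Y ^ r *
          (N + 2 * e * s ^ 2 + K * P ^ (2 * m)) := by positivity
      linarith
    · obtain ⟨h1, h2⟩ := hD Y hYy
      have h3 : C0 + C1 * Y ≤ (C0 * D + C1 * D +
          (Cu * (6 + 3 * q) + 2 * (Cd + Cu) * (2 + 3 * q)) * C6) * Y ^ r := by
        have h4 : C0 * 1 ≤ C0 * (D * Y ^ r) := mul_le_mul_of_nonneg_left h1 hC00.le
        have h5 : C1 * Y ≤ C1 * (D * Y ^ r) := mul_le_mul_of_nonneg_left h2 hC10.le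
        have h6 : 0 ≤ (Cu * (6 + 3 * q) + 2 * (Cd + Cu) * (2 + 3 * q)) * C6 * Y ^ r :=
          mul_nonneg hextra hYr
        calc C0 + C1 * Y = C0 * 1 + C1 * Y := by ring
          _ ≤ C0 * (D * Y ^ r) + C1 * (D * Y ^ r) := add_le_add h4 h5
          _ ≤ C0 * (D * Y ^ r) + C1 * (D * Y ^ r) +
              (Cu * (6 + 3 * q) + 2 * (Cd + Cu) * (2 + 3 * q)) * C6 * Y ^ r :=
              le_add_of_nonneg_right h6
          _ = _ := by ring
      have h4 := mul_le_mul_of_nonneg_right h3 hω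
      exact le_trans key.1 (le_trans h4 (le_add_of_nonneg_right hif))
  · push Not at hs2
    have hPs : P = s - 1 := by
      rw [hP]
      exact max_eq_left (by linarith)
    have hsb0 : 0 ≤ s ^ β := by positivity
    have hsd0 : 0 ≤ s ^ d := by positivity
    have hsb : s ^ β ≤ s ^ 2 :=
      le_trans (hpow s (by linarith) β hβ1) (le_self_pow₀ (by linarith) (by norm_num))
    have hst2 : e * s ^ 2 + K * P ^ (2 * m) ≤ Y * s ^ d := by
      have : ε * s ^ β ≤ e * s ^ 2 := mul_le_mul hεe hsb hsb0 he0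
      linarith
    have hRs : P ^ (2 * m) = P * P ^ (2 * m - 1) := by
      rw [← pow_succ']
      congr 1
      omega
    have hsR : s * P ^ (2 * m - 1) ≤ 2 * P ^ (2 * m) := by
      rw [hRs]
      have : s ≤ 2 * P := by linarith
      linarith [mul_le_mul_of_nonneg_right this hR10]
    have hfac : ∀ y : ℝ, 0 < y → y < 1 → (1 + s) ^ y ≤ 2 * s ^ y := by
      intro y hy hy1
      calc (1 + s) ^ y ≤ (2 * s) ^ y := Real.rpow_le_rpow (by linarith) (by linarith) hy.le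
        _ = 2 ^ y * s ^ y := Real.mul_rpow (by norm_num) (by linarith)
        _ ≤ 2 * s ^ y :=
            mul_le_mul_of_nonneg_right (hpow 2 (by norm_num) y hy1) (by positivity)
    have hC := caseC N K e ε s Y Cu Cd q (P ^ (2 * m)) (P ^ (2 * m - 1)) _ _ _ _ hN0.le hK0.le
      hε hεe hs2.le hY hCu hCd (by linarith) hR0 hR10 hsR hst2 hsb hsd0 hsb0 hud0 hub0
      (hfac d hd hd1) (hfac β hβ hβ1)
    have hK6 : Y * s ^ d ≤ C6 * Y ^ r := by
      apply hC6 K s Y (P ^ (2 * m)) hK hs2.le hY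
      · exact pow_le_pow_left₀ (by linarith) (by linarith) _
      · have : 0 ≤ e * s ^ 2 := by positivity
        linarith
    obtain ⟨C7, hC7⟩ : ∃ C7 : ℝ, C7 = Cu * (6 + 3 * q) + 2 * (Cd + Cu) * (2 + 3 * q) := ⟨_, rfl⟩
    have hC70 : 0 < C7 := by rw [hC7]; positivity
    rw [← hC7] at hC ⊢
    have h1 : C7 * (Y * s ^ d) ≤ (C0 * D + C1 * D + C7 * C6) * Y ^ r := by
      have h2 : C7 * (Y * s ^ d) ≤ C7 * (C6 * Y ^ r) := mul_le_mul_of_nonneg_left hK6 hC70.le
      have h3 : 0 ≤ (C0 * D + C1 * D) * Y ^ r := by positivity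
      calc C7 * (Y * s ^ d) ≤ C7 * (C6 * Y ^ r) := h2
        _ ≤ (C0 * D + C1 * D) * Y ^ r + C7 * (C6 * Y ^ r) := le_add_of_nonneg_left h3
        _ = (C0 * D + C1 * D + C7 * C6) * Y ^ r := by ring
    have h4 := mul_le_mul_of_nonneg_right h1 hω
    exact le_trans hC (le_trans h4 (le_add_of_nonneg_right hif))

end Pool.Agent.SQG
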