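import Pool.Agent.SQG.Stmts6

/-!
# Supercritical SQG (MP_0cce92_an): Gaussian mean of a power   (helper54)
-/

set_option autoImplicit false

open MeasureTheory ProbabilityTheory

namespace Pool.Agent.SQG

namespace POWAux

/-- the inequality near `1` -/
theorem near {β x : ℝ} (h0 : 0 < β) (h1 : β < 1) (hx1 : 1 / 2 ≤ x) (hx2 : x ≤ 3 / 2) :
    x ^ β ≤ 1 + β * (x - 1) - β * (1 - β) / 9 * (x - 1) ^ 2 := by
  set a : ℝ := β * (1 - β) / 9 with ha
  have ha0 : 0 < a := by
    rw [ha]
    have : 0 < β * (1 - β) := mul_pos h0 (by linarith)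
    linarith
  let φ : ℝ → ℝ := fun x => 1 + β * (x - 1) - a * (x - 1) ^ 2 - x ^ β
  have hder : ∀ y : ℝ, 0 < y → HasDerivAt φ (β - 2 * a * (y - 1) - β * y ^ (β - 1)) y := by
    intro y hy
    have d1 : HasDerivAt (fun x : ℝ => x - 1) 1 y := (hasDerivAt_id y).sub_const 1
    have d2 := (d1.const_mul β).const_add 1
    have d3 := (d1.pow 2).const_mul a
    have d4 := Real.hasDerivAt_rpow_const (x := y) (p := β) (Or.inl hy.ne')
    have d5 := (d2.sub d3).sub d4
    refine d5.congr_deriv ?_
    simp
    ring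
  have hcont : ∀ s : Set ℝ, (∀ y ∈ s, 0 < y) → ContinuousOn φ s := fun s hs y hy =>
    (hder y (hs y hy)).continuousAt.continuousWithinAt
  have hφ1 : φ 1 = 0 := by simp [φ]
  have key : 0 ≤ φ x := by
    rcases le_total 1 x with hx | hx
    · have hm : MonotoneOn φ (Set.Icc 1 (3 / 2)) := by
        refine monotoneOn_of_deriv_nonneg (convex_Icc _ _)
          (hcont _ fun y hy => by linarith [hy.1]) ?_ ?_
        · intro y hy
          rw [interior_Icc] at hy
          exact (hder y (by linarith [hy.1])).differentiableAt.differentiableWithinAt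
        · intro y hy
          rw [interior_Icc] at hy
          have hy0 : 0 < y := by linarith [hy.1]
          rw [(hder y hy0).deriv]
          have e1 : y ^ (β - 1) = (1 + (1 / y - 1)) ^ (1 - β) := by
            have : (1 + (1 / y - 1)) = y⁻¹ := by
              rw [one_div]
              ring
            rw [this, Real.inv_rpow hy0.le, ← Real.rpow_neg hy0.le]
            congr 1
            ring
          have e2 : (1 + (1 / y - 1)) ^ (1 - β) ≤ 1 + (1 - β) * (1 / y - 1) := by
            refine rpow_one_add_le_one_add_mul_self ?_ (by linarith) (by linarith)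
            have : 0 < 1 / y := by positivity
            linarith
          have e3 : 1 / y - 1 ≤ -(2 / 3) * (y - 1) := by
            have h2 : y * (1 / y) = 1 := by
              rw [mul_one_div_cancel hy0.ne']
            have h3 : (1 / y - 1) * y = 1 - y := by
              rw [sub_mul, one_mul, one_div, inv_mul_cancel₀ hy0.ne']
            by_contra hc
            push Not at hc
            have h4 : -(2 / 3) * (y - 1) * y < (1 / y - 1) * y := mul_lt_mul_of_pos_right hc hy0
            rw [h3] at h4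
            nlinarith [hy.1, hy.2]
          have e4 : (1 - β) * (1 / y - 1) ≤ (1 - β) * (-(2 / 3) * (y - 1)) :=
            mul_le_mul_of_nonneg_left e3 (by linarith)
          have e5 : β * y ^ (β - 1) ≤ β * (1 + (1 - β) * (-(2 / 3) * (y - 1))) := by
            rw [e1]
            exact mul_le_mul_of_nonneg_left (by linarith) h0.le
          have e6 : 0 ≤ β * (1 - β) * (y - 1) := by
            have : 0 < β * (1 - β) := mul_pos h0 (by linarith)
            exact mul_nonneg this.le (by linarith [hy.1])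
          rw [ha]
          nlinarith
      have := hm (Set.mem_Icc.2 ⟨le_rfl, by norm_num⟩) (Set.mem_Icc.2 ⟨hx, hx2⟩) hx
      rwa [hφ1] at this
    · have hm : AntitoneOn φ (Set.Icc (1 / 2) 1) := by
        refine antitoneOn_of_deriv_nonpos (convex_Icc _ _)
          (hcont _ fun y hy => by linarith [hy.1]) ?_ ?_
        · intro y hy
          rw [interior_Icc] at hy
          exact (hder y (by linarith [hy.1])).differentiableAt.differentiableWithinAt
        · intro y hy
          rw [interior_Icc] at hy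
          have hy0 : 0 < y := by linarith [hy.1]
          rw [(hder y hy0).deriv]
          have e1 : 1 + (1 - β) * (1 - y) ≤ y ^ (β - 1) := by
            have h2 := Real.log_le_sub_one_of_pos hy0
            have h3 := Real.add_one_le_exp (Real.log y * (β - 1))
            rw [← Real.rpow_def_of_pos hy0] at h3
            have h4 : (1 - β) * (1 - y) ≤ Real.log y * (β - 1) := by
              have h5 : 0 ≤ (1 - β) * (y - 1 - Real.log y) :=
                mul_nonneg (by linarith) (by linarith)
              nlinarith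
            linarith
          have e5 : β * (1 + (1 - β) * (1 - y)) ≤ β * y ^ (β - 1) :=
            mul_le_mul_of_nonneg_left e1 h0.le
          have e6 : 0 ≤ β * (1 - β) * (1 - y) := by
            have : 0 < β * (1 - β) := mul_pos h0 (by linarith)
            exact mul_nonneg this.le (by linarith [hy.2])
          rw [ha]
          nlinarith
      have := hm (Set.mem_Icc.2 ⟨hx1, hx⟩) (Set.mem_Icc.2 ⟨by norm_num, le_rfl⟩) hx
      rwa [hφ1] at this
  have : φ x = 1 + β * (x - 1) - a * (x - 1) ^ 2 - x ^ β := rfl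
  linarith

theorem point {β : ℝ} (h0 : 0 < β) (h1 : β < 1) (u : ℝ) :
    |1 + u| ^ β ≤ 1 + β * u - β * (1 - β) / 9 * u ^ 2 + 40 * u ^ 4 := by
  have hq : 0 ≤ u ^ 4 := by positivity
  rcases le_total |u| (1 / 2) with hu | hu
  · have hu' := abs_le.1 hu
    have h2 := near h0 h1 (x := 1 + u) (by linarith) (by linarith)
    rw [abs_of_nonneg (by linarith)]
    have e : 1 + u - 1 = u := by ring
    rw [e] at h2
    linarith
  · have h2 : |1 + u| ≤ 1 + |u| := by
      have := abs_add_le 1 u
      rwa [abs_one] at this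
    have h3 : |1 + u| ^ β ≤ 1 + |u| := by
      calc |1 + u| ^ β ≤ (1 + |u|) ^ β := Real.rpow_le_rpow (abs_nonneg _) h2 h0.le
        _ ≤ (1 + |u|) ^ (1 : ℝ) :=
          Real.rpow_le_rpow_of_exponent_le (by linarith [abs_nonneg u]) h1.le
        _ = 1 + |u| := Real.rpow_one _
    have h4 : -|u| ≤ u := neg_abs_le u
    have h5 : |u| ^ 2 = u ^ 2 := sq_abs u
    have h6 : u ^ 4 = |u| ^ 4 := by
      rw [show |u| ^ 4 = (|u| ^ 2) ^ 2 by ring, h5]
      ring
    have hb : 0 < β * (1 - β) := mul_pos h0 (by linarith)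
    have hb1 : β * (1 - β) ≤ 1 := by nlinarith
    set t := |u| with ht
    have t2 : 1 / 4 ≤ t ^ 2 := by nlinarith
    have t3 : t / 8 ≤ t ^ 4 := by
      have : t ^ 4 = t * (t ^ 2 * t) := by ring
      rw [this]
      have t4 : 1 / 8 ≤ t ^ 2 * t := by nlinarith
      nlinarith
    have t5 : t ^ 2 / 4 ≤ t ^ 4 := by
      have : t ^ 4 = t ^ 2 * t ^ 2 := by ring
      rw [this]
      nlinarith
    rw [h6, ← h5]
    have t6 : β * (1 - β) / 9 * t ^ 2 ≤ t ^ 2 := by nlinarith
    have t7 : -t ≤ β * u := by nlinarith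
    linarith

end POWAux

open POWAux in
theorem pow : Stmt_POW := by
  intro β h0 h1
  set a : ℝ := β * (1 - β) / 9 with ha
  have hb : 0 < β * (1 - β) := mul_pos h0 (by linarith)
  have ha0 : 0 < a := by
    rw [ha]
    linarith
  have ha1 : a < 1 / 4 := by
    rw [ha]
    nlinarith
  have hM4 : MemLp (id : ℝ → ℝ) 4 (gaussianReal 0 1) := by
    have := memLp_id_gaussianReal (μ := 0) (v := 1) 4
    simpa using this
  have hM2 : MemLp (id : ℝ → ℝ) 2 (gaussianReal 0 1) := by
    have := memLp_id_gaussianReal (μ := 0) (v := 1) 2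
    simpa using this
  have i4 : Integrable (fun z : ℝ => z ^ 4) (gaussianReal 0 1) := by
    have h := hM4.integrable_norm_pow (p := 4) (by norm_num)
    refine h.congr (Filter.Eventually.of_forall fun z => ?_)
    simp only [id, Real.norm_eq_abs]
    rw [show |z| ^ 4 = (|z| ^ 2) ^ 2 by ring, sq_abs]
    ring
  have i2 : Integrable (fun z : ℝ => z ^ 2) (gaussianReal 0 1) := by
    have h := hM2.integrable_sq
    simpa using h
  have i1 : Integrable (fun z : ℝ => z) (gaussianReal 0 1) := by
    have h := hM2.integrable (by norm_num)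
    exact h
  have e1 : ∫ z : ℝ, z ∂(gaussianReal 0 1) = 0 := by
    simpa using integral_id_gaussianReal (μ := 0) (v := 1)
  have e2 : ∫ z : ℝ, z ^ 2 ∂(gaussianReal 0 1) = 1 := by
    have h := variance_id_gaussianReal (μ := 0) (v := 1)
    rw [variance_eq_sub hM2] at h
    simp only [Pi.pow_apply, id] at h
    rw [e1] at h
    simpa using h
  set M : ℝ := ∫ z : ℝ, z ^ 4 ∂(gaussianReal 0 1) with hM
  have hM0 : 0 ≤ M := integral_nonneg fun z => by positivity
  refine ⟨Real.sqrt (2 * a / (640 * M + 1)), 2 * a, Real.sqrt_pos.2 (by positivity), by linarith,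
    by linarith, fun ρ hρ0 hρ => ?_⟩
  have hρ2 : ρ ^ 2 ≤ 2 * a / (640 * M + 1) := by
    have := Real.sq_sqrt (show 0 ≤ 2 * a / (640 * M + 1) by positivity)
    rw [← this]
    exact pow_le_pow_left₀ hρ0.le hρ 2
  have hρ3 : 640 * M * ρ ^ 2 ≤ 2 * a := by
    rw [le_div_iff₀ (by positivity)] at hρ2
    nlinarith [sq_nonneg ρ]
  have hg : Integrable (fun z : ℝ => 1 + β * (2 * ρ * z) - a * (2 * ρ * z) ^ 2 +
      40 * (2 * ρ * z) ^ 4) (gaussianReal 0 1) := by
    have j1 : Integrable (fun z : ℝ => β * (2 * ρ * z)) (gaussianReal 0 1) :=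
      (i1.const_mul (2 * ρ)).const_mul β
    have j2 : Integrable (fun z : ℝ => a * (2 * ρ * z) ^ 2) (gaussianReal 0 1) := by
      have := (i2.const_mul ((2 * ρ) ^ 2)).const_mul a
      refine this.congr (Filter.Eventually.of_forall fun z => ?_)
      simp only
      ring
    have j4 : Integrable (fun z : ℝ => 40 * (2 * ρ * z) ^ 4) (gaussianReal 0 1) := by
      have := (i4.const_mul ((2 * ρ) ^ 4)).const_mul 40
      refine this.congr (Filter.Eventually.of_forall fun z => ?_)
      simp only
      ring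
    exact (((integrable_const 1).add j1).sub j2).add j4
  have hle : ∫ z, |1 + 2 * ρ * z| ^ β ∂(gaussianReal 0 1) ≤
      ∫ z : ℝ, (1 + β * (2 * ρ * z) - a * (2 * ρ * z) ^ 2 + 40 * (2 * ρ * z) ^ 4)
        ∂(gaussianReal 0 1) := by
    refine integral_mono_of_nonneg (Filter.Eventually.of_forall fun z => ?_) hg
      (Filter.Eventually.of_forall fun z => ?_)
    · exact Real.rpow_nonneg (abs_nonneg _) _
    · exact point h0 h1 (2 * ρ * z)
  have hval : ∫ z : ℝ, (1 + β * (2 * ρ * z) - a * (2 * ρ * z) ^ 2 + 40 * (2 * ρ * z) ^ 4)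
      ∂(gaussianReal 0 1) = 1 - 4 * a * ρ ^ 2 + 640 * M * ρ ^ 4 := by
    have k1 : Integrable (fun z : ℝ => 2 * β * ρ * z) (gaussianReal 0 1) := i1.const_mul _
    have k2 : Integrable (fun z : ℝ => 4 * a * ρ ^ 2 * z ^ 2) (gaussianReal 0 1) :=
      i2.const_mul _
    have k4 : Integrable (fun z : ℝ => 640 * ρ ^ 4 * z ^ 4) (gaussianReal 0 1) :=
      i4.const_mul _
    have k0 : Integrable (fun _ : ℝ => (1 : ℝ)) (gaussianReal 0 1) := integrable_const 1
    have k12 : Integrable (fun z : ℝ => 1 + 2 * β * ρ * z) (gaussianReal 0 1) := k0.add k1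
    have k13 : Integrable (fun z : ℝ => 1 + 2 * β * ρ * z - 4 * a * ρ ^ 2 * z ^ 2)
        (gaussianReal 0 1) := k12.sub k2
    have e : (fun z : ℝ => 1 + β * (2 * ρ * z) - a * (2 * ρ * z) ^ 2 + 40 * (2 * ρ * z) ^ 4) =
        fun z : ℝ => ((1 + 2 * β * ρ * z) - 4 * a * ρ ^ 2 * z ^ 2) + 640 * ρ ^ 4 * z ^ 4 := by
      funext z
      ring
    rw [e, integral_add k13 k4, integral_sub k12 k2, integral_add k0 k1,
      integral_const_mul, integral_const_mul, integral_const_mul, e1, e2, ← hM]
    simp
    ring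
  rw [hval] at hle
  have h5 : 640 * M * ρ ^ 4 ≤ 2 * a * ρ ^ 2 := by
    have : 640 * M * ρ ^ 4 = 640 * M * ρ ^ 2 * ρ ^ 2 := by ring
    rw [this]
    exact mul_le_mul_of_nonneg_right hρ3 (sq_nonneg ρ)
  linarith

end Pool.Agent.SQG
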