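import Pool.Agent.SQG.Stmts

set_option autoImplicit false

namespace Pool.Agent.SQG

open Complex MeasureTheory Set Filter Topology ProbabilityTheory

namespace ROTAux

/-- the rotation -/
noncomputable def rot (e : P2) (x : P2) : P2 := (e.1 * x.1 - e.2 * x.2, e.2 * x.1 + e.1 * x.2)

lemma rot_map_volume {e : P2} (he : e.1 ^ 2 + e.2 ^ 2 = 1) :
    Measure.map (rot e) (volume : Measure P2) = volume := by
  have h1 : rot e = ⇑(Matrix.toLin (Module.Basis.finTwoProd ℝ) (Module.Basis.finTwoProd ℝ)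
      !![e.1, -e.2; e.2, e.1]) := by
    funext x
    rw [Matrix.toLin_finTwoProd_apply]
    simp only [rot]
    ext
    · simp; ring
    · simp
  have hdet : LinearMap.det (Matrix.toLin (Module.Basis.finTwoProd ℝ) (Module.Basis.finTwoProd ℝ)
      !![e.1, -e.2; e.2, e.1]) = 1 := by
    rw [LinearMap.det_toLin, Matrix.det_fin_two_of]
    linarith
  rw [h1, Measure.map_linearMap_addHaar_eq_smul_addHaar volume (by rw [hdet]; norm_num), hdet]
  simp

lemma rot_inv {e : P2} (he : e.1 ^ 2 + e.2 ^ 2 = 1) (x : P2) :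
    rot (e.1, -e.2) (rot e x) = x := by
  simp only [rot]
  ext
  · simp only
    linear_combination x.1 * he
  · simp only
    linear_combination x.2 * he

lemma rot_inv' {e : P2} (he : e.1 ^ 2 + e.2 ^ 2 = 1) (x : P2) :
    rot e (rot (e.1, -e.2) x) = x := by
  simp only [rot]
  ext
  · simp only
    linear_combination x.1 * he
  · simp only
    linear_combination x.2 * he

lemma rot_cont (e : P2) : Continuous (rot e) := by
  unfold rot
  fun_prop

/-- the rotation as a homeomorphism -/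
noncomputable def rotH (e : P2) (he : e.1 ^ 2 + e.2 ^ 2 = 1) : P2 ≃ₜ P2 where
  toFun := rot e
  invFun := rot (e.1, -e.2)
  left_inv := rot_inv he
  right_inv := rot_inv' he
  continuous_toFun := rot_cont e
  continuous_invFun := rot_cont _

lemma rot_emb {e : P2} (he : e.1 ^ 2 + e.2 ^ 2 = 1) : MeasurableEmbedding (rot e) :=
  (rotH e he).measurableEmbedding

lemma rot_mp {e : P2} (he : e.1 ^ 2 + e.2 ^ 2 = 1) :
    MeasurePreserving (rot e) (volume : Measure P2) volume :=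
  ⟨(rot_cont e).measurable, rot_map_volume he⟩

lemma nm_rot {e : P2} (he : e.1 ^ 2 + e.2 ^ 2 = 1) (x : P2) : nm (rot e x) = nm x := by
  unfold nm rot
  congr 1
  simp only
  linear_combination (x.1 ^ 2 + x.2 ^ 2) * he

lemma IF_rot {e : P2} (he : e.1 ^ 2 + e.2 ^ 2 = 1) (φ : P2 → ℂ) (x : P2) :
    IF (fun ξ => φ (rot e ξ)) x = IF φ (rot e x) := by
  unfold IF
  rw [← (rot_mp he).integral_comp (rot_emb he)
    (fun η => φ η * cexp (I * (((rot e x).1 * η.1 + (rot e x).2 * η.2 : ℝ) : ℂ)))]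
  refine integral_congr_ae (Eventually.of_forall fun ξ => ?_)
  have h : (x.1 * ξ.1 + x.2 * ξ.2 : ℝ) =
      (rot e x).1 * (rot e ξ).1 + (rot e x).2 * (rot e ξ).2 := by
    simp only [rot]
    linear_combination -(x.1 * ξ.1 + x.2 * ξ.2) * he
  simp only [h]

lemma nm_cont : Continuous nm := by
  unfold nm
  fun_prop

lemma norm_le_nm (ξ : P2) : ‖ξ‖ ≤ nm ξ := by
  rw [Prod.norm_def]
  apply max_le
  · rw [Real.norm_eq_abs, nm]
    apply Real.abs_le_sqrt
    nlinarith [sq_nonneg ξ.2]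
  · rw [Real.norm_eq_abs, nm]
    apply Real.abs_le_sqrt
    nlinarith [sq_nonneg ξ.1]

lemma int_w : Integrable (fun ξ : P2 => (1 + nm ξ ^ 2) ^ (-2 : ℝ)) := by
  have h := integrable_rpow_neg_one_add_norm_sq (E := P2) (μ := volume) (r := 4)
    (by simp [Module.finrank_prod]; norm_num)
  refine Integrable.mono' h ?_ (Eventually.of_forall fun ξ => ?_)
  · have hc : Continuous (fun ξ : P2 => 1 + nm ξ ^ 2) := continuous_const.add (nm_cont.pow 2)
    have hne : ∀ ξ : P2, 1 + nm ξ ^ 2 ≠ 0 := fun ξ => by positivity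
    exact (hc.rpow_const fun ξ => Or.inl (hne ξ)).aestronglyMeasurable
  · rw [Real.norm_of_nonneg (by positivity)]
    have h0 : ‖ξ‖ ^ 2 ≤ nm ξ ^ 2 := pow_le_pow_left₀ (norm_nonneg _) (norm_le_nm ξ) 2
    have e : (-(4 : ℝ) / 2) = -2 := by norm_num
    rw [e]
    exact Real.rpow_le_rpow_of_nonpos (by positivity) (by linarith) (by norm_num)

/-- the weighted function is integrable -/
lemma int_wphi {φ : P2 → ℂ} (hm : AEStronglyMeasurable φ)
    (hs : ∀ s : ℝ, Integrable (fun ξ => (1 + nm ξ ^ 2) ^ s * ‖φ ξ‖ ^ 2)) :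
    Integrable (fun ξ => (1 + nm ξ ^ 2) * ‖φ ξ‖) := by
  have h4 := hs 4
  refine Integrable.mono' (h4.add int_w) ?_ (Eventually.of_forall fun ξ => ?_)
  · exact ((continuous_const.add (nm_cont.pow 2)).aestronglyMeasurable).mul hm.norm
  · have hpos : (0 : ℝ) < 1 + nm ξ ^ 2 := by positivity
    have hn : ‖(1 + nm ξ ^ 2) * ‖φ ξ‖‖ = (1 + nm ξ ^ 2) * ‖φ ξ‖ :=
      Real.norm_of_nonneg (mul_nonneg hpos.le (norm_nonneg _))
    rw [hn]
    simp only [Pi.add_apply]
    have e1 : (1 + nm ξ ^ 2) ^ (4 : ℝ) = (1 + nm ξ ^ 2) ^ 4 := by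
      rw [← Real.rpow_natCast]; norm_num
    have e2 : (1 + nm ξ ^ 2) ^ (-2 : ℝ) = ((1 + nm ξ ^ 2) ^ 2)⁻¹ := by
      rw [Real.rpow_neg hpos.le]
      congr 1
      rw [← Real.rpow_natCast]; norm_num
    rw [e1, e2]
    set w := 1 + nm ξ ^ 2 with hw
    set a := ‖φ ξ‖ with ha
    have ha0 : 0 ≤ a := norm_nonneg _
    have key : w * a = (w ^ 2 * a) * w⁻¹ := by field_simp
    have e3 : (w ^ 2)⁻¹ = w⁻¹ ^ 2 := by rw [inv_pow]
    rw [key, e3]
    nlinarith [sq_nonneg (w ^ 2 * a - w⁻¹), mul_nonneg (mul_nonneg (sq_nonneg w) ha0)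
      (inv_nonneg.2 hpos.le), sq_nonneg (w ^ 2 * a), sq_nonneg (w⁻¹)]

/-- exponentials do not change integrability -/
lemma int_exp {ψ : P2 → ℂ} (h : Integrable ψ) (x : P2) :
    Integrable (fun ξ : P2 => ψ ξ * cexp (I * ((x.1 * ξ.1 + x.2 * ξ.2 : ℝ) : ℂ))) := by
  refine h.mul_bdd (c := 1) ?_ (Eventually.of_forall fun ξ => ?_)
  · apply Continuous.aestronglyMeasurable
    fun_prop
  · rw [mul_comm I, Complex.norm_exp_ofReal_mul_I]

lemma IF_lin {ψ χ : P2 → ℂ} (h1 : Integrable ψ) (h2 : Integrable χ) (a b : ℂ) (x : P2) :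
    IF (fun ξ => a * ψ ξ + b * χ ξ) x = a * IF ψ x + b * IF χ x := by
  unfold IF
  rw [← integral_const_mul, ← integral_const_mul, ← integral_add
    ((int_exp h1 x).const_mul a) ((int_exp h2 x).const_mul b)]
  refine integral_congr_ae (Eventually.of_forall fun ξ => ?_)
  simp only
  ring

section ints

variable {φ : P2 → ℂ} (hm : AEStronglyMeasurable φ)
  (hw : Integrable (fun ξ => (1 + nm ξ ^ 2) * ‖φ ξ‖))

include hm hw

lemma int_mul {m : P2 → ℂ} (hmm : Measurable m) (hb : ∀ ξ, ‖m ξ‖ ≤ 1 + nm ξ ^ 2) :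
    Integrable (fun ξ => m ξ * φ ξ) := by
  refine Integrable.mono' hw (hmm.aestronglyMeasurable.mul hm) (Eventually.of_forall fun ξ => ?_)
  rw [norm_mul]
  exact mul_le_mul_of_nonneg_right (hb ξ) (norm_nonneg _)

end ints

lemma nm_nonneg (ξ : P2) : 0 ≤ nm ξ := Real.sqrt_nonneg _

lemma abs1_le (ξ : P2) : |ξ.1| ≤ nm ξ := by
  rw [nm]
  apply Real.abs_le_sqrt
  nlinarith [sq_nonneg ξ.2]

lemma abs2_le (ξ : P2) : |ξ.2| ≤ nm ξ := by
  rw [nm]
  apply Real.abs_le_sqrt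
  nlinarith [sq_nonneg ξ.1]

lemma nm_le (ξ : P2) : nm ξ ≤ 1 + nm ξ ^ 2 := by
  nlinarith [sq_nonneg (nm ξ - 1), nm_nonneg ξ]

lemma quot_le {a b : ℝ} (hb : 0 ≤ b) (h : |a| ≤ b) : |a / b| ≤ 1 := by
  rw [abs_div, abs_of_nonneg hb]
  exact div_le_one_of_le₀ h hb

lemma int_D1 {φ : P2 → ℂ} (hm : AEStronglyMeasurable φ)
    (hw : Integrable (fun ξ => (1 + nm ξ ^ 2) * ‖φ ξ‖)) : Integrable (D1 φ) := by
  refine int_mul hm hw (m := fun ξ => I * (ξ.1 : ℂ)) (by fun_prop) fun ξ => ?_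
  rw [norm_mul, norm_I, one_mul, Complex.norm_real, Real.norm_eq_abs]
  exact (abs1_le ξ).trans (nm_le ξ)

lemma int_D2 {φ : P2 → ℂ} (hm : AEStronglyMeasurable φ)
    (hw : Integrable (fun ξ => (1 + nm ξ ^ 2) * ‖φ ξ‖)) : Integrable (D2 φ) := by
  refine int_mul hm hw (m := fun ξ => I * (ξ.2 : ℂ)) (by fun_prop) fun ξ => ?_
  rw [norm_mul, norm_I, one_mul, Complex.norm_real, Real.norm_eq_abs]
  exact (abs2_le ξ).trans (nm_le ξ)

lemma int_V1 {φ : P2 → ℂ} (hm : AEStronglyMeasurable φ)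
    (hw : Integrable (fun ξ => (1 + nm ξ ^ 2) * ‖φ ξ‖)) : Integrable (V1 φ) := by
  refine int_mul hm hw (m := fun ξ => I * ((ξ.2 / nm ξ : ℝ) : ℂ)) ?_ fun ξ => ?_
  · have h1 : Measurable (fun ξ : P2 => ξ.2 / nm ξ) := measurable_snd.div nm_cont.measurable
    exact measurable_const.mul (Complex.measurable_ofReal.comp h1)
  · rw [norm_mul, norm_I, one_mul, Complex.norm_real, Real.norm_eq_abs]
    have := quot_le (nm_nonneg ξ) (abs2_le ξ)
    nlinarith [sq_nonneg (nm ξ)]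

lemma int_V2 {φ : P2 → ℂ} (hm : AEStronglyMeasurable φ)
    (hw : Integrable (fun ξ => (1 + nm ξ ^ 2) * ‖φ ξ‖)) : Integrable (V2 φ) := by
  have h : Integrable (fun ξ : P2 => (I * ((ξ.1 / nm ξ : ℝ) : ℂ)) * φ ξ) := by
    refine int_mul hm hw (m := fun ξ => I * ((ξ.1 / nm ξ : ℝ) : ℂ)) ?_ fun ξ => ?_
    · have h1 : Measurable (fun ξ : P2 => ξ.1 / nm ξ) := measurable_fst.div nm_cont.measurable
      exact measurable_const.mul (Complex.measurable_ofReal.comp h1)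
    · rw [norm_mul, norm_I, one_mul, Complex.norm_real, Real.norm_eq_abs]
      have := quot_le (nm_nonneg ξ) (abs1_le ξ)
      nlinarith [sq_nonneg (nm ξ)]
  exact h.neg

end ROTAux

open ROTAux
theorem rot : Stmt_ROT := by
  intro α κ T θ φ e he hS
  have hρ : ∀ x : P2, ((e.1 * x.1 - e.2 * x.2, e.2 * x.1 + e.1 * x.2) : P2) = ROTAux.rot e x :=
    fun x => rfl
  simp only [hρ]
  have inv1 : ∀ ξ : P2, ξ.1 = e.1 * (ROTAux.rot e ξ).1 + e.2 * (ROTAux.rot e ξ).2 := by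
    intro ξ
    simp only [ROTAux.rot]
    linear_combination -ξ.1 * he
  have inv2 : ∀ ξ : P2, ξ.2 = -e.2 * (ROTAux.rot e ξ).1 + e.1 * (ROTAux.rot e ξ).2 := by
    intro ξ
    simp only [ROTAux.rot]
    linear_combination -ξ.2 * he
  constructor
  · intro t ht
    exact (hS.meas t ht).comp_measurePreserving (rot_mp he)
  · intro t ht s
    have h := (rot_mp he).integrable_comp_emb (rot_emb he)
      (g := fun ξ => (1 + nm ξ ^ 2) ^ s * ‖φ t ξ‖ ^ 2) |>.2 (hS.sob t ht s)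
    refine h.congr (Eventually.of_forall fun ξ => ?_)
    simp only [Function.comp_apply, nm_rot he]
  · intro t ht s
    have h := hS.cont t ht s
    refine h.congr fun t' => ?_
    rw [← (rot_mp he).integral_comp (rot_emb he)]
    simp only [nm_rot he]
  · intro t ht x
    rw [hS.rep t ht, IF_rot he]
  · intro t ht x
    have hm := hS.meas t ht
    have hw := int_wphi hm (hS.sob t ht)
    have h := hS.eqn t ht (ROTAux.rot e x)
    have hV1 : IF (V1 (fun ξ => φ t (ROTAux.rot e ξ))) x =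
        e.1 * IF (V1 (φ t)) (ROTAux.rot e x) + e.2 * IF (V2 (φ t)) (ROTAux.rot e x) := by
      rw [← IF_lin (int_V1 hm hw) (int_V2 hm hw), ← IF_rot he]
      congr 1
      funext ξ
      simp only [V1, V2, nm_rot he]
      have h2 := inv2 ξ
      rw [show (ξ.2 / nm ξ : ℝ) = (-e.2 * (ROTAux.rot e ξ).1 + e.1 * (ROTAux.rot e ξ).2) / nm ξ
        by rw [← h2]]
      push_cast
      ring
    have hV2 : IF (V2 (fun ξ => φ t (ROTAux.rot e ξ))) x =
        (-e.2) * IF (V1 (φ t)) (ROTAux.rot e x) + e.1 * IF (V2 (φ t)) (ROTAux.rot e x) := by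
      rw [← IF_lin (int_V1 hm hw) (int_V2 hm hw), ← IF_rot he]
      congr 1
      funext ξ
      simp only [V1, V2, nm_rot he]
      have h1 := inv1 ξ
      rw [show (ξ.1 / nm ξ : ℝ) = (e.1 * (ROTAux.rot e ξ).1 + e.2 * (ROTAux.rot e ξ).2) / nm ξ
        by rw [← h1]]
      push_cast
      ring
    have hD1 : IF (D1 (fun ξ => φ t (ROTAux.rot e ξ))) x =
        e.1 * IF (D1 (φ t)) (ROTAux.rot e x) + e.2 * IF (D2 (φ t)) (ROTAux.rot e x) := by
      rw [← IF_lin (int_D1 hm hw) (int_D2 hm hw), ← IF_rot he]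
      congr 1
      funext ξ
      simp only [D1, D2]
      have h1 := inv1 ξ
      rw [show (ξ.1 : ℂ) = ((e.1 * (ROTAux.rot e ξ).1 + e.2 * (ROTAux.rot e ξ).2 : ℝ) : ℂ)
        by rw [← h1]]
      push_cast
      ring
    have hD2 : IF (D2 (fun ξ => φ t (ROTAux.rot e ξ))) x =
        (-e.2) * IF (D1 (φ t)) (ROTAux.rot e x) + e.1 * IF (D2 (φ t)) (ROTAux.rot e x) := by
      rw [← IF_lin (int_D1 hm hw) (int_D2 hm hw), ← IF_rot he]
      congr 1
      funext ξ
      simp only [D1, D2]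
      have h2 := inv2 ξ
      rw [show (ξ.2 : ℂ) = ((-e.2 * (ROTAux.rot e ξ).1 + e.1 * (ROTAux.rot e ξ).2 : ℝ) : ℂ)
        by rw [← h2]]
      push_cast
      ring
    have hL : IF (LL α (fun ξ => φ t (ROTAux.rot e ξ))) x = IF (LL α (φ t)) (ROTAux.rot e x) := by
      rw [← IF_rot he]
      congr 1
      funext ξ
      simp only [LL, nm_rot he]
    have hc : (e.1 : ℂ) ^ 2 + (e.2 : ℂ) ^ 2 = 1 := by exact_mod_cast congrArg (fun r : ℝ => (r : ℂ)) he
    have hval : -(IF (V1 (fun ξ => φ t (ROTAux.rot e ξ))) x *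
          IF (D1 (fun ξ => φ t (ROTAux.rot e ξ))) x +
        IF (V2 (fun ξ => φ t (ROTAux.rot e ξ))) x * IF (D2 (fun ξ => φ t (ROTAux.rot e ξ))) x) -
        κ * IF (LL α (fun ξ => φ t (ROTAux.rot e ξ))) x =
        -(IF (V1 (φ t)) (ROTAux.rot e x) * IF (D1 (φ t)) (ROTAux.rot e x) +
          IF (V2 (φ t)) (ROTAux.rot e x) * IF (D2 (φ t)) (ROTAux.rot e x)) -
        κ * IF (LL α (φ t)) (ROTAux.rot e x) := by
      rw [hV1, hV2, hD1, hD2, hL]
      linear_combination -(IF (V1 (φ t)) (ROTAux.rot e x) * IF (D1 (φ t)) (ROTAux.rot e x) +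
          IF (V2 (φ t)) (ROTAux.rot e x) * IF (D2 (φ t)) (ROTAux.rot e x)) * hc
    rw [hval]
    exact h

end Pool.Agent.SQG
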