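import Pool.Agent.SQG.Stmts6
import Pool.Agent.SQG.Rot

/-!
# The dissipation at an isotropic touching point
-/

set_option autoImplicit false

namespace Pool.Agent.SQG

open Complex MeasureTheory Set Filter Topology ProbabilityTheory

namespace RFIAux

open ROTAux

lemma rot_add (e x y : P2) : ROTAux.rot e (x + y) = ROTAux.rot e x + ROTAux.rot e y := by
  simp only [ROTAux.rot, Prod.fst_add, Prod.snd_add, Prod.mk_add_mk]
  ext
  · simp only; ring
  · simp only; ring

lemma rot_sub (e x y : P2) : ROTAux.rot e (x - y) = ROTAux.rot e x - ROTAux.rot e y := by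
  simp only [ROTAux.rot, Prod.fst_sub, Prod.snd_sub, Prod.mk_sub_mk]
  ext
  · simp only; ring
  · simp only; ring

lemma nf_rot {f : P2 → ℝ} {φ : P2 → ℂ} (h : NF f φ) {e : P2} (he : e.1 ^ 2 + e.2 ^ 2 = 1) :
    NF (fun x => f (ROTAux.rot e x)) (fun ξ => φ (ROTAux.rot e ξ)) := by
  refine ⟨h.meas.comp_measurePreserving (rot_mp he), fun k => ?_, fun x => ?_⟩
  · have h1 := (rot_mp he).integrable_comp_emb (rot_emb he)
      (g := fun ξ => nm ξ ^ k * ‖φ ξ‖) |>.2 (h.int k)
    refine h1.congr (Eventually.of_forall fun ξ => ?_)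
    simp only [Function.comp_apply, nm_rot he]
  · rw [IF_rot he]
    exact h.rep _

lemma ll_rot {e : P2} (he : e.1 ^ 2 + e.2 ^ 2 = 1) (α : ℝ) (φ : P2 → ℂ) (x : P2) :
    IF (LL α (fun ξ => φ (ROTAux.rot e ξ))) x = IF (LL α φ) (ROTAux.rot e x) := by
  rw [← IF_rot he]
  congr 1
  funext ξ
  simp only [LL, nm_rot he]

lemma nm_snd (s : ℝ) : nm ((0, s) : P2) = |s| := by
  unfold nm
  simp only
  rw [show (0 : ℝ) ^ 2 + s ^ 2 = s ^ 2 by ring, Real.sqrt_sq_eq_abs]

end RFIAux

open RFIAux ROTAux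

theorem rfi (hRf : Stmt_RFL) : Stmt_RFI := by
  intro α β hα hα2 hβ hβ1
  obtain ⟨c₁, c₂, hc1, hc11, hc2, H⟩ := hRf α β β hα hα2 hβ hβ1 hβ hβ1
  refine ⟨c₂, hc2, ?_⟩
  intro f φ N hf hN hH x h hh hx hmax
  set L := nm h with hL
  have hL2 : L ^ 2 = h.1 ^ 2 + h.2 ^ 2 := by
    rw [hL, nm, Real.sq_sqrt (by positivity)]
  have hL0 : L ≠ 0 := hh.ne'
  obtain ⟨e, hedef⟩ : ∃ e : P2, e = (h.2 / L, -h.1 / L) := ⟨_, rfl⟩
  have he : e.1 ^ 2 + e.2 ^ 2 = 1 := by
    rw [hedef]
    simp only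
    field_simp
    linarith
  have hrh : ROTAux.rot e ((0, L) : P2) = h := by
    rw [hedef]
    simp only [ROTAux.rot]
    ext
    · simp only
      field_simp
      ring
    · simp only
      field_simp
      ring
  set y₀ := ROTAux.rot (e.1, -e.2) x with hy0
  have hry : ROTAux.rot e y₀ = x := rot_inv' he x
  have hnf := nf_rot hf he
  have hH2 : H2s (fun x => f (ROTAux.rot e x)) 0 β N β := by
    intro y s
    have h1 := hH (ROTAux.rot e (y.1, y.2 + s)) (ROTAux.rot e y)
    rw [← rot_sub, nm_rot he] at h1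
    have h2 : ((y.1, y.2 + s) : P2) - y = (0, s) := by
      ext
      · simp
      · simp
    rw [h2, nm_snd] at h1
    simpa using h1
  have key := H (fun x => f (ROTAux.rot e x)) (fun ξ => φ (ROTAux.rot e ξ)) hnf 0 N 0 y₀ ((0, L) : P2)
    le_rfl hN hH2 hL0 (fun y => by simp) (by
      simp only [zero_mul, zero_add, abs_of_pos hh]
      exact mul_nonneg hc1.le (mul_nonneg hN (Real.rpow_nonneg hh.le _))) (by
      simp only [zero_mul, zero_add, abs_of_pos hh, rot_add, hrh, hry]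
      exact hx) (by
      intro y
      simp only [rot_add, hrh, hry]
      exact hmax _)
  rw [ll_rot he, ll_rot he, rot_add, hrh, hry] at key
  simp only [zero_mul, zero_add, abs_of_pos hh] at key
  calc c₂ * N * L ^ (β - 2 * α) = c₂ * (N * L ^ β) * L ^ (-2 * α) := by
        rw [show β - 2 * α = β + -2 * α by ring, Real.rpow_add hh]
        ring
    _ ≤ _ := key

end Pool.Agent.SQG
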