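import Pool.Agent.SQG.Stmts6
import Pool.Agent.SQG.Lb

/-!
# The dissipation at a maximum, by reflection coupling (module RFL)
-/

set_option autoImplicit false

namespace Pool.Agent.SQG

open Complex MeasureTheory Set Filter Topology ProbabilityTheory

namespace RFLAux

/-- one Gaussian variable -/
noncomputable abbrev gr : Measure ℝ := gaussianReal 0 1

theorem mp_neg : MeasurePreserving (fun z : ℝ => -z) gr gr := by
  refine ⟨measurable_neg, ?_⟩
  have h := gaussianReal_map_neg (μ := 0) (v := 1)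
  rw [neg_zero] at h
  exact h

theorem mp_refl : MeasurePreserving (fun z : P2 => ((z.1, -z.2) : P2)) gm gm := by
  have h := (MeasurePreserving.id gr).prod mp_neg
  exact h

theorem me_refl : MeasurableEmbedding (fun z : P2 => ((z.1, -z.2) : P2)) := by
  let e : P2 ≃ᵐ P2 :=
    { toFun := fun z => (z.1, -z.2)
      invFun := fun z => (z.1, -z.2)
      left_inv := fun z => by simp
      right_inv := fun z => by simp
      measurable_toFun := by
        simp only [Equiv.coe_fn_mk]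
        fun_prop
      measurable_invFun := by
        simp only [Equiv.coe_fn_symm_mk]
        fun_prop }
  exact e.measurableEmbedding

theorem av_refl (f : P2 → ℝ) (r : ℝ) (x : P2) :
    Av r f x = ∫ z : P2, f (x.1 + r * z.1, x.2 - r * z.2) ∂gm := by
  have h := mp_refl.integral_comp me_refl (fun z : P2 => f (x.1 + r * z.1, x.2 + r * z.2))
  unfold Av
  rw [← h]
  refine integral_congr_ae (Filter.Eventually.of_forall fun z => ?_)
  show f (x.1 + r * z.1, x.2 + r * -z.2) = f (x.1 + r * z.1, x.2 - r * z.2)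
  rw [mul_neg, ← sub_eq_add_neg]

theorem int_id : Integrable (fun z : ℝ => z) gr := by
  have h := (memLp_id_gaussianReal (μ := 0) (v := 1) 1).integrable (by norm_num)
  exact h

theorem int_pow (a b β : ℝ) (hβ : 0 < β) (hβ1 : β < 1) :
    Integrable (fun z : ℝ => |a + b * z| ^ β) gr := by
  have h1 : Integrable (fun z : ℝ => 1 + |a + b * z|) gr :=
    (integrable_const _).add ((integrable_const a).add (int_id.const_mul b)).abs
  refine h1.mono' ?_ (Filter.Eventually.of_forall fun z => ?_)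
  · exact (Measurable.pow_const (by fun_prop) β).aestronglyMeasurable
  · have h2 : 0 ≤ |a + b * z| := abs_nonneg _
    rw [Real.norm_eq_abs, abs_of_nonneg (Real.rpow_nonneg h2 _)]
    rcases le_total (|a + b * z|) 1 with h3 | h3
    · have h4 := Real.rpow_le_one h2 h3 hβ.le
      linarith
    · have h4 : |a + b * z| ^ β ≤ |a + b * z| ^ (1 : ℝ) := Real.rpow_le_rpow_of_exponent_le h3 hβ1.le
      rw [Real.rpow_one] at h4
      linarith

theorem gm_snd (F : ℝ → ℝ) : ∫ z : P2, F z.2 ∂gm = ∫ z, F z ∂gr := by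
  unfold gm
  rw [integral_fun_snd]
  simp

theorem int_gm_pow (a b β : ℝ) (hβ : 0 < β) (hβ1 : β < 1) :
    Integrable (fun z : P2 => |a + b * z.2| ^ β) gm := by
  have h := Integrable.comp_snd (int_pow a b β hβ hβ1) gr
  exact h

/-- the Gaussian integral of the reflected increments -/
theorem pow_le (β c ρ h : ℝ) (hh : h ≠ 0)
    (hP : ∫ z, |1 + 2 * ρ * z| ^ β ∂gr ≤ 1 - c * ρ ^ 2) :
    ∫ z : P2, |h + 2 * (ρ * |h|) * z.2| ^ β ∂gm ≤ (1 - c * ρ ^ 2) * |h| ^ β := by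
  rw [gm_snd (fun z => |h + 2 * (ρ * |h|) * z| ^ β)]
  have hpos : 0 < |h| := abs_pos.2 hh
  have key : ∫ z, |h + 2 * (ρ * |h|) * z| ^ β ∂gr = |h| ^ β * ∫ z, |1 + 2 * ρ * z| ^ β ∂gr := by
    rw [← integral_const_mul]
    rcases lt_or_gt_of_ne hh with h1 | h1
    · have h2 : MeasurableEmbedding (fun z : ℝ => -z) := (MeasurableEquiv.neg ℝ).measurableEmbedding
      have h3 := mp_neg.integral_comp h2 (fun z : ℝ => |h| ^ β * |1 + 2 * ρ * z| ^ β)
      rw [← h3]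
      refine integral_congr_ae (Filter.Eventually.of_forall fun z => ?_)
      beta_reduce
      rw [← Real.mul_rpow (abs_nonneg _) (abs_nonneg _), ← abs_mul, abs_of_neg h1]
      congr 1
      congr 1
      ring
    · refine integral_congr_ae (Filter.Eventually.of_forall fun z => ?_)
      beta_reduce
      rw [← Real.mul_rpow (abs_nonneg _) (abs_nonneg _), ← abs_mul, abs_of_pos h1]
      congr 1
      congr 1
      ring
  rw [key, mul_comm]
  exact mul_le_mul_of_nonneg_right hP (Real.rpow_nonneg hpos.le _)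

/-- the reflection coupling -/
theorem couple {f : P2 → ℝ} (hc : Continuous f) {B : ℝ} (hB : ∀ x, |f x| ≤ B)
    {β₁ β₂ N₁ N₂ G c ρ : ℝ} (hβ₁ : 0 < β₁) (hβ₁1 : β₁ < 1) (hβ₂ : 0 < β₂) (hβ₂1 : β₂ < 1)
    (hN₁ : 0 ≤ N₁) (hN₂ : 0 ≤ N₂) (hf : H2s f N₁ β₁ N₂ β₂) (x h : P2) (hh : h.2 ≠ 0)
    (hG : ∀ y : P2, |f (y.1 + h.1, y.2) - f y| ≤ G)
    (hP₁ : ∫ z, |1 + 2 * ρ * z| ^ β₁ ∂gr ≤ 1 - c * ρ ^ 2)
    (hP₂ : ∫ z, |1 + 2 * ρ * z| ^ β₂ ∂gr ≤ 1 - c * ρ ^ 2) :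
    Av (ρ * |h.2|) f (x + h) - Av (ρ * |h.2|) f x ≤
      G + (1 - c * ρ ^ 2) * (N₁ * |h.2| ^ β₁ + N₂ * |h.2| ^ β₂) := by
  set r : ℝ := ρ * |h.2| with hr
  rw [av_refl f r x]
  unfold Av
  have i1 : Integrable (fun z : P2 => f ((x + h).1 + r * z.1, (x + h).2 + r * z.2)) gm :=
    LBAux.av_int hc hB r (x + h)
  have i2 : Integrable (fun z : P2 => f (x.1 + r * z.1, x.2 - r * z.2)) gm := by
    have h1 : Continuous fun z : P2 => f (x.1 + r * z.1, x.2 - r * z.2) := by fun_prop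
    exact Integrable.of_bound h1.aestronglyMeasurable B
      (Filter.Eventually.of_forall fun z => by rw [Real.norm_eq_abs]; exact hB _)
  have j1 := (int_gm_pow h.2 (2 * r) β₁ hβ₁ hβ₁1).const_mul N₁
  have j2 := (int_gm_pow h.2 (2 * r) β₂ hβ₂ hβ₂1).const_mul N₂
  rw [← integral_sub i1 i2]
  have hle : ∀ z : P2, f ((x + h).1 + r * z.1, (x + h).2 + r * z.2) - f (x.1 + r * z.1, x.2 - r * z.2) ≤
      G + (N₁ * |h.2 + 2 * r * z.2| ^ β₁ + N₂ * |h.2 + 2 * r * z.2| ^ β₂) := by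
    intro z
    have h1 := (le_abs_self _).trans (hG (x.1 + r * z.1, x.2 + h.2 + r * z.2))
    have h2 := (le_abs_self _).trans (hf (x.1 + r * z.1, x.2 - r * z.2) (h.2 + 2 * r * z.2))
    have e1 : (((x + h).1 + r * z.1, (x + h).2 + r * z.2) : P2) =
        (x.1 + r * z.1 + h.1, x.2 + h.2 + r * z.2) := by
      apply Prod.ext
      · simp only [Prod.fst_add]; ring
      · simp only [Prod.snd_add]
    have e2 : ((x.1 + r * z.1, x.2 - r * z.2 + (h.2 + 2 * r * z.2)) : P2) =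
        (x.1 + r * z.1, x.2 + h.2 + r * z.2) := by
      apply Prod.ext
      · rfl
      · show x.2 - r * z.2 + (h.2 + 2 * r * z.2) = x.2 + h.2 + r * z.2
        ring
    rw [e1]
    have h2' : f (x.1 + r * z.1, x.2 + h.2 + r * z.2) - f (x.1 + r * z.1, x.2 - r * z.2) ≤
        N₁ * |h.2 + 2 * r * z.2| ^ β₁ + N₂ * |h.2 + 2 * r * z.2| ^ β₂ := by
      rw [← e2]
      exact h2
    have h1' : f (x.1 + r * z.1 + h.1, x.2 + h.2 + r * z.2) -
        f (x.1 + r * z.1, x.2 + h.2 + r * z.2) ≤ G := h1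
    linarith
  have hmono := integral_mono (i1.sub i2) ((integrable_const G).add (j1.add j2)) hle
  have hcalc : ∫ z : P2, (G + (N₁ * |h.2 + 2 * r * z.2| ^ β₁ + N₂ * |h.2 + 2 * r * z.2| ^ β₂)) ∂gm =
      G + (N₁ * ∫ z : P2, |h.2 + 2 * r * z.2| ^ β₁ ∂gm + N₂ * ∫ z : P2, |h.2 + 2 * r * z.2| ^ β₂ ∂gm) := by
    have j12 : Integrable (fun z : P2 => N₁ * |h.2 + 2 * r * z.2| ^ β₁ +
        N₂ * |h.2 + 2 * r * z.2| ^ β₂) gm := j1.add j2
    rw [integral_add (integrable_const G) j12, integral_add j1 j2, integral_const_mul,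
      integral_const_mul]
    simp
  have hp1 := pow_le β₁ c ρ h.2 hh hP₁
  have hp2 := pow_le β₂ c ρ h.2 hh hP₂
  have hq1 := mul_le_mul_of_nonneg_left hp1 hN₁
  have hq2 := mul_le_mul_of_nonneg_left hp2 hN₂
  have hfin : ∫ z : P2, (f ((x + h).1 + r * z.1, (x + h).2 + r * z.2) -
      f (x.1 + r * z.1, x.2 - r * z.2)) ∂gm ≤
      ∫ z : P2, (G + (N₁ * |h.2 + 2 * r * z.2| ^ β₁ + N₂ * |h.2 + 2 * r * z.2| ^ β₂)) ∂gm := hmono
  rw [hcalc] at hfin
  refine hfin.trans ?_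
  rw [hr]
  linarith

end RFLAux

open RFLAux in
theorem rfl6 (hGA : Stmt_GA) (hD : Stmt_DER) (hP : Stmt_POW) : Stmt_RFL := by
  intro α β₁ β₂ hα hα2 hβ₁ hβ₁1 hβ₂ hβ₂1
  obtain ⟨hcL, hGA⟩ := hGA α hα hα2
  obtain ⟨ρ₁, k₁, hρ₁, hk₁, hk₁1, hP₁⟩ := hP β₁ hβ₁ hβ₁1
  obtain ⟨ρ₂, k₂, hρ₂, hk₂, hk₂1, hP₂⟩ := hP β₂ hβ₂ hβ₂1
  set ρ₀ : ℝ := min ρ₁ ρ₂ with hρ₀def
  have hρ₀ : 0 < ρ₀ := lt_min hρ₁ hρ₂
  set c : ℝ := min k₁ k₂ with hcdef
  have hc0 : 0 < c := lt_min hk₁ hk₂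
  set A : ℝ := c * ρ₀ ^ 2 / 8 with hA
  have hA0 : 0 < A := by positivity
  refine ⟨min 1 A, cL α * A * (ρ₀ / 2) * ρ₀ ^ (-1 - 2 * α), lt_min one_pos hA0, min_le_left _ _,
    by positivity, ?_⟩
  intro f φ hf N₁ N₂ G x h hN₁ hN₂ h2s hh hG hGle hΩ hmax
  obtain ⟨hc, ⟨B, hB⟩, -⟩ := hD f φ hf
  obtain ⟨hi1, he1⟩ := hGA f φ hf (x + h)
  obtain ⟨hi2, he2⟩ := hGA f φ hf x
  have hb : 0 < |h.2| := abs_pos.mpr hh
  set S : ℝ := N₁ * |h.2| ^ β₁ + N₂ * |h.2| ^ β₂ with hS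
  have hS0 : 0 ≤ S := by positivity
  set Ω : ℝ := f (x + h) - f x with hΩdef
  have hR : (IF (LL α φ) (x + h) - IF (LL α φ) x).re =
      cL α * ∫ r in Ioi (0 : ℝ), (Ω - (Av r f (x + h) - Av r f x)) * r ^ (-1 - 2 * α) := by
    rw [he1, he2, ← Complex.ofReal_sub, Complex.ofReal_re, ← mul_sub, ← integral_sub hi1 hi2]
    congr 1
    refine integral_congr_ae (Filter.Eventually.of_forall fun r => ?_)
    simp only [hΩdef]
    ring
  have hint : IntegrableOn (fun r : ℝ => (Ω - (Av r f (x + h) - Av r f x)) * r ^ (-1 - 2 * α))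
      (Ioi 0) := by
    refine (hi1.sub hi2).congr (Filter.Eventually.of_forall fun r => ?_)
    simp only [hΩdef, Pi.sub_apply]
    ring
  have hnn : ∀ r : ℝ, 0 ≤ Ω - (Av r f (x + h) - Av r f x) := by
    intro r
    have h3 : Av r f (x + h) - Av r f x ≤ Ω := by
      refine LBAux.av_le hc hB r x (x + h) Ω fun z => ?_
      have h4 := hmax (x.1 + r * z.1, x.2 + r * z.2)
      have h5 : ((x + h).1 + r * z.1, (x + h).2 + r * z.2) =
          ((x.1 + r * z.1, x.2 + r * z.2) : P2) + h := by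
        apply Prod.ext
        · simp only [Prod.fst_add]; ring
        · simp only [Prod.snd_add]; ring
      rw [h5]
      exact h4
    linarith
  -- the lower bound for `ρ₀ b / 2 ≤ r ≤ ρ₀ b`
  have hlow : ∀ r ∈ Ioc (ρ₀ * |h.2| / 2) (ρ₀ * |h.2|),
      A * S * (ρ₀ * |h.2|) ^ (-1 - 2 * α) ≤ (Ω - (Av r f (x + h) - Av r f x)) * r ^ (-1 - 2 * α) := by
    intro r hr
    have hr0 : 0 < r := lt_trans (by positivity) hr.1
    set ρ : ℝ := r / |h.2| with hρ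
    have hρr : ρ * |h.2| = r := div_mul_cancel₀ r hb.ne'
    have hρle : ρ ≤ ρ₀ := by
      rw [hρ, div_le_iff₀ hb]
      exact hr.2
    have hρge : ρ₀ / 2 ≤ ρ := by
      rw [hρ, le_div_iff₀ hb]
      have := hr.1.le
      linarith
    have hρ0 : 0 < ρ := div_pos hr0 hb
    have q1 : ∫ z, |1 + 2 * ρ * z| ^ β₁ ∂gr ≤ 1 - c * ρ ^ 2 := by
      have h1 := hP₁ ρ hρ0 (hρle.trans (min_le_left _ _))
      have h2 : c * ρ ^ 2 ≤ k₁ * ρ ^ 2 := mul_le_mul_of_nonneg_right (min_le_left _ _) (by positivity)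
      linarith
    have q2 : ∫ z, |1 + 2 * ρ * z| ^ β₂ ∂gr ≤ 1 - c * ρ ^ 2 := by
      have h1 := hP₂ ρ hρ0 (hρle.trans (min_le_right _ _))
      have h2 : c * ρ ^ 2 ≤ k₂ * ρ ^ 2 := mul_le_mul_of_nonneg_right (min_le_right _ _) (by positivity)
      linarith
    have h3 := couple hc hB hβ₁ hβ₁1 hβ₂ hβ₂1 hN₁ hN₂ h2s x h hh hG q1 q2
    rw [hρr, ← hS] at h3
    have h4 : G ≤ A * S := hGle.trans (mul_le_mul_of_nonneg_right (min_le_right _ _) hS0)
    have h5 : (ρ₀ / 2) ^ 2 ≤ ρ ^ 2 := pow_le_pow_left₀ (by positivity) hρge 2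
    have h6 : c * (ρ₀ / 2) ^ 2 * S ≤ c * ρ ^ 2 * S :=
      mul_le_mul_of_nonneg_right (mul_le_mul_of_nonneg_left h5 hc0.le) hS0
    have h7 : A * S ≤ Ω - (Av r f (x + h) - Av r f x) := by
      have e : c * (ρ₀ / 2) ^ 2 * S = 2 * (A * S) := by
        rw [hA]
        ring
      rw [e] at h6
      linarith
    have h8 : (ρ₀ * |h.2|) ^ (-1 - 2 * α) ≤ r ^ (-1 - 2 * α) :=
      Real.rpow_le_rpow_of_nonpos hr0 hr.2 (by linarith)
    exact mul_le_mul h7 h8 (Real.rpow_nonneg (by positivity) _) (hnn r)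
  have hlt : ρ₀ * |h.2| / 2 ≤ ρ₀ * |h.2| := by
    have : 0 < ρ₀ * |h.2| := by positivity
    linarith
  have hsub : Ioc (ρ₀ * |h.2| / 2) (ρ₀ * |h.2|) ⊆ Ioi (0 : ℝ) := by
    intro r hr
    exact lt_trans (by positivity) hr.1
  have hI : ρ₀ * |h.2| / 2 * (A * S * (ρ₀ * |h.2|) ^ (-1 - 2 * α)) ≤
      ∫ r in Ioi (0 : ℝ), (Ω - (Av r f (x + h) - Av r f x)) * r ^ (-1 - 2 * α) := by
    have h3 : ∫ _ in Ioc (ρ₀ * |h.2| / 2) (ρ₀ * |h.2|), A * S * (ρ₀ * |h.2|) ^ (-1 - 2 * α) =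
        ρ₀ * |h.2| / 2 * (A * S * (ρ₀ * |h.2|) ^ (-1 - 2 * α)) := by
      rw [setIntegral_const, smul_eq_mul, Real.volume_real_Ioc_of_le hlt]
      congr 1
      ring
    rw [← h3]
    calc ∫ _ in Ioc (ρ₀ * |h.2| / 2) (ρ₀ * |h.2|), A * S * (ρ₀ * |h.2|) ^ (-1 - 2 * α)
        ≤ ∫ r in Ioc (ρ₀ * |h.2| / 2) (ρ₀ * |h.2|),
            (Ω - (Av r f (x + h) - Av r f x)) * r ^ (-1 - 2 * α) := by
          refine setIntegral_mono_on ?_ (hint.mono_set hsub) measurableSet_Ioc hlow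
          exact integrableOn_const (by simp)
      _ ≤ _ := by
          refine setIntegral_mono_set hint ?_ hsub.eventuallyLE
          refine (ae_restrict_iff' measurableSet_Ioi).mpr
            (Filter.Eventually.of_forall fun r hr => ?_)
          exact mul_nonneg (hnn r) (Real.rpow_nonneg (le_of_lt hr) _)
  rw [hR]
  have h7 := mul_le_mul_of_nonneg_left hI hcL.le
  refine le_trans (le_of_eq ?_) h7
  have e1 : (ρ₀ * |h.2|) ^ (-1 - 2 * α) = ρ₀ ^ (-1 - 2 * α) * |h.2| ^ (-1 - 2 * α) :=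
    Real.mul_rpow hρ₀.le hb.le
  have e2 : |h.2| ^ (-2 * α) = |h.2| * |h.2| ^ (-1 - 2 * α) := by
    have e3 : |h.2| * |h.2| ^ (-1 - 2 * α) = |h.2| ^ (1 : ℝ) * |h.2| ^ (-1 - 2 * α) := by
      rw [Real.rpow_one]
    rw [e3, ← Real.rpow_add hb]
    congr 1
    ring
  rw [e1, e2]
  ring

end Pool.Agent.SQG
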