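import Pool.Agent.SQG.Stmts

/-!
# Hölder regularity in one direction excludes blow-up: the bootstrap step
-/

set_option autoImplicit false

namespace Pool.Agent.SQG

open Complex MeasureTheory Set Filter Topology ProbabilityTheory

namespace STPAux

theorem H1_mono {f : P2 → ℝ} {M M' δ : ℝ} (h : H1 f M δ) (hM : M ≤ M') : H1 f M' δ :=
  fun x a => (h x a).trans
    (mul_le_mul_of_nonneg_right hM (Real.rpow_nonneg (abs_nonneg _) _))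

theorem H2_mono {f : P2 → ℝ} {M M' δ : ℝ} (h : H2 f M δ) (hM : M ≤ M') : H2 f M' δ :=
  fun x a => (h x a).trans
    (mul_le_mul_of_nonneg_right hM (Real.rpow_nonneg (abs_nonneg _) _))

/-- `(a + b)^δ ≤ 2 b^(lam δ)` for `a ≤ b^lam`. -/
theorem sum_rpow {a b lam δ : ℝ} (ha : 0 ≤ a) (h0 : 0 < b) (h1 : b ≤ 1) (hl : a ≤ b ^ lam)
    (hlam : lam ≤ 1) (hδ : 0 ≤ δ) (hδ1 : δ ≤ 1) : (a + b) ^ δ ≤ 2 * b ^ (lam * δ) := by
  have hb : b ≤ b ^ lam := by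
    calc b = b ^ (1 : ℝ) := (Real.rpow_one _).symm
      _ ≤ b ^ lam := Real.rpow_le_rpow_of_exponent_ge h0 h1 hlam
  have h2 : a + b ≤ 2 * b ^ lam := by linarith
  calc (a + b) ^ δ ≤ (2 * b ^ lam) ^ δ := Real.rpow_le_rpow (by positivity) h2 hδ
    _ = 2 ^ δ * b ^ (lam * δ) := by
        rw [Real.mul_rpow (by norm_num) (Real.rpow_nonneg h0.le _), ← Real.rpow_mul h0.le]
    _ ≤ 2 ^ (1 : ℝ) * b ^ (lam * δ) := by
        apply mul_le_mul_of_nonneg_right _ (Real.rpow_nonneg h0.le _)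
        exact Real.rpow_le_rpow_of_exponent_le (by norm_num) hδ1
    _ = _ := by rw [Real.rpow_one]

/-- Interpolation of the two Hölder bounds. -/
theorem H2_interp {f : P2 → ℝ} {M N δ β : ℝ} (hM : 1 ≤ M) (hN : M ≤ N) (hβ : δ ≤ β)
    (hf : H2 f M δ)
    (hg : ∀ (x : P2) (a : ℝ), 0 < |a| → |a| ≤ 1 → |f (x.1, x.2 + a) - f x| ≤ N * |a| ^ β) :
    H2 f (√(M * N)) ((δ + β) / 2) := by
  intro x a
  have hs : 0 ≤ √(M * N) := Real.sqrt_nonneg _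
  rcases eq_or_ne a 0 with rfl | ha
  · have h0 : |f (x.1, x.2 + 0) - f x| = 0 := by simp
    rw [h0]
    exact mul_nonneg hs (Real.rpow_nonneg (abs_nonneg _) _)
  have ha0 : 0 < |a| := abs_pos.2 ha
  have hM0 : 0 ≤ M := by linarith
  have hN0 : 0 ≤ N := by linarith
  have hA := hf x a
  rcases le_total |a| 1 with h1 | h1
  · have hB := hg x a ha0 h1
    have hsq : (√(M * N) * |a| ^ ((δ + β) / 2)) ^ 2 = (M * |a| ^ δ) * (N * |a| ^ β) := by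
      rw [mul_pow, Real.sq_sqrt (mul_nonneg hM0 hN0)]
      have h2 : (|a| ^ ((δ + β) / 2)) ^ 2 = |a| ^ δ * |a| ^ β := by
        rw [pow_two, ← Real.rpow_add ha0, ← Real.rpow_add ha0]
        congr 1
        ring
      rw [h2]
      ring
    have hX : |f (x.1, x.2 + a) - f x| ^ 2 ≤ (√(M * N) * |a| ^ ((δ + β) / 2)) ^ 2 := by
      rw [hsq, pow_two]
      exact mul_le_mul hA hB (abs_nonneg _)
        (mul_nonneg hM0 (Real.rpow_nonneg (abs_nonneg _) _))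
    exact le_of_sq_le_sq hX (mul_nonneg hs (Real.rpow_nonneg (abs_nonneg _) _))
  · have h3 : M ≤ √(M * N) := by
      apply Real.le_sqrt_of_sq_le
      nlinarith
    have h4 : |a| ^ δ ≤ |a| ^ ((δ + β) / 2) :=
      Real.rpow_le_rpow_of_exponent_le h1 (by linarith)
    exact hA.trans (mul_le_mul h3 h4 (Real.rpow_nonneg (abs_nonneg _) _) hs)

/-- The parameters of the bootstrap step. -/
structure Par (α δ₁ δ₂ lam β : ℝ) : Prop where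
  hα : 0 < α
  hδ₁ : 0 < δ₁
  hδ₁' : δ₁ < 1
  hδ₂ : 0 ≤ δ₂
  hδ₂' : δ₂ < 1
  hlam : 0 < lam
  hlam' : lam < 1
  hβ : δ₂ < β
  hβ' : β < lam
  hβ'' : β ≤ lam * δ₁
  e1 : lam * (δ₁ + 2 * α) = 1
  e2 : β = 1 - lam * (1 - δ₂)

theorem par {α δ₁ δ₂ : ℝ} (hα : 0 < α) (hα' : α < 1 / 2) (h1 : 1 - 2 * α < δ₁) (h1' : δ₁ < 1)
    (h2 : 0 ≤ δ₂) (h2' : δ₂ ≤ 1 - 2 * α) :
    Par α δ₁ δ₂ (1 / (δ₁ + 2 * α)) (1 - (1 - δ₂) / (δ₁ + 2 * α)) := by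
  have hs : 1 < δ₁ + 2 * α := by linarith
  have hs0 : 0 < δ₁ + 2 * α := by linarith
  have hlam : 0 < 1 / (δ₁ + 2 * α) := by positivity
  have e1 : 1 / (δ₁ + 2 * α) * (δ₁ + 2 * α) = 1 := by field_simp
  have hlam' : 1 / (δ₁ + 2 * α) < 1 := by
    rw [div_lt_one hs0]; exact hs
  have e2 : 1 - (1 - δ₂) / (δ₁ + 2 * α) = 1 - 1 / (δ₁ + 2 * α) * (1 - δ₂) := by ring
  rw [e2]
  generalize 1 / (δ₁ + 2 * α) = lam at *
  refine ⟨hα, by linarith, h1', h2, by linarith, hlam, hlam', ?_, ?_, ?_, e1, rfl⟩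
  · nlinarith
  · nlinarith
  · nlinarith

/-- The first product. -/
theorem prod1 {α δ₁ δ₂ lam β a b U C M₁ K : ℝ} (P : Par α δ₁ δ₂ lam β) (ha : 0 ≤ a) (hb : 0 < b)
    (hb1 : b ≤ 1) (hab : a ≤ b ^ lam) (hC : 0 ≤ C) (hM : 0 ≤ M₁) (hK : 0 ≤ K)
    (hU : U ≤ C * K * (a + b) ^ ((δ₂ + β) / 2)) :
    U * (4 * M₁ * a * b ^ (lam * (δ₁ - 2))) ≤ 8 * C * M₁ * K * b ^ (β - 2 * α * lam) := by
  obtain ⟨hα, hδ₁, hδ₁', hδ₂, hδ₂', hlam, hlam', hβ, hβ', hβ'', e1, e2⟩ := P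
  have h1 : (a + b) ^ ((δ₂ + β) / 2) ≤ 2 * b ^ (lam * δ₂) := by
    refine (sum_rpow ha hb hb1 hab hlam'.le (by linarith) (by linarith)).trans ?_
    apply mul_le_mul_of_nonneg_left _ (by norm_num)
    apply Real.rpow_le_rpow_of_exponent_ge hb hb1
    nlinarith
  have h2 : a * b ^ (lam * (δ₁ - 2)) ≤ b ^ (lam * (δ₁ - 1)) := by
    calc a * b ^ (lam * (δ₁ - 2)) ≤ b ^ lam * b ^ (lam * (δ₁ - 2)) :=
          mul_le_mul_of_nonneg_right hab (Real.rpow_nonneg hb.le _)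
      _ = b ^ (lam * (δ₁ - 1)) := by
          rw [← Real.rpow_add hb]; congr 1; ring
  have h3 : b ^ (lam * δ₂) * b ^ (lam * (δ₁ - 1)) = b ^ (β - 2 * α * lam) := by
    rw [← Real.rpow_add hb]; congr 1; rw [e2]; linear_combination e1
  have h4 : 0 ≤ 4 * M₁ * a * b ^ (lam * (δ₁ - 2)) := by positivity
  calc U * (4 * M₁ * a * b ^ (lam * (δ₁ - 2)))
      ≤ C * K * (2 * b ^ (lam * δ₂)) * (4 * M₁ * a * b ^ (lam * (δ₁ - 2))) :=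
        mul_le_mul_of_nonneg_right
          (hU.trans (mul_le_mul_of_nonneg_left h1 (mul_nonneg hC hK))) h4
    _ = 8 * C * M₁ * K * b ^ (lam * δ₂) * (a * b ^ (lam * (δ₁ - 2))) := by ring
    _ ≤ 8 * C * M₁ * K * b ^ (lam * δ₂) * b ^ (lam * (δ₁ - 1)) :=
        mul_le_mul_of_nonneg_left h2 (by positivity)
    _ = 8 * C * M₁ * K * (b ^ (lam * δ₂) * b ^ (lam * (δ₁ - 1))) := by ring
    _ = _ := by rw [h3]

/-- The second product. -/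
theorem prod2 {α δ₁ δ₂ lam β a b U C M₁ N : ℝ} (P : Par α δ₁ δ₂ lam β) (ha : 0 ≤ a) (hb : 0 < b)
    (hb1 : b ≤ 1) (hab : a ≤ b ^ lam) (hC : 0 ≤ C) (hM : 0 ≤ M₁) (hN : 0 ≤ N)
    (hU : U ≤ C * M₁ * (a + b) ^ δ₁) :
    U * (N * β * b ^ (β - 1) +
      2 * M₁ * a ^ 2 * (lam * (2 - δ₁)) * b ^ (lam * (δ₁ - 2) - 1)) ≤
      2 * C * M₁ * (N + 4 * M₁) * b ^ (β - 2 * α * lam) := by
  obtain ⟨hα, hδ₁, hδ₁', hδ₂, hδ₂', hlam, hlam', hβ, hβ', hβ'', e1, e2⟩ := P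
  have h1 : (a + b) ^ δ₁ ≤ 2 * b ^ (lam * δ₁) :=
    sum_rpow ha hb hb1 hab hlam'.le hδ₁.le hδ₁'.le
  have hβ0 : 0 ≤ β := by linarith
  have hbp : 0 < b ^ lam := Real.rpow_pos_of_pos hb _
  have h2 : a ^ 2 * b ^ (lam * (δ₁ - 2) - 1) ≤ b ^ (β - 1) := by
    calc a ^ 2 * b ^ (lam * (δ₁ - 2) - 1) ≤ (b ^ lam) ^ 2 * b ^ (lam * (δ₁ - 2) - 1) :=
          mul_le_mul_of_nonneg_right (pow_le_pow_left₀ ha hab 2) (Real.rpow_nonneg hb.le _)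
      _ = b ^ (lam * δ₁ - 1) := by
          rw [pow_two, ← Real.rpow_add hb, ← Real.rpow_add hb]; congr 1; ring
      _ ≤ b ^ (β - 1) := Real.rpow_le_rpow_of_exponent_ge hb hb1 (by linarith)
  have h3 : N * β * b ^ (β - 1) +
      2 * M₁ * a ^ 2 * (lam * (2 - δ₁)) * b ^ (lam * (δ₁ - 2) - 1) ≤
      (N + 4 * M₁) * b ^ (β - 1) := by
    have hp : 0 ≤ b ^ (β - 1) := Real.rpow_nonneg hb.le _
    have h4 : N * β * b ^ (β - 1) ≤ N * b ^ (β - 1) := by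
      apply mul_le_mul_of_nonneg_right _ hp
      nlinarith
    have h5 : lam * (2 - δ₁) ≤ 2 := by nlinarith
    have h6 : 0 ≤ lam * (2 - δ₁) := mul_nonneg hlam.le (by linarith)
    have h7 : 2 * M₁ * a ^ 2 * (lam * (2 - δ₁)) * b ^ (lam * (δ₁ - 2) - 1) =
        2 * M₁ * (lam * (2 - δ₁)) * (a ^ 2 * b ^ (lam * (δ₁ - 2) - 1)) := by ring
    have h8 : 2 * M₁ * (lam * (2 - δ₁)) * (a ^ 2 * b ^ (lam * (δ₁ - 2) - 1)) ≤
        2 * M₁ * (lam * (2 - δ₁)) * b ^ (β - 1) :=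
      mul_le_mul_of_nonneg_left h2 (by positivity)
    have h9 : 2 * M₁ * (lam * (2 - δ₁)) * b ^ (β - 1) ≤ 4 * M₁ * b ^ (β - 1) := by
      apply mul_le_mul_of_nonneg_right _ hp
      nlinarith
    rw [h7]
    linarith
  have h10 : 0 ≤ N * β * b ^ (β - 1) +
      2 * M₁ * a ^ 2 * (lam * (2 - δ₁)) * b ^ (lam * (δ₁ - 2) - 1) := by
    have h6 : 0 ≤ lam * (2 - δ₁) := mul_nonneg hlam.le (by linarith)
    positivity
  have h11 : b ^ (lam * δ₁) * b ^ (β - 1) = b ^ (β - 2 * α * lam) := by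
    rw [← Real.rpow_add hb]; congr 1; linear_combination e1
  calc U * (N * β * b ^ (β - 1) +
        2 * M₁ * a ^ 2 * (lam * (2 - δ₁)) * b ^ (lam * (δ₁ - 2) - 1))
      ≤ C * M₁ * (2 * b ^ (lam * δ₁)) * (N * β * b ^ (β - 1) +
        2 * M₁ * a ^ 2 * (lam * (2 - δ₁)) * b ^ (lam * (δ₁ - 2) - 1)) :=
        mul_le_mul_of_nonneg_right
          (hU.trans (mul_le_mul_of_nonneg_left h1 (mul_nonneg hC hM))) h10
    _ ≤ C * M₁ * (2 * b ^ (lam * δ₁)) * ((N + 4 * M₁) * b ^ (β - 1)) :=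
        mul_le_mul_of_nonneg_left h3 (by positivity)
    _ = 2 * C * M₁ * (N + 4 * M₁) * (b ^ (lam * δ₁) * b ^ (β - 1)) := by ring
    _ = _ := by rw [h11]

/-- The dissipation. -/
theorem prod3 {α δ₁ δ₂ lam β b M₂ N : ℝ} (P : Par α δ₁ δ₂ lam β) (hb : 0 < b) (hM : 0 < M₂)
    (hN : 0 ≤ N) :
    N / 2 * b ^ β * (N / 2 * b ^ β / (M₂ * b)) ^ (2 * α / (1 - δ₂)) =
      N / 2 * (N / (2 * M₂)) ^ (2 * α / (1 - δ₂)) * b ^ (β - 2 * α * lam) := by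
  obtain ⟨hα, hδ₁, hδ₁', hδ₂, hδ₂', hlam, hlam', hβ, hβ', hβ'', e1, e2⟩ := P
  have h1 : N / 2 * b ^ β / (M₂ * b) = N / (2 * M₂) * b ^ (β - 1) := by
    rw [Real.rpow_sub_one hb.ne']
    field_simp
  have h2 : (b ^ (β - 1)) ^ (2 * α / (1 - δ₂)) = b ^ (-(2 * α * lam)) := by
    rw [← Real.rpow_mul hb.le]
    congr 1
    have h3 : (1 - δ₂) ≠ 0 := by linarith
    rw [e2]
    field_simp
    ring
  rw [h1, Real.mul_rpow (by positivity) (Real.rpow_nonneg hb.le _), h2]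
  have h4 : b ^ (β - 2 * α * lam) = b ^ β * b ^ (-(2 * α * lam)) := by
    rw [← Real.rpow_add hb]; congr 1
  rw [h4]
  ring

/-- The numerical inequality at a touching point. -/
theorem core {α δ₁ δ₂ lam β a b U₁ U₂ D C₁ C₂ c κ M₁ M₂ N : ℝ} (P : Par α δ₁ δ₂ lam β)
    (hκ : 0 < κ) (ha : 0 ≤ a) (hb : 0 < b)
    (hb1 : b ≤ 1) (hab : a ≤ b ^ lam) (hC₁ : 0 ≤ C₁) (hC₂ : 0 ≤ C₂) (hM₁ : 1 ≤ M₁) (hM₂ : 1 ≤ M₂)
    (hN₁ : 2 * M₁ ≤ N) (hN₂ : M₂ ≤ N)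
    (hU₁ : U₁ ≤ C₁ * √(M₂ * N) * (a + b) ^ ((δ₂ + β) / 2))
    (hU₂ : U₂ ≤ C₂ * M₁ * (a + b) ^ δ₁)
    (hD : c * (N / 2 * b ^ β) * (N / 2 * b ^ β / (M₂ * b)) ^ (2 * α / (1 - δ₂)) ≤ D)
    (hF : κ * D ≤ U₁ * (4 * M₁ * a * b ^ (lam * (δ₁ - 2))) +
      U₂ * (N * β * b ^ (β - 1) +
        2 * M₁ * a ^ 2 * (lam * (2 - δ₁)) * b ^ (lam * (δ₁ - 2) - 1))) :
    κ * c * (N / (2 * M₂)) ^ (2 * α / (1 - δ₂)) ≤ 16 * C₁ * M₁ + 12 * C₂ * M₁ := by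
  have hN : 0 < N := by linarith
  have hE : 0 < b ^ (β - 2 * α * lam) := Real.rpow_pos_of_pos hb _
  have h1 := prod1 P ha hb hb1 hab hC₁ (by linarith : (0 : ℝ) ≤ M₁) (Real.sqrt_nonneg _) hU₁
  have h2 := prod2 P ha hb hb1 hab hC₂ (by linarith : (0 : ℝ) ≤ M₁) hN.le hU₂
  have h3 := prod3 P hb (by linarith : (0 : ℝ) < M₂) hN.le
  have h4 : c * (N / 2 * b ^ β) * (N / 2 * b ^ β / (M₂ * b)) ^ (2 * α / (1 - δ₂)) =
      c * (N / 2 * (N / (2 * M₂)) ^ (2 * α / (1 - δ₂)) * b ^ (β - 2 * α * lam)) := by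
    rw [← h3]; ring
  rw [h4] at hD
  have h5 : √(M₂ * N) ≤ N := by
    rw [Real.sqrt_le_left hN.le]
    nlinarith
  have h6 := mul_le_mul_of_nonneg_left hD hκ.le
  set G := (N / (2 * M₂)) ^ (2 * α / (1 - δ₂)) with hG
  set E := b ^ (β - 2 * α * lam) with hEd
  have h7 : (κ * c * G * (N / 2)) * E ≤ (8 * C₁ * M₁ * √(M₂ * N) + 2 * C₂ * M₁ * (N + 4 * M₁)) * E := by
    linarith
  have h8 := le_of_mul_le_mul_right h7 hE
  have h9 : 8 * C₁ * M₁ * √(M₂ * N) ≤ 8 * C₁ * M₁ * N :=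
    mul_le_mul_of_nonneg_left h5 (by positivity)
  have h10 : 2 * C₂ * M₁ * (N + 4 * M₁) ≤ 2 * C₂ * M₁ * (3 * N) :=
    mul_le_mul_of_nonneg_left (by linarith) (by positivity)
  have h11 : (κ * c * G) * (N / 2) ≤ (16 * C₁ * M₁ + 12 * C₂ * M₁) * (N / 2) := by
    linarith
  exact le_of_mul_le_mul_right h11 (by linarith)

theorem exists_N {κ c g A₁ A₂ R M₀ L₀ : ℝ} (hκ : 0 < κ) (hc : 0 < c) (hg : 0 < g) (hA₂ : 0 < A₂) :
    ∃ N, 2 * A₁ ≤ N ∧ A₂ ≤ N ∧ 2 * M₀ < N ∧ 2 * L₀ < N ∧ R < κ * c * (N / (2 * A₂)) ^ g := by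
  have h1 : Tendsto (fun N : ℝ => N / (2 * A₂)) atTop atTop :=
    tendsto_id.atTop_div_const (by positivity)
  have h2 : Tendsto (fun N : ℝ => κ * c * (N / (2 * A₂)) ^ g) atTop atTop :=
    ((tendsto_rpow_atTop hg).comp h1).const_mul_atTop (mul_pos hκ hc)
  obtain ⟨N, h⟩ := ((eventually_ge_atTop (2 * A₁)).and ((eventually_ge_atTop A₂).and
    ((eventually_gt_atTop (2 * M₀)).and ((eventually_gt_atTop (2 * L₀)).and
      (h2.eventually_gt_atTop R))))).exists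
  exact ⟨N, h⟩

end STPAux

open STPAux in
/-- The bootstrap step. -/
theorem stp (hR : Stmt_REG) (hU : Stmt_UB) (hL : Stmt_LB) (hT : Stmt_TCH) (hF : Stmt_FOC) :
    Stmt_STP := by
  intro α κ T θ φ hα hα' hκ hS M₀ M₁ δ₁ M₂ δ₂ t₀ hM₀ hδ₁ hδ₁' hH1 hδ₂ hδ₂' ht₀ ht₀T hH2
  have P := par hα hα' hδ₁ hδ₁' hδ₂ hδ₂'
  generalize hlamd : 1 / (δ₁ + 2 * α) = lam at P
  generalize 1 - (1 - δ₂) / (δ₁ + 2 * α) = β at P ⊢
  have hδ₂1 : δ₂ < 1 := P.hδ₂'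
  have hβ0 : 0 < β := by have := P.hβ; linarith
  have hβ1 : β < 1 := P.hβ'.trans P.hlam'
  obtain ⟨hNF, hReg⟩ := hR α κ T θ φ hS
  obtain ⟨L₀, hL₀, hlip⟩ := hReg.lip t₀ t₀ ht₀ ht₀T
  obtain ⟨C₁, hC₁, hUB1⟩ := hU ((δ₂ + β) / 2) (by linarith) (by linarith)
  obtain ⟨C₂, hC₂, hUB2⟩ := hU δ₁ P.hδ₁ P.hδ₁'
  obtain ⟨c, hc, hLB⟩ := hL α δ₂ hα hα' hδ₂ hδ₂1
  have hA₁ : 1 ≤ max M₁ 1 := le_max_right _ _
  have hA₂ : 1 ≤ max M₂ 1 := le_max_right _ _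
  have hH1' : ∀ t ∈ Ioo 0 T, H1 (θ t) (max M₁ 1) δ₁ := fun t ht =>
    H1_mono (hH1 t ht) (le_max_left _ _)
  have hH2' : ∀ t ∈ Ico t₀ T, H2 (θ t) (max M₂ 1) δ₂ := fun t ht =>
    H2_mono (hH2 t ht) (le_max_left _ _)
  generalize max M₁ 1 = A₁ at hA₁ hH1'
  generalize max M₂ 1 = A₂ at hA₂ hH2'
  have hg : 0 < 2 * α / (1 - δ₂) := div_pos (by linarith) (by linarith)
  obtain ⟨N, hN1, hN2, hN3, hN4, hN5⟩ := exists_N (A₁ := A₁) (R := 16 * C₁ * A₁ + 12 * C₂ * A₁)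
    (M₀ := M₀) (L₀ := L₀) hκ hc hg (by linarith : (0 : ℝ) < A₂)
  have hN : 0 < N := by linarith
  refine ⟨N, ?_⟩
  rcases hT T θ hReg M₀ A₁ δ₁ lam β N t₀ L₀ ht₀ ht₀T hM₀ (by linarith) hH1' P.hδ₁ hβ0 P.hβ'
    P.hlam' (fun x y => hlip t₀ ⟨le_rfl, le_rfl⟩ x y) hN3 hN4 with
    h | ⟨t, x, h, ht0, htT, hh0, hh1, hh, hOm, hall⟩
  · intro t ht x a
    rcases le_total |a| 1 with h1 | h1
    · exact h t ht x a h1
    · have htI : t ∈ Ioo 0 T := ⟨ht₀.trans_le ht.1, ht.2⟩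
      have e1 := hM₀ t htI (x.1, x.2 + a)
      have e2 := hM₀ t htI x
      have e3 : |θ t (x.1, x.2 + a) - θ t x| ≤ |θ t (x.1, x.2 + a)| + |θ t x| := abs_sub _ _
      have e4 : N ≤ N * |a| ^ β :=
        le_mul_of_one_le_right hN.le (Real.one_le_rpow h1 hβ0.le)
      linarith
  · exfalso
    have htI : t ∈ Ioo 0 T := ⟨ht₀.trans ht0, htT⟩
    have htJ : t ∈ Ico t₀ T := ⟨ht0.le, htT⟩
    have htK : t ∈ Icc t₀ t := ⟨ht0.le, le_rfl⟩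
    have hnf := hNF t htI
    have hRgh : h ∈ Rg lam := ⟨hh0, hh1.le, hh.le⟩
    have hF' := hF α κ T θ φ hS N A₁ β lam δ₁ t₀ t x h ht₀ ht0 htT (by linarith) hN.le hβ0.le
      P.hlam.le (by linarith) hh0 hh1 hh hOm hall
    have hmax : ∀ y, θ t (y + h) - θ t y ≤ θ t (x + h) - θ t x := fun y => by
      rw [hOm]
      exact (le_abs_self _).trans (hall t htK y h hRgh)
    have hI : H2 (θ t) (√(A₂ * N)) ((δ₂ + β) / 2) := by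
      refine H2_interp hA₂ hN2 P.hβ.le (hH2' t htJ) fun y a ha0 ha1 => ?_
      have h1 := hall t htK y (0, a) ⟨ha0, ha1, by
        show |(0 : ℝ)| ≤ |a| ^ lam
        rw [abs_zero]
        exact Real.rpow_nonneg (abs_nonneg _) _⟩
      have h2 : y + ((0 : ℝ), a) = (y.1, y.2 + a) := by
        ext
        · simp
        · simp
      have h3 : Om N A₁ β lam δ₁ (0, a) = N * |a| ^ β := by
        unfold Om
        simp
      rw [h2, h3] at h1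
      exact h1
    have hU1 := (hUB1 (θ t) (φ t) _ hnf (Real.sqrt_nonneg _)).2 hI x h
    have hU2 := (hUB2 (θ t) (φ t) A₁ hnf (by linarith)).1 (hH1' t htI) x h
    have hbβ : 0 < |h.2| ^ β := Real.rpow_pos_of_pos hh0 _
    have hY : N / 2 * |h.2| ^ β + A₁ * |h.1| ^ δ₁ ≤ θ t (x + h) - θ t x := by
      rw [hOm]
      unfold Om
      have h1 : |h.1| ^ δ₁ ≤ |h.2| ^ β := by
        calc |h.1| ^ δ₁ ≤ (|h.2| ^ lam) ^ δ₁ :=
              Real.rpow_le_rpow (abs_nonneg _) hh.le P.hδ₁.le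
          _ = |h.2| ^ (lam * δ₁) := (Real.rpow_mul hh0.le _ _).symm
          _ ≤ |h.2| ^ β := Real.rpow_le_rpow_of_exponent_ge hh0 hh1.le P.hβ''
      have h2 : A₁ * |h.1| ^ δ₁ ≤ N / 2 * |h.2| ^ β :=
        (mul_le_mul_of_nonneg_left h1 (by linarith)).trans
          (mul_le_mul_of_nonneg_right (by linarith) hbβ.le)
      have h3 : 0 ≤ 2 * A₁ * h.1 ^ 2 * |h.2| ^ (lam * (δ₁ - 2)) := by
        have : 0 ≤ A₁ := by linarith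
        positivity
      linarith
    have hD := hLB (θ t) (φ t) A₁ δ₁ A₂ hnf (hH1' t htI) (by linarith) (hH2' t htJ) x h
      (N / 2 * |h.2| ^ β) (abs_pos.1 hh0) (by positivity) hY hmax
    have hfin := core P hκ (abs_nonneg h.1) hh0 hh1.le hh.le hC₁.le hC₂.le hA₁ hA₂ hN1 hN2 hU1 hU2
      hD (by rw [sq_abs]; exact hF')
    linarith

end Pool.Agent.SQG
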