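import Pool.Agent.SQG.Stmts2
import Pool.Agent.SQG.Stp

/-!
# Directional regularity, integrable in time: the bootstrap step
-/

set_option autoImplicit false

namespace Pool.Agent.SQG

open Complex MeasureTheory Set Filter Topology ProbabilityTheory

namespace ST2Aux

/-- The first displacement is small. -/
theorem hbnd {a b K μ q d lam : ℝ} (ha : 0 ≤ a) (hb : 0 < b) (hK : 1 ≤ K) (hμ : 1 ≤ μ)
    (hq : 2 ≤ q) (hd : d < 1) (h : K * a ^ q * b ^ (-(lam * (q - d))) ≤ μ * a ^ d) :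
    a ≤ (μ / K) ^ (1 / (q - d)) * b ^ lam := by
  have hqd : 0 < q - d := by linarith
  have hK0 : 0 < K := by linarith
  have hμ0 : 0 < μ := by linarith
  rcases ha.eq_or_lt with h0 | h0
  · rw [← h0]
    positivity
  · have hbp : 0 < b ^ (lam * (q - d)) := Real.rpow_pos_of_pos hb _
    have had : 0 < a ^ d := Real.rpow_pos_of_pos h0 _
    have h1 : a ^ q = a ^ (q - d) * a ^ d := by
      rw [← Real.rpow_add h0]; congr 1; ring
    have h2 : a ^ (q - d) ≤ μ / K * b ^ (lam * (q - d)) := by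
      rw [h1, Real.rpow_neg hb.le] at h
      have h3 : K * a ^ (q - d) * (b ^ (lam * (q - d)))⁻¹ ≤ μ := by
        refine le_of_mul_le_mul_right ?_ had
        calc K * a ^ (q - d) * (b ^ (lam * (q - d)))⁻¹ * a ^ d
            = K * (a ^ (q - d) * a ^ d) * (b ^ (lam * (q - d)))⁻¹ := by ring
          _ ≤ μ * a ^ d := h
      rw [← div_eq_mul_inv, div_le_iff₀ hbp] at h3
      rw [div_mul_eq_mul_div, le_div_iff₀ hK0]
      linarith
    calc a = (a ^ (q - d)) ^ (1 / (q - d)) := by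
          rw [← Real.rpow_mul h0.le, mul_one_div_cancel hqd.ne', Real.rpow_one]
      _ ≤ (μ / K * b ^ (lam * (q - d))) ^ (1 / (q - d)) :=
          Real.rpow_le_rpow (by positivity) h2 (by positivity)
      _ = _ := by
          rw [Real.mul_rpow (by positivity) hbp.le, ← Real.rpow_mul hb.le]
          congr 2
          field_simp

theorem hbnd2 {a b K μ q d lam : ℝ} (hb : 0 < b) (hK : 1 ≤ K) (hμ : 1 ≤ μ)
    (hq : 2 ≤ q) (hd : d < 1) (h : a ≤ (μ / K) ^ (1 / (q - d)) * b ^ lam) :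
    a ≤ μ ^ (1 / (q - d)) * b ^ lam := by
  have hqd : 0 < q - d := by linarith
  refine h.trans (mul_le_mul_of_nonneg_right ?_ (Real.rpow_nonneg hb.le _))
  exact Real.rpow_le_rpow (by positivity) (div_le_self (by linarith) hK) (by positivity)

theorem hbnd3 {a b K μ q d lam : ℝ} (ha : 0 ≤ a) (hb : 0 < b) (hK : 1 ≤ K) (hμ : 1 ≤ μ)
    (hq : 2 ≤ q) (hd0 : 0 ≤ d) (hd : d < 1) (h : a ≤ (μ / K) ^ (1 / (q - d)) * b ^ lam) :
    K * a ^ (q - 1) * b ^ (-(lam * (q - d))) ≤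
      √K * μ ^ ((q - 1) / (q - d)) * b ^ (-(lam * (1 - d))) := by
  have hqd : 0 < q - d := by linarith
  have hK0 : 0 < K := by linarith
  have hμ0 : 0 < μ := by linarith
  have h1 : a ^ (q - 1) ≤ (μ / K) ^ ((q - 1) / (q - d)) * b ^ (lam * (q - 1)) := by
    calc a ^ (q - 1) ≤ ((μ / K) ^ (1 / (q - d)) * b ^ lam) ^ (q - 1) :=
          Real.rpow_le_rpow ha h (by linarith)
      _ = _ := by
          rw [Real.mul_rpow (by positivity) (by positivity), ← Real.rpow_mul (by positivity),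
            ← Real.rpow_mul hb.le]
          congr 2
          ring
  have h2 : K * (μ / K) ^ ((q - 1) / (q - d)) ≤ √K * μ ^ ((q - 1) / (q - d)) := by
    rw [Real.div_rpow hμ0.le hK0.le, mul_div_assoc', mul_comm K, mul_div_assoc, mul_comm (√K)]
    refine mul_le_mul_of_nonneg_left ?_ (by positivity)
    rw [Real.sqrt_eq_rpow]
    have h3 : K / K ^ ((q - 1) / (q - d)) = K ^ (1 - (q - 1) / (q - d)) := by
      rw [Real.rpow_sub hK0, Real.rpow_one]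
    rw [h3]
    refine Real.rpow_le_rpow_of_exponent_le hK ?_
    rw [sub_le_iff_le_add, ← sub_le_iff_le_add', le_div_iff₀ hqd]
    linarith
  have h4 : b ^ (lam * (q - 1)) * b ^ (-(lam * (q - d))) = b ^ (-(lam * (1 - d))) := by
    rw [← Real.rpow_add hb]; congr 1; ring
  have hbn : 0 ≤ b ^ (-(lam * (q - d))) := Real.rpow_nonneg hb.le _
  calc K * a ^ (q - 1) * b ^ (-(lam * (q - d)))
      ≤ K * ((μ / K) ^ ((q - 1) / (q - d)) * b ^ (lam * (q - 1))) * b ^ (-(lam * (q - d))) :=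
        mul_le_mul_of_nonneg_right (mul_le_mul_of_nonneg_left h1 hK0.le) hbn
    _ = (K * (μ / K) ^ ((q - 1) / (q - d))) * (b ^ (lam * (q - 1)) * b ^ (-(lam * (q - d)))) := by
        ring
    _ = (K * (μ / K) ^ ((q - 1) / (q - d))) * b ^ (-(lam * (1 - d))) := by rw [h4]
    _ ≤ _ := mul_le_mul_of_nonneg_right h2 (Real.rpow_nonneg hb.le _)

theorem hbnd4 {a b μ q d lam e : ℝ} (ha : 0 ≤ a) (hb : 0 < b) (hb1 : b ≤ 1) (hμ : 1 ≤ μ)
    (hq : 2 ≤ q) (hd : d < 1) (hlam : lam ≤ 1) (he : 0 ≤ e) (he1 : e ≤ 1)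
    (h : a ≤ μ ^ (1 / (q - d)) * b ^ lam) :
    (a + b) ^ e ≤ 2 * μ ^ (e / (q - d)) * b ^ (lam * e) := by
  have hqd : 0 < q - d := by linarith
  have hμ0 : 0 < μ := by linarith
  have h1 : b ≤ b ^ lam := by
    calc b = b ^ (1 : ℝ) := (Real.rpow_one _).symm
      _ ≤ b ^ lam := Real.rpow_le_rpow_of_exponent_ge hb hb1 hlam
  have h2 : 1 ≤ μ ^ (1 / (q - d)) := Real.one_le_rpow hμ (by positivity)
  have h3 : a + b ≤ 2 * (μ ^ (1 / (q - d)) * b ^ lam) := by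
    have h4 : b ^ lam ≤ μ ^ (1 / (q - d)) * b ^ lam :=
      le_mul_of_one_le_left (Real.rpow_nonneg hb.le _) h2
    linarith
  calc (a + b) ^ e ≤ (2 * (μ ^ (1 / (q - d)) * b ^ lam)) ^ e :=
        Real.rpow_le_rpow (by positivity) h3 he
    _ = 2 ^ e * (μ ^ (e / (q - d)) * b ^ (lam * e)) := by
        rw [Real.mul_rpow (by norm_num) (by positivity),
          Real.mul_rpow (by positivity) (by positivity), ← Real.rpow_mul hμ0.le,
          ← Real.rpow_mul hb.le]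
        congr 3
        ring
    _ ≤ 2 ^ (1 : ℝ) * (μ ^ (e / (q - d)) * b ^ (lam * e)) := by
        apply mul_le_mul_of_nonneg_right _ (by positivity)
        exact Real.rpow_le_rpow_of_exponent_le (by norm_num) he1
    _ = _ := by rw [Real.rpow_one]; ring

/-- The first product. -/
theorem prod1 {a b U C S K N μ q d lam e β : ℝ} (ha : 0 ≤ a) (hb : 0 < b)
    (hb1 : b ≤ 1) (hK : 1 ≤ K) (hμ : 1 ≤ μ) (hq : 2 ≤ q) (hd0 : 0 ≤ d) (hd : d < 1)
    (hlam : lam ≤ 1) (he : 0 ≤ e) (he1 : e ≤ 1) (hC : 0 ≤ C) (hS : 0 ≤ S) (hSK : S * √K ≤ N)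
    (h : a ≤ (μ / K) ^ (1 / (q - d)) * b ^ lam) (hU : U ≤ C * S * (a + b) ^ e) :
    U * (q * (K * a ^ (q - 1) * b ^ (-(lam * (q - d))))) ≤
      2 * q * C * (N * b ^ β) * (μ ^ ((q - 1 + e) / (q - d)) * b ^ (-(β - lam * (e + d - 1)))) := by
  have hqd : 0 < q - d := by linarith
  have hμ0 : 0 < μ := by linarith
  have hK0 : 0 < K := by linarith
  have h2 := hbnd2 hb hK hμ hq hd h
  have h3 := hbnd3 ha hb hK hμ hq hd0 hd h
  have h4 := hbnd4 ha hb hb1 hμ hq hd hlam he he1 h2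
  have h5 : 0 ≤ q * (K * a ^ (q - 1) * b ^ (-(lam * (q - d)))) := by positivity
  have h6 : μ ^ (e / (q - d)) * μ ^ ((q - 1) / (q - d)) = μ ^ ((q - 1 + e) / (q - d)) := by
    rw [← Real.rpow_add hμ0]; congr 1; ring
  have h7 : b ^ (lam * e) * b ^ (-(lam * (1 - d))) =
      b ^ β * b ^ (-(β - lam * (e + d - 1))) := by
    rw [← Real.rpow_add hb, ← Real.rpow_add hb]; congr 1; ring
  calc U * (q * (K * a ^ (q - 1) * b ^ (-(lam * (q - d)))))
      ≤ C * S * (2 * μ ^ (e / (q - d)) * b ^ (lam * e)) *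
        (q * (K * a ^ (q - 1) * b ^ (-(lam * (q - d))))) :=
        mul_le_mul_of_nonneg_right
          (hU.trans (mul_le_mul_of_nonneg_left h4 (mul_nonneg hC hS))) h5
    _ ≤ C * S * (2 * μ ^ (e / (q - d)) * b ^ (lam * e)) *
        (q * (√K * μ ^ ((q - 1) / (q - d)) * b ^ (-(lam * (1 - d))))) := by
        refine mul_le_mul_of_nonneg_left (mul_le_mul_of_nonneg_left h3 (by linarith)) ?_
        positivity
    _ = 2 * q * C * (S * √K) * ((μ ^ (e / (q - d)) * μ ^ ((q - 1) / (q - d))) *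
        (b ^ (lam * e) * b ^ (-(lam * (1 - d))))) := by ring
    _ ≤ 2 * q * C * N * ((μ ^ (e / (q - d)) * μ ^ ((q - 1) / (q - d))) *
        (b ^ (lam * e) * b ^ (-(lam * (1 - d))))) := by
        refine mul_le_mul_of_nonneg_right (mul_le_mul_of_nonneg_left hSK (by positivity)) ?_
        positivity
    _ = _ := by rw [h6, h7]; ring

/-- The second product. -/
theorem prod2 {a b U C K N μ q d lam p β Ω : ℝ} (ha : 0 ≤ a) (hb : 0 < b)
    (hb1 : b ≤ 1) (hK : 1 ≤ K) (hμ : 1 ≤ μ) (hq : 2 ≤ q) (hd0 : 0 ≤ d) (hd : d < 1)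
    (hlam : lam ≤ 1) (hC : 0 ≤ C) (hp : 0 ≤ p) (hN : 0 ≤ N) (hβ0 : 0 ≤ β) (hβ : β ≤ 1)
    (h : a ≤ (μ / K) ^ (1 / (q - d)) * b ^ lam) (hU : U ≤ C * μ * (a + b) ^ d)
    (hΩ : Ω = N * b ^ β + K * a ^ q * b ^ (-p)) :
    U * (N * β * b ^ (β - 1) + K * a ^ q * p * b ^ (-p - 1)) ≤
      2 * C * (1 + p) * Ω * (μ ^ (q / (q - d)) * b ^ (-(1 - lam * d))) := by
  have hqd : 0 < q - d := by linarith
  have hμ0 : 0 < μ := by linarith
  have hK0 : 0 < K := by linarith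
  have h2 := hbnd2 hb hK hμ hq hd h
  have h4 := hbnd4 ha hb hb1 hμ hq hd hlam hd0 hd.le h2
  have hΩ0 : 0 ≤ Ω := by rw [hΩ]; positivity
  have h8 : N * β * b ^ (β - 1) + K * a ^ q * p * b ^ (-p - 1) ≤ (1 + p) * Ω * b ^ (-1 : ℝ) := by
    have e1 : b ^ (β - 1) = b ^ β * b ^ (-1 : ℝ) := by
      rw [← Real.rpow_add hb]; congr 1
    have e2 : b ^ (-p - 1) = b ^ (-p) * b ^ (-1 : ℝ) := by
      rw [← Real.rpow_add hb]; congr 1
    rw [e1, e2, hΩ]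
    have e3 : 0 ≤ N * b ^ β * b ^ (-1 : ℝ) := by positivity
    have e4 : 0 ≤ K * a ^ q * b ^ (-p) * b ^ (-1 : ℝ) := by positivity
    nlinarith [mul_nonneg hp e3, mul_nonneg hp e4]
  have h9 : 0 ≤ (1 + p) * Ω * b ^ (-1 : ℝ) := by positivity
  have h6 : μ * μ ^ (d / (q - d)) = μ ^ (q / (q - d)) := by
    have : μ ^ (q / (q - d)) = μ ^ (1 + d / (q - d)) := by
      congr 1
      field_simp
      ring
    rw [this, Real.rpow_add hμ0, Real.rpow_one]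
  have h7 : b ^ (lam * d) * b ^ (-1 : ℝ) = b ^ (-(1 - lam * d)) := by
    rw [← Real.rpow_add hb]; congr 1; ring
  have h10 : 0 ≤ C * μ * (2 * μ ^ (d / (q - d)) * b ^ (lam * d)) := by positivity
  have h5 : 0 ≤ N * β * b ^ (β - 1) + K * a ^ q * p * b ^ (-p - 1) := by positivity
  calc U * (N * β * b ^ (β - 1) + K * a ^ q * p * b ^ (-p - 1))
      ≤ C * μ * (2 * μ ^ (d / (q - d)) * b ^ (lam * d)) *
        (N * β * b ^ (β - 1) + K * a ^ q * p * b ^ (-p - 1)) :=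
        mul_le_mul_of_nonneg_right
          (hU.trans (mul_le_mul_of_nonneg_left h4 (by positivity))) h5
    _ ≤ C * μ * (2 * μ ^ (d / (q - d)) * b ^ (lam * d)) * ((1 + p) * Ω * b ^ (-1 : ℝ)) :=
        mul_le_mul_of_nonneg_left h8 h10
    _ = 2 * C * (1 + p) * Ω * ((μ * μ ^ (d / (q - d))) * (b ^ (lam * d) * b ^ (-1 : ℝ))) := by
        ring
    _ = _ := by rw [h6, h7]

/-- The dissipation. -/
theorem prod3 {b M₂ N β γ σ : ℝ} (hb : 0 < b) (hM : 0 < M₂) (hN : 0 ≤ N)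
    (hγ : γ * (1 - β) = σ) :
    N * b ^ β / 2 * (N * b ^ β / 2 / (M₂ * b)) ^ γ =
      N / 2 * (N / (2 * M₂)) ^ γ * (b ^ β * b ^ (-σ)) := by
  have h1 : N * b ^ β / 2 / (M₂ * b) = N / (2 * M₂) * b ^ (β - 1) := by
    rw [Real.rpow_sub_one hb.ne']
    field_simp
  have h2 : (b ^ (β - 1)) ^ γ = b ^ (-σ) := by
    rw [← Real.rpow_mul hb.le]
    congr 1
    rw [← hγ]
    ring
  rw [h1, Real.mul_rpow (by positivity) (Real.rpow_nonneg hb.le _), h2]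
  ring

/-- The contradiction at a touching point. -/
theorem coreq (hNUM : Stmt_NUM)
    {r d β x lam q p σ γ e a b μ n N K Ω U₁ U₂ D C₁ C₂ C₃ c κ M₂ : ℝ}
    (hr : 1 < r) (hd0 : 0 < d) (hd : d < 1) (hβ0 : 0 < β) (hβ1 : β < 1)
    (hlam1 : lam ≤ 1) (hq2 : 2 ≤ q) (hpd : p = lam * (q - d)) (hp0 : 0 < p) (hσ0 : 0 < σ)
    (hγ0 : 0 < γ) (he0 : 0 ≤ e) (he1 : e ≤ 1) (hxq : x = 1 / ((q - d) * r)) (hx0 : 0 < x)
    (hqx : q * x ≤ 1) (hlamd : lam * d = 1 - σ * (1 - q * x)) (hσβ : σ ≤ 1 - β)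
    (hB1 : β - lam * (e + d - 1) ≤ σ * (1 - (q - 1 + e) * x))
    (hab : q * x * (1 - β) ≤ lam * d - β) (hγ : γ * (1 - β) = σ)
    (ha : 0 ≤ a) (hb : 0 < b) (hb1 : b ≤ 1) (hμ : 1 ≤ μ) (hM₂ : 1 ≤ M₂) (hn0 : 0 < n)
    (hN1 : 1 ≤ N) (hK1 : 1 ≤ K) (hNn : n ≤ N) (hMK : M₂ * K ≤ N) (hκ : 0 < κ) (hc : 0 < c)
    (hC₁ : 0 < C₁) (hC₂ : 0 < C₂) (hC₃ : C₃ = 2 * q * C₁ + 3 * C₂ * (1 + p))
    (hΩ : Ω = N * b ^ β + K * a ^ q * b ^ (-p)) (hstar : Ω ≤ μ * a ^ d + N * b ^ β)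
    (hU₁ : U₁ ≤ C₁ * √(M₂ * N) * (a + b) ^ e)
    (hU₂ : U₂ ≤ C₂ * μ * (a + b) ^ d) (hD0 : 0 ≤ D)
    (hD : ∀ Y : ℝ, 0 < Y → Y + μ * a ^ d ≤ Ω → c * Y * (Y / (M₂ * b)) ^ γ ≤ D)
    (hnn : C₃ ≤ κ * c / 2 * (n / (2 * M₂)) ^ γ)
    (hF : C₃ * 2 ^ (1 / (q * x)) * (1 + μ ^ r) * Ω + κ * D ≤
      U₁ * (q * (K * a ^ (q - 1) * b ^ (-p))) +
      U₂ * (N * β * b ^ (β - 1) + K * a ^ q * p * b ^ (-p - 1))) :
    False := by
  have hqd0 : 0 < q - d := by linarith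
  have hSK : √(M₂ * N) * √K ≤ N := by
    rw [← Real.sqrt_mul (by positivity), Real.sqrt_le_left (by linarith)]
    nlinarith
  have hbβ : 0 < b ^ β := Real.rpow_pos_of_pos hb _
  have hW : 0 < N * b ^ β := by positivity
  have hs1 : K * a ^ q * b ^ (-(lam * (q - d))) ≤ μ * a ^ d := by
    rw [← hpd]
    linarith
  have hh := hbnd ha hb hK1 hμ hq2 hd hs1
  have hh2 := hbnd2 hb hK1 hμ hq2 hd hh
  have hμ0 : 0 < μ := by linarith
  -- the two products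
  have t1 := prod1 ha hb hb1 hK1 hμ hq2 hd0.le hd hlam1 he0 he1 hC₁.le (Real.sqrt_nonneg _) hSK
    hh hU₁ (β := β)
  rw [← hpd] at t1
  have t2 := prod2 ha hb hb1 hK1 hμ hq2 hd0.le hd hlam1 hC₂.le hp0.le (by linarith) hβ0.le
    hβ1.le hh hU₂ hΩ
  -- exponents
  have ea2 : q / (q - d) / r = q * x := by rw [hxq]; field_simp
  have ea1 : (q - 1 + e) / (q - d) / r = (q - 1 + e) * x := by rw [hxq]; field_simp
  have ha2 : q / (q - d) ≤ r := by
    have h1 : q / (q - d) = q * x * r := by rw [← ea2]; field_simp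
    rw [h1]
    nlinarith
  have ha1 : (q - 1 + e) / (q - d) ≤ r :=
    (div_le_div_of_nonneg_right (by linarith) hqd0.le).trans ha2
  have n1 := hNUM r d β σ lam q x ((q - 1 + e) / (q - d)) (β - lam * (e + d - 1)) μ b hr hd0 hd hq2
    hxq hqx hσ0 hσβ hab (div_nonneg (by linarith) hqd0.le) ha1 (by rw [ea1]; exact hB1) hμ hb hb1
  have n2 := hNUM r d β σ lam q x (q / (q - d)) (1 - lam * d) μ b hr hd0 hd hq2
    hxq hqx hσ0 hσβ hab (by positivity) ha2 (by rw [ea2]; linarith) hμ hb hb1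
  generalize μ ^ ((q - 1 + e) / (q - d)) * b ^ (-(β - lam * (e + d - 1))) = X₁ at t1 n1
  generalize μ ^ (q / (q - d)) * b ^ (-(1 - lam * d)) = X₂ at t2 n2
  have hΩN : N * b ^ β ≤ Ω := by
    rw [hΩ]
    have : 0 ≤ K * a ^ q * b ^ (-p) := by positivity
    linarith
  have hμr : 0 < μ ^ r := Real.rpow_pos_of_pos hμ0 _
  have hC₃0 : 0 < C₃ := by rw [hC₃]; positivity
  have hpw : (1 : ℝ) ≤ 2 ^ (1 / (q * x)) := Real.one_le_rpow (by norm_num) (by positivity)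
  have hq0 : 0 < 2 * q * C₁ := by positivity
  have hp1 : 0 < 2 * C₂ * (1 + p) := by positivity
  have hQ : μ * a ^ d ≤ μ ^ (q / (q - d)) * b ^ (lam * d) := by
    calc μ * a ^ d ≤ μ * (μ ^ (1 / (q - d)) * b ^ lam) ^ d :=
          mul_le_mul_of_nonneg_left (Real.rpow_le_rpow ha hh2 hd0.le) hμ0.le
      _ = (μ * μ ^ (d / (q - d))) * b ^ (lam * d) := by
          rw [Real.mul_rpow (by positivity) (by positivity), ← Real.rpow_mul hμ0.le,
            ← Real.rpow_mul hb.le, one_div_mul_eq_div]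
          ring
      _ = _ := by
          congr 1
          have : μ ^ (q / (q - d)) = μ ^ (1 + d / (q - d)) := by
            congr 1
            field_simp
            ring
          rw [this, Real.rpow_add hμ0, Real.rpow_one]
  rcases le_or_gt (μ ^ (q / (q - d)) * b ^ (lam * d)) (N * b ^ β / 2) with hA | hB
  · -- case A
    have h1 : N * b ^ β / 2 + μ * a ^ d ≤ Ω := by linarith
    have h2 := hD (N * b ^ β / 2) (by positivity) h1
    have h3 : Ω ≤ 3 / 2 * (N * b ^ β) := by linarith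
    have hX1 := n1.1
    have hX2 := n2.1
    have hbσ : 0 < b ^ (-σ) := Real.rpow_pos_of_pos hb _
    have h4 : c * (N * b ^ β / 2) * (N * b ^ β / 2 / (M₂ * b)) ^ γ =
        c * (N / 2 * (N / (2 * M₂)) ^ γ * (b ^ β * b ^ (-σ))) := by
      rw [← prod3 hb (by linarith : (0 : ℝ) < M₂) (by linarith : (0 : ℝ) ≤ N) hγ]
      ring
    rw [h4] at h2
    have h5 : (n / (2 * M₂)) ^ γ ≤ (N / (2 * M₂)) ^ γ :=
      Real.rpow_le_rpow (by positivity) (div_le_div_of_nonneg_right hNn (by positivity)) hγ0.le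
    have h6 : C₃ * (N * b ^ β * b ^ (-σ)) ≤ κ * D := by
      calc C₃ * (N * b ^ β * b ^ (-σ))
          ≤ κ * c / 2 * (N / (2 * M₂)) ^ γ * (N * b ^ β * b ^ (-σ)) := by
            refine mul_le_mul_of_nonneg_right (hnn.trans ?_) (by positivity)
            exact mul_le_mul_of_nonneg_left h5 (by positivity)
        _ = κ * (c * (N / 2 * (N / (2 * M₂)) ^ γ * (b ^ β * b ^ (-σ)))) := by ring
        _ ≤ κ * D := mul_le_mul_of_nonneg_left h2 hκ.le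
    have h7 : 2 * q * C₁ * (N * b ^ β) * X₁ ≤
        2 * q * C₁ * (N * b ^ β) * (μ ^ r + b ^ (-σ)) :=
      mul_le_mul_of_nonneg_left hX1 (by positivity)
    have h8 : 2 * C₂ * (1 + p) * Ω * X₂ ≤
        3 * C₂ * (1 + p) * (N * b ^ β) * (μ ^ r + b ^ (-σ)) := by
      have hS0 : 0 ≤ μ ^ r + b ^ (-σ) := by positivity
      have hΩ0 : 0 ≤ Ω := by linarith
      calc 2 * C₂ * (1 + p) * Ω * X₂ ≤ 2 * C₂ * (1 + p) * Ω * (μ ^ r + b ^ (-σ)) :=
            mul_le_mul_of_nonneg_left hX2 (by positivity)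
        _ ≤ 2 * C₂ * (1 + p) * (3 / 2 * (N * b ^ β)) * (μ ^ r + b ^ (-σ)) :=
            mul_le_mul_of_nonneg_right (mul_le_mul_of_nonneg_left h3 hp1.le) hS0
        _ = _ := by ring
    have h9 : C₃ * (N * b ^ β) * (1 + μ ^ r) ≤ C₃ * 2 ^ (1 / (q * x)) * (1 + μ ^ r) * Ω := by
      have hΩ0 : 0 ≤ Ω := by linarith
      calc C₃ * (N * b ^ β) * (1 + μ ^ r) ≤ C₃ * Ω * (1 + μ ^ r) :=
            mul_le_mul_of_nonneg_right (mul_le_mul_of_nonneg_left hΩN hC₃0.le) (by positivity)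
        _ = 1 * (C₃ * (1 + μ ^ r) * Ω) := by ring
        _ ≤ 2 ^ (1 / (q * x)) * (C₃ * (1 + μ ^ r) * Ω) :=
            mul_le_mul_of_nonneg_right hpw (by positivity)
        _ = _ := by ring
    have h10 : C₃ = 2 * q * C₁ + 3 * C₂ * (1 + p) := hC₃
    have h11 : C₃ * (N * b ^ β) * (1 + μ ^ r) + C₃ * (N * b ^ β * b ^ (-σ)) ≤
        C₃ * (N * b ^ β) * (μ ^ r + b ^ (-σ)) := by
      calc C₃ * (N * b ^ β) * (1 + μ ^ r) + C₃ * (N * b ^ β * b ^ (-σ))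
          ≤ 2 * q * C₁ * (N * b ^ β) * (μ ^ r + b ^ (-σ)) +
            3 * C₂ * (1 + p) * (N * b ^ β) * (μ ^ r + b ^ (-σ)) := by linarith
        _ = (2 * q * C₁ + 3 * C₂ * (1 + p)) * (N * b ^ β) * (μ ^ r + b ^ (-σ)) := by ring
        _ = _ := by rw [← h10]
    have h12 : 0 < C₃ * (N * b ^ β) := by positivity
    have h13 : C₃ * (N * b ^ β) * (1 + μ ^ r) + C₃ * (N * b ^ β * b ^ (-σ)) -
        C₃ * (N * b ^ β) * (μ ^ r + b ^ (-σ)) = C₃ * (N * b ^ β) := by ring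
    linarith
  · -- case B
    have h1 : b ^ β / 2 < μ ^ (q / (q - d)) * b ^ (lam * d) := by
      have : b ^ β ≤ N * b ^ β := le_mul_of_one_le_left hbβ.le hN1
      linarith
    have hX1 := n1.2 h1
    have hX2 := n2.2 h1
    have hΩ0 : 0 < Ω := by linarith
    have hT0 : 0 < 2 ^ (1 / (q * x)) * μ ^ r := by positivity
    have h7 : 2 * q * C₁ * (N * b ^ β) * X₁ ≤ 2 * q * C₁ * Ω * (2 ^ (1 / (q * x)) * μ ^ r) := by
      calc 2 * q * C₁ * (N * b ^ β) * X₁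
          ≤ 2 * q * C₁ * (N * b ^ β) * (2 ^ (1 / (q * x)) * μ ^ r) :=
            mul_le_mul_of_nonneg_left hX1 (by positivity)
        _ ≤ 2 * q * C₁ * Ω * (2 ^ (1 / (q * x)) * μ ^ r) :=
            mul_le_mul_of_nonneg_right (mul_le_mul_of_nonneg_left hΩN hq0.le) hT0.le
    have h8 : 2 * C₂ * (1 + p) * Ω * X₂ ≤
        2 * C₂ * (1 + p) * Ω * (2 ^ (1 / (q * x)) * μ ^ r) :=
      mul_le_mul_of_nonneg_left hX2 (by positivity)
    have h10 : C₃ = 2 * q * C₁ + 3 * C₂ * (1 + p) := hC₃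
    have h13 : 0 ≤ κ * D := by positivity
    have h14 : C₃ * 2 ^ (1 / (q * x)) * (1 + μ ^ r) * Ω ≤
        (2 * q * C₁ + 2 * C₂ * (1 + p)) * Ω * (2 ^ (1 / (q * x)) * μ ^ r) := by
      calc C₃ * 2 ^ (1 / (q * x)) * (1 + μ ^ r) * Ω
          ≤ 2 * q * C₁ * Ω * (2 ^ (1 / (q * x)) * μ ^ r) +
            2 * C₂ * (1 + p) * Ω * (2 ^ (1 / (q * x)) * μ ^ r) := by linarith
        _ = _ := by ring
    have h15 : (2 * q * C₁ + 2 * C₂ * (1 + p)) * Ω * (2 ^ (1 / (q * x)) * μ ^ r) ≤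
        C₃ * Ω * (2 ^ (1 / (q * x)) * μ ^ r) := by
      refine mul_le_mul_of_nonneg_right (mul_le_mul_of_nonneg_right ?_ hΩ0.le) hT0.le
      rw [h10]
      have : 0 < C₂ * (1 + p) := by positivity
      linarith
    have h16 : 0 < C₃ * 2 ^ (1 / (q * x)) * Ω := by positivity
    have h17 : C₃ * 2 ^ (1 / (q * x)) * (1 + μ ^ r) * Ω -
        C₃ * Ω * (2 ^ (1 / (q * x)) * μ ^ r) = C₃ * 2 ^ (1 / (q * x)) * Ω := by ring
    linarith

/-- The contradiction at a touching point. -/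
theorem core (hNUM : Stmt_NUM) {α r d δ₂ ν β x lam a b μ E n k Ω U₁ U₂ D C₁ C₂ C₃ c κ M₂ : ℝ}
    {m : ℕ} (P : Par α r d δ₂ ν β x lam m) (hα : 0 < α) (hr : 1 < r) (hd0 : 0 < d) (hd : d < 1)
    (hδ₂ : 0 ≤ δ₂) (ha : 0 ≤ a) (hb : 0 < b) (hb1 : b ≤ 1) (hμ : 1 ≤ μ) (hE : 1 ≤ E)
    (hk : 1 ≤ k) (hM₂ : 1 ≤ M₂) (hn : M₂ * k ≤ n) (hκ : 0 < κ) (hc : 0 < c)
    (hC₁ : 0 < C₁) (hC₂ : 0 < C₂)
    (hC₃ : C₃ = 2 * (2 * (m : ℝ)) * C₁ + 3 * C₂ * (1 + lam * (2 * (m : ℝ) - d)))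
    (hΩ : Ω = E * n * b ^ β + E * k * a ^ (2 * (m : ℝ)) * b ^ (-(lam * (2 * (m : ℝ) - d))))
    (hstar : Ω ≤ μ * a ^ d + E * n * b ^ β)
    (hU₁ : U₁ ≤ C₁ * √(M₂ * (E * n)) * (a + b) ^ ((δ₂ + β) / 2))
    (hU₂ : U₂ ≤ C₂ * μ * (a + b) ^ d) (hD0 : 0 ≤ D)
    (hD : ∀ Y : ℝ, 0 < Y → Y + μ * a ^ d ≤ Ω → c * Y * (Y / (M₂ * b)) ^ (2 * α / (1 - δ₂)) ≤ D)
    (hnn : C₃ ≤ κ * c / 2 * (n / (2 * M₂)) ^ (2 * α / (1 - δ₂)))
    (hF : C₃ * 2 ^ (1 / (2 * (m : ℝ) * x)) * (1 + μ ^ r) * Ω + κ * D ≤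
      U₁ * (2 * (m : ℝ) * (E * k * a ^ (2 * (m : ℝ) - 1) * b ^ (-(lam * (2 * (m : ℝ) - d))))) +
      U₂ * (E * n * β * b ^ (β - 1) + E * k * a ^ (2 * (m : ℝ)) * (lam * (2 * (m : ℝ) - d)) *
          b ^ (-(lam * (2 * (m : ℝ) - d)) - 1))) :
    False := by
  have hm : (1 : ℝ) ≤ m := by exact_mod_cast P.m1
  have hν0 := P.ν0
  have hβ0 := P.β0
  have hδβ := P.δβ
  have hβ1 := P.β1
  have hn1 : 1 ≤ n := by nlinarith
  have hEk : 1 ≤ E * k := by nlinarith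
  have hEn : 1 ≤ E * n := by nlinarith
  refine coreq hNUM (p := lam * (2 * (m : ℝ) - d)) (σ := 2 * α * ν) (e := (δ₂ + β) / 2) hr hd0 hd
    hβ0 P.β1 P.lam1 (by linarith) rfl (mul_pos P.lam0 (by linarith)) (by positivity)
    (div_pos (by linarith) (by linarith)) (by linarith) (by linarith) P.xq P.x0 P.qx P.lamd P.σβ
    (P.B1 _ (by linarith)) P.ab P.γ ha hb hb1 hμ hM₂ (by linarith) hEn hEk ?_ ?_ hκ hc hC₁ hC₂
    hC₃ hΩ hstar hU₁ hU₂ hD0 hD hnn hF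
  · nlinarith
  · nlinarith [mul_le_mul_of_nonneg_left hn (by linarith : (0 : ℝ) ≤ E)]

/-- The growth factor. -/
theorem growth (Z : ℝ → ℝ) (t₀ T C : ℝ) (h0 : 0 < t₀) (hc : ContinuousOn Z (Ioo 0 T))
    (hZ : ∀ t ∈ Ioo 0 T, 0 ≤ Z t) (hi : IntegrableOn Z (Ioo t₀ T)) (hC : 0 ≤ C) :
    ∃ E : ℝ → ℝ, ContinuousOn E (Ico t₀ T) ∧ (∀ t ∈ Ico t₀ T, 1 ≤ E t) ∧
      (∀ t ∈ Ioo t₀ T, HasDerivAt E (C * Z t * E t) t) ∧ ∃ B, ∀ t ∈ Ico t₀ T, E t ≤ B := by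
  have hd : ∀ t ∈ Ioo 0 T, t₀ < T → HasDerivAt (fun t => Real.exp (C * ∫ s in t₀..t, Z s))
      (C * Z t * Real.exp (C * ∫ s in t₀..t, Z s)) t := by
    intro t ht hT
    have h1 : IntervalIntegrable Z volume t₀ t := by
      refine (hc.mono ?_).intervalIntegrable
      intro s hs
      rw [mem_uIcc] at hs
      rcases hs with hs | hs
      · exact ⟨h0.trans_le hs.1, hs.2.trans_lt ht.2⟩
      · exact ⟨ht.1.trans_le hs.1, hs.2.trans_lt hT⟩
    have h2 := intervalIntegral.integral_hasDerivAt_right h1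
      (hc.stronglyMeasurableAtFilter isOpen_Ioo t ht) (hc.continuousAt (isOpen_Ioo.mem_nhds ht))
    have h3 := (h2.const_mul C).exp
    have e : C * Z t * Real.exp (C * ∫ s in t₀..t, Z s) =
        Real.exp (C * ∫ s in t₀..t, Z s) * (C * Z t) := by ring
    rw [e]
    exact h3
  refine ⟨fun t => Real.exp (C * ∫ s in t₀..t, Z s), ?_, ?_, ?_, ?_⟩
  · intro t ht
    exact (hd t ⟨h0.trans_le ht.1, ht.2⟩ (ht.1.trans_lt ht.2)).continuousAt.continuousWithinAt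
  · intro t ht
    rw [Real.one_le_exp_iff]
    refine mul_nonneg hC (intervalIntegral.integral_nonneg ht.1 fun u hu => ?_)
    exact hZ u ⟨h0.trans_le hu.1, hu.2.trans_lt ht.2⟩
  · intro t ht
    exact hd t ⟨h0.trans ht.1, ht.2⟩ (ht.1.trans ht.2)
  · refine ⟨Real.exp (C * ∫ s in Ioo t₀ T, Z s), fun t ht => ?_⟩
    rw [Real.exp_le_exp]
    refine mul_le_mul_of_nonneg_left ?_ hC
    rw [intervalIntegral.integral_of_le ht.1]
    refine setIntegral_mono_set hi ?_ ?_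
    · refine (ae_restrict_iff' measurableSet_Ioo).2 (Eventually.of_forall fun u hu => ?_)
      exact hZ u ⟨h0.trans hu.1, hu.2⟩
    · exact Eventually.of_forall fun u hu => ⟨hu.1, hu.2.trans_lt ht.2⟩

theorem integrable_aux (M : ℝ → ℝ) (t₀ T r k : ℝ) (h0 : 0 < t₀) (hr : 0 < r) (hk : 0 ≤ k)
    (hc : ContinuousOn M (Ioo 0 T)) (hM : ∀ t ∈ Ioo 0 T, 0 ≤ M t)
    (hi : IntegrableOn (fun t => M t ^ r) (Ioo t₀ T)) :
    IntegrableOn (fun t => 1 + (M t + k) ^ r) (Ioo t₀ T) := by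
  have hsub : Ioo t₀ T ⊆ Ioo 0 T := Ioo_subset_Ioo_left h0.le
  have h1 : IntegrableOn (fun t => 1 + 2 ^ r * (M t ^ r + k ^ r)) (Ioo t₀ T) := by
    refine Integrable.add (integrableOn_const (by simp)) ?_
    exact (hi.add (integrableOn_const (by simp))).const_mul _
  refine Integrable.mono' h1 ?_ ?_
  · refine ContinuousOn.aestronglyMeasurable ?_ measurableSet_Ioo
    refine continuousOn_const.add (((hc.mono hsub).add continuousOn_const).rpow_const ?_)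
    intro t _
    exact Or.inr hr.le
  · refine (ae_restrict_iff' measurableSet_Ioo).2 (Eventually.of_forall fun t ht => ?_)
    have hMt := hM t (hsub ht)
    have h2 : (M t + k) ^ r ≤ 2 ^ r * (M t ^ r + k ^ r) := by
      have h3 : 0 ≤ M t ^ r := Real.rpow_nonneg hMt _
      have h4 : 0 ≤ k ^ r := Real.rpow_nonneg hk _
      have h6 : (0 : ℝ) ≤ 2 ^ r := Real.rpow_nonneg (by norm_num) _
      rcases le_total (M t) k with h | h
      · calc (M t + k) ^ r ≤ (2 * k) ^ r := Real.rpow_le_rpow (by positivity) (by linarith) hr.le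
          _ = 2 ^ r * k ^ r := Real.mul_rpow (by norm_num) hk
          _ ≤ _ := mul_le_mul_of_nonneg_left (by linarith) h6
      · calc (M t + k) ^ r ≤ (2 * M t) ^ r :=
              Real.rpow_le_rpow (by positivity) (by linarith) hr.le
          _ = 2 ^ r * M t ^ r := Real.mul_rpow (by norm_num) hMt
          _ ≤ _ := mul_le_mul_of_nonneg_left (by linarith) h6
    have h5 : 0 ≤ 1 + (M t + k) ^ r := by positivity
    rw [Real.norm_of_nonneg h5]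
    linarith

theorem exists_n {κ c g A₂ C₃ M₀ L k : ℝ} (hκ : 0 < κ) (hc : 0 < c) (hg : 0 < g) (hA₂ : 0 < A₂) :
    ∃ n, A₂ * k ≤ n ∧ 2 * M₀ < n ∧ L < n ∧ C₃ ≤ κ * c / 2 * (n / (2 * A₂)) ^ g := by
  have h1 : Tendsto (fun N : ℝ => N / (2 * A₂)) atTop atTop :=
    tendsto_id.atTop_div_const (by positivity)
  have h2 : Tendsto (fun N : ℝ => κ * c / 2 * (N / (2 * A₂)) ^ g) atTop atTop :=
    ((tendsto_rpow_atTop hg).comp h1).const_mul_atTop (by positivity)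
  obtain ⟨n, h⟩ := ((eventually_ge_atTop (A₂ * k)).and ((eventually_gt_atTop (2 * M₀)).and
    ((eventually_gt_atTop L).and (h2.eventually_ge_atTop C₃)))).exists
  exact ⟨n, h⟩

theorem pw1 (a : ℝ) (m : ℕ) : a ^ (2 * m) = |a| ^ (2 * (m : ℝ)) := by
  have h : 2 * (m : ℝ) = ((2 * m : ℕ) : ℝ) := by push_cast; ring
  rw [h, Real.rpow_natCast, (even_two_mul m).pow_abs]

theorem pw2 (a : ℝ) (m : ℕ) (hm : 1 ≤ m) : |a| ^ (2 * m - 1) = |a| ^ (2 * (m : ℝ) - 1) := by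
  have h : 2 * (m : ℝ) - 1 = ((2 * m - 1 : ℕ) : ℝ) := by
    rw [Nat.cast_sub (by omega)]; push_cast; ring
  rw [h, Real.rpow_natCast]

theorem O2_zero (n k β p : ℝ) (m : ℕ) (hm : 1 ≤ m) (a : ℝ) :
    O2 n k β p m (0, a) = n * |a| ^ β := by
  unfold O2
  simp [show m ≠ 0 by omega]

end ST2Aux

open ST2Aux in
/-- The bootstrap step. -/
theorem st2 (hP : Stmt_PAR) (hN : Stmt_NUM) (hR : Stmt_REG) (hU : Stmt_UB) (hL : Stmt_LB)
    (hL0 : Stmt_LB0) (hT : Stmt_TC2) (hF : Stmt_FO2) : Stmt_ST2 := by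
  intro α κ T θ φ hα hα' hκ hS M₀ d r M₂ δ₂ t₀ M hM₀ hr hd hd1 hMc hMH hδ₂ hδ₂' ht₀ ht₀T hMi hH2
  obtain ⟨x, lam, m, P⟩ := hP α r d δ₂ hα hα' hr hd hd1 hδ₂ hδ₂'
  generalize 1 / (d + 2 * α - 2 * α / r) = ν at P
  generalize 1 - (1 - δ₂) / (d + 2 * α - 2 * α / r) = β at P ⊢
  have hd0 : 0 < d := by
    have : 0 < 2 * α / r := by positivity
    linarith
  have hm := P.m1
  have hmR : (1 : ℝ) ≤ m := by exact_mod_cast hm
  have hδ₂1 : δ₂ < 1 := by linarith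
  have hβ0 := P.β0
  have hβ1 := P.β1
  have hδβ := P.δβ
  have hM₀0 : 0 ≤ M₀ := (abs_nonneg _).trans (hM₀ t₀ ⟨ht₀, ht₀T⟩ 0)
  obtain ⟨hNF, hReg⟩ := hR α κ T θ φ hS
  obtain ⟨L₀, hL₀, hlip⟩ := hReg.lip t₀ t₀ ht₀ ht₀T
  obtain ⟨C₁, hC₁, hUB1⟩ := hU ((δ₂ + β) / 2) (by linarith) (by linarith)
  obtain ⟨C₂, hC₂, hUB2⟩ := hU d hd0 hd1
  obtain ⟨c, hc, hLB⟩ := hL α δ₂ hα hα' hδ₂ hδ₂1
  obtain ⟨k, hk⟩ : ∃ k : ℝ, k = 2 * M₀ + 2 := ⟨_, rfl⟩
  obtain ⟨p, hp⟩ : ∃ p : ℝ, p = lam * (2 * (m : ℝ) - d) := ⟨_, rfl⟩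
  have hp0 : 0 < p := by rw [hp]; exact mul_pos P.lam0 (by linarith)
  obtain ⟨C₃, hC₃⟩ : ∃ C₃ : ℝ, C₃ = 2 * (2 * (m : ℝ)) * C₁ + 3 * C₂ * (1 + p) := ⟨_, rfl⟩
  have hC₃0 : 0 < C₃ := by rw [hC₃]; positivity
  have hA₂ : 1 ≤ max M₂ 1 := le_max_right _ _
  have hH2' : ∀ t ∈ Ico t₀ T, H2 (θ t) (max M₂ 1) δ₂ := fun t ht =>
    STPAux.H2_mono (hH2 t ht) (le_max_left _ _)
  generalize max M₂ 1 = A₂ at hA₂ hH2'
  have hH1' : ∀ t ∈ Ioo 0 T, H1 (θ t) (M t + k) d := fun t ht =>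
    STPAux.H1_mono (hMH t ht).2 (by linarith)
  have hg : 0 < 2 * α / (1 - δ₂) := div_pos (by linarith) (by linarith)
  obtain ⟨n, hn1, hn2, hn3, hn4⟩ := exists_n (C₃ := C₃) (M₀ := M₀) (L := L₀ * (2 + L₀)) (k := k)
    hκ hc hg (by linarith : (0 : ℝ) < A₂)
  have hAk : 2 ≤ A₂ * k := by nlinarith
  have hn0 : 0 < n := by linarith
  obtain ⟨E, hE1, hE2, hE3, B, hB⟩ := growth (fun t => 1 + (M t + k) ^ r) t₀ T
    (C₃ * 2 ^ (1 / (2 * (m : ℝ) * x))) ht₀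
    (continuousOn_const.add ((hMc.add continuousOn_const).rpow_const
      fun t _ => Or.inr (by linarith)))
    (fun t ht => by
      have h1 : 0 ≤ M t + k := by linarith [(hMH t ht).1]
      have h2 : 0 ≤ (M t + k) ^ r := Real.rpow_nonneg h1 _
      linarith)
    (integrable_aux M t₀ T r k ht₀ (by linarith) (by linarith) hMc (fun t ht => (hMH t ht).1) hMi)
    (by positivity)
  refine ⟨B * n, ?_⟩
  rcases hT T θ hReg M₀ β p n k t₀ L₀ m E ht₀ ht₀T hM₀ hm hβ0 hβ1 (by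
      rw [hp]
      have h1 : (2 * (m : ℝ) - 1) * β < (2 * (m : ℝ) - 1) * lam :=
        mul_lt_mul_of_pos_left P.βlam (by linarith)
      have h2 : lam * (2 * (m : ℝ) - 1) ≤ lam * (2 * (m : ℝ) - d) :=
        mul_le_mul_of_nonneg_left (by linarith) P.lam0.le
      linarith) hE1 hE2
    (fun x y => hlip t₀ ⟨le_rfl, le_rfl⟩ x y) hL₀ hn3 hn2 (by linarith) (by linarith) with
    h | ⟨t, x', h, ht0, htT, hh0, hh1, hh, hOm, hall⟩
  · intro t ht y a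
    have hEt := hE2 t ht
    have hBt := hB t ht
    rcases eq_or_ne a 0 with rfl | ha
    · have h0 : |θ t (y.1, y.2 + 0) - θ t y| = 0 := by simp
      rw [h0]
      exact mul_nonneg (mul_nonneg (by linarith) hn0.le) (Real.rpow_nonneg (abs_nonneg _) _)
    have ha0 : 0 < |a| := abs_pos.2 ha
    rcases le_total |a| 1 with h1 | h1
    · have h2 := h t ht y (0, a) ⟨ha0, h1, by
        show |(0 : ℝ)| ≤ 1
        rw [abs_zero]
        norm_num⟩
      have h3 : y + ((0 : ℝ), a) = (y.1, y.2 + a) := by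
        ext
        · simp
        · simp
      rw [h3, O2_zero n k β p m hm] at h2
      refine h2.trans ?_
      have h4 : 0 ≤ n * |a| ^ β := mul_nonneg hn0.le (Real.rpow_nonneg (abs_nonneg _) _)
      calc E t * (n * |a| ^ β) ≤ B * (n * |a| ^ β) := mul_le_mul_of_nonneg_right hBt h4
        _ = B * n * |a| ^ β := by ring
    · have htI : t ∈ Ioo 0 T := ⟨ht₀.trans_le ht.1, ht.2⟩
      have e1 := hM₀ t htI (y.1, y.2 + a)
      have e2 := hM₀ t htI y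
      have e3 : |θ t (y.1, y.2 + a) - θ t y| ≤ |θ t (y.1, y.2 + a)| + |θ t y| := abs_sub _ _
      have e5 : n ≤ B * n := le_mul_of_one_le_left hn0.le (by linarith)
      have e4 : B * n ≤ B * n * |a| ^ β :=
        le_mul_of_one_le_right (by linarith) (Real.one_le_rpow h1 hβ0.le)
      linarith
  · exfalso
    have htI : t ∈ Ioo 0 T := ⟨ht₀.trans ht0, htT⟩
    have htJ : t ∈ Ico t₀ T := ⟨ht0.le, htT⟩
    have htK : t ∈ Icc t₀ t := ⟨ht0.le, le_rfl⟩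
    have hnf := hNF t htI
    have hEt := hE2 t htJ
    have hRqh : h ∈ Rq := ⟨hh0, hh1.le, hh.le⟩
    have hMt := (hMH t htI).1
    have hF' := hF α κ T θ φ hS n k β p t₀ t _ m E x' h ht₀ ht0 htT hn0.le (by linarith) hβ0.le
      hp0.le hm hh0 hh1 hh (by linarith) (hE3 t ⟨ht0, htT⟩) hOm hall
    have hmax : ∀ y, θ t (y + h) - θ t y ≤ θ t (x' + h) - θ t x' := fun y => by
      rw [hOm]
      exact (le_abs_self _).trans (hall t htK y h hRqh)
    have hline : ∀ (y : P2) (a : ℝ), 0 < |a| → |a| ≤ 1 →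
        |θ t (y.1, y.2 + a) - θ t y| ≤ E t * n * |a| ^ β := by
      intro y a ha0 ha1
      have h1 := hall t htK y (0, a) ⟨ha0, ha1, by
        show |(0 : ℝ)| ≤ 1
        rw [abs_zero]
        norm_num⟩
      have h3 : y + ((0 : ℝ), a) = (y.1, y.2 + a) := by
        ext
        · simp
        · simp
      rw [h3, O2_zero n k β p m hm, ← mul_assoc] at h1
      exact h1
    have hnE : n ≤ E t * n := le_mul_of_one_le_left hn0.le hEt
    have hA₂n : A₂ ≤ n := by nlinarith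
    have hI : H2 (θ t) (√(A₂ * (E t * n))) ((δ₂ + β) / 2) :=
      STPAux.H2_interp hA₂ (hA₂n.trans hnE) hδβ.le (hH2' t htJ) hline
    have hU1 := (hUB1 (θ t) (φ t) _ hnf (Real.sqrt_nonneg _)).2 hI x' h
    have hU2 := (hUB2 (θ t) (φ t) (M t + k) hnf (by linarith)).1 (hH1' t htI) x' h
    have hD0 := hL0 α hα hα' (θ t) (φ t) hnf x' h hmax
    have hD := fun (Y : ℝ) (hY : 0 < Y)
        (hY' : Y + (M t + k) * |h.1| ^ d ≤ θ t (x' + h) - θ t x') =>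
      hLB (θ t) (φ t) (M t + k) d A₂ hnf (hH1' t htI) (by linarith) (hH2' t htJ) x' h Y
        (abs_pos.1 hh0) hY hY' hmax
    have hΩ : θ t (x' + h) - θ t x' = E t * n * |h.2| ^ β +
        E t * k * |h.1| ^ (2 * (m : ℝ)) * |h.2| ^ (-p) := by
      rw [hOm]
      unfold O2
      rw [pw1]
      ring
    have hstar : θ t (x' + h) - θ t x' ≤ (M t + k) * |h.1| ^ d + E t * n * |h.2| ^ β := by
      have h1 := hH1' t htI (x'.1, x'.2 + h.2) h.1
      have h2 := hline x' h.2 hh0 hh1.le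
      have h3 : x' + h = (x'.1 + h.1, x'.2 + h.2) := rfl
      rw [h3]
      have h4 := le_abs_self (θ t (x'.1 + h.1, x'.2 + h.2) - θ t (x'.1, x'.2 + h.2))
      have h5 := le_abs_self (θ t (x'.1, x'.2 + h.2) - θ t x')
      linarith
    rw [mul_assoc _ (E t), ← hOm, pw1, pw2 _ _ hm] at hF'
    generalize θ t (x' + h) - θ t x' = Ω at hΩ hstar hD hF'
    subst hp
    refine core hN P hα hr hd0 hd1 hδ₂ (abs_nonneg h.1) hh0 hh1.le (μ := M t + k) (by linarith)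
      hEt (k := k) (by linarith) hA₂ hn1 hκ hc hC₁ hC₂ hC₃ hΩ hstar hU1 hU2 hD0 hD hn4
      (le_trans hF' (le_of_eq ?_))
    ring

end Pool.Agent.SQG
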