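import Pool.Agent.SQG.Stmts6
import Pool.Agent.SQG.St2

/-!
# The critical directional classes: stage 1
-/

set_option autoImplicit false

namespace Pool.Agent.SQG

open Complex MeasureTheory Set Filter Topology ProbabilityTheory

namespace ST5Aux

/-- The growth factor. -/
theorem growth (Z : ℝ → ℝ) (t₀ T C : ℝ) (h0 : 0 < t₀) (hc : ContinuousOn Z (Ioo 0 T))
    (hZ : ∀ t ∈ Ioo 0 T, 0 ≤ Z t) (hi : IntegrableOn Z (Ioo t₀ T)) (hC : 0 ≤ C)
    (hs : C * ∫ s in Ioo t₀ T, Z s ≤ Real.log 2) :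
    ∃ E : ℝ → ℝ, ContinuousOn E (Ico t₀ T) ∧ (∀ t ∈ Ico t₀ T, 1 ≤ E t) ∧
      (∀ t ∈ Ioo t₀ T, HasDerivAt E (C * Z t * E t) t) ∧ ∀ t ∈ Ico t₀ T, E t ≤ 2 := by
  have hd : ∀ t ∈ Ioo 0 T, t₀ < T → HasDerivAt (fun t => Real.exp (C * ∫ s in t₀..t, Z s))
      (C * Z t * Real.exp (C * ∫ s in t₀..t, Z s)) t := by
    intro t ht hT
    have h1 : IntervalIntegrable Z volume t₀ t := by
      refine (hc.mono ?_).intervalIntegrable
      intro s hs
      rw [mem_uIcc] at hs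
      rcases hs with hs | hs
      · exact ⟨h0.trans_le hs.1, hs.2.trans_lt ht.2⟩
      · exact ⟨ht.1.trans_le hs.1, hs.2.trans_lt hT⟩
    have h2 := intervalIntegral.integral_hasDerivAt_right h1
      (hc.stronglyMeasurableAtFilter isOpen_Ioo t ht) (hc.continuousAt (isOpen_Ioo.mem_nhds ht))
    have h3 := (h2.const_mul C).exp
    have e : C * Z t * Real.exp (C * ∫ s in t₀..t, Z s) =
        Real.exp (C * ∫ s in t₀..t, Z s) * (C * Z t) := by ring
    rw [e]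
    exact h3
  refine ⟨fun t => Real.exp (C * ∫ s in t₀..t, Z s), ?_, ?_, ?_, ?_⟩
  · intro t ht
    exact (hd t ⟨h0.trans_le ht.1, ht.2⟩ (ht.1.trans_lt ht.2)).continuousAt.continuousWithinAt
  · intro t ht
    rw [Real.one_le_exp_iff]
    refine mul_nonneg hC (intervalIntegral.integral_nonneg ht.1 fun u hu => ?_)
    exact hZ u ⟨h0.trans_le hu.1, hu.2.trans_lt ht.2⟩
  · intro t ht
    exact hd t ⟨h0.trans ht.1, ht.2⟩ (ht.1.trans ht.2)
  · intro t ht
    rw [← Real.exp_log (two_pos : (0 : ℝ) < 2)]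
    show Real.exp (C * ∫ s in t₀..t, Z s) ≤ Real.exp (Real.log 2)
    rw [Real.exp_le_exp]
    refine le_trans (mul_le_mul_of_nonneg_left ?_ hC) hs
    rw [intervalIntegral.integral_of_le ht.1]
    refine setIntegral_mono_set hi ?_ ?_
    · refine (ae_restrict_iff' measurableSet_Ioo).2 (Eventually.of_forall fun u hu => ?_)
      exact hZ u ⟨h0.trans hu.1, hu.2⟩
    · exact Eventually.of_forall fun u hu => ⟨hu.1, hu.2.trans_lt ht.2⟩

/-- The integral over a short interval is small. -/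
theorem small (Z : ℝ → ℝ) (t₁ T C : ℝ) (hT : t₁ < T) (hi : IntegrableOn Z (Ioo t₁ T)) :
    ∃ t₀, t₁ < t₀ ∧ t₀ < T ∧ C * ∫ s in Ioo t₀ T, Z s ≤ Real.log 2 := by
  have hT' : 0 < T - t₁ := by linarith
  have hanti : Antitone fun n : ℕ => Ioo (T - (T - t₁) / (n + 2)) T := by
    intro m n hmn
    apply Ioo_subset_Ioo_left
    have h1 : (m : ℝ) ≤ n := by exact_mod_cast hmn
    have h2 : (T - t₁) / ((n : ℝ) + 2) ≤ (T - t₁) / ((m : ℝ) + 2) := by gcongr
    linarith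
  have hlt : ∀ n : ℕ, t₁ < T - (T - t₁) / (n + 2) := by
    intro n
    have h1 : (T - t₁) / ((n : ℝ) + 2) < T - t₁ := by
      rw [div_lt_iff₀ (by positivity)]
      have : (0 : ℝ) ≤ n := Nat.cast_nonneg n
      nlinarith
    linarith
  have hemp : ⋂ n : ℕ, Ioo (T - (T - t₁) / ((n : ℝ) + 2)) T = ∅ := by
    rw [eq_empty_iff_forall_notMem]
    intro x hx
    rw [mem_iInter] at hx
    have hxT : 0 < T - x := by linarith [(hx 0).2]
    obtain ⟨n, hn⟩ := exists_nat_gt ((T - t₁) / (T - x))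
    have h1 := (hx n).1
    rw [div_lt_iff₀ hxT] at hn
    have h2 : T - x < (T - t₁) / ((n : ℝ) + 2) := by linarith
    rw [lt_div_iff₀ (by positivity)] at h2
    nlinarith
  have h := tendsto_setIntegral_of_antitone (μ := volume) (f := Z)
    (fun n : ℕ => (measurableSet_Ioo : MeasurableSet (Ioo (T - (T - t₁) / ((n : ℝ) + 2)) T)))
    hanti ⟨0, hi.mono_set (Ioo_subset_Ioo_left (hlt 0).le)⟩
  rw [hemp, Measure.restrict_empty, integral_zero_measure] at h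
  have h2 := h.const_mul C
  rw [mul_zero] at h2
  obtain ⟨n, hn⟩ := (h2.eventually (gt_mem_nhds (Real.log_pos one_lt_two))).exists
  refine ⟨T - (T - t₁) / (n + 2), hlt n, ?_, hn.le⟩
  have : 0 < (T - t₁) / ((n : ℝ) + 2) := by positivity
  linarith

section alg

variable {a b : ℝ}

theorem max_eq (hb : 0 < b) : max (a - b) 0 = b * max (a / b - 1) 0 := by
  rw [mul_max_of_nonneg _ _ hb.le, mul_zero]
  congr 1
  field_simp

theorem pow_m (hb : 0 < b) (β : ℝ) (m : ℕ) : b ^ (β - 2 * m) = b ^ β / b ^ (2 * m) := by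
  rw [Real.rpow_sub hb, ← Real.rpow_natCast b (2 * m)]
  push_cast
  rfl

theorem pow_m1 (hb : 0 < b) (β : ℝ) (m : ℕ) : b ^ (β - 2 * m - 1) = b ^ β / b ^ (2 * m) / b := by
  rw [Real.rpow_sub_one hb.ne', pow_m hb]

theorem pow_2 (hb : 0 < b) (β : ℝ) : b ^ (β - 2) = b ^ β / b ^ 2 := by
  rw [Real.rpow_sub hb, Real.rpow_two]

theorem pow_3 (hb : 0 < b) (β : ℝ) : b ^ (β - 3) = b ^ β / b ^ 3 := by
  rw [Real.rpow_sub hb]
  congr 1
  exact_mod_cast Real.rpow_natCast b 3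

theorem pow_d (hb : 0 < b) (β β' : ℝ) : b ^ (β' - β) = b ^ β' / b ^ β := Real.rpow_sub hb _ _

theorem O3_eq (hb : 0 < b) (E η n ε β β' : ℝ) (m : ℕ) :
    E * (η * b ^ β + n * b ^ β' + 2 * ε * a ^ 2 * b ^ (β - 2) +
      η * (max (a - b) 0) ^ (2 * m) * b ^ (β - 2 * m)) =
    b ^ β * (E * (η + n * b ^ (β' - β)) + 2 * (E * ε) * (a / b) ^ 2 +
      E * η * (max (a / b - 1) 0) ^ (2 * m)) := by
  rw [max_eq hb, mul_pow, pow_m hb, pow_2 hb, pow_d hb]
  have hw : 0 < b ^ β := Real.rpow_pos_of_pos hb _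
  have hv : 0 < b ^ (2 * m) := pow_pos hb _
  generalize (max (a / b - 1) 0) ^ (2 * m) = Q
  generalize b ^ (2 * m) = v at *
  generalize b ^ β = w at *
  field_simp

theorem F1_eq (hb : 0 < b) (E η ε β : ℝ) (m : ℕ) (hm : 1 ≤ m) :
    E * (4 * ε * a * b ^ (β - 2) + η * (2 * m) * (max (a - b) 0) ^ (2 * m - 1) * b ^ (β - 2 * m)) =
    b ^ (β - 1) * (4 * (E * ε) * (a / b) +
      2 * m * (E * η) * (max (a / b - 1) 0) ^ (2 * m - 1)) := by
  have h1 : b ^ (2 * m) = b ^ (2 * m - 1) * b := (pow_sub_one_mul (by omega) b).symm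
  rw [max_eq hb, mul_pow, pow_m hb, pow_2 hb, Real.rpow_sub_one hb.ne', h1]
  have hw : 0 < b ^ β := Real.rpow_pos_of_pos hb _
  have hv : 0 < b ^ (2 * m - 1) := pow_pos hb _
  generalize (max (a / b - 1) 0) ^ (2 * m - 1) = Q
  generalize b ^ (2 * m - 1) = v at *
  generalize b ^ β = w at *
  field_simp

theorem F2_eq (hb : 0 < b) (E η n ε β β' : ℝ) (m : ℕ) (hm : 1 ≤ m) :
    E * (η * b ^ (β - 1) + n * b ^ (β' - 1) + 4 * ε * a ^ 2 * b ^ (β - 3) +
      η * (2 * m) * (max (a - b) 0) ^ (2 * m - 1) * (a + b) * b ^ (β - 2 * m - 1)) =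
    b ^ (β - 1) * (E * (η + n * b ^ (β' - β)) + 4 * (E * ε) * (a / b) ^ 2 +
      2 * m * (E * η) * (max (a / b - 1) 0) ^ (2 * m - 1) * (1 + a / b)) := by
  have h1 : b ^ (2 * m) = b ^ (2 * m - 1) * b := (pow_sub_one_mul (by omega) b).symm
  rw [max_eq hb, mul_pow, pow_m1 hb, pow_3 hb, Real.rpow_sub_one hb.ne', Real.rpow_sub_one hb.ne',
    pow_d hb, h1]
  have hw : 0 < b ^ β := Real.rpow_pos_of_pos hb _
  have hv : 0 < b ^ (2 * m - 1) := pow_pos hb _
  generalize (max (a / b - 1) 0) ^ (2 * m - 1) = Q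
  generalize b ^ (2 * m - 1) = v at *
  generalize b ^ β = w at *
  field_simp
  ring

theorem add_pow (ha : 0 ≤ a) (hb : 0 < b) (δ : ℝ) : (a + b) ^ δ = b ^ δ * (1 + a / b) ^ δ := by
  rw [← Real.mul_rpow hb.le (by positivity)]
  congr 1
  field_simp
  ring

theorem add_pow_le (ha : 0 ≤ a) (hb : 0 < b) {δ : ℝ} (h1 : δ ≤ 1) :
    (a + b) ^ δ ≤ b ^ δ * (1 + a / b) := by
  rw [add_pow ha hb]
  apply mul_le_mul_of_nonneg_left _ (Real.rpow_nonneg hb.le _)
  have h2 : 0 ≤ a / b := by positivity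
  calc (1 + a / b) ^ δ ≤ (1 + a / b) ^ (1 : ℝ) :=
        Real.rpow_le_rpow_of_exponent_le (by linarith) h1
    _ = _ := Real.rpow_one _

theorem a_pow (ha : 0 ≤ a) (hb : 0 < b) (δ : ℝ) : a ^ δ = b ^ δ * (a / b) ^ δ := by
  rw [← Real.mul_rpow hb.le (by positivity)]
  congr 1
  field_simp

end alg

/-- The end of the proof. -/
theorem fin_aux {w B X1 X2 G1 G2 ω Yr Cs κ D μr U1 U2 F1 F2 Ω R L : ℝ}
    (hw : 0 < w) (hB : 0 < B) (hCs : 0 < Cs) (hω : 0 < ω)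
    (hX1 : 0 ≤ X1) (hX2 : 0 ≤ X2)
    (hU1 : U1 ≤ w * G1) (hU2 : U2 ≤ w * G2) (hF1 : F1 = B * X1) (hF2 : F2 = B * X2)
    (hΩ : Ω = w * ω) (hμ : μr = Yr * B) (hL : L = G1 * X1 + G2 * X2)
    (hNM : L ≤ Cs * Yr * ω + R) (hR : w * B * R ≤ κ * D)
    (hF : Cs * (1 + μr) * Ω + κ * D ≤ U1 * F1 + U2 * F2) : False := by
  have h1 : U1 * F1 ≤ w * G1 * (B * X1) := by
    rw [hF1]
    exact mul_le_mul_of_nonneg_right hU1 (by positivity)
  have h2 : U2 * F2 ≤ w * G2 * (B * X2) := by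
    rw [hF2]
    exact mul_le_mul_of_nonneg_right hU2 (by positivity)
  have hwB : 0 < w * B := mul_pos hw hB
  have h3 : w * B * L ≤ w * B * (Cs * Yr * ω + R) := mul_le_mul_of_nonneg_left hNM hwB.le
  have h4 : w * G1 * (B * X1) + w * G2 * (B * X2) = w * B * L := by rw [hL]; ring
  have h5 : w * B * (Cs * Yr * ω + R) = Cs * μr * Ω + w * B * R := by
    rw [hμ, hΩ]; ring
  have h6 : 0 < Cs * Ω := by
    rw [hΩ]; positivity
  nlinarith

end ST5Aux

open ST5Aux in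
/-- Stage 1. -/
theorem st5 (hR : Stmt_REG) (hU : Stmt_UB2) (hRf : Stmt_RFL) (hL0 : Stmt_LB0) (hT : Stmt_TC3)
    (hF : Stmt_FO3) (hN : Stmt_NM5) : Stmt_ST5 := by
  intro α hα hα'
  obtain ⟨C, hC, hUB⟩ := hU
  obtain ⟨c₁, c₂, hc₁, hc₁1, hc₂, hRFL⟩ := hRf α (1 - 2 * α) (1 - α) hα hα' (by linarith)
    (by linarith) (by linarith) (by linarith)
  obtain ⟨β, hβ⟩ : ∃ β : ℝ, β = 1 - 2 * α := ⟨_, rfl⟩
  obtain ⟨β', hβ'⟩ : ∃ β' : ℝ, β' = 1 - α := ⟨_, rfl⟩
  rw [← hβ, ← hβ'] at hRFL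
  obtain ⟨Cu, hCu⟩ : ∃ Cu : ℝ, Cu = max (C β) (C β') := ⟨_, rfl⟩
  have hCu1 : C β ≤ Cu := by rw [hCu]; exact le_max_left _ _
  have hCu2 : C β' ≤ Cu := by rw [hCu]; exact le_max_right _ _
  have hCu0 : 0 < Cu := (hC β).trans_le hCu1
  refine ⟨min (c₁ / 8) (c₂ / (40 * Cu)), by positivity, ?_⟩
  intro κ T θ φ hκ hS M₀ r t₁ ε η M hM₀ hr hε0 hε1 hη hε2 hMc hMH ht₁ ht₁T hMi
  rw [← hβ] at hMH
  rw [← hβ, ← hβ']
  obtain ⟨d, hd⟩ : ∃ d : ℝ, d = β + 2 * α / r := ⟨_, rfl⟩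
  rw [← hd] at hMH
  have hr0 : 0 < r := by linarith
  have hβ0 : 0 < β := by linarith
  have hβ1 : β < 1 := by linarith
  have hββ' : β < β' := by linarith
  have hβ'1 : β' < 1 := by linarith
  have hαr : 0 < 2 * α / r := by positivity
  have hαr' : 2 * α / r < 2 * α := div_lt_self (by linarith) hr
  have hdβ : β < d := by linarith
  have hd0 : 0 < d := by linarith
  have hd1 : d < 1 := by linarith
  have hεη : ε ≤ c₁ / 8 * η := hε2.trans (mul_le_mul_of_nonneg_right (min_le_left _ _) hη.le)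
  have hεκ : 40 * Cu * ε ≤ κ * c₂ := by
    have h1 : ε ≤ c₂ / (40 * Cu) * κ := hε1.trans (mul_le_mul_of_nonneg_right (min_le_right _ _) hκ.le)
    calc 40 * Cu * ε ≤ 40 * Cu * (c₂ / (40 * Cu) * κ) := mul_le_mul_of_nonneg_left h1 (by positivity)
      _ = κ * c₂ := by field_simp
  obtain ⟨m, hm1, hm⟩ : ∃ m : ℕ, 1 ≤ m ∧ d ≤ (2 * m - d) * (r - 1) := by
    obtain ⟨m, hm⟩ := exists_nat_ge (d / (r - 1) + d + 1)
    have h1 : 0 < d / (r - 1) := div_pos hd0 (by linarith)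
    have h2 : (1 : ℝ) ≤ m := by linarith
    refine ⟨m, by exact_mod_cast h2, ?_⟩
    have h3 : d / (r - 1) ≤ 2 * m - d := by linarith
    rwa [div_le_iff₀ (by linarith)] at h3
  obtain ⟨Cs, hCs, hNM⟩ := hN r d β η (κ * c₂) c₁ Cu (C d) m hr hd0 hd1 hβ0 hβ1 hm1 hm hη
    (by positivity) hc₁ hc₁1 hCu0 (hC d)
  have hM₀0 : 0 ≤ M₀ := (abs_nonneg _).trans (hM₀ t₁ ⟨ht₁, ht₁T⟩ 0)
  obtain ⟨hNF, hReg⟩ := hR α κ T θ φ hS
  -- the growth factor
  have hZc : ContinuousOn (fun t => 1 + M t ^ r) (Ioo 0 T) :=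
    continuousOn_const.add (hMc.rpow_const fun t _ => Or.inr hr0.le)
  have hZ0 : ∀ t ∈ Ioo 0 T, 0 ≤ 1 + M t ^ r := fun t ht => by
    have := Real.rpow_nonneg (hMH t ht).1 r
    linarith
  have hZi : IntegrableOn (fun t => 1 + M t ^ r) (Ioo t₁ T) :=
    Integrable.add (integrableOn_const (by simp)) hMi
  obtain ⟨t₀, ht₁₀, ht₀T, hsm⟩ := small (fun t => 1 + M t ^ r) t₁ T Cs ht₁T hZi
  have ht₀ : 0 < t₀ := ht₁.trans ht₁₀
  obtain ⟨E, hE1, hE2, hE3, hE4⟩ := growth (fun t => 1 + M t ^ r) t₀ T Cs ht₀ hZc hZ0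
    (hZi.mono_set (Ioo_subset_Ioo_left ht₁₀.le)) hCs.le hsm
  obtain ⟨n₀, hn₀, hTC⟩ := hT T θ hReg M₀ η ε β β' t₀ m E ht₀ ht₀T hM₀ hm1 hη hε0 hβ0 hββ' hβ'1
    hE1 hE2
  obtain ⟨n, hn⟩ : ∃ n : ℝ, n = max n₀ (2 * M₀) := ⟨_, rfl⟩
  have hn1 : n₀ ≤ n := by rw [hn]; exact le_max_left _ _
  have hn2 : 2 * M₀ ≤ n := by rw [hn]; exact le_max_right _ _
  have hn0 : 0 ≤ n := hn₀.trans hn1
  refine ⟨t₀, n, m, ht₁₀, ht₀T, hn0, hm1, ?_⟩
  have hO3 : ∀ l : P2, 0 < |l.2| → 0 ≤ O3 η n ε β β' m l := by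
    intro l hl
    unfold O3
    have h1 : 0 ≤ max (|l.1| - |l.2|) 0 := le_max_right _ _
    positivity
  rcases hTC n hn1 with h | ⟨t, x, h, ht0, htT, hh0, hh1, hh, hOm, hall⟩
  · intro t ht y l hl
    exact (h t ht y l hl).trans (mul_le_mul_of_nonneg_right (hE4 t ht) (hO3 l hl.1))
  · exfalso
    have htI : t ∈ Ioo 0 T := ⟨ht₀.trans ht0, htT⟩
    have htJ : t ∈ Ico t₀ T := ⟨ht0.le, htT⟩
    have htK : t ∈ Icc t₀ t := ⟨ht0.le, le_rfl⟩
    have hnf := hNF t htI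
    have hEt := hE2 t htJ
    have hEt2 := hE4 t htJ
    have hE0 : 0 < E t := by linarith
    have hRqh : h ∈ Rq := ⟨hh0, hh1.le, hh.le⟩
    obtain ⟨hMt, hH1⟩ := hMH t htI
    have hF' := hF α κ T θ φ hS η n ε β β' t₀ t _ m E x h ht₀ ht0 htT hη.le hn0 hε0 hβ0.le
      hβ1.le (by linarith) hβ'1.le hm1 hh0 hh1 hh hE0.le (hE3 t ⟨ht0, htT⟩) hOm hall
    have hmax : ∀ y, θ t (y + h) - θ t y ≤ θ t (x + h) - θ t x := fun y => by
      rw [hOm]
      exact (le_abs_self _).trans (hall t htK y h hRqh)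
    have hline : ∀ (y : P2) (a : ℝ), 0 < |a| → |a| ≤ 1 →
        |θ t (y.1, y.2 + a) - θ t y| ≤ E t * η * |a| ^ β + E t * n * |a| ^ β' := by
      intro y a ha0 ha1
      have h1 := hall t htK y (0, a) ⟨ha0, ha1, by
        show |(0 : ℝ)| ≤ 1
        rw [abs_zero]
        norm_num⟩
      have h3 : y + ((0 : ℝ), a) = (y.1, y.2 + a) := by
        ext
        · simp
        · simp
      have h4 : O3 η n ε β β' m (0, a) = η * |a| ^ β + n * |a| ^ β' := by
        unfold O3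
        have h5 : max (|(0 : ℝ)| - |a|) 0 = 0 := by
          rw [abs_zero]
          exact max_eq_right (by linarith)
        simp only [h5]
        rw [zero_pow (by omega : 2 * m ≠ 0)]
        ring
      rw [h3, h4] at h1
      linarith
    have hH2 : H2s (θ t) (E t * η) β (E t * n) β' := by
      intro y a
      rcases eq_or_ne a 0 with rfl | ha
      · have h0 : |θ t (y.1, y.2 + 0) - θ t y| = 0 := by simp
        rw [h0]
        have h1 : (0 : ℝ) ≤ |(0 : ℝ)| ^ β := Real.rpow_nonneg (abs_nonneg _) _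
        have h2 : (0 : ℝ) ≤ |(0 : ℝ)| ^ β' := Real.rpow_nonneg (abs_nonneg _) _
        positivity
      · have ha0 : 0 < |a| := abs_pos.2 ha
        rcases le_total |a| 1 with h1 | h1
        · exact hline y a ha0 h1
        · have e1 := hM₀ t htI (y.1, y.2 + a)
          have e2 := hM₀ t htI y
          have e3 : |θ t (y.1, y.2 + a) - θ t y| ≤ |θ t (y.1, y.2 + a)| + |θ t y| := abs_sub _ _
          have e4 : (1 : ℝ) ≤ |a| ^ β' := Real.one_le_rpow h1 (by linarith)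
          have e5 : 0 ≤ E t * η * |a| ^ β := by positivity
          have e6 : n ≤ E t * n := le_mul_of_one_le_left hn0 hEt
          have e7 : E t * n ≤ E t * n * |a| ^ β' := le_mul_of_one_le_right (by positivity) e4
          linarith
    -- the quantities
    obtain ⟨a, ha⟩ : ∃ a : ℝ, a = |h.1| := ⟨_, rfl⟩
    obtain ⟨b, hb⟩ : ∃ b : ℝ, b = |h.2| := ⟨_, rfl⟩
    have ha0 : 0 ≤ a := by rw [ha]; exact abs_nonneg _
    have hb0 : 0 < b := by rw [hb]; exact hh0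
    obtain ⟨s, hs⟩ : ∃ s : ℝ, s = a / b := ⟨_, rfl⟩
    have hs0 : 0 ≤ s := by rw [hs]; positivity
    obtain ⟨N, hNdef⟩ : ∃ N : ℝ, N = E t * (η + n * b ^ (β' - β)) := ⟨_, rfl⟩
    have hbd : 0 ≤ b ^ (β' - β) := Real.rpow_nonneg hb0.le _
    have hw : 0 < b ^ β := Real.rpow_pos_of_pos hb0 _
    have hB : 0 < b ^ (β - 1) := Real.rpow_pos_of_pos hb0 _
    have hKN : E t * η ≤ N := by
      rw [hNdef]
      refine mul_le_mul_of_nonneg_left ?_ hE0.le
      have : 0 ≤ n * b ^ (β' - β) := by positivity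
      linarith
    have hN0 : 0 < N := lt_of_lt_of_le (by positivity) hKN
    have hNw : E t * η * b ^ β + E t * n * b ^ β' = b ^ β * N := by
      rw [hNdef, pow_d hb0]
      field_simp
    obtain ⟨Y, hY⟩ : ∃ Y : ℝ, Y = M t * b ^ (2 * α / r) := ⟨_, rfl⟩
    have hY0 : 0 ≤ Y := by rw [hY]; positivity
    obtain ⟨ω, hω⟩ : ∃ ω : ℝ, ω = N + 2 * (E t * ε) * s ^ 2 +
      E t * η * (max (s - 1) 0) ^ (2 * m) := ⟨_, rfl⟩
    have hP0 : 0 ≤ max (s - 1) 0 := le_max_right _ _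
    have hω0 : 0 < ω := by
      rw [hω]
      positivity
    have hΩ : θ t (x + h) - θ t x = b ^ β * ω := by
      rw [hOm, hω, hNdef, hs, ← O3_eq hb0]
      unfold O3
      rw [← ha, ← hb, ha, sq_abs]
    have hbdd : b ^ d = b ^ β * b ^ (2 * α / r) := by
      rw [hd, Real.rpow_add hb0]
    have hMa : M t * a ^ d = b ^ β * (Y * s ^ d) := by
      rw [a_pow ha0 hb0, hbdd, hY, hs]
      ring
    have hεa : ε * a ^ β = b ^ β * (ε * s ^ β) := by
      rw [a_pow ha0 hb0, hs]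
      ring
    -- the inequality (star)
    have hstar : 2 * (E t * ε) * s ^ 2 + E t * η * (max (s - 1) 0) ^ (2 * m) ≤
        Y * s ^ d + ε * s ^ β := by
      have h1 := hH1 (x.1, x.2 + h.2) h.1
      have h2 := hline x h.2 hh0 hh1.le
      have h3 : x + h = (x.1 + h.1, x.2 + h.2) := rfl
      have h4 := le_abs_self (θ t (x.1 + h.1, x.2 + h.2) - θ t (x.1, x.2 + h.2))
      have h5 := le_abs_self (θ t (x.1, x.2 + h.2) - θ t x)
      rw [← ha, hMa, hεa] at h1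
      rw [← hb, hNw] at h2
      rw [h3] at hΩ
      have h6 : b ^ β * (N + 2 * (E t * ε) * s ^ 2 + E t * η * (max (s - 1) 0) ^ (2 * m)) ≤
          b ^ β * (N + (Y * s ^ d + ε * s ^ β)) := by
        rw [← hω, ← hΩ]
        have h7 : b ^ β * (N + (Y * s ^ d + ε * s ^ β)) =
          b ^ β * (Y * s ^ d) + b ^ β * (ε * s ^ β) + b ^ β * N := by ring
        rw [h7]
        simp only at h1
        linarith
      have h8 := le_of_mul_le_mul_left h6 hw
      linarith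
    have hNM' := hNM N (E t * η) (E t * ε) ε s Y
      (le_mul_of_one_le_left hη.le hEt) (mul_le_mul_of_nonneg_right hEt2 hη.le) hKN hε0
      (le_mul_of_one_le_left hε0 hEt) (mul_le_mul_of_nonneg_right hEt2 hε0) hεη hεκ hs0 hY0 hstar
    -- the velocity
    have hU1 : ‖IF (V1 (φ t)) (x + h) - IF (V1 (φ t)) x‖ ≤ b ^ β * (Cu * N * (1 + s)) := by
      have h1 := (hUB β β' hβ0 hβ1 (by linarith) hβ'1 (θ t) (φ t) (E t * η) (E t * n) hnf
        (by positivity) (by positivity)).2 hH2 x h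
      rw [← ha, ← hb] at h1
      have h2 := add_pow_le ha0 hb0 hβ1.le
      have h3 := add_pow_le ha0 hb0 hβ'1.le
      rw [← hs] at h2 h3
      have h4 : 0 ≤ (a + b) ^ β := Real.rpow_nonneg (by positivity) _
      have h5 : 0 ≤ (a + b) ^ β' := Real.rpow_nonneg (by positivity) _
      calc ‖IF (V1 (φ t)) (x + h) - IF (V1 (φ t)) x‖ ≤
            C β * (E t * η) * (a + b) ^ β + C β' * (E t * n) * (a + b) ^ β' := h1
        _ ≤ Cu * (E t * η) * (b ^ β * (1 + s)) + Cu * (E t * n) * (b ^ β' * (1 + s)) := by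
            gcongr
        _ = Cu * (E t * η * b ^ β + E t * n * b ^ β') * (1 + s) := by ring
        _ = _ := by rw [hNw]; ring
    have hU2 : ‖IF (V2 (φ t)) (x + h) - IF (V2 (φ t)) x‖ ≤
        b ^ β * (C d * Y * (1 + s) ^ d + Cu * ε * (1 + s) ^ β) := by
      have h1 := (hUB d β hd0 hd1 hβ0 hβ1 (θ t) (φ t) (M t) ε hnf hMt hε0).1 hH1 x h
      rw [← ha, ← hb, add_pow ha0 hb0 d, add_pow ha0 hb0 β, ← hs, hbdd] at h1
      have h4 : 0 ≤ (1 + s) ^ β := Real.rpow_nonneg (by positivity) _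
      calc ‖IF (V2 (φ t)) (x + h) - IF (V2 (φ t)) x‖ ≤
            C d * M t * (b ^ β * b ^ (2 * α / r) * (1 + s) ^ d) +
              C β * ε * (b ^ β * (1 + s) ^ β) := h1
        _ ≤ C d * M t * (b ^ β * b ^ (2 * α / r) * (1 + s) ^ d) +
              Cu * ε * (b ^ β * (1 + s) ^ β) := by gcongr
        _ = _ := by rw [hY]; ring
    -- the dissipation
    have hD0 := hL0 α hα hα' (θ t) (φ t) hnf x h hmax
    have hDiss : b ^ β * b ^ (β - 1) *
        (if Y * s ^ d + ε * s ^ β ≤ c₁ * N then κ * c₂ * N else 0) ≤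
        κ * (IF (LL α (φ t)) (x + h) - IF (LL α (φ t)) x).re := by
      split_ifs with hc
      · have h1 := hRFL (θ t) (φ t) hnf (E t * η) (E t * n) (M t * a ^ d + ε * a ^ β) x h
          (by positivity) (by positivity) hH2 (abs_pos.1 hh0) (fun y => by
            have h2 := hH1 y h.1
            rw [← ha] at h2
            exact (le_abs_self _).trans (by rw [abs_abs]; exact h2)) (by
            rw [← hb, hNw, hMa, hεa]
            calc b ^ β * (Y * s ^ d) + b ^ β * (ε * s ^ β) =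
                b ^ β * (Y * s ^ d + ε * s ^ β) := by ring
              _ ≤ b ^ β * (c₁ * N) := mul_le_mul_of_nonneg_left hc hw.le
              _ = _ := by ring) (by
            rw [← hb, hNw, hΩ]
            refine mul_le_mul_of_nonneg_left ?_ hw.le
            rw [hω]
            have h2 : 0 ≤ 2 * (E t * ε) * s ^ 2 := by positivity
            have h3 : 0 ≤ E t * η * (max (s - 1) 0) ^ (2 * m) := by positivity
            linarith) hmax
        rw [← hb, hNw] at h1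
        have h2 : -2 * α = β - 1 := by rw [hβ]; ring
        rw [h2] at h1
        calc b ^ β * b ^ (β - 1) * (κ * c₂ * N) = κ * (c₂ * (b ^ β * N) * b ^ (β - 1)) := by ring
          _ ≤ _ := mul_le_mul_of_nonneg_left h1 hκ.le
      · rw [mul_zero]
        exact mul_nonneg hκ.le hD0
    -- the end
    rw [← ha, ← hb] at hF'
    have hsq : h.1 ^ 2 = a ^ 2 := by rw [ha, sq_abs]
    rw [hsq, F1_eq hb0 _ _ _ _ _ hm1, F2_eq hb0 _ _ _ _ _ _ _ hm1, ← hs, ← hNdef] at hF'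
    have hμr : M t ^ r = Y ^ r * b ^ (β - 1) := by
      rw [hY, Real.mul_rpow hMt (Real.rpow_nonneg hb0.le _), ← Real.rpow_mul hb0.le, mul_assoc,
        ← Real.rpow_add hb0]
      have h1 : 2 * α / r * r + (β - 1) = 0 := by
        rw [div_mul_cancel₀ _ hr0.ne', hβ]
        ring
      rw [h1, Real.rpow_zero, mul_one]
    have hF'' : Cs * (1 + M t ^ r) * (b ^ β * ω) +
        κ * (IF (LL α (φ t)) (x + h) - IF (LL α (φ t)) x).re ≤
      ‖IF (V1 (φ t)) (x + h) - IF (V1 (φ t)) x‖ * (b ^ (β - 1) * (4 * (E t * ε) * s +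
          2 * m * (E t * η) * (max (s - 1) 0) ^ (2 * m - 1))) +
      ‖IF (V2 (φ t)) (x + h) - IF (V2 (φ t)) x‖ * (b ^ (β - 1) * (N + 4 * (E t * ε) * s ^ 2 +
          2 * m * (E t * η) * (max (s - 1) 0) ^ (2 * m - 1) * (1 + s))) := by
      refine le_trans (le_of_eq ?_) hF'
      rw [← hΩ, hOm]
      ring
    exact fin_aux hw hB hCs hω0 (by positivity) (by positivity) hU1 hU2 rfl rfl rfl hμr
      rfl (by rw [hω]; exact hNM') hDiss hF''

end Pool.Agent.SQG
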