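import Pool.Agent.SQG.Stmts6

/-!
# TC3: the first touching point, for the modulus `E(t) O3(h)`
-/

set_option autoImplicit false

namespace Pool.Agent.SQG

open Complex MeasureTheory Set Filter Topology ProbabilityTheory

namespace TC3Aux

lemma o3_neg (η n ε β β' : ℝ) (m : ℕ) (h : P2) : O3 η n ε β β' m (-h) = O3 η n ε β β' m h := by
  simp [O3]

lemma o3_p (β : ℝ) (m : ℕ) (h : P2) :
    0 ≤ (max (|h.1| - |h.2|) 0) ^ (2 * m) * |h.2| ^ (β - 2 * m) := by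
  have : 0 ≤ max (|h.1| - |h.2|) 0 := le_max_right _ _
  positivity

lemma o3_ge1 (η n ε β β' : ℝ) (m : ℕ) (_hη : 0 ≤ η) (hn : 0 ≤ n) (hε : 0 ≤ ε) (h : P2) :
    η * |h.2| ^ β + η * ((max (|h.1| - |h.2|) 0) ^ (2 * m) * |h.2| ^ (β - 2 * m)) ≤
      O3 η n ε β β' m h := by
  unfold O3
  have h1 : 0 ≤ n * |h.2| ^ β' := by positivity
  have h2 : 0 ≤ 2 * ε * h.1 ^ 2 * |h.2| ^ (β - 2) := by positivity
  linarith

lemma o3_ge2 (η n ε β β' : ℝ) (m : ℕ) (hη : 0 ≤ η) (_hn : 0 ≤ n) (hε : 0 ≤ ε) (h : P2) :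
    n * |h.2| ^ β' ≤ O3 η n ε β β' m h := by
  unfold O3
  have h1 : 0 ≤ η * |h.2| ^ β := by positivity
  have h2 : 0 ≤ 2 * ε * h.1 ^ 2 * |h.2| ^ (β - 2) := by positivity
  have h3 := mul_nonneg hη (o3_p β m h)
  linarith

lemma o3_ge0 (η n ε β β' : ℝ) (m : ℕ) (hη : 0 ≤ η) (hn : 0 ≤ n) (hε : 0 ≤ ε) (h : P2) :
    η * |h.2| ^ β ≤ O3 η n ε β β' m h := by
  have h1 := o3_ge1 η n ε β β' m hη hn hε h
  have h3 := mul_nonneg hη (o3_p β m h)
  linarith

lemma o3_nonneg (η n ε β β' : ℝ) (m : ℕ) (hη : 0 ≤ η) (hn : 0 ≤ n) (hε : 0 ≤ ε) (h : P2) :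
    0 ≤ O3 η n ε β β' m h :=
  (mul_nonneg hη (by positivity)).trans (o3_ge0 η n ε β β' m hη hn hε h)

lemma rpow_split {b : ℝ} (hb : 0 < b) (β : ℝ) (m : ℕ) :
    b ^ (β - 2 * m) = b ^ β / b ^ (2 * m) := by
  rw [Real.rpow_sub hb, ← Real.rpow_natCast b (2 * m)]
  push_cast
  rfl

/-- An elementary inequality. -/
lemma elem (L a b η β : ℝ) (m : ℕ) (hL : 0 ≤ L) (ha : 0 ≤ a) (hb : 0 < b) (hη : 0 < η)
    (hm : 1 ≤ m) (h : 12 * L * b ^ (1 - β) < η) :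
    L * (a + b) < η * b ^ β + η * ((max (a - b) 0) ^ (2 * m) * b ^ (β - 2 * m)) := by
  have hbβ : 0 < b ^ β := Real.rpow_pos_of_pos hb β
  have hb1 : b = b ^ (1 - β) * b ^ β := by
    rw [← Real.rpow_add hb]
    norm_num
  have h1 : 12 * (L * b) ≤ η * b ^ β := by
    calc 12 * (L * b) = 12 * L * b ^ (1 - β) * b ^ β := by
          rw [mul_assoc (12 * L), ← hb1]; ring
      _ ≤ η * b ^ β := mul_le_mul_of_nonneg_right h.le hbβ.le
  have hηb : 0 < η * b ^ β := mul_pos hη hbβ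
  rcases le_or_gt a (2 * b) with hab | hab
  · have h2 : 0 ≤ η * ((max (a - b) 0) ^ (2 * m) * b ^ (β - 2 * m)) := by
      have : 0 ≤ max (a - b) 0 := le_max_right _ _
      positivity
    have h3 : L * (a + b) ≤ L * (3 * b) := mul_le_mul_of_nonneg_left (by linarith) hL
    nlinarith
  · have hP : max (a - b) 0 = a - b := max_eq_left (by linarith)
    rw [hP, rpow_split hb]
    have h4 : (a - b) ^ (2 * m) * (b ^ β / b ^ (2 * m)) = ((a - b) / b) ^ (2 * m) * b ^ β := by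
      rw [div_pow]; ring
    rw [h4]
    have h5 : 1 ≤ (a - b) / b := by
      rw [le_div_iff₀ hb]; linarith
    have h6 : (a - b) / b ≤ ((a - b) / b) ^ (2 * m) := le_self_pow₀ h5 (by omega)
    have h7 : a / (2 * b) ≤ (a - b) / b := by
      rw [div_le_div_iff₀ (by positivity) hb]
      nlinarith
    have h8 : η * (a / (2 * b) * b ^ β) ≤ η * (((a - b) / b) ^ (2 * m) * b ^ β) :=
      mul_le_mul_of_nonneg_left (mul_le_mul_of_nonneg_right (h7.trans h6) hbβ.le) hη.le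
    have h9 : L * (a + b) ≤ η * (a / (2 * b) * b ^ β) := by
      have e1 : η * (a / (2 * b) * b ^ β) = (η * b ^ β) * (a / (2 * b)) := by ring
      rw [e1]
      calc L * (a + b) ≤ L * (2 * a) := mul_le_mul_of_nonneg_left (by linarith) hL
        _ ≤ 12 * (L * b) * (a / (2 * b)) := by
            have e2 : 12 * (L * b) * (a / (2 * b)) = 6 * (L * a) := by
              field_simp
              ring
            rw [e2]
            have := mul_nonneg hL ha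
            linarith
        _ ≤ (η * b ^ β) * (a / (2 * b)) := mul_le_mul_of_nonneg_right h1 (by positivity)
    linarith

/-- A bad displacement cannot be small. -/
lemma bad (η n ε β β' L : ℝ) (m : ℕ) (hη : 0 < η) (hn : 0 ≤ n) (hε : 0 ≤ ε) (hβ1 : β < 1)
    (hL : 0 ≤ L) (hm : 1 ≤ m) {l : P2}
    (hl : l ∈ Rq) (h : O3 η n ε β β' m l ≤ L * (|l.1| + |l.2|)) :
    (η / (12 * L + 1)) ^ (1 / (1 - β)) ≤ |l.2| := by
  obtain ⟨hb, hb1, ha1⟩ := hl
  have h1 : η ≤ 12 * L * |l.2| ^ (1 - β) := by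
    by_contra hcon
    rw [not_le] at hcon
    have h2 := elem L |l.1| |l.2| η β m hL (abs_nonneg _) hb hη hm hcon
    have h3 := o3_ge1 η n ε β β' m hη.le hn hε l
    linarith
  have h6' : 0 < |l.2| ^ (1 - β) := by positivity
  have h8 : η / (12 * L + 1) ≤ |l.2| ^ (1 - β) := by
    rw [div_le_iff₀ (by positivity)]
    linarith
  have hlb : 0 < 1 - β := by linarith
  calc (η / (12 * L + 1)) ^ (1 / (1 - β)) ≤ (|l.2| ^ (1 - β)) ^ (1 / (1 - β)) :=
        Real.rpow_le_rpow (by positivity) h8 (by positivity)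
    _ = |l.2| := by
        rw [← Real.rpow_mul hb.le, mul_one_div_cancel hlb.ne', Real.rpow_one]

/-- The values for `|h₁| = 1`. -/
lemma side (η n ε β β' M₀ b₃ : ℝ) (m : ℕ) (hη : 0 < η) (hn : 0 ≤ n) (hε : 0 ≤ ε) (hβ1 : β < 1)
    (hm : 1 ≤ m) (hβ' : 0 < β') (hM₀ : 0 ≤ M₀) (hb₃ : 0 < b₃) (hb₃1 : b₃ ≤ 1 / 2)
    (hb₃2 : b₃ ≤ η / (4 ^ m * (2 * M₀ + 1))) (hn2 : 2 * M₀ < n * b₃ ^ β') {h : P2}
    (hh : h ∈ Rq) (h1 : |h.1| = 1) : 2 * M₀ < O3 η n ε β β' m h := by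
  obtain ⟨hb, hb1, -⟩ := hh
  rcases le_total |h.2| b₃ with hc | hc
  · have e1 := o3_ge1 η n ε β β' m hη.le hn hε h
    have e2 : 1 / 2 ≤ max (|h.1| - |h.2|) 0 := by
      refine le_trans ?_ (le_max_left _ _)
      rw [h1]
      linarith
    have e3 : (1 / 2 : ℝ) ^ (2 * m) ≤ (max (|h.1| - |h.2|) 0) ^ (2 * m) :=
      pow_le_pow_left₀ (by norm_num) e2 _
    have e4 : (1 / 2 : ℝ) ^ (2 * m) = (4 ^ m)⁻¹ := by
      rw [pow_mul, ← inv_pow]
      norm_num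
    have hm' : (1 : ℝ) ≤ m := by exact_mod_cast hm
    have e5 : |h.2|⁻¹ ≤ |h.2| ^ (β - 2 * m) := by
      rw [← Real.rpow_neg_one]
      exact Real.rpow_le_rpow_of_exponent_ge hb hb1 (by linarith)
    have e6 : 2 * M₀ + 1 ≤ η * ((4 ^ m)⁻¹ * |h.2|⁻¹) := by
      have f1 : |h.2| ≤ η / (4 ^ m * (2 * M₀ + 1)) := hc.trans hb₃2
      rw [le_div_iff₀ (by positivity)] at f1
      have f2 : η * ((4 ^ m)⁻¹ * |h.2|⁻¹) = η / (4 ^ m * |h.2|) := by
        rw [div_eq_mul_inv, mul_inv]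
      rw [f2, le_div_iff₀ (by positivity)]
      linarith
    have e7 : η * ((4 ^ m)⁻¹ * |h.2|⁻¹) ≤
        η * ((max (|h.1| - |h.2|) 0) ^ (2 * m) * |h.2| ^ (β - 2 * m)) := by
      refine mul_le_mul_of_nonneg_left ?_ hη.le
      rw [← e4]
      exact mul_le_mul e3 e5 (by positivity) (by positivity)
    have e8 : 0 ≤ η * |h.2| ^ β := by positivity
    linarith
  · have e1 := o3_ge2 η n ε β β' m hη.le hn hε h
    have e2 : n * b₃ ^ β' ≤ n * |h.2| ^ β' :=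
      mul_le_mul_of_nonneg_left (Real.rpow_le_rpow hb₃.le hc hβ'.le) hn
    linarith

/-- the compact set of the parameters -/
def box (t₀ t₁ R w : ℝ) : Set (ℝ × P2 × P2) :=
  Icc t₀ t₁ ×ˢ (Icc (-R) R ×ˢ Icc (-R) R) ×ˢ
    ((Icc (-1) 1 ×ˢ Icc (-1) 1) ∩ {k : P2 | w ≤ |k.2|})

lemma box_compact (t₀ t₁ R w : ℝ) : IsCompact (box t₀ t₁ R w) := by
  unfold box
  refine isCompact_Icc.prod ((isCompact_Icc.prod isCompact_Icc).prod ?_)
  refine (isCompact_Icc.prod isCompact_Icc).inter_right ?_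
  have c2 : Continuous fun k : P2 => |k.2| := continuous_snd.abs
  exact isClosed_le continuous_const c2

lemma box_cont {T : ℝ} {θ : ℝ → P2 → ℝ} (hR : Reg T θ) (η n ε β β' : ℝ) (m : ℕ) (E : ℝ → ℝ)
    (t₀ t₁ R w : ℝ) (h0 : 0 < t₀) (h1 : t₁ < T) (hw : 0 < w) (hE : ContinuousOn E (Ico t₀ T)) :
    ContinuousOn (fun q : ℝ × P2 × P2 => |θ q.1 (q.2.1 + q.2.2) - θ q.1 q.2.1| -
      E q.1 * O3 η n ε β β' m q.2.2) (box t₀ t₁ R w) := by
  have ht : ∀ q ∈ box t₀ t₁ R w, q.1 ∈ Ioo 0 T := by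
    intro q hq
    exact ⟨h0.trans_le hq.1.1, hq.1.2.trans_lt h1⟩
  have hne : ∀ q ∈ box t₀ t₁ R w, |q.2.2.2| ≠ 0 := by
    intro q hq
    exact (hw.trans_le hq.2.2.2).ne'
  have a1 : ContinuousOn (fun q : ℝ × P2 × P2 => θ q.1 (q.2.1 + q.2.2))
      (box t₀ t₁ R w) := by
    refine hR.cont.comp (f := fun q : ℝ × P2 × P2 => (q.1, q.2.1 + q.2.2))
      (by fun_prop) ?_
    intro q hq
    exact ⟨ht q hq, mem_univ _⟩
  have a2 : ContinuousOn (fun q : ℝ × P2 × P2 => θ q.1 q.2.1)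
      (box t₀ t₁ R w) := by
    refine hR.cont.comp (f := fun q : ℝ × P2 × P2 => (q.1, q.2.1))
      (by fun_prop) ?_
    intro q hq
    exact ⟨ht q hq, mem_univ _⟩
  have a3 : ContinuousOn (fun q : ℝ × P2 × P2 => E q.1) (box t₀ t₁ R w) := by
    refine hE.comp (f := fun q : ℝ × P2 × P2 => q.1) (by fun_prop) ?_
    intro q hq
    exact ⟨hq.1.1, hq.1.2.trans_lt h1⟩
  have c1 : ContinuousOn (fun q : ℝ × P2 × P2 => |q.2.2.2|) (box t₀ t₁ R w) := by
    fun_prop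
  refine (a1.sub a2).abs.sub (a3.mul ?_)
  unfold O3
  have r : ∀ x : ℝ, ContinuousOn (fun q : ℝ × P2 × P2 => |q.2.2.2| ^ x) (box t₀ t₁ R w) :=
    fun x => c1.rpow_const fun q hq => Or.inl (hne q hq)
  refine ((((r β).const_mul η).add ((r β').const_mul n)).add ?_).add ?_
  · refine ContinuousOn.mul ?_ (r _)
    fun_prop
  · refine ContinuousOn.mul ?_ (r _)
    fun_prop

end TC3Aux

open TC3Aux in
theorem tc3 : Stmt_TC3 := by
  intro T θ hReg M₀ η ε β β' t₀ m E ht₀ htT hM₀ hm hη hε hβ hββ hβ1' hEc hE1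
  have hm' : (1 : ℝ) ≤ m := by exact_mod_cast hm
  have hβ' : 0 < β' := hβ.trans hββ
  have hβ1 : β < 1 := hββ.trans hβ1'
  have hM₀0 : 0 ≤ M₀ := (abs_nonneg _).trans (hM₀ t₀ ⟨ht₀, htT⟩ 0)
  obtain ⟨L₀, hL₀0, hL₀⟩ := hReg.lip t₀ t₀ ht₀ htT
  set w₀ : ℝ := (η / (12 * L₀ + 1)) ^ (1 / (1 - β)) with hw₀
  have hw₀0 : 0 < w₀ := by positivity
  set b₃ : ℝ := min (1 / 2) (η / (4 ^ m * (2 * M₀ + 1))) with hb₃
  have hb₃0 : 0 < b₃ := by
    rw [hb₃]
    refine lt_min (by norm_num) (by positivity)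
  have hw₀β : 0 < w₀ ^ β' := by positivity
  have hb₃β : 0 < b₃ ^ β' := by positivity
  refine ⟨2 * L₀ / w₀ ^ β' + 2 * M₀ / b₃ ^ β' + 2 * M₀ + 1, by positivity, ?_⟩
  intro n hn₀
  have q1 : 0 ≤ 2 * L₀ / w₀ ^ β' := by positivity
  have q2 : 0 ≤ 2 * M₀ / b₃ ^ β' := by positivity
  have hn : 0 < n := by linarith
  have hMn : 2 * M₀ < n := by linarith
  have hLn : 2 * L₀ < n * w₀ ^ β' := by
    rw [← div_lt_iff₀ hw₀β]
    linarith
  have hMb : 2 * M₀ < n * b₃ ^ β' := by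
    rw [← div_lt_iff₀ hb₃β]
    linarith
  have hEO : ∀ t ∈ Ico t₀ T, ∀ l : P2, O3 η n ε β β' m l ≤ E t * O3 η n ε β β' m l := by
    intro t ht l
    have h1 := hE1 t ht
    have h2 := o3_nonneg η n ε β β' m hη.le hn.le hε l
    nlinarith
  -- the set of bad times
  set S : Set ℝ := {t | t ∈ Ico t₀ T ∧ ∃ y l : P2, l ∈ Rq ∧
    E t * O3 η n ε β β' m l ≤ |θ t (y + l) - θ t y|} with hS
  by_cases hne : S.Nonempty
  swap
  · left
    intro t ht y l hl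
    by_contra hcon
    rw [not_le] at hcon
    exact hne ⟨t, ht, y, l, hl, hcon.le⟩
  right
  obtain ⟨t₁, ht₁, hbad⟩ := hne
  obtain ⟨L, hL0, hL⟩ := hReg.lip t₀ t₁ ht₀ ht₁.2
  have hIco : ∀ s ∈ Icc t₀ t₁, s ∈ Ico t₀ T := fun s hs => ⟨hs.1, hs.2.trans_lt ht₁.2⟩
  -- lower bound for `|l₂|`
  set w : ℝ := (η / (12 * L + 1)) ^ (1 / (1 - β)) with hw
  have hw0 : 0 < w := by positivity
  have hη1 : ∀ s ∈ Icc t₀ t₁, ∀ y l : P2, l ∈ Rq →
      E s * O3 η n ε β β' m l ≤ |θ s (y + l) - θ s y| → w ≤ |l.2| := by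
    intro s hs y l hl hb
    have h1 := hL s hs (y + l) y
    have h2 : |(y + l).1 - y.1| + |(y + l).2 - y.2| = |l.1| + |l.2| := by simp
    rw [h2] at h1
    exact bad η n ε β β' L m hη hn.le hε hβ1 hL0 hm hl (((hEO s (hIco s hs) l).trans hb).trans h1)
  -- bound for `y`
  obtain ⟨R, hR⟩ := hReg.dec t₀ t₁ ht₀ ht₁.2 (η * w ^ β / 4) (by positivity)
  set R' : ℝ := max R 0 + 2 with hR'
  have hy : ∀ s ∈ Icc t₀ t₁, ∀ y l : P2, l ∈ Rq →
      E s * O3 η n ε β β' m l ≤ |θ s (y + l) - θ s y| → |y.1| + |y.2| ≤ R' := by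
    intro s hs y l hl hb
    by_contra hcon
    rw [not_le] at hcon
    have e1 := hη1 s hs y l hl hb
    have e2 : η * w ^ β ≤ E s * O3 η n ε β β' m l := by
      refine le_trans ?_ ((o3_ge0 η n ε β β' m hη.le hn.le hε l).trans (hEO s (hIco s hs) l))
      exact mul_le_mul_of_nonneg_left (Real.rpow_le_rpow hw0.le e1 hβ.le) hη.le
    have hk1' : |l.1| ≤ 1 := hl.2.2
    have hk2 := hl.2.1
    have e3 : R ≤ |y.1| + |y.2| := by
      have := le_max_left R 0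
      linarith
    have e4 : R ≤ |(y + l).1| + |(y + l).2| := by
      have i1 : |y.1| - |l.1| ≤ |(y + l).1| := by
        have := abs_sub_abs_le_abs_sub y.1 (-l.1)
        rw [abs_neg, sub_neg_eq_add] at this
        exact this
      have i2 : |y.2| - |l.2| ≤ |(y + l).2| := by
        have := abs_sub_abs_le_abs_sub y.2 (-l.2)
        rw [abs_neg, sub_neg_eq_add] at this
        exact this
      have := le_max_left R 0
      linarith
    have e5 := hR s hs y e3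
    have e6 := hR s hs (y + l) e4
    have e7 : |θ s (y + l) - θ s y| ≤ |θ s (y + l)| + |θ s y| := abs_sub _ _
    have e8 : 0 < η * w ^ β := by positivity
    linarith
  -- the compact set of the bad parameters
  set K : Set (ℝ × P2 × P2) := box t₀ t₁ R' w ∩
    (fun q : ℝ × P2 × P2 => |θ q.1 (q.2.1 + q.2.2) - θ q.1 q.2.1| -
      E q.1 * O3 η n ε β β' m q.2.2) ⁻¹' (Ici 0) with hK
  have hKc : IsCompact K := by
    have hb := box_compact t₀ t₁ R' w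
    refine hb.of_isClosed_subset ?_ inter_subset_left
    exact (box_cont hReg η n ε β β' m E t₀ t₁ R' w ht₀ ht₁.2 hw0
      hEc).preimage_isClosed_of_isClosed hb.isClosed isClosed_Ici
  have hmemK : ∀ s ∈ Icc t₀ t₁, ∀ y l : P2, l ∈ Rq →
      E s * O3 η n ε β β' m l ≤ |θ s (y + l) - θ s y| → (s, y, l) ∈ K := by
    intro s hs y l hl hb
    have e1 := hη1 s hs y l hl hb
    have e2 := hy s hs y l hl hb
    have f1 := abs_nonneg y.1
    have f2 := abs_nonneg y.2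
    have g1 := abs_le.1 (show |y.1| ≤ R' by linarith)
    have g2 := abs_le.1 (show |y.2| ≤ R' by linarith)
    refine ⟨⟨hs, ⟨g1, g2⟩, ⟨abs_le.1 hl.2.2, abs_le.1 hl.2.1⟩, e1⟩, ?_⟩
    simp only [mem_preimage, mem_Ici]
    linarith
  have hKS : ∀ q ∈ K, q.1 ∈ Icc t₀ t₁ ∧ q.2.2 ∈ Rq ∧
      E q.1 * O3 η n ε β β' m q.2.2 ≤ |θ q.1 (q.2.1 + q.2.2) - θ q.1 q.2.1| := by
    intro q hq
    refine ⟨hq.1.1, ⟨hw0.trans_le hq.1.2.2.2, abs_le.2 hq.1.2.2.1.2, abs_le.2 hq.1.2.2.1.1⟩, ?_⟩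
    have := hq.2
    simp only [mem_preimage, mem_Ici] at this
    linarith
  have hKne : K.Nonempty := by
    obtain ⟨y, l, hl, hb⟩ := hbad
    exact ⟨_, hmemK t₁ ⟨ht₁.1, le_rfl⟩ y l hl hb⟩
  obtain ⟨q, hqK, hqmin⟩ := hKc.exists_isMinOn hKne continuous_fst.continuousOn
  obtain ⟨t, y, l⟩ := q
  obtain ⟨hpt, hpk, hpb⟩ := hKS _ hqK
  simp only at hpt hpk hpb
  have htI : t ∈ Ioo 0 T := ⟨ht₀.trans_le hpt.1, hpt.2.trans_lt ht₁.2⟩
  have htE := hIco t hpt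
  -- `t₀ < t`
  have htt : t₀ < t := by
    rcases hpt.1.lt_or_eq with h | h
    · exact h
    exfalso
    rw [← h] at hpb
    have h1 := hL₀ t₀ ⟨le_rfl, le_rfl⟩ (y + l) y
    have h2 : |(y + l).1 - y.1| + |(y + l).2 - y.2| = |l.1| + |l.2| := by simp
    rw [h2] at h1
    have h0 := ((hEO t₀ ⟨le_rfl, htT⟩ l).trans hpb).trans h1
    have h3 := bad η n ε β β' L₀ m hη hn.le hε hβ1 hL₀0 hm hpk h0
    have h4 : n * w₀ ^ β' ≤ n * |l.2| ^ β' :=
      mul_le_mul_of_nonneg_left (Real.rpow_le_rpow hw₀0.le h3 hβ'.le) hn.le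
    have h5 := o3_ge2 η n ε β β' m hη.le hn.le hε l
    have h6 : L₀ * (|l.1| + |l.2|) ≤ L₀ * 2 :=
      mul_le_mul_of_nonneg_left (by linarith [hpk.2.1, hpk.2.2]) hL₀0
    linarith
  -- before `t`
  have hbef : ∀ s ∈ Ico t₀ t, ∀ y' l' : P2, l' ∈ Rq →
      |θ s (y' + l') - θ s y'| < E s * O3 η n ε β β' m l' := by
    intro s hs y' l' hl'
    by_contra hcon
    rw [not_lt] at hcon
    have h1 := hmemK s ⟨hs.1, hs.2.le.trans hpt.2⟩ y' l' hl' hcon
    have h2 : t ≤ s := hqmin h1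
    exact absurd hs.2 (not_lt.2 h2)
  have hle : ∀ s ∈ Icc t₀ t, ∀ y' l' : P2, l' ∈ Rq →
      |θ s (y' + l') - θ s y'| ≤ E s * O3 η n ε β β' m l' := by
    intro s hs y' l' hl'
    rcases hs.2.lt_or_eq with h | h
    · exact (hbef s ⟨hs.1, h⟩ y' l' hl').le
    rw [h]
    have hc : ∀ z : P2, Tendsto (fun s => θ s z) (𝓝[<] t) (𝓝 (θ t z)) := by
      intro z
      have h1 : ContinuousOn (fun s => θ s z) (Ioo 0 T) :=
        hReg.cont.comp (f := fun s : ℝ => (s, z)) (by fun_prop)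
          fun s hs => ⟨hs, mem_univ _⟩
      exact ((h1.continuousAt (Ioo_mem_nhds htI.1 htI.2)).tendsto).mono_left
        nhdsWithin_le_nhds
    have hcE : Tendsto E (𝓝[<] t) (𝓝 (E t)) :=
      ((hEc.continuousAt (Ico_mem_nhds htt htI.2)).tendsto).mono_left nhdsWithin_le_nhds
    have h2 : Tendsto (fun s => |θ s (y' + l') - θ s y'|) (𝓝[<] t)
        (𝓝 |θ t (y' + l') - θ t y'|) := ((hc _).sub (hc _)).abs
    have h3 : Tendsto (fun s => E s * O3 η n ε β β' m l') (𝓝[<] t)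
        (𝓝 (E t * O3 η n ε β β' m l')) := hcE.mul_const _
    refine le_of_tendsto_of_tendsto h2 h3 ?_
    filter_upwards [Ico_mem_nhdsLT htt] with s hs
    exact (hbef s hs y' l' hl').le
  -- equality
  have hfin : ∀ x h : P2, h ∈ Rq → θ t (x + h) - θ t x = E t * O3 η n ε β β' m h →
      |h.2| < 1 ∧ |h.1| < 1 := by
    intro x h hh heq
    have hh0 : 0 < |h.2| := hh.1
    have h3 := abs_le.1 (hM₀ t htI (x + h))
    have h4 := abs_le.1 (hM₀ t htI x)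
    have h5 := hEO t htE h
    constructor
    · rcases hh.2.1.lt_or_eq with h1 | h1
      · exact h1
      exfalso
      have h2 := o3_ge2 η n ε β β' m hη.le hn.le hε h
      rw [h1, Real.one_rpow, mul_one] at h2
      linarith [h3.2, h4.1]
    · rcases hh.2.2.lt_or_eq with h1 | h1
      · exact h1
      exfalso
      have h2 := side η n ε β β' M₀ b₃ m hη hn.le hε hβ1 hm hβ' hM₀0 hb₃0 (min_le_left _ _)
        (min_le_right _ _) hMb hh h1
      linarith [h3.2, h4.1]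
  have heq := le_antisymm (hle t ⟨htt.le, le_rfl⟩ y l hpk) hpb
  rcases le_total 0 (θ t (y + l) - θ t y) with hs | hs
  · rw [abs_of_nonneg hs] at heq
    obtain ⟨f1, f2⟩ := hfin y l hpk heq
    exact ⟨t, y, l, htt, htI.2, hpk.1, f1, f2, heq, hle⟩
  · rw [abs_of_nonpos hs] at heq
    have hk' : -l ∈ Rq := by
      refine ⟨?_, ?_, ?_⟩
      · simpa using abs_pos.1 hpk.1
      · simpa using hpk.2.1
      · simpa using hpk.2.2
    have heq' : θ t (y + l + -l) - θ t (y + l) = E t * O3 η n ε β β' m (-l) := by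
      rw [o3_neg, ← heq, add_neg_cancel_right]
      ring
    obtain ⟨f1, f2⟩ := hfin (y + l) (-l) hk' heq'
    exact ⟨t, y + l, -l, htt, htI.2, hk'.1, f1, f2, heq', hle⟩

end Pool.Agent.SQG
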