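import Pool.Agent.SQG.Stmts6

/-!
# TCI: the first touching point, for the modulus `N |h|^β`   (helper19, adapted from `Tc2.lean`)
-/

set_option autoImplicit false

namespace Pool.Agent.SQG

open Complex MeasureTheory Set Filter Topology ProbabilityTheory

namespace TCIAux

lemma nm_neg' (h : P2) : nm (-h) = nm h := by simp [nm]

lemma nm_nonneg' (h : P2) : 0 ≤ nm h := Real.sqrt_nonneg _

lemma nm_cont' : Continuous nm := by
  unfold nm
  fun_prop

lemma abs1 (h : P2) : |h.1| ≤ nm h := Real.abs_le_sqrt (by nlinarith [sq_nonneg h.2])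

lemma abs2 (h : P2) : |h.2| ≤ nm h := Real.abs_le_sqrt (by nlinarith [sq_nonneg h.1])

lemma eq_zero_of_nm {h : P2} (hh : nm h = 0) : h = 0 := by
  have h1 := abs1 h
  have h2 := abs2 h
  rw [hh] at h1 h2
  exact Prod.ext (abs_nonpos_iff.1 h1) (abs_nonpos_iff.1 h2)

/-- the compact set of the parameters -/
def box (t₀ t₁ R η : ℝ) : Set (ℝ × P2 × P2) :=
  Icc t₀ t₁ ×ˢ (Icc (-R) R ×ˢ Icc (-R) R) ×ˢ
    ((Icc (-1) 1 ×ˢ Icc (-1) 1) ∩ {k : P2 | η ≤ nm k ∧ nm k ≤ 1})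

lemma box_compact (t₀ t₁ R η : ℝ) : IsCompact (box t₀ t₁ R η) := by
  unfold box
  refine isCompact_Icc.prod ((isCompact_Icc.prod isCompact_Icc).prod ?_)
  refine (isCompact_Icc.prod isCompact_Icc).inter_right ?_
  exact (isClosed_le continuous_const nm_cont').inter (isClosed_le nm_cont' continuous_const)

lemma box_cont {T : ℝ} {θ : ℝ → P2 → ℝ} (hR : Reg T θ) (N β : ℝ) (hβ : 0 < β)
    (t₀ t₁ R η : ℝ) (h0 : 0 < t₀) (h1 : t₁ < T) :
    ContinuousOn (fun q : ℝ × P2 × P2 => |θ q.1 (q.2.1 + q.2.2) - θ q.1 q.2.1| -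
      N * nm q.2.2 ^ β) (box t₀ t₁ R η) := by
  have ht : ∀ q ∈ box t₀ t₁ R η, q.1 ∈ Ioo 0 T := by
    intro q hq
    exact ⟨h0.trans_le hq.1.1, hq.1.2.trans_lt h1⟩
  have a1 : ContinuousOn (fun q : ℝ × P2 × P2 => θ q.1 (q.2.1 + q.2.2))
      (box t₀ t₁ R η) := by
    refine hR.cont.comp (f := fun q : ℝ × P2 × P2 => (q.1, q.2.1 + q.2.2))
      (by fun_prop) ?_
    intro q hq
    exact ⟨ht q hq, mem_univ _⟩
  have a2 : ContinuousOn (fun q : ℝ × P2 × P2 => θ q.1 q.2.1)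
      (box t₀ t₁ R η) := by
    refine hR.cont.comp (f := fun q : ℝ × P2 × P2 => (q.1, q.2.1))
      (by fun_prop) ?_
    intro q hq
    exact ⟨ht q hq, mem_univ _⟩
  have c1 : Continuous (fun q : ℝ × P2 × P2 => nm q.2.2) :=
    nm_cont'.comp (by fun_prop)
  have c2 : Continuous (fun q : ℝ × P2 × P2 => nm q.2.2 ^ β) :=
    c1.rpow_const fun _ => Or.inr hβ.le
  exact (a1.sub a2).abs.sub (c2.const_mul N).continuousOn

/-- A bad displacement cannot be small. -/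
lemma bad {N β L : ℝ} {l : P2} (hL : 0 ≤ L) (hl : 0 < nm l)
    (h : N * nm l ^ β ≤ L * (|l.1| + |l.2|)) :
    N ≤ 2 * L * nm l ^ (1 - β) := by
  have h1 : |l.1| + |l.2| ≤ 2 * nm l := by
    have := abs1 l
    have := abs2 l
    linarith
  have h2 : N * nm l ^ β ≤ L * (2 * nm l) := h.trans (mul_le_mul_of_nonneg_left h1 hL)
  have h3 : nm l = nm l ^ (1 - β) * nm l ^ β := by
    rw [← Real.rpow_add hl, sub_add_cancel, Real.rpow_one]
  have h4 : 0 < nm l ^ β := by positivity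
  have h5 : N * nm l ^ β ≤ (2 * L * nm l ^ (1 - β)) * nm l ^ β := by
    calc N * nm l ^ β ≤ L * (2 * nm l) := h2
      _ = 2 * L * nm l := by ring
      _ = 2 * L * (nm l ^ (1 - β) * nm l ^ β) := by rw [← h3]
      _ = (2 * L * nm l ^ (1 - β)) * nm l ^ β := by ring
  exact le_of_mul_le_mul_right h5 h4

end TCIAux

open TCIAux in
theorem tci : Stmt_TCI := by
  intro T θ hReg M₀ β N t₀ L₀ ht₀ htT hM₀ hβ hβ1 hL₀ hL₀0 hLN hMN
  have hM₀0 : 0 ≤ M₀ := (abs_nonneg _).trans (hM₀ t₀ ⟨ht₀, htT⟩ 0)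
  have hN : 0 < N := by linarith
  -- the set of bad times
  set S : Set ℝ := {t | t ∈ Ico t₀ T ∧ ∃ y l : P2, 0 < nm l ∧ nm l ≤ 1 ∧
    N * nm l ^ β ≤ |θ t (y + l) - θ t y|} with hS
  by_cases hne : S.Nonempty
  swap
  · left
    intro t ht y l hl
    rcases (nm_nonneg' l).lt_or_eq with h0 | h0
    · by_contra hcon
      rw [not_le] at hcon
      exact hne ⟨t, ht, y, l, h0, hl, hcon.le⟩
    · rw [eq_zero_of_nm h0.symm, add_zero, sub_self, abs_zero]
      exact mul_nonneg hN.le (Real.rpow_nonneg (nm_nonneg' _) _)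
  right
  obtain ⟨t₁, ht₁, hbad⟩ := hne
  obtain ⟨L, hL0, hL⟩ := hReg.lip t₀ t₁ ht₀ ht₁.2
  -- lower bound for `nm l`
  set η : ℝ := (N / (2 * L + 1)) ^ (1 / (1 - β)) with hη
  have hη0 : 0 < η := by positivity
  have hlb : 0 < 1 - β := by linarith
  have hη1 : ∀ s ∈ Icc t₀ t₁, ∀ y l : P2, 0 < nm l → nm l ≤ 1 →
      N * nm l ^ β ≤ |θ s (y + l) - θ s y| → η ≤ nm l := by
    intro s hs y l hl0 hl1 hb
    have h1 := hL s hs (y + l) y
    have h2 : |(y + l).1 - y.1| + |(y + l).2 - y.2| = |l.1| + |l.2| := by simp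
    rw [h2] at h1
    have h3 := bad hL0 hl0 (hb.trans h1)
    have h6 : 0 < nm l ^ (1 - β) := by positivity
    have h8 : N / (2 * L + 1) ≤ nm l ^ (1 - β) := by
      rw [div_le_iff₀ (by positivity)]
      linarith
    calc η ≤ (nm l ^ (1 - β)) ^ (1 / (1 - β)) :=
          Real.rpow_le_rpow (by positivity) h8 (by positivity)
      _ = nm l := by
          rw [← Real.rpow_mul hl0.le, mul_one_div_cancel hlb.ne', Real.rpow_one]
  -- bound for `y`
  obtain ⟨R, hR⟩ := hReg.dec t₀ t₁ ht₀ ht₁.2 (N * η ^ β / 4) (by positivity)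
  set R' : ℝ := max R 0 + 2 with hR'
  have hy : ∀ s ∈ Icc t₀ t₁, ∀ y l : P2, 0 < nm l → nm l ≤ 1 →
      N * nm l ^ β ≤ |θ s (y + l) - θ s y| → |y.1| + |y.2| ≤ R' := by
    intro s hs y l hl0 hl1 hb
    by_contra hcon
    rw [not_le] at hcon
    have e1 := hη1 s hs y l hl0 hl1 hb
    have e2 : N * η ^ β ≤ N * nm l ^ β :=
      mul_le_mul_of_nonneg_left (Real.rpow_le_rpow hη0.le e1 hβ.le) hN.le
    have hk1' : |l.1| ≤ 1 := (abs1 l).trans hl1
    have hk2 : |l.2| ≤ 1 := (abs2 l).trans hl1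
    have e3 : R ≤ |y.1| + |y.2| := by
      have := le_max_left R 0
      linarith
    have e4 : R ≤ |(y + l).1| + |(y + l).2| := by
      have i1 : |y.1| - |l.1| ≤ |(y + l).1| := by
        have := abs_sub_abs_le_abs_sub y.1 (-l.1)
        rw [abs_neg, sub_neg_eq_add] at this
        exact this
      have i2 : |y.2| - |l.2| ≤ |(y + l).2| := by
        have := abs_sub_abs_le_abs_sub y.2 (-l.2)
        rw [abs_neg, sub_neg_eq_add] at this
        exact this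
      have := le_max_left R 0
      linarith
    have e5 := hR s hs y e3
    have e6 := hR s hs (y + l) e4
    have e7 : |θ s (y + l) - θ s y| ≤ |θ s (y + l)| + |θ s y| := abs_sub _ _
    have e8 : 0 < N * η ^ β := by positivity
    linarith
  -- the compact set of the bad parameters
  set K : Set (ℝ × P2 × P2) := box t₀ t₁ R' η ∩
    (fun q : ℝ × P2 × P2 => |θ q.1 (q.2.1 + q.2.2) - θ q.1 q.2.1| -
      N * nm q.2.2 ^ β) ⁻¹' (Ici 0) with hK
  have hKc : IsCompact K := by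
    have hb := box_compact t₀ t₁ R' η
    refine hb.of_isClosed_subset ?_ inter_subset_left
    exact (box_cont hReg N β hβ t₀ t₁ R' η ht₀ ht₁.2).preimage_isClosed_of_isClosed
      hb.isClosed isClosed_Ici
  have hmemK : ∀ s ∈ Icc t₀ t₁, ∀ y l : P2, 0 < nm l → nm l ≤ 1 →
      N * nm l ^ β ≤ |θ s (y + l) - θ s y| → (s, y, l) ∈ K := by
    intro s hs y l hl0 hl1 hb
    have e1 := hη1 s hs y l hl0 hl1 hb
    have e2 := hy s hs y l hl0 hl1 hb
    have f1 := abs_nonneg y.1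
    have f2 := abs_nonneg y.2
    have g1 := abs_le.1 (show |y.1| ≤ R' by linarith)
    have g2 := abs_le.1 (show |y.2| ≤ R' by linarith)
    refine ⟨⟨hs, ⟨g1, g2⟩, ⟨abs_le.1 ((abs1 l).trans hl1), abs_le.1 ((abs2 l).trans hl1)⟩,
      e1, hl1⟩, ?_⟩
    simp only [mem_preimage, mem_Ici]
    linarith
  have hKS : ∀ q ∈ K, q.1 ∈ Icc t₀ t₁ ∧ (0 < nm q.2.2 ∧ nm q.2.2 ≤ 1) ∧
      N * nm q.2.2 ^ β ≤ |θ q.1 (q.2.1 + q.2.2) - θ q.1 q.2.1| := by
    intro q hq
    refine ⟨hq.1.1, ⟨hη0.trans_le hq.1.2.2.2.1, hq.1.2.2.2.2⟩, ?_⟩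
    have := hq.2
    simp only [mem_preimage, mem_Ici] at this
    linarith
  have hKne : K.Nonempty := by
    obtain ⟨y, l, hl0, hl1, hb⟩ := hbad
    exact ⟨_, hmemK t₁ ⟨ht₁.1, le_rfl⟩ y l hl0 hl1 hb⟩
  obtain ⟨q, hqK, hqmin⟩ := hKc.exists_isMinOn hKne continuous_fst.continuousOn
  obtain ⟨t, y, l⟩ := q
  obtain ⟨hpt, ⟨hl0, hl1⟩, hpb⟩ := hKS _ hqK
  simp only at hpt hl0 hl1 hpb
  have htI : t ∈ Ioo 0 T := ⟨ht₀.trans_le hpt.1, hpt.2.trans_lt ht₁.2⟩
  -- `t₀ < t`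
  have htt : t₀ < t := by
    rcases hpt.1.lt_or_eq with h | h
    · exact h
    exfalso
    rw [← h] at hpb
    have h1 := hL₀ (y + l) y
    have h2 : |(y + l).1 - y.1| + |(y + l).2 - y.2| = |l.1| + |l.2| := by simp
    rw [h2] at h1
    have h3 := bad hL₀0 hl0 (hpb.trans h1)
    have h4 : nm l ^ (1 - β) ≤ 1 := Real.rpow_le_one hl0.le hl1 hlb.le
    have h5 : 2 * L₀ * nm l ^ (1 - β) ≤ 2 * L₀ * 1 :=
      mul_le_mul_of_nonneg_left h4 (by positivity)
    linarith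
  -- before `t`
  have hbef : ∀ s ∈ Ico t₀ t, ∀ y' l' : P2, nm l' ≤ 1 →
      |θ s (y' + l') - θ s y'| ≤ N * nm l' ^ β := by
    intro s hs y' l' hl'
    rcases (nm_nonneg' l').lt_or_eq with h0 | h0
    · by_contra hcon
      rw [not_le] at hcon
      have h1 := hmemK s ⟨hs.1, hs.2.le.trans hpt.2⟩ y' l' h0 hl' hcon.le
      have h2 : t ≤ s := hqmin h1
      exact absurd hs.2 (not_lt.2 h2)
    · rw [eq_zero_of_nm h0.symm, add_zero, sub_self, abs_zero]
      exact mul_nonneg hN.le (Real.rpow_nonneg (nm_nonneg' _) _)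
  have hle : ∀ s ∈ Icc t₀ t, ∀ y' l' : P2, nm l' ≤ 1 →
      |θ s (y' + l') - θ s y'| ≤ N * nm l' ^ β := by
    intro s hs y' l' hl'
    rcases hs.2.lt_or_eq with h | h
    · exact hbef s ⟨hs.1, h⟩ y' l' hl'
    rw [h]
    have hc : ∀ z : P2, Tendsto (fun s => θ s z) (𝓝[<] t) (𝓝 (θ t z)) := by
      intro z
      have h1 : ContinuousOn (fun s => θ s z) (Ioo 0 T) :=
        hReg.cont.comp (f := fun s : ℝ => (s, z)) (by fun_prop)
          fun s hs => ⟨hs, mem_univ _⟩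
      exact ((h1.continuousAt (Ioo_mem_nhds htI.1 htI.2)).tendsto).mono_left
        nhdsWithin_le_nhds
    have h2 : Tendsto (fun s => |θ s (y' + l') - θ s y'|) (𝓝[<] t)
        (𝓝 |θ t (y' + l') - θ t y'|) := ((hc _).sub (hc _)).abs
    refine le_of_tendsto h2 ?_
    filter_upwards [Ico_mem_nhdsLT htt] with s hs
    exact hbef s hs y' l' hl'
  -- equality
  have hfin : ∀ x h : P2, nm h ≤ 1 → θ t (x + h) - θ t x = N * nm h ^ β → nm h < 1 := by
    intro x h hh heq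
    rcases hh.lt_or_eq with h1 | h1
    · exact h1
    exfalso
    have h3 := abs_le.1 (hM₀ t htI (x + h))
    have h4 := abs_le.1 (hM₀ t htI x)
    rw [h1, Real.one_rpow, mul_one] at heq
    linarith [h3.2, h4.1]
  have heq := le_antisymm (hle t ⟨htt.le, le_rfl⟩ y l hl1) hpb
  rcases le_total 0 (θ t (y + l) - θ t y) with hs | hs
  · rw [abs_of_nonneg hs] at heq
    exact ⟨t, y, l, htt, htI.2, hl0, hfin y l hl1 heq, heq, hle⟩
  · rw [abs_of_nonpos hs] at heq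
    have heq' : θ t (y + l + -l) - θ t (y + l) = N * nm (-l) ^ β := by
      rw [nm_neg', ← heq, add_neg_cancel_right]
      ring
    have hl0' : 0 < nm (-l) := by rwa [nm_neg']
    have hl1' : nm (-l) ≤ 1 := by rwa [nm_neg']
    exact ⟨t, y + l, -l, htt, htI.2, hl0', hfin (y + l) (-l) hl1' heq', heq', hle⟩

end Pool.Agent.SQG
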