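import Pool.Agent.SQG.Stmts

/-!
# Estimates of the Gaussian averages by directional Hölder norms
-/

set_option autoImplicit false

namespace Pool.Agent.SQG

open Complex MeasureTheory Set Filter Topology ProbabilityTheory

namespace EBAux

/-- the one-dimensional Gaussian measure -/
noncomputable abbrev gu : Measure ℝ := gaussianReal 0 1

/-- the dominating function -/
def W (z : ℝ) : ℝ := (1 + z ^ 2) ^ 2

lemma W_nonneg (z : ℝ) : 0 ≤ W z := by unfold W; positivity

lemma W_ge (z : ℝ) : 1 + z ^ 2 ≤ W z := by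
  unfold W
  nlinarith [sq_nonneg z]

lemma int4 : Integrable W gu := by
  have h2 : Integrable (fun z : ℝ => z ^ 2) gu := by
    have := (memLp_id_gaussianReal (μ := 0) (v := 1) (2 : NNReal))
    have h := MemLp.integrable_norm_pow (p := 2) (by exact_mod_cast this) (by norm_num)
    refine h.congr (ae_of_all _ fun z => ?_)
    simp
  have h4 : Integrable (fun z : ℝ => z ^ 4) gu := by
    have := (memLp_id_gaussianReal (μ := 0) (v := 1) (4 : NNReal))
    have h := MemLp.integrable_norm_pow (p := 4) (by exact_mod_cast this) (by norm_num)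
    refine h.congr (ae_of_all _ fun z => ?_)
    change |z| ^ 4 = z ^ 4
    exact Even.pow_abs (by decide) z
  have h : Integrable (fun z : ℝ => 1 + 2 * z ^ 2 + z ^ 4) gu :=
    ((integrable_const _).add (h2.const_mul 2)).add h4
  refine h.congr (ae_of_all _ fun z => ?_)
  change _ = W z
  unfold W
  ring

/-- the constant -/
noncomputable def cA : ℝ := ∫ z, W z ∂gu

lemma cA_ge : 1 ≤ cA := by
  have h : ∫ _z : ℝ, (1 : ℝ) ∂gu ≤ cA := by
    refine integral_mono (integrable_const _) int4 fun z => ?_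
    have := W_ge z
    have h2 := sq_nonneg z
    change (1 : ℝ) ≤ W z
    linarith
  simpa using h

lemma gint {w : ℝ → ℝ} {B : ℝ} (hw : Measurable w) (hwb : ∀ z, |w z| ≤ B * W z) :
    Integrable w gu :=
  (int4.const_mul B).mono' hw.aestronglyMeasurable (ae_of_all _ hwb)

lemma vol_of_gu {F : ℝ → ℝ} (h : Integrable F gu) :
    Integrable (fun z => gaussianPDFReal 0 1 z * F z) := by
  unfold gu at h
  rw [gaussianReal_of_var_ne_zero 0 one_ne_zero,
    integrable_withDensity_iff_integrable_smul' (measurable_gaussianPDF 0 1)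
      (ae_of_all _ fun _ => gaussianPDF_lt_top)] at h
  refine h.congr (ae_of_all _ fun z => ?_)
  simp [toReal_gaussianPDF]

lemma gu_int (F : ℝ → ℝ) : ∫ z, F z ∂gu = ∫ z, gaussianPDFReal 0 1 z * F z := by
  have := integral_gaussianReal_eq_integral_smul (μ := 0) (v := 1) (f := F) one_ne_zero
  simpa using this

lemma pdf_deriv (z : ℝ) :
    HasDerivAt (gaussianPDFReal 0 1) (-z * gaussianPDFReal 0 1 z) z := by
  have h : gaussianPDFReal 0 1 = fun x : ℝ =>
      (√(2 * Real.pi * (1 : NNReal)))⁻¹ * Real.exp (-(x - 0) ^ 2 / (2 * (1 : NNReal))) := by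
    funext x
    rfl
  rw [h]
  have h1 : HasDerivAt (fun x : ℝ => -(x - 0) ^ 2 / (2 * ((1 : NNReal) : ℝ))) (-z) z := by
    have h2 : HasDerivAt (fun x : ℝ => x ^ 2) (2 * z) z := by
      simpa using hasDerivAt_pow 2 z
    have h3 := (h2.neg).div_const (2 : ℝ)
    have e1 : (fun x : ℝ => -(x - 0) ^ 2 / (2 * ((1 : NNReal) : ℝ))) =
        fun x : ℝ => -x ^ 2 / 2 := by
      funext x
      simp
    rw [e1]
    refine h3.congr_deriv ?_
    ring
  have h4 := (h1.exp).const_mul (√(2 * Real.pi * ((1 : NNReal) : ℝ)))⁻¹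
  refine h4.congr_deriv ?_
  ring

section one

variable {q q' : ℝ → ℝ} (hq : ∀ z, HasDerivAt q (q' z) z) (hqb : ∀ z, |q z| ≤ 1 + z ^ 2)
  (hqb' : ∀ z, |q' z| ≤ 1 + z ^ 2) (hqm' : Measurable q') {g g' : ℝ → ℝ}
  (hg : ∀ x, HasDerivAt g (g' x) x) {K L : ℝ} (hK : ∀ x, |g x| ≤ K) (hL : ∀ x, |g' x| ≤ L)
  {r : ℝ} (hr : 0 < r)

include hq in
lemma q_meas : Measurable q :=
  (continuous_iff_continuousAt.2 fun z => (hq z).continuousAt).measurable

include hq in
lemma q'_meas : Measurable q' := by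
  have : q' = deriv q := by
    funext z
    exact (hq z).deriv.symm
  rw [this]
  exact measurable_deriv q

lemma bound_abs (z : ℝ) : |z| ≤ 1 + z ^ 2 := by
  rw [abs_le]
  constructor <;> nlinarith [sq_nonneg (z - 1), sq_nonneg (z + 1)]

include hqb hqb' in
lemma zq_bound (z : ℝ) : |z * q z - q' z| ≤ 2 * W z := by
  have h1 : |z * q z - q' z| ≤ |z| * |q z| + |q' z| := by
    rw [← abs_mul]
    exact abs_sub _ _
  have h2 := bound_abs z
  have h3 := hqb z
  have h4 := hqb' z
  have h5 : |z| * |q z| ≤ (1 + z ^ 2) * (1 + z ^ 2) :=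
    mul_le_mul h2 h3 (abs_nonneg _) (by positivity)
  have h6 := W_ge z
  unfold W at *
  nlinarith

include hq hqb hqb' hqm' hg hK hL hr in
lemma ibp (s : ℝ) : ∫ z, q z * g' (s + r * z) ∂gu =
    r⁻¹ * ∫ z, (z * q z - q' z) * g (s + r * z) ∂gu := by
  have hqm := q_meas hq
  have hgm := q_meas hg
  have hgm' := q'_meas hg
  have hlin : Measurable (fun z : ℝ => s + r * z) := by fun_prop
  have hK0 : 0 ≤ K := (abs_nonneg _).trans (hK 0)
  have hL0 : 0 ≤ L := (abs_nonneg _).trans (hL 0)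
  have i1 : Integrable (fun z => q z * g' (s + r * z)) gu := by
    refine gint (B := L) (hqm.mul (hgm'.comp hlin)) fun z => ?_
    rw [abs_mul, mul_comm L]
    exact mul_le_mul ((hqb z).trans (W_ge z)) (hL _) (abs_nonneg _) (W_nonneg z)
  have i2 : Integrable (fun z => (z * q z - q' z) * g (s + r * z)) gu := by
    refine gint (B := 2 * K) (((measurable_id.mul hqm).sub hqm').mul (hgm.comp hlin)) fun z => ?_
    rw [abs_mul]
    calc |z * q z - q' z| * |g (s + r * z)| ≤ 2 * W z * K :=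
          mul_le_mul (zq_bound hqb hqb' z) (hK _) (abs_nonneg _)
            (mul_nonneg zero_le_two (W_nonneg z))
      _ = 2 * K * W z := by ring
  have i3 : Integrable (fun z => q z * g (s + r * z)) gu := by
    refine gint (B := K) (hqm.mul (hgm.comp hlin)) fun z => ?_
    rw [abs_mul, mul_comm K]
    exact mul_le_mul ((hqb z).trans (W_ge z)) (hK _) (abs_nonneg _) (W_nonneg z)
  have hu : ∀ z, HasDerivAt (fun z => q z * gaussianPDFReal 0 1 z)
      (q' z * gaussianPDFReal 0 1 z + q z * (-z * gaussianPDFReal 0 1 z)) z :=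
    fun z => (hq z).mul (pdf_deriv z)
  have hv : ∀ z, HasDerivAt (fun z => g (s + r * z)) (g' (s + r * z) * r) z := by
    intro z
    have h1 : HasDerivAt (fun z : ℝ => s + r * z) r z := by
      simpa using ((hasDerivAt_id z).const_mul r).const_add s
    exact (hg _).comp z h1
  have key := integral_mul_deriv_eq_deriv_mul_of_integrable
    (u := fun z => q z * gaussianPDFReal 0 1 z) (v := fun z => g (s + r * z))
    (fun z _ => hu z) (fun z _ => hv z)
    (by
      refine ((vol_of_gu i1).const_mul r).congr (ae_of_all _ fun z => ?_)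
      simp only [Pi.mul_apply]
      ring)
    (by
      refine ((vol_of_gu i2).neg).congr (ae_of_all _ fun z => ?_)
      simp only [Pi.mul_apply, Pi.neg_apply]
      ring)
    (by
      refine (vol_of_gu i3).congr (ae_of_all _ fun z => ?_)
      simp only [Pi.mul_apply]
      ring)
  have e1 : ∫ z, q z * gaussianPDFReal 0 1 z * (g' (s + r * z) * r) =
      r * ∫ z, q z * g' (s + r * z) ∂gu := by
    rw [gu_int, ← integral_const_mul]
    congr 1
    funext z
    ring
  have e2 : -∫ z, (q' z * gaussianPDFReal 0 1 z + q z * (-z * gaussianPDFReal 0 1 z)) *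
      g (s + r * z) = ∫ z, (z * q z - q' z) * g (s + r * z) ∂gu := by
    rw [gu_int, ← integral_neg]
    congr 1
    funext z
    ring
  rw [e1, e2] at key
  rw [← key, ← mul_assoc, inv_mul_cancel₀ hr.ne', one_mul]

include hq hqb hqb' hqm' hg hK hL hr in
lemma der1 (s : ℝ) : HasDerivAt (fun s => ∫ z, q z * g (s + r * z) ∂gu)
    (r⁻¹ * ∫ z, (z * q z - q' z) * g (s + r * z) ∂gu) s := by
  have hqm := q_meas hq
  have hgm := q_meas hg
  have hgm' := q'_meas hg
  have hlin : ∀ s : ℝ, Measurable (fun z : ℝ => s + r * z) := fun s => by fun_prop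
  have hK0 : 0 ≤ K := (abs_nonneg _).trans (hK 0)
  have hL0 : 0 ≤ L := (abs_nonneg _).trans (hL 0)
  have key := (hasDerivAt_integral_of_dominated_loc_of_deriv_le (μ := gu)
    (F := fun s z => q z * g (s + r * z)) (F' := fun s z => q z * g' (s + r * z)) (x₀ := s)
    (s := univ) (bound := fun z => L * W z) univ_mem
    (Eventually.of_forall fun s => (hqm.mul (hgm.comp (hlin s))).aestronglyMeasurable)
    (gint (B := K) (hqm.mul (hgm.comp (hlin s))) fun z => by
      rw [abs_mul, mul_comm K]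
      exact mul_le_mul ((hqb z).trans (W_ge z)) (hK _) (abs_nonneg _) (W_nonneg z))
    (hqm.mul (hgm'.comp (hlin s))).aestronglyMeasurable
    (ae_of_all _ fun z x _ => by
      rw [Real.norm_eq_abs, abs_mul, mul_comm L]
      exact mul_le_mul ((hqb z).trans (W_ge z)) (hL _) (abs_nonneg _) (W_nonneg z))
    (int4.const_mul L)
    (ae_of_all _ fun z x _ => by
      have h1 : HasDerivAt (fun x : ℝ => x + r * z) 1 x := by
        simpa using (hasDerivAt_id x).add_const (r * z)
      have h2 := (hg (x + r * z)).comp x h1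
      rw [mul_one] at h2
      exact h2.const_mul (q z))).2
  rwa [ibp hq hqb hqb' hqm' hg hK hL hr s] at key

include hq hqb hqb' hqm' hg hK hL hr in
lemma inc1 {B : ℝ} (hB : ∀ s, |∫ z, (z * q z - q' z) * g (s + r * z) ∂gu| ≤ B) (s a : ℝ) :
    |(∫ z, q z * g (s + a + r * z) ∂gu) - ∫ z, q z * g (s + r * z) ∂gu| ≤ r⁻¹ * B * |a| := by
  have h := Convex.norm_image_sub_le_of_norm_hasDerivWithin_le (s := univ)
    (f := fun s => ∫ z, q z * g (s + r * z) ∂gu)
    (f' := fun s => r⁻¹ * ∫ z, (z * q z - q' z) * g (s + r * z) ∂gu) (C := r⁻¹ * B)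
    (x := s) (y := s + a)
    (fun x _ => (der1 hq hqb hqb' hqm' hg hK hL hr x).hasDerivWithinAt)
    (fun x _ => by
      rw [norm_mul, Real.norm_eq_abs, Real.norm_eq_abs, abs_of_pos (inv_pos.2 hr)]
      exact mul_le_mul_of_nonneg_left (hB x) (inv_pos.2 hr).le)
    convex_univ (mem_univ _) (mem_univ _)
  simpa using h

end one

lemma hq1 : ∀ z : ℝ, HasDerivAt (fun _ : ℝ => (1 : ℝ)) ((fun _ => 0 : ℝ → ℝ) z) z :=
  fun z => hasDerivAt_const z 1

lemma hqz : ∀ z : ℝ, HasDerivAt (fun z : ℝ => z) ((fun _ => 1 : ℝ → ℝ) z) z :=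
  fun z => hasDerivAt_id z

lemma mean1 : ∫ z : ℝ, z ∂gu = 0 := integral_id_gaussianReal

lemma mean2 : ∫ z : ℝ, (z * z - 1) ∂gu = 0 := by
  have h := ibp (q := fun z => z) (q' := fun _ => 1) (g := fun _ => 1) (g' := fun _ => 0)
    (K := 1) (L := 0) (r := 1) hqz bound_abs (fun z => by simp [sq_nonneg]) measurable_const
    (fun x => hasDerivAt_const x 1) (fun _ => by simp) (fun _ => by simp) one_pos 0
  simp only [mul_zero, integral_zero, inv_one, one_mul, mul_one] at h
  exact h.symm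

lemma rpow_bound {δ : ℝ} (h0 : 0 ≤ δ) (h1 : δ < 1) (z : ℝ) : |z| ^ δ ≤ 1 + z ^ 2 := by
  rcases le_total |z| 1 with h | h
  · exact (Real.rpow_le_one (abs_nonneg z) h h0).trans (by nlinarith [sq_nonneg z])
  · calc |z| ^ δ ≤ |z| ^ (1 : ℝ) := Real.rpow_le_rpow_of_exponent_le h h1.le
      _ = |z| := Real.rpow_one _
      _ ≤ 1 + z ^ 2 := bound_abs z

/-- Averages of a function with a Hölder bound at one point against a function of mean zero. -/
lemma hol {w g : ℝ → ℝ} {δ M r s : ℝ} (h0 : 0 ≤ δ) (h1 : δ < 1) (hr : 0 < r) (hM : 0 ≤ M)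
    (hw : Measurable w) (hwb : ∀ z, |w z| ≤ 1 + z ^ 2) (hw0 : ∫ z, w z ∂gu = 0)
    (hgm : Measurable g) {K : ℝ} (hK : ∀ x, |g x| ≤ K)
    (hg : ∀ t, |g (s + t) - g s| ≤ M * |t| ^ δ) :
    |∫ z, w z * g (s + r * z) ∂gu| ≤ cA * M * r ^ δ := by
  have hK0 : 0 ≤ K := (abs_nonneg _).trans (hK 0)
  have i1 : Integrable (fun z => w z * g (s + r * z)) gu := by
    refine gint (B := K) (hw.mul (hgm.comp (by fun_prop))) fun z => ?_
    rw [abs_mul, mul_comm K]
    exact mul_le_mul ((hwb z).trans (W_ge z)) (hK _) (abs_nonneg _) (W_nonneg z)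
  have i2 : Integrable (fun z => w z * g s) gu :=
    (gint (B := 1) hw fun z => by
      rw [one_mul]; exact (hwb z).trans (W_ge z)).mul_const _
  have e : ∫ z, w z * g (s + r * z) ∂gu = ∫ z, w z * (g (s + r * z) - g s) ∂gu := by
    have h2 : ∫ z, w z * g s ∂gu = 0 := by
      rw [integral_mul_const, hw0, zero_mul]
    rw [← sub_zero (∫ z, w z * g (s + r * z) ∂gu), ← h2, ← integral_sub i1 i2]
    congr 1
    funext z
    ring
  rw [e]
  calc |∫ z, w z * (g (s + r * z) - g s) ∂gu| ≤ ∫ z, M * r ^ δ * W z ∂gu := by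
        rw [← Real.norm_eq_abs]
        refine norm_integral_le_of_norm_le (int4.const_mul _) (ae_of_all _ fun z => ?_)
        rw [Real.norm_eq_abs, abs_mul]
        have h2 : |g (s + r * z) - g s| ≤ M * r ^ δ * (1 + z ^ 2) := by
          refine (hg (r * z)).trans ?_
          rw [abs_mul, abs_of_pos hr, Real.mul_rpow hr.le (abs_nonneg z), ← mul_assoc]
          exact mul_le_mul_of_nonneg_left (rpow_bound h0 h1 z) (by positivity)
        calc |w z| * |g (s + r * z) - g s| ≤ (1 + z ^ 2) * (M * r ^ δ * (1 + z ^ 2)) :=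
              mul_le_mul (hwb z) h2 (abs_nonneg _) (by positivity)
          _ = M * r ^ δ * W z := by
              unfold W
              ring
    _ = cA * M * r ^ δ := by
        rw [integral_const_mul]
        unfold cA
        ring

/-- The functions we need. -/
structure Nice (f : P2 → ℝ) (K L : ℝ) (f1 f2 : P2 → ℝ) : Prop where
  cont : Continuous f
  bd : ∀ x, |f x| ≤ K
  d1 : ∀ x : P2, HasDerivAt (fun s => f (s, x.2)) (f1 x) x.1
  d2 : ∀ x : P2, HasDerivAt (fun s => f (x.1, s)) (f2 x) x.2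
  b1 : ∀ x, |f1 x| ≤ L
  b2 : ∀ x, |f2 x| ≤ L

lemma Nice.swap {f : P2 → ℝ} {K L : ℝ} {f1 f2 : P2 → ℝ} (h : Nice f K L f1 f2) :
    Nice (fun x => f x.swap) K L (fun x => f2 x.swap) (fun x => f1 x.swap) where
  cont := h.cont.comp continuous_swap
  bd x := h.bd _
  d1 x := h.d2 x.swap
  d2 x := h.d1 x.swap
  b1 x := h.b2 _
  b2 x := h.b1 _

section two

variable {f : P2 → ℝ} {K L : ℝ} {f1 f2 : P2 → ℝ} (hf : Nice f K L f1 f2)

include hf in
lemma int2 {q : ℝ → ℝ} (hqm : Measurable q) (hqb : ∀ z, |q z| ≤ 1 + z ^ 2) (r : ℝ) (x : P2) :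
    Integrable (fun z : P2 => q z.1 * f (x.1 + r * z.1, x.2 + r * z.2)) (gu.prod gu) := by
  have hK0 : 0 ≤ K := (abs_nonneg _).trans (hf.bd 0)
  have h1 : Integrable (fun z : P2 => K * W z.1) (gu.prod gu) :=
    (int4.comp_fst gu).const_mul K
  refine h1.mono' ?_ (ae_of_all _ fun z => ?_)
  · refine Measurable.aestronglyMeasurable ?_
    exact (hqm.comp measurable_fst).mul (hf.cont.measurable.comp (by fun_prop))
  · rw [Real.norm_eq_abs, abs_mul, mul_comm K]
    exact mul_le_mul ((hqb z.1).trans (W_ge z.1)) (hf.bd _) (abs_nonneg _) (W_nonneg _)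

include hf in
lemma sec_meas (c : ℝ) : Measurable (fun t => f (t, c)) :=
  hf.cont.measurable.comp (by fun_prop)

/-- shift in the first direction -/
lemma sh {q q' : ℝ → ℝ} (hf : Nice f K L f1 f2) (hq : ∀ z, HasDerivAt q (q' z) z)
    (hqb : ∀ z, |q z| ≤ 1 + z ^ 2) (hqb' : ∀ z, |q' z| ≤ 1 + z ^ 2) (hqm' : Measurable q')
    (hzb : ∀ z, |z * q z - q' z| ≤ 1 + z ^ 2) (hz0 : ∫ z, (z * q z - q' z) ∂gu = 0)
    {δ M r : ℝ} (h0 : 0 ≤ δ) (h1 : δ < 1) (hM : 0 ≤ M) (hr : 0 < r) (hH : H1 f M δ) (x : P2)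
    (a : ℝ) :
    |(∫ z : P2, q z.1 * f (x.1 + a + r * z.1, x.2 + r * z.2) ∂(gu.prod gu)) -
      ∫ z : P2, q z.1 * f (x.1 + r * z.1, x.2 + r * z.2) ∂(gu.prod gu)| ≤
      cA * M * |a| * r ^ (δ - 1) := by
  have hqm := q_meas hq
  have i1 : Integrable (fun z : P2 => q z.1 * f (x.1 + a + r * z.1, x.2 + r * z.2))
    (gu.prod gu) := int2 hf hqm hqb r (x.1 + a, x.2)
  have i2 := int2 hf hqm hqb r x
  have i3 : Integrable (fun z : P2 => q z.1 * f (x.1 + a + r * z.1, x.2 + r * z.2) -
    q z.1 * f (x.1 + r * z.1, x.2 + r * z.2)) (gu.prod gu) := i1.sub i2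
  rw [← integral_sub i1 i2, integral_prod_symm _ i3, ← Real.norm_eq_abs]
  have hb : ∀ y : ℝ, ‖∫ z, (q z * f (x.1 + a + r * z, x.2 + r * y) -
      q z * f (x.1 + r * z, x.2 + r * y)) ∂gu‖ ≤ cA * M * |a| * r ^ (δ - 1) := by
    intro y
    have hgm := sec_meas hf (x.2 + r * y)
    have hgi : ∀ s : ℝ, Integrable (fun z => q z * f (s + r * z, x.2 + r * y)) gu := by
      intro s
      refine gint (B := K) (hqm.mul (hgm.comp (by fun_prop : Measurable fun z : ℝ => s + r * z)))
        fun z => ?_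
      rw [abs_mul, mul_comm K]
      exact mul_le_mul ((hqb z).trans (W_ge z)) (hf.bd _) (abs_nonneg _) (W_nonneg z)
    rw [integral_sub (hgi (x.1 + a)) (hgi x.1), Real.norm_eq_abs]
    have h2 := inc1 hq hqb hqb' hqm' (g := fun t => f (t, x.2 + r * y))
      (g' := fun t => f1 (t, x.2 + r * y)) (fun t => hf.d1 (t, x.2 + r * y))
      (fun t => hf.bd _) (fun t => hf.b1 _) hr (B := cA * M * r ^ δ)
      (fun s => hol h0 h1 hr hM ((measurable_id.mul hqm).sub hqm') hzb hz0 hgm
        (fun t => hf.bd _) (fun t => hH (s, x.2 + r * y) t)) x.1 a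
    refine h2.trans (le_of_eq ?_)
    rw [Real.rpow_sub_one hr.ne']
    ring
  refine (norm_integral_le_of_norm_le_const (ae_of_all _ hb)).trans (le_of_eq ?_)
  simp

/-- The estimates for direction one. -/
lemma dirOne (hf : Nice f K L f1 f2) {δ M r : ℝ} (h0 : 0 ≤ δ) (h1 : δ < 1) (hM : 0 ≤ M)
    (hr : 0 < r) (hH : H1 f M δ) (x h : P2) :
    |B1 r f x| ≤ cA ^ 2 * M * r ^ δ ∧
      |B1 r f (x + h) - B1 r f x| ≤ cA ^ 2 * M * (|h.1| + |h.2|) * r ^ (δ - 1) ∧
      ∀ b : ℝ, |Av r f (x.1 + b, x.2) - Av r f x| ≤ cA ^ 2 * M * |b| * r ^ (δ - 1) := by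
  have hA := cA_ge
  have hA2 : cA ≤ cA ^ 2 := by nlinarith
  have hrδ : 0 < r ^ δ := Real.rpow_pos_of_pos hr δ
  have hrδ' : 0 < r ^ (δ - 1) := Real.rpow_pos_of_pos hr _
  have hzm : Measurable (fun z : ℝ => z) := measurable_id
  refine ⟨?_, ?_, ?_⟩
  · -- the size
    have h2 : |B1 r f x| ≤ cA * M * r ^ δ := by
      have i := int2 hf hzm bound_abs r x
      have e : B1 r f x = ∫ z : P2, z.1 * f (x.1 + r * z.1, x.2 + r * z.2) ∂(gu.prod gu) := rfl
      rw [e, integral_prod_symm _ i, ← Real.norm_eq_abs]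
      refine (norm_integral_le_of_norm_le_const (C := cA * M * r ^ δ)
        (ae_of_all _ fun y => ?_)).trans (le_of_eq (by simp))
      rw [Real.norm_eq_abs]
      exact hol h0 h1 hr hM hzm bound_abs mean1 (sec_meas hf (x.2 + r * y)) (fun t => hf.bd _)
        (fun t => hH (x.1, x.2 + r * y) t)
    refine h2.trans ?_
    exact mul_le_mul_of_nonneg_right (mul_le_mul_of_nonneg_right hA2 hM) hrδ.le
  · -- the increments
    have s1 : ∀ x : P2, |B1 r f (x.1 + h.1, x.2) - B1 r f x| ≤ cA * M * |h.1| * r ^ (δ - 1) := by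
      intro x
      refine sh hf hqz bound_abs (fun z => by simp [sq_nonneg]) measurable_const ?_ ?_ h0 h1 hM hr
        hH x h.1
      · intro z
        rw [abs_le]
        constructor <;> nlinarith [sq_nonneg z]
      · exact mean2
    have s2 : |B1 r f (x.1, x.2 + h.2) - B1 r f x| ≤ cA ^ 2 * M * |h.2| * r ^ (δ - 1) := by
      have i1 : Integrable (fun z : P2 => z.1 * f (x.1 + r * z.1, x.2 + h.2 + r * z.2))
        (gu.prod gu) := int2 hf hzm bound_abs r (x.1, x.2 + h.2)
      have i2 : Integrable (fun z : P2 => z.1 * f (x.1 + r * z.1, x.2 + r * z.2))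
        (gu.prod gu) := int2 hf hzm bound_abs r x
      have i3 : Integrable (fun z : P2 => z.1 * f (x.1 + r * z.1, x.2 + h.2 + r * z.2) -
        z.1 * f (x.1 + r * z.1, x.2 + r * z.2)) (gu.prod gu) := i1.sub i2
      have e1 : B1 r f (x.1, x.2 + h.2) =
        ∫ z : P2, z.1 * f (x.1 + r * z.1, x.2 + h.2 + r * z.2) ∂(gu.prod gu) := rfl
      have e2 : B1 r f x = ∫ z : P2, z.1 * f (x.1 + r * z.1, x.2 + r * z.2) ∂(gu.prod gu) := rfl
      rw [e1, e2, ← integral_sub i1 i2, integral_prod _ i3]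
      -- sections in the second direction
      have hsm : ∀ c : ℝ, Measurable (fun t => f (c, t)) :=
        fun c => hf.cont.measurable.comp (by fun_prop)
      have hsi : ∀ c s : ℝ, Integrable (fun z => f (c, s + r * z)) gu := by
        intro c s
        refine gint (B := K) ((hsm c).comp (by fun_prop : Measurable fun z : ℝ => s + r * z))
          fun z => ?_
        have hK0 : 0 ≤ K := (abs_nonneg _).trans (hf.bd 0)
        have h3 := W_ge z
        have h4 : 1 ≤ W z := by nlinarith [sq_nonneg z]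
        exact (hf.bd _).trans (le_mul_of_one_le_right hK0 h4)
      set D : ℝ → ℝ := fun c => (∫ z, f (c, x.2 + h.2 + r * z) ∂gu) - ∫ z, f (c, x.2 + r * z) ∂gu
        with hD
      have e3 : ∀ z : ℝ, ∫ y, (z * f (x.1 + r * z, x.2 + h.2 + r * y) -
          z * f (x.1 + r * z, x.2 + r * y)) ∂gu = z * D (x.1 + r * z) := by
        intro z
        rw [hD]
        simp only
        rw [← integral_sub (hsi _ _) (hsi _ _), ← integral_const_mul]
        congr 1
        funext y
        ring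
      have e4 : ∫ z, ∫ y, (z * f (x.1 + r * z, x.2 + h.2 + r * y) -
          z * f (x.1 + r * z, x.2 + r * y)) ∂gu ∂gu = ∫ z, z * D (x.1 + r * z) ∂gu := by
        congr 1
        funext z
        exact e3 z
      have hDint : Integrable (fun z => z * D (x.1 + r * z)) gu := by
        have := i3.integral_prod_left
        refine this.congr (ae_of_all _ fun z => ?_)
        exact e3 z
      have e5 : ∫ z, z * D (x.1 + r * z) ∂gu = ∫ z, z * (D (x.1 + r * z) - D x.1) ∂gu := by
        have h5 : ∫ z, z * D x.1 ∂gu = 0 := by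
          rw [integral_mul_const, mean1, zero_mul]
        have h6 : Integrable (fun z => z * D x.1) gu :=
          (gint (B := 1) hzm fun z => by
            rw [one_mul]; exact (bound_abs z).trans (W_ge z)).mul_const _
        rw [← sub_zero (∫ z, z * D (x.1 + r * z) ∂gu), ← h5, ← integral_sub hDint h6]
        congr 1
        funext z
        ring
      have hDb : ∀ z : ℝ, |D (x.1 + r * z) - D x.1| ≤
          cA * M * |h.2| * r ^ (δ - 1) * (1 + z ^ 2) := by
        intro z
        have e6 : D (x.1 + r * z) - D x.1 =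
            (∫ y, (1 : ℝ) * (fun t => f (x.1 + r * z, t) - f (x.1, t)) (x.2 + h.2 + r * y) ∂gu) -
            ∫ y, (1 : ℝ) * (fun t => f (x.1 + r * z, t) - f (x.1, t)) (x.2 + r * y) ∂gu := by
          simp only [one_mul]
          rw [integral_sub (hsi _ _) (hsi _ _), integral_sub (hsi _ _) (hsi _ _), hD]
          ring
        have hgb : ∀ t, |f (x.1 + r * z, t) - f (x.1, t)| ≤ M * r ^ δ * (1 + z ^ 2) := by
          intro t
          refine (hH (x.1, t) (r * z)).trans ?_
          rw [abs_mul, abs_of_pos hr, Real.mul_rpow hr.le (abs_nonneg z), ← mul_assoc]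
          exact mul_le_mul_of_nonneg_left (rpow_bound h0 h1 z) (by positivity)
        have hgm : Measurable (fun t => f (x.1 + r * z, t) - f (x.1, t)) :=
          (hsm _).sub (hsm _)
        rw [e6]
        have h7 := inc1 (q := fun _ => 1) (q' := fun _ => 0) hq1
          (fun z => by simp [sq_nonneg]) (fun z => by simp; positivity) measurable_const
          (g := fun t => f (x.1 + r * z, t) - f (x.1, t))
          (g' := fun t => f2 (x.1 + r * z, t) - f2 (x.1, t))
          (fun t => (hf.d2 (x.1 + r * z, t)).sub (hf.d2 (x.1, t)))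
          (K := M * r ^ δ * (1 + z ^ 2)) (L := L + L) hgb
          (fun t => (abs_sub _ _).trans (add_le_add (hf.b2 _) (hf.b2 _))) hr
          (B := M * r ^ δ * (1 + z ^ 2) * cA)
          (fun s => by
            rw [← Real.norm_eq_abs]
            have h8 : M * r ^ δ * (1 + z ^ 2) * cA = ∫ y, M * r ^ δ * (1 + z ^ 2) * W y ∂gu := by
              rw [integral_const_mul]
              rfl
            rw [h8]
            refine norm_integral_le_of_norm_le (int4.const_mul _) (ae_of_all _ fun y => ?_)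
            rw [Real.norm_eq_abs, abs_mul, mul_one, sub_zero, mul_comm (M * r ^ δ * (1 + z ^ 2))]
            exact mul_le_mul ((bound_abs y).trans (W_ge y)) (hgb _) (abs_nonneg _) (W_nonneg _))
          x.2 h.2
        refine h7.trans (le_of_eq ?_)
        rw [Real.rpow_sub_one hr.ne']
        ring
      have e8 : (∫ z, ∫ y, (z * f (x.1 + r * z, x.2 + h.2 + r * y) -
          z * f (x.1 + r * z, x.2 + r * y)) ∂gu ∂gu) =
          ∫ z, z * (D (x.1 + r * z) - D x.1) ∂gu := e4.trans e5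
      refine le_trans (le_of_eq (congrArg abs e8)) ?_
      rw [← Real.norm_eq_abs]
      calc ‖∫ z, z * (D (x.1 + r * z) - D x.1) ∂gu‖
          ≤ ∫ z, cA * M * |h.2| * r ^ (δ - 1) * W z ∂gu := by
            refine norm_integral_le_of_norm_le (int4.const_mul _) (ae_of_all _ fun z => ?_)
            rw [Real.norm_eq_abs, abs_mul]
            calc |z| * |D (x.1 + r * z) - D x.1|
                ≤ (1 + z ^ 2) * (cA * M * |h.2| * r ^ (δ - 1) * (1 + z ^ 2)) :=
                  mul_le_mul (bound_abs z) (hDb z) (abs_nonneg _) (by positivity)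
              _ = cA * M * |h.2| * r ^ (δ - 1) * W z := by
                  unfold W
                  ring
        _ = cA ^ 2 * M * |h.2| * r ^ (δ - 1) := by
            rw [integral_const_mul]
            change cA * M * |h.2| * r ^ (δ - 1) * cA = _
            ring
    have s3 := s1 (x.1, x.2 + h.2)
    have e10 : x + h = ((x.1 + h.1, x.2 + h.2) : P2) := rfl
    rw [e10]
    calc |B1 r f (x.1 + h.1, x.2 + h.2) - B1 r f x|
        = |(B1 r f (x.1 + h.1, x.2 + h.2) - B1 r f (x.1, x.2 + h.2)) +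
            (B1 r f (x.1, x.2 + h.2) - B1 r f x)| := by congr 1; ring
      _ ≤ |B1 r f (x.1 + h.1, x.2 + h.2) - B1 r f (x.1, x.2 + h.2)| +
            |B1 r f (x.1, x.2 + h.2) - B1 r f x| := abs_add_le _ _
      _ ≤ cA * M * |h.1| * r ^ (δ - 1) + cA ^ 2 * M * |h.2| * r ^ (δ - 1) := add_le_add s3 s2
      _ ≤ cA ^ 2 * M * |h.1| * r ^ (δ - 1) + cA ^ 2 * M * |h.2| * r ^ (δ - 1) := by
          have h9 : cA * M * |h.1| * r ^ (δ - 1) ≤ cA ^ 2 * M * |h.1| * r ^ (δ - 1) :=
            mul_le_mul_of_nonneg_right (mul_le_mul_of_nonneg_right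
              (mul_le_mul_of_nonneg_right hA2 hM) (abs_nonneg _)) hrδ'.le
          linarith
      _ = cA ^ 2 * M * (|h.1| + |h.2|) * r ^ (δ - 1) := by ring
  · -- averages
    intro b
    have h2 := sh hf (q := fun _ => 1) (q' := fun _ => 0) hq1
      (fun z => by simp [sq_nonneg]) (fun z => by simp; positivity) measurable_const
      (fun z => by simpa using bound_abs z) (by simpa using mean1) h0 h1 hM hr hH x b
    have e1 : Av r f (x.1 + b, x.2) =
        ∫ z : P2, (1 : ℝ) * f (x.1 + b + r * z.1, x.2 + r * z.2) ∂(gu.prod gu) := by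
      simp only [one_mul]
      rfl
    have e2 : Av r f x = ∫ z : P2, (1 : ℝ) * f (x.1 + r * z.1, x.2 + r * z.2) ∂(gu.prod gu) := by
      simp only [one_mul]
      rfl
    rw [e1, e2]
    refine h2.trans ?_
    exact mul_le_mul_of_nonneg_right (mul_le_mul_of_nonneg_right
      (mul_le_mul_of_nonneg_right hA2 hM) (abs_nonneg _)) hrδ'.le

end two

lemma B2_swap (r : ℝ) (f : P2 → ℝ) (x : P2) : B2 r f x = B1 r (fun y => f y.swap) x.swap := by
  have h := integral_prod_swap (μ := gu) (ν := gu)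
    (fun z : P2 => z.2 * f (x.1 + r * z.1, x.2 + r * z.2))
  exact h.symm

lemma Av_swap (r : ℝ) (f : P2 → ℝ) (x : P2) : Av r f x = Av r (fun y => f y.swap) x.swap := by
  have h := integral_prod_swap (μ := gu) (ν := gu)
    (fun z : P2 => f (x.1 + r * z.1, x.2 + r * z.2))
  exact h.symm

/-- Real functions with integrable derivatives of the transform are nice. -/
lemma nice_of (hD : Stmt_DER) {f : P2 → ℝ} {φ : P2 → ℂ} (h : NF f φ) :
    ∃ K L f1 f2, Nice f K L f1 f2 := by
  obtain ⟨hc, ⟨B, hB⟩, hd⟩ := hD f φ h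
  set L : ℝ := ∫ ξ, nm ξ ^ 1 * ‖φ ξ‖ with hL
  have hi := h.int 1
  have hb1 : ∀ x, |(IF (D1 φ) x).re| ≤ L := by
    intro x
    refine (Complex.abs_re_le_norm _).trans ?_
    refine norm_integral_le_of_norm_le hi (ae_of_all _ fun ξ => ?_)
    have e : ‖cexp (I * ((x.1 * ξ.1 + x.2 * ξ.2 : ℝ) : ℂ))‖ = 1 := by
      rw [mul_comm]
      exact Complex.norm_exp_ofReal_mul_I _
    rw [norm_mul, e, mul_one, D1, norm_mul, norm_mul, Complex.norm_I, one_mul,
      Complex.norm_real, pow_one]
    refine mul_le_mul_of_nonneg_right ?_ (norm_nonneg _)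
    rw [Real.norm_eq_abs]
    unfold nm
    exact Real.abs_le_sqrt (by nlinarith [sq_nonneg ξ.2])
  have hb2 : ∀ x, |(IF (D2 φ) x).re| ≤ L := by
    intro x
    refine (Complex.abs_re_le_norm _).trans ?_
    refine norm_integral_le_of_norm_le hi (ae_of_all _ fun ξ => ?_)
    have e : ‖cexp (I * ((x.1 * ξ.1 + x.2 * ξ.2 : ℝ) : ℂ))‖ = 1 := by
      rw [mul_comm]
      exact Complex.norm_exp_ofReal_mul_I _
    rw [norm_mul, e, mul_one, D2, norm_mul, norm_mul, Complex.norm_I, one_mul,
      Complex.norm_real, pow_one]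
    refine mul_le_mul_of_nonneg_right ?_ (norm_nonneg _)
    rw [Real.norm_eq_abs]
    unfold nm
    exact Real.abs_le_sqrt (by nlinarith [sq_nonneg ξ.1])
  refine ⟨B, L, fun x => (IF (D1 φ) x).re, fun x => (IF (D2 φ) x).re, hc, hB, ?_, ?_, hb1, hb2⟩
  · intro x
    have h1 := (hd x).2.2
    have h2 : HasDerivAt (fun s : ℝ => ((s, x.2) : P2)) (1, 0) x.1 :=
      (hasDerivAt_id x.1).prodMk (hasDerivAt_const x.1 x.2)
    have h3 := h1.comp_hasDerivAt_of_eq x.1 h2 rfl
    exact h3.congr_deriv (by simp)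
  · intro x
    have h1 := (hd x).2.2
    have h2 : HasDerivAt (fun s : ℝ => ((x.1, s) : P2)) (0, 1) x.2 :=
      (hasDerivAt_const x.2 x.1).prodMk (hasDerivAt_id x.2)
    have h3 := h1.comp_hasDerivAt_of_eq x.2 h2 rfl
    exact h3.congr_deriv (by simp)

end EBAux

open EBAux

theorem eb (hD : Stmt_DER) : Stmt_EB := by
  intro δ h0 h1
  refine ⟨cA ^ 2, by have := cA_ge; positivity, fun f φ M hN hM => ?_⟩
  obtain ⟨K, L, f1, f2, hf⟩ := nice_of hD hN
  refine ⟨fun hH r hr x h => ?_, fun hH r hr x h => ?_⟩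
  · obtain ⟨a1, a2, -⟩ := dirOne hf h0 h1 hM hr hH x h
    exact ⟨a1, a2⟩
  · have hH' : H1 (fun y : P2 => f y.swap) M δ := fun y a => hH y.swap a
    obtain ⟨a1, a2, a3⟩ := dirOne hf.swap h0 h1 hM hr hH' x.swap h.swap
    refine ⟨?_, ?_, ?_⟩
    · rw [B2_swap]
      exact a1
    · rw [B2_swap, B2_swap, Prod.swap_add]
      rw [add_comm |h.1|]
      exact a2
    · intro b
      rw [Av_swap, Av_swap r f x]
      exact a3 b

end Pool.Agent.SQG
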