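import Pool.Agent.SQG.Stmts6
import Pool.Agent.SQG.Eb

/-!
# UB2: the velocity components, for sums of two powers
-/

set_option autoImplicit false

namespace Pool.Agent.SQG

open Complex MeasureTheory Set Filter Topology ProbabilityTheory

namespace UB2Aux

open EBAux

/-- Averages of a function with a bound of the increments at one point against a function of mean
zero. -/
lemma holS {w g : ℝ → ℝ} {S r s : ℝ} (hS : 0 ≤ S)
    (hw : Measurable w) (hwb : ∀ z, |w z| ≤ 1 + z ^ 2) (hw0 : ∫ z, w z ∂gu = 0)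
    (hgm : Measurable g) {K : ℝ} (hK : ∀ x, |g x| ≤ K)
    (hg : ∀ z, |g (s + r * z) - g s| ≤ S * (1 + z ^ 2)) :
    |∫ z, w z * g (s + r * z) ∂gu| ≤ cA * S := by
  have hK0 : 0 ≤ K := (abs_nonneg _).trans (hK 0)
  have i1 : Integrable (fun z => w z * g (s + r * z)) gu := by
    refine gint (B := K) (hw.mul (hgm.comp (by fun_prop))) fun z => ?_
    rw [abs_mul, mul_comm K]
    exact mul_le_mul ((hwb z).trans (W_ge z)) (hK _) (abs_nonneg _) (W_nonneg z)
  have i2 : Integrable (fun z => w z * g s) gu :=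
    (gint (B := 1) hw fun z => by
      rw [one_mul]; exact (hwb z).trans (W_ge z)).mul_const _
  have e : ∫ z, w z * g (s + r * z) ∂gu = ∫ z, w z * (g (s + r * z) - g s) ∂gu := by
    have h2 : ∫ z, w z * g s ∂gu = 0 := by
      rw [integral_mul_const, hw0, zero_mul]
    rw [← sub_zero (∫ z, w z * g (s + r * z) ∂gu), ← h2, ← integral_sub i1 i2]
    congr 1
    funext z
    ring
  rw [e]
  calc |∫ z, w z * (g (s + r * z) - g s) ∂gu| ≤ ∫ z, S * W z ∂gu := by
        rw [← Real.norm_eq_abs]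
        refine norm_integral_le_of_norm_le (int4.const_mul _) (ae_of_all _ fun z => ?_)
        rw [Real.norm_eq_abs, abs_mul]
        calc |w z| * |g (s + r * z) - g s| ≤ (1 + z ^ 2) * (S * (1 + z ^ 2)) :=
              mul_le_mul (hwb z) (hg z) (abs_nonneg _) (by positivity)
          _ = S * W z := by
              unfold W
              ring
    _ = cA * S := by
        rw [integral_const_mul]
        unfold cA
        ring

section two

variable {f : P2 → ℝ} {K L : ℝ} {f1 f2 : P2 → ℝ}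

/-- shift in the first direction -/
lemma shS {q q' : ℝ → ℝ} (hf : Nice f K L f1 f2) (hq : ∀ z, HasDerivAt q (q' z) z)
    (hqb : ∀ z, |q z| ≤ 1 + z ^ 2) (hqb' : ∀ z, |q' z| ≤ 1 + z ^ 2) (hqm' : Measurable q')
    (hzb : ∀ z, |z * q z - q' z| ≤ 1 + z ^ 2) (hz0 : ∫ z, (z * q z - q' z) ∂gu = 0)
    {S r : ℝ} (hS : 0 ≤ S) (hr : 0 < r)
    (hH : ∀ (x : P2) (z : ℝ), |f (x.1 + r * z, x.2) - f x| ≤ S * (1 + z ^ 2)) (x : P2) (a : ℝ) :
    |(∫ z : P2, q z.1 * f (x.1 + a + r * z.1, x.2 + r * z.2) ∂(gu.prod gu)) -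
      ∫ z : P2, q z.1 * f (x.1 + r * z.1, x.2 + r * z.2) ∂(gu.prod gu)| ≤
      r⁻¹ * (cA * S) * |a| := by
  have hqm := q_meas hq
  have i1 : Integrable (fun z : P2 => q z.1 * f (x.1 + a + r * z.1, x.2 + r * z.2))
    (gu.prod gu) := int2 hf hqm hqb r (x.1 + a, x.2)
  have i2 := int2 hf hqm hqb r x
  have i3 : Integrable (fun z : P2 => q z.1 * f (x.1 + a + r * z.1, x.2 + r * z.2) -
    q z.1 * f (x.1 + r * z.1, x.2 + r * z.2)) (gu.prod gu) := i1.sub i2
  rw [← integral_sub i1 i2, integral_prod_symm _ i3, ← Real.norm_eq_abs]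
  have hb : ∀ y : ℝ, ‖∫ z, (q z * f (x.1 + a + r * z, x.2 + r * y) -
      q z * f (x.1 + r * z, x.2 + r * y)) ∂gu‖ ≤ r⁻¹ * (cA * S) * |a| := by
    intro y
    have hgm := sec_meas hf (x.2 + r * y)
    have hgi : ∀ s : ℝ, Integrable (fun z => q z * f (s + r * z, x.2 + r * y)) gu := by
      intro s
      refine gint (B := K) (hqm.mul (hgm.comp (by fun_prop : Measurable fun z : ℝ => s + r * z)))
        fun z => ?_
      rw [abs_mul, mul_comm K]
      exact mul_le_mul ((hqb z).trans (W_ge z)) (hf.bd _) (abs_nonneg _) (W_nonneg z)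
    rw [integral_sub (hgi (x.1 + a)) (hgi x.1), Real.norm_eq_abs]
    exact inc1 hq hqb hqb' hqm' (g := fun t => f (t, x.2 + r * y))
      (g' := fun t => f1 (t, x.2 + r * y)) (fun t => hf.d1 (t, x.2 + r * y))
      (fun t => hf.bd _) (fun t => hf.b1 _) hr (B := cA * S)
      (fun s => holS hS ((measurable_id.mul hqm).sub hqm') hzb hz0 hgm
        (fun t => hf.bd _) (fun z => hH (s, x.2 + r * y) z)) x.1 a
  refine (norm_integral_le_of_norm_le_const (ae_of_all _ hb)).trans (le_of_eq ?_)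
  simp

/-- The estimates for direction one. -/
lemma dirOneS (hf : Nice f K L f1 f2) {S r : ℝ} (hS : 0 ≤ S) (hr : 0 < r)
    (hH : ∀ (x : P2) (z : ℝ), |f (x.1 + r * z, x.2) - f x| ≤ S * (1 + z ^ 2)) (x h : P2) :
    |B1 r f x| ≤ cA ^ 2 * S ∧
      |B1 r f (x + h) - B1 r f x| ≤ cA ^ 2 * S * (|h.1| + |h.2|) * r⁻¹ := by
  have hA := cA_ge
  have hA2 : cA ≤ cA ^ 2 := by nlinarith
  have hri : 0 < r⁻¹ := inv_pos.2 hr
  have hzm : Measurable (fun z : ℝ => z) := measurable_id
  refine ⟨?_, ?_⟩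
  · -- the size
    have h2 : |B1 r f x| ≤ cA * S := by
      have i := int2 hf hzm bound_abs r x
      have e : B1 r f x = ∫ z : P2, z.1 * f (x.1 + r * z.1, x.2 + r * z.2) ∂(gu.prod gu) := rfl
      rw [e, integral_prod_symm _ i, ← Real.norm_eq_abs]
      refine (norm_integral_le_of_norm_le_const (C := cA * S)
        (ae_of_all _ fun y => ?_)).trans (le_of_eq (by simp))
      rw [Real.norm_eq_abs]
      exact holS hS hzm bound_abs mean1 (sec_meas hf (x.2 + r * y)) (fun t => hf.bd _)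
        (fun z => hH (x.1, x.2 + r * y) z)
    exact h2.trans (mul_le_mul_of_nonneg_right hA2 hS)
  · -- the increments
    have s1 : ∀ x : P2, |B1 r f (x.1 + h.1, x.2) - B1 r f x| ≤ r⁻¹ * (cA * S) * |h.1| := by
      intro x
      refine shS hf hqz bound_abs (fun z => by simp [sq_nonneg]) measurable_const ?_ ?_ hS hr
        hH x h.1
      · intro z
        rw [abs_le]
        constructor <;> nlinarith [sq_nonneg z]
      · exact mean2
    have s2 : |B1 r f (x.1, x.2 + h.2) - B1 r f x| ≤ cA ^ 2 * S * |h.2| * r⁻¹ := by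
      have i1 : Integrable (fun z : P2 => z.1 * f (x.1 + r * z.1, x.2 + h.2 + r * z.2))
        (gu.prod gu) := int2 hf hzm bound_abs r (x.1, x.2 + h.2)
      have i2 : Integrable (fun z : P2 => z.1 * f (x.1 + r * z.1, x.2 + r * z.2))
        (gu.prod gu) := int2 hf hzm bound_abs r x
      have i3 : Integrable (fun z : P2 => z.1 * f (x.1 + r * z.1, x.2 + h.2 + r * z.2) -
        z.1 * f (x.1 + r * z.1, x.2 + r * z.2)) (gu.prod gu) := i1.sub i2
      have e1 : B1 r f (x.1, x.2 + h.2) =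
        ∫ z : P2, z.1 * f (x.1 + r * z.1, x.2 + h.2 + r * z.2) ∂(gu.prod gu) := rfl
      have e2 : B1 r f x = ∫ z : P2, z.1 * f (x.1 + r * z.1, x.2 + r * z.2) ∂(gu.prod gu) := rfl
      rw [e1, e2, ← integral_sub i1 i2, integral_prod _ i3]
      -- sections in the second direction
      have hsm : ∀ c : ℝ, Measurable (fun t => f (c, t)) :=
        fun c => hf.cont.measurable.comp (by fun_prop)
      have hsi : ∀ c s : ℝ, Integrable (fun z => f (c, s + r * z)) gu := by
        intro c s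
        refine gint (B := K) ((hsm c).comp (by fun_prop : Measurable fun z : ℝ => s + r * z))
          fun z => ?_
        have hK0 : 0 ≤ K := (abs_nonneg _).trans (hf.bd 0)
        have h3 := W_ge z
        have h4 : 1 ≤ W z := by nlinarith [sq_nonneg z]
        exact (hf.bd _).trans (le_mul_of_one_le_right hK0 h4)
      set D : ℝ → ℝ := fun c => (∫ z, f (c, x.2 + h.2 + r * z) ∂gu) - ∫ z, f (c, x.2 + r * z) ∂gu
        with hD
      have e3 : ∀ z : ℝ, ∫ y, (z * f (x.1 + r * z, x.2 + h.2 + r * y) -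
          z * f (x.1 + r * z, x.2 + r * y)) ∂gu = z * D (x.1 + r * z) := by
        intro z
        rw [hD]
        simp only
        rw [← integral_sub (hsi _ _) (hsi _ _), ← integral_const_mul]
        congr 1
        funext y
        ring
      have e4 : ∫ z, ∫ y, (z * f (x.1 + r * z, x.2 + h.2 + r * y) -
          z * f (x.1 + r * z, x.2 + r * y)) ∂gu ∂gu = ∫ z, z * D (x.1 + r * z) ∂gu := by
        congr 1
        funext z
        exact e3 z
      have hDint : Integrable (fun z => z * D (x.1 + r * z)) gu := by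
        have := i3.integral_prod_left
        refine this.congr (ae_of_all _ fun z => ?_)
        exact e3 z
      have e5 : ∫ z, z * D (x.1 + r * z) ∂gu = ∫ z, z * (D (x.1 + r * z) - D x.1) ∂gu := by
        have h5 : ∫ z, z * D x.1 ∂gu = 0 := by
          rw [integral_mul_const, mean1, zero_mul]
        have h6 : Integrable (fun z => z * D x.1) gu :=
          (gint (B := 1) hzm fun z => by
            rw [one_mul]; exact (bound_abs z).trans (W_ge z)).mul_const _
        rw [← sub_zero (∫ z, z * D (x.1 + r * z) ∂gu), ← h5, ← integral_sub hDint h6]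
        congr 1
        funext z
        ring
      have hDb : ∀ z : ℝ, |D (x.1 + r * z) - D x.1| ≤
          cA * S * |h.2| * r⁻¹ * (1 + z ^ 2) := by
        intro z
        have e6 : D (x.1 + r * z) - D x.1 =
            (∫ y, (1 : ℝ) * (fun t => f (x.1 + r * z, t) - f (x.1, t)) (x.2 + h.2 + r * y) ∂gu) -
            ∫ y, (1 : ℝ) * (fun t => f (x.1 + r * z, t) - f (x.1, t)) (x.2 + r * y) ∂gu := by
          simp only [one_mul]
          rw [integral_sub (hsi _ _) (hsi _ _), integral_sub (hsi _ _) (hsi _ _), hD]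
          ring
        have hgb : ∀ t, |f (x.1 + r * z, t) - f (x.1, t)| ≤ S * (1 + z ^ 2) :=
          fun t => hH (x.1, t) z
        have hgm : Measurable (fun t => f (x.1 + r * z, t) - f (x.1, t)) :=
          (hsm _).sub (hsm _)
        rw [e6]
        have h7 := inc1 (q := fun _ => 1) (q' := fun _ => 0) hq1
          (fun z => by simp [sq_nonneg]) (fun z => by simp; positivity) measurable_const
          (g := fun t => f (x.1 + r * z, t) - f (x.1, t))
          (g' := fun t => f2 (x.1 + r * z, t) - f2 (x.1, t))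
          (fun t => (hf.d2 (x.1 + r * z, t)).sub (hf.d2 (x.1, t)))
          (K := S * (1 + z ^ 2)) (L := L + L) hgb
          (fun t => (abs_sub _ _).trans (add_le_add (hf.b2 _) (hf.b2 _))) hr
          (B := S * (1 + z ^ 2) * cA)
          (fun s => by
            rw [← Real.norm_eq_abs]
            have h8 : S * (1 + z ^ 2) * cA = ∫ y, S * (1 + z ^ 2) * W y ∂gu := by
              rw [integral_const_mul]
              rfl
            rw [h8]
            refine norm_integral_le_of_norm_le (int4.const_mul _) (ae_of_all _ fun y => ?_)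
            rw [Real.norm_eq_abs, abs_mul, mul_one, sub_zero, mul_comm (S * (1 + z ^ 2))]
            exact mul_le_mul ((bound_abs y).trans (W_ge y)) (hgb _) (abs_nonneg _) (W_nonneg _))
          x.2 h.2
        refine h7.trans (le_of_eq ?_)
        ring
      have e8 : (∫ z, ∫ y, (z * f (x.1 + r * z, x.2 + h.2 + r * y) -
          z * f (x.1 + r * z, x.2 + r * y)) ∂gu ∂gu) =
          ∫ z, z * (D (x.1 + r * z) - D x.1) ∂gu := e4.trans e5
      refine le_trans (le_of_eq (congrArg abs e8)) ?_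
      rw [← Real.norm_eq_abs]
      calc ‖∫ z, z * (D (x.1 + r * z) - D x.1) ∂gu‖
          ≤ ∫ z, cA * S * |h.2| * r⁻¹ * W z ∂gu := by
            refine norm_integral_le_of_norm_le (int4.const_mul _) (ae_of_all _ fun z => ?_)
            rw [Real.norm_eq_abs, abs_mul]
            calc |z| * |D (x.1 + r * z) - D x.1|
                ≤ (1 + z ^ 2) * (cA * S * |h.2| * r⁻¹ * (1 + z ^ 2)) :=
                  mul_le_mul (bound_abs z) (hDb z) (abs_nonneg _) (by positivity)
              _ = cA * S * |h.2| * r⁻¹ * W z := by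
                  unfold W
                  ring
        _ = cA ^ 2 * S * |h.2| * r⁻¹ := by
            rw [integral_const_mul]
            change cA * S * |h.2| * r⁻¹ * cA = _
            ring
    have s3 := s1 (x.1, x.2 + h.2)
    have e10 : x + h = ((x.1 + h.1, x.2 + h.2) : P2) := rfl
    rw [e10]
    calc |B1 r f (x.1 + h.1, x.2 + h.2) - B1 r f x|
        = |(B1 r f (x.1 + h.1, x.2 + h.2) - B1 r f (x.1, x.2 + h.2)) +
            (B1 r f (x.1, x.2 + h.2) - B1 r f x)| := by congr 1; ring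
      _ ≤ |B1 r f (x.1 + h.1, x.2 + h.2) - B1 r f (x.1, x.2 + h.2)| +
            |B1 r f (x.1, x.2 + h.2) - B1 r f x| := abs_add_le _ _
      _ ≤ r⁻¹ * (cA * S) * |h.1| + cA ^ 2 * S * |h.2| * r⁻¹ := add_le_add s3 s2
      _ ≤ r⁻¹ * (cA ^ 2 * S) * |h.1| + cA ^ 2 * S * |h.2| * r⁻¹ := by
          have h9 : r⁻¹ * (cA * S) * |h.1| ≤ r⁻¹ * (cA ^ 2 * S) * |h.1| :=
            mul_le_mul_of_nonneg_right (mul_le_mul_of_nonneg_left
              (mul_le_mul_of_nonneg_right hA2 hS) hri.le) (abs_nonneg _)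
          linarith
      _ = cA ^ 2 * S * (|h.1| + |h.2|) * r⁻¹ := by ring

end two

/-- the sum of two powers -/
noncomputable def Sr (A a B b r : ℝ) : ℝ := A * r ^ a + B * r ^ b

lemma Sr_nonneg {A a B b r : ℝ} (hA : 0 ≤ A) (hB : 0 ≤ B) (hr : 0 < r) : 0 ≤ Sr A a B b r := by
  unfold Sr
  positivity

lemma Sr_bound {A a B b r : ℝ} (ha : 0 < a) (ha1 : a < 1) (hb : 0 < b) (hb1 : b < 1) (hA : 0 ≤ A)
    (hB : 0 ≤ B) (hr : 0 < r) (z : ℝ) :
    A * |r * z| ^ a + B * |r * z| ^ b ≤ Sr A a B b r * (1 + z ^ 2) := by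
  unfold Sr
  rw [abs_mul, abs_of_pos hr, Real.mul_rpow hr.le (abs_nonneg z),
    Real.mul_rpow hr.le (abs_nonneg z), add_mul, ← mul_assoc, ← mul_assoc]
  exact add_le_add (mul_le_mul_of_nonneg_left (rpow_bound ha.le ha1 z) (by positivity))
    (mul_le_mul_of_nonneg_left (rpow_bound hb.le hb1 z) (by positivity))

lemma key {A a B b : ℝ} (ha : 0 < a) (ha1 : a < 1) (hb : 0 < b) (hb1 : b < 1) {C ρ : ℝ}
    (hρ : 0 < ρ) {u v : ℝ → ℝ} (hu : IntegrableOn (fun r => u r / r) (Ioi 0))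
    (hv : IntegrableOn (fun r => v r / r) (Ioi 0))
    (hu1 : ∀ r, 0 < r → |u r| ≤ C * Sr A a B b r) (hv1 : ∀ r, 0 < r → |v r| ≤ C * Sr A a B b r)
    (huv : ∀ r, 0 < r → |u r - v r| ≤ C * Sr A a B b r * ρ * r⁻¹) :
    |(∫ r in Ioi (0 : ℝ), u r / r) - ∫ r in Ioi (0 : ℝ), v r / r| ≤
      (2 * C / a + C / (1 - a)) * A * ρ ^ a + (2 * C / b + C / (1 - b)) * B * ρ ^ b := by
  rw [← integral_sub hu hv]
  have huv' : IntegrableOn (fun r => u r / r - v r / r) (Ioi 0) := hu.sub hv
  have hsplit : Ioi (0 : ℝ) = Ioc 0 ρ ∪ Ioi ρ := (Ioc_union_Ioi_eq_Ioi hρ.le).symm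
  have hd : Disjoint (Ioc (0 : ℝ) ρ) (Ioi ρ) := Ioc_disjoint_Ioi le_rfl
  have hi1 : IntegrableOn (fun r => u r / r - v r / r) (Ioc 0 ρ) :=
    huv'.mono_set Ioc_subset_Ioi_self
  have hi2 : IntegrableOn (fun r => u r / r - v r / r) (Ioi ρ) :=
    huv'.mono_set (Ioi_subset_Ioi hρ.le)
  rw [hsplit, setIntegral_union hd measurableSet_Ioi hi1 hi2]
  have j1 : ∀ (M δ : ℝ), 0 < δ → IntegrableOn (fun r : ℝ => 2 * C * M * r ^ (δ - 1)) (Ioc 0 ρ) := by
    intro M δ hδ
    have := (intervalIntegral.intervalIntegrable_rpow' (a := 0) (b := ρ) (r := δ - 1)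
      (by linarith)).const_mul (2 * C * M)
    rwa [intervalIntegrable_iff_integrableOn_Ioc_of_le hρ.le] at this
  have j2 : ∀ (M δ : ℝ), δ < 1 → IntegrableOn (fun r : ℝ => C * M * ρ * r ^ (δ - 2)) (Ioi ρ) :=
    fun M δ hδ => (integrableOn_Ioi_rpow_of_lt (by linarith) hρ).const_mul _
  have e3 : ∀ (M δ : ℝ), 0 < δ →
      ∫ r in Ioc (0 : ℝ) ρ, 2 * C * M * r ^ (δ - 1) = 2 * C * M * (ρ ^ δ / δ) := by
    intro M δ hδ
    rw [integral_const_mul, ← intervalIntegral.integral_of_le hρ.le,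
      integral_rpow (Or.inl (by linarith))]
    rw [sub_add_cancel, Real.zero_rpow hδ.ne', sub_zero]
  have e4 : ∀ (M δ : ℝ), δ < 1 →
      ∫ r in Ioi ρ, C * M * ρ * r ^ (δ - 2) = C * M * (ρ ^ δ / (1 - δ)) := by
    intro M δ hδ
    rw [integral_const_mul, integral_Ioi_rpow_of_lt (by linarith) hρ]
    rw [show δ - 2 + 1 = δ - 1 by ring, Real.rpow_sub_one hρ.ne']
    have : 1 - δ ≠ 0 := by linarith
    have h3 : δ - 1 ≠ 0 := by linarith
    field_simp
    ring
  -- the bounds
  have e1 : ‖∫ r in Ioc (0 : ℝ) ρ, (u r / r - v r / r)‖ ≤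
      ∫ r in Ioc (0 : ℝ) ρ, (2 * C * A * r ^ (a - 1) + 2 * C * B * r ^ (b - 1)) := by
    refine norm_integral_le_of_norm_le ((j1 A a ha).add (j1 B b hb)) ?_
    refine (ae_restrict_iff' measurableSet_Ioc).2 (ae_of_all _ fun r hr => ?_)
    have hr0 : 0 < r := hr.1
    rw [← sub_div, Real.norm_eq_abs, abs_div, abs_of_pos hr0, div_le_iff₀ hr0]
    have h2 : ∀ δ : ℝ, r ^ (δ - 1) * r = r ^ δ := fun δ => by
      rw [Real.rpow_sub_one hr0.ne', div_mul_cancel₀ _ hr0.ne']
    calc |u r - v r| ≤ |u r| + |v r| := abs_sub _ _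
      _ ≤ C * Sr A a B b r + C * Sr A a B b r := add_le_add (hu1 r hr0) (hv1 r hr0)
      _ = (2 * C * A * r ^ (a - 1) + 2 * C * B * r ^ (b - 1)) * r := by
        unfold Sr
        rw [← h2 a, ← h2 b]
        ring
  have e2 : ‖∫ r in Ioi ρ, (u r / r - v r / r)‖ ≤
      ∫ r in Ioi ρ, (C * A * ρ * r ^ (a - 2) + C * B * ρ * r ^ (b - 2)) := by
    refine norm_integral_le_of_norm_le ((j2 A a ha1).add (j2 B b hb1)) ?_
    refine (ae_restrict_iff' measurableSet_Ioi).2 (ae_of_all _ fun r hr => ?_)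
    have hr0 : 0 < r := hρ.trans hr
    rw [← sub_div, Real.norm_eq_abs, abs_div, abs_of_pos hr0, div_le_iff₀ hr0]
    have h2 : ∀ δ : ℝ, r ^ (δ - 2) * r = r ^ δ * r⁻¹ := fun δ => by
      rw [← Real.rpow_add_one hr0.ne', ← Real.rpow_neg_one r, ← Real.rpow_add hr0]
      congr 1
      ring
    refine (huv r hr0).trans (le_of_eq ?_)
    unfold Sr
    calc C * (A * r ^ a + B * r ^ b) * ρ * r⁻¹ =
        C * A * ρ * (r ^ a * r⁻¹) + C * B * ρ * (r ^ b * r⁻¹) := by ring
      _ = (C * A * ρ * r ^ (a - 2) + C * B * ρ * r ^ (b - 2)) * r := by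
        rw [← h2 a, ← h2 b]
        ring
  rw [integral_add (j1 A a ha) (j1 B b hb), e3 A a ha, e3 B b hb] at e1
  rw [integral_add (j2 A a ha1) (j2 B b hb1), e4 A a ha1, e4 B b hb1] at e2
  rw [Real.norm_eq_abs] at e1 e2
  refine (abs_add_le _ _).trans ((add_le_add e1 e2).trans (le_of_eq ?_))
  ring

/-- the constant -/
noncomputable def Cc (δ : ℝ) : ℝ :=
  open Classical in
  if 0 < δ ∧ δ < 1 then √(2 / Real.pi) * (2 * cA ^ 2 / δ + cA ^ 2 / (1 - δ)) else 1

lemma K_pos : 0 < √(2 / Real.pi) := Real.sqrt_pos.2 (by positivity)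

lemma Cc_eq {δ : ℝ} (h0 : 0 < δ) (h1 : δ < 1) :
    Cc δ = √(2 / Real.pi) * (2 * cA ^ 2 / δ + cA ^ 2 / (1 - δ)) := by
  unfold Cc
  rw [if_pos ⟨h0, h1⟩]

lemma Cc_pos (δ : ℝ) : 0 < Cc δ := by
  unfold Cc
  split_ifs with h
  · have h1 : 0 < 1 - δ := by linarith [h.2]
    have h2 := h.1
    have h3 := K_pos
    have h4 : 0 < cA := by linarith [cA_ge]
    positivity
  · exact one_pos

lemma cases_h (h : P2) : h = 0 ∨ 0 < |h.1| + |h.2| := by
  by_cases hh : |h.1| + |h.2| = 0
  · left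
    have h2 : |h.1| = 0 := by linarith [abs_nonneg h.1, abs_nonneg h.2]
    have h3 : |h.2| = 0 := by linarith [abs_nonneg h.1, abs_nonneg h.2]
    exact Prod.ext (abs_eq_zero.1 h2) (abs_eq_zero.1 h3)
  · right
    exact lt_of_le_of_ne (by positivity) (Ne.symm hh)

end UB2Aux

open UB2Aux EBAux in
theorem ub2 (hGB : Stmt_GB) (hD : Stmt_DER) : Stmt_UB2 := by
  refine ⟨Cc, Cc_pos, ?_⟩
  intro a b ha ha1 hb hb1 f φ A B hN hA hB
  obtain ⟨K, L, f1, f2, hf⟩ := nice_of hD hN
  have hK := K_pos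
  have hCa := Cc_pos a
  have hCb := Cc_pos b
  have ea := Cc_eq ha ha1
  have eb := Cc_eq hb hb1
  constructor
  · intro hH x h
    rcases cases_h h with rfl | hρ
    · rw [add_zero, sub_self, norm_zero]
      positivity
    · have hbd : ∀ r : ℝ, 0 < r → ∀ x h : P2, |B1 r f x| ≤ cA ^ 2 * Sr A a B b r ∧
          |B1 r f (x + h) - B1 r f x| ≤ cA ^ 2 * Sr A a B b r * (|h.1| + |h.2|) * r⁻¹ :=
        fun r hr x h => dirOneS hf (Sr_nonneg hA hB hr) hr
          (fun x z => (hH x (r * z)).trans (Sr_bound ha ha1 hb hb1 hA hB hr z)) x h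
      have hk := key ha ha1 hb hb1 hρ (hGB f φ hN (x + h)).2.1 (hGB f φ hN x).2.1
        (fun r hr => (hbd r hr (x + h) 0).1) (fun r hr => (hbd r hr x 0).1)
        (fun r hr => (hbd r hr x h).2)
      rw [(hGB f φ hN (x + h)).2.2.2, (hGB f φ hN x).2.2.2, ← Complex.ofReal_sub,
        Complex.norm_real, Real.norm_eq_abs]
      rw [show -(√(2 / Real.pi) * ∫ r in Ioi (0 : ℝ), B1 r f (x + h) / r) -
        -(√(2 / Real.pi) * ∫ r in Ioi (0 : ℝ), B1 r f x / r) =
        -(√(2 / Real.pi) * ((∫ r in Ioi (0 : ℝ), B1 r f (x + h) / r) -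
          ∫ r in Ioi (0 : ℝ), B1 r f x / r)) by ring, abs_neg, abs_mul, abs_of_pos hK]
      refine (mul_le_mul_of_nonneg_left hk hK.le).trans (le_of_eq ?_)
      rw [ea, eb]
      ring
  · intro hH x h
    rcases cases_h h with rfl | hρ
    · rw [add_zero, sub_self, norm_zero]
      positivity
    · have hbd : ∀ r : ℝ, 0 < r → ∀ x h : P2, |B2 r f x| ≤ cA ^ 2 * Sr A a B b r ∧
          |B2 r f (x + h) - B2 r f x| ≤ cA ^ 2 * Sr A a B b r * (|h.1| + |h.2|) * r⁻¹ := by
        intro r hr x h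
        obtain ⟨a1, a2⟩ := dirOneS hf.swap (Sr_nonneg hA hB hr) hr
          (fun (x : P2) z => (hH x.swap (r * z)).trans (Sr_bound ha ha1 hb hb1 hA hB hr z))
          x.swap h.swap
        refine ⟨?_, ?_⟩
        · rw [B2_swap]
          exact a1
        · rw [B2_swap, B2_swap, Prod.swap_add]
          rw [add_comm |h.1|]
          exact a2
      have hk := key ha ha1 hb hb1 hρ (hGB f φ hN (x + h)).1 (hGB f φ hN x).1
        (fun r hr => (hbd r hr (x + h) 0).1) (fun r hr => (hbd r hr x 0).1)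
        (fun r hr => (hbd r hr x h).2)
      rw [(hGB f φ hN (x + h)).2.2.1, (hGB f φ hN x).2.2.1, ← Complex.ofReal_sub,
        Complex.norm_real, Real.norm_eq_abs, ← mul_sub, abs_mul, abs_of_pos hK]
      refine (mul_le_mul_of_nonneg_left hk hK.le).trans (le_of_eq ?_)
      rw [ea, eb]
      ring

end Pool.Agent.SQG
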