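import Pool.Agent.SQG.Stmts8

/-!
# FB8: the flux bound
-/

set_option autoImplicit false

namespace Pool.Agent.SQG

open Complex MeasureTheory Set Filter Topology ProbabilityTheory

namespace FB8Aux

lemma norm_e (x ξ : P2) : ‖cexp (I * ((x.1 * ξ.1 + x.2 * ξ.2 : ℝ) : ℂ))‖ = 1 := by
  rw [mul_comm]
  exact Complex.norm_exp_ofReal_mul_I _

lemma cont_IF {g : P2 → ℂ} (hg : Integrable g) : Continuous (IF g) := by
  unfold IF
  refine continuous_of_dominated (bound := fun ξ => ‖g ξ‖) ?_ ?_ hg.norm ?_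
  · intro x
    refine hg.aestronglyMeasurable.mul ?_
    refine Continuous.aestronglyMeasurable ?_
    fun_prop
  · intro x
    refine ae_of_all _ fun ξ => ?_
    rw [norm_mul, norm_e, mul_one]
  · refine ae_of_all _ fun ξ => ?_
    fun_prop

lemma int_D1 {f : P2 → ℝ} {φ : P2 → ℂ} (h : NF f φ) : Integrable (D1 φ) := by
  refine (h.int 1).mono' ?_ (ae_of_all _ fun ξ => ?_)
  · unfold D1
    refine AEStronglyMeasurable.mul ?_ h.meas
    refine Continuous.aestronglyMeasurable ?_
    fun_prop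
  · rw [D1, norm_mul, norm_mul, Complex.norm_I, one_mul, Complex.norm_real, pow_one]
    refine mul_le_mul_of_nonneg_right ?_ (norm_nonneg _)
    rw [Real.norm_eq_abs]
    unfold nm
    exact Real.abs_le_sqrt (by nlinarith [sq_nonneg ξ.2])

lemma int_D2 {f : P2 → ℝ} {φ : P2 → ℂ} (h : NF f φ) : Integrable (D2 φ) := by
  refine (h.int 1).mono' ?_ (ae_of_all _ fun ξ => ?_)
  · unfold D2
    refine AEStronglyMeasurable.mul ?_ h.meas
    refine Continuous.aestronglyMeasurable ?_
    fun_prop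
  · rw [D2, norm_mul, norm_mul, Complex.norm_I, one_mul, Complex.norm_real, pow_one]
    refine mul_le_mul_of_nonneg_right ?_ (norm_nonneg _)
    rw [Real.norm_eq_abs]
    unfold nm
    exact Real.abs_le_sqrt (by nlinarith [sq_nonneg ξ.1])

lemma setint_eq (g : ℝ → ℝ) {s : ℝ} (hs : 0 < s) :
    ∫ y in Icc (-s) s, g y = ∫ y in (-s)..s, g y := by
  rw [intervalIntegral.integral_of_le (by linarith), integral_Icc_eq_integral_Ioc]

/-- The abstract form. -/
lemma core {f G1 G2 : P2 → ℝ} (hf : Continuous f) (h1 : Continuous G1) (h2 : Continuous G2)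
    (hd1 : ∀ x : P2, HasDerivAt (fun t : ℝ => f (t, x.2)) (G1 x) x.1)
    (hd2 : ∀ x : P2, HasDerivAt (fun t : ℝ => f (x.1, t)) (G2 x) x.2)
    {D K ω s : ℝ} {p : P2} (_hK : 0 ≤ K) (hω : 0 ≤ ω) (hs : 0 < s)
    (hD : ∀ a : ℝ, f (p.1 + a, p.2 + s) - f (p.1 + a, p.2 - s) ≤ D)
    (hG : ∀ y ∈ Sq8 s, |G1 (p + y)| ≤ 2 * ω * (G2 (p + y) + K) + K) :
    J8 f p s ≤ (2 * s) * ((2 * s) * (2 * ω * D + (2 * ω + 1) * K * (2 * s))) := by
  set H : P2 → ℝ := fun y => 2 * ω * (G2 (p + y) + K) + K with hHdef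
  have hHc : Continuous H := by
    rw [hHdef]
    fun_prop
  set Ψ : ℝ → ℝ := fun y2 => ∫ a in (-s)..s, H (a, y2) with hΨ
  have hΨc : Continuous Ψ := by
    rw [hΨ]
    refine intervalIntegral.continuous_parametric_intervalIntegral_of_continuous' ?_ _ _
    exact hHc.comp (by fun_prop)
  have hvol : (volume (Icc (-s) s)).toReal = 2 * s := by
    rw [Real.volume_Icc, ENNReal.toReal_ofReal (by linarith)]
    ring
  have hcpt : IsCompact (Sq8 s) := isCompact_Icc.prod isCompact_Icc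
  have hmS : MeasurableSet (Sq8 s) := measurableSet_Icc.prod measurableSet_Icc
  -- the pointwise bound
  have hpt : ∀ y ∈ Sq8 s, |f (p.1 + y.1, p.2 + y.2) - f (p.1 - y.1, p.2 + y.2)| ≤ Ψ y.2 := by
    intro y hy
    have hy1 : y.1 ∈ Icc (-s) s := hy.1
    have hy2 : y.2 ∈ Icc (-s) s := hy.2
    have hg : Continuous fun a : ℝ => G1 (p.1 + a, p.2 + y.2) := by fun_prop
    have hder : ∀ a : ℝ, HasDerivAt (fun t : ℝ => f (p.1 + t, p.2 + y.2))
        (G1 (p.1 + a, p.2 + y.2)) a := by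
      intro a
      have h := hd1 (p.1 + a, p.2 + y.2)
      exact h.comp_const_add p.1 a
    have hftc : ∫ a in (-y.1)..y.1, G1 (p.1 + a, p.2 + y.2) =
        f (p.1 + y.1, p.2 + y.2) - f (p.1 + -y.1, p.2 + y.2) :=
      intervalIntegral.integral_eq_sub_of_hasDerivAt (fun a _ => hder a)
        (hg.intervalIntegrable _ _)
    have e0 : f (p.1 + y.1, p.2 + y.2) - f (p.1 - y.1, p.2 + y.2) =
        ∫ a in (-y.1)..y.1, G1 (p.1 + a, p.2 + y.2) := by
      rw [hftc, sub_eq_add_neg p.1 y.1]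
    rw [e0]
    have hsub : uIoc (-y.1) y.1 ⊆ Ioc (-s) s := by
      intro a ha
      rw [mem_uIoc] at ha
      rcases ha with ha | ha
      · exact ⟨by linarith [hy1.1, hy1.2, ha.1], by linarith [hy1.2, ha.2]⟩
      · exact ⟨by linarith [hy1.1, ha.1], by linarith [hy1.1, ha.2]⟩
    have hb1 : |∫ a in (-y.1)..y.1, G1 (p.1 + a, p.2 + y.2)| ≤
        ∫ a in uIoc (-y.1) y.1, |G1 (p.1 + a, p.2 + y.2)| := by
      rw [intervalIntegral.abs_intervalIntegral_eq]
      exact abs_integral_le_integral_abs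
    refine hb1.trans ?_
    have hb2 : ∫ a in uIoc (-y.1) y.1, |G1 (p.1 + a, p.2 + y.2)| ≤
        ∫ a in Ioc (-s) s, |G1 (p.1 + a, p.2 + y.2)| := by
      refine setIntegral_mono_set ?_ (ae_of_all _ fun a => abs_nonneg _) hsub.eventuallyLE
      exact (hg.abs.integrableOn_Icc (a := -s) (b := s)).mono_set Ioc_subset_Icc_self
    refine hb2.trans ?_
    rw [hΨ]
    simp only
    rw [intervalIntegral.integral_of_le (by linarith)]
    refine setIntegral_mono_on ?_ ?_ measurableSet_Ioc fun a ha => ?_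
    · exact (hg.abs.integrableOn_Icc (a := -s) (b := s)).mono_set Ioc_subset_Icc_self
    · have hc : Continuous fun a : ℝ => H (a, y.2) := by fun_prop
      exact (hc.integrableOn_Icc (a := -s) (b := s)).mono_set Ioc_subset_Icc_self
    · exact hG (a, y.2) ⟨⟨ha.1.le, ha.2⟩, hy2⟩
  have hFc : Continuous fun y : P2 =>
      |f (p.1 + y.1, p.2 + y.2) - f (p.1 - y.1, p.2 + y.2)| := by fun_prop
  have s1 : J8 f p s ≤ ∫ y in Sq8 s, Ψ y.2 := by
    unfold J8
    exact setIntegral_mono_on (hFc.continuousOn.integrableOn_compact hcpt)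
      ((hΨc.comp continuous_snd).continuousOn.integrableOn_compact hcpt) hmS hpt
  have s2 : ∫ y in Sq8 s, Ψ y.2 = (2 * s) * ∫ y in Icc (-s) s, Ψ y := by
    unfold Sq8
    rw [Measure.volume_eq_prod, setIntegral_prod]
    · simp only [integral_const, smul_eq_mul, measureReal_restrict_apply_univ]
      unfold Measure.real
      rw [hvol]
    · have h0 : IntegrableOn (fun y : P2 => Ψ y.2) (Sq8 s) volume :=
        (hΨc.comp continuous_snd).continuousOn.integrableOn_compact hcpt
      exact h0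
  have s3 : ∫ y in Icc (-s) s, Ψ y = ∫ a in Icc (-s) s, ∫ y in Icc (-s) s, H (a, y) := by
    have hi : Integrable (Function.uncurry fun a y : ℝ => H (a, y))
        ((volume.restrict (Icc (-s) s)).prod (volume.restrict (Icc (-s) s))) := by
      rw [Measure.prod_restrict]
      exact hHc.continuousOn.integrableOn_compact hcpt
    have h := integral_integral_swap hi
    rw [h]
    refine integral_congr_ae (ae_of_all _ fun y => ?_)
    simp only [hΨ]
    rw [setint_eq _ hs]
  have s4 : ∀ a : ℝ, ∫ y in Icc (-s) s, H (a, y) ≤ 2 * ω * D + (2 * ω + 1) * K * (2 * s) := by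
    intro a
    have hg : Continuous fun y : ℝ => G2 (p.1 + a, p.2 + y) := by fun_prop
    have hder : ∀ y : ℝ, HasDerivAt (fun t : ℝ => f (p.1 + a, p.2 + t))
        (G2 (p.1 + a, p.2 + y)) y := by
      intro y
      have h := hd2 (p.1 + a, p.2 + y)
      exact h.comp_const_add p.2 y
    have hftc : ∫ y in (-s)..s, G2 (p.1 + a, p.2 + y) =
        f (p.1 + a, p.2 + s) - f (p.1 + a, p.2 + -s) :=
      intervalIntegral.integral_eq_sub_of_hasDerivAt (fun a _ => hder a)
        (hg.intervalIntegrable _ _)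
    have e1 : ∫ y in Icc (-s) s, H (a, y) =
        2 * ω * (f (p.1 + a, p.2 + s) - f (p.1 + a, p.2 - s)) + (2 * ω + 1) * K * (2 * s) := by
      rw [setint_eq _ hs]
      have e2 : (fun y : ℝ => H (a, y)) =
          fun y : ℝ => 2 * ω * G2 (p.1 + a, p.2 + y) + (2 * ω + 1) * K := by
        funext y
        simp only [hHdef]
        have : p + (a, y) = (p.1 + a, p.2 + y) := rfl
        rw [this]
        ring
      rw [e2, intervalIntegral.integral_add ((hg.const_mul _ |>.intervalIntegrable _ _))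
        (continuous_const.intervalIntegrable _ _), intervalIntegral.integral_const_mul, hftc,
        intervalIntegral.integral_const, smul_eq_mul, sub_eq_add_neg p.2 s]
      ring
    rw [e1]
    have := mul_le_mul_of_nonneg_left (hD a) (by positivity : (0 : ℝ) ≤ 2 * ω)
    linarith
  have s5 : ∫ a in Icc (-s) s, ∫ y in Icc (-s) s, H (a, y) ≤
      (2 * s) * (2 * ω * D + (2 * ω + 1) * K * (2 * s)) := by
    have hc : Continuous fun a : ℝ => ∫ y in Icc (-s) s, H (a, y) := by
      have h0 : (fun a : ℝ => ∫ y in Icc (-s) s, H (a, y)) =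
          fun a : ℝ => ∫ y in (-s)..s, H (a, y) := by
        funext a
        exact setint_eq _ hs
      rw [h0]
      refine intervalIntegral.continuous_parametric_intervalIntegral_of_continuous' ?_ _ _
      exact hHc.comp (by fun_prop)
    have h := setIntegral_mono_on (μ := volume) (hc.integrableOn_Icc (a := -s) (b := s))
      ((continuous_const (y := 2 * ω * D + (2 * ω + 1) * K * (2 * s))).integrableOn_Icc
        (a := -s) (b := s)) measurableSet_Icc (fun a _ => s4 a)
    refine h.trans (le_of_eq ?_)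
    rw [setIntegral_const, smul_eq_mul]
    unfold Measure.real
    rw [hvol]
  rw [s2, s3] at s1
  exact s1.trans (mul_le_mul_of_nonneg_left s5 (by linarith))

end FB8Aux

open FB8Aux

theorem fb8 (hD : Stmt_DER) : Stmt_FB8 := by
  intro f φ hN A δ K ω s p hA h0 h1 hK hω hω2 hs hH hG
  obtain ⟨hc, -, hd⟩ := hD f φ hN
  have c1 : Continuous fun x => (IF (D1 φ) x).re :=
    Complex.continuous_re.comp (cont_IF (int_D1 hN))
  have c2 : Continuous fun x => (IF (D2 φ) x).re :=
    Complex.continuous_re.comp (cont_IF (int_D2 hN))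
  have d1 : ∀ x : P2, HasDerivAt (fun t : ℝ => f (t, x.2)) ((IF (D1 φ) x).re) x.1 := by
    intro x
    have h1 := (hd x).2.2
    have h2 : HasDerivAt (fun s : ℝ => ((s, x.2) : P2)) (1, 0) x.1 :=
      (hasDerivAt_id x.1).prodMk (hasDerivAt_const x.1 x.2)
    have h3 := h1.comp_hasDerivAt_of_eq x.1 h2 rfl
    exact h3.congr_deriv (by simp)
  have d2 : ∀ x : P2, HasDerivAt (fun t : ℝ => f (x.1, t)) ((IF (D2 φ) x).re) x.2 := by
    intro x
    have h1 := (hd x).2.2
    have h2 : HasDerivAt (fun s : ℝ => ((x.1, s) : P2)) (0, 1) x.2 :=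
      (hasDerivAt_const x.2 x.1).prodMk (hasDerivAt_id x.2)
    have h3 := h1.comp_hasDerivAt_of_eq x.2 h2 rfl
    exact h3.congr_deriv (by simp)
  have hDD : ∀ a : ℝ, f (p.1 + a, p.2 + s) - f (p.1 + a, p.2 - s) ≤ A * (2 * s) ^ δ := by
    intro a
    have h := hH (p.1 + a, p.2 + s) (p.1 + a, p.2 - s)
    have e : nm ((p.1 + a, p.2 + s) - (p.1 + a, p.2 - s) : P2) = 2 * s := by
      unfold nm
      simp only [Prod.mk_sub_mk]
      rw [show (p.1 + a - (p.1 + a)) ^ 2 + (p.2 + s - (p.2 - s)) ^ 2 = (2 * s) ^ 2 by ring,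
        Real.sqrt_sq (by linarith)]
    rw [e] at h
    exact (le_abs_self _).trans h
  have hm := core hc c1 c2 d1 d2 hK hω hs hDD (fun y hy => hG y hy)
  refine hm.trans ?_
  have e1 : (2 * s) ^ δ ≤ 2 * s ^ δ := by
    rw [Real.mul_rpow (by norm_num) hs.le]
    refine mul_le_mul_of_nonneg_right ?_ (Real.rpow_nonneg hs.le _)
    calc (2 : ℝ) ^ δ ≤ 2 ^ (1 : ℝ) := Real.rpow_le_rpow_of_exponent_le (by norm_num) h1.le
      _ = 2 := Real.rpow_one 2
  have e2 : s ^ (2 + δ) = s ^ 2 * s ^ δ := by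
    rw [Real.rpow_add hs, Real.rpow_two]
  have e3 : s ^ (3 : ℝ) = s ^ 3 := by
    rw [← Real.rpow_natCast]
    norm_num
  rw [e2, e3]
  have hp : 0 ≤ s ^ δ := Real.rpow_nonneg hs.le _
  have i1 : 2 * s * (2 * s * (2 * ω * (A * (2 * s) ^ δ))) ≤ 16 * ω * A * (s ^ 2 * s ^ δ) := by
    have : 2 * s * (2 * s * (2 * ω * (A * (2 * s) ^ δ))) = 8 * ω * A * s ^ 2 * (2 * s) ^ δ := by
      ring
    rw [this]
    have h := mul_le_mul_of_nonneg_left e1 (by positivity : (0 : ℝ) ≤ 8 * ω * A * s ^ 2)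
    linarith
  have i2 : 2 * s * (2 * s * ((2 * ω + 1) * K * (2 * s))) ≤ 16 * K * s ^ 3 := by
    have : 2 * s * (2 * s * ((2 * ω + 1) * K * (2 * s))) = (2 * ω + 1) * (8 * K * s ^ 3) := by
      ring
    rw [this]
    have h : (2 * ω + 1) * (8 * K * s ^ 3) ≤ 2 * (8 * K * s ^ 3) :=
      mul_le_mul_of_nonneg_right (by linarith) (by positivity)
    linarith
  calc 2 * s * (2 * s * (2 * ω * (A * (2 * s) ^ δ) + (2 * ω + 1) * K * (2 * s)))
      = 2 * s * (2 * s * (2 * ω * (A * (2 * s) ^ δ))) +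
        2 * s * (2 * s * ((2 * ω + 1) * K * (2 * s))) := by ring
    _ ≤ _ := add_le_add i1 i2

end Pool.Agent.SQG
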