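import Pool.Agent.SQG.Stmts8
import Pool.Agent.SQG.Foi

/-!
# SQG, module FO8: the equation at a touching point, for the modulus `N(t) |h|^σ`, `h = (0,b)`
-/

set_option autoImplicit false

namespace Pool.Agent.SQG

open Complex MeasureTheory Set Filter Topology ProbabilityTheory

namespace FO8Aux

theorem nm_vert {b : ℝ} (hb : 0 < b) : nm ((0, b) : P2) = b := by
  unfold nm
  simp [Real.sqrt_sq hb.le]

theorem add_vert (x : P2) (b : ℝ) : (x.1, x.2 + b) = x + ((0, b) : P2) := by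
  ext <;> simp

/-- a function which is close to its value at `t` from the left -/
theorem deriv_ge_left {f : ℝ → ℝ} {f' D t : ℝ} (hf : HasDerivAt f f' t)
    (h : ∀ᶠ s in 𝓝[<] t, D * (t - s) ≤ f t - f s) : D ≤ f' := by
  have h1 : Tendsto (slope f t) (𝓝[<] t) (𝓝 f') := by
    have h2 := hasDerivAt_iff_tendsto_slope.1 hf
    exact h2.mono_left (nhdsWithin_mono _ (fun s hs => ne_of_lt hs))
  refine ge_of_tendsto h1 ?_
  filter_upwards [h, self_mem_nhdsWithin] with s hs hst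
  have hst' : s < t := hst
  have h3 : slope f t s = (f t - f s) / (t - s) := by
    rw [slope_def_field, ← neg_div_neg_eq]
    congr 1 <;> ring
  rw [h3, le_div_iff₀ (by linarith)]
  exact hs

end FO8Aux

theorem fo8 (hR : Stmt_REG) (hD : Stmt_DER) : Stmt_FO8 := by
  intro α κ T θ φ hS σ t₀ t D b N x ht0 htt htT hN hσ hb hb1 hDN heq' hle
  have htI : t ∈ Ioo 0 T := ⟨ht0.trans htt, htT⟩
  have hNF : NF (θ t) (φ t) := (hR α κ T θ φ hS).1 t htI
  obtain ⟨-, -, hder⟩ := hD (θ t) (φ t) hNF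
  obtain ⟨h, hh⟩ : ∃ h : P2, h = (0, b) := ⟨_, rfl⟩
  have hnm : nm h = b := by rw [hh]; exact FO8Aux.nm_vert hb
  have hadd : (x.1, x.2 + b) = x + h := by rw [hh]; exact FO8Aux.add_vert x b
  have hh1 : h.1 = 0 := by rw [hh]
  have hh2 : h.2 = b := by rw [hh]
  have h0 : 0 < nm h := by rw [hnm]; exact hb
  have h1' : nm h < 1 := by rw [hnm]; exact hb1
  rw [hadd] at heq' ⊢
  have heq : θ t (x + h) - θ t x = N t * nm h ^ σ := by rw [hnm]; exact heq'
  -- the gradient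
  set p1 : P2 → ℝ := fun y => (IF (D1 (φ t)) y).re with hp1
  set p2 : P2 → ℝ := fun y => (IF (D2 (φ t)) y).re with hp2
  have hfd : ∀ y, HasFDerivAt (θ t) (p1 y • ContinuousLinearMap.fst ℝ ℝ ℝ +
      p2 y • ContinuousLinearMap.snd ℝ ℝ ℝ) y := fun y => (hder y).2.2
  have hD1 : ∀ y, IF (D1 (φ t)) y = ((p1 y : ℝ) : ℂ) := fun y => (hder y).1
  have hD2 : ∀ y, IF (D2 (φ t)) y = ((p2 y : ℝ) : ℂ) := fun y => (hder y).2.1
  -- (1) time derivative
  have htime : ∀ y, HasDerivAt (fun s => θ s y)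
      ((-(IF (V1 (φ t)) y * IF (D1 (φ t)) y + IF (V2 (φ t)) y * IF (D2 (φ t)) y) -
      κ * IF (LL α (φ t)) y).re) t := by
    intro y
    have h1 := hS.eqn t htI y
    have h2 := Complex.reCLM.hasFDerivAt.comp_hasDerivAt t h1
    simpa [Function.comp_def] using h2
  have hT := (htime (x + h)).sub (htime x)
  have hnonneg := FO8Aux.deriv_ge_left (D := D * b ^ σ) hT (by
    have hI : ∀ᶠ s in 𝓝[<] t, s ∈ Icc t₀ t := by
      filter_upwards [Ioo_mem_nhdsLT htt] with s hs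
      exact ⟨hs.1.le, hs.2.le⟩
    filter_upwards [hDN, hI] with s hs1 hs2
    have h1 := hle s hs2 x h h1'.le
    have h2 := (abs_le.1 h1).2
    rw [hnm] at h2
    simp only [Pi.sub_apply]
    rw [heq']
    have h3 : D * (t - s) * b ^ σ ≤ (N t - N s) * b ^ σ :=
      mul_le_mul_of_nonneg_right hs1 (Real.rpow_nonneg hb.le _)
    linarith)
  -- (2) the gradients agree
  have hmax2 : IsLocalMax (fun y => θ t (y + h) - θ t y) x := by
    refine Filter.Eventually.of_forall fun y => ?_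
    show θ t (y + h) - θ t y ≤ θ t (x + h) - θ t x
    rw [heq]
    exact (abs_le.1 (hle t ⟨htt.le, le_rfl⟩ y h h1'.le)).2
  have hfd2 : HasFDerivAt (fun y => θ t (y + h) - θ t y)
      ((p1 (x + h) • ContinuousLinearMap.fst ℝ ℝ ℝ + p2 (x + h) • ContinuousLinearMap.snd ℝ ℝ ℝ) -
        (p1 x • ContinuousLinearMap.fst ℝ ℝ ℝ + p2 x • ContinuousLinearMap.snd ℝ ℝ ℝ)) x := by
    have h1 : HasFDerivAt (fun y => θ t (y + h))
        (p1 (x + h) • ContinuousLinearMap.fst ℝ ℝ ℝ + p2 (x + h) • ContinuousLinearMap.snd ℝ ℝ ℝ) x :=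
      (hasFDerivAt_comp_add_right h).2 (hfd (x + h))
    exact h1.sub (hfd x)
  have hz := hmax2.hasFDerivAt_eq_zero hfd2
  have e1 : p1 (x + h) = p1 x := by
    have := congrArg (fun L : P2 →L[ℝ] ℝ => L (1, 0)) hz
    simp at this
    linarith
  have e2 : p2 (x + h) = p2 x := by
    have := congrArg (fun L : P2 →L[ℝ] ℝ => L (0, 1)) hz
    simp at this
    linarith
  -- (3) the gradient is the gradient of the modulus
  have hnb : {l : P2 | nm l ≤ 1} ∈ 𝓝 h := by
    have e1 : ∀ᶠ k : P2 in 𝓝 h, nm k < 1 :=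
      (FOIAux.continuous_nm.continuousAt (x := h)).eventually (gt_mem_nhds h1')
    filter_upwards [e1] with k k1
    exact k1.le
  have hloc : ∀ᶠ l in 𝓝 h, θ t (x + l) - N t * nm l ^ σ ≤ θ t (x + h) - N t * nm h ^ σ := by
    filter_upwards [hnb] with l hl
    have h1 := (abs_le.1 (hle t ⟨htt.le, le_rfl⟩ x l hl)).2
    linarith [heq]
  have hx1 : p1 (x + h) = 0 := by
    have hc : Tendsto (fun z : ℝ => ((z, h.2) : P2)) (𝓝 h.1) (𝓝 h) := by
      have : ContinuousAt (fun z : ℝ => ((z, h.2) : P2)) h.1 := by fun_prop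
      exact this
    have hm : IsLocalMax (fun z : ℝ => θ t (x + (z, h.2)) - N t * nm (z, h.2) ^ σ) h.1 := by
      filter_upwards [hc.eventually hloc] with z hz
      exact hz
    have hl : HasDerivAt (fun z : ℝ => x + ((z, h.2) : P2)) ((1, 0) : P2) h.1 := by
      have : HasDerivAt (fun z : ℝ => ((z, h.2) : P2)) ((1, 0) : P2) h.1 :=
        (hasDerivAt_id h.1).prodMk (hasDerivAt_const h.1 h.2)
      exact this.const_add x
    have hd1 := (hfd (x + h)).comp_hasDerivAt_of_eq h.1 hl rfl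
    have hd2 : HasDerivAt (fun z : ℝ => N t * nm (z, h.2) ^ σ)
        (N t * (h.1 / nm h * σ * nm h ^ (σ - 1))) h.1 :=
      ((FOIAux.deriv_nm1 h0).rpow_const (p := σ) (Or.inl h0.ne')).const_mul (N t)
    have h5 := hm.hasDerivAt_eq_zero (hd1.sub hd2)
    rw [hh1] at h5
    simpa using h5
  have hx2 : p2 (x + h) = N t * σ * b ^ (σ - 1) := by
    have hc : Tendsto (fun z : ℝ => ((h.1, z) : P2)) (𝓝 h.2) (𝓝 h) := by
      have : ContinuousAt (fun z : ℝ => ((h.1, z) : P2)) h.2 := by fun_prop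
      exact this
    have hm : IsLocalMax (fun z : ℝ => θ t (x + (h.1, z)) - N t * nm (h.1, z) ^ σ) h.2 := by
      filter_upwards [hc.eventually hloc] with z hz
      exact hz
    have hl : HasDerivAt (fun z : ℝ => x + ((h.1, z) : P2)) ((0, 1) : P2) h.2 := by
      have : HasDerivAt (fun z : ℝ => ((h.1, z) : P2)) ((0, 1) : P2) h.2 :=
        (hasDerivAt_const h.2 h.1).prodMk (hasDerivAt_id h.2)
      exact this.const_add x
    have hd1 := (hfd (x + h)).comp_hasDerivAt_of_eq h.2 hl rfl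
    have hd2 : HasDerivAt (fun z : ℝ => N t * nm (h.1, z) ^ σ)
        (N t * (h.2 / nm h * σ * nm h ^ (σ - 1))) h.2 :=
      ((FOIAux.deriv_nm2 h0).rpow_const (p := σ) (Or.inl h0.ne')).const_mul (N t)
    have h5 := hm.hasDerivAt_eq_zero (hd1.sub hd2)
    rw [hnm, hh2, div_self hb.ne'] at h5
    simp at h5
    linarith
  -- (4) combine
  have g1 : gr8 (φ t) (x + h) = (0, N t * σ * b ^ (σ - 1)) := by
    show (p1 (x + h), p2 (x + h)) = _
    rw [hx1, hx2]
  have g2 : gr8 (φ t) x = (0, N t * σ * b ^ (σ - 1)) := by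
    show (p1 x, p2 x) = _
    rw [← e1, ← e2, hx1, hx2]
  refine ⟨g2, g1, ?_⟩
  have e1' : IF (D1 (φ t)) (x + h) = 0 := by rw [hD1, hx1]; simp
  have e2' : IF (D2 (φ t)) (x + h) = ((p2 (x + h) : ℝ) : ℂ) := hD2 _
  have e1'' : IF (D1 (φ t)) x = 0 := by rw [hD1, ← e1, hx1]; simp
  have e2'' : IF (D2 (φ t)) x = ((p2 (x + h) : ℝ) : ℂ) := by rw [e2]; exact hD2 x
  rw [e1', e2', e1'', e2''] at hnonneg
  simp only [Complex.sub_re, Complex.neg_re, Complex.mul_re, Complex.ofReal_re,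
    Complex.ofReal_im, mul_zero, sub_zero, zero_mul, zero_add] at hnonneg
  simp only [Complex.sub_re]
  have n2 : |(IF (V2 (φ t)) (x + h)).re - (IF (V2 (φ t)) x).re| ≤
      ‖IF (V2 (φ t)) (x + h) - IF (V2 (φ t)) x‖ := by
    rw [← Complex.sub_re]; exact Complex.abs_re_le_norm _
  have hp0 : 0 ≤ p2 (x + h) := by
    rw [hx2]
    have := Real.rpow_nonneg hb.le (σ - 1)
    positivity
  have b2 : -(((IF (V2 (φ t)) (x + h)).re - (IF (V2 (φ t)) x).re) * p2 (x + h)) ≤
      ‖IF (V2 (φ t)) (x + h) - IF (V2 (φ t)) x‖ * (N t * σ * b ^ (σ - 1)) := by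
    rw [← hx2]
    calc -(((IF (V2 (φ t)) (x + h)).re - (IF (V2 (φ t)) x).re) * p2 (x + h))
        = (-((IF (V2 (φ t)) (x + h)).re - (IF (V2 (φ t)) x).re)) * p2 (x + h) := by ring
      _ ≤ |(IF (V2 (φ t)) (x + h)).re - (IF (V2 (φ t)) x).re| * p2 (x + h) :=
          mul_le_mul_of_nonneg_right (neg_le_abs _) hp0
      _ ≤ _ := mul_le_mul_of_nonneg_right n2 hp0
  linarith

end Pool.Agent.SQG
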