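import Pool.Agent.SQG.Stmts8
import Pool.Agent.SQG.Rfi

/-!
# The direction of the gradient: the theorem (assembly)
-/

set_option autoImplicit false

namespace Pool.Agent.SQG

open Complex MeasureTheory Set Filter Topology ProbabilityTheory

namespace MA8Aux

lemma nm_nonneg (ξ : P2) : 0 ≤ nm ξ := Real.sqrt_nonneg _

/-- the growth of the coefficient `N₀ exp(E s - E t₀)` -/
lemma growth {E : ℝ → ℝ} (hEc : Continuous E) {N₀ c t G : ℝ} (hN₀ : 0 < N₀) (hG : 0 ≤ G)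
    (hE : ∀ᶠ s in 𝓝[<] t, 2 * G * (t - s) ≤ E t - E s) :
    ∀ᶠ s in 𝓝[<] t, G * (N₀ * Real.exp (E t - c)) * (t - s) ≤
      N₀ * Real.exp (E t - c) - N₀ * Real.exp (E s - c) := by
  have hcont : ContinuousAt (fun s => N₀ * Real.exp (E s - c)) t := by
    have : Continuous (fun s => N₀ * Real.exp (E s - c)) := by fun_prop
    exact this.continuousAt
  have hNt : 0 < N₀ * Real.exp (E t - c) := by positivity
  have hhalf : ∀ᶠ s in 𝓝[<] t, N₀ * Real.exp (E t - c) / 2 < N₀ * Real.exp (E s - c) := by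
    have h1 : ∀ᶠ s in 𝓝 t, N₀ * Real.exp (E t - c) / 2 < N₀ * Real.exp (E s - c) :=
      hcont.eventually (lt_mem_nhds (by linarith))
    exact h1.filter_mono nhdsWithin_le_nhds
  filter_upwards [hE, hhalf, self_mem_nhdsWithin] with s h1 h2 h3
  have hst : 0 < t - s := by
    have : s < t := h3
    linarith
  have hexp : N₀ * Real.exp (E t - c) = N₀ * Real.exp (E s - c) * Real.exp (E t - E s) := by
    rw [mul_assoc, ← Real.exp_add]
    congr 2
    ring
  have h4 : E t - E s + 1 ≤ Real.exp (E t - E s) := Real.add_one_le_exp _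
  have hNs : 0 < N₀ * Real.exp (E s - c) := by positivity
  have h5 : N₀ * Real.exp (E s - c) * (E t - E s) ≤
      N₀ * Real.exp (E t - c) - N₀ * Real.exp (E s - c) := by
    rw [hexp]
    nlinarith
  have h6 : 0 ≤ 2 * G * (t - s) := by positivity
  have h7 : N₀ * Real.exp (E t - c) / 2 * (2 * G * (t - s)) ≤
      N₀ * Real.exp (E s - c) * (E t - E s) :=
    mul_le_mul h2.le h1 h6 hNs.le
  calc G * (N₀ * Real.exp (E t - c)) * (t - s)
      = N₀ * Real.exp (E t - c) / 2 * (2 * G * (t - s)) := by ring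
    _ ≤ _ := h7.trans h5

/-- from small displacements to all displacements -/
lemma all_of_small {f : P2 → ℝ} {M₀ N σ : ℝ} (hf : ∀ x, |f x| ≤ M₀) (hN : 2 * M₀ ≤ N) (hN0 : 0 ≤ N)
    (hσ : 0 ≤ σ) (h : ∀ y l : P2, nm l ≤ 1 → |f (y + l) - f y| ≤ N * nm l ^ σ) :
    Ho8 f N σ := by
  intro x y
  rcases le_total (nm (x - y)) 1 with h1 | h1
  · have h2 := h y (x - y) h1
    rwa [add_sub_cancel] at h2
  · have e1 := hf x
    have e2 := hf y
    have e3 : |f x - f y| ≤ |f x| + |f y| := abs_sub _ _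
    have e4 : N ≤ N * nm (x - y) ^ σ :=
      le_mul_of_one_le_right hN0 (Real.one_le_rpow h1 hσ)
    linarith

lemma ho_rot {f : P2 → ℝ} {A δ : ℝ} {e : P2} (he : e.1 ^ 2 + e.2 ^ 2 = 1) (h : Ho8 f A δ) :
    Ho8 (fun x => f (ROTAux.rot e x)) A δ := by
  intro x y
  have h1 := h (ROTAux.rot e x) (ROTAux.rot e y)
  rwa [← RFIAux.rot_sub, ROTAux.nm_rot he] at h1

end MA8Aux

open MA8Aux in
theorem ma8 (hR : Stmt_REG) (hRot : Stmt_ROT) (hRf : Stmt_RFI) (hE : Stmt_MJ8) (hT : Stmt_TC8)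
    (hF : Stmt_FO8) (hRt : Stmt_RT8) (hS : Stmt_SV8) : Stmt_MA8 := by
  intro α δ hα hα2 hδ hδ2
  obtain ⟨cR, hcR, hRF⟩ := hRf α (1 - α) hα hα2 (by linarith) (by linarith)
  obtain ⟨ε₀, hε₀, hSV⟩ := hS α δ cR hα hα2 hδ hδ2 hcR
  refine ⟨ε₀, hε₀, ?_⟩
  intro κ T θ φ hκ hT0 hsol M₀ A r ρ K m hM₀ hA hHo hr hρ hK hm hint hDir t₀ ht₀
  obtain ⟨Cs, hCs, hSV'⟩ := hSV κ A r ρ K hκ hA hr hρ hK
  have hM₀0 : 0 ≤ M₀ := (abs_nonneg _).trans (hM₀ t₀ ht₀ 0)
  obtain ⟨hNF, hReg⟩ := hR α κ T θ φ hsol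
  -- the coefficient
  obtain ⟨E, B, hEc, hEm, hEB, hEd⟩ := hE T (fun t => 2 * (Cs * (1 + m t ^ r))) hT0
    (fun t ht => by
      have := Real.rpow_nonneg (hm t ht) r
      positivity)
    (by
      have h1 : IntegrableOn (fun _ : ℝ => (1 : ℝ)) (Ioo 0 T) :=
        integrableOn_const (by simp)
      exact ((h1.add hint).const_mul Cs).const_mul 2)
  obtain ⟨L₀, hL₀, hlip⟩ := hReg.lip t₀ t₀ ht₀.1 ht₀.2
  have h1α : 0 < 1 - α := by linarith
  obtain ⟨N₀, hN₀⟩ : ∃ N₀ : ℝ, N₀ = 2 * L₀ + 2 * M₀ + K / (1 - α) + 1 := ⟨_, rfl⟩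
  have hKd : 0 ≤ K / (1 - α) := by positivity
  have hN1 : 2 * L₀ < N₀ := by rw [hN₀]; linarith
  have hN2 : 2 * M₀ < N₀ := by rw [hN₀]; linarith
  have hN0 : 0 < N₀ := by linarith
  have hN3 : K < N₀ * (1 - α) := by
    have : K / (1 - α) < N₀ := by rw [hN₀]; linarith
    rwa [div_lt_iff₀ h1α] at this
  obtain ⟨N, hN⟩ : ∃ N : ℝ → ℝ, N = fun s => N₀ * Real.exp (E s - E t₀) := ⟨_, rfl⟩
  have hNt0 : N t₀ = N₀ := by rw [hN]; simp
  have hNc : ContinuousOn N (Ico t₀ T) := by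
    rw [hN]
    have : Continuous (fun s => N₀ * Real.exp (E s - E t₀)) := by fun_prop
    exact this.continuousOn
  have hNm : ∀ t ∈ Ico t₀ T, N t₀ ≤ N t := by
    intro t ht
    rw [hNt0, hN]
    simp only
    have h1 : E t₀ ≤ E t := hEm ht.1
    have h2 : 1 ≤ Real.exp (E t - E t₀) := Real.one_le_exp (by linarith)
    nlinarith
  have hNB : ∀ t ∈ Ico t₀ T, N t ≤ N₀ * Real.exp B := by
    intro t ht
    rw [hN]
    simp only
    have h1 := (hEB t).2
    have h2 := (hEB t₀).1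
    exact mul_le_mul_of_nonneg_left (Real.exp_le_exp.mpr (by linarith)) hN0.le
  rcases hT T θ hReg M₀ (1 - α) t₀ L₀ N ht₀.1 ht₀.2 hM₀ h1α (by linarith) hNc hNm
    (fun x y => hlip t₀ ⟨le_rfl, le_rfl⟩ x y) hL₀ (by rw [hNt0]; exact hN1)
    (by rw [hNt0]; exact hN2) with h | ⟨t, x, h, ht0, htT, hh0, hh1, hOm, hall⟩
  · refine ⟨N₀ * Real.exp B, fun t ht x y => ?_⟩
    have ht2 : t ∈ Ioo 0 T := ⟨lt_of_lt_of_le ht₀.1 ht.1, ht.2⟩
    have h1 : N₀ ≤ N t := by
      have := hNm t ht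
      rwa [hNt0] at this
    have h2 := all_of_small (f := θ t) (hM₀ t ht2) (by linarith) (by linarith) h1α.le (h t ht) x y
    have hp : 0 ≤ nm (x - y) ^ (1 - α) := Real.rpow_nonneg (nm_nonneg _) _
    exact h2.trans (mul_le_mul_of_nonneg_right (hNB t ht) hp)
  · exfalso
    have htI : t ∈ Ioo 0 T := ⟨ht₀.1.trans ht0, htT⟩
    have htJ : t ∈ Ico t₀ T := ⟨ht0.le, htT⟩
    have htK : t ∈ Icc t₀ t := ⟨ht0.le, le_rfl⟩
    have hNtN : N₀ ≤ N t := by
      have := hNm t htJ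
      rwa [hNt0] at this
    have hNt : 0 < N t := by linarith
    -- rotation
    obtain ⟨b, hb⟩ : ∃ b : ℝ, b = nm h := ⟨_, rfl⟩
    rw [← hb] at hh0 hh1 hOm
    have hb2 : b ^ 2 = h.1 ^ 2 + h.2 ^ 2 := by
      rw [hb, nm, Real.sq_sqrt (by positivity)]
    have hb0 : b ≠ 0 := hh0.ne'
    obtain ⟨e, hedef⟩ : ∃ e : P2, e = (h.2 / b, -h.1 / b) := ⟨_, rfl⟩
    have he : e.1 ^ 2 + e.2 ^ 2 = 1 := by
      rw [hedef]
      simp only
      field_simp
      linarith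
    have hrh : ROTAux.rot e ((0, b) : P2) = h := by
      rw [hedef]
      simp only [ROTAux.rot]
      ext
      · simp only
        field_simp
        ring
      · simp only
        field_simp
        ring
    obtain ⟨x', hx'⟩ : ∃ x' : P2, x' = ROTAux.rot (e.1, -e.2) x := ⟨_, rfl⟩
    have hrx : ROTAux.rot e x' = x := by rw [hx']; exact ROTAux.rot_inv' he x
    have hxb : ((x'.1, x'.2 + b) : P2) = x' + (0, b) := by
      ext
      · simp
      · simp
    have hrxb : ROTAux.rot e (x' + (0, b)) = x + h := by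
      rw [RFIAux.rot_add, hrx, hrh]
    obtain ⟨θ', hθ'⟩ : ∃ θ' : ℝ → P2 → ℝ, θ' = fun t x => θ t (ROTAux.rot e x) := ⟨_, rfl⟩
    obtain ⟨φ', hφ'⟩ : ∃ φ' : ℝ → P2 → ℂ, φ' = fun t ξ => φ t (ROTAux.rot e ξ) := ⟨_, rfl⟩
    have hsol' : Sol α κ T θ' φ' := by
      rw [hθ', hφ']
      exact hRot α κ T θ φ e he hsol
    have hnf' : NF (θ' t) (φ' t) := by
      rw [hθ', hφ']
      exact RFIAux.nf_rot (hNF t htI) he
    have hOm' : θ' t (x'.1, x'.2 + b) - θ' t x' = N t * b ^ (1 - α) := by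
      rw [hxb, hθ']
      simp only
      rw [hrxb, hrx]
      exact hOm
    have hall' : ∀ s ∈ Icc t₀ t, ∀ (y l : P2), nm l ≤ 1 →
        |θ' s (y + l) - θ' s y| ≤ N s * nm l ^ (1 - α) := by
      intro s hs y l hl
      rw [hθ']
      simp only
      rw [RFIAux.rot_add]
      have h1 := hall s hs (ROTAux.rot e y) (ROTAux.rot e l) (by rw [ROTAux.nm_rot he]; exact hl)
      rwa [ROTAux.nm_rot he] at h1
    -- the equation
    have hmr : 0 ≤ m t ^ r := Real.rpow_nonneg (hm t htI) r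
    have hG : 0 ≤ Cs * (1 + m t ^ r) := by positivity
    have hgr : ∀ᶠ s in 𝓝[<] t, Cs * (1 + m t ^ r) * N t * (t - s) ≤ N t - N s := by
      have := growth (N₀ := N₀) (c := E t₀) (t := t) hEc hN0 hG (hEd t htI)
      rw [hN]
      exact this
    obtain ⟨hg1, hg2, hFO⟩ := hF α κ T θ' φ' hsol' (1 - α) t₀ t (Cs * (1 + m t ^ r) * N t) b N x'
      ht₀.1 ht0 htT hNt.le h1α.le hh0 hh1 hgr hOm' hall'
    rw [show 1 - α - 1 = -α by ring] at hg1 hg2 hFO
    -- the dissipation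
    have hHoN : Ho8 (θ' t) (N t) (1 - α) := by
      refine all_of_small (M₀ := M₀) (fun y => ?_) (by linarith) hNt.le h1α.le (hall' t htK)
      rw [hθ']
      exact hM₀ t htI _
    have hnb : nm ((0, b) : P2) = b := by rw [RFIAux.nm_snd, abs_of_pos hh0]
    have hdis := hRF (θ' t) (φ' t) (N t) hnf' hNt.le hHoN x' (0, b) (by rw [hnb]; exact hh0)
      (by rw [hnb, ← hxb]; exact hOm'.ge) (by
        intro y
        rw [← hxb, hOm']
        have h1 := hall' t htK y (0, b) (by rw [hnb]; exact hh1.le)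
        rw [hnb] at h1
        exact (le_abs_self _).trans h1)
    rw [hnb, ← hxb] at hdis
    -- the velocity
    have hHoA : Ho8 (θ' t) A δ := by
      rw [hθ']
      exact ho_rot he (hHo t htI)
    have hDir' : Dir8 (φ' t) ρ K (m t) (1 - 2 * α - δ + 2 * α / r) (ε₀ * κ / A)
        (1 - 2 * α - δ) := by
      rw [hφ']
      exact hRt e (θ t) (φ t) ρ K _ _ _ _ he (hNF t htI) (hDir t htI)
    have hKN : K < N t * (1 - α) :=
      hN3.trans_le (mul_le_mul_of_nonneg_right hNtN h1α.le)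
    have hvel := hSV' (θ' t) (φ' t) hnf' (m t) (N t) b x' (hm t htI) hNt hh0 hh1 hHoA hHoN hDir'
      hOm' hg1 hg2 hKN
    -- the contradiction
    have hpow : b ^ (1 - α) * b ^ (-2 * α) = b ^ (1 - α - 2 * α) := by
      rw [← Real.rpow_add hh0]
      congr 1
      ring
    have hk : κ * (cR * N t * b ^ (1 - α - 2 * α)) ≤
        κ * (IF (LL α (φ' t)) (x'.1, x'.2 + b) - IF (LL α (φ' t)) x').re :=
      mul_le_mul_of_nonneg_left hdis hκ.le
    have e1 : N t * b ^ (1 - α) * (κ * cR * b ^ (-2 * α) + Cs * (1 + m t ^ r)) =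
        κ * (cR * N t * b ^ (1 - α - 2 * α)) + Cs * (1 + m t ^ r) * N t * b ^ (1 - α) := by
      rw [← hpow]
      ring
    rw [e1] at hvel
    linarith

end Pool.Agent.SQG
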