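import Pool.Agent.SQG.Stmts8

/-!
# MJ8: a continuous increasing function with large lower left derivative
-/

set_option autoImplicit false

namespace Pool.Agent.SQG

open Complex MeasureTheory Set Filter Topology ProbabilityTheory

namespace MJ8Aux

theorem le_toReal {a : ℝ} {z : EReal} (h : (a : EReal) < z) (hz : z < ⊤) : a ≤ z.toReal := by
  have hbot : z ≠ ⊥ := ne_bot_of_gt h
  have h1 : ((z.toReal : ℝ) : EReal) = z := EReal.coe_toReal hz.ne hbot
  rw [← h1] at h
  exact (EReal.coe_lt_coe_iff.mp h).le

end MJ8Aux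

open MJ8Aux in
/-- MJ8. -/
theorem mj8 : Stmt_MJ8 := by
  intro T g hT hg0 hg
  have hg' : Integrable (indicator (Ioo 0 T) g) := (integrable_indicator_iff measurableSet_Ioo).2 hg
  obtain ⟨G, hG1, hG2, hG3, hG4, -⟩ := exists_lt_lowerSemicontinuous_integral_lt _ hg' one_pos
  set P : ℝ → ℝ := fun x => max (G x).toReal 0 with hPdef
  have hP : Integrable P := hG3.pos_part
  have hP0 : ∀ x, 0 ≤ P x := fun x => le_max_right _ _
  have hdiff : ∀ a b : ℝ, (∫ x in Iic b, P x) - ∫ x in Iic a, P x = ∫ x in a..b, P x :=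
    fun a b => intervalIntegral.integral_Iic_sub_Iic hP.integrableOn hP.integrableOn
  refine ⟨fun t => ∫ x in Iic t, P x, ∫ x, P x, ?_, ?_, ?_, ?_⟩
  · have h : (fun t : ℝ => ∫ x in Iic t, P x) =
        fun t => (∫ x in Iic (0 : ℝ), P x) + ∫ x in (0 : ℝ)..t, P x := by
      funext t
      rw [← hdiff 0 t]
      ring
    rw [h]
    exact continuous_const.add
      (intervalIntegral.continuous_primitive (fun a b => hP.intervalIntegrable) 0)
  · intro a b hab
    exact setIntegral_mono_set hP.integrableOn (Eventually.of_forall hP0)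
      (Iic_subset_Iic.2 hab).eventuallyLE
  · intro t
    exact ⟨setIntegral_nonneg measurableSet_Iic fun x _ => hP0 x,
      setIntegral_le_integral hP (Eventually.of_forall hP0)⟩
  · intro t ht
    have h1 : ((g t : ℝ) : EReal) < G t := by
      have := hG1 t
      rwa [indicator_of_mem ht] at this
    have h2 : ∀ᶠ s in 𝓝 t, ((g t : ℝ) : EReal) < G s := hG2 t _ h1
    obtain ⟨δ, hδ, h3⟩ := Metric.eventually_nhds_iff.1 h2
    have h4 : ∀ᶠ s in 𝓝[<] t, t - δ < s :=
      nhdsWithin_le_nhds (lt_mem_nhds (by linarith))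
    filter_upwards [h4, self_mem_nhdsWithin] with s hs hst
    have hst' : s < t := hst
    change g t * (t - s) ≤ (∫ x in Iic t, P x) - ∫ x in Iic s, P x
    rw [hdiff s t]
    have h5 : g t * (t - s) = ∫ _ in s..t, g t := by
      rw [intervalIntegral.integral_const, smul_eq_mul, mul_comm]
    rw [h5]
    refine intervalIntegral.integral_mono_ae_restrict hst'.le intervalIntegrable_const
      hP.intervalIntegrable ?_
    filter_upwards [ae_restrict_mem measurableSet_Icc, ae_restrict_of_ae hG4] with x hx hx4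
    have h6 : ((g t : ℝ) : EReal) < G x := h3 (by
      rw [Real.dist_eq, abs_lt]
      constructor <;> linarith [hx.1, hx.2])
    exact (le_toReal h6 hx4).trans (le_max_left _ _)

end Pool.Agent.SQG
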