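import Pool.Agent.SQG.Stmts8

/-! # NM8: choice of the scale and the numerical inequality -/

namespace Pool.Agent.SQG

namespace NM8Aux

open Real

/-- weighted arithmetic-geometric mean inequality (Young) -/
theorem young (a r κc X b : ℝ) (hr : 1 < r) (hκ : 0 < κc) (hX : 0 ≤ X) (hb : 0 < b) :
    X * b ^ (-(a * (1 - 1 / r))) ≤ κc * b ^ (-a) + κc ^ (1 - r) * X ^ r := by
  have hr0 : 0 < r := by linarith
  have hrn : r ≠ 0 := ne_of_gt hr0
  have hw1 : (0 : ℝ) ≤ 1 / r := by positivity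
  have hw1' : (1 : ℝ) / r ≤ 1 := by
    rw [div_le_one hr0]; linarith
  have hw2 : (0 : ℝ) ≤ 1 - 1 / r := by linarith
  have hp1 : 0 ≤ κc ^ (1 - r) * X ^ r := by positivity
  have hp2 : 0 ≤ κc * b ^ (-a) := by positivity
  have h := Real.geom_mean_le_arith_mean2_weighted hw1 hw2 hp1 hp2 (by ring)
  have e1 : (κc ^ (1 - r) * X ^ r) ^ (1 / r) = κc ^ ((1 - r) * (1 / r)) * X := by
    rw [Real.mul_rpow (by positivity) (by positivity), ← Real.rpow_mul hκ.le, ← Real.rpow_mul hX,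
      mul_one_div_cancel hrn, Real.rpow_one]
  have e2 : (κc * b ^ (-a)) ^ (1 - 1 / r) = κc ^ (1 - 1 / r) * b ^ (-(a * (1 - 1 / r))) := by
    rw [Real.mul_rpow hκ.le (by positivity), ← Real.rpow_mul hb.le]
    congr 2
    ring
  have e3 : κc ^ ((1 - r) * (1 / r)) * κc ^ (1 - 1 / r) = 1 := by
    rw [← Real.rpow_add hκ]
    have : (1 - r) * (1 / r) + (1 - 1 / r) = 0 := by
      field_simp
      ring
    rw [this, Real.rpow_zero]
  have e4 : (κc ^ (1 - r) * X ^ r) ^ (1 / r) * (κc * b ^ (-a)) ^ (1 - 1 / r)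
      = X * b ^ (-(a * (1 - 1 / r))) := by
    rw [e1, e2]
    calc κc ^ ((1 - r) * (1 / r)) * X * (κc ^ (1 - 1 / r) * b ^ (-(a * (1 - 1 / r))))
        = (κc ^ ((1 - r) * (1 / r)) * κc ^ (1 - 1 / r)) * (X * b ^ (-(a * (1 - 1 / r)))) := by ring
      _ = _ := by rw [e3, one_mul]
  rw [e4] at h
  have h5 : 1 / r * (κc ^ (1 - r) * X ^ r) ≤ κc ^ (1 - r) * X ^ r := by
    calc 1 / r * (κc ^ (1 - r) * X ^ r) ≤ 1 * (κc ^ (1 - r) * X ^ r) :=
          mul_le_mul_of_nonneg_right hw1' hp1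
      _ = _ := one_mul _
  have h6 : (1 - 1 / r) * (κc * b ^ (-a)) ≤ κc * b ^ (-a) := by
    calc (1 - 1 / r) * (κc * b ^ (-a)) ≤ 1 * (κc * b ^ (-a)) :=
          mul_le_mul_of_nonneg_right (by linarith) hp2
      _ = _ := one_mul _
  linarith

/-- the power of a sum -/
theorem pow_add_le (r x y : ℝ) (hr : 0 < r) (hx : 0 ≤ x) (hy : 0 ≤ y) :
    (x + y) ^ r ≤ 2 ^ r * (x ^ r + y ^ r) := by
  rcases le_total x y with h | h
  · calc (x + y) ^ r ≤ (2 * y) ^ r := Real.rpow_le_rpow (by linarith) (by linarith) hr.le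
      _ = 2 ^ r * y ^ r := Real.mul_rpow (by norm_num) hy
      _ ≤ 2 ^ r * (x ^ r + y ^ r) := by
          have : 0 ≤ x ^ r := Real.rpow_nonneg hx r
          have h2 : (0 : ℝ) ≤ 2 ^ r := by positivity
          exact mul_le_mul_of_nonneg_left (by linarith) h2
  · calc (x + y) ^ r ≤ (2 * x) ^ r := Real.rpow_le_rpow (by linarith) (by linarith) hr.le
      _ = 2 ^ r * x ^ r := Real.mul_rpow (by norm_num) hx
      _ ≤ 2 ^ r * (x ^ r + y ^ r) := by
          have : 0 ≤ y ^ r := Real.rpow_nonneg hy r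
          have h2 : (0 : ℝ) ≤ 2 ^ r := by positivity
          exact mul_le_mul_of_nonneg_left (by linarith) h2

/-- the scale for one coefficient -/
theorem scale (m' β : ℝ) (hm : 1 ≤ m') (hβ : 0 < β) :
    m' * (2 * ((4 * m') ^ (-1 / β) / 2)) ^ β = 1 / 4 := by
  have h0 : (0 : ℝ) < 4 * m' := by linarith
  have h1 : 2 * ((4 * m') ^ (-1 / β) / 2) = (4 * m') ^ (-1 / β) := by ring
  rw [h1, ← Real.rpow_mul h0.le]
  have h2 : -1 / β * β = -1 := by field_simp
  rw [h2, Real.rpow_neg h0.le, Real.rpow_one]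
  field_simp

end NM8Aux

open NM8Aux in
theorem nm8 : Stmt_NM8 := by
  intro α δ r κc A K ρ μ C₁ C₃ hα hα2 hδ hδ1 hr hκ hA hK hρ hμ hC1 hC3
  have hr0 : 0 < r := by linarith
  set β : ℝ := 1 - 2 * α - δ with hβd
  have hβ : 0 < β := by rw [hβd]; linarith
  set β' : ℝ := 1 - 2 * α - δ + 2 * α / r with hβ'd
  have hαr : 0 < 2 * α / r := by positivity
  have hβ' : 0 < β' := by rw [hβ'd]; linarith
  have hμ' : (1 : ℝ) ≤ max μ 1 := le_max_right _ _
  set s2 : ℝ := (4 * max μ 1) ^ (-1 / β) / 2 with hs2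
  have hs2p : 0 < s2 := by rw [hs2]; positivity
  have hδ1' : δ < 1 := by linarith
  refine ⟨κc ^ (1 - r) * (2 ^ r * ((32 * C₁ * A) ^ r + (16 * C₁ * K) ^ r)) +
    C₃ * A * (1 + (ρ / 2) ^ (δ - 1) + s2 ^ (δ - 1) + 2 * 4 ^ r), by positivity, ?_⟩
  intro m hm
  have hm' : (1 : ℝ) ≤ max m 1 := le_max_right _ _
  set s1 : ℝ := (4 * max m 1) ^ (-1 / β') / 2 with hs1
  have hs1p : 0 < s1 := by rw [hs1]; positivity
  have hSp : 0 < min (min 1 (ρ / 2)) (min s1 s2) := by
    refine lt_min (lt_min one_pos (by linarith)) (lt_min hs1p hs2p)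
  set S : ℝ := min (min 1 (ρ / 2)) (min s1 s2) with hS
  have hS1 : S ≤ 1 := (min_le_left _ _).trans (min_le_left _ _)
  have hSρ : S ≤ ρ / 2 := (min_le_left _ _).trans (min_le_right _ _)
  have hSs1 : S ≤ s1 := (min_le_right _ _).trans (min_le_left _ _)
  have hSs2 : S ≤ s2 := (min_le_right _ _).trans (min_le_right _ _)
  refine ⟨S, hSp, hS1, by linarith, ?_, ?_⟩
  · have h1 : m * (2 * S) ^ β' ≤ 1 / 4 := by
      calc m * (2 * S) ^ β' ≤ max m 1 * (2 * s1) ^ β' := by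
            apply mul_le_mul (le_max_left _ _) _ (by positivity) (by positivity)
            exact Real.rpow_le_rpow (by linarith) (by linarith) hβ'.le
        _ = 1 / 4 := by rw [hs1]; exact scale _ _ hm' hβ'
    have h2 : μ * (2 * S) ^ β ≤ 1 / 4 := by
      calc μ * (2 * S) ^ β ≤ max μ 1 * (2 * s2) ^ β := by
            apply mul_le_mul (le_max_left _ _) _ (by positivity) (by positivity)
            exact Real.rpow_le_rpow (by linarith) (by linarith) hβ.le
        _ = 1 / 4 := by rw [hs2]; exact scale _ _ hμ' hβ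
    linarith
  · intro b hb hb1
    have hmr : 0 ≤ m ^ r := Real.rpow_nonneg hm r
    -- Young part
    have hX : 0 ≤ C₁ * (32 * A * m + 16 * K) := by positivity
    have hY := young (2 * α) r κc (C₁ * (32 * A * m + 16 * K)) b hr hκ hX hb
    have hXr : (C₁ * (32 * A * m + 16 * K)) ^ r ≤
        2 ^ r * ((32 * C₁ * A) ^ r + (16 * C₁ * K) ^ r) * (1 + m ^ r) := by
      have e : C₁ * (32 * A * m + 16 * K) = (32 * C₁ * A) * m + 16 * C₁ * K := by ring
      rw [e]
      have h1 := pow_add_le r ((32 * C₁ * A) * m) (16 * C₁ * K) hr0 (by positivity) (by positivity)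
      rw [Real.mul_rpow (by positivity) hm] at h1
      have ha : 0 ≤ (32 * C₁ * A) ^ r := by positivity
      have hb' : 0 ≤ (16 * C₁ * K) ^ r := by positivity
      have h2r : (0 : ℝ) ≤ 2 ^ r := by positivity
      refine h1.trans ?_
      have h7 : (32 * C₁ * A) ^ r * m ^ r + (16 * C₁ * K) ^ r ≤
          ((32 * C₁ * A) ^ r + (16 * C₁ * K) ^ r) * (1 + m ^ r) := by
        nlinarith [mul_nonneg hb' hmr]
      calc 2 ^ r * ((32 * C₁ * A) ^ r * m ^ r + (16 * C₁ * K) ^ r)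
          ≤ 2 ^ r * (((32 * C₁ * A) ^ r + (16 * C₁ * K) ^ r) * (1 + m ^ r)) :=
            mul_le_mul_of_nonneg_left h7 h2r
        _ = _ := by ring
    have hYoung : C₁ * (32 * A * m + 16 * K) * b ^ (-(2 * α * (1 - 1 / r))) ≤
        κc * b ^ (-2 * α) +
          κc ^ (1 - r) * (2 ^ r * ((32 * C₁ * A) ^ r + (16 * C₁ * K) ^ r)) * (1 + m ^ r) := by
      have e : b ^ (-(2 * α)) = b ^ (-2 * α) := by congr 1; ring
      rw [e] at hY
      refine hY.trans ?_
      have hk : 0 ≤ κc ^ (1 - r) := by positivity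
      have := mul_le_mul_of_nonneg_left hXr hk
      calc κc * b ^ (-2 * α) + κc ^ (1 - r) * (C₁ * (32 * A * m + 16 * K)) ^ r
          ≤ κc * b ^ (-2 * α) + κc ^ (1 - r) *
            (2 ^ r * ((32 * C₁ * A) ^ r + (16 * C₁ * K) ^ r) * (1 + m ^ r)) := by linarith
        _ = _ := by ring
    -- the power of S
    have hs1pow : s1 ^ (δ - 1) ≤ 2 * 4 ^ r * (1 + m ^ r) := by
      have h4 : (1 : ℝ) ≤ 4 * max m 1 := by linarith
      have h40 : (0 : ℝ) < 4 * max m 1 := by linarith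
      have e1 : s1 ^ (δ - 1) = 2 ^ (1 - δ) * (4 * max m 1) ^ ((1 - δ) / β') := by
        rw [hs1, Real.div_rpow (by positivity) (by norm_num), ← Real.rpow_mul h40.le]
        have e2 : -1 / β' * (δ - 1) = (1 - δ) / β' := by field_simp; ring
        rw [e2, div_eq_mul_inv, ← Real.rpow_neg (by norm_num), neg_sub, mul_comm]
      have h2 : (2 : ℝ) ^ (1 - δ) ≤ 2 := by
        calc (2 : ℝ) ^ (1 - δ) ≤ 2 ^ (1 : ℝ) := Real.rpow_le_rpow_of_exponent_le (by norm_num) (by linarith)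
          _ = 2 := Real.rpow_one 2
      have hexp : (1 - δ) / β' ≤ r := by
        rw [div_le_iff₀ hβ']
        have : r * β' = r * (1 - 2 * α - δ) + 2 * α := by
          rw [hβ'd]; field_simp
        rw [this]
        nlinarith
      have h3 : (4 * max m 1) ^ ((1 - δ) / β') ≤ (4 * max m 1) ^ r :=
        Real.rpow_le_rpow_of_exponent_le h4 hexp
      have h5 : (4 * max m 1) ^ r = 4 ^ r * (max m 1) ^ r := Real.mul_rpow (by norm_num) (by positivity)
      have h6 : (max m 1) ^ r ≤ 1 + m ^ r := by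
        rcases le_total m 1 with h | h
        · rw [max_eq_right h, Real.one_rpow]; linarith
        · rw [max_eq_left h]; linarith
      rw [e1]
      calc 2 ^ (1 - δ) * (4 * max m 1) ^ ((1 - δ) / β') ≤ 2 * (4 * max m 1) ^ r := by
            apply mul_le_mul h2 h3 (by positivity) (by norm_num)
        _ = 2 * 4 ^ r * (max m 1) ^ r := by rw [h5]; ring
        _ ≤ 2 * 4 ^ r * (1 + m ^ r) := by
            apply mul_le_mul_of_nonneg_left h6 (by positivity)
    have hSpow : S ^ (δ - 1) ≤ 1 + (ρ / 2) ^ (δ - 1) + s2 ^ (δ - 1) + s1 ^ (δ - 1) := by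
      have p1 : 0 ≤ (ρ / 2) ^ (δ - 1) := by positivity
      have p2 : 0 ≤ s2 ^ (δ - 1) := by positivity
      have p3 : 0 ≤ s1 ^ (δ - 1) := by positivity
      rcases min_choice (min 1 (ρ / 2)) (min s1 s2) with h | h
      · rcases min_choice 1 (ρ / 2) with h' | h'
        · have : S = 1 := by rw [hS, h, h']
          rw [this, Real.one_rpow]; linarith
        · have : S = ρ / 2 := by rw [hS, h, h']
          rw [this]; linarith
      · rcases min_choice s1 s2 with h' | h'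
        · have : S = s1 := by rw [hS, h, h']
          rw [this]; linarith
        · have : S = s2 := by rw [hS, h, h']
          rw [this]; linarith
    have hq : 0 ≤ 1 + (ρ / 2) ^ (δ - 1) + s2 ^ (δ - 1) := by positivity
    have hS2 : S ^ (δ - 1) ≤ (1 + (ρ / 2) ^ (δ - 1) + s2 ^ (δ - 1) + 2 * 4 ^ r) * (1 + m ^ r) := by
      nlinarith [mul_nonneg hq hmr]
    have hS3 : C₃ * A * S ^ (δ - 1) ≤
        C₃ * A * (1 + (ρ / 2) ^ (δ - 1) + s2 ^ (δ - 1) + 2 * 4 ^ r) * (1 + m ^ r) := by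
      have := mul_le_mul_of_nonneg_left hS2 (by positivity : (0 : ℝ) ≤ C₃ * A)
      calc C₃ * A * S ^ (δ - 1) ≤ C₃ * A *
            ((1 + (ρ / 2) ^ (δ - 1) + s2 ^ (δ - 1) + 2 * 4 ^ r) * (1 + m ^ r)) := this
        _ = _ := by ring
    calc C₁ * (32 * A * m + 16 * K) * b ^ (-(2 * α * (1 - 1 / r))) + C₃ * A * S ^ (δ - 1)
        ≤ κc * b ^ (-2 * α) +
          κc ^ (1 - r) * (2 ^ r * ((32 * C₁ * A) ^ r + (16 * C₁ * K) ^ r)) * (1 + m ^ r) +
          C₃ * A * (1 + (ρ / 2) ^ (δ - 1) + s2 ^ (δ - 1) + 2 * 4 ^ r) * (1 + m ^ r) :=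
          add_le_add hYoung hS3
      _ = _ := by ring

end Pool.Agent.SQG
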