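import Pool.Agent.SQG.Stmts8
import Pool.Agent.SQG.Rot

set_option autoImplicit false

namespace Pool.Agent.SQG

open Complex MeasureTheory Set Filter Topology ProbabilityTheory

namespace RT8Aux

open ROTAux

lemma inv1 {e : P2} (he : e.1 ^ 2 + e.2 ^ 2 = 1) (ξ : P2) :
    ξ.1 = e.1 * (ROTAux.rot e ξ).1 + e.2 * (ROTAux.rot e ξ).2 := by
  simp only [ROTAux.rot]
  linear_combination -ξ.1 * he

lemma inv2 {e : P2} (he : e.1 ^ 2 + e.2 ^ 2 = 1) (ξ : P2) :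
    ξ.2 = -e.2 * (ROTAux.rot e ξ).1 + e.1 * (ROTAux.rot e ξ).2 := by
  simp only [ROTAux.rot]
  linear_combination -ξ.2 * he

lemma int_w2 {f : P2 → ℝ} {φ : P2 → ℂ} (h : NF f φ) :
    Integrable (fun ξ => (1 + nm ξ ^ 2) * ‖φ ξ‖) := by
  have h0 := h.int 0
  have h2 := h.int 2
  refine (h0.add h2).congr (Eventually.of_forall fun ξ => ?_)
  simp only [Pi.add_apply]
  ring

lemma hD1 {e : P2} (he : e.1 ^ 2 + e.2 ^ 2 = 1) {f : P2 → ℝ} {φ : P2 → ℂ} (h : NF f φ) (x : P2) :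
    IF (D1 (fun ξ => φ (ROTAux.rot e ξ))) x =
      e.1 * IF (D1 φ) (ROTAux.rot e x) + e.2 * IF (D2 φ) (ROTAux.rot e x) := by
  have hm := h.meas
  have hw := int_w2 h
  rw [← IF_lin (int_D1 hm hw) (int_D2 hm hw), ← IF_rot he]
  congr 1
  funext ξ
  simp only [D1, D2]
  have h1 := inv1 he ξ
  rw [show (ξ.1 : ℂ) = ((e.1 * (ROTAux.rot e ξ).1 + e.2 * (ROTAux.rot e ξ).2 : ℝ) : ℂ)
    by rw [← h1]]
  push_cast
  ring

lemma hD2 {e : P2} (he : e.1 ^ 2 + e.2 ^ 2 = 1) {f : P2 → ℝ} {φ : P2 → ℂ} (h : NF f φ) (x : P2) :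
    IF (D2 (fun ξ => φ (ROTAux.rot e ξ))) x =
      (-e.2) * IF (D1 φ) (ROTAux.rot e x) + e.1 * IF (D2 φ) (ROTAux.rot e x) := by
  have hm := h.meas
  have hw := int_w2 h
  rw [← IF_lin (int_D1 hm hw) (int_D2 hm hw), ← IF_rot he]
  congr 1
  funext ξ
  simp only [D1, D2]
  have h2 := inv2 he ξ
  rw [show (ξ.2 : ℂ) = ((-e.2 * (ROTAux.rot e ξ).1 + e.1 * (ROTAux.rot e ξ).2 : ℝ) : ℂ)
    by rw [← h2]]
  push_cast
  ring

lemma gr8_rot {e : P2} (he : e.1 ^ 2 + e.2 ^ 2 = 1) {f : P2 → ℝ} {φ : P2 → ℂ} (h : NF f φ)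
    (x : P2) : gr8 (fun ξ => φ (ROTAux.rot e ξ)) x =
      ROTAux.rot (e.1, -e.2) (gr8 φ (ROTAux.rot e x)) := by
  unfold gr8
  rw [hD1 he h, hD2 he h]
  simp only [ROTAux.rot]
  ext
  · simp
  · simp

lemma he' {e : P2} (he : e.1 ^ 2 + e.2 ^ 2 = 1) :
    ((e.1, -e.2) : P2).1 ^ 2 + ((e.1, -e.2) : P2).2 ^ 2 = 1 := by
  simp only
  linear_combination he

lemma rot_sub (e x y : P2) : ROTAux.rot e x - ROTAux.rot e y = ROTAux.rot e (x - y) := by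
  simp only [ROTAux.rot]
  ext
  · simp; ring
  · simp; ring

lemma dv8_rot {e : P2} (he : e.1 ^ 2 + e.2 ^ 2 = 1) (v : P2) :
    dv8 (ROTAux.rot e v) = ROTAux.rot e (dv8 v) := by
  unfold dv8
  rw [nm_rot he]
  simp only [ROTAux.rot]
  ext
  · simp only; ring
  · simp only; ring

end RT8Aux

open ROTAux RT8Aux

theorem rt8 : Stmt_RT8 := by
  intro e f φ ρ K a p b q he hNF hD
  have hρ : ∀ x : P2, ((e.1 * x.1 - e.2 * x.2, e.2 * x.1 + e.1 * x.2) : P2) = ROTAux.rot e x :=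
    fun x => rfl
  simp only [hρ]
  intro x y hxy hx hy
  rw [gr8_rot he hNF, nm_rot (he' he)] at hx hy
  have hd : nm (ROTAux.rot e x - ROTAux.rot e y) = nm (x - y) := by
    rw [rot_sub, nm_rot he]
  have h := hD (ROTAux.rot e x) (ROTAux.rot e y) (by rw [hd]; exact hxy) hx hy
  rw [hd] at h
  rw [gr8_rot he hNF, gr8_rot he hNF, dv8_rot (he' he), dv8_rot (he' he), rot_sub,
    nm_rot (he' he)]
  exact h

end Pool.Agent.SQG
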