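import Pool.Agent.SQG.Stmts8

/-!
# Module SV8: the velocity at a touching point
-/

set_option autoImplicit false

namespace Pool.Agent.SQG

namespace SV8Aux

open Set

lemma nm_v (b : ℝ) : nm ((0 : ℝ), b) = |b| := by
  simp [nm, Real.sqrt_sq_eq_abs]

lemma nm_h (a : ℝ) : nm (a, (0 : ℝ)) = |a| := by
  simp [nm, Real.sqrt_sq_eq_abs]

/-- from the isotropic to the directional Hölder continuity -/
lemma h1 (f : P2 → ℝ) (N σ : ℝ) (h : Ho8 f N σ) : H1 f N σ := by
  intro x a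
  have h' := h (x.1 + a, x.2) x
  have e : ((x.1 + a, x.2) : P2) - x = (a, 0) := by
    ext <;> simp
  rw [e, nm_h] at h'
  exact h'

/-- the factor of the gradient -/
lemma gfac (N α b V R : ℝ) (hN : 0 < N) (hα : 0 < α) (hb : 0 < b) (hR : 0 ≤ V)
    (h : V * b ^ (-α) ≤ b ^ (1 - α) * R) : V * (N * (1 - α) * b ^ (-α)) ≤ N * b ^ (1 - α) * R := by
  have hb' : 0 < b ^ (-α) := Real.rpow_pos_of_pos hb _
  have e1 : V * (N * (1 - α) * b ^ (-α)) ≤ V * (N * b ^ (-α)) := by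
    apply mul_le_mul_of_nonneg_left _ hR
    apply mul_le_mul_of_nonneg_right _ hb'.le
    nlinarith
  have e2 : V * (N * b ^ (-α)) = N * (V * b ^ (-α)) := by ring
  have e3 : N * (V * b ^ (-α)) ≤ N * (b ^ (1 - α) * R) := mul_le_mul_of_nonneg_left h hN.le
  calc V * (N * (1 - α) * b ^ (-α)) ≤ V * (N * b ^ (-α)) := e1
    _ = N * (V * b ^ (-α)) := e2
    _ ≤ N * (b ^ (1 - α) * R) := e3
    _ = N * b ^ (1 - α) * R := by ring

end SV8Aux

open SV8Aux in
theorem sv8 (hU : Stmt_UB) (hV : Stmt_VE8) (hDi : Stmt_DI8) (hN : Stmt_NM8) : Stmt_SV8 := by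
  intro α δ cR hα hα2 hδ hδ2 hcR
  obtain ⟨C, hC, hVE⟩ := hV
  obtain ⟨C', hC', hUB⟩ := hU (1 - α) (by linarith) (by linarith)
  have hC2 : 0 < C (δ + (1 - 2 * α - δ)) := hC _
  refine ⟨cR / (256 * C (δ + (1 - 2 * α - δ))), by positivity, ?_⟩
  intro κ A r ρ K hκ hA hr hρ hK
  set ε₀ : ℝ := cR / (256 * C (δ + (1 - 2 * α - δ))) with hε₀
  have hε₀p : 0 < ε₀ := by rw [hε₀]; positivity
  have hμ : 0 ≤ ε₀ * κ / A := by positivity
  have hr0 : 0 < r := by linarith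
  have hαr : 0 < 2 * α / r := by positivity
  have hαr2 : 2 * α / r < 2 * α := by
    rw [div_lt_iff₀ hr0]; nlinarith
  obtain ⟨Cs, hCs, hNM⟩ := hN α δ r (κ * cR / 4) A K ρ (ε₀ * κ / A) (C (δ + (1 - 2 * α - δ + 2 * α / r)))
    (max (C δ) (2 * C')) hα hα2 hδ hδ2 hr (by positivity) hA hK hρ hμ (hC _) (lt_max_of_lt_left (hC δ))
  refine ⟨Cs, hCs, ?_⟩
  intro f φ hf m N b x hm hN0 hb hb1 hHo hHoN hDir hinc hg1 hg2 hKN
  obtain ⟨S, hS, hS1, h2S, hhalf, hnum⟩ := hNM m hm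
  have hnumb := hnum b hb hb1.le
  have hbα : 1 ≤ b ^ (-α) := by
    apply Real.one_le_rpow_of_pos_of_le_one_of_nonpos hb hb1.le; linarith
  have hb2α : 0 < b ^ (-2 * α) := Real.rpow_pos_of_pos hb _
  have hb1α : 0 < b ^ (1 - α) := Real.rpow_pos_of_pos hb _
  have hSδ : 0 < S ^ (δ - 1) := Real.rpow_pos_of_pos hS _
  have hNb : 0 < N * b ^ (1 - α) := by positivity
  -- the bound that is to be proved in both cases
  suffices hmain : ‖IF (V2 φ) (x.1, x.2 + b) - IF (V2 φ) x‖ * (N * (1 - α) * b ^ (-α)) ≤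
      N * b ^ (1 - α) * (κ * cR / 8 * b ^ (-2 * α) + (κ * cR / 4 * b ^ (-2 * α) + Cs * (1 + m ^ r))) by
    refine lt_of_le_of_lt hmain ?_
    apply mul_lt_mul_of_pos_left _ hNb
    have : 0 < κ * cR * b ^ (-2 * α) := by positivity
    linarith
  rcases le_or_gt b (S / 2) with hbS | hbS
  · -- small b
    have hg : K < N * (1 - α) * b ^ (-α) := by
      have : 0 < N * (1 - α) := mul_pos hN0 (by linarith)
      nlinarith
    have J1 := hDi f φ hf A δ K ρ m (1 - 2 * α - δ + 2 * α / r) (ε₀ * κ / A) (1 - 2 * α - δ) S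
      (N * (1 - α) * b ^ (-α)) x hA.le hδ (by linarith) hK hm (by linarith) (by linarith) hμ (by linarith)
      (by linarith) (by linarith) hS hS1 h2S hhalf hHo hDir hg hg1
    have J2 := hDi f φ hf A δ K ρ m (1 - 2 * α - δ + 2 * α / r) (ε₀ * κ / A) (1 - 2 * α - δ) S
      (N * (1 - α) * b ^ (-α)) (x.1, x.2 + b) hA.le hδ (by linarith) hK hm (by linarith) (by linarith) hμ
      (by linarith) (by linarith) (by linarith) hS hS1 h2S hhalf hHo hDir hg hg2
    have hVb := hVE f φ hf A δ (32 * A * m + 16 * K) (δ + (1 - 2 * α - δ + 2 * α / r)) (32 * A * (ε₀ * κ / A))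
      (δ + (1 - 2 * α - δ)) b S x hδ (by linarith) (by linarith) (by linarith) (by linarith) (by linarith) hA.le
      (by positivity) (by positivity) (h1 f A δ hHo) hb hbS J1 J2
    have hmax : C δ ≤ max (C δ) (2 * C') := le_max_left _ _
    have hCd : C δ * A * S ^ (δ - 1) ≤ max (C δ) (2 * C') * A * S ^ (δ - 1) := by
      apply mul_le_mul_of_nonneg_right _ hSδ.le
      exact mul_le_mul_of_nonneg_right hmax hA.le
    have hA2 : C (δ + (1 - 2 * α - δ)) * (32 * A * (ε₀ * κ / A)) = κ * cR / 8 := by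
      rw [hε₀]; field_simp; ring
    have p1 : b ^ (δ + (1 - 2 * α - δ + 2 * α / r)) * b ^ (-α) =
        b ^ (1 - α) * b ^ (-(2 * α * (1 - 1 / r))) := by
      rw [← Real.rpow_add hb, ← Real.rpow_add hb]; congr 1; ring
    have p2 : b ^ (δ + (1 - 2 * α - δ)) * b ^ (-α) = b ^ (1 - α) * b ^ (-2 * α) := by
      rw [← Real.rpow_add hb, ← Real.rpow_add hb]; congr 1; ring
    have p3 : b * b ^ (-α) = b ^ (1 - α) := by
      rw [Real.rpow_sub hb, Real.rpow_one, Real.rpow_neg hb.le]; rfl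
    apply gfac N α b _ _ hN0 hα hb (norm_nonneg _)
    calc ‖IF (V2 φ) (x.1, x.2 + b) - IF (V2 φ) x‖ * b ^ (-α)
        ≤ (C (δ + (1 - 2 * α - δ + 2 * α / r)) * (32 * A * m + 16 * K) *
            b ^ (δ + (1 - 2 * α - δ + 2 * α / r)) +
          C (δ + (1 - 2 * α - δ)) * (32 * A * (ε₀ * κ / A)) * b ^ (δ + (1 - 2 * α - δ)) +
          C δ * A * b * S ^ (δ - 1)) * b ^ (-α) :=
          mul_le_mul_of_nonneg_right hVb (by linarith)
      _ = C (δ + (1 - 2 * α - δ + 2 * α / r)) * (32 * A * m + 16 * K) *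
            (b ^ (δ + (1 - 2 * α - δ + 2 * α / r)) * b ^ (-α)) +
          C (δ + (1 - 2 * α - δ)) * (32 * A * (ε₀ * κ / A)) * (b ^ (δ + (1 - 2 * α - δ)) * b ^ (-α)) +
          C δ * A * S ^ (δ - 1) * (b * b ^ (-α)) := by ring
      _ = b ^ (1 - α) * (κ * cR / 8 * b ^ (-2 * α) +
          (C (δ + (1 - 2 * α - δ + 2 * α / r)) * (32 * A * m + 16 * K) * b ^ (-(2 * α * (1 - 1 / r))) +
            C δ * A * S ^ (δ - 1))) := by
          rw [p1, p2, p3, hA2]; ring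
      _ ≤ b ^ (1 - α) * (κ * cR / 8 * b ^ (-2 * α) + (κ * cR / 4 * b ^ (-2 * α) + Cs * (1 + m ^ r))) := by
          apply mul_le_mul_of_nonneg_left _ hb1α.le
          linarith
  · -- large b
    have e : x + ((0 : ℝ), b) = (x.1, x.2 + b) := by
      ext <;> simp
    have hu := (hUB f φ N hf hN0.le).1 (h1 f N (1 - α) hHoN) x (0, b)
    rw [e] at hu
    have hu' : ‖IF (V2 φ) (x.1, x.2 + b) - IF (V2 φ) x‖ ≤ C' * N * b ^ (1 - α) := by
      have e2 : (|((0 : ℝ), b).1| + |((0 : ℝ), b).2|) = b := by simp [abs_of_pos hb]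
      rw [e2] at hu
      exact hu
    have hAb : N * b ^ (1 - α) ≤ A * b ^ δ := by
      have h' := hHo (x.1, x.2 + b) x
      have e3 : ((x.1, x.2 + b) : P2) - x = (0, b) := by
        ext <;> simp
      rw [e3, nm_v, abs_of_pos hb] at h'
      rw [← hinc]
      exact le_trans (le_abs_self _) h'
    have hbS' : b ^ (δ - 1) ≤ 2 * S ^ (δ - 1) := by
      have s1 : b ^ (δ - 1) ≤ (S / 2) ^ (δ - 1) :=
        Real.rpow_le_rpow_of_nonpos (by positivity) hbS.le (by linarith)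
      have s2 : (S / 2) ^ (δ - 1) = S ^ (δ - 1) * (2 : ℝ) ^ (1 - δ) := by
        rw [Real.div_rpow hS.le (by norm_num), div_eq_mul_inv, ← Real.rpow_neg (by norm_num)]
        congr 2; ring
      have s3 : (2 : ℝ) ^ (1 - δ) ≤ (2 : ℝ) ^ (1 : ℝ) :=
        Real.rpow_le_rpow_of_exponent_le (by norm_num) (by linarith)
      rw [Real.rpow_one] at s3
      rw [s2] at s1
      nlinarith
    have hmax : 2 * C' ≤ max (C δ) (2 * C') := le_max_right _ _
    have hCd : 2 * C' * A * S ^ (δ - 1) ≤ max (C δ) (2 * C') * A * S ^ (δ - 1) := by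
      apply mul_le_mul_of_nonneg_right _ hSδ.le
      exact mul_le_mul_of_nonneg_right hmax hA.le
    have hpos1 : 0 ≤ C (δ + (1 - 2 * α - δ + 2 * α / r)) * (32 * A * m + 16 * K) *
        b ^ (-(2 * α * (1 - 1 / r))) := by
      have := hC (δ + (1 - 2 * α - δ + 2 * α / r))
      have := Real.rpow_pos_of_pos hb (-(2 * α * (1 - 1 / r)))
      positivity
    have p3 : b ^ δ * b ^ (-α) = b ^ (1 - α) * b ^ (δ - 1) := by
      rw [← Real.rpow_add hb, ← Real.rpow_add hb]; congr 1; ring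
    apply gfac N α b _ _ hN0 hα hb (norm_nonneg _)
    have hc1 : C' * N * b ^ (1 - α) ≤ C' * (A * b ^ δ) := by
      rw [mul_assoc]
      exact mul_le_mul_of_nonneg_left hAb hC'.le
    have hpos2 : 0 ≤ κ * cR / 8 * b ^ (-2 * α) := by positivity
    calc ‖IF (V2 φ) (x.1, x.2 + b) - IF (V2 φ) x‖ * b ^ (-α)
        ≤ (C' * (A * b ^ δ)) * b ^ (-α) := mul_le_mul_of_nonneg_right (hu'.trans hc1) (by linarith)
      _ = C' * A * (b ^ δ * b ^ (-α)) := by ring
      _ = b ^ (1 - α) * (C' * A * b ^ (δ - 1)) := by rw [p3]; ring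
      _ ≤ b ^ (1 - α) * (κ * cR / 8 * b ^ (-2 * α) + (κ * cR / 4 * b ^ (-2 * α) + Cs * (1 + m ^ r))) := by
          apply mul_le_mul_of_nonneg_left _ hb1α.le
          have : C' * A * b ^ (δ - 1) ≤ C' * A * (2 * S ^ (δ - 1)) :=
            mul_le_mul_of_nonneg_left hbS' (by positivity)
          linarith

end Pool.Agent.SQG
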