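import Pool.Agent.SQG.Stmts

/-!
# UB: the velocity components
-/

set_option autoImplicit false

namespace Pool.Agent.SQG

open Complex MeasureTheory Set Filter Topology ProbabilityTheory

namespace UBAux

lemma key {δ : ℝ} (h0 : 0 < δ) (h1 : δ < 1) {C M ρ : ℝ} (hρ : 0 < ρ)
    {u v : ℝ → ℝ} (hu : IntegrableOn (fun r => u r / r) (Ioi 0))
    (hv : IntegrableOn (fun r => v r / r) (Ioi 0))
    (hu1 : ∀ r, 0 < r → |u r| ≤ C * M * r ^ δ) (hv1 : ∀ r, 0 < r → |v r| ≤ C * M * r ^ δ)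
    (huv : ∀ r, 0 < r → |u r - v r| ≤ C * M * ρ * r ^ (δ - 1)) :
    |(∫ r in Ioi (0 : ℝ), u r / r) - ∫ r in Ioi (0 : ℝ), v r / r| ≤
      (2 * C / δ + C / (1 - δ)) * M * ρ ^ δ := by
  rw [← integral_sub hu hv]
  have huv' : IntegrableOn (fun r => u r / r - v r / r) (Ioi 0) := hu.sub hv
  have hsplit : Ioi (0 : ℝ) = Ioc 0 ρ ∪ Ioi ρ := (Ioc_union_Ioi_eq_Ioi hρ.le).symm
  have hd : Disjoint (Ioc (0 : ℝ) ρ) (Ioi ρ) := Ioc_disjoint_Ioi le_rfl
  have hi1 : IntegrableOn (fun r => u r / r - v r / r) (Ioc 0 ρ) :=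
    huv'.mono_set Ioc_subset_Ioi_self
  have hi2 : IntegrableOn (fun r => u r / r - v r / r) (Ioi ρ) :=
    huv'.mono_set (Ioi_subset_Ioi hρ.le)
  rw [hsplit, setIntegral_union hd measurableSet_Ioi hi1 hi2]
  -- the bounds
  have e1 : ‖∫ r in Ioc (0 : ℝ) ρ, (u r / r - v r / r)‖ ≤
      ∫ r in Ioc (0 : ℝ) ρ, 2 * C * M * r ^ (δ - 1) := by
    refine norm_integral_le_of_norm_le ?_ ?_
    · have := (intervalIntegral.intervalIntegrable_rpow' (a := 0) (b := ρ) (r := δ - 1)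
        (by linarith)).const_mul (2 * C * M)
      rwa [intervalIntegrable_iff_integrableOn_Ioc_of_le hρ.le] at this
    · refine (ae_restrict_iff' measurableSet_Ioc).2 (ae_of_all _ fun r hr => ?_)
      have hr0 : 0 < r := hr.1
      rw [← sub_div, Real.norm_eq_abs, abs_div, abs_of_pos hr0, div_le_iff₀ hr0]
      have h2 : r ^ (δ - 1) * r = r ^ δ := by
        rw [Real.rpow_sub_one hr0.ne', div_mul_cancel₀ _ hr0.ne']
      calc |u r - v r| ≤ |u r| + |v r| := abs_sub _ _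
        _ ≤ C * M * r ^ δ + C * M * r ^ δ := add_le_add (hu1 r hr0) (hv1 r hr0)
        _ = 2 * C * M * r ^ (δ - 1) * r := by rw [← h2]; ring
  have e2 : ‖∫ r in Ioi ρ, (u r / r - v r / r)‖ ≤ ∫ r in Ioi ρ, C * M * ρ * r ^ (δ - 2) := by
    refine norm_integral_le_of_norm_le ?_ ?_
    · exact (integrableOn_Ioi_rpow_of_lt (by linarith) hρ).const_mul _
    · refine (ae_restrict_iff' measurableSet_Ioi).2 (ae_of_all _ fun r hr => ?_)
      have hr0 : 0 < r := hρ.trans hr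
      rw [← sub_div, Real.norm_eq_abs, abs_div, abs_of_pos hr0, div_le_iff₀ hr0]
      have h2 : r ^ (δ - 2) * r = r ^ (δ - 1) := by
        rw [← Real.rpow_add_one hr0.ne']
        congr 1
        ring
      rw [mul_assoc, h2]
      exact huv r hr0
  have e3 : ∫ r in Ioc (0 : ℝ) ρ, 2 * C * M * r ^ (δ - 1) = 2 * C * M * (ρ ^ δ / δ) := by
    rw [integral_const_mul, ← intervalIntegral.integral_of_le hρ.le,
      integral_rpow (Or.inl (by linarith))]
    rw [sub_add_cancel, Real.zero_rpow h0.ne', sub_zero]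
  have e4 : ∫ r in Ioi ρ, C * M * ρ * r ^ (δ - 2) = C * M * (ρ ^ δ / (1 - δ)) := by
    rw [integral_const_mul, integral_Ioi_rpow_of_lt (by linarith) hρ]
    rw [show δ - 2 + 1 = δ - 1 by ring, Real.rpow_sub_one hρ.ne']
    have : 1 - δ ≠ 0 := by linarith
    have h3 : δ - 1 ≠ 0 := by linarith
    field_simp
    ring
  rw [e3] at e1
  rw [e4] at e2
  rw [Real.norm_eq_abs] at e1 e2
  refine (abs_add_le _ _).trans ((add_le_add e1 e2).trans (le_of_eq ?_))
  ring

end UBAux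

open UBAux in
theorem ub (hGB : Stmt_GB) (hEB : Stmt_EB) : Stmt_UB := by
  intro δ h0 h1
  obtain ⟨C, hC, hE⟩ := hEB δ h0.le h1
  have h1' : 0 < 1 - δ := by linarith
  have hK : 0 < √(2 / Real.pi) := Real.sqrt_pos.2 (by positivity)
  refine ⟨√(2 / Real.pi) * (2 * C / δ + C / (1 - δ)), by positivity, ?_⟩
  intro f φ M hf hM
  obtain ⟨hE1, hE2⟩ := hE f φ M hf hM
  have hcase : ∀ h : P2, h = 0 ∨ 0 < |h.1| + |h.2| := by
    intro h
    by_cases hh : |h.1| + |h.2| = 0
    · left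
      have h2 : |h.1| = 0 := by linarith [abs_nonneg h.1, abs_nonneg h.2]
      have h3 : |h.2| = 0 := by linarith [abs_nonneg h.1, abs_nonneg h.2]
      exact Prod.ext (abs_eq_zero.1 h2) (abs_eq_zero.1 h3)
    · right
      exact lt_of_le_of_ne (by positivity) (Ne.symm hh)
  constructor
  · intro hH x h
    rcases hcase h with rfl | hρ
    · rw [add_zero, sub_self, norm_zero]
      positivity
    · have hb := hE1 hH
      have hk := key h0 h1 hρ (hGB f φ hf (x + h)).2.1 (hGB f φ hf x).2.1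
        (fun r hr => (hb r hr (x + h) 0).1) (fun r hr => (hb r hr x 0).1)
        (fun r hr => (hb r hr x h).2)
      rw [(hGB f φ hf (x + h)).2.2.2, (hGB f φ hf x).2.2.2, ← Complex.ofReal_sub,
        Complex.norm_real, Real.norm_eq_abs]
      rw [show -(√(2 / Real.pi) * ∫ r in Ioi (0 : ℝ), B1 r f (x + h) / r) -
        -(√(2 / Real.pi) * ∫ r in Ioi (0 : ℝ), B1 r f x / r) =
        -(√(2 / Real.pi) * ((∫ r in Ioi (0 : ℝ), B1 r f (x + h) / r) -
          ∫ r in Ioi (0 : ℝ), B1 r f x / r)) by ring, abs_neg, abs_mul, abs_of_pos hK]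
      calc √(2 / Real.pi) * |(∫ r in Ioi (0 : ℝ), B1 r f (x + h) / r) -
          ∫ r in Ioi (0 : ℝ), B1 r f x / r| ≤
          √(2 / Real.pi) * ((2 * C / δ + C / (1 - δ)) * M * (|h.1| + |h.2|) ^ δ) :=
            mul_le_mul_of_nonneg_left hk hK.le
        _ = _ := by ring
  · intro hH x h
    rcases hcase h with rfl | hρ
    · rw [add_zero, sub_self, norm_zero]
      positivity
    · have hb := hE2 hH
      have hk := key h0 h1 hρ (hGB f φ hf (x + h)).1 (hGB f φ hf x).1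
        (fun r hr => (hb r hr (x + h) 0).1) (fun r hr => (hb r hr x 0).1)
        (fun r hr => (hb r hr x h).2.1)
      rw [(hGB f φ hf (x + h)).2.2.1, (hGB f φ hf x).2.2.1, ← Complex.ofReal_sub,
        Complex.norm_real, Real.norm_eq_abs, ← mul_sub, abs_mul, abs_of_pos hK]
      calc √(2 / Real.pi) * |(∫ r in Ioi (0 : ℝ), B2 r f (x + h) / r) -
          ∫ r in Ioi (0 : ℝ), B2 r f x / r| ≤
          √(2 / Real.pi) * ((2 * C / δ + C / (1 - δ)) * M * (|h.1| + |h.2|) ^ δ) :=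
            mul_le_mul_of_nonneg_left hk hK.le
        _ = _ := by ring

end Pool.Agent.SQG
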