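import Pool.Agent.SQG.Stmts8
import Pool.Agent.SQG.Eb

/-!
# Gaussian averages in terms of the increments between symmetric points
-/

set_option autoImplicit false

namespace Pool.Agent.SQG

open Complex MeasureTheory Set Filter Topology ProbabilityTheory Pointwise

namespace VA8Aux

open EBAux

/-- the product weight -/
noncomputable def WW (z : P2) : ℝ := W z.1 * W z.2

lemma WW_nonneg (z : P2) : 0 ≤ WW z := mul_nonneg (W_nonneg _) (W_nonneg _)

lemma WW_int : Integrable WW gm := int4.mul_prod int4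

/-- the density -/
noncomputable def dens (z : P2) : ℝ := gaussianPDFReal 0 1 z.1 * gaussianPDFReal 0 1 z.2

lemma dens_nonneg (z : P2) : 0 ≤ dens z :=
  mul_nonneg (gaussianPDFReal_nonneg _ _ _) (gaussianPDFReal_nonneg _ _ _)

lemma gm_eq : gm = (volume : Measure P2).withDensity
    (fun z : P2 => gaussianPDF 0 1 z.1 * gaussianPDF 0 1 z.2) := by
  unfold gm
  rw [gaussianReal_of_var_ne_zero 0 one_ne_zero,
    prod_withDensity (measurable_gaussianPDF 0 1) (measurable_gaussianPDF 0 1)]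
  rfl

lemma setInt_gm (F : P2 → ℝ) {Q : Set P2} (hQ : MeasurableSet Q) :
    ∫ z in Q, F z ∂gm = ∫ z in Q, dens z * F z := by
  have hm : Measurable (fun z : P2 => gaussianPDF 0 1 z.1 * gaussianPDF 0 1 z.2) :=
    ((measurable_gaussianPDF 0 1).comp measurable_fst).mul
      ((measurable_gaussianPDF 0 1).comp measurable_snd)
  rw [gm_eq, setIntegral_withDensity_eq_setIntegral_toReal_smul hm
    (ae_of_all _ fun z => ENNReal.mul_lt_top gaussianPDF_lt_top gaussianPDF_lt_top) F hQ]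
  congr 1
  funext z
  rw [ENNReal.toReal_mul, toReal_gaussianPDF, toReal_gaussianPDF, smul_eq_mul]
  rfl

lemma pdf_le (z : ℝ) : gaussianPDFReal 0 1 z ≤ Real.exp (-(z ^ 2 / 2)) := by
  have h : gaussianPDFReal 0 1 z =
      (√(2 * Real.pi * (1 : NNReal)))⁻¹ * Real.exp (-(z - 0) ^ 2 / (2 * (1 : NNReal))) := rfl
  rw [h]
  have h1 : (√(2 * Real.pi * ((1 : NNReal) : ℝ)))⁻¹ ≤ 1 := by
    apply inv_le_one_of_one_le₀
    rw [NNReal.coe_one, mul_one]
    apply Real.one_le_sqrt.2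
    nlinarith [Real.pi_gt_three]
  have h2 : Real.exp (-(z - 0) ^ 2 / (2 * ((1 : NNReal) : ℝ))) = Real.exp (-(z ^ 2 / 2)) := by
    congr 1
    rw [NNReal.coe_one]
    ring
  rw [h2]
  exact mul_le_of_le_one_left (Real.exp_pos _).le h1

lemma abs_exp (z : ℝ) : |z| * Real.exp (-(z ^ 2 / 4)) ≤ 1 := by
  have h1 : |z| ≤ 1 + z ^ 2 / 4 := by
    rw [abs_le]
    constructor <;> nlinarith [sq_nonneg (z / 2 - 1), sq_nonneg (z / 2 + 1)]
  have h2 : 1 + z ^ 2 / 4 ≤ Real.exp (z ^ 2 / 4) := by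
    have := Real.add_one_le_exp (z ^ 2 / 4)
    linarith
  rw [Real.exp_neg, ← div_eq_mul_inv, div_le_one (Real.exp_pos _)]
  exact h1.trans h2

lemma max_exp (z : ℝ) : max 1 |z| * Real.exp (-(z ^ 2 / 4)) ≤ 1 := by
  rcases max_choice 1 |z| with h | h
  · rw [h, one_mul]
    exact Real.exp_le_one_iff.2 (by nlinarith [sq_nonneg z])
  · rw [h]
    exact abs_exp z

/-- the sup norm -/
noncomputable def sn (z : P2) : ℝ := max |z.1| |z.2|

lemma sn_nonneg (z : P2) : 0 ≤ sn z := (abs_nonneg _).trans (le_max_left _ _)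

lemma sn_sq (z : P2) : sn z ^ 2 ≤ z.1 ^ 2 + z.2 ^ 2 := by
  unfold sn
  rcases max_choice |z.1| |z.2| with h | h
  · rw [h, sq_abs]
    nlinarith [sq_nonneg z.2]
  · rw [h, sq_abs]
    nlinarith [sq_nonneg z.1]

lemma mem_Sq {s : ℝ} {z : P2} : z ∈ Sq8 s ↔ sn z ≤ s := by
  unfold Sq8 sn
  rw [Set.mem_prod, Set.mem_Icc, Set.mem_Icc, max_le_iff, abs_le, abs_le]

lemma meas_Sq (s : ℝ) : MeasurableSet (Sq8 s) := measurableSet_Icc.prod measurableSet_Icc

lemma comp_Sq (s : ℝ) : IsCompact (Sq8 s) := isCompact_Icc.prod isCompact_Icc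

/-- The weight near the origin. -/
lemma near {w : P2 → ℝ} (hw : ∀ z, |w z| ≤ |z.1| * max 1 |z.2|) (z : P2) :
    dens z * |w z| ≤ Real.exp (-(sn z ^ 2 / 4)) := by
  have h1 : dens z ≤ Real.exp (-(z.1 ^ 2 / 2)) * Real.exp (-(z.2 ^ 2 / 2)) :=
    mul_le_mul (pdf_le _) (pdf_le _) (gaussianPDFReal_nonneg _ _ _) (Real.exp_pos _).le
  have h0 : 0 ≤ |z.1| * max 1 |z.2| := by positivity
  have e1 : Real.exp (-(z.1 ^ 2 / 2)) = Real.exp (-(z.1 ^ 2 / 4)) * Real.exp (-(z.1 ^ 2 / 4)) := by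
    rw [← Real.exp_add]
    congr 1
    ring
  have e2 : Real.exp (-(z.2 ^ 2 / 2)) = Real.exp (-(z.2 ^ 2 / 4)) * Real.exp (-(z.2 ^ 2 / 4)) := by
    rw [← Real.exp_add]
    congr 1
    ring
  have a1 := abs_exp z.1
  have a2 := max_exp z.2
  have p1 := (Real.exp_pos (-(z.1 ^ 2 / 4))).le
  have p2 := (Real.exp_pos (-(z.2 ^ 2 / 4))).le
  calc dens z * |w z| ≤ (Real.exp (-(z.1 ^ 2 / 2)) * Real.exp (-(z.2 ^ 2 / 2))) *
        (|z.1| * max 1 |z.2|) :=
        mul_le_mul h1 (hw z) (abs_nonneg _) (by positivity)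
    _ = (|z.1| * Real.exp (-(z.1 ^ 2 / 4))) * (max 1 |z.2| * Real.exp (-(z.2 ^ 2 / 4))) *
        (Real.exp (-(z.1 ^ 2 / 4)) * Real.exp (-(z.2 ^ 2 / 4))) := by
        rw [e1, e2]
        ring
    _ ≤ 1 * (Real.exp (-(z.1 ^ 2 / 4)) * Real.exp (-(z.2 ^ 2 / 4))) := by
        refine mul_le_mul_of_nonneg_right ?_ (by positivity)
        exact mul_le_one₀ a1 (by positivity) a2
    _ ≤ Real.exp (-(sn z ^ 2 / 4)) := by
        rw [one_mul, ← Real.exp_add]
        apply Real.exp_le_exp.2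
        have := sn_sq z
        linarith

/-- The weight far from the origin. -/
lemma far {w : P2 → ℝ} (hw : ∀ z, |w z| ≤ |z.1| * max 1 |z.2|) (z : P2) :
    |w z| * (1 + |z.1|) * sn z ^ 2 ≤ 3 / 2 * WW z := by
  have h1 : |z.1| * (1 + |z.1|) ≤ 3 / 2 * (1 + z.1 ^ 2) := by
    have := sq_abs z.1
    nlinarith [sq_nonneg (|z.1| - 1)]
  have h2 : max 1 |z.2| ≤ 1 + z.2 ^ 2 := max_le (by nlinarith [sq_nonneg z.2]) (bound_abs _)
  have h3 : sn z ^ 2 ≤ (1 + z.1 ^ 2) * (1 + z.2 ^ 2) := by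
    have := sn_sq z
    nlinarith [mul_nonneg (sq_nonneg z.1) (sq_nonneg z.2)]
  have h4 : 0 ≤ sn z ^ 2 := sq_nonneg _
  calc |w z| * (1 + |z.1|) * sn z ^ 2 ≤ (|z.1| * max 1 |z.2|) * (1 + |z.1|) * sn z ^ 2 := by
        refine mul_le_mul_of_nonneg_right (mul_le_mul_of_nonneg_right (hw z) ?_) h4
        positivity
    _ = (|z.1| * (1 + |z.1|)) * max 1 |z.2| * sn z ^ 2 := by ring
    _ ≤ (3 / 2 * (1 + z.1 ^ 2)) * (1 + z.2 ^ 2) * ((1 + z.1 ^ 2) * (1 + z.2 ^ 2)) := by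
        refine mul_le_mul (mul_le_mul h1 h2 ?_ ?_) h3 h4 ?_
        · positivity
        · positivity
        · positivity
    _ = 3 / 2 * WW z := by
        unfold WW W
        ring

/-- the general term of the series -/
noncomputable def tm (k : ℕ) : ℝ := Real.exp (-((k : ℝ) ^ 2 / 4)) * ((k : ℝ) + 2) ^ 3

lemma tm_nonneg (k : ℕ) : 0 ≤ tm k := by
  unfold tm
  positivity

lemma tm_sum : Summable tm := by
  have h := Real.summable_pow_mul_exp_neg_nat_mul 3 one_pos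
  have h2 := (summable_nat_add_iff 2).2 h
  refine Summable.of_nonneg_of_le tm_nonneg (fun k => ?_) (h2.mul_left (Real.exp 3))
  unfold tm
  push_cast
  have e : Real.exp 3 * (((k : ℝ) + 2) ^ 3 * Real.exp (-1 * ((k : ℝ) + 2))) =
      Real.exp (1 - (k : ℝ)) * ((k : ℝ) + 2) ^ 3 := by
    have : Real.exp (1 - (k : ℝ)) = Real.exp 3 * Real.exp (-1 * ((k : ℝ) + 2)) := by
      rw [← Real.exp_add]
      congr 1
      ring
    rw [this]
    ring
  rw [e]
  refine mul_le_mul_of_nonneg_right (Real.exp_le_exp.2 ?_) (by positivity)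
  nlinarith [sq_nonneg ((k : ℝ) / 2 - 1)]

/-- the constant -/
noncomputable def C0 : ℝ := (∑' k, tm k) + 3 / 2 * (∫ z, WW z ∂gm) + 1

lemma S_nonneg : 0 ≤ ∑' k, tm k := tsum_nonneg tm_nonneg

lemma I_nonneg : 0 ≤ ∫ z, WW z ∂gm := integral_nonneg WW_nonneg

lemma C0_pos : 0 < C0 := by
  have h1 := S_nonneg
  have h2 := I_nonneg
  unfold C0
  positivity

/-- the increment -/
def GG (f : P2 → ℝ) (p y : P2) : ℝ := f (p.1 + y.1, p.2 + y.2) - f (p.1 - y.1, p.2 + y.2)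

lemma GG_cont {f : P2 → ℝ} (hf : Continuous f) (p : P2) : Continuous (GG f p) := by
  unfold GG
  fun_prop

lemma GG_bd {f : P2 → ℝ} {B : ℝ} (hB : ∀ x, |f x| ≤ B) (p y : P2) : |GG f p y| ≤ 2 * B := by
  unfold GG
  have := (abs_sub (f (p.1 + y.1, p.2 + y.2)) (f (p.1 - y.1, p.2 + y.2)))
  linarith [hB (p.1 + y.1, p.2 + y.2), hB (p.1 - y.1, p.2 + y.2)]

lemma GG_hol {f : P2 → ℝ} {A δ : ℝ} (hA : 0 ≤ A) (h0 : 0 ≤ δ) (h1 : δ < 1) (hH : H1 f A δ)
    {r : ℝ} (hr : 0 < r) (p z : P2) :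
    |GG f p (r • z)| ≤ 2 * A * r ^ δ * (1 + |z.1|) := by
  have h := hH (p.1 - r * z.1, p.2 + r * z.2) (2 * (r * z.1))
  have e : GG f p (r • z) = f (p.1 - r * z.1 + 2 * (r * z.1), p.2 + r * z.2) -
      f (p.1 - r * z.1, p.2 + r * z.2) := by
    unfold GG
    simp only [Prod.smul_fst, Prod.smul_snd, smul_eq_mul]
    congr 3
    ring
  rw [e]
  refine h.trans ?_
  have e2 : |2 * (r * z.1)| = 2 * (r * |z.1|) := by
    rw [abs_mul, abs_mul, abs_of_pos hr, abs_of_pos (zero_lt_two' ℝ)]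
  rw [e2, Real.mul_rpow zero_le_two (by positivity), Real.mul_rpow hr.le (abs_nonneg _)]
  have a1 : (2 : ℝ) ^ δ ≤ 2 := by
    calc (2 : ℝ) ^ δ ≤ 2 ^ (1 : ℝ) := Real.rpow_le_rpow_of_exponent_le one_le_two h1.le
      _ = 2 := Real.rpow_one _
  have a2 : |z.1| ^ δ ≤ 1 + |z.1| := by
    rcases le_total |z.1| 1 with h3 | h3
    · exact (Real.rpow_le_one (abs_nonneg _) h3 h0).trans (by linarith [abs_nonneg z.1])
    · calc |z.1| ^ δ ≤ |z.1| ^ (1 : ℝ) := Real.rpow_le_rpow_of_exponent_le h3 h1.le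
        _ = |z.1| := Real.rpow_one _
        _ ≤ 1 + |z.1| := by linarith
  have a3 : 0 ≤ |z.1| ^ δ := Real.rpow_nonneg (abs_nonneg _) _
  have a4 : 0 < r ^ δ := Real.rpow_pos_of_pos hr _
  calc A * (2 ^ δ * (r ^ δ * |z.1| ^ δ)) = A * r ^ δ * (2 ^ δ * |z.1| ^ δ) := by ring
    _ ≤ A * r ^ δ * (2 * (1 + |z.1|)) := by
        refine mul_le_mul_of_nonneg_left ?_ (by positivity)
        exact mul_le_mul a1 a2 a3 zero_le_two
    _ = _ := by ring

lemma smul_Sq {r s : ℝ} (hr : 0 < r) : r • Sq8 s = Sq8 (r * s) := by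
  ext z
  rw [Set.mem_smul_set_iff_inv_smul_mem₀ hr.ne', mem_Sq, mem_Sq]
  have e : sn (r⁻¹ • z) = r⁻¹ * sn z := by
    unfold sn
    simp only [Prod.smul_fst, Prod.smul_snd, smul_eq_mul, abs_mul, abs_inv, abs_of_pos hr]
    rw [mul_max_of_nonneg _ _ (inv_pos.2 hr).le]
  rw [e, inv_mul_le_iff₀ hr]

lemma scale (f : P2 → ℝ) (p : P2) {r s : ℝ} (hr : 0 < r) :
    ∫ z in Sq8 s, |GG f p (r • z)| = (r ^ 2)⁻¹ * J8 f p (r * s) := by
  have h := Measure.setIntegral_comp_smul_of_pos (μ := (volume : Measure P2))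
    (fun y => |GG f p y|) (Sq8 s) hr
  rw [h, smul_Sq hr, smul_eq_mul]
  have e : Module.finrank ℝ P2 = 2 := by simp [P2]
  rw [e]
  rfl

section main

variable {f : P2 → ℝ} {B : ℝ} (hf : Continuous f) (hB : ∀ x, |f x| ≤ B)

include hf hB in
lemma intw {w : P2 → ℝ} (hwm : Measurable w) (hw : ∀ z, |w z| ≤ WW z) {g : P2 → P2}
    (hg : Continuous g) : Integrable (fun z => w z * f (g z)) gm := by
  refine (WW_int.const_mul B).mono' ?_ (ae_of_all _ fun z => ?_)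
  · exact (hwm.mul (hf.comp hg).measurable).aestronglyMeasurable
  · rw [Real.norm_eq_abs, abs_mul, mul_comm B]
    exact mul_le_mul (hw z) (hB _) (abs_nonneg _) (WW_nonneg z)

lemma refl_gm : MeasurePreserving
    ((MeasurableEquiv.neg ℝ).prodCongr (MeasurableEquiv.refl ℝ)) gm gm := by
  have h1 : MeasurePreserving (MeasurableEquiv.neg ℝ) (gaussianReal 0 1) (gaussianReal 0 1) := by
    refine ⟨(MeasurableEquiv.neg ℝ).measurable, ?_⟩
    have := gaussianReal_map_neg (μ := 0) (v := 1)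
    rw [neg_zero] at this
    exact this
  have h2 : MeasurePreserving (MeasurableEquiv.refl ℝ) (gaussianReal 0 1) (gaussianReal 0 1) :=
    MeasurePreserving.id _
  exact h1.prod h2

include hf hB in
/-- Symmetrisation. -/
lemma symm {w : P2 → ℝ} (hwm : Measurable w) (hw : ∀ z, |w z| ≤ WW z)
    (hodd : ∀ z : P2, w (-z.1, z.2) = -w z) (p : P2) (r : ℝ) :
    ∫ z : P2, w z * f (p.1 + r * z.1, p.2 + r * z.2) ∂gm =
      1 / 2 * ∫ z : P2, w z * GG f p (r • z) ∂gm := by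
  have h := refl_gm.integral_comp'
    (fun z : P2 => w z * f (p.1 + r * z.1, p.2 + r * z.2))
  have e1 : ∀ z : P2, w (((MeasurableEquiv.neg ℝ).prodCongr (MeasurableEquiv.refl ℝ)) z) *
      f (p.1 + r * (((MeasurableEquiv.neg ℝ).prodCongr (MeasurableEquiv.refl ℝ)) z).1,
        p.2 + r * (((MeasurableEquiv.neg ℝ).prodCongr (MeasurableEquiv.refl ℝ)) z).2) =
      -(w z * f (p.1 - r * z.1, p.2 + r * z.2)) := by
    intro z
    have e2 : (((MeasurableEquiv.neg ℝ).prodCongr (MeasurableEquiv.refl ℝ)) z : P2) =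
      (-z.1, z.2) := rfl
    rw [e2, hodd]
    simp only
    rw [mul_neg, ← sub_eq_add_neg]
    ring
  simp only [e1] at h
  rw [integral_neg] at h
  have i1 := intw hf hB hwm hw (g := fun z : P2 => (p.1 + r * z.1, p.2 + r * z.2)) (by fun_prop)
  have i2 := intw hf hB hwm hw (g := fun z : P2 => (p.1 - r * z.1, p.2 + r * z.2)) (by fun_prop)
  have h3 : ∫ z : P2, w z * GG f p (r • z) ∂gm =
      (∫ z : P2, w z * f (p.1 + r * z.1, p.2 + r * z.2) ∂gm) -
      ∫ z : P2, w z * f (p.1 - r * z.1, p.2 + r * z.2) ∂gm := by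
    rw [← integral_sub i1 i2]
    congr 1
    funext z
    unfold GG
    simp only [Prod.smul_fst, Prod.smul_snd, smul_eq_mul]
    ring
  rw [h3]
  linarith

include hf hB in
/-- The main estimate. -/
lemma est {w : P2 → ℝ} (hwm : Measurable w) (hw : ∀ z : P2, |w z| ≤ |z.1| * max 1 |z.2|)
    (hodd : ∀ z : P2, w (-z.1, z.2) = -w z) {A δ A₁ δ₁ A₂ δ₂ r S : ℝ} {p : P2}
    (h0 : 0 ≤ δ) (h1 : δ < 1) (h01 : 0 < δ₁) (h11 : δ₁ < 1) (h02 : 0 < δ₂) (h12 : δ₂ < 1)
    (hA : 0 ≤ A) (hA₁ : 0 ≤ A₁) (hA₂ : 0 ≤ A₂) (hH : H1 f A δ) (hr : 0 < r) (hS : 0 < S)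
    (hJ : ∀ s, 0 < s → s ≤ S → J8 f p s ≤ A₁ * (s + r) ^ (2 + δ₁) + A₂ * (s + r) ^ (2 + δ₂)) :
    |∫ z : P2, w z * f (p.1 + r * z.1, p.2 + r * z.2) ∂gm| ≤
      C0 * A₁ * r ^ δ₁ + C0 * A₂ * r ^ δ₂ + C0 * A * r ^ (δ + 2) * S ^ (-2 : ℝ) := by
  have hwW : ∀ z, |w z| ≤ WW z := by
    intro z
    refine (hw z).trans ?_
    have a1 : |z.1| ≤ W z.1 := (bound_abs _).trans (W_ge _)
    have a2 : max 1 |z.2| ≤ W z.2 :=
      max_le ((by nlinarith [sq_nonneg z.2] : (1 : ℝ) ≤ 1 + z.2 ^ 2).trans (W_ge _))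
        ((bound_abs _).trans (W_ge _))
    exact mul_le_mul a1 a2 (by positivity) (W_nonneg _)
  set g : P2 → ℝ := fun z => |GG f p (r • z)| with hg
  have hgc : Continuous g := by
    rw [hg]
    exact ((GG_cont hf p).comp (continuous_const_smul r)).abs
  have hg0 : ∀ z, 0 ≤ g z := fun z => abs_nonneg _
  have hgB : ∀ z, g z ≤ 2 * B := fun z => GG_bd hB p _
  have hB0 : 0 ≤ B := (abs_nonneg _).trans (hB 0)
  -- integrability
  have hi : Integrable (fun z => |w z| * g z) gm := by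
    refine (WW_int.const_mul (2 * B)).mono' ?_ (ae_of_all _ fun z => ?_)
    · exact (hwm.abs.mul hgc.measurable).aestronglyMeasurable
    · rw [Real.norm_eq_abs, abs_mul, abs_abs, abs_of_nonneg (hg0 z), mul_comm (2 * B)]
      exact mul_le_mul (hwW z) (hgB z) (hg0 z) (WW_nonneg z)
  -- the square
  set Q : Set P2 := Sq8 (S / r) with hQ
  have hQm : MeasurableSet Q := meas_Sq _
  -- the far part
  have hfar : ∫ z in Qᶜ, |w z| * g z ∂gm ≤
      3 * A * r ^ (δ + 2) * S ^ (-2 : ℝ) * ∫ z, WW z ∂gm := by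
    have hi2 : Integrable (fun z => 3 * A * r ^ (δ + 2) * S ^ (-2 : ℝ) * WW z) gm :=
      WW_int.const_mul _
    have hc0 : 0 ≤ 3 * A * r ^ (δ + 2) * S ^ (-2 : ℝ) := by positivity
    calc ∫ z in Qᶜ, |w z| * g z ∂gm
        ≤ ∫ z in Qᶜ, 3 * A * r ^ (δ + 2) * S ^ (-2 : ℝ) * WW z ∂gm := by
          refine setIntegral_mono_on hi.integrableOn hi2.integrableOn hQm.compl fun z hz => ?_
          have hz1 : S / r < sn z := by
            have : ¬ sn z ≤ S / r := fun h => hz (mem_Sq.2 h)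
            exact not_le.1 this
          have hz2 : 1 ≤ (r * sn z / S) ^ 2 := by
            have : 1 ≤ r * sn z / S := by
              rw [le_div_iff₀ hS, one_mul]
              rw [div_lt_iff₀ hr] at hz1
              linarith
            nlinarith
          have e1 : r ^ (δ + 2) = r ^ δ * r ^ 2 := by
            rw [Real.rpow_add hr]
            norm_num
          have e2 : S ^ (-2 : ℝ) = (S ^ 2)⁻¹ := by
            rw [Real.rpow_neg hS.le]
            norm_num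
          have hr' : 0 < r ^ δ := Real.rpow_pos_of_pos hr _
          calc |w z| * g z ≤ |w z| * (2 * A * r ^ δ * (1 + |z.1|)) :=
                mul_le_mul_of_nonneg_left (GG_hol hA h0 h1 hH hr p z) (abs_nonneg _)
            _ ≤ |w z| * (2 * A * r ^ δ * (1 + |z.1|)) * (r * sn z / S) ^ 2 :=
                le_mul_of_one_le_right (by positivity) hz2
            _ = 2 * A * (r ^ δ * r ^ 2) * (S ^ 2)⁻¹ * (|w z| * (1 + |z.1|) * sn z ^ 2) := by
                rw [div_pow, mul_pow]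
                ring
            _ ≤ 2 * A * (r ^ δ * r ^ 2) * (S ^ 2)⁻¹ * (3 / 2 * WW z) :=
                mul_le_mul_of_nonneg_left (far hw z) (by positivity)
            _ = 3 * A * r ^ (δ + 2) * S ^ (-2 : ℝ) * WW z := by
                rw [e1, e2]
                ring
      _ ≤ ∫ z, 3 * A * r ^ (δ + 2) * S ^ (-2 : ℝ) * WW z ∂gm :=
          setIntegral_le_integral hi2 (ae_of_all _ fun z => mul_nonneg hc0 (WW_nonneg z))
      _ = _ := integral_const_mul _ _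
  -- the near part
  have hnear : ∫ z in Q, |w z| * g z ∂gm ≤
      (∑' k, tm k) * (A₁ * r ^ δ₁ + A₂ * r ^ δ₂) := by
    set K : ℕ := ⌊S / r⌋₊ with hK
    set κ : ℕ → ℝ := fun k => min ((k : ℝ) + 1) (S / r) with hκ
    have hSr : 0 < S / r := div_pos hS hr
    have hκ0 : ∀ k, 0 < κ k := fun k => lt_min (by positivity) hSr
    have hgi : ∀ s : ℝ, IntegrableOn g (Sq8 s) := fun s =>
      hgc.continuousOn.integrableOn_compact (comp_Sq s)
    rw [setInt_gm _ hQm]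
    have hmaj : ∀ z ∈ Q, dens z * (|w z| * g z) ≤
        ∑ k ∈ Finset.range (K + 1), Real.exp (-((k : ℝ) ^ 2 / 4)) *
          (Sq8 (κ k)).indicator g z := by
      intro z hz
      have hz' : sn z ≤ S / r := mem_Sq.1 hz
      have h2 : dens z * (|w z| * g z) ≤ Real.exp (-(sn z ^ 2 / 4)) * g z := by
        rw [← mul_assoc]
        exact mul_le_mul_of_nonneg_right (near hw z) (hg0 z)
      set k : ℕ := ⌊sn z⌋₊ with hk
      have hkK : k ∈ Finset.range (K + 1) := by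
        rw [Finset.mem_range, Nat.lt_succ_iff]
        exact Nat.floor_le_floor hz'
      have hk1 : (k : ℝ) ≤ sn z := Nat.floor_le (sn_nonneg z)
      have hk2 : sn z ≤ κ k := le_min (Nat.lt_floor_add_one _).le hz'
      refine h2.trans ?_
      refine le_trans ?_ (Finset.single_le_sum (f := fun k : ℕ =>
        Real.exp (-((k : ℝ) ^ 2 / 4)) * (Sq8 (κ k)).indicator g z) (fun i _ => ?_) hkK)
      · rw [Set.indicator_of_mem (mem_Sq.2 hk2)]
        refine mul_le_mul_of_nonneg_right (Real.exp_le_exp.2 ?_) (hg0 z)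
        have : (k : ℝ) ^ 2 ≤ sn z ^ 2 := by
          have : (0 : ℝ) ≤ k := Nat.cast_nonneg _
          nlinarith
        linarith
      · exact mul_nonneg (Real.exp_pos _).le (Set.indicator_nonneg (fun z _ => hg0 z) _)
    have hii : ∀ k : ℕ, Integrable (fun z => Real.exp (-((k : ℝ) ^ 2 / 4)) *
        (Sq8 (κ k)).indicator g z) := fun k =>
      ((integrable_indicator_iff (meas_Sq _)).2 (hgi _)).const_mul _
    have hsum : Integrable (fun z => ∑ k ∈ Finset.range (K + 1),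
        Real.exp (-((k : ℝ) ^ 2 / 4)) * (Sq8 (κ k)).indicator g z) :=
      integrable_finsetSum _ fun k _ => hii k
    have hsum0 : ∀ z, 0 ≤ ∑ k ∈ Finset.range (K + 1),
        Real.exp (-((k : ℝ) ^ 2 / 4)) * (Sq8 (κ k)).indicator g z := fun z =>
      Finset.sum_nonneg fun k _ =>
        mul_nonneg (Real.exp_pos _).le (Set.indicator_nonneg (fun z _ => hg0 z) _)
    have hterm : ∀ k : ℕ, ∫ z, Real.exp (-((k : ℝ) ^ 2 / 4)) * (Sq8 (κ k)).indicator g z ≤
        tm k * (A₁ * r ^ δ₁ + A₂ * r ^ δ₂) := by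
      intro k
      rw [integral_const_mul, integral_indicator (meas_Sq _), hg, scale f p hr]
      have hrk : r * κ k ≤ S := by
        calc r * κ k ≤ r * (S / r) := mul_le_mul_of_nonneg_left (min_le_right _ _) hr.le
          _ = S := by field_simp
      have hj := hJ (r * κ k) (mul_pos hr (hκ0 k)) hrk
      have hk2 : r * κ k + r ≤ r * ((k : ℝ) + 2) := by
        have : κ k ≤ (k : ℝ) + 1 := min_le_left _ _
        nlinarith
      have hpw : ∀ d : ℝ, 0 < d → d < 1 → (r * κ k + r) ^ (2 + d) ≤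
          r ^ 2 * r ^ d * ((k : ℝ) + 2) ^ 3 := by
        intro d hd0 hd1
        have hk0 : 0 ≤ r * κ k + r := by
          have := (mul_pos hr (hκ0 k))
          positivity
        have hk3 : (1 : ℝ) ≤ (k : ℝ) + 2 := by
          have : (0 : ℝ) ≤ k := Nat.cast_nonneg _
          linarith
        calc (r * κ k + r) ^ (2 + d) ≤ (r * ((k : ℝ) + 2)) ^ (2 + d) :=
              Real.rpow_le_rpow hk0 hk2 (by linarith)
          _ = r ^ (2 + d) * ((k : ℝ) + 2) ^ (2 + d) := Real.mul_rpow hr.le (by linarith)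
          _ ≤ r ^ (2 + d) * ((k : ℝ) + 2) ^ (3 : ℝ) := by
              refine mul_le_mul_of_nonneg_left ?_ (Real.rpow_nonneg hr.le _)
              exact Real.rpow_le_rpow_of_exponent_le hk3 (by linarith)
          _ = r ^ 2 * r ^ d * ((k : ℝ) + 2) ^ 3 := by
              rw [Real.rpow_add hr]
              norm_num
      have hfin : (r ^ 2)⁻¹ * J8 f p (r * κ k) ≤
          ((k : ℝ) + 2) ^ 3 * (A₁ * r ^ δ₁ + A₂ * r ^ δ₂) := by
        rw [inv_mul_le_iff₀ (by positivity)]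
        calc J8 f p (r * κ k) ≤ A₁ * (r * κ k + r) ^ (2 + δ₁) + A₂ * (r * κ k + r) ^ (2 + δ₂) := hj
          _ ≤ A₁ * (r ^ 2 * r ^ δ₁ * ((k : ℝ) + 2) ^ 3) +
              A₂ * (r ^ 2 * r ^ δ₂ * ((k : ℝ) + 2) ^ 3) :=
              add_le_add (mul_le_mul_of_nonneg_left (hpw _ h01 h11) hA₁)
                (mul_le_mul_of_nonneg_left (hpw _ h02 h12) hA₂)
          _ = r ^ 2 * (((k : ℝ) + 2) ^ 3 * (A₁ * r ^ δ₁ + A₂ * r ^ δ₂)) := by ring
      calc Real.exp (-((k : ℝ) ^ 2 / 4)) * ((r ^ 2)⁻¹ * J8 f p (r * κ k))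
          ≤ Real.exp (-((k : ℝ) ^ 2 / 4)) *
            (((k : ℝ) + 2) ^ 3 * (A₁ * r ^ δ₁ + A₂ * r ^ δ₂)) :=
            mul_le_mul_of_nonneg_left hfin (Real.exp_pos _).le
        _ = tm k * (A₁ * r ^ δ₁ + A₂ * r ^ δ₂) := by
            unfold tm
            ring
    have hAA : 0 ≤ A₁ * r ^ δ₁ + A₂ * r ^ δ₂ := by positivity
    calc ∫ z in Q, dens z * (|w z| * g z)
        ≤ ∫ z in Q, ∑ k ∈ Finset.range (K + 1),
          Real.exp (-((k : ℝ) ^ 2 / 4)) * (Sq8 (κ k)).indicator g z := by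
          refine integral_mono_of_nonneg (ae_of_all _ fun z => ?_) hsum.integrableOn ?_
          · exact mul_nonneg (dens_nonneg z) (mul_nonneg (abs_nonneg _) (hg0 z))
          · exact (ae_restrict_iff' hQm).2 (ae_of_all _ hmaj)
      _ ≤ ∫ z, ∑ k ∈ Finset.range (K + 1),
          Real.exp (-((k : ℝ) ^ 2 / 4)) * (Sq8 (κ k)).indicator g z :=
          setIntegral_le_integral hsum (ae_of_all _ hsum0)
      _ = ∑ k ∈ Finset.range (K + 1),
          ∫ z, Real.exp (-((k : ℝ) ^ 2 / 4)) * (Sq8 (κ k)).indicator g z :=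
          integral_finsetSum _ fun k _ => hii k
      _ ≤ ∑ k ∈ Finset.range (K + 1), tm k * (A₁ * r ^ δ₁ + A₂ * r ^ δ₂) :=
          Finset.sum_le_sum fun k _ => hterm k
      _ = (∑ k ∈ Finset.range (K + 1), tm k) * (A₁ * r ^ δ₁ + A₂ * r ^ δ₂) := by
          rw [Finset.sum_mul]
      _ ≤ _ := mul_le_mul_of_nonneg_right
          (tm_sum.sum_le_tsum _ fun k _ => tm_nonneg k) hAA
  rw [symm hf hB hwm hwW hodd p r]
  have habs : |∫ z : P2, w z * GG f p (r • z) ∂gm| ≤ ∫ z, |w z| * g z ∂gm := by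
    have := norm_integral_le_integral_norm (μ := gm) (fun z : P2 => w z * GG f p (r • z))
    rw [Real.norm_eq_abs] at this
    refine this.trans (le_of_eq ?_)
    congr 1
    funext z
    rw [Real.norm_eq_abs, abs_mul]
  have hsplit : ∫ z, |w z| * g z ∂gm =
      (∫ z in Q, |w z| * g z ∂gm) + ∫ z in Qᶜ, |w z| * g z ∂gm :=
    (integral_add_compl hQm hi).symm
  rw [abs_mul, abs_of_pos (by norm_num : (0 : ℝ) < 1 / 2)]
  have hS0 := S_nonneg
  have hI0 := I_nonneg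
  have hr1 : 0 ≤ A₁ * r ^ δ₁ := by positivity
  have hr2 : 0 ≤ A₂ * r ^ δ₂ := by positivity
  have hr3 : 0 ≤ A * r ^ (δ + 2) * S ^ (-2 : ℝ) := by positivity
  have hfin : 1 / 2 * |∫ z : P2, w z * GG f p (r • z) ∂gm| ≤
      1 / 2 * ((∑' k, tm k) * (A₁ * r ^ δ₁ + A₂ * r ^ δ₂) +
        3 * A * r ^ (δ + 2) * S ^ (-2 : ℝ) * ∫ z, WW z ∂gm) := by
    refine mul_le_mul_of_nonneg_left ?_ (by norm_num)
    refine habs.trans ?_
    rw [hsplit]
    exact add_le_add hnear hfar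
  refine hfin.trans ?_
  have hC1 : (∑' k, tm k) ≤ C0 := by
    unfold C0
    linarith
  have hC2 : 3 / 2 * (∫ z, WW z ∂gm) ≤ C0 := by
    unfold C0
    linarith
  have b1 := mul_le_mul_of_nonneg_right hC1 hr1
  have b2 := mul_le_mul_of_nonneg_right hC1 hr2
  have b3 := mul_le_mul_of_nonneg_right hC2 hr3
  have b4 : 0 ≤ (∑' k, tm k) * (A₁ * r ^ δ₁) := mul_nonneg hS0 hr1
  have b5 : 0 ≤ (∑' k, tm k) * (A₂ * r ^ δ₂) := mul_nonneg hS0 hr2
  calc 1 / 2 * ((∑' k, tm k) * (A₁ * r ^ δ₁ + A₂ * r ^ δ₂) +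
        3 * A * r ^ (δ + 2) * S ^ (-2 : ℝ) * ∫ z, WW z ∂gm)
      = 1 / 2 * ((∑' k, tm k) * (A₁ * r ^ δ₁)) + 1 / 2 * ((∑' k, tm k) * (A₂ * r ^ δ₂)) +
        3 / 2 * (∫ z, WW z ∂gm) * (A * r ^ (δ + 2) * S ^ (-2 : ℝ)) := by ring
    _ ≤ C0 * (A₁ * r ^ δ₁) + C0 * (A₂ * r ^ δ₂) + C0 * (A * r ^ (δ + 2) * S ^ (-2 : ℝ)) := by
        linarith
    _ = _ := by ring

end main

end VA8Aux

open VA8Aux

theorem va8 (hD : Stmt_DER) : Stmt_VA8 := by
  refine ⟨fun _ => C0, fun _ => C0_pos, ?_⟩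
  intro f φ hN A δ A₁ δ₁ A₂ δ₂ r S p h0 h1 h01 h11 h02 h12 hA hA₁ hA₂ hH hr hS hJ
  obtain ⟨hf, ⟨B, hB⟩, -⟩ := hD f φ hN
  refine ⟨?_, ?_⟩
  · refine est hf hB (w := fun z => z.1) measurable_fst (fun z => ?_) (fun z => rfl)
      h0 h1 h01 h11 h02 h12 hA hA₁ hA₂ hH hr hS hJ
    exact le_mul_of_one_le_right (abs_nonneg _) (le_max_left _ _)
  · refine est hf hB (w := fun z => z.1 * z.2) (measurable_fst.mul measurable_snd)
      (fun z => ?_) (fun z => ?_) h0 h1 h01 h11 h02 h12 hA hA₁ hA₂ hH hr hS hJ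
    · rw [abs_mul]
      exact mul_le_mul_of_nonneg_left (le_max_right _ _) (abs_nonneg _)
    · simp only
      ring

end Pool.Agent.SQG
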