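import Pool.Agent.SQG.Stmts8
import Pool.Agent.SQG.Eb

/-!
# The derivative of the Gaussian average `B1` in the second direction
-/

set_option autoImplicit false

namespace Pool.Agent.SQG

open Complex MeasureTheory Set Filter Topology ProbabilityTheory

open EBAux

namespace VD8Aux

variable {f : P2 → ℝ} {K L : ℝ} {f1 f2 : P2 → ℝ}

lemma f2_meas (hf : Nice f K L f1 f2) : Measurable f2 := by
  have e : f2 = fun p : P2 => deriv (fun s => f (p.1, s)) p.2 :=
    funext fun p => (hf.d2 p).deriv.symm
  rw [e]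
  exact measurable_deriv_with_param (f := fun a s : ℝ => f (a, s)) (by
    have h : (Function.uncurry fun a s : ℝ => f (a, s)) = f := by
      funext p
      rfl
    rw [h]
    exact hf.cont)

lemma W_one_le (z : ℝ) : 1 ≤ W z := by
  have := W_ge z
  nlinarith [sq_nonneg z]

/-- the dominating function in two variables -/
lemma dom_int (C : ℝ) : Integrable (fun z : P2 => C * (W z.1 * W z.2)) (gu.prod gu) :=
  (int4.mul_prod int4).const_mul C

lemma lin_int {w : P2 → ℝ} {C : ℝ} (hw : Measurable w) (hb : ∀ z, |w z| ≤ C * (W z.1 * W z.2)) :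
    Integrable w (gu.prod gu) :=
  (dom_int C).mono' hw.aestronglyMeasurable (ae_of_all _ hb)

lemma K_nonneg (hf : Nice f K L f1 f2) : 0 ≤ K := (abs_nonneg _).trans (hf.bd 0)

lemma L_nonneg (hf : Nice f K L f1 f2) : 0 ≤ L := (abs_nonneg _).trans (hf.b2 0)

/-- the integral of the derivative -/
lemma parts (hf : Nice f K L f1 f2) {r : ℝ} (hr : 0 < r) (a b : ℝ) :
    ∫ z : P2, z.1 * f2 (a + r * z.1, b + r * z.2) ∂(gu.prod gu) =
      r⁻¹ * ∫ z : P2, z.1 * z.2 * f (a + r * z.1, b + r * z.2) ∂(gu.prod gu) := by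
  have hK := K_nonneg hf
  have hL := L_nonneg hf
  have hm2 := f2_meas hf
  have hm : Measurable f := hf.cont.measurable
  have hlin : Measurable (fun z : P2 => ((a + r * z.1, b + r * z.2) : P2)) := by fun_prop
  have i1 : Integrable (fun z : P2 => z.1 * f2 (a + r * z.1, b + r * z.2)) (gu.prod gu) := by
    refine lin_int (C := L) (measurable_fst.mul (hm2.comp hlin)) fun z => ?_
    rw [abs_mul]
    have h1 : |z.1| ≤ W z.1 * W z.2 := by
      have h2 := (bound_abs z.1).trans (W_ge z.1)
      exact h2.trans (le_mul_of_one_le_right (W_nonneg _) (W_one_le _))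
    rw [mul_comm L]
    exact mul_le_mul h1 (hf.b2 _) (abs_nonneg _) (mul_nonneg (W_nonneg _) (W_nonneg _))
  have i2 : Integrable (fun z : P2 => z.1 * z.2 * f (a + r * z.1, b + r * z.2))
      (gu.prod gu) := by
    refine lin_int (C := K) ((measurable_fst.mul measurable_snd).mul (hm.comp hlin)) fun z => ?_
    rw [abs_mul, abs_mul]
    have h1 : |z.1| * |z.2| ≤ W z.1 * W z.2 :=
      mul_le_mul ((bound_abs z.1).trans (W_ge z.1)) ((bound_abs z.2).trans (W_ge z.2))
        (abs_nonneg _) (W_nonneg _)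
    rw [mul_comm K]
    exact mul_le_mul h1 (hf.bd _) (abs_nonneg _) (mul_nonneg (W_nonneg _) (W_nonneg _))
  rw [integral_prod _ i1, integral_prod _ i2, ← integral_const_mul]
  congr 1
  funext y
  have h := ibp (q := fun _ => 1) (q' := fun _ => 0) hq1
    (fun z => by simp [sq_nonneg]) (fun z => by simp; positivity) measurable_const
    (g := fun t => f (a + r * y, t)) (g' := fun t => f2 (a + r * y, t))
    (fun t => hf.d2 (a + r * y, t)) (K := K) (L := L) (fun t => hf.bd _) (fun t => hf.b2 _) hr b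
  simp only [one_mul, mul_one, sub_zero] at h
  simp only
  calc ∫ z, y * f2 (a + r * y, b + r * z) ∂gu = y * ∫ z, f2 (a + r * y, b + r * z) ∂gu :=
        integral_const_mul _ _
    _ = y * (r⁻¹ * ∫ z, z * f (a + r * y, b + r * z) ∂gu) := by rw [h]
    _ = r⁻¹ * (y * ∫ z, z * f (a + r * y, b + r * z) ∂gu) := by ring
    _ = r⁻¹ * ∫ z, y * z * f (a + r * y, b + r * z) ∂gu := by
        rw [← integral_const_mul]
        congr 2
        funext z
        ring

/-- differentiation under the integral -/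
lemma der (hf : Nice f K L f1 f2) {r : ℝ} (hr : 0 < r) (a b τ : ℝ) :
    HasDerivAt (fun τ : ℝ => ∫ z : P2, z.1 * f (a + r * z.1, b + τ + r * z.2) ∂(gu.prod gu))
      (r⁻¹ * ∫ z : P2, z.1 * z.2 * f (a + r * z.1, b + τ + r * z.2) ∂(gu.prod gu)) τ := by
  have hK := K_nonneg hf
  have hL := L_nonneg hf
  have hm2 := f2_meas hf
  have hm : Measurable f := hf.cont.measurable
  have hlin : ∀ s : ℝ, Measurable (fun z : P2 => ((a + r * z.1, b + s + r * z.2) : P2)) :=
    fun s => by fun_prop
  have hW : ∀ z : P2, |z.1| ≤ W z.1 * W z.2 := by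
    intro z
    have h2 := (bound_abs z.1).trans (W_ge z.1)
    exact h2.trans (le_mul_of_one_le_right (W_nonneg _) (W_one_le _))
  have hW0 : ∀ z : P2, 0 ≤ W z.1 * W z.2 := fun z => mul_nonneg (W_nonneg _) (W_nonneg _)
  have key := (hasDerivAt_integral_of_dominated_loc_of_deriv_le (μ := gu.prod gu)
    (F := fun s (z : P2) => z.1 * f (a + r * z.1, b + s + r * z.2))
    (F' := fun s (z : P2) => z.1 * f2 (a + r * z.1, b + s + r * z.2)) (x₀ := τ)
    (s := univ) (bound := fun z : P2 => L * (W z.1 * W z.2)) univ_mem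
    (Eventually.of_forall fun s =>
      (measurable_fst.mul (hm.comp (hlin s))).aestronglyMeasurable)
    (lin_int (C := K) (measurable_fst.mul (hm.comp (hlin τ))) fun z => by
      rw [abs_mul, mul_comm K]
      exact mul_le_mul (hW z) (hf.bd _) (abs_nonneg _) (hW0 z))
    (measurable_fst.mul (hm2.comp (hlin τ))).aestronglyMeasurable
    (ae_of_all _ fun z s _ => by
      rw [Real.norm_eq_abs, abs_mul, mul_comm L]
      exact mul_le_mul (hW z) (hf.b2 _) (abs_nonneg _) (hW0 z))
    (dom_int L)
    (ae_of_all _ fun z s _ => by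
      have h1 : HasDerivAt (fun s : ℝ => b + s + r * z.2) 1 s := by
        simpa using ((hasDerivAt_id s).const_add b).add_const (r * z.2)
      have h2 := (hf.d2 (a + r * z.1, b + s + r * z.2)).comp s h1
      rw [mul_one] at h2
      exact h2.const_mul z.1)).2
  rwa [parts hf hr a (b + τ)] at key

end VD8Aux

open VD8Aux

theorem vd8 (hD : Stmt_DER) : Stmt_VD8 := by
  intro f φ hN r τ x hr
  obtain ⟨K, L, f1, f2, hf⟩ := nice_of hD hN
  exact der hf hr x.1 x.2 τ

end Pool.Agent.SQG
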