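import Pool.Agent.SQG.Stmts8

/-!
# VE8: the vertical increments of the vertical velocity
-/

set_option autoImplicit false

namespace Pool.Agent.SQG

open Complex MeasureTheory Set Filter Topology ProbabilityTheory

namespace VE8Aux

/-- the square moved in the vertical direction -/
lemma shift {f : P2 → ℝ} (hf : Continuous f) (x : P2) {s τ : ℝ} (hτ : 0 ≤ τ) :
    J8 f (x.1, x.2 + τ) s ≤ J8 f x (s + τ) := by
  set G : P2 → ℝ := fun y => |f (x.1 + y.1, x.2 + y.2) - f (x.1 - y.1, x.2 + y.2)| with hG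
  have hGc : Continuous G := by
    rw [hG]
    fun_prop
  have e1 : J8 f (x.1, x.2 + τ) s = ∫ y in Sq8 s, G (y + (0, τ)) := by
    unfold J8
    congr 1
    funext y
    simp only [hG, Prod.fst_add, Prod.snd_add, add_zero]
    rw [show x.2 + τ + y.2 = x.2 + (y.2 + τ) by ring]
  have e2 : Sq8 s = (fun y : P2 => y + (0, τ)) ⁻¹' (Icc (-s) s ×ˢ Icc (-s + τ) (s + τ)) := by
    ext y
    simp only [Sq8, mem_prod, mem_preimage, mem_Icc, Prod.fst_add, Prod.snd_add, add_zero]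
    constructor
    · rintro ⟨⟨h1, h2⟩, h3, h4⟩
      exact ⟨⟨h1, h2⟩, by linarith, by linarith⟩
    · rintro ⟨⟨h1, h2⟩, h3, h4⟩
      exact ⟨⟨h1, h2⟩, by linarith, by linarith⟩
  have hmp : MeasurePreserving (fun y : P2 => y + (0, τ)) volume volume :=
    measurePreserving_add_right volume ((0, τ) : P2)
  have hme : MeasurableEmbedding (fun y : P2 => y + (0, τ)) :=
    (Homeomorph.addRight ((0, τ) : P2)).measurableEmbedding
  have e3 : ∫ y in Sq8 s, G (y + (0, τ)) = ∫ y in Icc (-s) s ×ˢ Icc (-s + τ) (s + τ), G y := by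
    rw [e2]
    exact hmp.setIntegral_preimage_emb hme G _
  rw [e1, e3]
  unfold J8
  refine setIntegral_mono_set ?_ (ae_of_all _ fun y => abs_nonneg _) ?_
  · exact hGc.continuousOn.integrableOn_compact (isCompact_Icc.prod isCompact_Icc)
  · refine LE.le.eventuallyLE ?_
    rintro y ⟨⟨h1, h2⟩, h3, h4⟩
    simp only [Sq8, mem_prod, mem_Icc] at *
    exact ⟨⟨by linarith, by linarith⟩, by linarith, by linarith⟩

lemma key {d₁ d₂ δ c₁ c₂ c₃ c₄ b S : ℝ} (hd1 : 0 < d₁) (hd1' : d₁ < 1) (hd2 : 0 < d₂)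
    (hd2' : d₂ < 1) (hδ : 0 ≤ δ) (hδ' : δ < 1) (hc1 : 0 ≤ c₁) (hc2 : 0 ≤ c₂) (hc3 : 0 ≤ c₃)
    (hc4 : 0 ≤ c₄) (hb : 0 < b) (hbS : b ≤ S / 2) {w : ℝ → ℝ}
    (hw : IntegrableOn (fun r => w r / r) (Ioi 0))
    (h1 : ∀ r, 0 < r → r ≤ b →
      |w r| ≤ 2 * (c₁ * r ^ d₁ + c₂ * r ^ d₂ + c₃ * r ^ (δ + 2) * S ^ (-2 : ℝ)))
    (h2 : ∀ r, b < r → r ≤ S / 2 →
      |w r| ≤ b * r⁻¹ * (c₁ * r ^ d₁ + c₂ * r ^ d₂ + c₃ * r ^ (δ + 2) * (S / 2) ^ (-2 : ℝ)))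
    (h3 : ∀ r, S / 2 < r → |w r| ≤ c₄ * b * r ^ (δ - 1)) :
    |∫ r in Ioi (0 : ℝ), w r / r| ≤ (2 / d₁ + 1 / (1 - d₁)) * c₁ * b ^ d₁ +
      (2 / d₂ + 1 / (1 - d₂)) * c₂ * b ^ d₂ + (4 * c₃ + 2 * c₄ / (1 - δ)) * b * S ^ (δ - 1) := by
  have hS : 0 < S := by linarith
  have hS2 : 0 < S / 2 := by linarith
  have hs1 : Ioi (0 : ℝ) = Ioc 0 b ∪ Ioi b := (Ioc_union_Ioi_eq_Ioi hb.le).symm
  have hs2 : Ioi b = Ioc b (S / 2) ∪ Ioi (S / 2) := (Ioc_union_Ioi_eq_Ioi hbS).symm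
  have hi1 : IntegrableOn (fun r => w r / r) (Ioc 0 b) := hw.mono_set Ioc_subset_Ioi_self
  have hi2 : IntegrableOn (fun r => w r / r) (Ioi b) := hw.mono_set (Ioi_subset_Ioi hb.le)
  have hi3 : IntegrableOn (fun r => w r / r) (Ioc b (S / 2)) := hi2.mono_set Ioc_subset_Ioi_self
  have hi4 : IntegrableOn (fun r => w r / r) (Ioi (S / 2)) := hi2.mono_set (Ioi_subset_Ioi hbS)
  have hsplit : ∫ r in Ioi (0 : ℝ), w r / r = (∫ r in Ioc 0 b, w r / r) +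
      ((∫ r in Ioc b (S / 2), w r / r) + ∫ r in Ioi (S / 2), w r / r) := by
    rw [hs1, setIntegral_union (Ioc_disjoint_Ioi le_rfl) measurableSet_Ioi hi1 hi2, hs2,
      setIntegral_union (Ioc_disjoint_Ioi le_rfl) measurableSet_Ioi hi3 hi4]
  rw [hsplit]
  -- powers
  have hSS : (S / 2) ^ (δ - 1) ≤ 2 * S ^ (δ - 1) := by
    rw [Real.div_rpow hS.le two_pos.le]
    have h4 : (2 : ℝ) ^ (δ - 1) = ((2 : ℝ) ^ (1 - δ))⁻¹ := by
      rw [← Real.rpow_neg two_pos.le]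
      congr 1
      ring
    rw [h4, div_inv_eq_mul]
    have h5 : (2 : ℝ) ^ (1 - δ) ≤ 2 := by
      calc (2 : ℝ) ^ (1 - δ) ≤ (2 : ℝ) ^ (1 : ℝ) :=
            Real.rpow_le_rpow_of_exponent_le one_le_two (by linarith)
        _ = 2 := Real.rpow_one 2
    have h6 : 0 < S ^ (δ - 1) := Real.rpow_pos_of_pos hS _
    nlinarith
  have j1 : ∀ (M d : ℝ), 0 < d → IntegrableOn (fun r : ℝ => 2 * M * r ^ (d - 1)) (Ioc 0 b) := by
    intro M d hd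
    have := (intervalIntegral.intervalIntegrable_rpow' (a := 0) (b := b) (r := d - 1)
      (by linarith)).const_mul (2 * M)
    rwa [intervalIntegrable_iff_integrableOn_Ioc_of_le hb.le] at this
  have j2 : ∀ (M d t : ℝ), 0 < t → d < 1 → IntegrableOn (fun r : ℝ => M * r ^ (d - 2)) (Ioi t) :=
    fun M d t ht hd => (integrableOn_Ioi_rpow_of_lt (by linarith) ht).const_mul _
  have e3 : ∀ (M d : ℝ), 0 < d → ∫ r in Ioc (0 : ℝ) b, 2 * M * r ^ (d - 1) =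
      2 * M * (b ^ d / d) := by
    intro M d hd
    rw [integral_const_mul, ← intervalIntegral.integral_of_le hb.le,
      integral_rpow (Or.inl (by linarith))]
    rw [sub_add_cancel, Real.zero_rpow hd.ne', sub_zero]
  have e4 : ∀ (M d t : ℝ), 0 < t → d < 1 →
      ∫ r in Ioi t, M * r ^ (d - 2) = M * (t ^ (d - 1) / (1 - d)) := by
    intro M d t ht hd
    rw [integral_const_mul, integral_Ioi_rpow_of_lt (by linarith) ht]
    rw [show d - 2 + 1 = d - 1 by ring]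
    have : 1 - d ≠ 0 := by linarith
    have h3 : d - 1 ≠ 0 := by linarith
    field_simp
    ring
  -- first piece
  have p1 : |∫ r in Ioc 0 b, w r / r| ≤ 2 * c₁ * (b ^ d₁ / d₁) + 2 * c₂ * (b ^ d₂ / d₂) +
      2 * c₃ * S ^ (δ - 1) * b := by
    have hcst : IntegrableOn (fun _ : ℝ => 2 * c₃ * S ^ (δ - 1)) (Ioc 0 b) :=
      integrableOn_const (by simp)
    have hadd : IntegrableOn (fun r : ℝ => 2 * c₁ * r ^ (d₁ - 1) + 2 * c₂ * r ^ (d₂ - 1))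
        (Ioc 0 b) := (j1 c₁ d₁ hd1).add (j1 c₂ d₂ hd2)
    have e5 : ∫ r in Ioc (0 : ℝ) b, (2 * c₁ * r ^ (d₁ - 1) + 2 * c₂ * r ^ (d₂ - 1) +
        2 * c₃ * S ^ (δ - 1)) = 2 * c₁ * (b ^ d₁ / d₁) + 2 * c₂ * (b ^ d₂ / d₂) +
        2 * c₃ * S ^ (δ - 1) * b := by
      rw [integral_add hadd hcst,
        integral_add (j1 c₁ d₁ hd1) (j1 c₂ d₂ hd2), e3 _ _ hd1, e3 _ _ hd2]
      simp [hb.le, mul_comm]
    rw [← e5, ← Real.norm_eq_abs]
    refine norm_integral_le_of_norm_le (hadd.add hcst) ?_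
    refine (ae_restrict_iff' measurableSet_Ioc).2 (ae_of_all _ fun r hr => ?_)
    have hr0 : 0 < r := hr.1
    rw [Real.norm_eq_abs, abs_div, abs_of_pos hr0, div_le_iff₀ hr0]
    have h5 : ∀ d : ℝ, r ^ (d - 1) * r = r ^ d := fun d => by
      rw [Real.rpow_sub_one hr0.ne', div_mul_cancel₀ _ hr0.ne']
    have h6 : r ^ (δ + 2) * S ^ (-2 : ℝ) ≤ S ^ (δ - 1) * r := by
      have h7 : r ^ (δ + 2) = r ^ (δ + 1) * r := by
        rw [← Real.rpow_add_one hr0.ne']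
        congr 1
        ring
      have h8 : r ^ (δ + 1) ≤ S ^ (δ + 1) :=
        Real.rpow_le_rpow hr0.le (by linarith [hr.2]) (by linarith)
      have h9 : S ^ (δ - 1) = S ^ (δ + 1) * S ^ (-2 : ℝ) := by
        rw [← Real.rpow_add hS]
        congr 1
        ring
      rw [h7, h9]
      have h10 : 0 < S ^ (-2 : ℝ) := Real.rpow_pos_of_pos hS _
      calc r ^ (δ + 1) * r * S ^ (-2 : ℝ) = r ^ (δ + 1) * (r * S ^ (-2 : ℝ)) := by ring
        _ ≤ S ^ (δ + 1) * (r * S ^ (-2 : ℝ)) := mul_le_mul_of_nonneg_right h8 (by positivity)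
        _ = _ := by ring
    have h11 := h1 r hr0 hr.2
    have h12 := mul_le_mul_of_nonneg_left h6 hc3
    calc |w r| ≤ 2 * (c₁ * r ^ d₁ + c₂ * r ^ d₂ + c₃ * r ^ (δ + 2) * S ^ (-2 : ℝ)) := h11
      _ ≤ 2 * (c₁ * r ^ d₁ + c₂ * r ^ d₂ + c₃ * (S ^ (δ - 1) * r)) := by linarith
      _ = (2 * c₁ * r ^ (d₁ - 1) + 2 * c₂ * r ^ (d₂ - 1) + 2 * c₃ * S ^ (δ - 1)) * r := by
        rw [← h5 d₁, ← h5 d₂]
        ring
  -- second piece
  have p2 : |∫ r in Ioc b (S / 2), w r / r| ≤ c₁ * (b ^ d₁ / (1 - d₁)) +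
      c₂ * (b ^ d₂ / (1 - d₂)) + c₃ * b * (S / 2) ^ (δ - 1) := by
    have hcst : IntegrableOn (fun _ : ℝ => c₃ * b * (S / 2) ^ (δ - 2)) (Ioc b (S / 2)) :=
      integrableOn_const (by simp)
    have k1 : ∀ (M d : ℝ), d < 1 → IntegrableOn (fun r : ℝ => M * b * r ^ (d - 2))
        (Ioc b (S / 2)) := fun M d hd => (j2 (M * b) d b hb hd).mono_set Ioc_subset_Ioi_self
    have k2 : ∀ (M d : ℝ), 0 ≤ M → d < 1 → ∫ r in Ioc b (S / 2), M * b * r ^ (d - 2) ≤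
        M * (b ^ d / (1 - d)) := by
      intro M d hM hd
      have h6 : ∫ r in Ioi b, M * b * r ^ (d - 2) = M * (b ^ d / (1 - d)) := by
        rw [e4 _ _ _ hb hd, Real.rpow_sub_one hb.ne']
        field_simp
      rw [← h6]
      refine setIntegral_mono_set (j2 (M * b) d b hb hd) ?_
        (LE.le.eventuallyLE Ioc_subset_Ioi_self)
      refine (ae_restrict_iff' measurableSet_Ioi).2 (ae_of_all _ fun r hr => ?_)
      have hr0 : 0 < r := hb.trans hr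
      show 0 ≤ M * b * r ^ (d - 2)
      positivity
    have k3 : ∫ _ in Ioc b (S / 2), c₃ * b * (S / 2) ^ (δ - 2) ≤ c₃ * b * (S / 2) ^ (δ - 1) := by
      have h7 : (S / 2) ^ (δ - 1) = (S / 2) ^ (δ - 2) * (S / 2) := by
        rw [← Real.rpow_add_one hS2.ne']
        congr 1
        ring
      have h8 : 0 < (S / 2) ^ (δ - 2) := Real.rpow_pos_of_pos hS2 _
      rw [setIntegral_const, smul_eq_mul, h7]
      simp only [measureReal_def, Real.volume_Ioc]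
      rw [ENNReal.toReal_ofReal (by linarith)]
      have h9 : 0 ≤ c₃ * b * (S / 2) ^ (δ - 2) := by positivity
      calc (S / 2 - b) * (c₃ * b * (S / 2) ^ (δ - 2)) ≤
            (S / 2) * (c₃ * b * (S / 2) ^ (δ - 2)) :=
            mul_le_mul_of_nonneg_right (by linarith) h9
        _ = _ := by ring
    have hadd : IntegrableOn (fun r : ℝ => c₁ * b * r ^ (d₁ - 2) + c₂ * b * r ^ (d₂ - 2))
        (Ioc b (S / 2)) := (k1 c₁ d₁ hd1').add (k1 c₂ d₂ hd2')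
    have e5 : ∫ r in Ioc b (S / 2), (c₁ * b * r ^ (d₁ - 2) + c₂ * b * r ^ (d₂ - 2) +
        c₃ * b * (S / 2) ^ (δ - 2)) ≤ c₁ * (b ^ d₁ / (1 - d₁)) + c₂ * (b ^ d₂ / (1 - d₂)) +
        c₃ * b * (S / 2) ^ (δ - 1) := by
      rw [integral_add hadd hcst,
        integral_add (k1 c₁ d₁ hd1') (k1 c₂ d₂ hd2')]
      exact add_le_add (add_le_add (k2 c₁ d₁ hc1 hd1') (k2 c₂ d₂ hc2 hd2')) k3
    refine le_trans ?_ e5
    rw [← Real.norm_eq_abs]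
    refine norm_integral_le_of_norm_le (hadd.add hcst) ?_
    refine (ae_restrict_iff' measurableSet_Ioc).2 (ae_of_all _ fun r hr => ?_)
    have hr0 : 0 < r := hb.trans hr.1
    rw [Real.norm_eq_abs, abs_div, abs_of_pos hr0, div_le_iff₀ hr0]
    have h5 : ∀ d : ℝ, r ^ (d - 2) * r = r⁻¹ * r ^ d := fun d => by
      rw [← Real.rpow_add_one hr0.ne', ← Real.rpow_neg_one r, ← Real.rpow_add hr0]
      congr 1
      ring
    have h6 : r⁻¹ * (r ^ (δ + 2) * (S / 2) ^ (-2 : ℝ)) ≤ (S / 2) ^ (δ - 2) * r := by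
      have h7 : r⁻¹ * r ^ (δ + 2) = r ^ δ * r := by
        rw [← Real.rpow_neg_one r, ← Real.rpow_add hr0, ← Real.rpow_add_one hr0.ne']
        congr 1
        ring
      have h8 : r ^ δ ≤ (S / 2) ^ δ := Real.rpow_le_rpow hr0.le hr.2 hδ
      have h9 : (S / 2) ^ (δ - 2) = (S / 2) ^ δ * (S / 2) ^ (-2 : ℝ) := by
        rw [← Real.rpow_add hS2]
        congr 1
      have h10 : 0 < (S / 2) ^ (-2 : ℝ) := Real.rpow_pos_of_pos hS2 _
      rw [← mul_assoc, h7, h9]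
      calc r ^ δ * r * (S / 2) ^ (-2 : ℝ) = r ^ δ * (r * (S / 2) ^ (-2 : ℝ)) := by ring
        _ ≤ (S / 2) ^ δ * (r * (S / 2) ^ (-2 : ℝ)) :=
            mul_le_mul_of_nonneg_right h8 (by positivity)
        _ = _ := by ring
    have h11 := h2 r hr.1 hr.2
    have h12 := mul_le_mul_of_nonneg_left h6 (mul_nonneg hc3 hb.le)
    calc |w r| ≤ b * r⁻¹ * (c₁ * r ^ d₁ + c₂ * r ^ d₂ +
          c₃ * r ^ (δ + 2) * (S / 2) ^ (-2 : ℝ)) := h11
      _ = c₁ * b * (r⁻¹ * r ^ d₁) + c₂ * b * (r⁻¹ * r ^ d₂) +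
          c₃ * b * (r⁻¹ * (r ^ (δ + 2) * (S / 2) ^ (-2 : ℝ))) := by ring
      _ ≤ c₁ * b * (r⁻¹ * r ^ d₁) + c₂ * b * (r⁻¹ * r ^ d₂) +
          c₃ * b * ((S / 2) ^ (δ - 2) * r) := by linarith
      _ = (c₁ * b * r ^ (d₁ - 2) + c₂ * b * r ^ (d₂ - 2) + c₃ * b * (S / 2) ^ (δ - 2)) * r := by
        rw [← h5 d₁, ← h5 d₂]
        ring
  -- third piece
  have p3 : |∫ r in Ioi (S / 2), w r / r| ≤ c₄ * b * ((S / 2) ^ (δ - 1) / (1 - δ)) := by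
    rw [← e4 _ _ _ hS2 hδ', ← Real.norm_eq_abs]
    refine norm_integral_le_of_norm_le (j2 (c₄ * b) δ (S / 2) hS2 hδ') ?_
    refine (ae_restrict_iff' measurableSet_Ioi).2 (ae_of_all _ fun r hr => ?_)
    have hr0 : 0 < r := hS2.trans hr
    rw [Real.norm_eq_abs, abs_div, abs_of_pos hr0, div_le_iff₀ hr0]
    have h5 : r ^ (δ - 2) * r = r ^ (δ - 1) := by
      rw [← Real.rpow_add_one hr0.ne']
      congr 1
      ring
    rw [mul_assoc, h5]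
    exact h3 r hr
  have hδ1 : 0 < 1 - δ := by linarith
  have q1 : c₃ * b * (S / 2) ^ (δ - 1) ≤ c₃ * b * (2 * S ^ (δ - 1)) :=
    mul_le_mul_of_nonneg_left hSS (by positivity)
  have q2 : c₄ * b * ((S / 2) ^ (δ - 1) / (1 - δ)) ≤ c₄ * b * (2 * S ^ (δ - 1) / (1 - δ)) :=
    mul_le_mul_of_nonneg_left (div_le_div_of_nonneg_right hSS hδ1.le) (by positivity)
  have q3 := abs_add_le (∫ r in Ioc 0 b, w r / r)
    ((∫ r in Ioc b (S / 2), w r / r) + ∫ r in Ioi (S / 2), w r / r)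
  have q4 := abs_add_le (∫ r in Ioc b (S / 2), w r / r) (∫ r in Ioi (S / 2), w r / r)
  have q5 : (2 / d₁ + 1 / (1 - d₁)) * c₁ * b ^ d₁ +
      (2 / d₂ + 1 / (1 - d₂)) * c₂ * b ^ d₂ + (4 * c₃ + 2 * c₄ / (1 - δ)) * b * S ^ (δ - 1) =
      (2 * c₁ * (b ^ d₁ / d₁) + 2 * c₂ * (b ^ d₂ / d₂) + 2 * c₃ * S ^ (δ - 1) * b) +
      (c₁ * (b ^ d₁ / (1 - d₁)) + c₂ * (b ^ d₂ / (1 - d₂)) + c₃ * b * (2 * S ^ (δ - 1))) +
      c₄ * b * (2 * S ^ (δ - 1) / (1 - δ)) := by ring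
  rw [q5]
  linarith

/-- the constant -/
noncomputable def Cv (C₀ CE : ℝ → ℝ) (d : ℝ) : ℝ :=
  √(2 / Real.pi) * ((2 / |d| + 1 / |1 - d|) * C₀ d + (4 * C₀ d + 2 * CE d / |1 - d|)) + 1

end VE8Aux

open VE8Aux in
theorem ve8 (hD : Stmt_DER) (hGB : Stmt_GB) (hEB : Stmt_EB) (hVA : Stmt_VA8) (hVD : Stmt_VD8) :
    Stmt_VE8 := by
  obtain ⟨C₀, hC₀, hVA⟩ := hVA
  have hCE : ∀ d : ℝ, ∃ C, 0 < C ∧ (0 ≤ d → d < 1 → ∀ (f : P2 → ℝ) (φ : P2 → ℂ) (M : ℝ),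
      NF f φ → 0 ≤ M → H1 f M d → ∀ r : ℝ, 0 < r → ∀ x h : P2,
        |B1 r f (x + h) - B1 r f x| ≤ C * M * (|h.1| + |h.2|) * r ^ (d - 1)) := by
    intro d
    by_cases hd : 0 ≤ d ∧ d < 1
    · obtain ⟨C, hC, h⟩ := hEB d hd.1 hd.2
      exact ⟨C, hC, fun _ _ f φ M hf hM hH r hr x k => ((h f φ M hf hM).1 hH r hr x k).2⟩
    · exact ⟨1, one_pos, fun h1 h2 => absurd ⟨h1, h2⟩ hd⟩
  choose CE hCE0 hCE using hCE
  have hK : 0 < √(2 / Real.pi) := Real.sqrt_pos.2 (by positivity)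
  refine ⟨Cv C₀ CE, fun d => ?_, ?_⟩
  · unfold Cv
    have h1 := hC₀ d
    have h2 := hCE0 d
    positivity
  intro f φ hf A δ A₁ δ₁ A₂ δ₂ b S x hδ hδ' hδ1 hδ1' hδ2 hδ2' hA hA1 hA2 hH hb hbS hJ hJ'
  have hS : 0 < S := by linarith
  have hfc : Continuous f := (hD f φ hf).1
  have hmono : ∀ s r d : ℝ, 0 < s → 0 ≤ r → 0 < d → s ^ (2 + d) ≤ (s + r) ^ (2 + d) := by
    intro s r d hs hr hd
    exact Real.rpow_le_rpow hs.le (by linarith) (by linarith)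
  set x' : P2 := (x.1, x.2 + b) with hx'
  set w : ℝ → ℝ := fun r => B1 r f x' - B1 r f x with hwdef
  have i1 := (hGB f φ hf x').2.1
  have i2 := (hGB f φ hf x).2.1
  have hw : IntegrableOn (fun r => w r / r) (Ioi 0) := by
    have := i1.sub i2
    refine this.congr (ae_of_all _ fun r => ?_)
    simp only [hwdef, Pi.sub_apply]
    ring
  -- small r
  have hVx : ∀ (p : P2), (∀ s, 0 < s → s ≤ S → J8 f p s ≤ A₁ * s ^ (2 + δ₁) + A₂ * s ^ (2 + δ₂)) →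
      ∀ r, 0 < r → |B1 r f p| ≤
        C₀ δ₁ * A₁ * r ^ δ₁ + C₀ δ₂ * A₂ * r ^ δ₂ + C₀ δ * A * r ^ (δ + 2) * S ^ (-2 : ℝ) := by
    intro p hp r hr
    refine (hVA f φ hf A δ A₁ δ₁ A₂ δ₂ r S p hδ hδ' hδ1 hδ1' hδ2 hδ2' hA hA1 hA2 hH hr hS
      fun s hs hsS => ?_).1
    exact (hp s hs hsS).trans (add_le_add
      (mul_le_mul_of_nonneg_left (hmono s r δ₁ hs hr.le hδ1) hA1)
      (mul_le_mul_of_nonneg_left (hmono s r δ₂ hs hr.le hδ2) hA2))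
  have h1 : ∀ r, 0 < r → r ≤ b → |w r| ≤ 2 * (C₀ δ₁ * A₁ * r ^ δ₁ + C₀ δ₂ * A₂ * r ^ δ₂ +
      C₀ δ * A * r ^ (δ + 2) * S ^ (-2 : ℝ)) := by
    intro r hr _
    have a1 := hVx x' hJ' r hr
    have a2 := hVx x hJ r hr
    have a3 : |w r| ≤ |B1 r f x'| + |B1 r f x| := abs_sub _ _
    linarith
  -- middle r
  have h2 : ∀ r, b < r → r ≤ S / 2 → |w r| ≤ b * r⁻¹ * (C₀ δ₁ * A₁ * r ^ δ₁ +
      C₀ δ₂ * A₂ * r ^ δ₂ + C₀ δ * A * r ^ (δ + 2) * (S / 2) ^ (-2 : ℝ)) := by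
    intro r hbr _
    have hr : 0 < r := hb.trans hbr
    obtain ⟨τ, ⟨hτ0, hτb⟩, hτ⟩ := exists_hasDerivAt_eq_slope
      (fun τ : ℝ => B1 r f (x.1, x.2 + τ))
      (fun τ => r⁻¹ * ∫ z : P2, z.1 * z.2 * f (x.1 + r * z.1, x.2 + τ + r * z.2) ∂gm) hb
      (fun τ _ => (hVD f φ hf r τ x hr).continuousAt.continuousWithinAt)
      (fun τ _ => hVD f φ hf r τ x hr)
    have e1 : w r = b * r⁻¹ *
        ∫ z : P2, z.1 * z.2 * f (x.1 + r * z.1, x.2 + τ + r * z.2) ∂gm := by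
      have e2 : B1 r f (x.1, x.2 + b) - B1 r f (x.1, x.2 + 0) = (r⁻¹ *
          ∫ z : P2, z.1 * z.2 * f (x.1 + r * z.1, x.2 + τ + r * z.2) ∂gm) * b := by
        have h3 : b ≠ 0 := hb.ne'
        rw [hτ]
        field_simp
        ring
      simp only [hwdef, hx']
      rw [add_zero] at e2
      rw [show ((x.1, x.2) : P2) = x from rfl] at e2
      rw [e2]
      ring
    have hVp := (hVA f φ hf A δ A₁ δ₁ A₂ δ₂ r (S / 2) (x.1, x.2 + τ) hδ hδ' hδ1 hδ1' hδ2 hδ2' hA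
      hA1 hA2 hH hr (by linarith) fun s hs hsS => by
        refine (shift hfc x hτ0.le).trans ((hJ (s + τ) (by linarith) (by linarith)).trans ?_)
        have m : ∀ d : ℝ, 0 < d → (s + τ) ^ (2 + d) ≤ (s + r) ^ (2 + d) := fun d hd =>
          Real.rpow_le_rpow (by linarith) (by linarith) (by linarith)
        exact add_le_add (mul_le_mul_of_nonneg_left (m δ₁ hδ1) hA1)
          (mul_le_mul_of_nonneg_left (m δ₂ hδ2) hA2)).2
    have hpos : 0 < b * r⁻¹ := by positivity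
    rw [e1, abs_mul, abs_of_pos hpos]
    exact mul_le_mul_of_nonneg_left hVp hpos.le
  -- large r
  have h3 : ∀ r, S / 2 < r → |w r| ≤ CE δ * A * b * r ^ (δ - 1) := by
    intro r hr
    have h4 := hCE δ hδ hδ' f φ A hf hA hH r (by linarith) x (0, b)
    have e5 : x + (0, b) = x' := by
      rw [hx']
      ext <;> simp
    rw [e5] at h4
    simpa [abs_of_pos hb] using h4
  have hk := key hδ1 hδ1' hδ2 hδ2' hδ hδ' (mul_nonneg (hC₀ δ₁).le hA1)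
    (mul_nonneg (hC₀ δ₂).le hA2) (mul_nonneg (hC₀ δ).le hA) (mul_nonneg (hCE0 δ).le hA) hb hbS
    hw h1 h2 h3
  rw [(hGB f φ hf x').2.2.2, (hGB f φ hf x).2.2.2, ← Complex.ofReal_sub,
    Complex.norm_real, Real.norm_eq_abs]
  have e6 : (∫ r in Ioi (0 : ℝ), B1 r f x' / r) - ∫ r in Ioi (0 : ℝ), B1 r f x / r =
      ∫ r in Ioi (0 : ℝ), w r / r := by
    rw [← integral_sub i1 i2]
    congr 1
    funext r
    simp only [hwdef]
    ring
  rw [show -(√(2 / Real.pi) * ∫ r in Ioi (0 : ℝ), B1 r f x' / r) -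
    -(√(2 / Real.pi) * ∫ r in Ioi (0 : ℝ), B1 r f x / r) =
    -(√(2 / Real.pi) * ((∫ r in Ioi (0 : ℝ), B1 r f x' / r) -
      ∫ r in Ioi (0 : ℝ), B1 r f x / r)) by ring, abs_neg, abs_mul, abs_of_pos hK, e6]
  refine (mul_le_mul_of_nonneg_left hk hK.le).trans ?_
  -- comparison of the constants
  have hCv1 : ∀ d, 0 < d → d < 1 → √(2 / Real.pi) * ((2 / d + 1 / (1 - d)) * C₀ d) ≤
      Cv C₀ CE d := by
    intro d hd hd'
    have h5 : 0 < 1 - d := by linarith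
    have h6 := hC₀ d
    have h7 := hCE0 d
    unfold Cv
    rw [abs_of_pos hd, abs_of_pos h5]
    have h8 : 0 ≤ √(2 / Real.pi) * (4 * C₀ d + 2 * CE d / (1 - d)) := by positivity
    linarith [mul_add (√(2 / Real.pi)) ((2 / d + 1 / (1 - d)) * C₀ d)
      (4 * C₀ d + 2 * CE d / (1 - d))]
  have hCv2 : √(2 / Real.pi) * (4 * C₀ δ + 2 * CE δ / (1 - δ)) ≤ Cv C₀ CE δ := by
    have h5 : 0 < 1 - δ := by linarith
    have h6 := hC₀ δ
    have h7 := hCE0 δ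
    unfold Cv
    rw [abs_of_pos h5]
    have h8 : 0 ≤ √(2 / Real.pi) * ((2 / |δ| + 1 / (1 - δ)) * C₀ δ) := by positivity
    linarith [mul_add (√(2 / Real.pi)) ((2 / |δ| + 1 / (1 - δ)) * C₀ δ)
      (4 * C₀ δ + 2 * CE δ / (1 - δ))]
  have b1 : 0 < b ^ δ₁ := Real.rpow_pos_of_pos hb _
  have b2 : 0 < b ^ δ₂ := Real.rpow_pos_of_pos hb _
  have b3 : 0 < S ^ (δ - 1) := Real.rpow_pos_of_pos hS _
  have r1 := mul_le_mul_of_nonneg_right (hCv1 δ₁ hδ1 hδ1') (by positivity : 0 ≤ A₁ * b ^ δ₁)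
  have r2 := mul_le_mul_of_nonneg_right (hCv1 δ₂ hδ2 hδ2') (by positivity : 0 ≤ A₂ * b ^ δ₂)
  have r3 := mul_le_mul_of_nonneg_right hCv2 (by positivity : 0 ≤ A * b * S ^ (δ - 1))
  have e7 : √(2 / Real.pi) * ((2 / δ₁ + 1 / (1 - δ₁)) * (C₀ δ₁ * A₁) * b ^ δ₁ +
      (2 / δ₂ + 1 / (1 - δ₂)) * (C₀ δ₂ * A₂) * b ^ δ₂ +
      (4 * (C₀ δ * A) + 2 * (CE δ * A) / (1 - δ)) * b * S ^ (δ - 1)) =
      √(2 / Real.pi) * ((2 / δ₁ + 1 / (1 - δ₁)) * C₀ δ₁) * (A₁ * b ^ δ₁) +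
      √(2 / Real.pi) * ((2 / δ₂ + 1 / (1 - δ₂)) * C₀ δ₂) * (A₂ * b ^ δ₂) +
      √(2 / Real.pi) * (4 * C₀ δ + 2 * CE δ / (1 - δ)) * (A * b * S ^ (δ - 1)) := by ring
  rw [e7]
  refine (add_le_add (add_le_add r1 r2) r3).trans (le_of_eq ?_)
  ring

end Pool.Agent.SQG
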