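import Pool.Agent.SQG.Stmts7

/-!
# AL7: a touching point for the isotropic modulus is nearly vertical
-/

set_option autoImplicit false

namespace Pool.Agent.SQG

namespace AL7Aux

/-- the slope bound `ξ^{1+γ} - η^{1+γ} ≤ 2 (ξ - η)` for `0 ≤ η ≤ ξ ≤ 1`, `0 < γ < 1` -/
theorem pow_diff {γ η ξ : ℝ} (hγ : 0 < γ) (hγ1 : γ < 1) (h0 : 0 ≤ η) (h1 : η ≤ ξ) (h2 : ξ ≤ 1) :
    ξ ^ (1 + γ) - η ^ (1 + γ) ≤ 2 * (ξ - η) := by
  rcases eq_or_lt_of_le (le_trans h0 h1) with hξ | hξ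
  · have : η = 0 := by linarith
    rw [← hξ, this]; simp
  -- Bernoulli: `(η/ξ)^{1+γ} ≥ 1 - (1+γ)(1 - η/ξ)`
  have hB := one_add_mul_self_le_rpow_one_add (s := η / ξ - 1)
    (by have := div_nonneg h0 hξ.le; linarith) (p := 1 + γ) (by linarith)
  have e1 : 1 + (η / ξ - 1) = η / ξ := by ring
  rw [e1, Real.div_rpow h0 hξ.le, le_div_iff₀ (Real.rpow_pos_of_pos hξ _)] at hB
  have hξp : 0 < ξ ^ (1 + γ) := Real.rpow_pos_of_pos hξ _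
  have hξle : ξ ^ (1 + γ) ≤ ξ := by
    have := Real.rpow_le_rpow_of_exponent_ge hξ h2 (show (1 : ℝ) ≤ 1 + γ by linarith)
    simpa using this
  have e2 : (1 + (1 + γ) * (η / ξ - 1)) * ξ ^ (1 + γ) =
      ξ ^ (1 + γ) - (1 + γ) * ((ξ - η) * (ξ ^ (1 + γ) / ξ)) := by
    field_simp; ring
  rw [e2] at hB
  have hq : ξ ^ (1 + γ) / ξ ≤ 1 := by rw [div_le_one hξ]; exact hξle
  have hq0 : 0 ≤ ξ ^ (1 + γ) / ξ := by positivity
  have : (1 + γ) * ((ξ - η) * (ξ ^ (1 + γ) / ξ)) ≤ 2 * (ξ - η) := by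
    have a1 : (ξ - η) * (ξ ^ (1 + γ) / ξ) ≤ (ξ - η) * 1 :=
      mul_le_mul_of_nonneg_left hq (by linarith)
    have a0 : 0 ≤ (ξ - η) * (ξ ^ (1 + γ) / ξ) := mul_nonneg (by linarith) hq0
    nlinarith
  linarith

/-- `W7 ξ - W7 η ≥ (ξ - η)/2` for `0 ≤ η ≤ ξ ≤ 1` -/
theorem w7_diff {γ η ξ : ℝ} (hγ : 0 < γ) (hγ1 : γ < 1) (h0 : 0 ≤ η) (h1 : η ≤ ξ) (h2 : ξ ≤ 1) :
    (ξ - η) / 2 ≤ W7 γ ξ - W7 γ η := by
  have := pow_diff hγ hγ1 h0 h1 h2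
  unfold W7
  rw [if_pos h2, if_pos (h1.trans h2)]
  linarith

end AL7Aux

open AL7Aux in
theorem al7 : Stmt_AL7 := by
  intro f E D lam γ x h hE hD hlam hγ hγ1 hM hn hn2 hf
  obtain ⟨hM1, hM2⟩ := hM
  set r := nm h with hr
  have hlam0 : 0 < lam := by linarith
  have hr2 : r ^ 2 = h.1 ^ 2 + h.2 ^ 2 := by
    rw [hr, nm, Real.sq_sqrt (by positivity)]
  have ha2 : |h.2| ≤ r := by
    rw [← Real.sqrt_sq_eq_abs]
    exact Real.sqrt_le_sqrt (by nlinarith [sq_nonneg h.1])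
  have ha1 : |h.1| ≤ r := by
    rw [← Real.sqrt_sq_eq_abs]
    exact Real.sqrt_le_sqrt (by nlinarith [sq_nonneg h.2])
  have hnm2 : nm ((0 : ℝ), h.2) = |h.2| := by
    simp [nm, Real.sqrt_sq_eq_abs]
  have k1 := hM1 (x.1, x.2 + h.2) h.1
  have k2 := hM2 x (0, h.2)
  rw [hnm2] at k2
  have e1 : ((x.1, x.2 + h.2) : P2).1 + h.1 = (x + h).1 := rfl
  have e2 : ((x.1, x.2 + h.2) : P2).2 = (x + h).2 := rfl
  rw [e1, e2, Prod.mk.eta] at k1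
  have e3 : x + ((0 : ℝ), h.2) = (x.1, x.2 + h.2) := by
    ext <;> simp
  rw [e3] at k2
  have hξ1 : r / lam ≤ 1 := by
    rw [div_le_one hlam0]; linarith
  have hη : |h.2| / lam ≤ r / lam := by
    exact div_le_div_of_nonneg_right ha2 hlam0.le
  have hw := w7_diff hγ hγ1 (div_nonneg (abs_nonneg h.2) hlam0.le) hη hξ1
  have k1' := (abs_le.1 k1).2
  have k2' := (abs_le.1 k2).2
  have hpow : |h.1| ^ (1 / 2 : ℝ) ≤ r ^ (1 / 2 : ℝ) :=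
    Real.rpow_le_rpow (abs_nonneg _) ha1 (by norm_num)
  -- `D (r - |h₂|)/(2λ) ≤ E r^{1/2}`
  have hmain : D * ((r / lam - |h.2| / lam) / 2) ≤ E * r ^ (1 / 2 : ℝ) := by
    have s1 : D * ((r / lam - |h.2| / lam) / 2) ≤ D * (W7 γ (r / lam) - W7 γ (|h.2| / lam)) :=
      mul_le_mul_of_nonneg_left hw hD.le
    have s2 : E * |h.1| ^ (1 / 2 : ℝ) ≤ E * r ^ (1 / 2 : ℝ) := mul_le_mul_of_nonneg_left hpow hE
    nlinarith
  -- `h₁² ≤ 2 r (r - |h₂|)`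
  have hsq : h.1 ^ 2 ≤ 2 * r * (r - |h.2|) := by
    have : h.2 ^ 2 = |h.2| ^ 2 := (sq_abs _).symm
    nlinarith [abs_nonneg h.2]
  have hm' : D * (r - |h.2|) ≤ 2 * lam * (E * r ^ (1 / 2 : ℝ)) := by
    have : D * ((r / lam - |h.2| / lam) / 2) = D * (r - |h.2|) / (2 * lam) := by
      field_simp
    rw [this, div_le_iff₀ (by positivity)] at hmain
    linarith
  have hrr : r ^ (1 / 2 : ℝ) = r * r ^ (-(1 / 2) : ℝ) := by
    have := Real.rpow_add hn 1 (-(1 / 2))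
    rw [Real.rpow_one] at this
    rw [← this]; norm_num
  rw [div_pow, le_div_iff₀ hD, div_mul_eq_mul_div, div_le_iff₀ (by positivity)]
  rw [hrr] at hm'
  calc h.1 ^ 2 * D ≤ 2 * r * (r - |h.2|) * D := mul_le_mul_of_nonneg_right hsq hD.le
    _ = 2 * r * (D * (r - |h.2|)) := by ring
    _ ≤ 2 * r * (2 * lam * (E * (r * r ^ (-(1 / 2) : ℝ)))) :=
        mul_le_mul_of_nonneg_left hm' (by positivity)
    _ = 4 * lam * E * r ^ (-(1 / 2) : ℝ) * r ^ 2 := by ring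

end Pool.Agent.SQG
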