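import Pool.Agent.SQG.Stmts7
import Pool.Agent.SQG.Foc

/-!
# SQG, module FD7: the equation at a touching point for the modulus (D)
-/

set_option autoImplicit false

namespace Pool.Agent.SQG

open Complex MeasureTheory Set Filter Topology ProbabilityTheory

namespace FD7Aux

theorem W7_le {γ ξ : ℝ} (h0 : 0 ≤ ξ) : W7 γ ξ ≤ ξ := by
  unfold W7
  split_ifs with h
  · have h1 : 0 ≤ ξ ^ (1 + γ) := Real.rpow_nonneg h0 _
    linarith
  · push Not at h
    linarith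

theorem nm_snd (z : ℝ) : nm ((0, z) : P2) = |z| := by
  unfold nm
  simp only
  rw [show (0 : ℝ) ^ 2 + z ^ 2 = z ^ 2 by ring, Real.sqrt_sq_eq_abs]

end FD7Aux

theorem fd7 (hR : Stmt_REG) (hD : Stmt_DER) : Stmt_FD7 := by
  intro α κ T θ φ hS D γ t₀ t E' E lam x a ht0 htt htT hDpos hγ hγ1 hE hlam hE' ha hle heq
  have htI : t ∈ Ioo 0 T := ⟨ht0.trans htt, htT⟩
  have hNF : NF (θ t) (φ t) := (hR α κ T θ φ hS).1 t htI
  obtain ⟨-, -, hder⟩ := hD (θ t) (φ t) hNF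
  set h : P2 := (a, 0) with hh
  have hxh : ((x.1 + a, x.2) : P2) = x + h := by
    rw [hh]
    ext <;> simp
  have hadd : ∀ y : P2, ((y.1 + a, y.2) : P2) = y + h := by
    intro y
    rw [hh]
    ext <;> simp
  rw [hxh] at heq ⊢
  -- the gradient
  set p1 : P2 → ℝ := fun y => (IF (D1 (φ t)) y).re with hp1
  set p2 : P2 → ℝ := fun y => (IF (D2 (φ t)) y).re with hp2
  have hfd : ∀ y, HasFDerivAt (θ t) (p1 y • ContinuousLinearMap.fst ℝ ℝ ℝ +
      p2 y • ContinuousLinearMap.snd ℝ ℝ ℝ) y := fun y => (hder y).2.2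
  have hD1 : ∀ y, IF (D1 (φ t)) y = ((p1 y : ℝ) : ℂ) := fun y => (hder y).1
  have hD2 : ∀ y, IF (D2 (φ t)) y = ((p2 y : ℝ) : ℂ) := fun y => (hder y).2.1
  -- (1) time derivative
  have htime : ∀ y, HasDerivAt (fun s => θ s y)
      ((-(IF (V1 (φ t)) y * IF (D1 (φ t)) y + IF (V2 (φ t)) y * IF (D2 (φ t)) y) -
      κ * IF (LL α (φ t)) y).re) t := by
    intro y
    have h1 := hS.eqn t htI y
    have h2 := Complex.reCLM.hasFDerivAt.comp_hasDerivAt t h1
    simpa [Function.comp_def] using h2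
  have hT := ((htime (x + h)).sub (htime x)).sub (hE'.mul_const (|a| ^ (1 / 2 : ℝ)))
  have hnonneg := FOCAux.deriv_nonneg_left htt hT (by
    intro s hs
    have h1 := (hle s hs).1 x a
    rw [hadd] at h1
    have h2 := (abs_le.1 h1).2
    simp only [Pi.sub_apply]
    rw [heq]
    linarith)
  -- (2) the gradients agree
  have hmax2 : IsLocalMax (fun y => θ t (y + h) - θ t y) x := by
    refine Filter.Eventually.of_forall fun y => ?_
    show θ t (y + h) - θ t y ≤ θ t (x + h) - θ t x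
    rw [heq, ← hadd]
    exact (abs_le.1 ((hle t ⟨htt.le, le_rfl⟩).1 y a)).2
  have hfd2 : HasFDerivAt (fun y => θ t (y + h) - θ t y)
      ((p1 (x + h) • ContinuousLinearMap.fst ℝ ℝ ℝ + p2 (x + h) • ContinuousLinearMap.snd ℝ ℝ ℝ) -
        (p1 x • ContinuousLinearMap.fst ℝ ℝ ℝ + p2 x • ContinuousLinearMap.snd ℝ ℝ ℝ)) x := by
    have h1 : HasFDerivAt (fun y => θ t (y + h))
        (p1 (x + h) • ContinuousLinearMap.fst ℝ ℝ ℝ + p2 (x + h) • ContinuousLinearMap.snd ℝ ℝ ℝ) x :=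
      (hasFDerivAt_comp_add_right h).2 (hfd (x + h))
    exact h1.sub (hfd x)
  have hz := hmax2.hasFDerivAt_eq_zero hfd2
  have e1 : p1 (x + h) = p1 x := by
    have := congrArg (fun L : P2 →L[ℝ] ℝ => L (1, 0)) hz
    simp at this
    linarith
  have e2 : p2 (x + h) = p2 x := by
    have := congrArg (fun L : P2 →L[ℝ] ℝ => L (0, 1)) hz
    simp at this
    linarith
  have hApos : 0 < |a| := abs_pos.2 ha
  -- (3) the first component
  have hx1 : |p1 (x + h)| ≤ E t * |a| ^ (-(1 / 2) : ℝ) := by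
    have hm : IsLocalMax (fun z : ℝ => θ t (x.1 + z, x.2) - E t * |z| ^ (1 / 2 : ℝ)) a := by
      refine Filter.Eventually.of_forall fun z => ?_
      show θ t (x.1 + z, x.2) - E t * |z| ^ (1 / 2 : ℝ) ≤
        θ t (x.1 + a, x.2) - E t * |a| ^ (1 / 2 : ℝ)
      have h1 := (abs_le.1 ((hle t ⟨htt.le, le_rfl⟩).1 x z)).2
      rw [hadd x]
      linarith [heq]
    have hl : HasDerivAt (fun z : ℝ => ((x.1 + z, x.2) : P2)) ((1, 0) : P2) a := by
      have h1 : HasDerivAt (fun z : ℝ => x.1 + z) 1 a := (hasDerivAt_id a).const_add x.1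
      exact h1.prodMk (hasDerivAt_const a x.2)
    have hfx : HasFDerivAt (θ t) (p1 (x + h) • ContinuousLinearMap.fst ℝ ℝ ℝ +
        p2 (x + h) • ContinuousLinearMap.snd ℝ ℝ ℝ) ((x.1 + a, x.2) : P2) := by
      rw [hadd x]; exact hfd (x + h)
    have hd1 := hfx.comp_hasDerivAt_of_eq a hl rfl
    obtain ⟨σ, hσ, hdσ⟩ := FOCAux.hasDerivAt_abs_rpow ha (1 / 2 : ℝ)
    have hd2 := hdσ.const_mul (E t)
    have h5 := hm.hasDerivAt_eq_zero (hd1.sub hd2)
    simp at h5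
    have h6 : p1 (x + h) = E t * (σ * (1 / 2 * |a| ^ (1 / 2 - 1 : ℝ))) := by
      have : ((2 : ℝ)⁻¹) = 1 / 2 := by norm_num
      rw [this] at h5
      linarith
    have h7 : (1 / 2 - 1 : ℝ) = -(1 / 2) := by norm_num
    rw [h7] at h6
    have hP : 0 ≤ |a| ^ (-(1 / 2) : ℝ) := Real.rpow_nonneg (abs_nonneg _) _
    rw [h6, abs_mul, abs_of_nonneg hE, abs_mul, hσ, one_mul, abs_mul,
      abs_of_nonneg (by norm_num : (0 : ℝ) ≤ 1 / 2), abs_of_nonneg hP]
    refine mul_le_mul_of_nonneg_left ?_ hE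
    linarith
  -- (4) the second component
  have hx2 : |p2 (x + h)| ≤ D := by
    rw [e2]
    have hl : HasDerivAt (fun z : ℝ => x + ((0, z) : P2)) ((0, 1) : P2) 0 := by
      have h1 : HasDerivAt (fun z : ℝ => ((0, z) : P2)) ((0, 1) : P2) 0 :=
        (hasDerivAt_const (0 : ℝ) (0 : ℝ)).prodMk (hasDerivAt_id (0 : ℝ))
      exact h1.const_add x
    have hfx : HasFDerivAt (θ t) (p1 x • ContinuousLinearMap.fst ℝ ℝ ℝ +
        p2 x • ContinuousLinearMap.snd ℝ ℝ ℝ) (x + ((0, 0) : P2)) := by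
      have : x + ((0, 0) : P2) = x := by ext <;> simp
      rw [this]; exact hfd x
    have hd1 := hfx.comp_hasDerivAt_of_eq (0 : ℝ) hl rfl
    have hd2 : HasDerivAt (θ t ∘ fun z : ℝ => x + ((0, z) : P2)) (p2 x) 0 := by
      simpa using hd1
    have h8 := hd2.le_of_lip' hDpos.le (by
      refine Filter.Eventually.of_forall fun z => ?_
      have h1 := (hle t ⟨htt.le, le_rfl⟩).2 x ((0, z) : P2)
      have h2 : W7 γ (nm ((0, z) : P2) / lam t) ≤ |z| := by
        rw [FD7Aux.nm_snd]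
        refine (FD7Aux.W7_le (by positivity)).trans ?_
        exact div_le_self (abs_nonneg _) hlam
      have h3 : x + ((0, 0) : P2) = x := by ext <;> simp
      simp only [Function.comp, sub_zero, Real.norm_eq_abs]
      rw [h3]
      exact h1.trans (mul_le_mul_of_nonneg_left h2 hDpos.le))
    rwa [Real.norm_eq_abs] at h8
  -- (5) combine
  have e1' : IF (D1 (φ t)) (x + h) = ((p1 (x + h) : ℝ) : ℂ) := hD1 _
  have e2' : IF (D2 (φ t)) (x + h) = ((p2 (x + h) : ℝ) : ℂ) := hD2 _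
  have e1'' : IF (D1 (φ t)) x = ((p1 (x + h) : ℝ) : ℂ) := by rw [e1]; exact hD1 x
  have e2'' : IF (D2 (φ t)) x = ((p2 (x + h) : ℝ) : ℂ) := by rw [e2]; exact hD2 x
  rw [e1', e2', e1'', e2''] at hnonneg
  simp only [Complex.sub_re, Complex.neg_re, Complex.add_re, Complex.mul_re, Complex.ofReal_re,
    Complex.ofReal_im, mul_zero, sub_zero, zero_mul] at hnonneg
  simp only [Complex.sub_re]
  have n1 : |(IF (V1 (φ t)) (x + h)).re - (IF (V1 (φ t)) x).re| ≤
      ‖IF (V1 (φ t)) (x + h) - IF (V1 (φ t)) x‖ := by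
    rw [← Complex.sub_re]; exact Complex.abs_re_le_norm _
  have n2 : |(IF (V2 (φ t)) (x + h)).re - (IF (V2 (φ t)) x).re| ≤
      ‖IF (V2 (φ t)) (x + h) - IF (V2 (φ t)) x‖ := by
    rw [← Complex.sub_re]; exact Complex.abs_re_le_norm _
  have b1 : -(((IF (V1 (φ t)) (x + h)).re - (IF (V1 (φ t)) x).re) * p1 (x + h)) ≤
      ‖IF (V1 (φ t)) (x + h) - IF (V1 (φ t)) x‖ * (E t * |a| ^ (-(1 / 2) : ℝ)) := by
    calc -(((IF (V1 (φ t)) (x + h)).re - (IF (V1 (φ t)) x).re) * p1 (x + h))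
        ≤ |((IF (V1 (φ t)) (x + h)).re - (IF (V1 (φ t)) x).re) * p1 (x + h)| := neg_le_abs _
      _ = |(IF (V1 (φ t)) (x + h)).re - (IF (V1 (φ t)) x).re| * |p1 (x + h)| := abs_mul _ _
      _ ≤ ‖IF (V1 (φ t)) (x + h) - IF (V1 (φ t)) x‖ * |p1 (x + h)| :=
          mul_le_mul_of_nonneg_right n1 (abs_nonneg _)
      _ ≤ _ := mul_le_mul_of_nonneg_left hx1 (norm_nonneg _)
  have b2 : -(((IF (V2 (φ t)) (x + h)).re - (IF (V2 (φ t)) x).re) * p2 (x + h)) ≤
      ‖IF (V2 (φ t)) (x + h) - IF (V2 (φ t)) x‖ * D := by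
    calc -(((IF (V2 (φ t)) (x + h)).re - (IF (V2 (φ t)) x).re) * p2 (x + h))
        ≤ |((IF (V2 (φ t)) (x + h)).re - (IF (V2 (φ t)) x).re) * p2 (x + h)| := neg_le_abs _
      _ = |(IF (V2 (φ t)) (x + h)).re - (IF (V2 (φ t)) x).re| * |p2 (x + h)| := abs_mul _ _
      _ ≤ ‖IF (V2 (φ t)) (x + h) - IF (V2 (φ t)) x‖ * |p2 (x + h)| :=
          mul_le_mul_of_nonneg_right n2 (abs_nonneg _)
      _ ≤ _ := mul_le_mul_of_nonneg_left hx2 (norm_nonneg _)
  linarith

end Pool.Agent.SQG
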