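import Pool.Agent.SQG.Stmts7
import Pool.Agent.SQG.Foc
import Pool.Agent.SQG.Foi

/-!
# SQG, module FI7: the equation at a touching point for the isotropic modulus
-/

set_option autoImplicit false

namespace Pool.Agent.SQG

open Complex MeasureTheory Set Filter Topology ProbabilityTheory

namespace FI7Aux

/-- the derivative of the profile -/
theorem deriv_W7 {γ ξ : ℝ} (hγ0 : 0 < γ) (hγ1 : γ < 1) (h0 : 0 < ξ) (h1 : ξ < 1) :
    ∃ w : ℝ, 0 ≤ w ∧ w ≤ 1 ∧ HasDerivAt (W7 γ) w ξ := by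
  have hp0 : 0 ≤ ξ ^ γ := Real.rpow_nonneg h0.le _
  have hp1 : ξ ^ γ ≤ 1 := Real.rpow_le_one h0.le h1.le hγ0.le
  refine ⟨1 - (1 + γ) * ξ ^ γ / 4, ?_, ?_, ?_⟩
  · nlinarith
  · have : 0 ≤ (1 + γ) * ξ ^ γ / 4 := by positivity
    linarith
  · have h2 : HasDerivAt (fun z : ℝ => z - z ^ (1 + γ) / 4) (1 - (1 + γ) * ξ ^ γ / 4) ξ := by
      have h3 : HasDerivAt (fun z : ℝ => z ^ (1 + γ)) ((1 + γ) * ξ ^ γ) ξ := by
        have h4 := Real.hasDerivAt_rpow_const (x := ξ) (p := 1 + γ) (Or.inl h0.ne')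
        have e : 1 + γ - 1 = γ := by ring
        rw [e] at h4
        exact h4
      exact (hasDerivAt_id ξ).sub (h3.div_const 4)
    refine h2.congr_of_eventuallyEq ?_
    filter_upwards [gt_mem_nhds h1] with z hz
    unfold W7
    rw [if_pos (le_of_lt hz)]

end FI7Aux

theorem fi7 (hR : Stmt_REG) (hD : Stmt_DER) : Stmt_FI7 := by
  intro α κ T θ φ hS D γ t₀ t lam' E lam x h ht0 htt htT hD0 hγ0 hγ1 hlam1 hlam' hlam'0 h0 hhalf hle heq
  have htI : t ∈ Ioo 0 T := ⟨ht0.trans htt, htT⟩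
  have hNF : NF (θ t) (φ t) := (hR α κ T θ φ hS).1 t htI
  obtain ⟨-, -, hder⟩ := hD (θ t) (φ t) hNF
  have hL1 : 1 ≤ lam t := hlam1 t ⟨htt.le, le_rfl⟩
  have hL0 : 0 < lam t := by linarith
  set ξ : ℝ := nm h / lam t with hξ
  have hξ0 : 0 < ξ := div_pos h0 hL0
  have hξ1 : ξ < 1 := by
    rw [hξ, div_lt_one hL0]
    linarith
  obtain ⟨w, hw0, hw1, hW⟩ := FI7Aux.deriv_W7 hγ0 hγ1 hξ0 hξ1
  -- the gradient
  set p1 : P2 → ℝ := fun y => (IF (D1 (φ t)) y).re with hp1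
  set p2 : P2 → ℝ := fun y => (IF (D2 (φ t)) y).re with hp2
  have hfd : ∀ y, HasFDerivAt (θ t) (p1 y • ContinuousLinearMap.fst ℝ ℝ ℝ +
      p2 y • ContinuousLinearMap.snd ℝ ℝ ℝ) y := fun y => (hder y).2.2
  have hD1 : ∀ y, IF (D1 (φ t)) y = ((p1 y : ℝ) : ℂ) := fun y => (hder y).1
  have hD2 : ∀ y, IF (D2 (φ t)) y = ((p2 y : ℝ) : ℂ) := fun y => (hder y).2.1
  -- (1) time derivative
  have htime : ∀ y, HasDerivAt (fun s => θ s y)
      ((-(IF (V1 (φ t)) y * IF (D1 (φ t)) y + IF (V2 (φ t)) y * IF (D2 (φ t)) y) -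
      κ * IF (LL α (φ t)) y).re) t := by
    intro y
    have h1 := hS.eqn t htI y
    have h2 := Complex.reCLM.hasFDerivAt.comp_hasDerivAt t h1
    simpa [Function.comp_def] using h2
  have hmod : HasDerivAt (fun s => D * W7 γ (nm h / lam s))
      (D * (w * (-(nm h * lam') / lam t ^ 2))) t := by
    have h1 : HasDerivAt (fun s => nm h / lam s) (-(nm h * lam') / lam t ^ 2) t := by
      have h2 := (hasDerivAt_const t (nm h)).div hlam' hL0.ne'
      have e : (0 * lam t - nm h * lam') / lam t ^ 2 = -(nm h * lam') / lam t ^ 2 := by ring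
      rw [e] at h2
      exact h2
    exact (hW.comp t h1).const_mul D
  have hT := ((htime (x + h)).sub (htime x)).sub hmod
  have hnonneg := FOCAux.deriv_nonneg_left htt hT (by
    intro s hs
    have h1 := (hle s hs).2 x h
    have h2 := (abs_le.1 h1).2
    simp only [Pi.sub_apply]
    rw [heq]
    linarith)
  -- (2) the gradients agree
  have hmax2 : IsLocalMax (fun y => θ t (y + h) - θ t y) x := by
    refine Filter.Eventually.of_forall fun y => ?_
    show θ t (y + h) - θ t y ≤ θ t (x + h) - θ t x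
    rw [heq]
    exact (abs_le.1 ((hle t ⟨htt.le, le_rfl⟩).2 y h)).2
  have hfd2 : HasFDerivAt (fun y => θ t (y + h) - θ t y)
      ((p1 (x + h) • ContinuousLinearMap.fst ℝ ℝ ℝ + p2 (x + h) • ContinuousLinearMap.snd ℝ ℝ ℝ) -
        (p1 x • ContinuousLinearMap.fst ℝ ℝ ℝ + p2 x • ContinuousLinearMap.snd ℝ ℝ ℝ)) x := by
    have h1 : HasFDerivAt (fun y => θ t (y + h))
        (p1 (x + h) • ContinuousLinearMap.fst ℝ ℝ ℝ + p2 (x + h) • ContinuousLinearMap.snd ℝ ℝ ℝ) x :=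
      (hasFDerivAt_comp_add_right h).2 (hfd (x + h))
    exact h1.sub (hfd x)
  have hz := hmax2.hasFDerivAt_eq_zero hfd2
  have e1 : p1 (x + h) = p1 x := by
    have := congrArg (fun L : P2 →L[ℝ] ℝ => L (1, 0)) hz
    simp at this
    linarith
  have e2 : p2 (x + h) = p2 x := by
    have := congrArg (fun L : P2 →L[ℝ] ℝ => L (0, 1)) hz
    simp at this
    linarith
  -- (3) the gradient is the gradient of the modulus
  have hloc : ∀ l, θ t (x + l) - D * W7 γ (nm l / lam t) ≤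
      θ t (x + h) - D * W7 γ (nm h / lam t) := by
    intro l
    have h1 := (abs_le.1 ((hle t ⟨htt.le, le_rfl⟩).2 x l)).2
    linarith [heq]
  have hx1 : p1 (x + h) = D * (w * (h.1 / nm h / lam t)) := by
    have hm : IsLocalMax (fun z : ℝ => θ t (x + (z, h.2)) - D * W7 γ (nm (z, h.2) / lam t)) h.1 :=
      Filter.Eventually.of_forall fun z => hloc (z, h.2)
    have hl : HasDerivAt (fun z : ℝ => x + ((z, h.2) : P2)) ((1, 0) : P2) h.1 := by
      have : HasDerivAt (fun z : ℝ => ((z, h.2) : P2)) ((1, 0) : P2) h.1 :=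
        (hasDerivAt_id h.1).prodMk (hasDerivAt_const h.1 h.2)
      exact this.const_add x
    have hd1 := (hfd (x + h)).comp_hasDerivAt_of_eq h.1 hl rfl
    have hd2 : HasDerivAt (fun z : ℝ => D * W7 γ (nm (z, h.2) / lam t))
        (D * (w * (h.1 / nm h / lam t))) h.1 :=
      (hW.comp_of_eq h.1 ((FOIAux.deriv_nm1 h0).div_const (lam t)) rfl).const_mul D
    have h5 := hm.hasDerivAt_eq_zero (hd1.sub hd2)
    simp at h5
    linarith
  have hx2 : p2 (x + h) = D * (w * (h.2 / nm h / lam t)) := by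
    have hm : IsLocalMax (fun z : ℝ => θ t (x + (h.1, z)) - D * W7 γ (nm (h.1, z) / lam t)) h.2 :=
      Filter.Eventually.of_forall fun z => hloc (h.1, z)
    have hl : HasDerivAt (fun z : ℝ => x + ((h.1, z) : P2)) ((0, 1) : P2) h.2 := by
      have : HasDerivAt (fun z : ℝ => ((h.1, z) : P2)) ((0, 1) : P2) h.2 :=
        (hasDerivAt_const h.2 h.1).prodMk (hasDerivAt_id h.2)
      exact this.const_add x
    have hd1 := (hfd (x + h)).comp_hasDerivAt_of_eq h.2 hl rfl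
    have hd2 : HasDerivAt (fun z : ℝ => D * W7 γ (nm (h.1, z) / lam t))
        (D * (w * (h.2 / nm h / lam t))) h.2 :=
      (hW.comp_of_eq h.2 ((FOIAux.deriv_nm2 h0).div_const (lam t)) rfl).const_mul D
    have h5 := hm.hasDerivAt_eq_zero (hd1.sub hd2)
    simp at h5
    linarith
  -- (4) combine
  have e1' : IF (D1 (φ t)) (x + h) = ((p1 (x + h) : ℝ) : ℂ) := hD1 _
  have e2' : IF (D2 (φ t)) (x + h) = ((p2 (x + h) : ℝ) : ℂ) := hD2 _
  have e1'' : IF (D1 (φ t)) x = ((p1 (x + h) : ℝ) : ℂ) := by rw [e1]; exact hD1 x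
  have e2'' : IF (D2 (φ t)) x = ((p2 (x + h) : ℝ) : ℂ) := by rw [e2]; exact hD2 x
  rw [e1', e2', e1'', e2''] at hnonneg
  simp only [Complex.sub_re, Complex.neg_re, Complex.add_re, Complex.mul_re, Complex.ofReal_re,
    Complex.ofReal_im, mul_zero, sub_zero, zero_mul] at hnonneg
  simp only [Complex.sub_re]
  have n1 : |(IF (V1 (φ t)) (x + h)).re - (IF (V1 (φ t)) x).re| ≤
      ‖IF (V1 (φ t)) (x + h) - IF (V1 (φ t)) x‖ := by
    rw [← Complex.sub_re]; exact Complex.abs_re_le_norm _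
  have n2 : |(IF (V2 (φ t)) (x + h)).re - (IF (V2 (φ t)) x).re| ≤
      ‖IF (V2 (φ t)) (x + h) - IF (V2 (φ t)) x‖ := by
    rw [← Complex.sub_re]; exact Complex.abs_re_le_norm _
  have a1 : |p1 (x + h)| ≤ |h.1| / nm h * (D / lam t) := by
    rw [hx1, abs_mul, abs_mul, abs_div, abs_div, abs_of_pos hD0, abs_of_nonneg hw0, abs_of_pos h0,
      abs_of_pos hL0]
    have h1 : 0 ≤ |h.1| / nm h / lam t := by positivity
    calc D * (w * (|h.1| / nm h / lam t)) ≤ D * (1 * (|h.1| / nm h / lam t)) := by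
          apply mul_le_mul_of_nonneg_left _ hD0.le
          exact mul_le_mul_of_nonneg_right hw1 h1
      _ = |h.1| / nm h * (D / lam t) := by ring
  have a2 : |p2 (x + h)| ≤ D / lam t := by
    rw [hx2, abs_mul, abs_mul, abs_div, abs_div, abs_of_pos hD0, abs_of_nonneg hw0, abs_of_pos h0,
      abs_of_pos hL0]
    have h1 : |h.2| / nm h ≤ 1 := by
      rw [div_le_one h0]
      exact FOIAux.abs_snd_le h
    have h2 : 0 ≤ |h.2| / nm h := by positivity
    have h3 : |h.2| / nm h / lam t ≤ 1 / lam t := div_le_div_of_nonneg_right h1 hL0.le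
    have h4 : 0 ≤ 1 / lam t := by positivity
    calc D * (w * (|h.2| / nm h / lam t)) ≤ D * (1 * (1 / lam t)) := by
          apply mul_le_mul_of_nonneg_left _ hD0.le
          exact mul_le_mul hw1 h3 (by positivity) zero_le_one
      _ = D / lam t := by ring
  have b1 : -(((IF (V1 (φ t)) (x + h)).re - (IF (V1 (φ t)) x).re) * p1 (x + h)) ≤
      ‖IF (V1 (φ t)) (x + h) - IF (V1 (φ t)) x‖ * (|h.1| / nm h * (D / lam t)) := by
    calc -(((IF (V1 (φ t)) (x + h)).re - (IF (V1 (φ t)) x).re) * p1 (x + h))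
        ≤ |((IF (V1 (φ t)) (x + h)).re - (IF (V1 (φ t)) x).re) * p1 (x + h)| := neg_le_abs _
      _ = |(IF (V1 (φ t)) (x + h)).re - (IF (V1 (φ t)) x).re| * |p1 (x + h)| := abs_mul _ _
      _ ≤ _ := mul_le_mul n1 a1 (abs_nonneg _) (norm_nonneg _)
  have b2 : -(((IF (V2 (φ t)) (x + h)).re - (IF (V2 (φ t)) x).re) * p2 (x + h)) ≤
      ‖IF (V2 (φ t)) (x + h) - IF (V2 (φ t)) x‖ * (D / lam t) := by
    calc -(((IF (V2 (φ t)) (x + h)).re - (IF (V2 (φ t)) x).re) * p2 (x + h))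
        ≤ |((IF (V2 (φ t)) (x + h)).re - (IF (V2 (φ t)) x).re) * p2 (x + h)| := neg_le_abs _
      _ = |(IF (V2 (φ t)) (x + h)).re - (IF (V2 (φ t)) x).re| * |p2 (x + h)| := abs_mul _ _
      _ ≤ _ := mul_le_mul n2 a2 (abs_nonneg _) (norm_nonneg _)
  have b3 : -(D * (w * (-(nm h * lam') / lam t ^ 2))) ≤ D * ξ * (lam' / lam t) := by
    have e : -(D * (w * (-(nm h * lam') / lam t ^ 2))) = w * (D * ξ * (lam' / lam t)) := by
      rw [hξ]
      field_simp
    rw [e]
    have h1 : 0 ≤ D * ξ * (lam' / lam t) := by positivity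
    calc w * (D * ξ * (lam' / lam t)) ≤ 1 * (D * ξ * (lam' / lam t)) :=
          mul_le_mul_of_nonneg_right hw1 h1
      _ = _ := one_mul _
  rw [add_mul, mul_assoc]
  linarith

end Pool.Agent.SQG
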