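import Pool.Agent.SQG.Stmts7

/-!
# Module MA7: the theorem with two moduli for the direction `(1,0)`
-/

set_option autoImplicit false

namespace Pool.Agent.SQG

open Complex MeasureTheory Set Filter Topology ProbabilityTheory

namespace MA7Aux

/-- the profile is below the identity -/
theorem W7_le {γ ξ : ℝ} (hξ : 0 ≤ ξ) : W7 γ ξ ≤ ξ := by
  unfold W7
  split_ifs with h
  · have := Real.rpow_nonneg hξ (1 + γ)
    linarith
  · linarith [not_le.1 h]

/-- the increments at the starting time -/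
theorem start {v M ε E₀ s : ℝ} (hM : 0 < M) (hE : 0 < E₀) (hε : ε = E₀ ^ 2 / (8 * M))
    (hs : 0 < s) (hv : 0 ≤ v) (h1 : v ≤ M * s) (h2 : v ≤ 2 * M) (h3 : v ≤ ε * (1 + s)) :
    v < E₀ * s ^ (1 / 2 : ℝ) := by
  have hεM : ε * M = E₀ ^ 2 / 8 := by
    rw [hε]
    field_simp
  have hε0 : 0 < ε := by
    rw [hε]
    positivity
  have hr : (s ^ (1 / 2 : ℝ)) ^ 2 = s := by
    rw [← Real.sqrt_eq_rpow, Real.sq_sqrt hs.le]
  have hsq : v ^ 2 < (E₀ * s ^ (1 / 2 : ℝ)) ^ 2 := by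
    rw [mul_pow, hr]
    have hE2 : 0 < E₀ ^ 2 * s := by positivity
    rcases le_total s 1 with hs1 | hs1
    · have h4 : v ≤ 2 * ε := by nlinarith
      have h5 : v * v ≤ (M * s) * (2 * ε) := mul_le_mul h1 h4 hv (by positivity)
      have h6 : (M * s) * (2 * ε) = E₀ ^ 2 * s / 4 := by
        calc (M * s) * (2 * ε) = 2 * s * (ε * M) := by ring
          _ = _ := by rw [hεM]; ring
      nlinarith
    · have h4 : v ≤ 2 * ε * s := by nlinarith
      have h5 : v * v ≤ (2 * M) * (2 * ε * s) := mul_le_mul h2 h4 hv (by positivity)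
      have h6 : (2 * M) * (2 * ε * s) = E₀ ^ 2 * s / 2 := by
        calc (2 * M) * (2 * ε * s) = 4 * s * (ε * M) := by ring
          _ = _ := by rw [hεM]; ring
      nlinarith
  exact lt_of_pow_lt_pow_left₀ 2 (by positivity) hsq

theorem nm_fst (s : ℝ) : nm (s, 0) = |s| := by
  unfold nm
  simp [Real.sqrt_sq_eq_abs]

theorem nm_nonneg (h : P2) : 0 ≤ nm h := Real.sqrt_nonneg _

end MA7Aux

open MA7Aux in
theorem ma7 (hM : Stmt_MX7) (hT : Stmt_TC7) (hD : Stmt_SD7) (hI : Stmt_SI7) : Stmt_MA7 := by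
  intro α hα hα2
  obtain ⟨c, hc, HI⟩ := hI α hα hα2
  refine ⟨c, hc, ?_⟩
  intro κ M hκ hMp
  obtain ⟨K, hK, HD⟩ := hD α hα hα2 κ M hκ hMp
  obtain ⟨E₀, hE₀, HI2⟩ := HI κ M K hκ hMp hK
  refine ⟨E₀ ^ 2 / (8 * M), by positivity, ?_⟩
  intro T θ φ hsol t₀ ht₀ htT hb hlip hinc
  have hmax := hM α κ T θ φ hα hα2 hκ hsol M t₀ ht₀ htT hMp hb
  have hbase : ∀ t ∈ Ico t₀ T, 1 ≤ 1 + c * κ * (t - t₀) := by
    intro t ht
    have h1 : 0 ≤ t - t₀ := sub_nonneg.2 ht.1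
    have : 0 ≤ c * κ * (t - t₀) := by positivity
    linarith
  have hlam1 : ∀ t ∈ Ico t₀ T, 1 ≤ lam7 α c κ t₀ t := by
    intro t ht
    exact Real.one_le_rpow (hbase t ht) (by positivity)
  have hlamc : ContinuousOn (lam7 α c κ t₀) (Ico t₀ T) := by
    unfold lam7
    refine ContinuousOn.rpow_const (by fun_prop) ?_
    intro t ht
    left
    have := hbase t ht
    linarith
  have hlam0 : lam7 α c κ t₀ t₀ = 1 := by
    unfold lam7
    simp
  have hEc : ContinuousOn (fun s => E₀ * Real.exp (K * (s - t₀))) (Ico t₀ T) := by fun_prop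
  have hst : ∀ (x : P2) (a : ℝ), a ≠ 0 → |θ t₀ (x.1 + a, x.2) - θ t₀ x| <
      (fun s => E₀ * Real.exp (K * (s - t₀))) t₀ * |a| ^ (1 / 2 : ℝ) := by
    intro x a ha
    simp only [sub_self, mul_zero, Real.exp_zero, mul_one]
    refine start (ε := E₀ ^ 2 / (8 * M)) hMp hE₀ rfl (abs_pos.2 ha) (abs_nonneg _) ?_ ?_
      (hinc x a)
    · have h1 := hlip (x.1 + a, x.2) x
      have h2 : ((x.1 + a, x.2) - x : P2) = (a, 0) := by
        ext <;> simp
      rwa [h2, nm_fst] at h1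
    · refine (abs_sub _ _).trans ?_
      have := hb (x.1 + a, x.2)
      have := hb x
      linarith
  have hmain : ∀ t ∈ Ico t₀ T,
      Mod7 (θ t) (E₀ * Real.exp (K * (t - t₀))) (6 * M) (lam7 α c κ t₀ t) (α / 2) := by
    rcases hT α κ T θ φ hsol M (α / 2) t₀ (fun s => E₀ * Real.exp (K * (s - t₀))) (lam7 α c κ t₀)
      ht₀ htT hMp (by positivity) (by linarith) hmax hEc hlamc
      (fun t ht => ⟨by positivity, hlam1 t ht⟩) hlam0 hlip hst with h | h
    · exact h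
    · exfalso
      obtain ⟨t, h1, h2, h3, h4⟩ := h
      have hl : ∀ s ∈ Icc t₀ t, 1 ≤ lam7 α c κ t₀ s := fun s hs =>
        hlam1 s ⟨hs.1, lt_of_le_of_lt hs.2 h2⟩
      rcases h4 with ⟨x, a, ha, h5⟩ | ⟨x, h, hh0, hh1, h5⟩
      · exact HD T θ φ hsol t₀ t E₀ (lam7 α c κ t₀) x a ht₀ h1 h2 hE₀ hl ha h3 h5
      · exact HI2 T θ φ hsol t₀ t x h ht₀ h1 h2 h3 hh0 hh1 h5
  intro t ht x y
  have h1 := (hmain t ht).2 y (x - y)
  rw [add_sub_cancel] at h1
  have hl := hlam1 t ht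
  have hl0 : 0 < lam7 α c κ t₀ t := by linarith
  have h2 : W7 (α / 2) (nm (x - y) / lam7 α c κ t₀ t) ≤ nm (x - y) / lam7 α c κ t₀ t :=
    W7_le (div_nonneg (nm_nonneg _) hl0.le)
  refine h1.trans ?_
  have h3 : 6 * M * W7 (α / 2) (nm (x - y) / lam7 α c κ t₀ t) ≤
      6 * M * (nm (x - y) / lam7 α c κ t₀ t) := mul_le_mul_of_nonneg_left h2 (by positivity)
  refine h3.trans (le_of_eq ?_)
  have hb1 := hbase t ht
  rw [Real.rpow_neg (by linarith)]
  unfold lam7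
  rw [div_eq_mul_inv]
  ring

end Pool.Agent.SQG
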