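import Pool.Agent.SQG.Stmts7
import Pool.Agent.SQG.Foc
import Pool.Agent.SQG.Lb

/-!
# SQG, module MX7: the maximum principle
-/

set_option autoImplicit false

namespace Pool.Agent.SQG

open Complex MeasureTheory Set Filter Topology ProbabilityTheory

namespace MX7Aux

/-- the difference of a function and its Gaussian average at a maximum (`σ = 1`) or at a minimum
(`σ = -1`) -/
lemma av_sgn {f : P2 → ℝ} (hc : Continuous f) {B : ℝ} (hB : ∀ x, |f x| ≤ B) (r σ : ℝ) (x : P2)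
    (h : ∀ y : P2, σ * f y ≤ σ * f x) : 0 ≤ σ * (f x - Av r f x) := by
  have h1 : σ * f x - σ * Av r f x =
      ∫ z : P2, (σ * f x - σ * f (x.1 + r * z.1, x.2 + r * z.2)) ∂gm := by
    have hi := LBAux.av_int hc hB r x
    rw [integral_sub (integrable_const _) (hi.const_mul σ)]
    simp [Av, integral_const_mul]
  rw [mul_sub, h1]
  refine integral_nonneg fun z => ?_
  have := h (x.1 + r * z.1, x.2 + r * z.2)
  simp only [Pi.zero_apply]
  linarith

/-- at a maximum of `σ f` the dissipation has the sign `σ` -/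
lemma ll_sgn (hD : Stmt_DER) (hGA : Stmt_GA) {α : ℝ} (hα : 0 < α) (hα2 : α < 1 / 2)
    {f : P2 → ℝ} {φ : P2 → ℂ} (hf : NF f φ) (σ : ℝ) (x : P2) (h : ∀ y : P2, σ * f y ≤ σ * f x) :
    0 ≤ σ * (IF (LL α φ) x).re := by
  obtain ⟨hcL, hGA⟩ := hGA α hα hα2
  obtain ⟨hc, ⟨B, hB⟩, -⟩ := hD f φ hf
  obtain ⟨hi, he⟩ := hGA f φ hf x
  rw [he, Complex.ofReal_re]
  have h1 : σ * (cL α * ∫ r in Ioi (0 : ℝ), (f x - Av r f x) * r ^ (-1 - 2 * α)) =
      cL α * ∫ r in Ioi (0 : ℝ), σ * ((f x - Av r f x) * r ^ (-1 - 2 * α)) := by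
    rw [integral_const_mul]
    ring
  rw [h1]
  refine mul_nonneg hcL.le (setIntegral_nonneg measurableSet_Ioi fun r hr => ?_)
  rw [← mul_assoc]
  exact mul_nonneg (av_sgn hc hB r σ x h) (Real.rpow_nonneg (le_of_lt hr) _)

/-- the one-sided estimate -/
lemma side (hR : Stmt_REG) (hD : Stmt_DER) (hGA : Stmt_GA) {α κ T : ℝ} {θ : ℝ → P2 → ℝ}
    {φ : ℝ → P2 → ℂ} (hα : 0 < α) (hα2 : α < 1 / 2) (hκ : 0 < κ) (hS : Sol α κ T θ φ)
    {M t₀ : ℝ} (ht₀ : 0 < t₀) (hM : 0 < M) (σ : ℝ) (hσ : |σ| = 1)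
    (h0 : ∀ x, σ * θ t₀ x ≤ M) {t₁ : ℝ} (ht₁ : t₁ ∈ Ico t₀ T) (x₁ : P2) {η : ℝ} (hη : 0 < η) :
    σ * θ t₁ x₁ ≤ M + η * (1 + t₁ - t₀) := by
  by_contra hcon
  rw [not_le] at hcon
  obtain ⟨hNF, hReg⟩ := hR α κ T θ φ hS
  have hσ1 : ∀ a : ℝ, σ * a ≤ |a| := fun a => by
    calc σ * a ≤ |σ * a| := le_abs_self _
      _ = |a| := by rw [abs_mul, hσ, one_mul]
  obtain ⟨R, hRd⟩ := hReg.dec t₀ t₁ ht₀ ht₁.2 (M / 2) (by positivity)
  set bx : Set (ℝ × P2) := Icc t₀ t₁ ×ˢ (Icc (-|R|) |R| ×ˢ Icc (-|R|) |R|) with hbx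
  have hbc : IsCompact bx := isCompact_Icc.prod (isCompact_Icc.prod isCompact_Icc)
  have hcont : ContinuousOn (fun q : ℝ × P2 => σ * θ q.1 q.2 - (M + η * (1 + q.1 - t₀))) bx := by
    have a1 : ContinuousOn (fun q : ℝ × P2 => θ q.1 q.2) bx := by
      refine hReg.cont.mono ?_
      intro q hq
      exact ⟨⟨ht₀.trans_le hq.1.1, hq.1.2.trans_lt ht₁.2⟩, mem_univ _⟩
    have a2 : Continuous (fun q : ℝ × P2 => M + η * (1 + q.1 - t₀)) := by fun_prop
    exact (a1.const_smul σ |>.congr fun q _ => by simp [smul_eq_mul]).sub a2.continuousOn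
  set K : Set (ℝ × P2) := bx ∩
    (fun q : ℝ × P2 => σ * θ q.1 q.2 - (M + η * (1 + q.1 - t₀))) ⁻¹' (Ici 0) with hK
  have hKc : IsCompact K :=
    hbc.of_isClosed_subset (hcont.preimage_isClosed_of_isClosed hbc.isClosed isClosed_Ici)
      inter_subset_left
  have hmem : ∀ s ∈ Icc t₀ t₁, ∀ y : P2, M + η * (1 + s - t₀) ≤ σ * θ s y → (s, y) ∈ K := by
    intro s hs y hb
    have e1 : |y.1| + |y.2| < R := by
      by_contra hc
      rw [not_lt] at hc
      have e2 := hRd s hs y hc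
      have e3 := hσ1 (θ s y)
      have e4 : 0 ≤ η * (1 + s - t₀) := mul_nonneg hη.le (by linarith [hs.1])
      linarith
    have e2 := le_abs_self R
    have f1 := abs_nonneg y.1
    have f2 := abs_nonneg y.2
    refine ⟨⟨hs, abs_le.1 (by linarith), abs_le.1 (by linarith)⟩, ?_⟩
    simp only [mem_preimage, mem_Ici]
    linarith
  obtain ⟨q, hqK, hqmin⟩ := hKc.exists_isMinOn
    ⟨_, hmem t₁ ⟨ht₁.1, le_rfl⟩ x₁ hcon.le⟩ continuous_fst.continuousOn
  obtain ⟨t, x⟩ := q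
  have hpt : t ∈ Icc t₀ t₁ := hqK.1.1
  have hge : M + η * (1 + t - t₀) ≤ σ * θ t x := by
    have := hqK.2
    simp only [mem_preimage, mem_Ici] at this
    linarith
  have htI : t ∈ Ioo 0 T := ⟨ht₀.trans_le hpt.1, hpt.2.trans_lt ht₁.2⟩
  have htt : t₀ < t := by
    rcases hpt.1.lt_or_eq with h | h
    · exact h
    exfalso
    rw [← h] at hge
    have h1 := h0 x
    have h2 : η * (1 + t₀ - t₀) = η := by ring
    linarith
  have hbef : ∀ s ∈ Ico t₀ t, ∀ y : P2, σ * θ s y ≤ M + η * (1 + s - t₀) := by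
    intro s hs y
    by_contra hc
    rw [not_le] at hc
    have h1 := hmem s ⟨hs.1, hs.2.le.trans hpt.2⟩ y hc.le
    have h2 : t ≤ s := hqmin h1
    exact absurd hs.2 (not_lt.2 h2)
  have hle : ∀ s ∈ Icc t₀ t, ∀ y : P2, σ * θ s y ≤ M + η * (1 + s - t₀) := by
    intro s hs y
    rcases hs.2.lt_or_eq with h | h
    · exact hbef s ⟨hs.1, h⟩ y
    rw [h]
    have hc : Tendsto (fun s => θ s y) (𝓝[<] t) (𝓝 (θ t y)) := by
      have h1 : ContinuousOn (fun s => θ s y) (Ioo 0 T) :=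
        hReg.cont.comp (f := fun s : ℝ => (s, y)) (by fun_prop)
          fun s hs => ⟨hs, mem_univ _⟩
      exact ((h1.continuousAt (Ioo_mem_nhds htI.1 htI.2)).tendsto).mono_left
        nhdsWithin_le_nhds
    have hc2 : Tendsto (fun s => M + η * (1 + s - t₀)) (𝓝[<] t) (𝓝 (M + η * (1 + t - t₀))) := by
      have : Continuous (fun s : ℝ => M + η * (1 + s - t₀)) := by fun_prop
      exact (this.tendsto t).mono_left nhdsWithin_le_nhds
    refine le_of_tendsto_of_tendsto (hc.const_mul σ) hc2 ?_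
    filter_upwards [Ico_mem_nhdsLT htt] with s hs
    exact hbef s hs y
  have heq : σ * θ t x = M + η * (1 + t - t₀) := le_antisymm (hle t ⟨htt.le, le_rfl⟩ x) hge
  have hmax : ∀ y : P2, σ * θ t y ≤ σ * θ t x := fun y => by
    rw [heq]; exact hle t ⟨htt.le, le_rfl⟩ y
  -- the time derivative
  have htime : HasDerivAt (fun s => θ s x)
      ((-(IF (V1 (φ t)) x * IF (D1 (φ t)) x + IF (V2 (φ t)) x * IF (D2 (φ t)) x) -
      κ * IF (LL α (φ t)) x).re) t := by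
    have h1 := hS.eqn t htI x
    have h2 := Complex.reCLM.hasFDerivAt.comp_hasDerivAt t h1
    simpa [Function.comp_def] using h2
  have hlin : HasDerivAt (fun s : ℝ => M + η * (1 + s - t₀)) η t := by
    have h1 : HasDerivAt (fun s : ℝ => 1 + s - t₀) 1 t :=
      ((hasDerivAt_id t).const_add 1).sub_const t₀
    simpa using (h1.const_mul η).const_add M
  have hnn := FOCAux.deriv_nonneg_left htt ((htime.const_mul σ).sub hlin) (by
    intro s hs
    have h1 := hle s hs x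
    simp only [Pi.sub_apply]
    linarith)
  -- the gradient vanishes
  obtain ⟨-, -, hder⟩ := hD (θ t) (φ t) (hNF t htI)
  obtain ⟨g1, g2, g3⟩ := hder x
  have hz := (show IsLocalMax (fun y => σ * θ t y) x from
    Filter.Eventually.of_forall hmax).hasFDerivAt_eq_zero (g3.const_mul σ)
  have hσ0 : σ ≠ 0 := by
    intro h
    rw [h, abs_zero] at hσ
    exact zero_ne_one hσ
  have e1 : (IF (D1 (φ t)) x).re = 0 := by
    have := congrArg (fun L : P2 →L[ℝ] ℝ => L (1, 0)) hz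
    simp at this
    exact this.resolve_left hσ0
  have e2 : (IF (D2 (φ t)) x).re = 0 := by
    have := congrArg (fun L : P2 →L[ℝ] ℝ => L (0, 1)) hz
    simp at this
    exact this.resolve_left hσ0
  rw [e1, Complex.ofReal_zero] at g1
  rw [e2, Complex.ofReal_zero] at g2
  have hll := ll_sgn hD hGA hα hα2 (hNF t htI) σ x hmax
  rw [g1, g2] at hnn
  simp only [mul_zero, add_zero, neg_zero, zero_sub, Complex.neg_re, Complex.mul_re,
    Complex.ofReal_re, Complex.ofReal_im, zero_mul, sub_zero] at hnn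
  have h5 : 0 ≤ κ * (σ * (IF (LL α (φ t)) x).re) := mul_nonneg hκ.le hll
  nlinarith

lemma side' (hR : Stmt_REG) (hD : Stmt_DER) (hGA : Stmt_GA) {α κ T : ℝ} {θ : ℝ → P2 → ℝ}
    {φ : ℝ → P2 → ℂ} (hα : 0 < α) (hα2 : α < 1 / 2) (hκ : 0 < κ) (hS : Sol α κ T θ φ)
    {M t₀ : ℝ} (ht₀ : 0 < t₀) (hM : 0 < M) (σ : ℝ) (hσ : |σ| = 1)
    (h0 : ∀ x, σ * θ t₀ x ≤ M) {t₁ : ℝ} (ht₁ : t₁ ∈ Ico t₀ T) (x₁ : P2) :
    σ * θ t₁ x₁ ≤ M := by
  refine le_of_forall_pos_le_add fun ε hε => ?_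
  have hp : 0 < 1 + t₁ - t₀ := by linarith [ht₁.1]
  have h1 := side hR hD hGA hα hα2 hκ hS ht₀ hM σ hσ h0 ht₁ x₁ (η := ε / (1 + t₁ - t₀))
    (by positivity)
  rwa [div_mul_cancel₀ _ hp.ne'] at h1

end MX7Aux

open MX7Aux in
theorem mx7 (hR : Stmt_REG) (hD : Stmt_DER) (hGA : Stmt_GA) : Stmt_MX7 := by
  intro α κ T θ φ hα hα2 hκ hS M t₀ ht₀ ht₀T hM h0 t ht x
  rw [abs_le]
  constructor
  · have h1 := side' hR hD hGA hα hα2 hκ hS ht₀ hM (-1) (by simp)
      (fun y => by have := (abs_le.1 (h0 y)).1; linarith) ht x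
    linarith
  · have h1 := side' hR hD hGA hα hα2 hκ hS ht₀ hM 1 (by simp)
      (fun y => by have := (abs_le.1 (h0 y)).2; linarith) ht x
    linarith

end Pool.Agent.SQG
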