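import Pool.Agent.SQG.Stmts7
import Pool.Agent.SQG.Rfi

/-!
# The dissipation at a touching point for the increments in direction 1
-/

set_option autoImplicit false

namespace Pool.Agent.SQG

open Complex MeasureTheory Set Filter Topology ProbabilityTheory


open RFIAux ROTAux

theorem rd7 (hRf : Stmt_RFL) : Stmt_RD7 := by
  intro α δ hα hα2 hδ hδ1
  obtain ⟨c₁, c₂, hc1, hc11, hc2, H⟩ := hRf α δ δ hα hα2 hδ hδ1 hδ hδ1
  refine ⟨c₂, hc2, ?_⟩
  intro f φ N hf hN hH x a ha hx hmax
  have hh : 0 < |a| := abs_pos.2 ha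
  obtain ⟨L, hL⟩ : ∃ L : ℝ, L = |a| := ⟨_, rfl⟩
  rw [← hL] at hh
  have hL2 : L ^ 2 = a ^ 2 := by rw [hL, sq_abs]
  have hL0 : L ≠ 0 := hh.ne'
  obtain ⟨e, hedef⟩ : ∃ e : P2, e = (0, -a / L) := ⟨_, rfl⟩
  have he : e.1 ^ 2 + e.2 ^ 2 = 1 := by
    rw [hedef]
    simp only
    field_simp
    linarith
  have hrh : ROTAux.rot e ((0, L) : P2) = (a, 0) := by
    rw [hedef]
    simp only [ROTAux.rot]
    ext
    · simp only
      field_simp
      ring
    · simp only
      field_simp
      ring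
  have hrs : ∀ s : ℝ, ROTAux.rot e ((0, s) : P2) = (s * (a / L), 0) := by
    intro s
    rw [hedef]
    simp only [ROTAux.rot]
    ext
    · simp only
      ring
    · simp only
      ring
  have hadd : ∀ (y : P2) (s : ℝ), y + (s, 0) = (y.1 + s, y.2) := by
    intro y s
    ext
    · simp
    · simp
  obtain ⟨y₀, hy0⟩ : ∃ y₀ : P2, y₀ = ROTAux.rot (e.1, -e.2) x := ⟨_, rfl⟩
  have hry : ROTAux.rot e y₀ = x := by rw [hy0]; exact rot_inv' he x
  have hnf := nf_rot hf he
  have haL : |a / L| = 1 := by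
    rw [abs_div, ← hL, abs_of_pos hh, div_self hL0]
  have hH2 : H2s (fun x => f (ROTAux.rot e x)) 0 δ N δ := by
    intro y s
    have h1 := hH (ROTAux.rot e y) (s * (a / L))
    rw [abs_mul, haL, mul_one, ← hadd, ← hrs, ← rot_add] at h1
    have h2 : y + ((0, s) : P2) = ((y.1, y.2 + s) : P2) := by
      ext
      · simp
      · simp
    rw [h2] at h1
    simpa using h1
  have key := H (fun x => f (ROTAux.rot e x)) (fun ξ => φ (ROTAux.rot e ξ)) hnf 0 N 0 y₀ ((0, L) : P2)
    le_rfl hN hH2 hL0 (fun y => by simp) (by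
      simp only [zero_mul, zero_add, abs_of_pos hh]
      exact mul_nonneg hc1.le (mul_nonneg hN (Real.rpow_nonneg hh.le _))) (by
      simp only [zero_mul, zero_add, abs_of_pos hh, rot_add, hrh, hry]
      rw [hadd, hL]
      exact hx) (by
      intro y
      simp only [rot_add, hrh, hry, hadd]
      exact hmax _)
  rw [ll_rot he, ll_rot he, rot_add, hrh, hry, hadd] at key
  simp only [zero_mul, zero_add, abs_of_pos hh] at key
  rw [← hL]
  calc c₂ * N * L ^ (δ - 2 * α) = c₂ * (N * L ^ δ) * L ^ (-2 * α) := by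
        rw [show δ - 2 * α = δ + -2 * α by ring, Real.rpow_add hh]
        ring
    _ ≤ _ := key

end Pool.Agent.SQG
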