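import Pool.Agent.SQG.Stmts7
import Pool.Agent.SQG.Reg

/-!
# Second differences of the solutions (module SQG_RG7, helper46)
-/

set_option autoImplicit false

namespace Pool.Agent.SQG

open Complex MeasureTheory Set Filter Topology ProbabilityTheory

namespace RG7Aux

open REGAux

lemma dot_sq_le (a ξ : P2) : (a.1 * ξ.1 + a.2 * ξ.2) ^ 2 ≤ nm a ^ 2 * nm ξ ^ 2 := by
  rw [nm_sq, nm_sq]
  nlinarith [sq_nonneg (a.1 * ξ.2 - a.2 * ξ.1)]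

lemma ex_second (x l ξ : P2) :
    ‖cexp (I * (((x + l + l).1 * ξ.1 + (x + l + l).2 * ξ.2 : ℝ) : ℂ)) -
      2 * cexp (I * (((x + l).1 * ξ.1 + (x + l).2 * ξ.2 : ℝ) : ℂ)) +
      cexp (I * ((x.1 * ξ.1 + x.2 * ξ.2 : ℝ) : ℂ))‖ ≤ nm l ^ 2 * nm ξ ^ 2 := by
  have e1 : cexp (I * (((x + l).1 * ξ.1 + (x + l).2 * ξ.2 : ℝ) : ℂ)) =
      cexp (I * ((x.1 * ξ.1 + x.2 * ξ.2 : ℝ) : ℂ)) *
        cexp (I * ((l.1 * ξ.1 + l.2 * ξ.2 : ℝ) : ℂ)) := by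
    rw [← Complex.exp_add]
    congr 1
    simp only [Prod.fst_add, Prod.snd_add]
    push_cast
    ring
  have e2 : cexp (I * (((x + l + l).1 * ξ.1 + (x + l + l).2 * ξ.2 : ℝ) : ℂ)) =
      cexp (I * ((x.1 * ξ.1 + x.2 * ξ.2 : ℝ) : ℂ)) *
        (cexp (I * ((l.1 * ξ.1 + l.2 * ξ.2 : ℝ) : ℂ)) *
          cexp (I * ((l.1 * ξ.1 + l.2 * ξ.2 : ℝ) : ℂ))) := by
    rw [← Complex.exp_add, ← Complex.exp_add]
    congr 1
    simp only [Prod.fst_add, Prod.snd_add]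
    push_cast
    ring
  have e : cexp (I * (((x + l + l).1 * ξ.1 + (x + l + l).2 * ξ.2 : ℝ) : ℂ)) -
      2 * cexp (I * (((x + l).1 * ξ.1 + (x + l).2 * ξ.2 : ℝ) : ℂ)) +
      cexp (I * ((x.1 * ξ.1 + x.2 * ξ.2 : ℝ) : ℂ)) =
      cexp (I * ((x.1 * ξ.1 + x.2 * ξ.2 : ℝ) : ℂ)) *
        (cexp (I * ((l.1 * ξ.1 + l.2 * ξ.2 : ℝ) : ℂ)) - 1) ^ 2 := by
    rw [e1, e2]
    ring
  rw [e, norm_mul, norm_ex, one_mul, norm_pow]
  have h1 : ‖cexp (I * ((l.1 * ξ.1 + l.2 * ξ.2 : ℝ) : ℂ)) - 1‖ ≤ ‖(l.1 * ξ.1 + l.2 * ξ.2 : ℝ)‖ :=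
    Real.norm_exp_I_mul_ofReal_sub_one_le
  calc ‖cexp (I * ((l.1 * ξ.1 + l.2 * ξ.2 : ℝ) : ℂ)) - 1‖ ^ 2
      ≤ ‖(l.1 * ξ.1 + l.2 * ξ.2 : ℝ)‖ ^ 2 := pow_le_pow_left₀ (norm_nonneg _) h1 2
    _ = (l.1 * ξ.1 + l.2 * ξ.2) ^ 2 := by rw [Real.norm_eq_abs, sq_abs]
    _ ≤ _ := dot_sq_le l ξ

lemma nm_sq_le_wt (ξ : P2) : nm ξ ^ 2 ≤ wt ξ := by
  unfold wt
  linarith

lemma IF_second {ψ : P2 → ℂ} (h : Integrable ψ) (h1 : Integrable fun ξ => wt ξ ^ 1 * ‖ψ ξ‖)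
    (x l : P2) : ‖IF ψ (x + l + l) - 2 * IF ψ (x + l) + IF ψ x‖ ≤
      (∫ ξ, wt ξ ^ 1 * ‖ψ ξ‖) * nm l ^ 2 := by
  have e : IF ψ (x + l + l) - 2 * IF ψ (x + l) + IF ψ x = ∫ ξ : P2, ψ ξ *
      (cexp (I * (((x + l + l).1 * ξ.1 + (x + l + l).2 * ξ.2 : ℝ) : ℂ)) -
      2 * cexp (I * (((x + l).1 * ξ.1 + (x + l).2 * ξ.2 : ℝ) : ℂ)) +
      cexp (I * ((x.1 * ξ.1 + x.2 * ξ.2 : ℝ) : ℂ))) := by
    have a1 := int_ex h (x + l + l)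
    have a2 := (int_ex h (x + l)).const_mul 2
    have a3 := int_ex h x
    have b1 := integral_sub a1 a2
    have b2 := integral_add (a1.sub a2) a3
    rw [integral_const_mul] at b1
    unfold IF
    rw [← b1]
    refine Eq.trans b2.symm ?_
    refine integral_congr_ae (ae_of_all _ fun ξ => ?_)
    simp only [Pi.sub_apply]
    ring
  rw [e, ← integral_mul_const]
  refine (norm_integral_le_integral_norm _).trans ?_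
  refine integral_mono_of_nonneg (ae_of_all _ fun _ => norm_nonneg _) (h1.mul_const _)
    (ae_of_all _ fun ξ => ?_)
  simp only
  rw [norm_mul]
  have h2 := ex_second x l ξ
  have h3 := nm_sq_le_wt ξ
  calc ‖ψ ξ‖ * _ ≤ ‖ψ ξ‖ * (nm l ^ 2 * wt ξ) := by
        refine mul_le_mul_of_nonneg_left (h2.trans ?_) (norm_nonneg _)
        exact mul_le_mul_of_nonneg_left h3 (sq_nonneg _)
    _ = _ := by ring

variable {α κ T : ℝ} {θ : ℝ → P2 → ℝ} {φ : ℝ → P2 → ℂ}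

lemma secx (h : Sol α κ T θ φ) {t : ℝ} (ht : t ∈ Ioo 0 T) (x l : P2) :
    |θ t (x + l + l) - 2 * θ t (x + l) + θ t x| ≤ An φ t * nm l ^ 2 := by
  have e : |θ t (x + l + l) - 2 * θ t (x + l) + θ t x| =
      ‖IF (φ t) (x + l + l) - 2 * IF (φ t) (x + l) + IF (φ t) x‖ := by
    rw [← h.rep t ht, ← h.rep t ht, ← h.rep t ht, ← Real.norm_eq_abs, ← Complex.norm_real]
    push_cast
    rfl
  rw [e]
  exact IF_second (int0 h ht) (intN h ht 1) x l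

end RG7Aux

open REGAux RG7Aux in
theorem rg7 : Stmt_RG7 := by
  intro α κ T θ φ h t₀ t₁ h0 h1
  have hsub : Icc t₀ t₁ ⊆ Ioo 0 T := fun t ht => ⟨h0.trans_le ht.1, ht.2.trans_lt h1⟩
  obtain ⟨L, hL⟩ := isCompact_Icc.bddAbove_image ((An_cont h).mono hsub)
  refine ⟨max L 0, le_max_right _ _, fun t ht x l => (secx h (hsub ht) x l).trans ?_⟩
  refine mul_le_mul_of_nonneg_right ?_ (sq_nonneg _)
  exact (hL ⟨t, ht, rfl⟩).trans (le_max_left _ _)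

end Pool.Agent.SQG
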