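import Pool.Agent.SQG.Stmts7
import Pool.Agent.SQG.Rfl
import Pool.Agent.SQG.Rfi

/-!
# The dissipation at a touching point for the concave modulus (module RW7)

A truncated reflection coupling.
-/

set_option autoImplicit false

namespace Pool.Agent.SQG

open Complex MeasureTheory Set Filter Topology ProbabilityTheory

namespace RW7Aux

open RFLAux

/-- the gap of strict convexity -/
noncomputable def gap (γ : ℝ) : ℝ := (5 / 4 : ℝ) ^ (1 + γ) + (3 / 4 : ℝ) ^ (1 + γ) - 2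

lemma gap_pos {γ : ℝ} (hγ : 0 < γ) : 0 < gap γ := by
  have h := strictConvexOn_rpow (show (1 : ℝ) < 1 + γ by linarith)
  have h1 := h.2 (show (5 / 4 : ℝ) ∈ Ici 0 from mem_Ici.2 (by norm_num))
    (show (3 / 4 : ℝ) ∈ Ici 0 from mem_Ici.2 (by norm_num))
    (by norm_num) (show (0 : ℝ) < 1 / 2 by norm_num) (show (0 : ℝ) < 1 / 2 by norm_num)
    (by norm_num)
  simp only [smul_eq_mul] at h1
  have e : (1 / 2 * (5 / 4) + 1 / 2 * (3 / 4) : ℝ) = 1 := by norm_num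
  rw [e, Real.one_rpow] at h1
  unfold gap
  linarith

lemma sym_nonneg {γ u : ℝ} (hγ : 0 < γ) (hu0 : -1 ≤ u) (hu : u ≤ 1) :
    0 ≤ (1 + u) ^ (1 + γ) + (1 - u) ^ (1 + γ) - 2 := by
  have h := convexOn_rpow (show (1 : ℝ) ≤ 1 + γ by linarith)
  have h1 := h.2 (show (1 + u : ℝ) ∈ Ici 0 from mem_Ici.2 (by linarith))
    (show (1 - u : ℝ) ∈ Ici 0 from mem_Ici.2 (by linarith))
    (show (0 : ℝ) ≤ 1 / 2 by norm_num) (show (0 : ℝ) ≤ 1 / 2 by norm_num) (by norm_num)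
  simp only [smul_eq_mul] at h1
  have e : (1 / 2 * (1 + u) + 1 / 2 * (1 - u) : ℝ) = 1 := by ring
  rw [e, Real.one_rpow] at h1
  linarith

lemma sym_ge {γ u : ℝ} (hγ : 0 < γ) (hu0 : 1 / 4 ≤ u) (hu : u ≤ 1) :
    gap γ ≤ (1 + u) ^ (1 + γ) + (1 - u) ^ (1 + γ) - 2 := by
  have h := convexOn_rpow (show (1 : ℝ) ≤ 1 + γ by linarith)
  have hu1 : 0 < u := by linarith
  set t : ℝ := 1 / (4 * u) with ht
  have ht0 : 0 ≤ t := by positivity
  have ht1 : t ≤ 1 := by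
    rw [ht, div_le_one (by positivity)]
    linarith
  have htu : t * u = 1 / 4 := by
    rw [ht]
    field_simp
  have h1 := h.2 (show (1 : ℝ) ∈ Ici 0 from mem_Ici.2 (by norm_num))
    (show (1 + u : ℝ) ∈ Ici 0 from mem_Ici.2 (by linarith))
    (show (0 : ℝ) ≤ 1 - t by linarith) ht0 (by ring)
  have h2 := h.2 (show (1 : ℝ) ∈ Ici 0 from mem_Ici.2 (by norm_num))
    (show (1 - u : ℝ) ∈ Ici 0 from mem_Ici.2 (by linarith))
    (show (0 : ℝ) ≤ 1 - t by linarith) ht0 (by ring)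
  simp only [smul_eq_mul, Real.one_rpow, mul_one] at h1 h2
  have e1 : (1 - t + t * (1 + u) : ℝ) = 5 / 4 := by linear_combination htu
  have e2 : (1 - t + t * (1 - u) : ℝ) = 3 / 4 := by linear_combination -htu
  rw [e1] at h1
  rw [e2] at h2
  have h3 := sym_nonneg hγ (show -1 ≤ u by linarith) hu
  have h4 : t * ((1 + u) ^ (1 + γ) + (1 - u) ^ (1 + γ) - 2) ≤
      1 * ((1 + u) ^ (1 + γ) + (1 - u) ^ (1 + γ) - 2) := mul_le_mul_of_nonneg_right ht1 h3
  unfold gap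
  linarith

lemma w7_mul {γ ξ s : ℝ} (hξ : 0 < ξ) (hξ1 : ξ < 1 / 2) (hs : 0 ≤ s) (hs2 : s ≤ 2) :
    W7 γ (ξ * s) = ξ * s - ξ ^ (1 + γ) * s ^ (1 + γ) / 4 := by
  unfold W7
  have h : ξ * s ≤ 1 := by nlinarith
  rw [if_pos h, Real.mul_rpow hξ.le hs]

/-- the loss of the reflected increment -/
noncomputable def JJ (γ D ξ ρ z : ℝ) : ℝ :=
  D * (ξ ^ (1 + γ) * ((1 + 2 * ρ * z) ^ (1 + γ) - 1) / 4 - ξ * (2 * ρ * z))

/-- the truncated loss -/
noncomputable def JK (γ D ξ ρ z : ℝ) : ℝ :=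
  (Icc (-(1 / (2 * ρ))) (1 / (2 * ρ))).indicator (JJ γ D ξ ρ) z

lemma jj_w7 {γ D ξ ρ z : ℝ} (hξ : 0 < ξ) (hξ1 : ξ < 1 / 2) (hρ : 0 < ρ)
    (hz : z ∈ Icc (-(1 / (2 * ρ))) (1 / (2 * ρ))) :
    D * W7 γ (ξ * (1 + 2 * ρ * z)) = D * W7 γ ξ - JJ γ D ξ ρ z := by
  have h1 : 2 * ρ * (1 / (2 * ρ)) = 1 := by field_simp
  have h2 : 2 * ρ * z ≤ 2 * ρ * (1 / (2 * ρ)) := mul_le_mul_of_nonneg_left hz.2 (by positivity)
  have h3 : 2 * ρ * (-(1 / (2 * ρ))) ≤ 2 * ρ * z := mul_le_mul_of_nonneg_left hz.1 (by positivity)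
  rw [h1] at h2
  rw [mul_neg, h1] at h3
  rw [w7_mul hξ hξ1 (by linarith) (by linarith)]
  have h4 : W7 γ ξ = ξ - ξ ^ (1 + γ) / 4 := by
    unfold W7
    rw [if_pos (by linarith)]
  rw [h4]
  unfold JJ
  ring

lemma jk_int {γ D ξ ρ : ℝ} (hγ : 0 < γ) : Integrable (JK γ D ξ ρ) gr := by
  have hc : Continuous (JJ γ D ξ ρ) := by
    unfold JJ
    have h1 : Continuous fun z : ℝ => (1 + 2 * ρ * z) ^ (1 + γ) :=
      (by fun_prop : Continuous fun z : ℝ => 1 + 2 * ρ * z).rpow_const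
        (fun z => Or.inr (by linarith))
    fun_prop
  have h2 : IntegrableOn (JJ γ D ξ ρ) (Icc (-(1 / (2 * ρ))) (1 / (2 * ρ))) gr :=
    hc.continuousOn.integrableOn_compact isCompact_Icc
  exact (integrable_indicator_iff measurableSet_Icc).2 h2

lemma jk_ge {γ D ξ ρ : ℝ} (hγ : 0 < γ) (hD : 0 < D) (hξ : 0 < ξ)
    (hρ1 : 1 / 8 ≤ ρ) (hρ2 : ρ ≤ 1 / 4) :
    D * ξ ^ (1 + γ) * (gap γ / 8 * gr.real (Icc 1 2)) ≤ ∫ z, JK γ D ξ ρ z ∂gr := by
  have hρ : 0 < ρ := by linarith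
  have hξp : 0 < ξ ^ (1 + γ) := Real.rpow_pos_of_pos hξ _
  have hi := jk_int (γ := γ) (D := D) (ξ := ξ) (ρ := ρ) hγ
  have h2 : MeasurableEmbedding (fun z : ℝ => -z) := (MeasurableEquiv.neg ℝ).measurableEmbedding
  have h3 := mp_neg.integral_comp h2 (JK γ D ξ ρ)
  have hi2 : Integrable (fun z => JK γ D ξ ρ (-z)) gr := mp_neg.integrable_comp_emb h2 |>.2 hi
  have h4 : ∫ z, (JK γ D ξ ρ z + JK γ D ξ ρ (-z)) ∂gr = 2 * ∫ z, JK γ D ξ ρ z ∂gr := by
    rw [integral_add hi hi2, h3]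
    ring
  have hle : ∀ z : ℝ, (Icc (1 : ℝ) 2).indicator (fun _ => D * ξ ^ (1 + γ) * gap γ / 4) z ≤
      JK γ D ξ ρ z + JK γ D ξ ρ (-z) := by
    intro z
    have hR : (2 : ℝ) ≤ 1 / (2 * ρ) := by
      rw [le_div_iff₀ (by positivity)]
      linarith
    by_cases hz : z ∈ Icc (-(1 / (2 * ρ))) (1 / (2 * ρ))
    · have hz' : -z ∈ Icc (-(1 / (2 * ρ))) (1 / (2 * ρ)) := ⟨by linarith [hz.2], by linarith [hz.1]⟩
      have e : JK γ D ξ ρ z + JK γ D ξ ρ (-z) =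
          D * ξ ^ (1 + γ) / 4 * ((1 + 2 * ρ * z) ^ (1 + γ) + (1 - 2 * ρ * z) ^ (1 + γ) - 2) := by
        unfold JK
        rw [indicator_of_mem hz, indicator_of_mem hz']
        unfold JJ
        rw [show 1 + 2 * ρ * -z = 1 - 2 * ρ * z by ring]
        ring
      rw [e]
      have h1 : 2 * ρ * (1 / (2 * ρ)) = 1 := by field_simp
      have h2 : 2 * ρ * z ≤ 2 * ρ * (1 / (2 * ρ)) := mul_le_mul_of_nonneg_left hz.2 (by positivity)
      have h3 : 2 * ρ * (-(1 / (2 * ρ))) ≤ 2 * ρ * z := mul_le_mul_of_nonneg_left hz.1 (by positivity)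
      rw [h1] at h2
      rw [mul_neg, h1] at h3
      by_cases hz1 : z ∈ Icc (1 : ℝ) 2
      · rw [indicator_of_mem hz1]
        have h5 : 1 / 4 ≤ 2 * ρ * z := by
          have := hz1.1
          nlinarith
        have h6 := sym_ge hγ h5 h2
        have h7 := mul_le_mul_of_nonneg_left h6 (show 0 ≤ D * ξ ^ (1 + γ) / 4 by positivity)
        linarith
      · rw [indicator_of_notMem hz1]
        exact mul_nonneg (by positivity) (sym_nonneg hγ h3 h2)
    · have hz' : -z ∉ Icc (-(1 / (2 * ρ))) (1 / (2 * ρ)) := by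
        intro h
        exact hz ⟨by linarith [h.2], by linarith [h.1]⟩
      have hz1 : z ∉ Icc (1 : ℝ) 2 := by
        intro h
        exact hz ⟨by linarith [h.1], by linarith [h.2]⟩
      unfold JK
      rw [indicator_of_notMem hz, indicator_of_notMem hz', indicator_of_notMem hz1]
      simp
  have h5 : ∫ z, (Icc (1 : ℝ) 2).indicator (fun _ => D * ξ ^ (1 + γ) * gap γ / 4) z ∂gr ≤
      ∫ z, (JK γ D ξ ρ z + JK γ D ξ ρ (-z)) ∂gr := by
    refine integral_mono ?_ (hi.add hi2) hle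
    exact (integrable_const _).indicator measurableSet_Icc
  rw [h4, integral_indicator measurableSet_Icc, setIntegral_const, smul_eq_mul] at h5
  linarith

lemma gr_pos : 0 < gr.real (Icc 1 2) := by
  rw [Measure.real, ENNReal.toReal_pos_iff]
  refine ⟨?_, measure_lt_top _ _⟩
  rw [pos_iff_ne_zero]
  intro h
  have h1 := (gaussianReal_absolutelyContinuous' 0 (one_ne_zero : (1 : NNReal) ≠ 0)) h
  rw [Real.volume_Icc] at h1
  norm_num at h1

/-- the truncated reflection coupling -/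
theorem couple7 {f : P2 → ℝ} (hc : Continuous f) {B : ℝ} (hB : ∀ x, |f x| ≤ B)
    {γ D lam b ρ : ℝ} (hγ : 0 < γ) (hD : 0 < D) (hlam : 0 < lam) (hb : 0 < b)
    (hbl : b < lam / 2) (hρ1 : 1 / 8 ≤ ρ) (hρ2 : ρ ≤ 1 / 4)
    (hf : ∀ (y : P2) (s : ℝ), |f (y.1, y.2 + s) - f y| ≤ D * W7 γ (|s| / lam)) (x : P2)
    (hΩ : D * W7 γ (b / lam) ≤ f (x + (0, b)) - f x)
    (hmax : ∀ y : P2, f (y + (0, b)) - f y ≤ f (x + (0, b)) - f x) :
    D * (b / lam) ^ (1 + γ) * (gap γ / 8 * gr.real (Icc 1 2)) ≤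
      (f (x + (0, b)) - f x) - (Av (ρ * b) f (x + (0, b)) - Av (ρ * b) f x) := by
  have hρ : 0 < ρ := by linarith
  set ξ : ℝ := b / lam with hξdef
  have hξ : 0 < ξ := div_pos hb hlam
  have hξ1 : ξ < 1 / 2 := by
    rw [hξdef, div_lt_iff₀ hlam]
    linarith
  set Ω : ℝ := f (x + (0, b)) - f x with hΩdef
  set r : ℝ := ρ * b with hr
  have i1 : Integrable (fun z : P2 => f ((x + (0, b)).1 + r * z.1, (x + (0, b)).2 + r * z.2)) gm :=
    LBAux.av_int hc hB r (x + (0, b))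
  have i2 : Integrable (fun z : P2 => f (x.1 + r * z.1, x.2 + r * z.2)) gm :=
    LBAux.av_int hc hB r x
  have i3 : Integrable (fun z : P2 => f (x.1 + r * z.1, x.2 - r * z.2)) gm := by
    have h1 : Continuous fun z : P2 => f (x.1 + r * z.1, x.2 - r * z.2) := by fun_prop
    exact Integrable.of_bound h1.aestronglyMeasurable B
      (Filter.Eventually.of_forall fun z => by rw [Real.norm_eq_abs]; exact hB _)
  set K : Set ℝ := Icc (-(1 / (2 * ρ))) (1 / (2 * ρ)) with hK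
  set S : Set P2 := {z | z.2 ∈ K} with hS
  have hSm : MeasurableSet S := measurable_snd measurableSet_Icc
  -- the reflection
  have hSr : (fun z : P2 => ((z.1, -z.2) : P2)) ⁻¹' S = S := by
    ext z
    simp only [hS, hK, mem_preimage, mem_ofPred_eq, mem_Icc]
    constructor
    · rintro ⟨h1, h2⟩
      exact ⟨by linarith, by linarith⟩
    · rintro ⟨h1, h2⟩
      exact ⟨by linarith, by linarith⟩
  have hrefl : ∫ z in S, f (x.1 + r * z.1, x.2 - r * z.2) ∂gm =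
      ∫ z in S, f (x.1 + r * z.1, x.2 + r * z.2) ∂gm := by
    have h := mp_refl.setIntegral_preimage_emb me_refl
      (fun z : P2 => f (x.1 + r * z.1, x.2 + r * z.2)) S
    rw [hSr] at h
    rw [← h]
    refine integral_congr_ae (Filter.Eventually.of_forall fun z => ?_)
    show f (x.1 + r * z.1, x.2 - r * z.2) = f (x.1 + r * z.1, x.2 + r * -z.2)
    rw [mul_neg, ← sub_eq_add_neg]
  -- the loss
  have iJ : Integrable (fun z : P2 => JK γ D ξ ρ z.2) gm := by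
    have h := Integrable.comp_snd (jk_int (γ := γ) (D := D) (ξ := ξ) (ρ := ρ) hγ) gr
    exact h
  have iU : Integrable (fun z : P2 => Ω - JK γ D ξ ρ z.2) gm := (integrable_const Ω).sub iJ
  have hA : ∫ z in S, (f ((x + (0, b)).1 + r * z.1, (x + (0, b)).2 + r * z.2) -
      f (x.1 + r * z.1, x.2 - r * z.2)) ∂gm ≤ ∫ z in S, (Ω - JK γ D ξ ρ z.2) ∂gm := by
    refine setIntegral_mono_on (i1.sub i3).integrableOn iU.integrableOn hSm fun z hz => ?_
    have hz2 : z.2 ∈ K := hz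
    have h1 := (le_abs_self _).trans (hf (x.1 + r * z.1, x.2 - r * z.2) (b * (1 + 2 * ρ * z.2)))
    have e1 : ((x.1 + r * z.1, x.2 - r * z.2 + b * (1 + 2 * ρ * z.2)) : P2) =
        ((x + (0, b)).1 + r * z.1, (x + (0, b)).2 + r * z.2) := by
      apply Prod.ext
      · simp
      · simp only [Prod.snd_add, hr]
        ring
    have h2 : 2 * ρ * (1 / (2 * ρ)) = 1 := by field_simp
    have h3 : 2 * ρ * (-(1 / (2 * ρ))) ≤ 2 * ρ * z.2 :=
      mul_le_mul_of_nonneg_left hz2.1 (by positivity)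
    rw [mul_neg, h2] at h3
    have e2 : |b * (1 + 2 * ρ * z.2)| / lam = ξ * (1 + 2 * ρ * z.2) := by
      rw [abs_of_nonneg (mul_nonneg hb.le (by linarith)), hξdef]
      ring
    rw [e2, jj_w7 hξ hξ1 hρ hz2] at h1
    have e3 : JK γ D ξ ρ z.2 = JJ γ D ξ ρ z.2 := by
      unfold JK
      rw [indicator_of_mem hz2]
    rw [e3]
    have h1' : f (x.1 + r * z.1, x.2 - r * z.2 + b * (1 + 2 * ρ * z.2)) -
        f (x.1 + r * z.1, x.2 - r * z.2) ≤ D * W7 γ ξ - JJ γ D ξ ρ z.2 := h1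
    rw [e1] at h1'
    linarith
  have hAc : ∫ z in Sᶜ, (f ((x + (0, b)).1 + r * z.1, (x + (0, b)).2 + r * z.2) -
      f (x.1 + r * z.1, x.2 + r * z.2)) ∂gm ≤ ∫ z in Sᶜ, (Ω - JK γ D ξ ρ z.2) ∂gm := by
    refine setIntegral_mono_on (i1.sub i2).integrableOn iU.integrableOn hSm.compl fun z hz => ?_
    have hz2 : z.2 ∉ K := hz
    have h4 := hmax (x.1 + r * z.1, x.2 + r * z.2)
    have h5 : ((x + (0, b)).1 + r * z.1, (x + (0, b)).2 + r * z.2) =
        ((x.1 + r * z.1, x.2 + r * z.2) : P2) + (0, b) := by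
      apply Prod.ext
      · simp only [Prod.fst_add]; ring
      · simp only [Prod.snd_add]; ring
    rw [h5]
    have e3 : JK γ D ξ ρ z.2 = 0 := by
      unfold JK
      rw [indicator_of_notMem hz2]
    rw [e3]
    linarith
  have s1 := integral_add_compl hSm i1
  have s2 := integral_add_compl hSm i2
  have s3 := integral_add_compl hSm iU
  have t1 : ∫ z in S, (f ((x + (0, b)).1 + r * z.1, (x + (0, b)).2 + r * z.2) -
      f (x.1 + r * z.1, x.2 - r * z.2)) ∂gm =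
      ∫ z in S, f ((x + (0, b)).1 + r * z.1, (x + (0, b)).2 + r * z.2) ∂gm -
      ∫ z in S, f (x.1 + r * z.1, x.2 - r * z.2) ∂gm :=
    integral_sub i1.integrableOn i3.integrableOn
  have t2 : ∫ z in Sᶜ, (f ((x + (0, b)).1 + r * z.1, (x + (0, b)).2 + r * z.2) -
      f (x.1 + r * z.1, x.2 + r * z.2)) ∂gm =
      ∫ z in Sᶜ, f ((x + (0, b)).1 + r * z.1, (x + (0, b)).2 + r * z.2) ∂gm -
      ∫ z in Sᶜ, f (x.1 + r * z.1, x.2 + r * z.2) ∂gm :=
    integral_sub i1.integrableOn i2.integrableOn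
  have t3 : ∫ z : P2, (Ω - JK γ D ξ ρ z.2) ∂gm = Ω - ∫ z, JK γ D ξ ρ z ∂gr := by
    rw [integral_sub (integrable_const Ω) iJ, gm_snd]
    simp
  rw [t1, hrefl] at hA
  rw [t2] at hAc
  have hj := jk_ge hγ hD hξ hρ1 hρ2
  have hav : Av r f (x + (0, b)) - Av r f x ≤ Ω - ∫ z, JK γ D ξ ρ z ∂gr := by
    rw [← t3, ← s3]
    unfold Av
    rw [← s1, ← s2]
    linarith
  linarith

/-- the dissipation for a vertical displacement -/
theorem core (hGA : Stmt_GA) (hD : Stmt_DER) (α γ : ℝ) (hα : 0 < α) (hα2 : α < 1 / 2)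
    (hγ : 0 < γ) : ∃ c : ℝ, 0 < c ∧
    ∀ (f : P2 → ℝ) (φ : P2 → ℂ) (D lam : ℝ), NF f φ → 0 < D → 0 < lam →
    (∀ (y : P2) (s : ℝ), |f (y.1, y.2 + s) - f y| ≤ D * W7 γ (|s| / lam)) → ∀ (x : P2) (b : ℝ),
    0 < b → b < lam / 2 → D * W7 γ (b / lam) ≤ f (x + (0, b)) - f x →
    (∀ y : P2, f (y + (0, b)) - f y ≤ f (x + (0, b)) - f x) →
    c * D * (b / lam) ^ (1 + γ) * b ^ (-2 * α) ≤
      (IF (LL α φ) (x + (0, b)) - IF (LL α φ) x).re := by
  obtain ⟨hcL, hGA⟩ := hGA α hα hα2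
  set A : ℝ := gap γ / 8 * gr.real (Icc 1 2) with hA
  have hA0 : 0 < A := mul_pos (by have := gap_pos hγ; linarith) gr_pos
  set ρ₀ : ℝ := 1 / 4 with hρ₀def
  have hρ₀ : 0 < ρ₀ := by norm_num [hρ₀def]
  refine ⟨cL α * A * (ρ₀ / 2) * ρ₀ ^ (-1 - 2 * α), by positivity, ?_⟩
  intro f φ D lam hf hD0 hlam hmod x b hb hbl hΩ hmax
  obtain ⟨hc, ⟨B, hB⟩, -⟩ := hD f φ hf
  obtain ⟨hi1, he1⟩ := hGA f φ hf (x + (0, b))
  obtain ⟨hi2, he2⟩ := hGA f φ hf x
  set S : ℝ := D * (b / lam) ^ (1 + γ) with hS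
  have hS0 : 0 ≤ S := by positivity
  set Ω : ℝ := f (x + (0, b)) - f x with hΩdef
  have hR : (IF (LL α φ) (x + (0, b)) - IF (LL α φ) x).re =
      cL α * ∫ r in Ioi (0 : ℝ), (Ω - (Av r f (x + (0, b)) - Av r f x)) * r ^ (-1 - 2 * α) := by
    rw [he1, he2, ← Complex.ofReal_sub, Complex.ofReal_re, ← mul_sub, ← integral_sub hi1 hi2]
    congr 1
    refine integral_congr_ae (Filter.Eventually.of_forall fun r => ?_)
    simp only [hΩdef]
    ring
  have hint : IntegrableOn (fun r : ℝ => (Ω - (Av r f (x + (0, b)) - Av r f x)) *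
      r ^ (-1 - 2 * α)) (Ioi 0) := by
    refine (hi1.sub hi2).congr (Filter.Eventually.of_forall fun r => ?_)
    simp only [hΩdef, Pi.sub_apply]
    ring
  have hnn : ∀ r : ℝ, 0 ≤ Ω - (Av r f (x + (0, b)) - Av r f x) := by
    intro r
    have h3 : Av r f (x + (0, b)) - Av r f x ≤ Ω := by
      refine LBAux.av_le hc hB r x (x + (0, b)) Ω fun z => ?_
      have h4 := hmax (x.1 + r * z.1, x.2 + r * z.2)
      have h5 : ((x + (0, b)).1 + r * z.1, (x + (0, b)).2 + r * z.2) =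
          ((x.1 + r * z.1, x.2 + r * z.2) : P2) + (0, b) := by
        apply Prod.ext
        · simp only [Prod.fst_add]; ring
        · simp only [Prod.snd_add]; ring
      rw [h5]
      exact h4
    linarith
  -- the lower bound for `ρ₀ b / 2 ≤ r ≤ ρ₀ b`
  have hlow : ∀ r ∈ Ioc (ρ₀ * b / 2) (ρ₀ * b),
      A * S * (ρ₀ * b) ^ (-1 - 2 * α) ≤
        (Ω - (Av r f (x + (0, b)) - Av r f x)) * r ^ (-1 - 2 * α) := by
    intro r hr
    have hr0 : 0 < r := lt_trans (by positivity) hr.1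
    set ρ : ℝ := r / b with hρ
    have hρr : ρ * b = r := div_mul_cancel₀ r hb.ne'
    have hρle : ρ ≤ 1 / 4 := by
      rw [hρ, div_le_iff₀ hb]
      exact hr.2
    have hρge : 1 / 8 ≤ ρ := by
      rw [hρ, le_div_iff₀ hb]
      have := hr.1.le
      rw [hρ₀def] at this
      linarith
    have h3 := couple7 hc hB hγ hD0 hlam hb hbl hρge hρle hmod x hΩ hmax
    rw [hρr] at h3
    have h7 : A * S ≤ Ω - (Av r f (x + (0, b)) - Av r f x) := by
      rw [mul_comm A S]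
      exact h3
    have h8 : (ρ₀ * b) ^ (-1 - 2 * α) ≤ r ^ (-1 - 2 * α) :=
      Real.rpow_le_rpow_of_nonpos hr0 hr.2 (by linarith)
    exact mul_le_mul h7 h8 (Real.rpow_nonneg (by positivity) _) (hnn r)
  have hlt : ρ₀ * b / 2 ≤ ρ₀ * b := by
    have : 0 < ρ₀ * b := by positivity
    linarith
  have hsub : Ioc (ρ₀ * b / 2) (ρ₀ * b) ⊆ Ioi (0 : ℝ) := by
    intro r hr
    exact lt_trans (by positivity) hr.1
  have hI : ρ₀ * b / 2 * (A * S * (ρ₀ * b) ^ (-1 - 2 * α)) ≤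
      ∫ r in Ioi (0 : ℝ), (Ω - (Av r f (x + (0, b)) - Av r f x)) * r ^ (-1 - 2 * α) := by
    have h3 : ∫ _ in Ioc (ρ₀ * b / 2) (ρ₀ * b), A * S * (ρ₀ * b) ^ (-1 - 2 * α) =
        ρ₀ * b / 2 * (A * S * (ρ₀ * b) ^ (-1 - 2 * α)) := by
      rw [setIntegral_const, smul_eq_mul, Real.volume_real_Ioc_of_le hlt]
      congr 1
      ring
    rw [← h3]
    calc ∫ _ in Ioc (ρ₀ * b / 2) (ρ₀ * b), A * S * (ρ₀ * b) ^ (-1 - 2 * α)
        ≤ ∫ r in Ioc (ρ₀ * b / 2) (ρ₀ * b),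
            (Ω - (Av r f (x + (0, b)) - Av r f x)) * r ^ (-1 - 2 * α) := by
          refine setIntegral_mono_on ?_ (hint.mono_set hsub) measurableSet_Ioc hlow
          exact integrableOn_const (by simp)
      _ ≤ _ := by
          refine setIntegral_mono_set hint ?_ hsub.eventuallyLE
          refine (ae_restrict_iff' measurableSet_Ioi).mpr
            (Filter.Eventually.of_forall fun r hr => ?_)
          exact mul_nonneg (hnn r) (Real.rpow_nonneg (le_of_lt hr) _)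
  rw [hR]
  have h7 := mul_le_mul_of_nonneg_left hI hcL.le
  refine le_trans (le_of_eq ?_) h7
  have e1 : (ρ₀ * b) ^ (-1 - 2 * α) = ρ₀ ^ (-1 - 2 * α) * b ^ (-1 - 2 * α) :=
    Real.mul_rpow hρ₀.le hb.le
  have e2 : b ^ (-2 * α) = b * b ^ (-1 - 2 * α) := by
    have e3 : b * b ^ (-1 - 2 * α) = b ^ (1 : ℝ) * b ^ (-1 - 2 * α) := by
      rw [Real.rpow_one]
    rw [e3, ← Real.rpow_add hb]
    congr 1
    ring
  rw [e1, e2, hS]
  ring

end RW7Aux

open RW7Aux RFIAux ROTAux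

theorem rw7 (hGA : Stmt_GA) (hD : Stmt_DER) : Stmt_RW7 := by
  intro α γ hα hα2 hγ hγ1
  obtain ⟨c, hc, H⟩ := core hGA hD α γ hα hα2 hγ
  refine ⟨c, hc, ?_⟩
  intro f φ D lam hf hD0 hlam hmod x h hh hhl hx hmax
  set L := nm h with hL
  have hL2 : L ^ 2 = h.1 ^ 2 + h.2 ^ 2 := by
    rw [hL, nm, Real.sq_sqrt (by positivity)]
  have hL0 : L ≠ 0 := hh.ne'
  obtain ⟨e, hedef⟩ : ∃ e : P2, e = (h.2 / L, -h.1 / L) := ⟨_, rfl⟩
  have he : e.1 ^ 2 + e.2 ^ 2 = 1 := by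
    rw [hedef]
    simp only
    field_simp
    linarith
  have hrh : ROTAux.rot e ((0, L) : P2) = h := by
    rw [hedef]
    simp only [ROTAux.rot]
    ext
    · simp only
      field_simp
      ring
    · simp only
      field_simp
      ring
  set y₀ := ROTAux.rot (e.1, -e.2) x with hy0
  have hry : ROTAux.rot e y₀ = x := rot_inv' he x
  have hnf := nf_rot hf he
  have hmod2 : ∀ (y : P2) (s : ℝ), |(fun x => f (ROTAux.rot e x)) (y.1, y.2 + s) -
      (fun x => f (ROTAux.rot e x)) y| ≤ D * W7 γ (|s| / lam) := by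
    intro y s
    have h1 := hmod (ROTAux.rot e y) (ROTAux.rot e (0, s))
    rw [← rot_add, nm_rot he, nm_snd] at h1
    have h2 : y + ((0, s) : P2) = (y.1, y.2 + s) := by
      ext
      · simp
      · simp
    rw [h2] at h1
    exact h1
  have key := H (fun x => f (ROTAux.rot e x)) (fun ξ => φ (ROTAux.rot e ξ)) D lam hnf hD0 hlam
    hmod2 y₀ L hh hhl (by
      simp only [rot_add, hrh, hry]
      exact hx) (by
      intro y
      simp only [rot_add, hrh, hry]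
      exact hmax _)
  rw [ll_rot he, ll_rot he, rot_add, hrh, hry] at key
  exact key

end Pool.Agent.SQG
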