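import Pool.Agent.SQG.Stmts7

/-!
# Large, nearly one-dimensional data: no touching point for the increments in direction `1`
-/

set_option autoImplicit false

namespace Pool.Agent.SQG

open Complex MeasureTheory Set Filter Topology ProbabilityTheory

namespace SD7Aux

theorem nm_nonneg (h : P2) : 0 ≤ nm h := Real.sqrt_nonneg _

theorem nm_snd (s : ℝ) : nm (0, s) = |s| := by
  unfold nm
  simp [Real.sqrt_sq_eq_abs]

/-- The profile is at most a power. -/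
theorem W7_le {γ a ξ : ℝ} (ha : 0 < a) (ha1 : a < 1) (hξ : 0 ≤ ξ) : W7 γ ξ ≤ ξ ^ a := by
  unfold W7
  split_ifs with h
  · have h1 : 0 ≤ ξ ^ (1 + γ) / 4 := by positivity
    have h2 : ξ ≤ ξ ^ a := by
      rcases hξ.eq_or_lt with h0 | h0
      · rw [← h0, Real.zero_rpow ha.ne']
      · calc ξ = ξ ^ (1 : ℝ) := (Real.rpow_one ξ).symm
          _ ≤ ξ ^ a := Real.rpow_le_rpow_of_exponent_ge h0 h ha1.le
    linarith
  · rw [not_le] at h
    have h1 : 1 ≤ ξ ^ a := Real.one_le_rpow h.le ha.le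
    linarith

/-- The numerical contradiction. -/
theorem core {α κ c C₁ C₂ D K E r R U₁ U₂ : ℝ} (hκ : 0 < κ) (hc : 0 < c) (hD : 0 ≤ D)
    (hE : 0 < E) (hr : 0 < r) (hK : K = (C₁ * D) ^ 2 / (4 * κ * c) + C₂ * D + 1)
    (hR : c * E * r ^ (1 / 2 - 2 * α) ≤ R) (hU₁ : U₁ ≤ C₁ * D * r ^ (1 - α))
    (hU₂ : U₂ ≤ C₂ * E * r ^ (1 / 2 : ℝ))
    (hF : E * K * r ^ (1 / 2 : ℝ) + κ * R ≤ U₁ * (E * r ^ (-(1 / 2) : ℝ)) + U₂ * D) : False := by
  obtain ⟨y, hy⟩ : ∃ y : ℝ, y = r ^ (-α) := ⟨_, rfl⟩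
  have hu : 0 < r ^ (1 / 2 : ℝ) := Real.rpow_pos_of_pos hr _
  have hv : 0 < r ^ (-(1 / 2) : ℝ) := Real.rpow_pos_of_pos hr _
  have e1 : r ^ (1 / 2 - 2 * α) = r ^ (1 / 2 : ℝ) * y ^ 2 := by
    rw [hy, ← Real.rpow_natCast, ← Real.rpow_mul hr.le, ← Real.rpow_add hr]
    congr 1
    push_cast
    ring
  have e2 : r ^ (1 - α) * r ^ (-(1 / 2) : ℝ) = r ^ (1 / 2 : ℝ) * y := by
    rw [hy, ← Real.rpow_add hr, ← Real.rpow_add hr]
    congr 1
    ring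
  have h1 : U₁ * (E * r ^ (-(1 / 2) : ℝ)) ≤ C₁ * D * (E * (r ^ (1 / 2 : ℝ) * y)) := by
    calc U₁ * (E * r ^ (-(1 / 2) : ℝ)) ≤ C₁ * D * r ^ (1 - α) * (E * r ^ (-(1 / 2) : ℝ)) :=
          mul_le_mul_of_nonneg_right hU₁ (by positivity)
      _ = C₁ * D * (E * (r ^ (1 - α) * r ^ (-(1 / 2) : ℝ))) := by ring
      _ = _ := by rw [e2]
  have h2 : U₂ * D ≤ C₂ * E * r ^ (1 / 2 : ℝ) * D := mul_le_mul_of_nonneg_right hU₂ hD
  have h3 : κ * (c * E * (r ^ (1 / 2 : ℝ) * y ^ 2)) ≤ κ * R := by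
    rw [← e1]
    exact mul_le_mul_of_nonneg_left hR hκ.le
  have h4 : (E * r ^ (1 / 2 : ℝ)) * (K + κ * c * y ^ 2) ≤
      (E * r ^ (1 / 2 : ℝ)) * (C₁ * D * y + C₂ * D) := by
    have : (E * r ^ (1 / 2 : ℝ)) * (K + κ * c * y ^ 2) =
        E * K * r ^ (1 / 2 : ℝ) + κ * (c * E * (r ^ (1 / 2 : ℝ) * y ^ 2)) := by ring
    rw [this]
    have h5 : (E * r ^ (1 / 2 : ℝ)) * (C₁ * D * y + C₂ * D) =
        C₁ * D * (E * (r ^ (1 / 2 : ℝ) * y)) + C₂ * E * r ^ (1 / 2 : ℝ) * D := by ring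
    rw [h5]
    linarith
  have h6 := le_of_mul_le_mul_left h4 (mul_pos hE hu)
  have hκc : 0 < 4 * κ * c := by positivity
  have h7 : C₁ * D * y ≤ κ * c * y ^ 2 + (C₁ * D) ^ 2 / (4 * κ * c) := by
    have h8 : 0 ≤ (2 * κ * c * y - C₁ * D) ^ 2 / (4 * κ * c) := by positivity
    have h9 : (2 * κ * c * y - C₁ * D) ^ 2 / (4 * κ * c) =
        κ * c * y ^ 2 - C₁ * D * y + (C₁ * D) ^ 2 / (4 * κ * c) := by
      field_simp
      ring
    rw [h9] at h8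
    linarith
  rw [hK] at h6
  linarith

end SD7Aux

open SD7Aux in
theorem sd7 (hR : Stmt_REG) (hU : Stmt_UB2) (hRd : Stmt_RD7) (hF : Stmt_FD7) : Stmt_SD7 := by
  intro α hα hα' κ M hκ hM
  obtain ⟨C, hC0, hUB⟩ := hU
  obtain ⟨c, hc, hRD⟩ := hRd α (1 / 2) hα hα' (by norm_num) (by norm_num)
  obtain ⟨D, hD⟩ : ∃ D : ℝ, D = 6 * M := ⟨_, rfl⟩
  have hD0 : 0 < D := by rw [hD]; positivity
  obtain ⟨K, hK⟩ : ∃ K : ℝ, K = (C (1 - α) * D) ^ 2 / (4 * κ * c) + C (1 / 2) * D + 1 := ⟨_, rfl⟩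
  have hK0 : 0 < K := by
    rw [hK]
    have h1 : 0 ≤ (C (1 - α) * D) ^ 2 / (4 * κ * c) := by positivity
    have h2 : 0 < C (1 / 2) * D := mul_pos (hC0 _) hD0
    linarith
  refine ⟨K, hK0, ?_⟩
  intro T θ φ hS t₀ t E₀ lam x a ht₀ ht0 htT hE₀ hlam ha hmod heq
  obtain ⟨hNF, -⟩ := hR α κ T θ φ hS
  have htI : t ∈ Ioo 0 T := ⟨ht₀.trans ht0, htT⟩
  have htK : t ∈ Icc t₀ t := ⟨ht0.le, le_rfl⟩
  have hnf := hNF t htI
  obtain ⟨E, hE⟩ : ∃ E : ℝ → ℝ, E = fun s => E₀ * Real.exp (K * (s - t₀)) := ⟨_, rfl⟩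
  have hEt : E t = E₀ * Real.exp (K * (t - t₀)) := by rw [hE]
  have hEt0 : 0 < E t := by rw [hEt]; positivity
  have hder : HasDerivAt E (E t * K) t := by
    have h1 : HasDerivAt (fun s : ℝ => K * (s - t₀)) (K * 1) t :=
      ((hasDerivAt_id t).sub_const t₀).const_mul K
    have h2 := (h1.exp).const_mul E₀
    rw [hE]
    have h3 : (fun s => E₀ * Real.exp (K * (s - t₀))) t * K =
        E₀ * (Real.exp (K * (t - t₀)) * (K * 1)) := by
      beta_reduce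
      ring
    rw [h3]
    exact h2
  have hmod' : ∀ s ∈ Icc t₀ t, Mod7 (θ s) (E s) D (lam s) (α / 2) := by
    intro s hs
    rw [hE, hD]
    exact hmod s hs
  have heq' : θ t (x.1 + a, x.2) - θ t x = E t * |a| ^ (1 / 2 : ℝ) := by
    rw [hEt]
    exact heq
  have hlt : 1 ≤ lam t := hlam t htK
  obtain ⟨hm1, hm2⟩ := hmod' t htK
  have hF' := hF α κ T θ φ hS D (α / 2) t₀ t (E t * K) E lam x a ht₀ ht0 htT hD0 (by linarith)
    (by linarith) hEt0.le hlt hder ha hmod' heq'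
  have hmax : ∀ y : P2, θ t (y.1 + a, y.2) - θ t y ≤ θ t (x.1 + a, x.2) - θ t x := by
    intro y
    rw [heq']
    exact (le_abs_self _).trans (hm1 y a)
  have hRd' := hRD (θ t) (φ t) (E t) hnf hEt0.le hm1 x a ha (le_of_eq heq'.symm) hmax
  have hr : 0 < |a| := abs_pos.2 ha
  have hxa : x + ((a, 0) : P2) = (x.1 + a, x.2) := by
    ext
    · simp
    · simp
  -- the first velocity
  have h2s : H2s (θ t) D (1 - α) 0 (1 - α) := by
    intro y s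
    have h1 := hm2 y (0, s)
    have h2 : y + ((0, s) : P2) = (y.1, y.2 + s) := by
      ext
      · simp
      · simp
    rw [h2, nm_snd] at h1
    have h3 : |s| / lam t ≤ |s| := div_le_self (abs_nonneg s) hlt
    have h4 : 0 ≤ |s| / lam t := by positivity
    have h5 : W7 (α / 2) (|s| / lam t) ≤ |s| ^ (1 - α) :=
      (W7_le (by linarith) (by linarith) h4).trans (Real.rpow_le_rpow h4 h3 (by linarith))
    rw [zero_mul, add_zero]
    exact h1.trans (mul_le_mul_of_nonneg_left h5 hD0.le)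
  have h1s : H1s (θ t) (E t) (1 / 2) 0 (1 / 2) := by
    intro y s
    rw [zero_mul, add_zero]
    exact hm1 y s
  obtain ⟨-, hV1⟩ := hUB (1 - α) (1 - α) (by linarith) (by linarith) (by linarith) (by linarith)
    (θ t) (φ t) D 0 hnf hD0.le le_rfl
  obtain ⟨hV2, -⟩ := hUB (1 / 2) (1 / 2) (by norm_num) (by norm_num) (by norm_num) (by norm_num)
    (θ t) (φ t) (E t) 0 hnf hEt0.le le_rfl
  have hV1' := hV1 h2s x (a, 0)
  have hV2' := hV2 h1s x (a, 0)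
  rw [hxa] at hV1' hV2'
  simp only [abs_zero, add_zero, mul_zero, zero_mul] at hV1' hV2'
  exact core hκ hc hD0.le hEt0 hr hK hRd' hV1' hV2' hF'

end Pool.Agent.SQG
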