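import Pool.Agent.SQG.Stmts7

/-!
# Large, nearly one-dimensional data: no touching point for the isotropic increments
-/

set_option autoImplicit false

namespace Pool.Agent.SQG

open Complex MeasureTheory Set Filter Topology ProbabilityTheory

namespace SI7Aux

theorem nm_fst (s : ℝ) : nm (s, 0) = |s| := by
  unfold nm
  simp [Real.sqrt_sq_eq_abs]

theorem nm_snd (s : ℝ) : nm (0, s) = |s| := by
  unfold nm
  simp [Real.sqrt_sq_eq_abs]

theorem abs_fst_le (h : P2) : |h.1| ≤ nm h := by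
  unfold nm
  apply Real.le_sqrt_of_sq_le
  rw [sq_abs]
  nlinarith [sq_nonneg h.2]

theorem abs_snd_le (h : P2) : |h.2| ≤ nm h := by
  unfold nm
  apply Real.le_sqrt_of_sq_le
  rw [sq_abs]
  nlinarith [sq_nonneg h.1]

/-- The profile is at most a power. -/
theorem W7_le {γ a ξ : ℝ} (ha : 0 < a) (ha1 : a < 1) (hξ : 0 ≤ ξ) : W7 γ ξ ≤ ξ ^ a := by
  unfold W7
  split_ifs with h
  · have h1 : 0 ≤ ξ ^ (1 + γ) / 4 := by positivity
    have h2 : ξ ≤ ξ ^ a := by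
      rcases hξ.eq_or_lt with h0 | h0
      · rw [← h0, Real.zero_rpow ha.ne']
      · calc ξ = ξ ^ (1 : ℝ) := (Real.rpow_one ξ).symm
          _ ≤ ξ ^ a := Real.rpow_le_rpow_of_exponent_ge h0 h ha1.le
    linarith
  · rw [not_le] at h
    have h1 : 1 ≤ ξ ^ a := Real.one_le_rpow h.le ha.le
    linarith

/-- The bound of a velocity increment with a power. -/
theorem vel {C' C A a r s : ℝ} (hC : C' ≤ C) (hC0 : 0 < C') (hA : 0 ≤ A) (ha : 0 < a) (ha1 : a ≤ 1)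
    (hr : 0 ≤ r) (hs : 0 ≤ s) (hsr : s ≤ 2 * r) : C' * A * s ^ a ≤ 2 * C * A * r ^ a := by
  have h1 : s ^ a ≤ 2 * r ^ a := by
    calc s ^ a ≤ (2 * r) ^ a := Real.rpow_le_rpow hs hsr ha.le
      _ = 2 ^ a * r ^ a := Real.mul_rpow (by norm_num) hr
      _ ≤ 2 * r ^ a := by
          refine mul_le_mul_of_nonneg_right ?_ (Real.rpow_nonneg hr _)
          calc (2 : ℝ) ^ a ≤ 2 ^ (1 : ℝ) := Real.rpow_le_rpow_of_exponent_le (by norm_num) ha1
            _ = 2 := Real.rpow_one _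
  have h2 : 0 ≤ r ^ a := Real.rpow_nonneg hr _
  calc C' * A * s ^ a ≤ C' * A * (2 * r ^ a) := mul_le_mul_of_nonneg_left h1 (by positivity)
    _ ≤ C * A * (2 * r ^ a) := by gcongr
    _ = 2 * C * A * r ^ a := by ring

/-- The derivative of the scale. -/
theorem lam7_deriv {α c κ t₀ t w : ℝ} (hα : 0 < α) (hκ : 0 < κ) (hc : c = α * w / 2) (hw : 0 < w)
    (ht : t₀ ≤ t) : ∃ l' : ℝ, 0 ≤ l' ∧ HasDerivAt (lam7 α c κ t₀) l' t ∧
    l' / lam7 α c κ t₀ t = κ * w / 4 * lam7 α c κ t₀ t ^ (-2 * α) := by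
  have hc0 : 0 < c := by rw [hc]; positivity
  obtain ⟨B, hB⟩ : ∃ B : ℝ, B = 1 + c * κ * (t - t₀) := ⟨_, rfl⟩
  have hB1 : 1 ≤ B := by
    rw [hB]
    have : 0 ≤ c * κ * (t - t₀) := mul_nonneg (by positivity) (by linarith)
    linarith
  have hB0 : 0 < B := by linarith
  have hl : lam7 α c κ t₀ t = B ^ (1 / (2 * α)) := by rw [hB]; rfl
  have hd : HasDerivAt (fun s : ℝ => 1 + c * κ * (s - t₀)) (c * κ * 1) t :=
    (((hasDerivAt_id t).sub_const t₀).const_mul (c * κ)).const_add 1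
  have h1 := hd.rpow_const (p := 1 / (2 * α)) (Or.inl (by rw [← hB]; exact hB0.ne'))
  refine ⟨c * κ * 1 * (1 / (2 * α)) * (1 + c * κ * (t - t₀)) ^ (1 / (2 * α) - 1), ?_, h1, ?_⟩
  · rw [← hB]
    positivity
  · rw [← hB, hl, ← Real.rpow_mul hB0.le]
    have h2 : 1 / (2 * α) * (-2 * α) = -1 := by
      field_simp
    rw [h2, Real.rpow_sub_one hB0.ne', Real.rpow_neg_one]
    have h3 : 0 < B ^ (1 / (2 * α)) := Real.rpow_pos_of_pos hB0 _
    rw [hc]
    field_simp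
    ring

end SI7Aux

open SI7Aux in
theorem si7 (hR : Stmt_REG) (hU : Stmt_UB2) (hRw : Stmt_RW7) (hF : Stmt_FI7) (hA : Stmt_AL7)
    (hN : Stmt_NI7) : Stmt_SI7 := by
  intro α hα hα'
  obtain ⟨w, hw, hRW⟩ := hRw α (α / 2) hα hα' (by linarith) (by linarith)
  obtain ⟨C', hC'0, hUB⟩ := hU
  obtain ⟨c, hc⟩ : ∃ c : ℝ, c = α * w / 2 := ⟨_, rfl⟩
  have hc0 : 0 < c := by rw [hc]; positivity
  refine ⟨c, hc0, ?_⟩
  intro κ M K hκ hM hK
  obtain ⟨D, hD⟩ : ∃ D : ℝ, D = 6 * M := ⟨_, rfl⟩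
  have hD0 : 0 < D := by rw [hD]; positivity
  obtain ⟨C, hC⟩ : ∃ C : ℝ, C = max (C' (1 - α)) (C' (1 / 2)) := ⟨_, rfl⟩
  have hC1 : C' (1 - α) ≤ C := by rw [hC]; exact le_max_left _ _
  have hC2 : C' (1 / 2) ≤ C := by rw [hC]; exact le_max_right _ _
  have hC0 : 0 < C := (hC'0 _).trans_le hC1
  obtain ⟨Λ, E₂, hΛ, hE₂, hNI⟩ := hN α κ w D C hα hα' hκ hw hD0 hC0
  obtain ⟨τ, hτ⟩ : ∃ τ : ℝ, τ = Λ ^ (2 * α) / (c * κ) := ⟨_, rfl⟩
  refine ⟨E₂ * Real.exp (-(K * τ)), by positivity, ?_⟩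
  intro T θ φ hS t₀ t x h ht₀ ht0 htT hmod hh hhl heq
  obtain ⟨hNF, -⟩ := hR α κ T θ φ hS
  have htI : t ∈ Ioo 0 T := ⟨ht₀.trans ht0, htT⟩
  have htK : t ∈ Icc t₀ t := ⟨ht0.le, le_rfl⟩
  have hnf := hNF t htI
  have hlam1 : ∀ s, t₀ ≤ s → 1 ≤ lam7 α c κ t₀ s := by
    intro s hs
    unfold lam7
    apply Real.one_le_rpow
    · have : 0 ≤ c * κ * (s - t₀) := mul_nonneg (by positivity) (by linarith)
      linarith
    · positivity
  obtain ⟨l', hl'0, hl'd, hl'e⟩ := lam7_deriv (c := c) hα hκ hc hw ht0.le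
  obtain ⟨lam, hlam⟩ : ∃ lam : ℝ, lam = lam7 α c κ t₀ t := ⟨_, rfl⟩
  have hl1 : 1 ≤ lam := by rw [hlam]; exact hlam1 t ht0.le
  have hl0 : 0 < lam := by linarith
  obtain ⟨e, he⟩ : ∃ e : ℝ, e = E₂ * Real.exp (-(K * τ)) * Real.exp (K * (t - t₀)) := ⟨_, rfl⟩
  have he0 : 0 < e := by rw [he]; positivity
  rw [← hD] at heq
  -- the size of e
  have heE : lam ≤ Λ → e ≤ E₂ := by
    intro hle
    have h1 : lam ^ (2 * α) = 1 + c * κ * (t - t₀) := by
      rw [hlam]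
      unfold lam7
      have h2 : 0 ≤ 1 + c * κ * (t - t₀) := by
        have : 0 ≤ c * κ * (t - t₀) := mul_nonneg (by positivity) (by linarith)
        linarith
      rw [← Real.rpow_mul h2]
      have h3 : 1 / (2 * α) * (2 * α) = 1 := by field_simp
      rw [h3, Real.rpow_one]
    have h2 : lam ^ (2 * α) ≤ Λ ^ (2 * α) := Real.rpow_le_rpow hl0.le hle (by linarith)
    have h3 : t - t₀ ≤ τ := by
      rw [hτ, le_div_iff₀ (by positivity)]
      have : (t - t₀) * (c * κ) = c * κ * (t - t₀) := by ring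
      rw [this]
      linarith
    rw [he, mul_assoc, ← Real.exp_add]
    have h4 : Real.exp (-(K * τ) + K * (t - t₀)) ≤ 1 := by
      rw [Real.exp_le_one_iff]
      have : K * (t - t₀) ≤ K * τ := mul_le_mul_of_nonneg_left h3 hK.le
      linarith
    calc E₂ * Real.exp (-(K * τ) + K * (t - t₀)) ≤ E₂ * 1 := mul_le_mul_of_nonneg_left h4 hE₂.le
      _ = E₂ := mul_one _
  have hmod' : ∀ s ∈ Icc t₀ t, Mod7 (θ s) ((fun s => E₂ * Real.exp (-(K * τ)) *
      Real.exp (K * (s - t₀))) s) D (lam7 α c κ t₀ s) (α / 2) := by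
    intro s hs
    rw [hD]
    exact hmod s hs
  have hmt := hmod' t htK
  beta_reduce at hmt
  rw [← he, ← hlam] at hmt
  obtain ⟨hm1, hm2⟩ := id hmt
  rw [← hlam] at hhl heq
  -- the displacement
  obtain ⟨ξ, hξ⟩ : ∃ ξ : ℝ, ξ = nm h / lam := ⟨_, rfl⟩
  have hξ0 : 0 < ξ := by rw [hξ]; positivity
  have hξ2 : ξ < 1 / 2 := by
    rw [hξ, div_lt_iff₀ hl0]
    linarith
  have hξl : ξ * lam = nm h := by rw [hξ]; field_simp
  -- the equation
  have hF' := hF α κ T θ φ hS D (α / 2) t₀ t l' (fun s => E₂ * Real.exp (-(K * τ)) *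
      Real.exp (K * (s - t₀))) (lam7 α c κ t₀) x h ht₀ ht0 htT hD0 (by linarith) (by linarith)
      (fun s hs => hlam1 s hs.1) hl'd hl'0 hh (by rw [← hlam]; exact hhl) hmod'
      (by rw [← hlam]; exact heq)
  rw [hl'e, ← hlam, ← hξ] at hF'
  have hAl := hA (θ t) e D lam (α / 2) x h he0.le hD0 hl1 (by linarith) (by linarith) hmt hh hhl heq
  have hRW' := hRW (θ t) (φ t) D lam hnf hD0 hl0 hm2 x h hh hhl (le_of_eq heq.symm) (fun y => by
    rw [heq]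
    exact (le_abs_self _).trans (hm2 y h))
  rw [← hξ] at hRW'
  -- the powers
  have hpow : ∀ s : ℝ, D * W7 (α / 2) (|s| / lam) ≤ D * lam ^ (-(1 - α)) * |s| ^ (1 - α) := by
    intro s
    have h1 : 0 ≤ |s| / lam := by positivity
    have h2 := W7_le (γ := α / 2) (a := 1 - α) (by linarith) (by linarith) h1
    have h3 : (|s| / lam) ^ (1 - α) = lam ^ (-(1 - α)) * |s| ^ (1 - α) := by
      rw [Real.div_rpow (abs_nonneg s) hl0.le, Real.rpow_neg hl0.le]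
      field_simp
    rw [h3] at h2
    calc D * W7 (α / 2) (|s| / lam) ≤ D * (lam ^ (-(1 - α)) * |s| ^ (1 - α)) :=
          mul_le_mul_of_nonneg_left h2 hD0.le
      _ = _ := by ring
  have hA0 : 0 ≤ D * lam ^ (-(1 - α)) := by positivity
  have h2s : H2s (θ t) (D * lam ^ (-(1 - α))) (1 - α) 0 (1 - α) := by
    intro y s
    have h1 := hm2 y (0, s)
    have h2 : y + ((0, s) : P2) = (y.1, y.2 + s) := by
      ext
      · simp
      · simp
    rw [h2, nm_snd] at h1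
    rw [zero_mul, add_zero]
    exact h1.trans (hpow s)
  have h1s : H1s (θ t) (D * lam ^ (-(1 - α))) (1 - α) 0 (1 - α) := by
    intro y s
    have h1 := hm2 y (s, 0)
    have h2 : y + ((s, 0) : P2) = (y.1 + s, y.2) := by
      ext
      · simp
      · simp
    rw [h2, nm_fst] at h1
    rw [zero_mul, add_zero]
    exact h1.trans (hpow s)
  have h1s' : H1s (θ t) e (1 / 2) 0 (1 / 2) := by
    intro y s
    rw [zero_mul, add_zero]
    exact hm1 y s
  obtain ⟨hV2, hV1⟩ := hUB (1 - α) (1 - α) (by linarith) (by linarith) (by linarith) (by linarith)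
    (θ t) (φ t) (D * lam ^ (-(1 - α))) 0 hnf hA0 le_rfl
  obtain ⟨hV3, -⟩ := hUB (1 / 2) (1 / 2) (by norm_num) (by norm_num) (by norm_num) (by norm_num)
    (θ t) (φ t) e 0 hnf he0.le le_rfl
  have hV1' := hV1 h2s x h
  have hV2' := hV2 h1s x h
  have hV3' := hV3 h1s' x h
  simp only [mul_zero, zero_mul, add_zero] at hV1' hV2' hV3'
  have hs1 := abs_fst_le h
  have hs2 := abs_snd_le h
  have hsum : |h.1| + |h.2| ≤ 2 * nm h := by linarith
  have hsum0 : 0 ≤ |h.1| + |h.2| := by positivity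
  have hξp : 2 * C * (D * lam ^ (-(1 - α))) * nm h ^ (1 - α) = 2 * C * D * ξ ^ (1 - α) := by
    rw [hξ, Real.div_rpow hh.le hl0.le, Real.rpow_neg hl0.le]
    field_simp
  have e1 : ‖IF (V1 (φ t)) (x + h) - IF (V1 (φ t)) x‖ ≤ 2 * C * D * ξ ^ (1 - α) := by
    rw [← hξp]
    exact hV1'.trans (vel hC1 (hC'0 _) hA0 (by linarith) (by linarith) hh.le hsum0 hsum)
  have e2 : ‖IF (V2 (φ t)) (x + h) - IF (V2 (φ t)) x‖ ≤ 2 * C * D * ξ ^ (1 - α) := by
    rw [← hξp]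
    exact hV2'.trans (vel hC1 (hC'0 _) hA0 (by linarith) (by linarith) hh.le hsum0 hsum)
  have e3 : ‖IF (V2 (φ t)) (x + h) - IF (V2 (φ t)) x‖ ≤ 2 * C * e * (ξ * lam) ^ (1 / 2 : ℝ) := by
    rw [hξl]
    exact hV3'.trans (vel hC2 (hC'0 _) he0.le (by norm_num) (by norm_num) hh.le hsum0 hsum)
  have hs0 : 0 ≤ |h.1| / nm h := by positivity
  have hs1' : |h.1| / nm h ≤ 1 := by
    rw [div_le_one hh]
    exact hs1
  have hsq : (|h.1| / nm h) ^ 2 ≤ 4 * lam * e * (ξ * lam) ^ (-(1 / 2) : ℝ) / D := by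
    rw [hξl, div_pow, sq_abs, ← div_pow]
    exact hAl
  have hfin := hNI lam ξ e (|h.1| / nm h) _ _ hl1 hξ0 hξ2 he0.le heE hs0 hs1' hsq (norm_nonneg _) e1
    (norm_nonneg _) e2 e3
  rw [hξl] at hfin
  have hRW'' := mul_le_mul_of_nonneg_left hRW' hκ.le
  linarith

end Pool.Agent.SQG
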