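import Pool.Agent.SQG.Stmts7

/-!
# TC7: the first touching point for the two moduli   (helper91, adapted from `Tci.lean`)
-/

set_option autoImplicit false

namespace Pool.Agent.SQG

open Complex MeasureTheory Set Filter Topology ProbabilityTheory

namespace TC7Aux

lemma nm_neg' (h : P2) : nm (-h) = nm h := by simp [nm]

lemma nm_nonneg' (h : P2) : 0 ≤ nm h := Real.sqrt_nonneg _

lemma nm_cont' : Continuous nm := by
  unfold nm
  fun_prop

lemma abs1 (h : P2) : |h.1| ≤ nm h := Real.abs_le_sqrt (by nlinarith [sq_nonneg h.2])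

lemma abs2 (h : P2) : |h.2| ≤ nm h := Real.abs_le_sqrt (by nlinarith [sq_nonneg h.1])

lemma eq_zero_of_nm {h : P2} (hh : nm h = 0) : h = 0 := by
  have h1 := abs1 h
  have h2 := abs2 h
  rw [hh] at h1 h2
  exact Prod.ext (abs_nonpos_iff.1 h1) (abs_nonpos_iff.1 h2)

lemma nm_double (l : P2) : nm (l + l) = 2 * nm l := by
  have h : (l + l).1 ^ 2 + (l + l).2 ^ 2 = 2 ^ 2 * (l.1 ^ 2 + l.2 ^ 2) := by
    simp only [Prod.fst_add, Prod.snd_add]
    ring
  rw [nm, h, Real.sqrt_mul (by norm_num), Real.sqrt_sq (by norm_num)]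
  rfl

lemma W7_eq (γ ξ : ℝ) : W7 γ ξ = min ξ 1 - (min ξ 1) ^ (1 + γ) / 4 := by
  unfold W7
  split_ifs with h
  · rw [min_eq_left h]
  · rw [min_eq_right (le_of_not_ge h), Real.one_rpow]
    norm_num

lemma W7_cont {γ : ℝ} (hγ : 0 < γ) : Continuous (W7 γ) := by
  have h : W7 γ = fun ξ => min ξ 1 - (min ξ 1) ^ (1 + γ) / 4 := funext (W7_eq γ)
  rw [h]
  have h1 : Continuous fun ξ : ℝ => min ξ 1 := by fun_prop
  exact h1.sub ((h1.rpow_const fun _ => Or.inr (by linarith)).div_const 4)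

lemma W7_ge {γ ξ : ℝ} (hγ : 0 < γ) (hξ : 0 ≤ ξ) : 3 / 4 * min ξ 1 ≤ W7 γ ξ := by
  rw [W7_eq]
  have h0 : 0 ≤ min ξ 1 := le_min hξ zero_le_one
  have h1 : min ξ 1 ≤ 1 := min_le_right _ _
  have h2 : (min ξ 1) ^ (1 + γ) ≤ min ξ 1 := by
    rcases h0.eq_or_lt with h | h
    · rw [← h, Real.zero_rpow (by linarith)]
    · calc (min ξ 1) ^ (1 + γ) ≤ (min ξ 1) ^ (1 : ℝ) :=
            Real.rpow_le_rpow_of_exponent_ge h h1 (by linarith)
        _ = _ := Real.rpow_one _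
  linarith

lemma W7_zero {γ : ℝ} (hγ : 0 < γ) : W7 γ 0 = 0 := by
  rw [W7_eq, min_eq_left zero_le_one, Real.zero_rpow (by linarith)]
  norm_num

/-- At a bad displacement for the isotropic modulus `nm l < lam / 2`. -/
lemma half {f : P2 → ℝ} {M γ lam : ℝ} (hM : 0 < M) (hγ : 0 < γ) (hf : ∀ x, |f x| ≤ M)
    (hlam : 1 ≤ lam) {y l : P2} (h : 6 * M * W7 γ (nm l / lam) ≤ f (y + l) - f y) :
    nm l < lam / 2 := by
  by_contra hcon
  rw [not_lt] at hcon
  have hl0 : 0 < lam := by linarith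
  have h1 : 1 / 2 ≤ nm l / lam := by
    rw [le_div_iff₀ hl0]
    linarith
  have h2 : (1 / 2 : ℝ) ≤ min (nm l / lam) 1 := le_min h1 (by norm_num)
  have h3 := W7_ge (γ := γ) (ξ := nm l / lam) hγ (by linarith)
  have h4 := abs_le.1 (hf (y + l))
  have h5 := abs_le.1 (hf y)
  have h6 : 6 * M * (3 / 8) ≤ 6 * M * W7 γ (nm l / lam) :=
    mul_le_mul_of_nonneg_left (by linarith) (by positivity)
  linarith [h4.2, h5.1]

/-- Bad displacements can be doubled. -/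
lemma double {f : P2 → ℝ} {D γ lam Λ L s₁ : ℝ} (hγ : 0 < γ) (hγ1 : γ < 1)
    (hlam : 1 ≤ lam) (hlamΛ : lam ≤ Λ) (hL : 0 ≤ L)
    (hs : L * s₁ ^ (1 - γ) * Λ ^ (1 + γ) ≤ D / 4 * (2 ^ (1 + γ) - 2))
    (hf : ∀ x l : P2, |f (x + l + l) - 2 * f (x + l) + f x| ≤ L * nm l ^ 2)
    {y l : P2} (hl0 : 0 < nm l) (hl1 : nm l ≤ s₁) (hl2 : nm l < lam / 2)
    (h : D * W7 γ (nm l / lam) ≤ f (y + l) - f y) :
    D * W7 γ (nm (l + l) / lam) ≤ f (y + (l + l)) - f y := by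
  have hlam0 : 0 < lam := by linarith
  have hξ0 : 0 < nm l / lam := by positivity
  have hξ1 : nm l / lam ≤ 1 / 2 := by
    rw [div_le_iff₀ hlam0]
    linarith
  have e1 : W7 γ (nm l / lam) = nm l / lam - (nm l / lam) ^ (1 + γ) / 4 := by
    rw [W7_eq, min_eq_left (by linarith)]
  have e2 : nm (l + l) / lam = 2 * (nm l / lam) := by
    rw [nm_double]
    ring
  have e3 : W7 γ (nm (l + l) / lam) =
      2 * (nm l / lam) - 2 ^ (1 + γ) * (nm l / lam) ^ (1 + γ) / 4 := by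
    rw [W7_eq, e2, min_eq_left (by linarith), Real.mul_rpow (by norm_num) hξ0.le]
  rw [e1] at h
  rw [e3]
  have h1 := (abs_le.1 (hf y l)).1
  rw [add_assoc] at h1
  -- the quadratic term
  have h2 : nm l ^ 2 = nm l ^ (1 - γ) * lam ^ (1 + γ) * (nm l / lam) ^ (1 + γ) := by
    rw [Real.div_rpow hl0.le hlam0.le, mul_assoc, mul_div_cancel₀ _ (by positivity),
      ← Real.rpow_add hl0, ← Real.rpow_natCast]
    congr 1
    push_cast
    ring
  have h3 : nm l ^ (1 - γ) * lam ^ (1 + γ) ≤ s₁ ^ (1 - γ) * Λ ^ (1 + γ) :=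
    mul_le_mul (Real.rpow_le_rpow hl0.le hl1 (by linarith))
      (Real.rpow_le_rpow hlam0.le hlamΛ (by linarith)) (by positivity)
      (Real.rpow_nonneg (hl0.le.trans hl1) _)
  have h4 : 0 < (nm l / lam) ^ (1 + γ) := by positivity
  have h5 : L * nm l ^ 2 ≤ D / 4 * (2 ^ (1 + γ) - 2) * (nm l / lam) ^ (1 + γ) := by
    rw [h2]
    calc L * (nm l ^ (1 - γ) * lam ^ (1 + γ) * (nm l / lam) ^ (1 + γ))
        = L * (nm l ^ (1 - γ) * lam ^ (1 + γ)) * (nm l / lam) ^ (1 + γ) := by ring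
      _ ≤ L * (s₁ ^ (1 - γ) * Λ ^ (1 + γ)) * (nm l / lam) ^ (1 + γ) :=
          mul_le_mul_of_nonneg_right (mul_le_mul_of_nonneg_left h3 hL) h4.le
      _ = L * s₁ ^ (1 - γ) * Λ ^ (1 + γ) * (nm l / lam) ^ (1 + γ) := by ring
      _ ≤ _ := mul_le_mul_of_nonneg_right hs h4.le
  have h6 : D * (2 * (nm l / lam) - 2 ^ (1 + γ) * (nm l / lam) ^ (1 + γ) / 4) =
      2 * (D * (nm l / lam - (nm l / lam) ^ (1 + γ) / 4)) -
        D / 4 * (2 ^ (1 + γ) - 2) * (nm l / lam) ^ (1 + γ) := by ring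
  rw [h6]
  linarith

/-- The set of the bad times is closed. -/
lemma closed_bad {T : ℝ} {θ : ℝ → P2 → ℝ} (hReg : Reg T θ) {t₀ t₁ : ℝ} (h0 : 0 < t₀)
    (h1 : t₁ < T) (G : ℝ → P2 → ℝ) (Z : Set P2) (hZ : IsClosed Z) (A c : ℝ) (hc : 0 < c)
    (hZA : ∀ l ∈ Z, |l.1| ≤ A ∧ |l.2| ≤ A)
    (hG : ContinuousOn (fun q : ℝ × P2 × P2 => G q.1 q.2.2) (Icc t₀ t₁ ×ˢ univ))
    (hGc : ∀ t ∈ Icc t₀ t₁, ∀ l ∈ Z, c ≤ G t l) :
    IsClosed {t | t ∈ Icc t₀ t₁ ∧ ∃ y l : P2, l ∈ Z ∧ G t l ≤ θ t (y + l) - θ t y} := by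
  obtain ⟨R, hR⟩ := hReg.dec t₀ t₁ h0 h1 (c / 4) (by positivity)
  set R' : ℝ := max R 0 + 2 * |A| with hR'
  set B : Set (ℝ × P2 × P2) := Icc t₀ t₁ ×ˢ (Icc (-R') R' ×ˢ Icc (-R') R') ×ˢ
    ((Icc (-A) A ×ˢ Icc (-A) A) ∩ Z) with hB
  have hBc : IsCompact B := isCompact_Icc.prod ((isCompact_Icc.prod isCompact_Icc).prod
    ((isCompact_Icc.prod isCompact_Icc).inter_right hZ))
  have ht : ∀ q ∈ B, q.1 ∈ Ioo 0 T := by
    intro q hq
    exact ⟨h0.trans_le hq.1.1, hq.1.2.trans_lt h1⟩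
  have a1 : ContinuousOn (fun q : ℝ × P2 × P2 => θ q.1 (q.2.1 + q.2.2)) B := by
    refine hReg.cont.comp (f := fun q : ℝ × P2 × P2 => (q.1, q.2.1 + q.2.2))
      (by fun_prop) ?_
    intro q hq
    exact ⟨ht q hq, mem_univ _⟩
  have a2 : ContinuousOn (fun q : ℝ × P2 × P2 => θ q.1 q.2.1) B := by
    refine hReg.cont.comp (f := fun q : ℝ × P2 × P2 => (q.1, q.2.1))
      (by fun_prop) ?_
    intro q hq
    exact ⟨ht q hq, mem_univ _⟩
  have a3 : ContinuousOn (fun q : ℝ × P2 × P2 => G q.1 q.2.2) B :=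
    hG.mono fun q hq => ⟨hq.1, mem_univ _⟩
  have hF : ContinuousOn (fun q : ℝ × P2 × P2 =>
      θ q.1 (q.2.1 + q.2.2) - θ q.1 q.2.1 - G q.1 q.2.2) B := (a1.sub a2).sub a3
  set K : Set (ℝ × P2 × P2) := B ∩ (fun q : ℝ × P2 × P2 =>
      θ q.1 (q.2.1 + q.2.2) - θ q.1 q.2.1 - G q.1 q.2.2) ⁻¹' (Ici 0) with hK
  have hKc : IsCompact K := hBc.of_isClosed_subset
    (hF.preimage_isClosed_of_isClosed hBc.isClosed isClosed_Ici) inter_subset_left
  have heq : {t | t ∈ Icc t₀ t₁ ∧ ∃ y l : P2, l ∈ Z ∧ G t l ≤ θ t (y + l) - θ t y} =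
      Prod.fst '' K := by
    ext t
    constructor
    · rintro ⟨htI, y, l, hl, hb⟩
      obtain ⟨hA1, hA2⟩ := hZA l hl
      have hcb := hGc t htI l hl
      have hyR : |y.1| + |y.2| ≤ R' := by
        by_contra hcon
        rw [not_le] at hcon
        have hAA : A ≤ |A| := le_abs_self A
        have e3 : R ≤ |y.1| + |y.2| := by
          have := le_max_left R 0
          have := abs_nonneg A
          linarith
        have e4 : R ≤ |(y + l).1| + |(y + l).2| := by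
          have i1 : |y.1| - |l.1| ≤ |(y + l).1| := by
            have := abs_sub_abs_le_abs_sub y.1 (-l.1)
            rw [abs_neg, sub_neg_eq_add] at this
            exact this
          have i2 : |y.2| - |l.2| ≤ |(y + l).2| := by
            have := abs_sub_abs_le_abs_sub y.2 (-l.2)
            rw [abs_neg, sub_neg_eq_add] at this
            exact this
          have := le_max_left R 0
          linarith
        have e5 := abs_le.1 (hR t htI y e3)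
        have e6 := abs_le.1 (hR t htI (y + l) e4)
        linarith [e5.1, e6.2]
      have f1 := abs_nonneg y.1
      have f2 := abs_nonneg y.2
      have g1 := abs_le.1 (show |y.1| ≤ R' by linarith)
      have g2 := abs_le.1 (show |y.2| ≤ R' by linarith)
      refine ⟨(t, y, l), ⟨⟨htI, ⟨g1, g2⟩, ⟨abs_le.1 hA1, abs_le.1 hA2⟩, hl⟩, ?_⟩, rfl⟩
      simp only [mem_preimage, mem_Ici]
      linarith
    · rintro ⟨⟨t', y, l⟩, hq, rfl⟩
      refine ⟨hq.1.1, y, l, hq.1.2.2.2, ?_⟩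
      have := hq.2
      simp only [mem_preimage, mem_Ici] at this
      linarith
  rw [heq]
  exact (hKc.image continuous_fst).isClosed

/-- a bad time for the increments in direction `1` -/
def PD (θ : ℝ → P2 → ℝ) (E : ℝ → ℝ) (t : ℝ) : Prop :=
  ∃ (x : P2) (a : ℝ), a ≠ 0 ∧ E t * |a| ^ (1 / 2 : ℝ) ≤ θ t (x.1 + a, x.2) - θ t x

/-- a bad time for the isotropic increments -/
def PI (θ : ℝ → P2 → ℝ) (M γ : ℝ) (lam : ℝ → ℝ) (t : ℝ) : Prop :=
  ∃ y l : P2, 0 < nm l ∧ 6 * M * W7 γ (nm l / lam t) ≤ θ t (y + l) - θ t y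

lemma mod_of_not {θ : ℝ → P2 → ℝ} {E lam : ℝ → ℝ} {M γ t : ℝ} (hγ : 0 < γ)
    (hD : ¬ PD θ E t) (hI : ¬ PI θ M γ lam t) : Mod7 (θ t) (E t) (6 * M) (lam t) γ := by
  constructor
  · intro x a
    by_cases ha : a = 0
    · subst ha
      simp
    have h1 : θ t (x.1 + a, x.2) - θ t x < E t * |a| ^ (1 / 2 : ℝ) := by
      by_contra hcon
      rw [not_lt] at hcon
      exact hD ⟨x, a, ha, hcon⟩
    have h2 : θ t x - θ t (x.1 + a, x.2) < E t * |a| ^ (1 / 2 : ℝ) := by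
      by_contra hcon
      rw [not_lt] at hcon
      refine hD ⟨(x.1 + a, x.2), -a, neg_ne_zero.2 ha, ?_⟩
      simpa using hcon
    rw [abs_le]
    constructor <;> linarith
  · intro y l
    rcases (nm_nonneg' l).lt_or_eq with h0 | h0
    · have h1 : θ t (y + l) - θ t y < 6 * M * W7 γ (nm l / lam t) := by
        by_contra hcon
        rw [not_lt] at hcon
        exact hI ⟨y, l, h0, hcon⟩
      have h2 : θ t y - θ t (y + l) < 6 * M * W7 γ (nm l / lam t) := by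
        by_contra hcon
        rw [not_lt] at hcon
        refine hI ⟨y + l, -l, by rwa [nm_neg'], ?_⟩
        rw [nm_neg', add_neg_cancel_right]
        exact hcon
      rw [abs_le]
      constructor <;> linarith
    · rw [← h0, eq_zero_of_nm h0.symm, zero_div, W7_zero hγ]
      simp

/-- The set of the bad times for the increments in direction `1` is closed. -/
lemma closedD {T : ℝ} {θ : ℝ → P2 → ℝ} (hReg : Reg T θ) {t₀ t₁ M : ℝ} (h0 : 0 < t₀)
    (h01 : t₀ ≤ t₁) (h1 : t₁ < T) (hM : ∀ t ∈ Icc t₀ t₁, ∀ x, |θ t x| ≤ M) {E : ℝ → ℝ}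
    (hE : ContinuousOn E (Icc t₀ t₁)) (hE0 : ∀ t ∈ Icc t₀ t₁, 0 < E t) :
    IsClosed {t | t ∈ Icc t₀ t₁ ∧ PD θ E t} := by
  -- the minimum of `E`
  obtain ⟨tm, htm, hmin⟩ := isCompact_Icc.exists_isMinOn (nonempty_Icc.2 h01) hE
  set e : ℝ := E tm with he
  have he0 : 0 < e := hE0 tm htm
  have hemin : ∀ t ∈ Icc t₀ t₁, e ≤ E t := fun t ht => hmin ht
  obtain ⟨L, hL0, hL⟩ := hReg.lip t₀ t₁ h0 h1
  have hM0 : 0 ≤ M := (abs_nonneg _).trans (hM tm htm 0)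
  set η : ℝ := (e / (L + 1)) ^ 2 with hη
  set A : ℝ := (2 * M / e) ^ 2 with hA
  have hη0 : 0 < η := by positivity
  set Z : Set P2 := {l | l.2 = 0 ∧ η ≤ |l.1| ∧ |l.1| ≤ A} with hZ
  have hZc : IsClosed Z := by
    have c1 : Continuous fun k : P2 => k.2 := continuous_snd
    have c2 : Continuous fun k : P2 => |k.1| := continuous_fst.abs
    exact (isClosed_eq c1 continuous_const).inter
      ((isClosed_le continuous_const c2).inter (isClosed_le c2 continuous_const))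
  have hcl := closed_bad hReg h0 h1 (fun t l => E t * |l.1| ^ (1 / 2 : ℝ)) Z hZc A
    (e * η ^ (1 / 2 : ℝ)) (by positivity) ?_ ?_ ?_
  rotate_left
  · intro l hl
    refine ⟨hl.2.2, ?_⟩
    rw [hl.1, abs_zero]
    exact (abs_nonneg _).trans hl.2.2
  · have b1 : ContinuousOn (fun q : ℝ × P2 × P2 => E q.1) (Icc t₀ t₁ ×ˢ univ) :=
      hE.comp (f := fun q : ℝ × P2 × P2 => q.1) (by fun_prop) fun q hq => hq.1
    have b2 : Continuous (fun q : ℝ × P2 × P2 => |q.2.2.1| ^ (1 / 2 : ℝ)) := by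
      refine Continuous.rpow_const (by fun_prop) fun _ => Or.inr (by norm_num)
    exact b1.mul b2.continuousOn
  · intro t ht l hl
    exact mul_le_mul (hemin t ht) (Real.rpow_le_rpow hη0.le hl.2.1 (by norm_num))
      (by positivity) (hE0 t ht).le
  have heq : {t | t ∈ Icc t₀ t₁ ∧ PD θ E t} = {t | t ∈ Icc t₀ t₁ ∧ ∃ y l : P2, l ∈ Z ∧
      E t * |l.1| ^ (1 / 2 : ℝ) ≤ θ t (y + l) - θ t y} := by
    ext t
    constructor
    · rintro ⟨ht, x, a, ha, hb⟩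
      have ha0 : 0 < |a| := abs_pos.2 ha
      have hsq : |a| = (|a| ^ (1 / 2 : ℝ)) ^ 2 := by
        rw [← Real.rpow_natCast, ← Real.rpow_mul ha0.le]
        norm_num
      have hr0 : 0 < |a| ^ (1 / 2 : ℝ) := by positivity
      have k1 : e * |a| ^ (1 / 2 : ℝ) ≤ E t * |a| ^ (1 / 2 : ℝ) :=
        mul_le_mul_of_nonneg_right (hemin t ht) hr0.le
      have k2 := abs_le.1 (hM t ht (x.1 + a, x.2))
      have k3 := abs_le.1 (hM t ht x)
      have k4 : e * |a| ^ (1 / 2 : ℝ) ≤ 2 * M := by linarith [k2.2, k3.1]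
      have k5 : |a| ^ (1 / 2 : ℝ) ≤ 2 * M / e := by
        rw [le_div_iff₀ he0]
        linarith
      have k6 := hL t ht (x.1 + a, x.2) x
      have k7 : |(x.1 + a, x.2).1 - x.1| + |(x.1 + a, x.2).2 - x.2| = |a| := by simp
      rw [k7] at k6
      have k8 : e * |a| ^ (1 / 2 : ℝ) ≤ L * |a| := (k1.trans hb).trans ((le_abs_self _).trans k6)
      have k9 : e ≤ L * |a| ^ (1 / 2 : ℝ) := by
        have : e * |a| ^ (1 / 2 : ℝ) ≤ (L * |a| ^ (1 / 2 : ℝ)) * |a| ^ (1 / 2 : ℝ) := by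
          calc e * |a| ^ (1 / 2 : ℝ) ≤ L * |a| := k8
            _ = L * (|a| ^ (1 / 2 : ℝ)) ^ 2 := by rw [← hsq]
            _ = _ := by ring
        exact le_of_mul_le_mul_right this hr0
      have k10 : e / (L + 1) ≤ |a| ^ (1 / 2 : ℝ) := by
        rw [div_le_iff₀ (by positivity)]
        linarith
      refine ⟨ht, x, (a, 0), ⟨rfl, ?_, ?_⟩, ?_⟩
      · change η ≤ |a|
        rw [hsq]
        exact pow_le_pow_left₀ (by positivity) k10 2
      · change |a| ≤ A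
        rw [hsq]
        exact pow_le_pow_left₀ hr0.le k5 2
      · have : x + (a, (0 : ℝ)) = (x.1 + a, x.2) := by
          ext <;> simp
        rw [this]
        exact hb
    · rintro ⟨ht, y, l, hl, hb⟩
      refine ⟨ht, y, l.1, ?_, ?_⟩
      · exact abs_pos.1 (hη0.trans_le hl.2.1)
      · have : y + l = (y.1 + l.1, y.2) := by
          ext
          · simp
          · simp [hl.1]
        rw [this] at hb
        exact hb
  rw [heq]
  exact hcl

/-- The set of the bad times for the isotropic increments is closed. -/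
lemma closedI {T : ℝ} {θ : ℝ → P2 → ℝ} (hReg : Reg T θ) {t₀ t₁ M γ : ℝ} (h0 : 0 < t₀)
    (h01 : t₀ ≤ t₁) (h1 : t₁ < T) (hM0 : 0 < M) (hM : ∀ t ∈ Icc t₀ t₁, ∀ x, |θ t x| ≤ M)
    (hγ : 0 < γ) (hγ1 : γ < 1)
    (hG : ∃ L, 0 ≤ L ∧ ∀ t ∈ Icc t₀ t₁, ∀ x l : P2,
      |θ t (x + l + l) - 2 * θ t (x + l) + θ t x| ≤ L * nm l ^ 2) {lam : ℝ → ℝ}
    (hlam : ContinuousOn lam (Icc t₀ t₁)) (hlam1 : ∀ t ∈ Icc t₀ t₁, 1 ≤ lam t) :
    IsClosed {t | t ∈ Icc t₀ t₁ ∧ PI θ M γ lam t} := by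
  -- the maximum of `lam`
  obtain ⟨tm, htm, hmax⟩ := isCompact_Icc.exists_isMaxOn (nonempty_Icc.2 h01) hlam
  set Λ : ℝ := lam tm with hΛ
  have hΛ1 : 1 ≤ Λ := hlam1 tm htm
  have hlamΛ : ∀ t ∈ Icc t₀ t₁, lam t ≤ Λ := fun t ht => hmax ht
  obtain ⟨L, hL0, hL⟩ := hG
  have hΛ0 : 0 < Λ := by linarith
  -- `s₁`
  have hpos : 0 < 6 * M / 4 * ((2 : ℝ) ^ (1 + γ) - 2) := by
    have : (2 : ℝ) ^ (1 : ℝ) < 2 ^ (1 + γ) :=
      Real.rpow_lt_rpow_of_exponent_lt (by norm_num) (by linarith)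
    rw [Real.rpow_one] at this
    have h2 : 0 < (2 : ℝ) ^ (1 + γ) - 2 := by linarith
    positivity
  have hg1 : 0 < 1 - γ := by linarith
  set s₁ : ℝ := (6 * M / 4 * ((2 : ℝ) ^ (1 + γ) - 2) / ((L + 1) * Λ ^ (1 + γ))) ^
    (1 / (1 - γ)) with hs₁
  have hs0 : 0 < s₁ := by positivity
  have hsp : s₁ ^ (1 - γ) =
      6 * M / 4 * ((2 : ℝ) ^ (1 + γ) - 2) / ((L + 1) * Λ ^ (1 + γ)) := by
    rw [hs₁, ← Real.rpow_mul (by positivity), one_div_mul_cancel hg1.ne', Real.rpow_one]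
  have hs : L * s₁ ^ (1 - γ) * Λ ^ (1 + γ) ≤ 6 * M / 4 * (2 ^ (1 + γ) - 2) := by
    have i1 : 0 < Λ ^ (1 + γ) := by positivity
    have i2 : (L + 1) * s₁ ^ (1 - γ) * Λ ^ (1 + γ) = 6 * M / 4 * (2 ^ (1 + γ) - 2) := by
      rw [hsp]
      field_simp
    have i3 : 0 < s₁ ^ (1 - γ) * Λ ^ (1 + γ) := by positivity
    nlinarith
  -- enlarging a bad displacement
  have hlarge : ∀ t ∈ Icc t₀ t₁, ∀ (k : ℕ) (y l : P2), 0 < nm l → s₁ ≤ 2 ^ k * nm l →
      6 * M * W7 γ (nm l / lam t) ≤ θ t (y + l) - θ t y →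
      ∃ l' : P2, s₁ ≤ nm l' ∧ 6 * M * W7 γ (nm l' / lam t) ≤ θ t (y + l') - θ t y := by
    intro t ht k
    induction k with
    | zero =>
      intro y l _ hk hb
      exact ⟨l, by simpa using hk, hb⟩
    | succ k ih =>
      intro y l hl0 hk hb
      by_cases hsl : s₁ ≤ nm l
      · exact ⟨l, hsl, hb⟩
      rw [not_le] at hsl
      have hl2 := half hM0 hγ (hM t ht) (hlam1 t ht) hb
      have hd := double (f := θ t) (D := 6 * M) hγ hγ1 (hlam1 t ht)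
        (hlamΛ t ht) hL0 hs (hL t ht) hl0 hsl.le hl2 hb
      refine ih y (l + l) (by rw [nm_double]; positivity) ?_ hd
      rw [nm_double]
      calc s₁ ≤ 2 ^ (k + 1) * nm l := hk
        _ = 2 ^ k * (2 * nm l) := by ring
  set Z : Set P2 := {l | s₁ ≤ nm l ∧ nm l ≤ Λ} with hZ
  have hZc : IsClosed Z :=
    (isClosed_le continuous_const nm_cont').inter (isClosed_le nm_cont' continuous_const)
  have hcl := closed_bad hReg h0 h1 (fun t l => 6 * M * W7 γ (nm l / lam t)) Z hZc Λ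
    (6 * M * (3 / 4 * min (s₁ / Λ) 1)) (by positivity) ?_ ?_ ?_
  rotate_left
  · intro l hl
    exact ⟨(abs1 l).trans hl.2, (abs2 l).trans hl.2⟩
  · have b1 : ContinuousOn (fun q : ℝ × P2 × P2 => lam q.1) (Icc t₀ t₁ ×ˢ univ) :=
      hlam.comp (f := fun q : ℝ × P2 × P2 => q.1) (by fun_prop) fun q hq => hq.1
    have b2 : Continuous (fun q : ℝ × P2 × P2 => nm q.2.2) :=
      nm_cont'.comp (by fun_prop)
    have b3 : ContinuousOn (fun q : ℝ × P2 × P2 => nm q.2.2 / lam q.1)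
        (Icc t₀ t₁ ×ˢ univ) := by
      refine b2.continuousOn.div b1 fun q hq => ?_
      have := hlam1 q.1 hq.1
      positivity
    exact continuousOn_const.mul ((W7_cont hγ).comp_continuousOn b3)
  · intro t ht l hl
    have hlt : 0 < lam t := by
      have := hlam1 t ht
      linarith
    have hnl : 0 < nm l := hs0.trans_le hl.1
    have j1 : s₁ / Λ ≤ nm l / lam t :=
      div_le_div₀ hnl.le hl.1 hlt (hlamΛ t ht)
    have j2 := W7_ge (γ := γ) (ξ := nm l / lam t) hγ (by positivity)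
    have j3 : min (s₁ / Λ) 1 ≤ min (nm l / lam t) 1 := min_le_min j1 le_rfl
    exact mul_le_mul_of_nonneg_left (by linarith) (by positivity)
  have heq : {t | t ∈ Icc t₀ t₁ ∧ PI θ M γ lam t} = {t | t ∈ Icc t₀ t₁ ∧ ∃ y l : P2, l ∈ Z ∧
      6 * M * W7 γ (nm l / lam t) ≤ θ t (y + l) - θ t y} := by
    ext t
    constructor
    · rintro ⟨ht, y, l, hl0, hb⟩
      obtain ⟨k, hk⟩ := pow_unbounded_of_one_lt (s₁ / nm l) (one_lt_two (α := ℝ))
      obtain ⟨l', hl', hb'⟩ := hlarge t ht k y l hl0 (by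
        rw [div_lt_iff₀ hl0] at hk
        exact hk.le) hb
      have hl2 := half hM0 hγ (hM t ht) (hlam1 t ht) hb'
      have := hlamΛ t ht
      exact ⟨ht, y, l', ⟨hl', by linarith⟩, hb'⟩
    · rintro ⟨ht, y, l, hl, hb⟩
      exact ⟨ht, y, l, hs0.trans_le hl.1, hb⟩
  rw [heq]
  exact hcl

end TC7Aux

open TC7Aux in
theorem tc7 (hR : Stmt_REG) (hG : Stmt_RG7) : Stmt_TC7 := by
  intro α κ T θ φ hSol M γ t₀ E lam ht₀ htT hM0 hγ hγ1 hM hE hlam hEl hlam0 hLip hD0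
  have hReg : Reg T θ := (hR α κ T θ φ hSol).2
  by_cases hne : ∃ t₁ ∈ Ico t₀ T, PD θ E t₁ ∨ PI θ M γ lam t₁
  swap
  · left
    intro t ht
    refine mod_of_not hγ ?_ ?_
    · intro h
      exact hne ⟨t, ht, Or.inl h⟩
    · intro h
      exact hne ⟨t, ht, Or.inr h⟩
  right
  obtain ⟨t₁, ht₁, hbad⟩ := hne
  have hIco : ∀ s ∈ Icc t₀ t₁, s ∈ Ico t₀ T := fun s hs => ⟨hs.1, hs.2.trans_lt ht₁.2⟩
  have c1 := closedD hReg ht₀ ht₁.1 ht₁.2 (fun t ht => hM t (hIco t ht))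
    (hE.mono hIco) (fun t ht => (hEl t (hIco t ht)).1)
  have c2 := closedI hReg ht₀ ht₁.1 ht₁.2 hM0 (fun t ht => hM t (hIco t ht)) hγ hγ1
    (hG α κ T θ φ hSol t₀ t₁ ht₀ ht₁.2) (hlam.mono hIco) (fun t ht => (hEl t (hIco t ht)).2)
  set S : Set ℝ := {t | t ∈ Icc t₀ t₁ ∧ PD θ E t} ∪ {t | t ∈ Icc t₀ t₁ ∧ PI θ M γ lam t}
    with hS
  have hSc : IsClosed S := c1.union c2
  have hSb : BddBelow S := by
    refine ⟨t₀, ?_⟩
    rintro s (hs | hs)
    · exact hs.1.1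
    · exact hs.1.1
  have hSne : S.Nonempty := by
    rcases hbad with h | h
    · exact ⟨t₁, Or.inl ⟨⟨ht₁.1, le_rfl⟩, h⟩⟩
    · exact ⟨t₁, Or.inr ⟨⟨ht₁.1, le_rfl⟩, h⟩⟩
  have hmem := hSc.csInf_mem hSne hSb
  set t : ℝ := sInf S with ht
  have hpt : t ∈ Icc t₀ t₁ := by
    rcases hmem with h | h
    · exact h.1
    · exact h.1
  have hPt : PD θ E t ∨ PI θ M γ lam t := by
    rcases hmem with h | h
    · exact Or.inl h.2
    · exact Or.inr h.2
  have htI : t ∈ Ioo 0 T := ⟨ht₀.trans_le hpt.1, hpt.2.trans_lt ht₁.2⟩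
  have htE := hIco t hpt
  -- `t₀ < t`
  have htt : t₀ < t := by
    rcases hpt.1.lt_or_eq with h | h
    · exact h
    exfalso
    rw [← h] at hPt
    rcases hPt with ⟨x, a, ha, hb⟩ | ⟨y, l, hl0, hb⟩
    · exact absurd ((le_abs_self _).trans_lt (hD0 x a ha)) (not_lt.2 hb)
    · have h1 := (le_abs_self _).trans (hLip (y + l) y)
      rw [add_sub_cancel_left] at h1
      rw [hlam0, div_one] at hb
      have h2 := W7_ge (γ := γ) hγ hl0.le
      have h3 : 6 * M * (3 / 4 * min (nm l) 1) ≤ 6 * M * W7 γ (nm l) :=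
        mul_le_mul_of_nonneg_left h2 (by positivity)
      rcases le_total (nm l) 1 with h4 | h4
      · rw [min_eq_left h4] at h3
        have : 0 < M * nm l := by positivity
        linarith
      · rw [min_eq_right h4] at h3
        have h5 := abs_le.1 (hM t₀ ⟨le_rfl, htT⟩ (y + l))
        have h6 := abs_le.1 (hM t₀ ⟨le_rfl, htT⟩ y)
        linarith [h5.2, h6.1]
  -- before `t`
  have hbef : ∀ s ∈ Ico t₀ t, Mod7 (θ s) (E s) (6 * M) (lam s) γ := by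
    intro s hs
    have hns : s ∉ S := fun hsS => absurd (csInf_le hSb hsS) (not_le.2 hs.2)
    have hsI : s ∈ Icc t₀ t₁ := ⟨hs.1, hs.2.le.trans hpt.2⟩
    refine mod_of_not hγ ?_ ?_
    · intro h
      exact hns (Or.inl ⟨hsI, h⟩)
    · intro h
      exact hns (Or.inr ⟨hsI, h⟩)
  have hc : ∀ z : P2, Tendsto (fun s => θ s z) (𝓝[<] t) (𝓝 (θ t z)) := by
    intro z
    have h1 : ContinuousOn (fun s => θ s z) (Ioo 0 T) :=
      hReg.cont.comp (f := fun s : ℝ => (s, z)) (by fun_prop)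
        fun s hs => ⟨hs, mem_univ _⟩
    exact ((h1.continuousAt (Ioo_mem_nhds htI.1 htI.2)).tendsto).mono_left
      nhdsWithin_le_nhds
  have hcE : Tendsto E (𝓝[<] t) (𝓝 (E t)) :=
    ((hE.continuousAt (Ico_mem_nhds htt htI.2)).tendsto).mono_left nhdsWithin_le_nhds
  have hcl : Tendsto lam (𝓝[<] t) (𝓝 (lam t)) :=
    ((hlam.continuousAt (Ico_mem_nhds htt htI.2)).tendsto).mono_left nhdsWithin_le_nhds
  have hmt : Mod7 (θ t) (E t) (6 * M) (lam t) γ := by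
    constructor
    · intro x a
      have h2 : Tendsto (fun s => |θ s (x.1 + a, x.2) - θ s x|) (𝓝[<] t)
          (𝓝 |θ t (x.1 + a, x.2) - θ t x|) := ((hc _).sub (hc _)).abs
      have h3 : Tendsto (fun s => E s * |a| ^ (1 / 2 : ℝ)) (𝓝[<] t)
          (𝓝 (E t * |a| ^ (1 / 2 : ℝ))) := hcE.mul_const _
      refine le_of_tendsto_of_tendsto h2 h3 ?_
      filter_upwards [Ico_mem_nhdsLT htt] with s hs
      exact (hbef s hs).1 x a
    · intro y l
      have h2 : Tendsto (fun s => |θ s (y + l) - θ s y|) (𝓝[<] t)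
          (𝓝 |θ t (y + l) - θ t y|) := ((hc _).sub (hc _)).abs
      have hl0 : lam t ≠ 0 := by
        have := (hEl t htE).2
        positivity
      have h3 : Tendsto (fun s => 6 * M * W7 γ (nm l / lam s)) (𝓝[<] t)
          (𝓝 (6 * M * W7 γ (nm l / lam t))) :=
        (((W7_cont hγ).tendsto _).comp (tendsto_const_nhds.div hcl hl0)).const_mul _
      refine le_of_tendsto_of_tendsto h2 h3 ?_
      filter_upwards [Ico_mem_nhdsLT htt] with s hs
      exact (hbef s hs).2 y l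
  refine ⟨t, htt, htI.2, ?_, ?_⟩
  · intro s hs
    rcases hs.2.lt_or_eq with h | h
    · exact hbef s ⟨hs.1, h⟩
    · rw [h]
      exact hmt
  · rcases hPt with ⟨x, a, ha, hb⟩ | ⟨y, l, hl0, hb⟩
    · exact Or.inl ⟨x, a, ha, le_antisymm ((le_abs_self _).trans (hmt.1 x a)) hb⟩
    · exact Or.inr ⟨y, l, hl0, half hM0 hγ (hM t htE) (hEl t htE).2 hb,
        le_antisymm ((le_abs_self _).trans (hmt.2 y l)) hb⟩

end Pool.Agent.SQG
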