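import Mathlib

/-!
# The supercritical surface quasi-geostrophic equation: definitions

`ℝ²` is `P2 = ℝ × ℝ`, the Euclidean norm is `nm`. A function `f` with Fourier transform
(up to a constant) `φ` is `f(x) = ∫ φ(ξ) e^{i x·ξ} dξ`.
-/

set_option autoImplicit false

namespace Pool.Agent.SQG

open Complex MeasureTheory Set Filter Topology ProbabilityTheory

/-- the plane -/
abbrev P2 := ℝ × ℝ

/-- the Euclidean norm -/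
noncomputable def nm (ξ : P2) : ℝ := √(ξ.1 ^ 2 + ξ.2 ^ 2)

/-- the function `∫ φ(ξ) e^{i x·ξ} dξ` -/
noncomputable def IF (φ : P2 → ℂ) (x : P2) : ℂ :=
  ∫ ξ : P2, φ ξ * cexp (I * ((x.1 * ξ.1 + x.2 * ξ.2 : ℝ) : ℂ))

/-- the multiplier `i ξ₁` of `∂₁` -/
noncomputable def D1 (φ : P2 → ℂ) (ξ : P2) : ℂ := I * (ξ.1 : ℂ) * φ ξ

/-- the multiplier `i ξ₂` of `∂₂` -/
noncomputable def D2 (φ : P2 → ℂ) (ξ : P2) : ℂ := I * (ξ.2 : ℂ) * φ ξ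

/-- the multiplier `i ξ₂ / |ξ|` of `-R₂` -/
noncomputable def V1 (φ : P2 → ℂ) (ξ : P2) : ℂ := I * ((ξ.2 / nm ξ : ℝ) : ℂ) * φ ξ

/-- the multiplier `-i ξ₁ / |ξ|` of `R₁` -/
noncomputable def V2 (φ : P2 → ℂ) (ξ : P2) : ℂ := -(I * ((ξ.1 / nm ξ : ℝ) : ℂ) * φ ξ)

/-- the multiplier `|ξ|^{2α}` of `(-Δ)^α` -/
noncomputable def LL (α : ℝ) (φ : P2 → ℂ) (ξ : P2) : ℂ := ((nm ξ ^ (2 * α) : ℝ) : ℂ) * φ ξ

/-- A smooth solution on `(0,T)` of the dissipative SQG equation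
`∂_t θ + u·∇θ + κ (-Δ)^α θ = 0`, `u = (-R₂ θ, R₁ θ)`: `θ ∈ C((0,T); H^s)` for every `s`, and the
equation holds at every point `(t,x)`, `0 < t < T`. Here `θ(t)` has Fourier transform `φ(t)`. -/
structure Sol (α κ T : ℝ) (θ : ℝ → P2 → ℝ) (φ : ℝ → P2 → ℂ) : Prop where
  meas : ∀ t ∈ Ioo 0 T, AEStronglyMeasurable (φ t)
  sob : ∀ t ∈ Ioo 0 T, ∀ s : ℝ, Integrable (fun ξ => (1 + nm ξ ^ 2) ^ s * ‖φ t ξ‖ ^ 2)
  cont : ∀ t ∈ Ioo 0 T, ∀ s : ℝ,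
    Tendsto (fun t' => ∫ ξ, (1 + nm ξ ^ 2) ^ s * ‖φ t' ξ - φ t ξ‖ ^ 2) (𝓝 t) (𝓝 0)
  rep : ∀ t ∈ Ioo 0 T, ∀ x, (θ t x : ℂ) = IF (φ t) x
  eqn : ∀ t ∈ Ioo 0 T, ∀ x, HasDerivAt (fun t' => (θ t' x : ℂ))
    (-(IF (V1 (φ t)) x * IF (D1 (φ t)) x + IF (V2 (φ t)) x * IF (D2 (φ t)) x) -
      κ * IF (LL α (φ t)) x) t

/-- Hölder continuity in the first direction, uniformly in the second variable -/
def H1 (f : P2 → ℝ) (M δ : ℝ) : Prop := ∀ (x : P2) (a : ℝ), |f (x.1 + a, x.2) - f x| ≤ M * |a| ^ δ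

/-- Hölder continuity in the second direction -/
def H2 (f : P2 → ℝ) (M δ : ℝ) : Prop := ∀ (x : P2) (a : ℝ), |f (x.1, x.2 + a) - f x| ≤ M * |a| ^ δ

/-! ### Tools of the proof -/

/-- a smooth real function with Fourier transform `φ` -/
structure NF (f : P2 → ℝ) (φ : P2 → ℂ) : Prop where
  meas : AEStronglyMeasurable φ
  int : ∀ k : ℕ, Integrable (fun ξ => nm ξ ^ k * ‖φ ξ‖)
  rep : ∀ x, (f x : ℂ) = IF φ x

/-- the standard Gaussian measure of the plane -/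
noncomputable def gm : Measure P2 := (gaussianReal 0 1).prod (gaussianReal 0 1)

/-- Gaussian averages -/
noncomputable def Av (r : ℝ) (f : P2 → ℝ) (x : P2) : ℝ :=
  ∫ z : P2, f (x.1 + r * z.1, x.2 + r * z.2) ∂gm

noncomputable def B1 (r : ℝ) (f : P2 → ℝ) (x : P2) : ℝ :=
  ∫ z : P2, z.1 * f (x.1 + r * z.1, x.2 + r * z.2) ∂gm

noncomputable def B2 (r : ℝ) (f : P2 → ℝ) (x : P2) : ℝ :=
  ∫ z : P2, z.2 * f (x.1 + r * z.1, x.2 + r * z.2) ∂gm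

/-- the normalising constant of the fractional Laplacian -/
noncomputable def cL (α : ℝ) : ℝ := (∫ v in Ioi (0 : ℝ), (1 - Real.exp (-(v ^ 2 / 2))) * v ^ (-1 - 2 * α))⁻¹

/-- regularity of the solutions that is used in the maximum principle -/
structure Reg (T : ℝ) (θ : ℝ → P2 → ℝ) : Prop where
  cont : ContinuousOn (fun p : ℝ × P2 => θ p.1 p.2) (Ioo 0 T ×ˢ univ)
  lip : ∀ t₀ t₁ : ℝ, 0 < t₀ → t₁ < T → ∃ L, 0 ≤ L ∧ ∀ t ∈ Icc t₀ t₁, ∀ x y : P2,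
    |θ t x - θ t y| ≤ L * (|x.1 - y.1| + |x.2 - y.2|)
  dec : ∀ t₀ t₁ : ℝ, 0 < t₀ → t₁ < T → ∀ ε > 0, ∃ R, ∀ t ∈ Icc t₀ t₁, ∀ x : P2,
    R ≤ |x.1| + |x.2| → |θ t x| ≤ ε

/-- the modulus: `N |h₂|^β + 2 M h₁² |h₂|^{λ(δ-2)}`, used for `|h₁| ≤ |h₂|^λ`, `|h₂| ≤ 1` -/
noncomputable def Om (N M β lam δ : ℝ) (h : P2) : ℝ :=
  N * |h.2| ^ β + 2 * M * h.1 ^ 2 * |h.2| ^ (lam * (δ - 2))

/-- the region of the displacements -/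
def Rg (lam : ℝ) : Set P2 := {h | 0 < |h.2| ∧ |h.2| ≤ 1 ∧ |h.1| ≤ |h.2| ^ lam}

end Pool.Agent.SQG
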