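import Pool.Agent.SQG.Stmts8

/-!
# DI8 (helper9): from the direction of the gradient to `J8`
-/

set_option autoImplicit false

namespace Pool.Agent.SQG

open Complex MeasureTheory Set Filter Topology ProbabilityTheory

namespace DI8Aux

lemma nm_nonneg (ξ : P2) : 0 ≤ nm ξ := Real.sqrt_nonneg _

lemma abs_fst_le (ξ : P2) : |ξ.1| ≤ nm ξ := by
  unfold nm
  exact Real.abs_le_sqrt (by nlinarith [sq_nonneg ξ.2])

lemma abs_snd_le (ξ : P2) : |ξ.2| ≤ nm ξ := by
  unfold nm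
  exact Real.abs_le_sqrt (by nlinarith [sq_nonneg ξ.1])

lemma nm_vert {g : ℝ} (hg : 0 < g) : nm ((0, g) : P2) = g := by
  unfold nm
  simp [Real.sqrt_sq hg.le]

lemma nm_sq8 {s : ℝ} (hs : 0 < s) {y : P2} (hy : y ∈ Sq8 s) : nm y ≤ 2 * s := by
  obtain ⟨h1, h2⟩ := hy
  rw [mem_Icc] at h1 h2
  unfold nm
  rw [Real.sqrt_le_left (by positivity)]
  nlinarith [abs_le.2 h1, abs_le.2 h2, mul_nonneg (sub_nonneg.2 h1.2) (sub_nonneg.2 h1.1),
    mul_nonneg (sub_nonneg.2 h2.2) (sub_nonneg.2 h2.1), sq_nonneg s]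

/-- the pointwise estimate -/
lemma key {v : P2} {ω K : ℝ} (hK : 0 ≤ K) (hω : 0 ≤ ω) (hω2 : ω ≤ 1 / 2)
    (h : K < nm v → nm (dv8 v - (0, 1)) ≤ ω) : |v.1| ≤ 2 * ω * (v.2 + K) + K := by
  rcases lt_or_ge K (nm v) with hv | hv
  · have hG : 0 < nm v := lt_of_le_of_lt hK hv
    have h1 := h hv
    have h2 : |v.1 / nm v| ≤ ω := by
      have := abs_fst_le (dv8 v - (0, 1))
      have h3 : (dv8 v - (0, 1)).1 = v.1 / nm v := by simp [dv8]
      rw [h3] at this
      exact this.trans h1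
    have h4 : |v.2 / nm v - 1| ≤ ω := by
      have := abs_snd_le (dv8 v - (0, 1))
      have h3 : (dv8 v - (0, 1)).2 = v.2 / nm v - 1 := by simp [dv8]
      rw [h3] at this
      exact this.trans h1
    have h5 : 1 / 2 ≤ v.2 / nm v := by
      have := (abs_le.1 h4).1
      linarith
    have h6 : nm v / 2 ≤ v.2 := by
      rw [le_div_iff₀ hG] at h5
      linarith
    have h7 : |v.1| ≤ ω * nm v := by
      rw [abs_div, abs_of_pos hG, div_le_iff₀ hG] at h2
      exact h2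
    have h8 : ω * nm v ≤ 2 * ω * v.2 := by nlinarith
    have h9 : 0 ≤ ω * K := mul_nonneg hω hK
    nlinarith
  · have h1 := (abs_fst_le v).trans hv
    have h2 := (abs_snd_le v).trans hv
    have h3 := (abs_le.1 h2).1
    have h4 : 0 ≤ 2 * ω * (v.2 + K) := by
      apply mul_nonneg (by linarith)
      linarith
    linarith

end DI8Aux

open DI8Aux in
theorem di8 (hF : Stmt_FB8) : Stmt_DI8 := by
  intro f φ hf A δ K ρ a p b q S g x hA hδ hδ1 hK ha hp hp1 hb hq hq1 hδp hS hS1 hSρ hab hHo hDir hKg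
    hgx s hs hsS
  have hs1 : s ≤ 1 := hsS.trans hS1
  have hg : 0 < g := lt_of_le_of_lt hK hKg
  have hdv : dv8 (gr8 φ x) = (0, 1) := by
    rw [hgx]
    unfold dv8
    rw [nm_vert hg]
    simp [hg.ne']
  have hnx : K < nm (gr8 φ x) := by rw [hgx, nm_vert hg]; exact hKg
  have h2s : (0 : ℝ) < 2 * s := by positivity
  have hω0 : 0 ≤ a * (2 * s) ^ p + b * (2 * s) ^ q := by positivity
  have hω2 : a * (2 * s) ^ p + b * (2 * s) ^ q ≤ 1 / 2 := by
    refine le_trans ?_ hab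
    gcongr
  have h1 : ∀ y ∈ Sq8 s, |(gr8 φ (x + y)).1| ≤
      2 * (a * (2 * s) ^ p + b * (2 * s) ^ q) * ((gr8 φ (x + y)).2 + K) + K := by
    intro y hy
    refine key hK hω0 hω2 fun hv => ?_
    have hny : nm y ≤ 2 * s := nm_sq8 hs hy
    have h2 := hDir (x + y) x (by
      rw [add_sub_cancel_left]
      linarith) hv hnx
    rw [hdv, add_sub_cancel_left] at h2
    refine h2.trans ?_
    have := nm_nonneg y
    gcongr
  have h3 := hF f φ hf A δ K (a * (2 * s) ^ p + b * (2 * s) ^ q) s x hA hδ hδ1 hK hω0 hω2 hs hHo h1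
  refine h3.trans ?_
  have e2 : ∀ t : ℝ, 0 < t → t ≤ 1 → (2 * s) ^ t ≤ 2 * s ^ t := by
    intro t ht ht1
    rw [Real.mul_rpow (by norm_num) hs.le]
    have : (2 : ℝ) ^ t ≤ 2 ^ (1 : ℝ) := Real.rpow_le_rpow_of_exponent_le (by norm_num) ht1
    rw [Real.rpow_one] at this
    gcongr
  have e3 : s ^ (3 : ℝ) ≤ s ^ (2 + (δ + p)) :=
    Real.rpow_le_rpow_of_exponent_ge hs hs1 (by linarith)
  have e4 : s ^ (2 + (δ + p)) = s ^ p * s ^ (2 + δ) := by
    rw [← Real.rpow_add hs]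
    congr 1
    ring
  have e5 : s ^ (2 + (δ + q)) = s ^ q * s ^ (2 + δ) := by
    rw [← Real.rpow_add hs]
    congr 1
    ring
  have hsd : 0 ≤ s ^ (2 + δ) := by positivity
  have hω3 : a * (2 * s) ^ p + b * (2 * s) ^ q ≤ 2 * a * s ^ p + 2 * b * s ^ q := by
    have h5 := mul_le_mul_of_nonneg_left (e2 p hp hp1) ha
    have h6 := mul_le_mul_of_nonneg_left (e2 q hq hq1) hb
    linarith
  calc 16 * (a * (2 * s) ^ p + b * (2 * s) ^ q) * A * s ^ (2 + δ) + 16 * K * s ^ (3 : ℝ)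
      ≤ 16 * (2 * a * s ^ p + 2 * b * s ^ q) * A * s ^ (2 + δ) + 16 * K * s ^ (2 + (δ + p)) := by
        gcongr
    _ = (32 * A * a + 16 * K) * s ^ (2 + (δ + p)) + 32 * A * b * s ^ (2 + (δ + q)) := by
        rw [e4, e5]
        ring

end Pool.Agent.SQG
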