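import Pool.Agent.SQG.Stmts2
import Pool.Agent.SQG.Rot

/-!
# The directional criterion: general direction (assembly)
-/

set_option autoImplicit false

namespace Pool.Agent.SQG

open Complex MeasureTheory Set Filter Topology

namespace MainAux

theorem nm_rot (e : P2) (he : e.1 ^ 2 + e.2 ^ 2 = 1) (x y : P2) :
    nm ((e.1 * x.1 + e.2 * x.2, -(e.2 * x.1) + e.1 * x.2) -
      (e.1 * y.1 + e.2 * y.2, -(e.2 * y.1) + e.1 * y.2)) = nm (x - y) := by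
  unfold nm
  congr 1
  simp only [Prod.fst_sub, Prod.snd_sub]
  have h : (e.1 ^ 2 + e.2 ^ 2) * ((x.1 - y.1) ^ 2 + (x.2 - y.2) ^ 2) =
      (x.1 - y.1) ^ 2 + (x.2 - y.2) ^ 2 := by rw [he, one_mul]
  rw [← h]
  ring

end MainAux

/-- The final theorem for a general direction, from its version `Stmt_MA2` for the first coordinate direction. -/
theorem main2 (hRot : Stmt_ROT) (h2 : Stmt_MA2) : ∀ (α κ T : ℝ) (θ : ℝ → P2 → ℝ) (φ : ℝ → P2 → ℂ),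
    0 < α → α < 1 / 2 → 0 < κ → 0 < T → Sol α κ T θ φ →
    ∀ (M₀ d r : ℝ) (e : P2) (m : ℝ → ℝ), (∀ t ∈ Ioo 0 T, ∀ x, |θ t x| ≤ M₀) →
    e.1 ^ 2 + e.2 ^ 2 = 1 → 1 < r → 1 - 2 * α + 2 * α / r < d → d ≤ 1 →
    (∀ t ∈ Ioo 0 T, 0 ≤ m t ∧ ∀ (x : P2) (a : ℝ),
      |θ t (x.1 + a * e.1, x.2 + a * e.2) - θ t x| ≤ m t * |a| ^ d) →
    IntegrableOn (fun t => m t ^ r) (Ioo 0 T) →
    ∃ β, 1 - 2 * α < β ∧ β < 1 ∧ ∀ t₀ ∈ Ioo 0 T, ∃ C, ∀ t ∈ Ico t₀ T, ∀ x y : P2,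
      |θ t x - θ t y| ≤ C * nm (x - y) ^ β := by
  intro α κ T θ φ hα hα' hκ hT hS M₀ d r e m hM he hr hd hd1 hm hi
  have hS' := hRot α κ T θ φ e he hS
  obtain ⟨β, hβ, hβ1, hC⟩ := h2 α κ T _ _ hα hα' hκ hT hS' M₀ d r m
    (fun t ht x => hM t ht _) hr hd hd1
    (fun t ht => ⟨(hm t ht).1, fun x a => by
      have := (hm t ht).2 (e.1 * x.1 - e.2 * x.2, e.2 * x.1 + e.1 * x.2) a
      convert this using 4
      ext
      · simp only; ring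
      · simp only; ring⟩) hi
  refine ⟨β, hβ, hβ1, fun t₀ ht₀ => ?_⟩
  obtain ⟨C, hC⟩ := hC t₀ ht₀
  refine ⟨C, fun t ht x y => ?_⟩
  have := hC t ht (e.1 * x.1 + e.2 * x.2, -(e.2 * x.1) + e.1 * x.2)
    (e.1 * y.1 + e.2 * y.2, -(e.2 * y.1) + e.1 * y.2)
  rw [MainAux.nm_rot e he] at this
  have key : ∀ z : P2, (e.1 * (e.1 * z.1 + e.2 * z.2) - e.2 * (-(e.2 * z.1) + e.1 * z.2),
      e.2 * (e.1 * z.1 + e.2 * z.2) + e.1 * (-(e.2 * z.1) + e.1 * z.2)) = z := by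
    intro z
    ext
    · simp only
      linear_combination z.1 * he
    · simp only
      linear_combination z.2 * he
  simp only [key] at this
  exact this

end Pool.Agent.SQG
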