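import Pool.Agent.SQG.Stmts6
import Pool.Agent.SQG.Main2

/-!
# The critical directional criterion: general direction (assembly)
-/

set_option autoImplicit false

namespace Pool.Agent.SQG

open Complex MeasureTheory Set Filter Topology

/-- The final theorem for a general direction, from its version `Stmt_MA6` for the first coordinate direction. -/
theorem main6 (hRot : Stmt_ROT) (h6 : Stmt_MA6) : ∀ α : ℝ, 0 < α → α < 1 / 2 → ∃ ε₀ : ℝ, 0 < ε₀ ∧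
    ∀ (κ T : ℝ) (θ : ℝ → P2 → ℝ) (φ : ℝ → P2 → ℂ), 0 < κ → 0 < T → Sol α κ T θ φ →
    ∀ (M₀ r ρ₀ : ℝ) (e : P2) (m : ℝ → ℝ), (∀ t ∈ Ioo 0 T, ∀ x, |θ t x| ≤ M₀) →
    e.1 ^ 2 + e.2 ^ 2 = 1 → 1 < r → 0 < ρ₀ →
    (∀ t ∈ Ioo 0 T, 0 ≤ m t ∧ ∀ (x : P2) (a : ℝ), |a| ≤ ρ₀ →
      |θ t (x.1 + a * e.1, x.2 + a * e.2) - θ t x| ≤
        m t * |a| ^ (1 - 2 * α + 2 * α / r) + ε₀ * κ * |a| ^ (1 - 2 * α)) →
    IntegrableOn (fun t => m t ^ r) (Ioo 0 T) →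
    ∀ t₀ ∈ Ioo 0 T, ∃ C, ∀ t ∈ Ico t₀ T, ∀ x y : P2,
      |θ t x - θ t y| ≤ C * nm (x - y) ^ (1 - α) := by
  intro α hα hα'
  obtain ⟨ε₀, hε₀, h⟩ := h6 α hα hα'
  refine ⟨ε₀, hε₀, ?_⟩
  intro κ T θ φ hκ hT hS M₀ r ρ₀ e m hM he hr hρ hm hi t₀ ht₀
  have hS' := hRot α κ T θ φ e he hS
  obtain ⟨C, hC⟩ := h κ T _ _ hκ hT hS' M₀ r ρ₀ m
    (fun t ht x => hM t ht _) hr hρ
    (fun t ht => ⟨(hm t ht).1, fun x a ha => by
      have := (hm t ht).2 (e.1 * x.1 - e.2 * x.2, e.2 * x.1 + e.1 * x.2) a ha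
      convert this using 4
      ext
      · simp only; ring
      · simp only; ring⟩) hi t₀ ht₀
  refine ⟨C, fun t ht x y => ?_⟩
  have := hC t ht (e.1 * x.1 + e.2 * x.2, -(e.2 * x.1) + e.1 * x.2)
    (e.1 * y.1 + e.2 * y.2, -(e.2 * y.1) + e.1 * y.2)
  rw [MainAux.nm_rot e he] at this
  have key : ∀ z : P2, (e.1 * (e.1 * z.1 + e.2 * z.2) - e.2 * (-(e.2 * z.1) + e.1 * z.2),
      e.2 * (e.1 * z.1 + e.2 * z.2) + e.1 * (-(e.2 * z.1) + e.1 * z.2)) = z := by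
    intro z
    ext
    · simp only
      linear_combination z.1 * he
    · simp only
      linear_combination z.2 * he
  simp only [key] at this
  exact this

end Pool.Agent.SQG
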