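import Pool.Agent.SQG.Stmts7
import Pool.Agent.SQG.Main2

/-!
# Large, nearly one-dimensional data: general direction (assembly)
-/

set_option autoImplicit false

namespace Pool.Agent.SQG

open Complex MeasureTheory Set Filter Topology

/-- The final theorem for a general direction, from its version `Stmt_MA7` for the first coordinate direction. -/
theorem main7 (hRot : Stmt_ROT) (h7 : Stmt_MA7) : ∀ α : ℝ, 0 < α → α < 1 / 2 → ∃ c : ℝ, 0 < c ∧
    ∀ κ M : ℝ, 0 < κ → 0 < M → ∃ ε : ℝ, 0 < ε ∧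
    ∀ (T : ℝ) (θ : ℝ → P2 → ℝ) (φ : ℝ → P2 → ℂ) (t₀ : ℝ) (e : P2), Sol α κ T θ φ → 0 < t₀ → t₀ < T →
    (∀ x, |θ t₀ x| ≤ M) → (∀ x y : P2, |θ t₀ x - θ t₀ y| ≤ M * nm (x - y)) →
    e.1 ^ 2 + e.2 ^ 2 = 1 →
    (∀ (x : P2) (a : ℝ), |θ t₀ (x.1 + a * e.1, x.2 + a * e.2) - θ t₀ x| ≤ ε * (1 + |a|)) →
    ∀ t ∈ Ico t₀ T, ∀ x y : P2,
      |θ t x - θ t y| ≤ 6 * M * (1 + c * κ * (t - t₀)) ^ (-(1 / (2 * α))) * nm (x - y) := by
  intro α hα hα'
  obtain ⟨c, hc, h⟩ := h7 α hα hα'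
  refine ⟨c, hc, ?_⟩
  intro κ M hκ hM
  obtain ⟨ε, hε, H⟩ := h κ M hκ hM
  refine ⟨ε, hε, ?_⟩
  intro T θ φ t₀ e hS ht₀ ht₀T hb hl he hd t ht x y
  have hS' := hRot α κ T θ φ e he hS
  have key : ∀ z : P2, (e.1 * (e.1 * z.1 + e.2 * z.2) - e.2 * (-(e.2 * z.1) + e.1 * z.2),
      e.2 * (e.1 * z.1 + e.2 * z.2) + e.1 * (-(e.2 * z.1) + e.1 * z.2)) = z := by
    intro z
    ext
    · simp only
      linear_combination z.1 * he
    · simp only
      linear_combination z.2 * he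
  have := H T _ _ hS' t₀ ht₀ ht₀T (fun x => hb _)
    (fun x y => by
      have h1 := hl (e.1 * x.1 - e.2 * x.2, e.2 * x.1 + e.1 * x.2)
        (e.1 * y.1 - e.2 * y.2, e.2 * y.1 + e.1 * y.2)
      have h2 : nm ((e.1 * x.1 - e.2 * x.2, e.2 * x.1 + e.1 * x.2) -
          (e.1 * y.1 - e.2 * y.2, e.2 * y.1 + e.1 * y.2) : P2) = nm (x - y) := by
        unfold nm
        congr 1
        simp only [Prod.fst_sub, Prod.snd_sub]
        linear_combination ((x.1 - y.1) ^ 2 + (x.2 - y.2) ^ 2) * he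
      rw [h2] at h1
      exact h1)
    (fun x a => by
      have h1 := hd (e.1 * x.1 - e.2 * x.2, e.2 * x.1 + e.1 * x.2) a
      convert h1 using 4
      ext
      · simp only; ring
      · simp only; ring)
    t ht (e.1 * x.1 + e.2 * x.2, -(e.2 * x.1) + e.1 * x.2)
    (e.1 * y.1 + e.2 * y.2, -(e.2 * y.1) + e.1 * y.2)
  rw [MainAux.nm_rot e he] at this
  simp only [key] at this
  exact this

end Pool.Agent.SQG
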