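import Pool.Agent.SQG.Stmts8

/-!
# The direction of the gradient: the theorem in terms of derivatives (assembly)
-/

set_option autoImplicit false

namespace Pool.Agent.SQG

open Complex MeasureTheory Set Filter Topology

/-- the gradient of a function -/
noncomputable def gd (f : P2 → ℝ) (x : P2) : P2 := (fderiv ℝ f x (1, 0), fderiv ℝ f x (0, 1))

/-- the direction of a nonzero vector -/
noncomputable def dir (v : P2) : P2 := (v.1 / nm v, v.2 / nm v)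

theorem gd_eq (hD : Stmt_DER) {f : P2 → ℝ} {φ : P2 → ℂ} (h : NF f φ) (x : P2) :
    gd f x = gr8 φ x := by
  obtain ⟨-, -, h1⟩ := hD f φ h
  obtain ⟨-, -, h2⟩ := h1 x
  unfold gd gr8
  rw [h2.fderiv]
  ext <;> simp

theorem main8 (hR : Stmt_REG) (hD : Stmt_DER) (h8 : Stmt_MA8) : ∀ α δ : ℝ, 0 < α → α < 1 / 2 →
    0 ≤ δ → δ < 1 - 2 * α → ∃ ε₀ : ℝ, 0 < ε₀ ∧
    ∀ (κ T : ℝ) (θ : ℝ → P2 → ℝ) (φ : ℝ → P2 → ℂ), 0 < κ → 0 < T → Sol α κ T θ φ →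
    ∀ (M A r ρ K : ℝ) (m : ℝ → ℝ), (∀ t ∈ Ioo 0 T, ∀ x, |θ t x| ≤ M) → 0 < A →
    (∀ t ∈ Ioo 0 T, ∀ x y : P2, |θ t x - θ t y| ≤ A * nm (x - y) ^ δ) → 1 < r → 0 < ρ → 0 ≤ K →
    (∀ t ∈ Ioo 0 T, 0 ≤ m t) → IntegrableOn (fun t => m t ^ r) (Ioo 0 T) →
    (∀ t ∈ Ioo 0 T, ∀ x y : P2, nm (x - y) ≤ ρ → K < nm (gd (θ t) x) → K < nm (gd (θ t) y) →
      nm (dir (gd (θ t) x) - dir (gd (θ t) y)) ≤
        m t * nm (x - y) ^ (1 - 2 * α - δ + 2 * α / r) +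
          ε₀ * κ / A * nm (x - y) ^ (1 - 2 * α - δ)) →
    ∀ t₀ ∈ Ioo 0 T, ∃ C, ∀ t ∈ Ico t₀ T, ∀ x y : P2,
      |θ t x - θ t y| ≤ C * nm (x - y) ^ (1 - α) := by
  intro α δ hα hα' hδ hδ'
  obtain ⟨ε₀, hε, H⟩ := h8 α δ hα hα' hδ hδ'
  refine ⟨ε₀, hε, ?_⟩
  intro κ T θ φ hκ hT hS M A r ρ K m hM hA hH hr hρ hK hm hint hdir
  refine H κ T θ φ hκ hT hS M A r ρ K m hM hA (fun t ht => hH t ht) hr hρ hK hm hint ?_
  intro t ht x y hxy hx hy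
  have hN := (hR α κ T θ φ hS).1 t ht
  rw [← gd_eq hD hN] at hx hy ⊢
  rw [← gd_eq hD hN]
  exact hdir t ht x y hxy hx hy

end Pool.Agent.SQG
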