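import Pool.Agent.SQG.Stmts7

/-!
# The numerical inequality for (I)
-/

set_option autoImplicit false

namespace Pool.Agent.SQG

namespace NI7Aux

/-- the reduction: it is enough to bound `(v₁ s + v₂) / lam` by half of the main term -/
theorem final {α κ w D lam ξ X : ℝ} (hα : 0 < α) (hα2 : α < 1 / 2) (hκ : 0 < κ) (hw : 0 < w)
    (hD : 0 < D) (hlam : 1 ≤ lam) (hξ : 0 < ξ) (hξ2 : ξ < 1 / 2)
    (hX : X * (D / lam) ≤ κ * w * D * (ξ ^ (1 - 3 * α / 2) * lam ^ (-2 * α)) / 2) :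
    X * (D / lam) + D * ξ * (κ * w / 4 * lam ^ (-2 * α)) <
      κ * (w * D * ξ ^ (1 + α / 2) * (ξ * lam) ^ (-2 * α)) := by
  have hl : 0 < lam := by linarith
  have e1 : ξ ^ (1 + α / 2) * (ξ * lam) ^ (-2 * α) = ξ ^ (1 - 3 * α / 2) * lam ^ (-2 * α) := by
    rw [Real.mul_rpow hξ.le hl.le, ← mul_assoc, ← Real.rpow_add hξ]
    congr 2
    ring
  have e2 : κ * (w * D * ξ ^ (1 + α / 2) * (ξ * lam) ^ (-2 * α)) =
      κ * w * D * (ξ ^ (1 - 3 * α / 2) * lam ^ (-2 * α)) := by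
    rw [← e1]
    ring
  rw [e2]
  have hA : 0 < ξ ^ (1 - 3 * α / 2) := Real.rpow_pos_of_pos hξ _
  have hB : 0 < lam ^ (-2 * α) := Real.rpow_pos_of_pos hl _
  have hle : ξ ≤ ξ ^ (1 - 3 * α / 2) := by
    have h := Real.rpow_le_rpow_of_exponent_ge hξ (by linarith : ξ ≤ 1)
      (by linarith : 1 - 3 * α / 2 ≤ (1 : ℝ))
    rwa [Real.rpow_one] at h
  have hR : 0 < κ * w * D * (ξ ^ (1 - 3 * α / 2) * lam ^ (-2 * α)) := by positivity
  have h3 : D * ξ * (κ * w / 4 * lam ^ (-2 * α)) ≤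
      κ * w * D * (ξ ^ (1 - 3 * α / 2) * lam ^ (-2 * α)) / 4 := by
    have h4 : κ * w * D * lam ^ (-2 * α) / 4 * ξ ≤
        κ * w * D * lam ^ (-2 * α) / 4 * ξ ^ (1 - 3 * α / 2) :=
      mul_le_mul_of_nonneg_left hle (by positivity)
    calc D * ξ * (κ * w / 4 * lam ^ (-2 * α)) = κ * w * D * lam ^ (-2 * α) / 4 * ξ := by ring
      _ ≤ _ := h4
      _ = κ * w * D * (ξ ^ (1 - 3 * α / 2) * lam ^ (-2 * α)) / 4 := by ring
  linarith

/-- the case of large `lam` or small `ξ` -/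
theorem caseA {α κ w D C lam ξ X : ℝ} (hD : 0 < D) (hlam : 1 ≤ lam) (hξ : 0 < ξ)
    (hX : X ≤ 4 * C * D * ξ ^ (1 - α))
    (hmain : 8 * C * D * ξ ^ (α / 2) ≤ κ * w * lam ^ (1 - 2 * α)) :
    X * (D / lam) ≤ κ * w * D * (ξ ^ (1 - 3 * α / 2) * lam ^ (-2 * α)) / 2 := by
  have hl : 0 < lam := by linarith
  have e1 : ξ ^ (1 - α) = ξ ^ (1 - 3 * α / 2) * ξ ^ (α / 2) := by
    rw [← Real.rpow_add hξ]
    congr 1
    ring
  have e2 : lam ^ (1 - 2 * α) * (1 / lam) = lam ^ (-2 * α) := by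
    have h : lam ^ (1 - 2 * α) = lam ^ (-2 * α) * lam := by
      have := Real.rpow_add hl (-2 * α) 1
      rw [Real.rpow_one] at this
      rw [← this]
      congr 1
      ring
    rw [h]
    field_simp
  have hA : 0 < ξ ^ (1 - 3 * α / 2) := Real.rpow_pos_of_pos hξ _
  have hDl : 0 < D / lam := by positivity
  calc X * (D / lam) ≤ 4 * C * D * ξ ^ (1 - α) * (D / lam) :=
        mul_le_mul_of_nonneg_right hX hDl.le
    _ = 8 * C * D * ξ ^ (α / 2) * (ξ ^ (1 - 3 * α / 2) * (D / lam) / 2) := by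
        rw [e1]; ring
    _ ≤ κ * w * lam ^ (1 - 2 * α) * (ξ ^ (1 - 3 * α / 2) * (D / lam) / 2) :=
        mul_le_mul_of_nonneg_right hmain (by positivity)
    _ = κ * w * D * (ξ ^ (1 - 3 * α / 2) * (lam ^ (1 - 2 * α) * (1 / lam))) / 2 := by ring
    _ = κ * w * D * (ξ ^ (1 - 3 * α / 2) * lam ^ (-2 * α)) / 2 := by rw [e2]

/-- the case of bounded `lam` and `ξ` bounded below -/
theorem caseB {α κ w D lam ξ ξ₀ X : ℝ} (hα : 0 < α) (hα2 : α < 1 / 2) (hκ : 0 < κ) (hw : 0 < w)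
    (hD : 0 < D) (hlam : 1 ≤ lam) (hξ₀ : 0 < ξ₀) (hξ : ξ₀ ≤ ξ) (hX0 : 0 ≤ X)
    (hX : X ≤ κ * w / 2 * ξ₀ ^ (1 - 3 * α / 2)) :
    X * (D / lam) ≤ κ * w * D * (ξ ^ (1 - 3 * α / 2) * lam ^ (-2 * α)) / 2 := by
  have hl : 0 < lam := by linarith
  have h1 : ξ₀ ^ (1 - 3 * α / 2) ≤ ξ ^ (1 - 3 * α / 2) :=
    Real.rpow_le_rpow hξ₀.le hξ (by linarith)
  have h2 : X ≤ κ * w / 2 * ξ ^ (1 - 3 * α / 2) :=
    hX.trans (mul_le_mul_of_nonneg_left h1 (by positivity))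
  have h3 : 1 / lam ≤ lam ^ (-2 * α) := by
    have h := Real.rpow_le_rpow_of_exponent_le hlam (by linarith : (-1 : ℝ) ≤ -2 * α)
    rw [Real.rpow_neg_one] at h
    rwa [one_div]
  have h4 : D / lam ≤ D * lam ^ (-2 * α) := by
    rw [div_eq_mul_one_div]
    exact mul_le_mul_of_nonneg_left h3 hD.le
  have hA : 0 ≤ κ * w / 2 * ξ ^ (1 - 3 * α / 2) := hX0.trans h2
  calc X * (D / lam) ≤ (κ * w / 2 * ξ ^ (1 - 3 * α / 2)) * (D * lam ^ (-2 * α)) :=
        mul_le_mul h2 h4 (by positivity) hA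
    _ = _ := by ring

end NI7Aux

open NI7Aux in
theorem ni7 : Stmt_NI7 := by
  intro α κ w D C hα hα2 hκ hw hD hC
  -- constants
  set Λ : ℝ := max 1 ((8 * C * D / (κ * w)) ^ (1 / (1 - 2 * α))) with hΛ
  set ξ₀ : ℝ := min 1 ((κ * w / (8 * C * D)) ^ (2 / α)) with hξ₀def
  have hΛ1 : 1 ≤ Λ := le_max_left _ _
  have hξ₀ : 0 < ξ₀ := lt_min one_pos (Real.rpow_pos_of_pos (by positivity) _)
  set Q : ℝ := κ * w / 2 * ξ₀ ^ (1 - 3 * α / 2) with hQ
  have hQ0 : 0 < Q := by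
    have := Real.rpow_pos_of_pos hξ₀ (1 - 3 * α / 2)
    positivity
  set B : ℝ := ξ₀ ^ (-(1 / 2) : ℝ) with hB
  have hB0 : 0 < B := Real.rpow_pos_of_pos hξ₀ _
  set S : ℝ := Λ ^ (1 / 2 : ℝ) with hS
  have hS0 : 0 < S := Real.rpow_pos_of_pos (by linarith) _
  have hE1 : 0 < (Q / (4 * C * D)) ^ 2 * D / (4 * Λ * B) := by positivity
  have hE2 : 0 < Q / (4 * C * S) := by positivity
  refine ⟨Λ, min ((Q / (4 * C * D)) ^ 2 * D / (4 * Λ * B)) (Q / (4 * C * S)), hΛ1,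
    lt_min hE1 hE2, ?_⟩
  intro lam ξ e s v₁ v₂ hlam hξ hξ2 he heE hs hs1 hs2 hv1 hv1' hv2 hv2' hv2''
  have hl : 0 < lam := by linarith
  apply final hα hα2 hκ hw hD hlam hξ hξ2
  have hY : 0 ≤ 2 * C * D * ξ ^ (1 - α) := hv1.trans hv1'
  have hXA : v₁ * s + v₂ ≤ 4 * C * D * ξ ^ (1 - α) := by
    have h1 : v₁ * s ≤ 2 * C * D * ξ ^ (1 - α) * 1 := mul_le_mul hv1' hs1 hs hY
    linarith
  by_cases hc1 : Λ ≤ lam
  · -- large `lam`
    apply caseA hD hlam hξ hXA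
    have h1 : ξ ^ (α / 2) ≤ 1 := Real.rpow_le_one hξ.le (by linarith) (by positivity)
    have h2 : 8 * C * D / (κ * w) ≤ lam ^ (1 - 2 * α) := by
      have h3 : (8 * C * D / (κ * w)) ^ (1 / (1 - 2 * α)) ≤ lam := (le_max_right _ _).trans hc1
      have h4 := Real.rpow_le_rpow (Real.rpow_nonneg (by positivity) _) h3
        (by linarith : 0 ≤ 1 - 2 * α)
      rwa [← Real.rpow_mul (by positivity), one_div, inv_mul_cancel₀ (by linarith),
        Real.rpow_one] at h4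
    rw [div_le_iff₀ (by positivity)] at h2
    calc 8 * C * D * ξ ^ (α / 2) ≤ 8 * C * D * 1 := mul_le_mul_of_nonneg_left h1 (by positivity)
      _ ≤ lam ^ (1 - 2 * α) * (κ * w) := by linarith
      _ = κ * w * lam ^ (1 - 2 * α) := by ring
  · push Not at hc1
    by_cases hc2 : ξ ≤ ξ₀
    · -- small `ξ`
      apply caseA hD hlam hξ hXA
      have h1 : 1 ≤ lam ^ (1 - 2 * α) := Real.one_le_rpow hlam (by linarith)
      have h2 : ξ ^ (α / 2) ≤ κ * w / (8 * C * D) := by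
        have h3 : ξ ≤ (κ * w / (8 * C * D)) ^ (2 / α) := hc2.trans (min_le_right _ _)
        have h4 := Real.rpow_le_rpow hξ.le h3 (by positivity : 0 ≤ α / 2)
        rwa [← Real.rpow_mul (by positivity), show 2 / α * (α / 2) = 1 by field_simp,
          Real.rpow_one] at h4
      rw [le_div_iff₀ (by positivity)] at h2
      calc 8 * C * D * ξ ^ (α / 2) = ξ ^ (α / 2) * (8 * C * D) := by ring
        _ ≤ κ * w * 1 := by linarith
        _ ≤ κ * w * lam ^ (1 - 2 * α) := mul_le_mul_of_nonneg_left h1 (by positivity)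
    · push Not at hc2
      have heE' := heE hc1.le
      have he1 := heE'.trans (min_le_left _ _)
      have he2 := heE'.trans (min_le_right _ _)
      have hξl : ξ₀ ≤ ξ * lam := by nlinarith
      have hξl0 : 0 < ξ * lam := by positivity
      -- the bound of `s`
      have hsQ : s ≤ Q / (4 * C * D) := by
        have h1 : (ξ * lam) ^ (-(1 / 2) : ℝ) ≤ B :=
          Real.rpow_le_rpow_of_nonpos hξ₀ hξl (by norm_num)
        have h0 : 0 ≤ (ξ * lam) ^ (-(1 / 2) : ℝ) := (Real.rpow_pos_of_pos hξl0 _).le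
        have h2 : 4 * lam * e * (ξ * lam) ^ (-(1 / 2) : ℝ) / D ≤ 4 * Λ * e * B / D := by
          apply div_le_div_of_nonneg_right _ hD.le
          apply mul_le_mul _ h1 h0 (by positivity)
          exact mul_le_mul_of_nonneg_right (by linarith) he
        have h3 : 4 * Λ * e * B / D ≤ (Q / (4 * C * D)) ^ 2 := by
          rw [le_div_iff₀ (by positivity)] at he1
          rw [div_le_iff₀ hD]
          calc 4 * Λ * e * B = e * (4 * Λ * B) := by ring
            _ ≤ _ := he1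
        exact (sq_le_sq₀ hs (by positivity)).mp (hs2.trans (h2.trans h3))
      have hv1Q : v₁ * s ≤ Q / 2 := by
        have h1 : ξ ^ (1 - α) ≤ 1 := Real.rpow_le_one hξ.le (by linarith) (by linarith)
        have h2 : v₁ ≤ 2 * C * D := by
          have : 2 * C * D * ξ ^ (1 - α) ≤ 2 * C * D * 1 :=
            mul_le_mul_of_nonneg_left h1 (by positivity)
          linarith
        calc v₁ * s ≤ 2 * C * D * (Q / (4 * C * D)) := mul_le_mul h2 hsQ hs (by positivity)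
          _ = Q / 2 := by field_simp; ring
      have hv2Q : v₂ ≤ Q / 2 := by
        have h1 : (ξ * lam) ^ (1 / 2 : ℝ) ≤ S :=
          Real.rpow_le_rpow hξl0.le (by nlinarith) (by norm_num)
        have h0 : 0 ≤ (ξ * lam) ^ (1 / 2 : ℝ) := (Real.rpow_pos_of_pos hξl0 _).le
        have h2 : 2 * C * e * (ξ * lam) ^ (1 / 2 : ℝ) ≤ 2 * C * e * S :=
          mul_le_mul_of_nonneg_left h1 (by positivity)
        have h3 : 2 * C * e * S ≤ Q / 2 := by
          rw [le_div_iff₀ (by positivity)] at he2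
          linarith
        linarith
      apply caseB hα hα2 hκ hw hD hlam hξ₀ hc2.le (by positivity)
      linarith

end Pool.Agent.SQG
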