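import Pool.Agent.SQG.Stmts2

/-! # Module NUM: two inequalities for powers -/

set_option autoImplicit false

namespace Pool.Agent.SQG

open Complex MeasureTheory Set Filter Topology ProbabilityTheory

theorem num : Stmt_NUM := by
  intro r d β σ lam q x a B M b hr hd hd1 hq hx hqx hσ hσβ hD ha har hB hM hb hb1
  have hr0 : 0 < r := by linarith
  have hM0 : 0 < M := by linarith
  have hqd : 0 < q - d := by linarith
  have hx0 : 0 < x := by
    rw [hx]
    positivity
  have hq0 : 0 < q := by linarith
  have hqx0 : 0 < q * x := by positivity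
  have har1 : 0 ≤ a / r := by positivity
  have har2 : 0 ≤ 1 - a / r := by
    have : a / r ≤ 1 := by
      rw [div_le_one hr0]
      exact har
    linarith
  constructor
  · have h1 : b ^ (-B) ≤ (b ^ (-σ)) ^ (1 - a / r) := by
      rw [← Real.rpow_mul hb.le]
      apply Real.rpow_le_rpow_of_exponent_ge hb hb1
      linarith
    have h2 : M ^ a = (M ^ r) ^ (a / r) := by
      rw [← Real.rpow_mul hM0.le]
      congr 1
      field_simp
    have hMr : 0 ≤ M ^ r := Real.rpow_nonneg hM0.le _
    have hbs : 0 ≤ b ^ (-σ) := Real.rpow_nonneg hb.le _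
    calc M ^ a * b ^ (-B) ≤ (M ^ r) ^ (a / r) * (b ^ (-σ)) ^ (1 - a / r) := by
          rw [h2]
          exact mul_le_mul_of_nonneg_left h1 (Real.rpow_nonneg hMr _)
      _ ≤ a / r * M ^ r + (1 - a / r) * b ^ (-σ) :=
          Real.geom_mean_le_arith_mean2_weighted har1 har2 hMr hbs (by ring)
      _ ≤ 1 * M ^ r + 1 * b ^ (-σ) := by
          apply add_le_add
          · exact mul_le_mul_of_nonneg_right (by linarith) hMr
          · exact mul_le_mul_of_nonneg_right (by linarith) hbs
      _ = M ^ r + b ^ (-σ) := by ring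
  · intro hh
    have h20 : (1 : ℝ) ≤ 2 ^ (1 / (q * x)) := Real.one_le_rpow (by norm_num) (by positivity)
    have hMa : M ^ a ≤ M ^ r := Real.rpow_le_rpow_of_exponent_le hM har
    have hMa0 : 0 ≤ M ^ a := Real.rpow_nonneg hM0.le _
    rcases le_or_gt B 0 with hB0 | hB0
    · have h1 : b ^ (-B) ≤ 1 := Real.rpow_le_one hb.le hb1 (by linarith)
      calc M ^ a * b ^ (-B) ≤ M ^ a * 1 := mul_le_mul_of_nonneg_left h1 hMa0
        _ = 1 * M ^ a := by ring
        _ ≤ 2 ^ (1 / (q * x)) * M ^ r := mul_le_mul h20 hMa hMa0 (by linarith)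
    · set D : ℝ := lam * d - β with hDdef
      have hD1 : q * x * σ ≤ D := by
        calc q * x * σ ≤ q * x * (1 - β) := mul_le_mul_of_nonneg_left hσβ hqx0.le
          _ ≤ D := hD
      have hD0 : 0 < D := lt_of_lt_of_le (by positivity) hD1
      set Q : ℝ := M ^ (q / (q - d)) with hQ
      have hQ1 : 1 ≤ Q := Real.one_le_rpow hM (by positivity)
      have hbD : b ^ (-D) ≤ 2 * Q := by
        have h3 : b ^ (-D) = b ^ β * (b ^ (lam * d))⁻¹ := by
          rw [← Real.rpow_neg hb.le, ← Real.rpow_add hb]
          congr 1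
          rw [hDdef]
          ring
        have h4 : 0 < b ^ (lam * d) := Real.rpow_pos_of_pos hb _
        rw [h3, ← div_eq_mul_inv, div_le_iff₀ h4]
        linarith
      have hBD : B / D ≤ (1 - a / r) / (q * x) := by
        rw [div_le_div_iff₀ hD0 hqx0]
        calc B * (q * x) ≤ σ * (1 - a / r) * (q * x) := mul_le_mul_of_nonneg_right hB hqx0.le
          _ = (1 - a / r) * (q * x * σ) := by ring
          _ ≤ (1 - a / r) * D := mul_le_mul_of_nonneg_left hD1 har2
      have h5 : b ^ (-B) = (b ^ (-D)) ^ (B / D) := by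
        rw [← Real.rpow_mul hb.le]
        congr 1
        field_simp
      have h6 : b ^ (-B) ≤ 2 ^ (1 / (q * x)) * M ^ (r - a) := by
        have hBD0 : 0 ≤ B / D := by positivity
        have hexp : (1 - a / r) / (q * x) ≤ 1 / (q * x) := by
          apply div_le_div_of_nonneg_right _ hqx0.le
          linarith
        calc b ^ (-B) = (b ^ (-D)) ^ (B / D) := h5
          _ ≤ (2 * Q) ^ (B / D) :=
              Real.rpow_le_rpow (Real.rpow_nonneg hb.le _) hbD hBD0
          _ = 2 ^ (B / D) * Q ^ (B / D) := Real.mul_rpow (by norm_num) (by linarith)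
          _ ≤ 2 ^ (1 / (q * x)) * Q ^ ((1 - a / r) / (q * x)) := by
              apply mul_le_mul
              · exact Real.rpow_le_rpow_of_exponent_le (by norm_num) (hBD.trans hexp)
              · exact Real.rpow_le_rpow_of_exponent_le hQ1 hBD
              · exact Real.rpow_nonneg (by linarith) _
              · exact Real.rpow_nonneg (by norm_num) _
          _ = 2 ^ (1 / (q * x)) * M ^ (r - a) := by
              rw [hQ, ← Real.rpow_mul hM0.le]
              congr 2
              have h7 : q / (q - d) = q * x * r := by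
                rw [hx]
                field_simp
              rw [h7]
              field_simp
      calc M ^ a * b ^ (-B) ≤ M ^ a * (2 ^ (1 / (q * x)) * M ^ (r - a)) :=
            mul_le_mul_of_nonneg_left h6 hMa0
        _ = 2 ^ (1 / (q * x)) * (M ^ a * M ^ (r - a)) := by ring
        _ = 2 ^ (1 / (q * x)) * M ^ r := by
            rw [← Real.rpow_add hM0]
            congr 2
            ring

end Pool.Agent.SQG
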