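import Pool.Agent.SQG.Stmts2

/-! # Module PAR: the parameters -/

set_option autoImplicit false

namespace Pool.Agent.SQG

open Complex MeasureTheory Set Filter Topology ProbabilityTheory

theorem par : Stmt_PAR := by
  intro α r d δ₂ hα hα2 hr hd hd1 hδ0 hδ1
  set w : ℝ := d + 2 * α - 2 * α / r with hw
  have hr0 : 0 < r := by linarith
  have hw1 : 1 < w := by linarith
  have hw0 : 0 < w := by linarith
  have har : 0 < 2 * α / r := by positivity
  have hd0 : 0 < d := by
    have : 0 < 1 - 2 * α := by linarith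
    linarith
  obtain ⟨m, hm⟩ := exists_nat_ge (1 + r * d / (2 * (r - 1)) + (d + 2 * α / ((w - 1) * r)))
  have hr1 : 0 < r - 1 := by linarith
  have hww : 0 < w - 1 := by linarith
  have h1 : 0 < r * d / (2 * (r - 1)) := by positivity
  have h2 : 0 < 2 * α / ((w - 1) * r) := by positivity
  have hm1 : (1 : ℝ) ≤ m := by linarith
  have hmA : r * d / (2 * (r - 1)) ≤ m := by linarith
  have hmB : d + 2 * α / ((w - 1) * r) ≤ m := by linarith
  have hqd : 0 < 2 * (m : ℝ) - d := by linarith
  set x : ℝ := 1 / ((2 * m - d) * r) with hx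
  have hx0 : 0 < x := by positivity
  have hxr : x * (2 * m - d) = 1 / r := by
    rw [hx]
    field_simp
  have hqx : 2 * (m : ℝ) * x ≤ 1 := by
    rw [hx, mul_one_div, div_le_one (by positivity)]
    rw [div_le_iff₀ (by positivity)] at hmA
    nlinarith
  have hxw : 2 * α * x ≤ w - 1 := by
    rw [hx, mul_one_div, div_le_iff₀ (by positivity)]
    have h3 : 2 * α / ((w - 1) * r) ≤ 2 * (m : ℝ) - d := by linarith
    rw [div_le_iff₀ (by positivity)] at h3
    nlinarith
  set ν : ℝ := 1 / w with hν
  have hν0 : 0 < ν := by positivity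
  have hνw : ν * w = 1 := by
    rw [hν]
    field_simp
  have hν1 : ν < 1 := by
    rw [hν, div_lt_one hw0]
    exact hw1
  have hβ : (1 - (1 - δ₂) / w) = 1 - ν * (1 - δ₂) := by
    rw [hν]
    ring
  rw [hβ]
  have hδ : 2 * α ≤ 1 - δ₂ := by linarith
  have hδp : 0 < 1 - δ₂ := by linarith
  have hνδ : 0 < ν * (1 - δ₂) := by positivity
  have hνδ1 : ν * (1 - δ₂) < 1 := by nlinarith
  have hlam : ν * (1 + 2 * α * x) * d = 1 - 2 * α * ν * (1 - 2 * m * x) := by
    have h4 : ν * (d + 2 * α - 2 * α / r) = 1 := hνw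
    have h5 : 2 * α / r = 2 * α * (x * (2 * m - d)) := by
      rw [hxr]
      ring
    rw [h5] at h4
    linear_combination h4
  have hσ : 2 * α * ν ≤ ν * (1 - δ₂) := by nlinarith
  refine ⟨x, ν * (1 + 2 * α * x), m, ?_⟩
  refine
    { m1 := by exact_mod_cast hm1
      ν0 := hν0
      ν1 := hν1
      β0 := by linarith
      β1 := by linarith
      δβ := ?_
      lam0 := by positivity
      lam1 := ?_
      βlam := ?_
      xq := hx
      x0 := hx0
      qx := hqx
      lamd := hlam
      σβ := by linarith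
      B1 := ?_
      ab := ?_
      γ := ?_ }
  · nlinarith
  · calc ν * (1 + 2 * α * x) ≤ ν * w := mul_le_mul_of_nonneg_left (by linarith) hν0.le
      _ = 1 := hνw
  · have h6 : 1 - 2 * α * ν = ν * (d - 2 * α / r) := by
      have h4 : ν * (d + 2 * α - 2 * α / r) = 1 := hνw
      linear_combination -h4
    have h7 : ν * (d - 2 * α / r) < ν * 1 := mul_lt_mul_of_pos_left (by linarith) hν0
    have h8 : 0 < ν * (2 * α * x) := by positivity
    nlinarith
  · intro δ' hδ'
    have h9 : 0 ≤ ν * (δ' - δ₂) := mul_nonneg hν0.le (by linarith)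
    nlinarith
  · have h10 : 0 ≤ (1 - 2 * m * x) * (ν * (1 - δ₂) - 2 * α * ν) :=
      mul_nonneg (by linarith) (by linarith)
    nlinarith
  · field_simp
    ring

end Pool.Agent.SQG
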