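import Pool.Agent.SQG.Stmts2

/-! # SHF: translation in time -/

set_option autoImplicit false

namespace Pool.Agent.SQG

open Complex MeasureTheory Set Filter Topology ProbabilityTheory

theorem shf : Stmt_SHF := by
  intro α κ T s θ φ hs hsT h
  have key : ∀ t ∈ Ioo 0 (T - s), t + s ∈ Ioo 0 T := by
    intro t ht
    exact ⟨by linarith [ht.1], by linarith [ht.2]⟩
  refine ⟨fun t ht => h.meas _ (key t ht), fun t ht u => h.sob _ (key t ht) u, ?_,
    fun t ht x => h.rep _ (key t ht) x, ?_⟩
  · intro t ht u
    have h1 := h.cont _ (key t ht) u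
    have h2 : Tendsto (fun t' : ℝ => t' + s) (𝓝 t) (𝓝 (t + s)) :=
      (continuous_id.add continuous_const).tendsto t
    exact h1.comp h2
  · intro t ht x
    have h1 := h.eqn _ (key t ht) x
    exact HasDerivAt.comp_add_const t s h1

end Pool.Agent.SQG
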