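import Pool.Agent.SQG.Stmts6

/-!
# Critical directional classes: Stage 2
-/

set_option autoImplicit false

namespace Pool.Agent.SQG

open Complex MeasureTheory Set Filter Topology ProbabilityTheory

namespace ST6Aux

theorem abs1_le (h : P2) : |h.1| ≤ nm h := by
  unfold nm
  exact Real.abs_le_sqrt (by nlinarith [sq_nonneg h.2])

theorem abs2_le (h : P2) : |h.2| ≤ nm h := by
  unfold nm
  exact Real.abs_le_sqrt (by nlinarith [sq_nonneg h.1])

theorem nm_fst (s : ℝ) : nm (s, 0) = |s| := by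
  unfold nm
  simp [Real.sqrt_sq_eq_abs]

theorem nm_snd (s : ℝ) : nm (0, s) = |s| := by
  unfold nm
  simp [Real.sqrt_sq_eq_abs]

theorem nm_nonneg (h : P2) : 0 ≤ nm h := Real.sqrt_nonneg _

theorem pw {s L a : ℝ} (hs : 0 ≤ s) (hL : 0 ≤ L) (h : s ≤ 2 * L) (ha : 0 < a) (ha1 : a < 1) :
    s ^ a ≤ 2 * L ^ a := by
  calc s ^ a ≤ (2 * L) ^ a := Real.rpow_le_rpow hs h ha.le
    _ = 2 ^ a * L ^ a := Real.mul_rpow (by norm_num) hL
    _ ≤ 2 ^ (1 : ℝ) * L ^ a := by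
        apply mul_le_mul_of_nonneg_right _ (Real.rpow_nonneg hL _)
        exact Real.rpow_le_rpow_of_exponent_le (by norm_num) ha1.le
    _ = 2 * L ^ a := by rw [Real.rpow_one]

/-- The numerical contradiction. -/
theorem core {α κ c Cu A n N L D U₁ U₂ : ℝ} (hα : 0 < α) (hα' : α < 1 / 2) (hκ : 0 < κ)
    (hc : 0 < c) (hCu : 0 < Cu) (hA : 0 ≤ A) (hn : 0 ≤ n) (hN : 0 < N) (hL : 0 < L)
    (hA1 : 16 * (Cu * A) ≤ κ * c) (hn1 : 16 * (Cu * n * L ^ α) ≤ κ * c)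
    (hD : c * N * L ^ (1 - α - 2 * α) ≤ D)
    (hU₁ : U₁ ≤ Cu * A * (2 * L ^ (1 - 2 * α)) + Cu * n * (2 * L ^ (1 - α)))
    (hU₂ : U₂ ≤ Cu * A * (2 * L ^ (1 - 2 * α)) + Cu * n * (2 * L ^ (1 - α)))
    (hF : κ * D ≤ (U₁ + U₂) * (N * (1 - α) * L ^ (1 - α - 1))) : False := by
  have e1 : L ^ (1 - 2 * α) * L ^ (1 - α - 1) = L ^ (1 - α - 2 * α) := by
    rw [← Real.rpow_add hL]; congr 1; ring
  have e2 : L ^ (1 - α) * L ^ (1 - α - 1) = L ^ α * L ^ (1 - α - 2 * α) := by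
    rw [← Real.rpow_add hL, ← Real.rpow_add hL]; congr 1; ring
  have hW : 0 < L ^ (1 - α - 2 * α) := Real.rpow_pos_of_pos hL _
  have hV : 0 < L ^ (1 - α - 1) := Real.rpow_pos_of_pos hL _
  have hX : 0 < L ^ (1 - 2 * α) := Real.rpow_pos_of_pos hL _
  have hY : 0 < L ^ (1 - α) := Real.rpow_pos_of_pos hL _
  have hZ : 0 < L ^ α := Real.rpow_pos_of_pos hL _
  have h1 : (U₁ + U₂) * (N * (1 - α) * L ^ (1 - α - 1)) ≤
      (4 * (Cu * A * L ^ (1 - 2 * α) + Cu * n * L ^ (1 - α))) * (N * L ^ (1 - α - 1)) := by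
    have a1 : U₁ + U₂ ≤ 4 * (Cu * A * L ^ (1 - 2 * α) + Cu * n * L ^ (1 - α)) := by linarith
    have a2 : 0 ≤ N * (1 - α) * L ^ (1 - α - 1) :=
      mul_nonneg (mul_nonneg hN.le (by linarith)) hV.le
    have a3 : N * (1 - α) * L ^ (1 - α - 1) ≤ N * L ^ (1 - α - 1) := by
      apply mul_le_mul_of_nonneg_right _ hV.le
      nlinarith
    exact (mul_le_mul_of_nonneg_right a1 a2).trans (mul_le_mul_of_nonneg_left a3 (by positivity))
  have h2 : (4 * (Cu * A * L ^ (1 - 2 * α) + Cu * n * L ^ (1 - α))) * (N * L ^ (1 - α - 1)) =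
      (4 * (Cu * A) + 4 * (Cu * n * L ^ α)) * (N * L ^ (1 - α - 2 * α)) := by
    calc _ = 4 * N * (Cu * A * (L ^ (1 - 2 * α) * L ^ (1 - α - 1)) +
          Cu * n * (L ^ (1 - α) * L ^ (1 - α - 1))) := by ring
      _ = _ := by rw [e1, e2]; ring
  have h3 : κ * c * (N * L ^ (1 - α - 2 * α)) ≤
      (4 * (Cu * A) + 4 * (Cu * n * L ^ α)) * (N * L ^ (1 - α - 2 * α)) := by
    have := mul_le_mul_of_nonneg_left hD hκ.le
    linarith
  have h4 := le_of_mul_le_mul_right h3 (mul_pos hN hW)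
  have h5 : 0 < κ * c := mul_pos hκ hc
  linarith

end ST6Aux

open ST6Aux in
/-- Stage 2. -/
theorem st6 (hR : Stmt_REG) (hU : Stmt_UB2) (hRi : Stmt_RFI) (hT : Stmt_TCI) (hF : Stmt_FOI) :
    Stmt_ST6 := by
  intro α hα hα'
  obtain ⟨C, hC0, hUB⟩ := hU
  obtain ⟨c, hc, hRF⟩ := hRi α (1 - α) hα hα' (by linarith) (by linarith)
  obtain ⟨Cu, hCu⟩ : ∃ Cu : ℝ, Cu = max (C (1 - 2 * α)) (C (1 - α)) := ⟨_, rfl⟩
  have hCu1 : C (1 - 2 * α) ≤ Cu := by rw [hCu]; exact le_max_left _ _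
  have hCu2 : C (1 - α) ≤ Cu := by rw [hCu]; exact le_max_right _ _
  have hCu0 : 0 < Cu := (hC0 _).trans_le hCu1
  refine ⟨c / (16 * Cu), by positivity, ?_⟩
  intro κ T θ φ hκ hS M₀ t₀ A n hM₀ ht₀ ht₀T hA hAε hn hH
  have hκc : 0 < κ * c := mul_pos hκ hc
  have hM₀0 : 0 ≤ M₀ := (abs_nonneg _).trans (hM₀ t₀ ⟨ht₀, ht₀T⟩ 0)
  obtain ⟨hNF, hReg⟩ := hR α κ T θ φ hS
  obtain ⟨L₀, hL₀, hlip⟩ := hReg.lip t₀ t₀ ht₀ ht₀T
  obtain ⟨q, hq⟩ : ∃ q : ℝ, q = κ * c / (16 * (Cu * (n + 1))) := ⟨_, rfl⟩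
  have hq0 : 0 < q := by rw [hq]; positivity
  obtain ⟨ρ, hρ⟩ : ∃ ρ : ℝ, ρ = q ^ (1 / α) := ⟨_, rfl⟩
  have hρ0 : 0 < ρ := by rw [hρ]; positivity
  have hρα : ρ ^ α = q := by
    rw [hρ, ← Real.rpow_mul hq0.le, one_div_mul_cancel hα.ne', Real.rpow_one]
  have hR0 : 0 < ρ ^ (1 - α) := Real.rpow_pos_of_pos hρ0 _
  obtain ⟨N, hNd⟩ : ∃ N : ℝ, N = 2 * L₀ + 2 * M₀ + 2 * M₀ / ρ ^ (1 - α) + 1 := ⟨_, rfl⟩
  have hdiv : 0 ≤ 2 * M₀ / ρ ^ (1 - α) := by positivity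
  have hN1 : 2 * L₀ < N := by rw [hNd]; linarith
  have hN2 : 2 * M₀ < N := by rw [hNd]; linarith
  have hN0 : 0 < N := by linarith
  have hN3 : 2 * M₀ < N * ρ ^ (1 - α) := by
    have h1 : 2 * M₀ = 2 * M₀ / ρ ^ (1 - α) * ρ ^ (1 - α) := by
      rw [div_mul_cancel₀ _ hR0.ne']
    rw [h1]
    apply mul_lt_mul_of_pos_right _ hR0
    rw [hNd]; linarith
  refine ⟨N, ?_⟩
  -- large displacements
  have hbig : ∀ t ∈ Ioo 0 T, ∀ x y : P2, 1 ≤ nm (x - y) →
      |θ t x - θ t y| ≤ N * nm (x - y) ^ (1 - α) := by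
    intro t ht x y hxy
    have e1 := hM₀ t ht x
    have e2 := hM₀ t ht y
    have e3 : |θ t x - θ t y| ≤ |θ t x| + |θ t y| := abs_sub _ _
    have e4 : N ≤ N * nm (x - y) ^ (1 - α) :=
      le_mul_of_one_le_right hN0.le (Real.one_le_rpow hxy (by linarith))
    linarith
  have hfrom : ∀ t ∈ Ioo 0 T, (∀ (y l : P2), nm l ≤ 1 →
      |θ t (y + l) - θ t y| ≤ N * nm l ^ (1 - α)) →
      ∀ x y : P2, |θ t x - θ t y| ≤ N * nm (x - y) ^ (1 - α) := by
    intro t ht h x y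
    rcases le_total (nm (x - y)) 1 with h1 | h1
    · have h2 := h y (x - y) h1
      rwa [add_sub_cancel] at h2
    · exact hbig t ht x y h1
  rcases hT T θ hReg M₀ (1 - α) N t₀ L₀ ht₀ ht₀T hM₀ (by linarith) (by linarith)
    (fun x y => hlip t₀ ⟨le_rfl, le_rfl⟩ x y) hL₀ hN1 hN2 with
    h | ⟨t, x, h, ht0, htT, hh0, hh1, hOm, hall⟩
  · intro t ht
    exact hfrom t ⟨ht₀.trans_le ht.1, ht.2⟩ (h t ht)
  · exfalso
    have htI : t ∈ Ioo 0 T := ⟨ht₀.trans ht0, htT⟩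
    have htJ : t ∈ Ico t₀ T := ⟨ht0.le, htT⟩
    have htK : t ∈ Icc t₀ t := ⟨ht0.le, le_rfl⟩
    have hnf := hNF t htI
    have hF' := hF α κ T θ φ hS N (1 - α) t₀ t x h ht₀ ht0 htT hN0.le (by linarith) hh0 hh1
      hOm hall
    have hmax : ∀ y, θ t (y + h) - θ t y ≤ θ t (x + h) - θ t x := fun y => by
      rw [hOm]
      exact (le_abs_self _).trans (hall t htK y h hh1.le)
    have hD := hRF (θ t) (φ t) N hnf hN0.le (hfrom t htI (hall t htK)) x h hh0 (le_of_eq hOm.symm)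
      hmax
    -- velocity
    have hHt := hH t htJ
    have h1s : H1s (θ t) A (1 - 2 * α) n (1 - α) := by
      intro y s
      have h1 := hHt (y.1 + s, y.2) y
      have h2 : ((y.1 + s, y.2) : P2) - y = (s, 0) := by
        ext
        · simp
        · simp
      rwa [h2, nm_fst] at h1
    have h2s : H2s (θ t) A (1 - 2 * α) n (1 - α) := by
      intro y s
      have h1 := hHt (y.1, y.2 + s) y
      have h2 : ((y.1, y.2 + s) : P2) - y = (0, s) := by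
        ext
        · simp
        · simp
      rwa [h2, nm_snd] at h1
    obtain ⟨hUa, hUb⟩ := hUB (1 - 2 * α) (1 - α) (by linarith) (by linarith) (by linarith)
      (by linarith) (θ t) (φ t) A n hnf hA hn
    have hs0 : 0 ≤ |h.1| + |h.2| := by positivity
    have hs2 : |h.1| + |h.2| ≤ 2 * nm h := by
      have := abs1_le h
      have := abs2_le h
      linarith
    have p1 := pw hs0 (nm_nonneg h) hs2 (by linarith : 0 < 1 - 2 * α) (by linarith)
    have p2 := pw hs0 (nm_nonneg h) hs2 (by linarith : 0 < 1 - α) (by linarith)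
    have hb : C (1 - 2 * α) * A * (|h.1| + |h.2|) ^ (1 - 2 * α) +
        C (1 - α) * n * (|h.1| + |h.2|) ^ (1 - α) ≤
        Cu * A * (2 * nm h ^ (1 - 2 * α)) + Cu * n * (2 * nm h ^ (1 - α)) := by
      apply add_le_add
      · exact mul_le_mul (mul_le_mul_of_nonneg_right hCu1 hA) p1 (Real.rpow_nonneg hs0 _)
          (mul_nonneg hCu0.le hA)
      · exact mul_le_mul (mul_le_mul_of_nonneg_right hCu2 hn) p2 (Real.rpow_nonneg hs0 _)
          (mul_nonneg hCu0.le hn)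
    have hU2 := (hUa h1s x h).trans hb
    have hU1 := (hUb h2s x h).trans hb
    rcases lt_or_ge (nm h) ρ with hlt | hge
    · have hLα : nm h ^ α ≤ q := by
        rw [← hρα]
        exact Real.rpow_le_rpow (nm_nonneg h) hlt.le hα.le
      refine core (n := n) (A := A) hα hα' hκ hc hCu0 hA hn hN0 hh0 ?_ ?_ hD hU1 hU2 hF'
      · have h1 : A ≤ c / (16 * Cu) * κ := hAε
        have h2 : 16 * (Cu * A) ≤ 16 * (Cu * (c / (16 * Cu) * κ)) := by
          have := mul_le_mul_of_nonneg_left h1 hCu0.le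
          linarith
        have h3 : 16 * (Cu * (c / (16 * Cu) * κ)) = κ * c := by
          field_simp
        linarith
      · have h1 : Cu * n * nm h ^ α ≤ Cu * (n + 1) * q := by
          apply mul_le_mul _ hLα (Real.rpow_nonneg (nm_nonneg h) _) (by positivity)
          apply mul_le_mul_of_nonneg_left _ hCu0.le
          linarith
        have h2 : 16 * (Cu * (n + 1) * q) = κ * c := by
          rw [hq]
          have : Cu * (n + 1) ≠ 0 := by positivity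
          field_simp
        linarith
    · have h1 : N * ρ ^ (1 - α) ≤ N * nm h ^ (1 - α) :=
        mul_le_mul_of_nonneg_left (Real.rpow_le_rpow hρ0.le hge (by linarith)) hN0.le
      have e1 := hM₀ t htI (x + h)
      have e2 := hM₀ t htI x
      have e3 : |θ t (x + h) - θ t x| ≤ |θ t (x + h)| + |θ t x| := abs_sub _ _
      have e4 := le_abs_self (θ t (x + h) - θ t x)
      linarith

end Pool.Agent.SQG
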