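import Pool.Agent.SQG.Defs

/-!
# Hölder regularity in one direction excludes blow-up (MP_0cce92_an): the statements of the modules

Target. `0 < α < 1/2`, `θ` a smooth solution on `(0,T)`, bounded, and `|θ(x + a e) - θ(x)| ≤ M |a|^δ` for one
direction `e`, some `δ > 1 - 2α`, and all `t < T`. Then `θ` is bounded in an isotropic Hölder space `C^β`,
`β > 1 - 2α`, on `[t₀, T)` (so by the theorem of Constantin and Wu there is no blow-up at `T`).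

Proof: two-point maximum principle with the modulus `Om`, see `Stmt_STP`.
-/

set_option autoImplicit false

namespace Pool.Agent.SQG

open Complex MeasureTheory Set Filter Topology ProbabilityTheory

/-- **REG.** Regularity of the solutions.
Paper. Cauchy-Schwarz: `∫ (1+|ξ|²)^k ‖ψ‖ ≤ (∫ (1+|ξ|²)^{-2})^{1/2} (∫ (1+|ξ|²)^{2k+2} ‖ψ‖²)^{1/2}`, and `(1+|ξ|²)^{-2}` is
integrable on the plane (e.g. `≤ (1+ξ₁²)⁻¹ (1+ξ₂²)⁻¹`). So `φ t` has all weighted `L¹` norms finite, and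
`t ↦ φ t` is continuous for them (for `t'` near `t` the difference is measurable and the integral in `Sol.cont`
is the integral of an integrable function, because both `φ t`, `φ t'` are in the weighted `L²`). `|θ(t,x) - θ(t',x)| ≤ ‖φ t - φ t'‖_{L¹}`, and
`|e^{ix·ξ} - e^{iy·ξ}| ≤ |x-y||ξ|`: joint continuity and the Lipschitz bound (the weighted norm is
bounded on compact time intervals, being continuous). Decay: Riemann-Lebesgue for each fixed `t`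
(Mathlib: `tendsto_integral_exp_smul_cocompact` or similar), uniformly on compact time intervals by compactness and
`L¹`-continuity. -/
def Stmt_REG : Prop := ∀ (α κ T : ℝ) (θ : ℝ → P2 → ℝ) (φ : ℝ → P2 → ℂ), Sol α κ T θ φ →
  (∀ t ∈ Ioo 0 T, NF (θ t) (φ t)) ∧ Reg T θ

/-- **DER.** Elementary facts on `NF`. Paper: dominated convergence /
`hasFDerivAt_integral_of_dominated_of_fderiv_le`; the derivative of a real function is real. -/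
def Stmt_DER : Prop := ∀ (f : P2 → ℝ) (φ : P2 → ℂ), NF f φ →
  Continuous f ∧ (∃ B, ∀ x, |f x| ≤ B) ∧
  ∀ x, IF (D1 φ) x = (((IF (D1 φ) x).re : ℝ) : ℂ) ∧ IF (D2 φ) x = (((IF (D2 φ) x).re : ℝ) : ℂ) ∧
    HasFDerivAt f ((IF (D1 φ) x).re • ContinuousLinearMap.fst ℝ ℝ ℝ +
      (IF (D2 φ) x).re • ContinuousLinearMap.snd ℝ ℝ ℝ) x

/-- **GA.** The fractional Laplacian by Gaussian averages.
Paper. `∫ e^{i r z·ξ} dgm(z) = e^{-r²|ξ|²/2}` (characteristic function of the Gaussian measure, product).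
Fubini: `Av r f x = ∫ φ(ξ) e^{ix·ξ} e^{-r²|ξ|²/2} dξ` (as complex numbers). For `ξ ≠ 0` the substitution `v = r |ξ|`
gives `∫_{r>0} (1 - e^{-r²|ξ|²/2}) r^{-1-2α} dr = |ξ|^{2α} / cL α`; the integral in `cL` is finite and positive
(near `0` the integrand is at most `v^{1-2α}/2`, at infinity at most `v^{-1-2α}`). Fubini again (absolute convergence
because `|ξ|^{2α} ‖φ‖` is integrable: `|ξ|^{2α} ≤ 1 + |ξ|`). -/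
def Stmt_GA : Prop := ∀ α : ℝ, 0 < α → α < 1 / 2 → 0 < cL α ∧
  ∀ (f : P2 → ℝ) (φ : P2 → ℂ), NF f φ → ∀ x,
    IntegrableOn (fun r : ℝ => (f x - Av r f x) * r ^ (-1 - 2 * α)) (Ioi 0) ∧
    IF (LL α φ) x = ((cL α * ∫ r in Ioi (0 : ℝ), (f x - Av r f x) * r ^ (-1 - 2 * α) : ℝ) : ℂ)

/-- **GB.** The Riesz transforms by Gaussian averages.
Paper. `∫ z₂ e^{i r z·ξ} dgm(z) = i r ξ₂ e^{-r²|ξ|²/2}` (first moment: differentiate the characteristic function, or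
one-dimensional `∫ z e^{i a z} dγ(z) = i a e^{-a²/2}`), so
`B2 r f x = ∫ φ(ξ) e^{ix·ξ} i r ξ₂ e^{-r²|ξ|²/2} dξ` (Fubini). Divide by `r` and integrate over `r > 0`:
`∫_{r>0} e^{-r²|ξ|²/2} dr = √(π/2)/|ξ|` (`integral_gaussian_Ioi`), absolute convergence since
`∫∫ |ξ| e^{-r²|ξ|²/2} ‖φ‖ = √(π/2) ∫ ‖φ‖`. The same for `B1`, with the sign of `V2`. -/
def Stmt_GB : Prop := ∀ (f : P2 → ℝ) (φ : P2 → ℂ), NF f φ → ∀ x,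
  IntegrableOn (fun r : ℝ => B2 r f x / r) (Ioi 0) ∧ IntegrableOn (fun r : ℝ => B1 r f x / r) (Ioi 0) ∧
  IF (V1 φ) x = ((√(2 / Real.pi) * ∫ r in Ioi (0 : ℝ), B2 r f x / r : ℝ) : ℂ) ∧
  IF (V2 φ) x = ((-(√(2 / Real.pi) * ∫ r in Ioi (0 : ℝ), B1 r f x / r) : ℝ) : ℂ)

/-- **EB.** Estimates of the Gaussian averages by directional Hölder norms.
Paper. `∫ z₁ dγ = 0`, so `B1 r f x = ∫ z₁ (f(x + r z) - f(x₁, x₂ + r z₂)) dgm(z)`, at most `M r^δ ∫ |z₁|^{1+δ}`.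
Differences: `∂_i B1 r f x = ∫ z₁ (∂_i f)(x + r z) dgm(z) = r⁻¹ ∫ (z₁ z_i - δ_{1i}) f(x + r z) dgm(z)` (Gaussian integration by
parts in `z_i`; `f` is smooth and bounded with bounded derivatives), and for fixed `z₂` the function
`z₁ z_i - δ_{1i}` has mean zero in `z₁`, so one can subtract `f(x₁, x₂ + r z₂)`: at most `C M r^{δ-1}`. Mean value theorem.
The same for `B2` (exchange the coordinates). `∂₂ Av r f x = r⁻¹ B2 r f x`. -/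
def Stmt_EB : Prop := ∀ δ : ℝ, 0 ≤ δ → δ < 1 → ∃ C, 0 < C ∧ ∀ (f : P2 → ℝ) (φ : P2 → ℂ) (M : ℝ),
  NF f φ → 0 ≤ M →
  (H1 f M δ → ∀ r : ℝ, 0 < r → ∀ x h : P2, |B1 r f x| ≤ C * M * r ^ δ ∧
    |B1 r f (x + h) - B1 r f x| ≤ C * M * (|h.1| + |h.2|) * r ^ (δ - 1)) ∧
  (H2 f M δ → ∀ r : ℝ, 0 < r → ∀ x h : P2, |B2 r f x| ≤ C * M * r ^ δ ∧
    |B2 r f (x + h) - B2 r f x| ≤ C * M * (|h.1| + |h.2|) * r ^ (δ - 1) ∧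
    ∀ b : ℝ, |Av r f (x.1, x.2 + b) - Av r f x| ≤ C * M * |b| * r ^ (δ - 1))

/-- **UB.** The velocity component `R₁ θ` only needs regularity in direction `1`.
Paper. `GB` and `EB`: with `ρ = |h₁| + |h₂| > 0`, `∫_{r<ρ} 2 C M r^{δ-1} dr + ∫_{r>ρ} C M ρ r^{δ-2} dr = C' M ρ^δ`. -/
def Stmt_UB : Prop := ∀ δ : ℝ, 0 < δ → δ < 1 → ∃ C, 0 < C ∧ ∀ (f : P2 → ℝ) (φ : P2 → ℂ) (M : ℝ),
  NF f φ → 0 ≤ M →
  (H1 f M δ → ∀ x h : P2, ‖IF (V2 φ) (x + h) - IF (V2 φ) x‖ ≤ C * M * (|h.1| + |h.2|) ^ δ) ∧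
  (H2 f M δ → ∀ x h : P2, ‖IF (V1 φ) (x + h) - IF (V1 φ) x‖ ≤ C * M * (|h.1| + |h.2|) ^ δ)

/-- **LB.** Lower bound for the dissipation at a maximum.
Paper. `Ω = f(x+h) - f(x)`. By `GA` the right side is `cL ∫_{r>0} (Ω - (Av r f (x+h) - Av r f x)) r^{-1-2α} dr`, and
`Av r f (x+h) - Av r f x = ∫ (f(x+rz+h) - f(x+rz)) dgm ≤ Ω`, so the integrand is nonnegative. Moreover
`Av r f (x+h) - Av r f (x₁, x₂+h₂) ≤ M₁ |h₁|^δ₁` and (`EB`) `Av r f (x₁, x₂+h₂) - Av r f x ≤ C M₂ |h₂| r^{δ-1}`, so for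
`r ≥ ρ := (2 C M₂ |h₂| / Y)^{1/(1-δ)}` the bracket is at least `Y - C M₂ |h₂| ρ^{δ-1} = Y/2`. The right side is at
least `cL (Y/2) ρ^{-2α}/(2α)`. -/
def Stmt_LB : Prop := ∀ α δ : ℝ, 0 < α → α < 1 / 2 → 0 ≤ δ → δ < 1 → ∃ c, 0 < c ∧
  ∀ (f : P2 → ℝ) (φ : P2 → ℂ) (M₁ δ₁ M₂ : ℝ), NF f φ → H1 f M₁ δ₁ → 0 < M₂ → H2 f M₂ δ →
  ∀ (x h : P2) (Y : ℝ), h.2 ≠ 0 → 0 < Y → Y + M₁ * |h.1| ^ δ₁ ≤ f (x + h) - f x →
    (∀ y, f (y + h) - f y ≤ f (x + h) - f x) →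
    c * Y * (Y / (M₂ * |h.2|)) ^ (2 * α / (1 - δ)) ≤ (IF (LL α φ) (x + h) - IF (LL α φ) x).re

/-- **TCH.** The first touching point.
Paper. `S` = the set of the `t ∈ [t₀,T)` such that `|θ t (y+k) - θ t y| ≥ Om k` for some `y`, `k ∈ Rg lam`. If `S` is empty
the first alternative holds (`k = (0,b)`; `b = 0` is trivial). Otherwise let `t` be the infimum of `S`.
Compactness: let `t_n → t`, `t_n ∈ S`, with `(y_n, k_n)`. By `Reg.lip` `|θ(y+k) - θ(y)| ≤ 2L |k₂|^lam < N |k₂|^β` for small `|k₂|`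
(`β < lam`), so `|k_{n,2}|` is bounded below; then `Om ≥ N |k₂|^β ≥ c > 0` and by `Reg.dec` the `y_n` are bounded; take a
convergent subsequence. So `t ∈ S`. `t ≠ t₀`: at `t₀`, `|θ(y+k) - θ(y)| ≤ L₀ (|k₁|+|k₂|) ≤ 2 L₀ |k₂|^lam < N |k₂|^β`. For `s < t`
`|θ s (y+k) - θ s y| < Om k`, and by continuity `≤ Om k` at `s = t`. So there is equality at some `(x, h)`; if the sign is
wrong, take `(x+h, -h)`. `|h₂| = 1` is impossible as `2 M₀ < N`. `|h₁| = |h₂|^lam` is impossible: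
`|θ(x+h) - θ(x)| ≤ M |h₁|^δ + N |h₂|^β < Om h = N |h₂|^β + 2 M |h₂|^{lam δ}`. -/
def Stmt_TCH : Prop := ∀ (T : ℝ) (θ : ℝ → P2 → ℝ), Reg T θ →
  ∀ M₀ M δ lam β N t₀ L₀ : ℝ, 0 < t₀ → t₀ < T → (∀ t ∈ Ioo 0 T, ∀ x, |θ t x| ≤ M₀) → 0 < M →
  (∀ t ∈ Ioo 0 T, H1 (θ t) M δ) → 0 < δ → 0 < β → β < lam → lam < 1 →
  (∀ x y : P2, |θ t₀ x - θ t₀ y| ≤ L₀ * (|x.1 - y.1| + |x.2 - y.2|)) → 2 * M₀ < N → 2 * L₀ < N →
  (∀ t ∈ Ico t₀ T, ∀ (x : P2) (b : ℝ), |b| ≤ 1 → |θ t (x.1, x.2 + b) - θ t x| ≤ N * |b| ^ β) ∨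
  ∃ (t : ℝ) (x h : P2), t₀ < t ∧ t < T ∧ 0 < |h.2| ∧ |h.2| < 1 ∧ |h.1| < |h.2| ^ lam ∧
    θ t (x + h) - θ t x = Om N M β lam δ h ∧
    ∀ s ∈ Icc t₀ t, ∀ (y k : P2), k ∈ Rg lam → |θ s (y + k) - θ s y| ≤ Om N M β lam δ k

/-- **FOC.** The equation at a touching point.
Paper. `s ↦ θ s (x+h) - θ s x` has a maximum over `[t₀,t]` at `t`, so its derivative at `t` is `≥ 0`. `y ↦ θ t (y+h) - θ t y` has
a maximum at `x`, so `∇θ(x+h) = ∇θ(x)`. `k ↦ θ t (x+k) - Om k` has a local maximum at `k = h` (the region is a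
neighbourhood of `h`), so `∇θ(x+h) = ∇Om(h) = (4 M h₁ |h₂|^{lam(δ-2)}, ±(N β |h₂|^{β-1} + 2 M h₁² lam(δ-2) |h₂|^{lam(δ-2)-1}))`. Insert this in
the difference of the equations at `x+h` and at `x`: `0 ≤ -(u(x+h) - u(x))·∇Om(h) - κ (Lθ(x+h) - Lθ(x))`. -/
def Stmt_FOC : Prop := ∀ (α κ T : ℝ) (θ : ℝ → P2 → ℝ) (φ : ℝ → P2 → ℂ), Sol α κ T θ φ →
  ∀ (N M β lam δ t₀ t : ℝ) (x h : P2), 0 < t₀ → t₀ < t → t < T → 0 ≤ M → 0 ≤ N → 0 ≤ β → 0 ≤ lam → δ ≤ 2 →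
    0 < |h.2| → |h.2| < 1 → |h.1| < |h.2| ^ lam → θ t (x + h) - θ t x = Om N M β lam δ h →
    (∀ s ∈ Icc t₀ t, ∀ (y k : P2), k ∈ Rg lam → |θ s (y + k) - θ s y| ≤ Om N M β lam δ k) →
    κ * (IF (LL α (φ t)) (x + h) - IF (LL α (φ t)) x).re ≤
      ‖IF (V1 (φ t)) (x + h) - IF (V1 (φ t)) x‖ * (4 * M * |h.1| * |h.2| ^ (lam * (δ - 2))) +
      ‖IF (V2 (φ t)) (x + h) - IF (V2 (φ t)) x‖ *
        (N * β * |h.2| ^ (β - 1) + 2 * M * h.1 ^ 2 * (lam * (2 - δ)) * |h.2| ^ (lam * (δ - 2) - 1))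

/-- **STP.** The bootstrap step. `lam = 1/(δ₁ + 2α) < 1`, `β = 1 - lam (1 - δ₂)`, `g = 2α/(1 - δ₂)`.
Paper. One may increase `M₁`, `M₂` so that `M₁ ≥ 1`, `M₂ ≥ 1`. Facts: `δ₂ < β < lam` (the second one as
`δ₂ ≤ 1 - 2α < 2 - 2α - δ₁`), `β ≤ lam δ₁ < δ₁` (as `δ₂ ≤ 1 - 2α`), and
(E1) `lam (δ₂ + δ₁ - 1) = β - 2α lam`, (E2) `lam δ₁ = 1 - 2α lam`, (E3) `β - g(1 - β) = β - 2α lam`.
Fix `m = 1/2`, `δ₂' = (δ₂ + β)/2 ∈ (0, δ₁)`. Choose `N` large. Suppose that the second alternative of `TCH` holds, at `(t,x,h)`.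
Put `b = |h₂| < 1`. By the last clause with `k = (0,a)`: `|θ t (y₁, y₂+a) - θ t y| ≤ min(M₂ |a|^δ₂, N |a|^β) ≤ (M₂ N)^{1/2} |a|^δ₂'` for
`|a| ≤ 1`, and for `|a| ≥ 1` by `H2` with `M₂ ≤ N`; so `H2 (θ t) (M₂ N)^{1/2} δ₂'`. `UB`:
`|δu₁| ≤ C (M₂ N)^{1/2} (|h₁|+|h₂|)^δ₂' ≤ 2 C (M₂ N)^{1/2} b^{lam δ₂'}`, `|δu₂| ≤ C M₁ (|h₁|+|h₂|)^δ₁ ≤ 2 C M₁ b^{lam δ₁}` (`|h₁|, |h₂| ≤ b^lam`).
`|∂₁Om| ≤ 4 M₁ b^{lam(δ₁-1)}`; `|∂₂Om| ≤ N b^{β-1} + 4 M₁ b^{lam δ₁ - 1} ≤ (N + 4 M₁) b^{β-1}`. By `b ≤ 1`, (E1), (E2) the right side of `FOC` is at most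
`[8 C M₁ (M₂ N)^{1/2} + 2 C M₁ (N + 4 M₁)] b^{β - 2α lam}`. Left side: `LB` with `Y = (N/2) b^β`; indeed
`Om h - M₁ |h₁|^δ₁ ≥ N b^β - M₁ b^{lam δ₁} ≥ (N - M₁) b^β ≥ Y`. It is at least
`κ c (N/2)^{1+g} M₂^{-g} b^{β - 2α lam}` by (E3). As `g > 0` this is a contradiction for large `N`. So the first alternative holds, and for
`|b| ≥ 1`, `|θ(x₁,x₂+b) - θ(x)| ≤ 2 M₀ ≤ N |b|^β`. -/
def Stmt_STP : Prop := ∀ (α κ T : ℝ) (θ : ℝ → P2 → ℝ) (φ : ℝ → P2 → ℂ), 0 < α → α < 1 / 2 → 0 < κ →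
  Sol α κ T θ φ → ∀ M₀ M₁ δ₁ M₂ δ₂ t₀ : ℝ, (∀ t ∈ Ioo 0 T, ∀ x, |θ t x| ≤ M₀) →
  1 - 2 * α < δ₁ → δ₁ < 1 → (∀ t ∈ Ioo 0 T, H1 (θ t) M₁ δ₁) → 0 ≤ δ₂ → δ₂ ≤ 1 - 2 * α →
  0 < t₀ → t₀ < T → (∀ t ∈ Ico t₀ T, H2 (θ t) M₂ δ₂) →
  ∃ N, ∀ t ∈ Ico t₀ T, H2 (θ t) N (1 - (1 - δ₂) / (δ₁ + 2 * α))

/-- **MAI.** Iteration: `1 - β_k = (δ₁ + 2α)^{-k}`, until `β_k > 1 - 2α`. (If `δ ≥ 1` first replace `δ` by a
smaller exponent, `H1` holds for `δ' ≤ δ` with `max M (2 M₀)`.) Isotropic Hölder continuity: `|θ(x) - θ(y)|` is at most the sum of a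
difference in direction `1` and one in direction `2`; take the exponent `min(δ', β_k)`, `|x_i - y_i| ≤ nm (x - y)`; for large
distances use `2 M₀`. -/
def Stmt_MAI : Prop := ∀ (α κ T : ℝ) (θ : ℝ → P2 → ℝ) (φ : ℝ → P2 → ℂ), 0 < α → α < 1 / 2 → 0 < κ →
  Sol α κ T θ φ → ∀ M₀ M δ : ℝ, (∀ t ∈ Ioo 0 T, ∀ x, |θ t x| ≤ M₀) → 1 - 2 * α < δ →
  (∀ t ∈ Ioo 0 T, H1 (θ t) M δ) →
  ∃ β, 1 - 2 * α < β ∧ β < 1 ∧ ∀ t₀ ∈ Ioo 0 T, ∃ C, ∀ t ∈ Ico t₀ T, ∀ x y : P2,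
    |θ t x - θ t y| ≤ C * nm (x - y) ^ β

/-- **ROT.** Rotation invariance. `ρ x = (e₁ x₁ - e₂ x₂, e₂ x₁ + e₁ x₂)`. Paper. `ρ` preserves the measure and `nm`;
`IF (φ∘ρ) x = IF φ (ρ x)`; the vector symbol `(iξ₂/|ξ|, -iξ₁/|ξ|)` commutes with `ρ`, so the velocity of the rotated solution is
`ρ⁻¹ u(ρ x)`, its gradient is `ρ⁻¹ ∇θ(ρ x)`, and the scalar product is the same. -/
def Stmt_ROT : Prop := ∀ (α κ T : ℝ) (θ : ℝ → P2 → ℝ) (φ : ℝ → P2 → ℂ) (e : P2),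
  e.1 ^ 2 + e.2 ^ 2 = 1 → Sol α κ T θ φ →
  Sol α κ T (fun t x => θ t (e.1 * x.1 - e.2 * x.2, e.2 * x.1 + e.1 * x.2))
    (fun t ξ => φ t (e.1 * ξ.1 - e.2 * ξ.2, e.2 * ξ.1 + e.1 * ξ.2))

end Pool.Agent.SQG
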