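import Pool.Agent.SQG.Stmts

/-!
# Directional regularity, integrable in time: the statements of the modules

Target. `0 < α < 1/2`, `θ` a bounded smooth solution on `(0,T)`, and `|θ(t, x + a e) - θ(t, x)| ≤ m(t) |a|^d` for one
direction `e`, with `∫_0^T m^r < ∞`, `r > 1`, `d > 1 - 2α + 2α/r`. Then `θ` is bounded in an isotropic Hölder space
`C^β`, `β > 1 - 2α`, on `[t₀,T)`.

Proof: as in `Stmts.lean`, with the modulus `E(t) O2(h)`, `O2 h = n |h₂|^β + k h₁^{2m} |h₂|^{-p}`, `E` growing like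
`exp(C ∫ (1 + M^r))`. Parameters: `ν = 1/(d + 2α - 2α/r) < 1`, `β = 1 - ν(1 - δ₂)`, `σ = 2αν`, `q = 2m` large,
`x = 1/((q-d) r)`, `lam = ν(1 + 2αx)`, `p = lam (q - d)`.
-/

set_option autoImplicit false

namespace Pool.Agent.SQG

open Complex MeasureTheory Set Filter Topology ProbabilityTheory

/-- the modulus `n |h₂|^β + k h₁^{2m} |h₂|^{-p}` -/
noncomputable def O2 (n k β p : ℝ) (m : ℕ) (h : P2) : ℝ :=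
  n * |h.2| ^ β + k * h.1 ^ (2 * m) * |h.2| ^ (-p)

/-- the region of the displacements -/
def Rq : Set P2 := {h | 0 < |h.2| ∧ |h.2| ≤ 1 ∧ |h.1| ≤ 1}

/-- the relations between the parameters (`ν`, `β`, `σ = 2αν`, `q = 2m`, `x`, `lam`) -/
structure Par (α r d δ₂ ν β x lam : ℝ) (m : ℕ) : Prop where
  m1 : 1 ≤ m
  ν0 : 0 < ν
  ν1 : ν < 1
  β0 : 0 < β
  β1 : β < 1
  δβ : δ₂ < β
  lam0 : 0 < lam
  lam1 : lam ≤ 1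
  βlam : β < lam
  xq : x = 1 / ((2 * m - d) * r)
  x0 : 0 < x
  qx : 2 * m * x ≤ 1
  lamd : lam * d = 1 - 2 * α * ν * (1 - 2 * m * x)
  σβ : 2 * α * ν ≤ 1 - β
  B1 : ∀ δ', δ₂ ≤ δ' → β - lam * (δ' + d - 1) ≤ 2 * α * ν * (1 - (2 * m - 1 + δ') * x)
  ab : 2 * m * x * (1 - β) ≤ lam * d - β
  γ : 2 * α / (1 - δ₂) * (1 - β) = 2 * α * ν

/-- **PAR.** Paper. Let `w = d + 2α - 2α/r > 1`, `ν = 1/w`, `β = 1 - ν(1-δ₂)`, `x = 1/((q-d)r)`, `lam = ν(1+2αx)`, with `q = 2m` so large that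
`q x ≤ 1` (`q ≥ rd/(r-1)`) and `2αx ≤ w - 1` (so `lam ≤ 1`). `lamd`: `1 = ν w` and `x(q-d) = 1/r`. `B1`: right minus left side is
`ν(δ' - δ₂)` (linear in `δ'` with slope `lam - 2ανx = ν`; at `δ' = δ₂` multiply by `d` and use `lamd`: the result is
`(1-δ₂)(ν w - 1) = 0`). `σβ`: `1 - β = ν(1-δ₂) ≥ 2αν`. `ab`: `lam d - β = (1-β) - 2αν(1-qx) ≥ (1-β) qx`. `βlam`: `β ≤ 1 - 2αν = ν(d - 2α/r) < ν ≤ lam`. -/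
def Stmt_PAR : Prop := ∀ α r d δ₂ : ℝ, 0 < α → α < 1 / 2 → 1 < r → 1 - 2 * α + 2 * α / r < d → d < 1 →
  0 ≤ δ₂ → δ₂ ≤ 1 - 2 * α → ∃ (x lam : ℝ) (m : ℕ),
    Par α r d δ₂ (1 / (d + 2 * α - 2 * α / r)) (1 - (1 - δ₂) / (d + 2 * α - 2 * α / r)) x lam m

/-- **NUM.** Two inequalities for powers.
Paper. First: `b^{-B} ≤ b^{-σ(1-a/r)}` and weighted arithmetic-geometric means for `(M^r)^{a/r} (b^{-σ})^{1-a/r}`. Second: let `Q = M^{q/(q-d)}`,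
`D = lam d - β ≥ qx(1-β) ≥ qxσ > 0`; the hypothesis says `b^{-D} < 2Q`. If `B ≤ 0`: `M^a b^{-B} ≤ M^a ≤ M^r`. If `B > 0`:
`b^{-B} = (b^{-D})^{B/D} ≤ (2Q)^{B/D}`, `B/D ≤ (1-a/r)/(qx)`, so `2^{B/D} ≤ 2^{1/(qx)}` and (`q/(q-d) = qxr`)
`Q^{B/D} ≤ M^{qxr (1-a/r)/(qx)} = M^{r-a}`. -/
def Stmt_NUM : Prop := ∀ r d β σ lam q x a B M b : ℝ, 1 < r → 0 < d → d < 1 → 2 ≤ q →
  x = 1 / ((q - d) * r) → q * x ≤ 1 → 0 < σ → σ ≤ 1 - β → q * x * (1 - β) ≤ lam * d - β → 0 ≤ a → a ≤ r →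
  B ≤ σ * (1 - a / r) → 1 ≤ M → 0 < b → b ≤ 1 →
  M ^ a * b ^ (-B) ≤ M ^ r + b ^ (-σ) ∧
  (b ^ β / 2 < M ^ (q / (q - d)) * b ^ (lam * d) → M ^ a * b ^ (-B) ≤ 2 ^ (1 / (q * x)) * M ^ r)

/-- **TC2.** The first touching point, for the modulus `E(t) O2(h)`.
Paper. As `Stmt_TCH`. `S` = the set of the `t ∈ [t₀,T)` such that `|θ t (y+l) - θ t y| ≥ E t * O2 l` for some `y`, `l ∈ Rq`; if it is empty the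
first alternative holds. Otherwise `t = inf S`. An elementary inequality: for `L ≥ 0`, `0 < b ≤ 1`, `a ≥ 0`, `k ≥ 1`:
`L a ≤ k a^{2m} b^{-p} + L (1+L) b^{p/(2m-1)}` (if `L a > k a^{2m} b^{-p}` then `a^{2m-1} < (L/k) b^p`, `a ≤ (1+L) b^{p/(2m-1)}`), and `p/(2m-1) > β`.
So with a Lipschitz constant `L` on `[t₀,t₁]`, `|θ(y+l) - θ(y)| ≤ L(|l₁|+|l₂|) < O2 l` for small `|l₂|`, and at `t₀` for all `l` as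
`n > L₀(2+L₀)`. So in a sequence of bad points `(t_j, y_j, l_j)`, `t_j → t`, `|l_{j,2}|` is bounded below, `O2 ≥ n |l₂|^β ≥ c > 0` and by
`Reg.dec` the `y_j` are bounded; take a limit: `t ∈ S`, `t > t₀`. For `s < t` strict inequality, at `t` by continuity `≤`. At the touching point
`|h₂| = 1` and `|h₁| = 1` are impossible: `O2 h ≥ n > 2M₀`, resp. `O2 h ≥ k |h₂|^{-p} ≥ k > 2M₀`. Wrong sign: take `(x+h, -h)`. -/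
def Stmt_TC2 : Prop := ∀ (T : ℝ) (θ : ℝ → P2 → ℝ), Reg T θ →
  ∀ (M₀ β p n k t₀ L₀ : ℝ) (m : ℕ) (E : ℝ → ℝ), 0 < t₀ → t₀ < T → (∀ t ∈ Ioo 0 T, ∀ x, |θ t x| ≤ M₀) →
  1 ≤ m → 0 < β → β < 1 → (2 * m - 1) * β < p → ContinuousOn E (Ico t₀ T) → (∀ t ∈ Ico t₀ T, 1 ≤ E t) →
  (∀ x y : P2, |θ t₀ x - θ t₀ y| ≤ L₀ * (|x.1 - y.1| + |x.2 - y.2|)) → 0 ≤ L₀ → L₀ * (2 + L₀) < n →
  2 * M₀ < n → 2 * M₀ < k → 1 ≤ k →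
  (∀ t ∈ Ico t₀ T, ∀ (y l : P2), l ∈ Rq → |θ t (y + l) - θ t y| ≤ E t * O2 n k β p m l) ∨
  ∃ (t : ℝ) (x h : P2), t₀ < t ∧ t < T ∧ 0 < |h.2| ∧ |h.2| < 1 ∧ |h.1| < 1 ∧
    θ t (x + h) - θ t x = E t * O2 n k β p m h ∧
    ∀ s ∈ Icc t₀ t, ∀ (y l : P2), l ∈ Rq → |θ s (y + l) - θ s y| ≤ E s * O2 n k β p m l

/-- **FO2.** The equation at a touching point, for the modulus `E(t) O2(h)`. Paper: as `Stmt_FOC`; the function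
`s ↦ θ s (x+h) - θ s x - E s * O2 h` is `≤ 0` on `[t₀,t]` and `0` at `t`, so its derivative at `t` is `≥ 0`. `∇θ(x+h) = ∇θ(x) = E(t) ∇O2(h)`. -/
def Stmt_FO2 : Prop := ∀ (α κ T : ℝ) (θ : ℝ → P2 → ℝ) (φ : ℝ → P2 → ℂ), Sol α κ T θ φ →
  ∀ (n k β p t₀ t E' : ℝ) (m : ℕ) (E : ℝ → ℝ) (x h : P2), 0 < t₀ → t₀ < t → t < T → 0 ≤ n → 0 ≤ k → 0 ≤ β →
    0 ≤ p → 1 ≤ m → 0 < |h.2| → |h.2| < 1 → |h.1| < 1 → 0 ≤ E t → HasDerivAt E E' t →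
    θ t (x + h) - θ t x = E t * O2 n k β p m h →
    (∀ s ∈ Icc t₀ t, ∀ (y l : P2), l ∈ Rq → |θ s (y + l) - θ s y| ≤ E s * O2 n k β p m l) →
    E' * O2 n k β p m h + κ * (IF (LL α (φ t)) (x + h) - IF (LL α (φ t)) x).re ≤
      ‖IF (V1 (φ t)) (x + h) - IF (V1 (φ t)) x‖ *
        (E t * (k * (2 * m) * |h.1| ^ (2 * m - 1) * |h.2| ^ (-p))) +
      ‖IF (V2 (φ t)) (x + h) - IF (V2 (φ t)) x‖ *
        (E t * (n * β * |h.2| ^ (β - 1) + k * h.1 ^ (2 * m) * p * |h.2| ^ (-p - 1)))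

/-- **LB0.** The dissipation is nonnegative at a maximum. Paper: `GA`, the integrand is nonnegative (see `Stmt_LB`). -/
def Stmt_LB0 : Prop := ∀ α : ℝ, 0 < α → α < 1 / 2 → ∀ (f : P2 → ℝ) (φ : P2 → ℂ), NF f φ → ∀ x h : P2,
  (∀ y, f (y + h) - f y ≤ f (x + h) - f x) → 0 ≤ (IF (LL α φ) (x + h) - IF (LL α φ) x).re

/-- **CTM.** The directional Hölder seminorm is a continuous function of time.
Paper. `M t = sup |θ t (x₁+a, x₂) - θ t x| / |a|^d` over `x` and `a ≠ 0`; `|e^{iaξ₁} - 1| ≤ 2 |a|^d |ξ₁|^d ≤ 2 |a|^d (1 + |ξ|)`, so the supremum is finite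
and `|M t - M s| ≤ 2 ∫ (1 + |ξ|) ‖φ t - φ s‖`, which tends to `0` as `s → t` (Cauchy-Schwarz and `Sol.cont`, see `Stmt_REG`). -/
def Stmt_CTM : Prop := ∀ (α κ T : ℝ) (θ : ℝ → P2 → ℝ) (φ : ℝ → P2 → ℂ), Sol α κ T θ φ → ∀ d : ℝ, 0 < d → d ≤ 1 →
  ∃ M : ℝ → ℝ, ContinuousOn M (Ioo 0 T) ∧ (∀ t ∈ Ioo 0 T, 0 ≤ M t ∧ H1 (θ t) (M t) d) ∧
    ∀ t ∈ Ioo 0 T, ∀ M', H1 (θ t) M' d → M t ≤ M'

/-- **ST2.** The bootstrap step, with a directional seminorm which is integrable in time.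
Paper. Take `x, lam, m` from `PAR`; `ν`, `β`, `σ = 2αν`, `q = 2m`, `p = lam (q-d)`, `γ = 2α/(1-δ₂)`, `δ' = (δ₂+β)/2 ∈ (0,1)`. `M₀ ≥ 0`; increase `M₂` to
`M₂ ≥ 1`. `k = 2M₀+2`, `μ = M + k` (so `H1 (θ t) (μ t) d`, `μ ≥ k ≥ 2`, `μ^r` is integrable on `(t₀,T)`), `Z = 1 + μ^r`. `C₁` = maximum of the two constants of
`UB` (exponents `d`, `δ'`), `c` from `LB` (for `α`, `δ₂`), `C₂ = 2qC₁ + 3C₁(1+p)`, `C* = C₂ 2^{1/(qx)}`, and `n` so large that `n ≥ M₂k`, `n > 2M₀`,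
`n > L₀(2+L₀)` (`L₀ = Lip θ(t₀)`, `Reg.lip`), `κ c 2^{-1-γ} M₂^{-γ} n^γ ≥ C₂`. `E t = exp(C* ∫_{t₀}^t Z)`: `E ≥ 1` continuous, bounded on `[t₀,T)`, `E' = C* Z E` in `(t₀,T)`. Apply `TC2`
(`(q-1)β < (q-1) lam ≤ p`). Suppose the second alternative; `b = |h₂|`, `N = E n`, `K = E k`, `Ω = E O2(h)`, `μ = μ(t)`. The last clause for `l = (0,h₂)`
and `H1`: `Ω ≤ μ|h₁|^d + N b^β`, so `K |h₁|^q b^{-p} ≤ μ |h₁|^d` (★). Hence (`K ≥ 1`) `|h₁| ≤ μ^{1/(q-d)} b^lam`, and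
`K |h₁|^{q-1} b^{-p} ≤ K^{1/2} μ^{(q-1)/(q-d)} b^{-lam(1-d)}` (raise `|h₁| ≤ (μ/K)^{1/(q-d)} b^lam` to the power `q-1`; `(1-d)/(q-d) ≤ 1/2`); `|h₁| + b ≤ 2 μ^{1/(q-d)} b^lam`;
`μ |h₁|^d ≤ Q b^{lam d}`, `Q = μ^{q/(q-d)}`. As in `STP`, `H2 (θ t) (M₂N)^{1/2} δ'` (`N ≥ M₂`). By `UB` and `(M₂N)^{1/2} K^{1/2} = (M₂k/n)^{1/2} N ≤ N` the first term on
the right of `FO2` is at most `2qC₁ N b^β · μ^{a₁} b^{-B₁}`, `a₁ = (q-1+δ')/(q-d)`, `B₁ = β - lam(δ'+d-1)`, the second at most `2C₁(1+p) Ω · μ^{a₂} b^{-B₂}`,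
`a₂ = q/(q-d)`, `B₂ = 1 - lam d`. By `Par.B1`, `Par.lamd`: `B_i ≤ σ(1 - a_i/r)` (`1/((q-d) r) = x`), `a₁ ≤ a₂ ≤ r`, and `NUM` applies.
Case A, `Q b^{lam d} ≤ N b^β/2`: `Ω ≤ (3/2) N b^β` by (★); by `NUM` the right side is at most `C₂ N b^β (μ^r + b^{-σ})`; by `LB` with `Y = N b^β/2`
the dissipation is at least `c 2^{-1-γ} M₂^{-γ} N^{1+γ} b^{β-σ}` (`γ(1-β) = σ`); contradiction with `FO2` as `Ω ≥ N b^β`, `C* ≥ C₂`, `Z > μ^r`. Case B: `Q b^{lam d} > N b^β/2 ≥ b^β/2`; dissipation `≥ 0`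
(`LB0`), by `NUM` the right side is at most `C₂ 2^{1/(qx)} μ^r Ω < C* Z Ω`. Contradiction. So the first alternative: `|θ t (x₁,x₂+a) - θ t x| ≤ (sup E) n |a|^β` for
`|a| ≤ 1`, and for `|a| ≥ 1` use `2M₀ ≤ n`. -/
def Stmt_ST2 : Prop := ∀ (α κ T : ℝ) (θ : ℝ → P2 → ℝ) (φ : ℝ → P2 → ℂ), 0 < α → α < 1 / 2 → 0 < κ →
  Sol α κ T θ φ → ∀ (M₀ d r M₂ δ₂ t₀ : ℝ) (M : ℝ → ℝ), (∀ t ∈ Ioo 0 T, ∀ x, |θ t x| ≤ M₀) → 1 < r →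
  1 - 2 * α + 2 * α / r < d → d < 1 → ContinuousOn M (Ioo 0 T) →
  (∀ t ∈ Ioo 0 T, 0 ≤ M t ∧ H1 (θ t) (M t) d) → 0 ≤ δ₂ → δ₂ ≤ 1 - 2 * α → 0 < t₀ → t₀ < T →
  IntegrableOn (fun t => M t ^ r) (Ioo t₀ T) → (∀ t ∈ Ico t₀ T, H2 (θ t) M₂ δ₂) →
  ∃ N, ∀ t ∈ Ico t₀ T, H2 (θ t) N (1 - (1 - δ₂) / (d + 2 * α - 2 * α / r))

/-- **SHF.** Translation in time. -/
def Stmt_SHF : Prop := ∀ (α κ T s : ℝ) (θ : ℝ → P2 → ℝ) (φ : ℝ → P2 → ℂ), 0 < s → s < T → Sol α κ T θ φ →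
  Sol α κ (T - s) (fun t => θ (t + s)) (fun t => φ (t + s))

/-- **MA2.** The a priori bound.
Paper. If `d = 1` replace `(d, m)` by `(d', m^{d'} (2M₀)^{1-d'})`, `r' = r/d'`, with `d' < 1` so near to `1` that `d' > 1 - 2α + 2αd'/r`
(`min(A, B) ≤ A^{d'} B^{1-d'}`). So let `d < 1`. `CTM`: `M t ≤ m t` is continuous, so `M^r` is integrable on `(t₀,T)`. Fix `t₀ = T/2`. Iterate `ST2` starting with
`δ₂ = 0`, `M₂ = 2M₀`: exponents `β_k = 1 - ν^k`, as long as `β_k ≤ 1 - 2α`; so some `β_k > 1 - 2α` is reached, with `H2 (θ t) N β_k` on `[t₀,T)`. Apply `MAI` to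
`θ' t x = θ (t+t₀) (-x₂, x₁)` (`ROT` with `e = (0,1)`, `SHF`), which satisfies `H1` with exponent `β_k` and is bounded. This gives the claim on
`[t₀ + ε, T)`, with some `β` and with `ε = T/4` say. For other `t₀` use `Reg.lip` on the remaining compact time interval (`|θ(x)-θ(y)| ≤ min(L|..|, 2M₀) ≤ C nm^β`). -/
def Stmt_MA2 : Prop := ∀ (α κ T : ℝ) (θ : ℝ → P2 → ℝ) (φ : ℝ → P2 → ℂ), 0 < α → α < 1 / 2 → 0 < κ → 0 < T →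
  Sol α κ T θ φ → ∀ (M₀ d r : ℝ) (m : ℝ → ℝ), (∀ t ∈ Ioo 0 T, ∀ x, |θ t x| ≤ M₀) → 1 < r →
  1 - 2 * α + 2 * α / r < d → d ≤ 1 → (∀ t ∈ Ioo 0 T, 0 ≤ m t ∧ H1 (θ t) (m t) d) →
  IntegrableOn (fun t => m t ^ r) (Ioo 0 T) →
  ∃ β, 1 - 2 * α < β ∧ β < 1 ∧ ∀ t₀ ∈ Ioo 0 T, ∃ C, ∀ t ∈ Ico t₀ T, ∀ x y : P2,
    |θ t x - θ t y| ≤ C * nm (x - y) ^ β

end Pool.Agent.SQG
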