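import Pool.Agent.SQG.Stmts2

/-!
# The critical directional classes: the statements of the modules (Theorem 6)

Target. `0 < α < 1/2`. There is `ε₀ > 0` (depending on `α`) such that a bounded smooth solution `θ` on `(0,T)` with
`|θ(t, x + a e) - θ(t, x)| ≤ m(t) |a|^{1-2α+2α/r} + ε₀ κ |a|^{1-2α}` for `|a| ≤ ρ₀` and ONE direction `e`, where
`∫_0^T m^r < ∞`, `1 < r < ∞`, is bounded in the isotropic space `C^{1-α}` on `[t₀,T)`.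

Notation: `β = 1 - 2α < β' = 1 - α`, `d = β + 2α/r`, `a = |h₁|`, `b = |h₂|`, `s = a/b`, `q = 2m`. Stage 1 is a two-point maximum
principle with the modulus `E(t) O3(h)`,
`O3 h = η b^β + n b^β' + 2 ε a² b^{β-2} + η (a-b)₊^q b^{β-q} = b^β (η + n b^{β'-β} + 2 ε s² + η (s-1)₊^q)`,
`η` small, `n` large, `E` slowly growing. It gives the smallness of the isotropic `C^β` seminorm at small scales. The dissipation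
is bounded below by the reflection coupling of two Gaussian averages (`RFL`). Stage 2 is a two-point maximum
principle with the modulus `N |h|^β'`.
-/

set_option autoImplicit false

namespace Pool.Agent.SQG

open Complex MeasureTheory Set Filter Topology ProbabilityTheory

/-- increments in direction `1`, bounded by a sum of two powers -/
def H1s (f : P2 → ℝ) (A a B b : ℝ) : Prop :=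
  ∀ (x : P2) (s : ℝ), |f (x.1 + s, x.2) - f x| ≤ A * |s| ^ a + B * |s| ^ b

/-- increments in direction `2`, bounded by a sum of two powers -/
def H2s (f : P2 → ℝ) (A a B b : ℝ) : Prop :=
  ∀ (x : P2) (s : ℝ), |f (x.1, x.2 + s) - f x| ≤ A * |s| ^ a + B * |s| ^ b

/-- the modulus `η b^β + n b^β' + 2 ε a² b^{β-2} + η (a-b)₊^{2m} b^{β-2m}` -/
noncomputable def O3 (η n ε β β' : ℝ) (m : ℕ) (h : P2) : ℝ :=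
  η * |h.2| ^ β + n * |h.2| ^ β' + 2 * ε * h.1 ^ 2 * |h.2| ^ (β - 2) +
    η * (max (|h.1| - |h.2|) 0) ^ (2 * m) * |h.2| ^ (β - 2 * m)

/-- **UB2.** The velocity, for sums of two powers. Paper. As `Stmt_EB`, `Stmt_UB` (`Eb.lean`, `Ub.lean`), everything is linear in the bound:
`B1 r f x = ∫ z₁ (f(x + r z) - f(x₁, x₂ + r z₂)) dgm(z)` is at most `A r^a ∫ |z₁|^{1+a} + B r^b ∫ |z₁|^{1+b}`, the increments of `B1 r f` are at most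
`(|h₁|+|h₂|) (C_a A r^{a-1} + C_b B r^{b-1})`. By `GB` integrate over `r`: `C_a A ρ^a + C_b B ρ^b`. The constant of each term
depends on its own exponent only. -/
def Stmt_UB2 : Prop := ∃ C : ℝ → ℝ, (∀ δ, 0 < C δ) ∧ ∀ a b : ℝ, 0 < a → a < 1 → 0 < b → b < 1 →
  ∀ (f : P2 → ℝ) (φ : P2 → ℂ) (A B : ℝ), NF f φ → 0 ≤ A → 0 ≤ B →
  (H1s f A a B b → ∀ x h : P2, ‖IF (V2 φ) (x + h) - IF (V2 φ) x‖ ≤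
    C a * A * (|h.1| + |h.2|) ^ a + C b * B * (|h.1| + |h.2|) ^ b) ∧
  (H2s f A a B b → ∀ x h : P2, ‖IF (V1 φ) (x + h) - IF (V1 φ) x‖ ≤
    C a * A * (|h.1| + |h.2|) ^ a + C b * B * (|h.1| + |h.2|) ^ b)

/-- **POW.** Paper. With `a₀ = β(1-β)/9` and `A₀ = 40`: `|1+u|^β ≤ 1 + β u - a₀ u² + A₀ u⁴` for all real `u`. For `|u| ≤ 1/2` by Taylor:
`(1+u)^β ≤ 1 + βu - (β(1-β)/2) (3/2)^{-2} u²`. For `|u| ≥ 1/2`: `|1+u|^β ≤ 1 + |u|`, `|1+u|^β - 1 - βu ≤ 2|u|`, `2|u| + a₀ u² ≤ 40 u⁴`. Integrate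
with `u = 2ρz`: `1 - 4 a₀ ρ² + 48 A₀ ρ⁴`. -/
def Stmt_POW : Prop := ∀ β : ℝ, 0 < β → β < 1 → ∃ ρ₀ c : ℝ, 0 < ρ₀ ∧ 0 < c ∧ c < 1 ∧ ∀ ρ : ℝ, 0 < ρ → ρ ≤ ρ₀ →
  ∫ z, |1 + 2 * ρ * z| ^ β ∂(gaussianReal 0 1) ≤ 1 - c * ρ ^ 2

/-- **RFL.** The dissipation at a maximum, by reflection coupling.
Paper. Let `b = |h₂|`, `S = N₁ b^β₁ + N₂ b^β₂`, `Ω = f(x+h) - f(x) ≥ S`. By `GA` the right side is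
`cL ∫_{r>0} (Ω - (Av r f (x+h) - Av r f x)) r^{-1-2α} dr` with nonnegative integrand (see `Lb.lean`). The map `(z₁,z₂) ↦ (z₁,-z₂)` preserves `gm`, so
`Av r f (x+h) - Av r f x = ∫ (f(x₁+h₁+r z₁, x₂+h₂+r z₂) - f(x₁+r z₁, x₂-r z₂)) dgm ≤ G + ∫ (N₁ |h₂+2r z₂|^β₁ + N₂ |h₂+2r z₂|^β₂) dgm`. For `r = ρ b`,
`ρ ≤ ρ₀` (the minimum of the two from `POW`, `c` the minimum): `≤ G + (1 - cρ²) S` (use `z₂ ↦ -z₂` if `h₂ < 0`). So for `ρ₀ b/2 ≤ r ≤ ρ₀ b` the bracket is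
at least `(cρ₀²/4) S - G ≥ (cρ₀²/8) S` if `c₁ = min 1 (cρ₀²/8)`. The integral over these `r` is at least
`(cρ₀²/8) S (ρ₀ b/2) (ρ₀ b)^{-1-2α}`. -/
def Stmt_RFL : Prop := ∀ α β₁ β₂ : ℝ, 0 < α → α < 1 / 2 → 0 < β₁ → β₁ < 1 → 0 < β₂ → β₂ < 1 →
  ∃ c₁ c₂ : ℝ, 0 < c₁ ∧ c₁ ≤ 1 ∧ 0 < c₂ ∧ ∀ (f : P2 → ℝ) (φ : P2 → ℂ), NF f φ → ∀ (N₁ N₂ G : ℝ) (x h : P2),
    0 ≤ N₁ → 0 ≤ N₂ → H2s f N₁ β₁ N₂ β₂ → h.2 ≠ 0 → (∀ y : P2, |f (y.1 + h.1, y.2) - f y| ≤ G) →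
    G ≤ c₁ * (N₁ * |h.2| ^ β₁ + N₂ * |h.2| ^ β₂) → N₁ * |h.2| ^ β₁ + N₂ * |h.2| ^ β₂ ≤ f (x + h) - f x →
    (∀ y, f (y + h) - f y ≤ f (x + h) - f x) →
    c₂ * (N₁ * |h.2| ^ β₁ + N₂ * |h.2| ^ β₂) * |h.2| ^ (-2 * α) ≤ (IF (LL α φ) (x + h) - IF (LL α φ) x).re

/-- **TC3.** The first touching point, for the modulus `E(t) O3(h)`.
Paper. As `Stmt_TC2` (`Tc2.lean`). (1) For `L ≥ 0`, `s ≥ 0`, `q = 2m ≥ 2`: `1 + s ≤ 4 (1 + (s/2)^q)` and for `s > 2` `(s-1)^q ≥ (s/2)^q`, so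
`L b (1+s) < b^β (η + η (s-1)₊^q)` as soon as `12 L b^{1-β} < η` (`s ≤ 2`: `L b (1+s) ≤ 3 L b`). So with the Lipschitz constant `L` on `[t₀,t₁]` a bad displacement
has `|l₂|` bounded below. (2) At `t₀`: for `b ≥ b₂` (`12 L₀ b₂^{1-β} < η`) `L₀(a+b) ≤ 2L₀ < n b₂^β'` if `n` is large. (3) At a touching point `|h₂| = 1` is
impossible: `O3 ≥ n > 2M₀`. `|h₁| = 1` is impossible: for `b ≤ b₃ ≤ 1/2` `O3 ≥ η 2^{-q} b^{β-q} > 2M₀`, and for `b ≥ b₃` `O3 ≥ n b₃^β' > 2M₀`, if `n` is large. -/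
def Stmt_TC3 : Prop := ∀ (T : ℝ) (θ : ℝ → P2 → ℝ), Reg T θ →
  ∀ (M₀ η ε β β' t₀ : ℝ) (m : ℕ) (E : ℝ → ℝ), 0 < t₀ → t₀ < T → (∀ t ∈ Ioo 0 T, ∀ x, |θ t x| ≤ M₀) →
  1 ≤ m → 0 < η → 0 ≤ ε → 0 < β → β < β' → β' < 1 → ContinuousOn E (Ico t₀ T) → (∀ t ∈ Ico t₀ T, 1 ≤ E t) →
  ∃ n₀ : ℝ, 0 ≤ n₀ ∧ ∀ n, n₀ ≤ n →
  ((∀ t ∈ Ico t₀ T, ∀ (y l : P2), l ∈ Rq → |θ t (y + l) - θ t y| ≤ E t * O3 η n ε β β' m l) ∨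
  ∃ (t : ℝ) (x h : P2), t₀ < t ∧ t < T ∧ 0 < |h.2| ∧ |h.2| < 1 ∧ |h.1| < 1 ∧
    θ t (x + h) - θ t x = E t * O3 η n ε β β' m h ∧
    ∀ s ∈ Icc t₀ t, ∀ (y l : P2), l ∈ Rq → |θ s (y + l) - θ s y| ≤ E s * O3 η n ε β β' m l)

/-- **FO3.** The equation at a touching point, for the modulus `E(t) O3(h)`. Paper: as `Stmt_FO2` (`Fo2.lean`). `O3` is `C¹` for `h₂ ≠ 0` (`2m ≥ 2`), and with
`a = |h₁|`, `b = |h₂|`, `q = 2m`, `P = (a-b)₊`: `|∂₁O3| = 4 ε a b^{β-2} + η q P^{q-1} b^{β-q}`,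
`|∂₂O3| ≤ η β b^{β-1} + n β' b^{β'-1} + 2 ε (2-β) a² b^{β-3} + η q P^{q-1} b^{β-q} + η (q-β) P^q b^{β-q-1}`, and `b + P ≤ a + b`. -/
def Stmt_FO3 : Prop := ∀ (α κ T : ℝ) (θ : ℝ → P2 → ℝ) (φ : ℝ → P2 → ℂ), Sol α κ T θ φ →
  ∀ (η n ε β β' t₀ t E' : ℝ) (m : ℕ) (E : ℝ → ℝ) (x h : P2), 0 < t₀ → t₀ < t → t < T → 0 ≤ η → 0 ≤ n → 0 ≤ ε →
    0 ≤ β → β ≤ 1 → 0 ≤ β' → β' ≤ 1 → 1 ≤ m → 0 < |h.2| → |h.2| < 1 → |h.1| < 1 → 0 ≤ E t → HasDerivAt E E' t →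
    θ t (x + h) - θ t x = E t * O3 η n ε β β' m h →
    (∀ s ∈ Icc t₀ t, ∀ (y l : P2), l ∈ Rq → |θ s (y + l) - θ s y| ≤ E s * O3 η n ε β β' m l) →
    E' * O3 η n ε β β' m h + κ * (IF (LL α (φ t)) (x + h) - IF (LL α (φ t)) x).re ≤
      ‖IF (V1 (φ t)) (x + h) - IF (V1 (φ t)) x‖ *
        (E t * (4 * ε * |h.1| * |h.2| ^ (β - 2) +
          η * (2 * m) * (max (|h.1| - |h.2|) 0) ^ (2 * m - 1) * |h.2| ^ (β - 2 * m))) +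
      ‖IF (V2 (φ t)) (x + h) - IF (V2 (φ t)) x‖ *
        (E t * (η * |h.2| ^ (β - 1) + n * |h.2| ^ (β' - 1) + 4 * ε * h.1 ^ 2 * |h.2| ^ (β - 3) +
          η * (2 * m) * (max (|h.1| - |h.2|) 0) ^ (2 * m - 1) * (|h.1| + |h.2|) * |h.2| ^ (β - 2 * m - 1)))

/-- **NM5.** The numerical inequality.
Paper. Write `q = 2m`, `ω = N + 2es² + K(s-1)₊^q`, left side `= T₁ + T₂`, (★) = the last hypothesis.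
Case `s ≤ 1`: `4e ≤ 8ε ≤ c₁η ≤ N`, so the left side is at most `8 Cu N e + (2 Cd Y + 2 Cu ε) 2N ≤ N (20 Cu ε + 4 Cd Y)`, and `20 Cu ε ≤ κc/2`. If the condition of the `if` (call it
A) holds: `4 Cd Y ≤ κc/2 + C' Y^r` (as `r > 1`). If not: `Y ≥ Y s^d > c₁ N - ε ≥ c₁η/2`, so `κc/2 + 4 Cd Y ≤ C'' Y^r`.
Case `s > 1`: `ε s^β ≤ e s²`, so (★) gives `e s² + K (s-1)^q ≤ Y s^d`; hence `ε ≤ e ≤ Y`, `4es ≤ 4Y`, `N + 4es² ≤ 2ω`.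
Case `1 < s ≤ 2`: `K(s-1)^{q-1} ≤ K^{1/q} (K(s-1)^q)^{(q-1)/q} ≤ (2η)^{1/q} (2Y)^{(q-1)/q}` and `≤ K ≤ N`. So
`T₁ ≤ N (C₄ Y + C₅ Y^{(q-1)/q})` and `T₂ ≤ C₃ Y ω`. If A: `Y ≤ c₁N ≤ N`, `ω ≤ N + 4Y ≤ 5N`, so the left side is at most
`N (C₆ Y + C₅ Y^{(q-1)/q}) ≤ N (κc + C' Y^r)`. If not A: `4Y > c₁N ≥ c₁η` (as `ε ≤ Y`), so `Y` is bounded below and everything is `≤ C' Y^r ω`.
Case `s > 2`: `s - 1 ≥ s/2`, so `Y ≥ 2^{-q} η s^{q-d}` and `Y^{r-1} ≥ (2^{-q}η)^{r-1} s^d`, i.e. `Y s^d ≤ C₆ Y^r`. `T₁ ≤ Cu N (3s/2) (4es + q K(s-1)^q 2/s) ≤ C N Y s^d`.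
`T₂ ≤ (2 Cd Y s^d + 2 Cu ε s^β) (2ω + 3qω)` with `ε s^β ≤ Y s^d` (`ε s² ≤ Y s^d`). -/
def Stmt_NM5 : Prop := ∀ (r d β η κc c₁ Cu Cd : ℝ) (m : ℕ), 1 < r → 0 < d → d < 1 → 0 < β → β < 1 → 1 ≤ m →
  d ≤ (2 * m - d) * (r - 1) → 0 < η → 0 < κc → 0 < c₁ → c₁ ≤ 1 → 0 < Cu → 0 < Cd →
  ∃ Cs : ℝ, 0 < Cs ∧ ∀ N K e ε s Y : ℝ, η ≤ K → K ≤ 2 * η → K ≤ N → 0 ≤ ε → ε ≤ e → e ≤ 2 * ε →
    ε ≤ c₁ / 8 * η → 40 * Cu * ε ≤ κc → 0 ≤ s → 0 ≤ Y →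
    2 * e * s ^ 2 + K * (max (s - 1) 0) ^ (2 * m) ≤ Y * s ^ d + ε * s ^ β →
    Cu * N * (1 + s) * (4 * e * s + 2 * m * K * (max (s - 1) 0) ^ (2 * m - 1)) +
      (Cd * Y * (1 + s) ^ d + Cu * ε * (1 + s) ^ β) *
        (N + 4 * e * s ^ 2 + 2 * m * K * (max (s - 1) 0) ^ (2 * m - 1) * (1 + s)) ≤
      Cs * Y ^ r * (N + 2 * e * s ^ 2 + K * (max (s - 1) 0) ^ (2 * m)) +
        (if Y * s ^ d + ε * s ^ β ≤ c₁ * N then κc * N else 0)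

/-- **ST5.** Stage 1.
Paper. `β = 1-2α`, `β' = 1-α`, `d = β + 2α/r ∈ (β, 1)`. `C` from `UB2`, `Cu = max (C β) (C β')`, `Cd = C d`; `c₁, c₂` from `RFL` (exponents `β`, `β'`);
`ε₁ = min (c₁/8) (c₂/(40 Cu))`. `κc = κ c₂`. Choose `m ≥ 1` with `d ≤ (2m-d)(r-1)`, `q = 2m`. `Cs` from `NM5`. `M^r` is integrable on `(t₁,T)`, so there is `t₀ ∈ (t₁,T)` with
`Cs ∫_{t₀}^T (1 + M^r) ≤ log 2`; `E t = exp(Cs ∫_{t₀}^t (1 + M^r)) ∈ [1,2]`, continuous, `E' = Cs (1 + M^r) E` on `(t₀,T)`. `n₀` from `TC3`; `n = max n₀ (2M₀)`. The first alternative of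
`TC3` is the claim (`E ≤ 2`). Suppose the second; `a = |h₁|`, `b = |h₂|`, `s = a/b`, `μ = M t`, `Y = μ b^{2α/r}`, `K = Eη`, `N = E(η + n b^{β'-β})`, `e = Eε`, `Ω = E O3(h) = b^β ω`,
`ω = N + 2es² + K(s-1)₊^q`. The last clause for `l = (0,h₂)` and `H1s`: `Ω ≤ μ a^d + ε a^β + N b^β`, and `μ a^d = Y s^d b^β`, which is (★) of `NM5`. `H2s (θ t) (Eη) β (En) β'` (for
`|s| ≤ 1` by the last clause, for `|s| ≥ 1` by `2M₀ ≤ n`). `UB2` (`(1+s)^β, (1+s)^β' ≤ 1+s`): `|δV1| ≤ Cu N b^β (1+s)`, `|δV2| ≤ b^β (Cd Y (1+s)^d + Cu ε (1+s)^β)`. Put `B = b^{-2α}`;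
`b^{β-1} = B`, `μ^r = Y^r B`. `FO3` divided by `B b^β`: the right side is at most the left side of `NM5`; `E' O3 > Cs μ^r Ω = B b^β Cs Y^r ω`. If
`Y s^d + ε s^β ≤ c₁ N` then `RFL` (`N₁ = Eη`, `N₂ = En`, `G = μ a^d + ε a^β`, `Ω ≥ N b^β`) gives `κ Diss ≥ κc N B b^β`; otherwise `κ Diss ≥ 0` by `LB0`. Contradiction to `NM5`. -/
def Stmt_ST5 : Prop := ∀ α : ℝ, 0 < α → α < 1 / 2 → ∃ ε₁ : ℝ, 0 < ε₁ ∧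
  ∀ (κ T : ℝ) (θ : ℝ → P2 → ℝ) (φ : ℝ → P2 → ℂ), 0 < κ → Sol α κ T θ φ →
  ∀ (M₀ r t₁ ε η : ℝ) (M : ℝ → ℝ), (∀ t ∈ Ioo 0 T, ∀ x, |θ t x| ≤ M₀) → 1 < r → 0 ≤ ε → ε ≤ ε₁ * κ → 0 < η →
  ε ≤ ε₁ * η → ContinuousOn M (Ioo 0 T) →
  (∀ t ∈ Ioo 0 T, 0 ≤ M t ∧ H1s (θ t) (M t) (1 - 2 * α + 2 * α / r) ε (1 - 2 * α)) → 0 < t₁ → t₁ < T →
  IntegrableOn (fun t => M t ^ r) (Ioo t₁ T) →
  ∃ (t₀ n : ℝ) (m : ℕ), t₁ < t₀ ∧ t₀ < T ∧ 0 ≤ n ∧ 1 ≤ m ∧ ∀ t ∈ Ico t₀ T, ∀ (y l : P2), l ∈ Rq →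
    |θ t (y + l) - θ t y| ≤ 2 * O3 η n ε (1 - 2 * α) (1 - α) m l

/-- **IS5.** From the anisotropic modulus to an isotropic one. Paper. Let `δ = x - y`, `L = nm δ`. `L ≥ 1/2`: `2M₀ ≤ 4 M₀ L^β'`. `L < 1/2`: if
`|δ₂| ≥ |δ₁|`, `δ₂ ≠ 0`, use `l = δ` (`(a-b)₊ = 0`, `a² b^{β-2} ≤ b^β`). If `|δ₂| < |δ₁| =: a`, let `c = a - δ₂`, `|c| ≤ 2a < 1`, and write the increment as the one by `(δ₁, a)` and the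
one by `(0, -c)`; `(2L)^β ≤ 2 L^β`. -/
def Stmt_IS5 : Prop := ∀ (f : P2 → ℝ) (M₀ η n ε β β' : ℝ) (m : ℕ), 0 < β → β < 1 → 0 < β' → β' < 1 → 0 ≤ η → 0 ≤ n →
  0 ≤ ε → 1 ≤ m → (∀ x, |f x| ≤ M₀) → (∀ y l : P2, l ∈ Rq → |f (y + l) - f y| ≤ 2 * O3 η n ε β β' m l) →
  ∀ x y : P2, |f x - f y| ≤ 6 * (η + ε) * nm (x - y) ^ β + 6 * (n + M₀) * nm (x - y) ^ β'

/-- **TCI.** The first touching point, for the modulus `N |h|^β`. Paper: as `Stmt_TC2`; `L(|l₁|+|l₂|) ≤ 2 L nm l < N (nm l)^β` for small `nm l`; at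
`t₀`: `2 L₀ nm l < N (nm l)^β` for `0 < nm l ≤ 1`; `nm h = 1` is impossible by `2M₀ < N`. -/
def Stmt_TCI : Prop := ∀ (T : ℝ) (θ : ℝ → P2 → ℝ), Reg T θ →
  ∀ (M₀ β N t₀ L₀ : ℝ), 0 < t₀ → t₀ < T → (∀ t ∈ Ioo 0 T, ∀ x, |θ t x| ≤ M₀) → 0 < β → β < 1 →
  (∀ x y : P2, |θ t₀ x - θ t₀ y| ≤ L₀ * (|x.1 - y.1| + |x.2 - y.2|)) → 0 ≤ L₀ → 2 * L₀ < N → 2 * M₀ < N →
  (∀ t ∈ Ico t₀ T, ∀ (y l : P2), nm l ≤ 1 → |θ t (y + l) - θ t y| ≤ N * nm l ^ β) ∨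
  ∃ (t : ℝ) (x h : P2), t₀ < t ∧ t < T ∧ 0 < nm h ∧ nm h < 1 ∧ θ t (x + h) - θ t x = N * nm h ^ β ∧
    ∀ s ∈ Icc t₀ t, ∀ (y l : P2), nm l ≤ 1 → |θ s (y + l) - θ s y| ≤ N * nm l ^ β

/-- **FOI.** The equation at a touching point, for the modulus `N |h|^β`. Paper: as `Stmt_FOC` (`Foc.lean`); the gradient of `N |h|^β` is `N β |h|^{β-2} h`. -/
def Stmt_FOI : Prop := ∀ (α κ T : ℝ) (θ : ℝ → P2 → ℝ) (φ : ℝ → P2 → ℂ), Sol α κ T θ φ →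
  ∀ (N β t₀ t : ℝ) (x h : P2), 0 < t₀ → t₀ < t → t < T → 0 ≤ N → 0 ≤ β → 0 < nm h → nm h < 1 →
    θ t (x + h) - θ t x = N * nm h ^ β →
    (∀ s ∈ Icc t₀ t, ∀ (y l : P2), nm l ≤ 1 → |θ s (y + l) - θ s y| ≤ N * nm l ^ β) →
    κ * (IF (LL α (φ t)) (x + h) - IF (LL α (φ t)) x).re ≤
      (‖IF (V1 (φ t)) (x + h) - IF (V1 (φ t)) x‖ + ‖IF (V2 (φ t)) (x + h) - IF (V2 (φ t)) x‖) *
        (N * β * nm h ^ (β - 1))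

/-- **RFI.** The dissipation at an isotropic touching point. Paper. Let `L = nm h`, `e = (h₂/L, -h₁/L)`, `ρ` the rotation of `Stmt_ROT` (`Rot.lean`: `rot`, `IF_rot`, `nm_rot`), so `ρ (0,L) = h`.
Apply `RFL` (`N₁ = 0`, `N₂ = N`, both exponents `β`, `G = 0`, `h' = (0,L)`) to `f ∘ ρ`, with transform `φ ∘ ρ`. -/
def Stmt_RFI : Prop := ∀ α β : ℝ, 0 < α → α < 1 / 2 → 0 < β → β < 1 → ∃ c : ℝ, 0 < c ∧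
  ∀ (f : P2 → ℝ) (φ : P2 → ℂ) (N : ℝ), NF f φ → 0 ≤ N → (∀ x y : P2, |f x - f y| ≤ N * nm (x - y) ^ β) →
  ∀ x h : P2, 0 < nm h → N * nm h ^ β ≤ f (x + h) - f x → (∀ y, f (y + h) - f y ≤ f (x + h) - f x) →
    c * N * nm h ^ (β - 2 * α) ≤ (IF (LL α φ) (x + h) - IF (LL α φ) x).re

/-- **ST6.** Stage 2. Paper. `β = 1-2α < β' = 1-α`. `C` from `UB2`, `Cu = max (C β) (C β')`, `c` from `RFI` (exponent `β'`), `ε₂ = c/(16 Cu)`. `L₀` from `Reg.lip` at `t₀`;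
`ρ₂ ∈ (0,1)` with `16 Cu n ρ₂^{β'-β} < κ c`, and `N` with `N > 2L₀`, `N > 2M₀`, `N ρ₂^β' > 2M₀`, `N ≥ 1`. Suppose the second alternative of `TCI` (exponent `β'`) at `(t,x,h)`. The hypothesis gives `H1s`, `H2s` for `θ t` with `A |s|^β + n |s|^β'`, so by
`UB2` (`|h₁|+|h₂| ≤ 2 nm h`) the sum of the norms in `FOI` is at most `4 Cu (A nm^β + n nm^β')`. `RFI` (for `nm (x-y) ≥ 1` use `2M₀ ≤ N`): `κ c N nm^{β'-2α} ≤ 4 Cu (A nm^β + n nm^β') N β' nm^{β'-1}`. As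
`β - 1 = -2α`: `κ c ≤ 4 Cu (A + n nm^{β'-β})`, and `4 Cu A ≤ κc/4`; so `nm h ≥ ρ₂`, which contradicts `N nm^β' ≤ 2M₀`. The first alternative and `2M₀ ≤ N` for `nm ≥ 1` give the claim. -/
def Stmt_ST6 : Prop := ∀ α : ℝ, 0 < α → α < 1 / 2 → ∃ ε₂ : ℝ, 0 < ε₂ ∧
  ∀ (κ T : ℝ) (θ : ℝ → P2 → ℝ) (φ : ℝ → P2 → ℂ), 0 < κ → Sol α κ T θ φ →
  ∀ (M₀ t₀ A n : ℝ), (∀ t ∈ Ioo 0 T, ∀ x, |θ t x| ≤ M₀) → 0 < t₀ → t₀ < T → 0 ≤ A → A ≤ ε₂ * κ → 0 ≤ n →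
  (∀ t ∈ Ico t₀ T, ∀ x y : P2, |θ t x - θ t y| ≤ A * nm (x - y) ^ (1 - 2 * α) + n * nm (x - y) ^ (1 - α)) →
  ∃ N : ℝ, ∀ t ∈ Ico t₀ T, ∀ x y : P2, |θ t x - θ t y| ≤ N * nm (x - y) ^ (1 - α)

/-- **CT2.** The optimal coefficient is a continuous function of time. Paper: as `Stmt_CTM` (`Ctm.lean`), with
`M t = sup max 0 ((|θ t (x₁+a, x₂) - θ t x| - ε |a|^β) / |a|^d)` over `x` and `a ≠ 0`; again `|M t - M s| ≤ 2 ∫ (1 + |ξ|) ‖φ t - φ s‖`. -/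
def Stmt_CT2 : Prop := ∀ (α κ T : ℝ) (θ : ℝ → P2 → ℝ) (φ : ℝ → P2 → ℂ), Sol α κ T θ φ → ∀ d ε β : ℝ, 0 < d → d ≤ 1 →
  0 ≤ ε → 0 < β → ∃ M : ℝ → ℝ, ContinuousOn M (Ioo 0 T) ∧ (∀ t ∈ Ioo 0 T, 0 ≤ M t ∧ H1s (θ t) (M t) d ε β) ∧
    ∀ t ∈ Ioo 0 T, ∀ M', 0 ≤ M' → H1s (θ t) M' d ε β → M t ≤ M'

/-- **MA6.** The theorem for the direction `e = (1,0)`.
Paper. `ε₁` from `ST5`, `ε₂` from `ST6`; `ε₀ = min ε₁ (min (ε₁ε₂/12) (ε₂/12))`, `ε = ε₀κ`, `η = ε₂κ/12`: `ε ≤ ε₁η`, `ε ≤ ε₁κ`, `6(η+ε) ≤ ε₂κ`. `d = 1-2α+2α/r`. For all `a`: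
`|θ t (x₁+a,x₂) - θ t x| ≤ (m t + 2|M₀| ρ₀^{-d}) |a|^d + ε |a|^{1-2α}`. `CT2`: a continuous `M t ≤ m t + 2|M₀| ρ₀^{-d}`, and `M^r` is integrable on `(T/2,T)`. `ST5` (`t₁ = T/2`), `IS5`, `ST6` (`A = 6(η+ε)`) give the claim on `[t₀',T)` for
some `t₀' < T`. For the times in `[t₀,t₀']` use `Reg.lip` (as in `Ma2.lean`). -/
def Stmt_MA6 : Prop := ∀ α : ℝ, 0 < α → α < 1 / 2 → ∃ ε₀ : ℝ, 0 < ε₀ ∧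
  ∀ (κ T : ℝ) (θ : ℝ → P2 → ℝ) (φ : ℝ → P2 → ℂ), 0 < κ → 0 < T → Sol α κ T θ φ →
  ∀ (M₀ r ρ₀ : ℝ) (m : ℝ → ℝ), (∀ t ∈ Ioo 0 T, ∀ x, |θ t x| ≤ M₀) → 1 < r → 0 < ρ₀ →
  (∀ t ∈ Ioo 0 T, 0 ≤ m t ∧ ∀ (x : P2) (a : ℝ), |a| ≤ ρ₀ →
    |θ t (x.1 + a, x.2) - θ t x| ≤ m t * |a| ^ (1 - 2 * α + 2 * α / r) + ε₀ * κ * |a| ^ (1 - 2 * α)) →
  IntegrableOn (fun t => m t ^ r) (Ioo 0 T) →
  ∀ t₀ ∈ Ioo 0 T, ∃ C, ∀ t ∈ Ico t₀ T, ∀ x y : P2, |θ t x - θ t y| ≤ C * nm (x - y) ^ (1 - α)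

end Pool.Agent.SQG
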