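import Pool.Agent.SQG.Stmts6

/-!
# Large, nearly one-dimensional data: the statements of the modules (Theorem 7)

Target. `0 < α < 1/2`, `κ, M > 0`. There is `ε > 0` such that a smooth solution `θ` on `(0,T)` which at ONE time `t₀` satisfies
`|θ| ≤ M`, `|∇θ| ≤ M` and, for ONE unit vector `e`, `|θ(x + a e) - θ(x)| ≤ ε (1 + |a|)`, satisfies for all `t ∈ [t₀,T)`
`|∇θ(t)| ≤ 6 M (1 + c κ (t - t₀))^{-1/(2α)}`, `c = c(α) > 0`. In particular there is no blow-up.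

Proof: a two-point maximum principle with TWO moduli at the same time (`e = (1,0)`, `γ = α/2`, `D = 6M`):
(D) `|θ(t, x₁+a, x₂) - θ(t,x)| ≤ E(t) |a|^{1/2}`, `E(t) = E₀ exp(K (t-t₀))`, `E₀` tiny;
(I) `|θ(t,x+h) - θ(t,x)| ≤ D W7(|h|/λ(t))`, `W7(ξ) = ξ - ξ^{1+γ}/4`, `λ(t)^{2α} = 1 + c κ (t-t₀)`.
A touching point for (D) is impossible for every `E₀` (the gradient is bounded by (I)). A touching point for (I) at a small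
scale or with `λ(t)` large is impossible by the isotropic estimate of the velocity; otherwise `h` is nearly parallel to `(0,1)` by (D) and the
second component of the velocity increment, which only depends on the increments of `θ` in direction `1`, is small by (D).
-/

set_option autoImplicit false

namespace Pool.Agent.SQG

open Complex MeasureTheory Set Filter Topology ProbabilityTheory

/-- the concave profile `ξ - ξ^{1+γ}/4` for `ξ ≤ 1`, constant `3/4` for `ξ > 1` -/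
noncomputable def W7 (γ ξ : ℝ) : ℝ := if ξ ≤ 1 then ξ - ξ ^ (1 + γ) / 4 else 3 / 4

/-- the two moduli at one time: (D) increments in direction `1`, and (I) isotropic increments -/
def Mod7 (f : P2 → ℝ) (E D lam γ : ℝ) : Prop :=
  (∀ (x : P2) (a : ℝ), |f (x.1 + a, x.2) - f x| ≤ E * |a| ^ (1 / 2 : ℝ)) ∧
  ∀ y l : P2, |f (y + l) - f y| ≤ D * W7 γ (nm l / lam)

/-- the scale `λ(t) = (1 + c κ (t - t₀))^{1/(2α)}` -/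
noncomputable def lam7 (α c κ t₀ t : ℝ) : ℝ := (1 + c * κ * (t - t₀)) ^ (1 / (2 * α))

/-- **RG7.** Second differences. Paper: as `Reg.lip` in `Reg.lean`: `|e^{2il·ξ} - 2e^{il·ξ} + 1| = |e^{il·ξ} - 1|² ≤ (l·ξ)² ≤ |l|²|ξ|²`, and
`∫ |ξ|² ‖φ t‖` is bounded on compact time intervals (Cauchy-Schwarz and `Sol.cont`). -/
def Stmt_RG7 : Prop := ∀ (α κ T : ℝ) (θ : ℝ → P2 → ℝ) (φ : ℝ → P2 → ℂ), Sol α κ T θ φ →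
  ∀ t₀ t₁ : ℝ, 0 < t₀ → t₁ < T → ∃ L, 0 ≤ L ∧ ∀ t ∈ Icc t₀ t₁, ∀ x l : P2,
    |θ t (x + l + l) - 2 * θ t (x + l) + θ t x| ≤ L * nm l ^ 2

/-- **MX7.** The maximum principle.
Paper. Let `t₁ ∈ (t₀,T)`, `η > 0`. Claim: `θ t x < M + η(1 + t - t₀)` on `[t₀,t₁]`. Otherwise let `t` be the infimum of the bad times; bad points are bounded
(`Reg.dec`, `θ ≥ M > 0`), so by compactness and continuity `θ t x = M + η(1+t-t₀)` for some `x`, `t > t₀`, and `θ s y ≤ M + η(1+s-t₀)` for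
`s ∈ [t₀,t]` and all `y`. The function `s ↦ θ s x - η s` has a maximum over `[t₀,t]` at `t`, so `∂_t θ(t,x) ≥ η`. But `y ↦ θ t y` has a maximum at `x`: `∇θ(t,x) = 0` (`DER`)
and `IF (LL α (φ t)) x ≥ 0` (`GA`: `f x - Av r f x ≥ 0`), so `∂_t θ(t,x) ≤ 0`. The lower bound is the same with a minimum. Let `η → 0`. -/
def Stmt_MX7 : Prop := ∀ (α κ T : ℝ) (θ : ℝ → P2 → ℝ) (φ : ℝ → P2 → ℂ), 0 < α → α < 1 / 2 → 0 < κ →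
  Sol α κ T θ φ → ∀ M t₀ : ℝ, 0 < t₀ → t₀ < T → 0 < M → (∀ x, |θ t₀ x| ≤ M) → ∀ t ∈ Ico t₀ T, ∀ x, |θ t x| ≤ M

/-- **RD7.** The dissipation at a touching point for the increments in direction `1`. Paper: apply `RFL` (`β₁ = β₂ = δ`, `N₁ = 0`, `N₂ = N`, `G = 0`) to the
rotated function `f (x₂, -x₁)` or `f (-x₂, x₁)`, exactly as in `Rfi.lean`. -/
def Stmt_RD7 : Prop := ∀ α δ : ℝ, 0 < α → α < 1 / 2 → 0 < δ → δ < 1 → ∃ c : ℝ, 0 < c ∧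
  ∀ (f : P2 → ℝ) (φ : P2 → ℂ) (N : ℝ), NF f φ → 0 ≤ N →
    (∀ (x : P2) (a : ℝ), |f (x.1 + a, x.2) - f x| ≤ N * |a| ^ δ) → ∀ (x : P2) (a : ℝ), a ≠ 0 →
    N * |a| ^ δ ≤ f (x.1 + a, x.2) - f x →
    (∀ y : P2, f (y.1 + a, y.2) - f y ≤ f (x.1 + a, x.2) - f x) →
    c * N * |a| ^ (δ - 2 * α) ≤ (IF (LL α φ) (x.1 + a, x.2) - IF (LL α φ) x).re

/-- **RW7.** The dissipation at a touching point for the concave modulus, by a truncated reflection coupling.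
Paper. By rotation (as in `Rfi.lean`) let `h = (0,b)`, `b = nm h > 0`; `ξ = b/λ < 1/2`, `g s = D W7(s/λ)`, `Ω = f(x+h) - f x ≥ g b`. By `GA` the right side is
`cL ∫_{r>0} (Ω - (Av r f (x+h) - Av r f x)) r^{-1-2α} dr` with nonnegative integrand (see `Lb0.lean`). Let `r = ρ b`, `1/8 ≤ ρ ≤ 1/4`, and `A = {z : |z₂| ≤ 1/(2ρ)}`, which is invariant under
`(z₁,z₂) ↦ (z₁,-z₂)`. So `Av r f (x+h) - Av r f x = ∫_A (f(x+h+rz) - f(x+(r z₁, -r z₂))) dgm + ∫_{A^c} (f(x+h+rz) - f(x+rz)) dgm`. The second integrand is at most `Ω`, the first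
is at most `g(b(1+2ρz₂))`, with `0 ≤ 1+2ρz₂ ≤ 2` and `2b < λ`. Hence, with `u = 2ρz`,
`Ω - (Av r f (x+h) - Av r f x) ≥ ∫_{|z| ≤ 1/(2ρ)} (g b - g(b(1+u))) dγ(z) = ∫_{0<z≤1/(2ρ)} (2 g b - g(b(1+u)) - g(b(1-u))) dγ(z)`, and
`2 g b - g(b(1+u)) - g(b(1-u)) = (D/4) ξ^{1+γ} ((1+u)^{1+γ} + (1-u)^{1+γ} - 2) ≥ (D/4) ξ^{1+γ} (γ(1+γ)/2) u²` for `0 ≤ u ≤ 1` (the difference of the two sides is convex and even in `u`, as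
`(1-u)^{γ-1} ≥ 1`). As `1/(2ρ) ≥ 2` this is at least `c' D ξ^{1+γ}`, `c' > 0` depending only on `γ`. The integral over `b/8 ≤ r ≤ b/4` gives
the claim. -/
def Stmt_RW7 : Prop := ∀ α γ : ℝ, 0 < α → α < 1 / 2 → 0 < γ → γ < 1 → ∃ c : ℝ, 0 < c ∧
  ∀ (f : P2 → ℝ) (φ : P2 → ℂ) (D lam : ℝ), NF f φ → 0 < D → 0 < lam →
    (∀ y l : P2, |f (y + l) - f y| ≤ D * W7 γ (nm l / lam)) → ∀ x h : P2, 0 < nm h → nm h < lam / 2 →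
    D * W7 γ (nm h / lam) ≤ f (x + h) - f x → (∀ y, f (y + h) - f y ≤ f (x + h) - f x) →
    c * D * (nm h / lam) ^ (1 + γ) * nm h ^ (-2 * α) ≤ (IF (LL α φ) (x + h) - IF (LL α φ) x).re

/-- **TC7.** The first touching point for the two moduli. `D = 6M`.
Paper. Let `B` be the set of the `t ∈ [t₀,T)` such that (D) `∃ x, a ≠ 0`, `θ t (x₁+a,x₂) - θ t x ≥ E t |a|^{1/2}`, or (I) `∃ y, l ≠ 0`, `θ t (y+l) - θ t y ≥ 6M W7(nm l/lam t)`. If `B` is empty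
the first alternative holds (exchange the two points for the absolute value). Otherwise fix `t₁ ∈ B` and let `t = inf B ≤ t₁`. On `[t₀,t₁]`: `E ≥ E_min > 0`, `lam ≤ Λ`, `L₁` from `Reg.lip`, `L` from `RG7`. In (D) `a` is bounded
(`2M < E_min |a|^{1/2}` for large `a`) and `|a|` is bounded below (`L₁|a| < E_min |a|^{1/2}` for small `a`). In (I) `nm l < lam/2`, because `6M W7(ξ) ≥ (9/4) M > 2M` for `ξ ≥ 1/2`. Small `l` in (I): there is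
`s₁ > 0` with `s₁^{1-γ} L ≤ 3M(1 - 2^{-γ})/Λ^{1+γ}`, `s₁ < 1/2`. If `nm l ≤ s₁/4` is bad at `y`, let `ρ = 2^k nm l ∈ (s₁/2, s₁]` and `g_j = θ(y + 2^j l) - θ y`. `RG7` gives `g_{j+1} ≥ 2 g_j - L (2^j nm l)²`, so
`g_k ≥ 2^k g_0 - L ρ²/2 ≥ Dρ/λ - (Dρ/(4λ)) (nm l/λ)^γ - Lρ²/2`, and as `nm l ≤ ρ/2` this is `≥ Dρ/λ - (D/4)(ρ/λ)^{1+γ} = D W7(ρ/λ)`: then `2^k l` is also bad. So one may assume `nm l ≥ s₁/4` in (I). In both cases the right side is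
bounded below by a positive constant, so by `Reg.dec` the points `x`, `y` are bounded. Take a convergent subsequence of bad points at times `t_j → t`: `t ∈ B`. At `t₀` nothing is bad: (D) by the strict hypothesis, (I) since `M nm l < 6M W7(nm l)` for `0 < nm l ≤ 1` and
`2M < (9/2) M` for `nm l > 1`. So `t > t₀`; for `s < t` nothing is bad, and by continuity `≤` holds at `s = t` (for fixed points, let `s ↑ t`). So there is equality at the bad point at time `t`. -/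
def Stmt_TC7 : Prop := ∀ (α κ T : ℝ) (θ : ℝ → P2 → ℝ) (φ : ℝ → P2 → ℂ), Sol α κ T θ φ →
  ∀ (M γ t₀ : ℝ) (E lam : ℝ → ℝ), 0 < t₀ → t₀ < T → 0 < M → 0 < γ → γ < 1 →
  (∀ t ∈ Ico t₀ T, ∀ x, |θ t x| ≤ M) → ContinuousOn E (Ico t₀ T) → ContinuousOn lam (Ico t₀ T) →
  (∀ t ∈ Ico t₀ T, 0 < E t ∧ 1 ≤ lam t) → lam t₀ = 1 →
  (∀ x y : P2, |θ t₀ x - θ t₀ y| ≤ M * nm (x - y)) →
  (∀ (x : P2) (a : ℝ), a ≠ 0 → |θ t₀ (x.1 + a, x.2) - θ t₀ x| < E t₀ * |a| ^ (1 / 2 : ℝ)) →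
  (∀ t ∈ Ico t₀ T, Mod7 (θ t) (E t) (6 * M) (lam t) γ) ∨
  ∃ t, t₀ < t ∧ t < T ∧ (∀ s ∈ Icc t₀ t, Mod7 (θ s) (E s) (6 * M) (lam s) γ) ∧
    ((∃ (x : P2) (a : ℝ), a ≠ 0 ∧ θ t (x.1 + a, x.2) - θ t x = E t * |a| ^ (1 / 2 : ℝ)) ∨
     ∃ x h : P2, 0 < nm h ∧ nm h < lam t / 2 ∧ θ t (x + h) - θ t x = 6 * M * W7 γ (nm h / lam t))

/-- **FD7.** The equation at a touching point for (D).
Paper. As `Stmt_FO2` (`Fo2.lean`). `s ↦ θ s (x₁+a,x₂) - θ s x - E s |a|^{1/2}` has a maximum over `[t₀,t]` at `t`, so its derivative there is `≥ 0`. `y ↦ θ t (y₁+a,y₂) - θ t y` has a maximum at `x`, so `∇θ` is the same at the two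
points. `b ↦ θ t (x₁+b,x₂) - E t |b|^{1/2}` has a maximum at `b = a`, so `|∂₁θ| = (E t/2) |a|^{-1/2}`. `|∂₂θ| ≤ D/lam t ≤ D` by the second part of `Mod7` (`W7 γ ξ ≤ ξ`). -/
def Stmt_FD7 : Prop := ∀ (α κ T : ℝ) (θ : ℝ → P2 → ℝ) (φ : ℝ → P2 → ℂ), Sol α κ T θ φ →
  ∀ (D γ t₀ t E' : ℝ) (E lam : ℝ → ℝ) (x : P2) (a : ℝ), 0 < t₀ → t₀ < t → t < T → 0 < D → 0 < γ → γ < 1 →
    0 ≤ E t → 1 ≤ lam t → HasDerivAt E E' t → a ≠ 0 →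
    (∀ s ∈ Icc t₀ t, Mod7 (θ s) (E s) D (lam s) γ) →
    θ t (x.1 + a, x.2) - θ t x = E t * |a| ^ (1 / 2 : ℝ) →
    E' * |a| ^ (1 / 2 : ℝ) + κ * (IF (LL α (φ t)) (x.1 + a, x.2) - IF (LL α (φ t)) x).re ≤
      ‖IF (V1 (φ t)) (x.1 + a, x.2) - IF (V1 (φ t)) x‖ * (E t * |a| ^ (-(1 / 2) : ℝ)) +
      ‖IF (V2 (φ t)) (x.1 + a, x.2) - IF (V2 (φ t)) x‖ * D

/-- **FI7.** The equation at a touching point for (I).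
Paper. `s ↦ θ s (x+h) - θ s x - D W7(nm h/lam s)` has a maximum over `[t₀,t]` at `t`; near `s = t` the argument is `< 1/2`, so `W7` is differentiable there with `0 ≤ W7' ≤ 1`, and
`∂_tθ(x+h) - ∂_tθ(x) ≥ - D W7'(ξ) ξ lam'/lam t ≥ - D ξ lam'/lam t`, `ξ = nm h/lam t`. As in `Foi.lean`: `∇θ(x+h) = ∇θ(x) = (D/lam t) W7'(ξ) h/nm h`. -/
def Stmt_FI7 : Prop := ∀ (α κ T : ℝ) (θ : ℝ → P2 → ℝ) (φ : ℝ → P2 → ℂ), Sol α κ T θ φ →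
  ∀ (D γ t₀ t lam' : ℝ) (E lam : ℝ → ℝ) (x h : P2), 0 < t₀ → t₀ < t → t < T → 0 < D → 0 < γ → γ < 1 →
    (∀ s ∈ Icc t₀ t, 1 ≤ lam s) → HasDerivAt lam lam' t → 0 ≤ lam' → 0 < nm h → nm h < lam t / 2 →
    (∀ s ∈ Icc t₀ t, Mod7 (θ s) (E s) D (lam s) γ) →
    θ t (x + h) - θ t x = D * W7 γ (nm h / lam t) →
    κ * (IF (LL α (φ t)) (x + h) - IF (LL α (φ t)) x).re ≤
      (‖IF (V1 (φ t)) (x + h) - IF (V1 (φ t)) x‖ * (|h.1| / nm h) +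
        ‖IF (V2 (φ t)) (x + h) - IF (V2 (φ t)) x‖) * (D / lam t) + D * (nm h / lam t) * (lam' / lam t)

/-- **SD7.** A touching point for (D) is impossible.
Paper. `D = 6M`, `γ = α/2`. `C` from `UB2`, `c` from `RD7` (`δ = 1/2`), `K = (C(1-α) D)²/(4κc) + C(1/2) D + 1`. `Mod7` gives `H2s (θ t) D (1-α) 0 (1-α)` (`W7 γ ξ ≤ min ξ 1 ≤ |s|^{1-α}` as
`lam ≥ 1`) and `H1s (θ t) E (1/2) 0 (1/2)`, so by `UB2` with `h = (a,0)`: `|δV1| ≤ C(1-α) D |a|^{1-α}`, `|δV2| ≤ C(1/2) E |a|^{1/2}`. `FD7` with `E' = K E` and `RD7`, divided by `E |a|^{1/2}`: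
`K + κ c |a|^{-2α} ≤ C(1-α) D |a|^{-α} + C(1/2) D`. But `C(1-α) D y ≤ κ c y² + (C(1-α) D)²/(4κc)`, `y = |a|^{-α}`. -/
def Stmt_SD7 : Prop := ∀ α : ℝ, 0 < α → α < 1 / 2 → ∀ κ M : ℝ, 0 < κ → 0 < M → ∃ K : ℝ, 0 < K ∧
  ∀ (T : ℝ) (θ : ℝ → P2 → ℝ) (φ : ℝ → P2 → ℂ), Sol α κ T θ φ →
  ∀ (t₀ t E₀ : ℝ) (lam : ℝ → ℝ) (x : P2) (a : ℝ), 0 < t₀ → t₀ < t → t < T → 0 < E₀ →
    (∀ s ∈ Icc t₀ t, 1 ≤ lam s) → a ≠ 0 →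
    (∀ s ∈ Icc t₀ t, Mod7 (θ s) (E₀ * Real.exp (K * (s - t₀))) (6 * M) (lam s) (α / 2)) →
    θ t (x.1 + a, x.2) - θ t x ≠ E₀ * Real.exp (K * (t - t₀)) * |a| ^ (1 / 2 : ℝ)

/-- **AL7.** Alignment: at a touching point for (I) the displacement is nearly parallel to `(0,1)`.
Paper. `f(x+h) - f x = (f(x+h) - f(x₁,x₂+h₂)) + (f(x₁,x₂+h₂) - f x) ≤ E |h₁|^{1/2} + D W7(|h₂|/lam)`. For `0 ≤ η ≤ ξ ≤ 1`: `ξ^{1+γ} - η^{1+γ} ≤ (1+γ)(ξ-η) ≤ 2(ξ-η)`, so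
`W7 ξ - W7 η ≥ (ξ-η)/2`. So `D (nm h - |h₂|)/(2 lam) ≤ E |h₁|^{1/2} ≤ E (nm h)^{1/2}`, and `nm h - |h₂| = h₁²/(nm h + |h₂|) ≥ h₁²/(2 nm h)`. -/
def Stmt_AL7 : Prop := ∀ (f : P2 → ℝ) (E D lam γ : ℝ) (x h : P2), 0 ≤ E → 0 < D → 1 ≤ lam → 0 < γ → γ < 1 →
  Mod7 f E D lam γ → 0 < nm h → nm h < lam / 2 → f (x + h) - f x = D * W7 γ (nm h / lam) →
  (h.1 / nm h) ^ 2 ≤ 4 * lam * E * nm h ^ (-(1 / 2) : ℝ) / D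

/-- **NI7.** The numerical inequality for (I).
Paper. Right side `R = κ w D ξ^{1-3α/2} lam^{-2α}`. The last term on the left is at most `R/4` as `ξ ≤ ξ^{1-3α/2}`. `Λ = max 1 ((8 C D/(κ w))^{1/(1-2α)})`, `ξ₀ = min 1 ((κ w/(8 C D))^{2/α})`. If `lam ≥ Λ` or `ξ ≤ ξ₀`, then
`8 C D ξ^{α/2} ≤ κ w lam^{1-2α}`, so `(v₁ s + v₂) D/lam ≤ 4 C D² ξ^{1-α}/lam ≤ R/2`. If `lam < Λ` and `ξ > ξ₀`, then `e ≤ E₂`, `s ≤ (4 Λ E₂ ξ₀^{-1/2}/D)^{1/2}` (`ξ lam ≥ ξ₀`), `v₂ ≤ 2 C E₂ Λ^{1/2}`, `v₁ ≤ 2 C D`; choose `E₂ > 0` so small that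
`2 C D (4 Λ E₂ ξ₀^{-1/2}/D)^{1/2} + 2 C E₂ Λ^{1/2} ≤ (κ w/2) ξ₀^{1-3α/2}`; then `(v₁ s + v₂) D/lam ≤ R/2` as `lam^{-1} ≤ lam^{-2α}`. -/
def Stmt_NI7 : Prop := ∀ α κ w D C : ℝ, 0 < α → α < 1 / 2 → 0 < κ → 0 < w → 0 < D → 0 < C →
  ∃ Λ E₂ : ℝ, 1 ≤ Λ ∧ 0 < E₂ ∧ ∀ lam ξ e s v₁ v₂ : ℝ, 1 ≤ lam → 0 < ξ → ξ < 1 / 2 → 0 ≤ e →
    (lam ≤ Λ → e ≤ E₂) → 0 ≤ s → s ≤ 1 → s ^ 2 ≤ 4 * lam * e * (ξ * lam) ^ (-(1 / 2) : ℝ) / D →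
    0 ≤ v₁ → v₁ ≤ 2 * C * D * ξ ^ (1 - α) → 0 ≤ v₂ → v₂ ≤ 2 * C * D * ξ ^ (1 - α) →
    v₂ ≤ 2 * C * e * (ξ * lam) ^ (1 / 2 : ℝ) →
    (v₁ * s + v₂) * (D / lam) + D * ξ * (κ * w / 4 * lam ^ (-2 * α)) <
      κ * (w * D * ξ ^ (1 + α / 2) * (ξ * lam) ^ (-2 * α))

/-- **SI7.** A touching point for (I) is impossible.
Paper. `γ = α/2`, `D = 6M`. `w` from `RW7`, `c = α w/2`, `C' ` from `UB2`, `C = max (C'(1-α)) (C'(1/2))`; `Λ`, `E₂` from `NI7`; `E₀ = E₂ exp(-K τ)`, `τ = Λ^{2α}/(cκ)`. At a touching point at time `t` let `λ = lam7 t ≥ 1`, `ξ = nm h/λ`, `e = E₀ exp(K(t-t₀))`. If `λ ≤ Λ`, then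
`cκ(t-t₀) ≤ Λ^{2α}`, so `e ≤ E₂`. `lam7` has the derivative `λ'` with `λ'/λ = (cκ/(2α)) λ^{-2α} = (κw/4) λ^{-2α}`. `Mod7` gives `H1s`, `H2s` for `θ t` with `A = D λ^{-(1-α)}`, exponent `1-α` (`W7 γ ξ ≤ ξ^{1-α}` for all `ξ ≥ 0`), and `H1s (θ t) e (1/2) 0 (1/2)`; so by `UB2` and `|h₁|+|h₂| ≤ 2 nm h`: `‖δV1‖, ‖δV2‖ ≤ 2 C D ξ^{1-α}`,
`‖δV2‖ ≤ 2 C e (nm h)^{1/2}`. `s = |h₁|/nm h` by `AL7`. `FI7`, `RW7` (`f = θ t`; the maximum condition is the second part of `Mod7` at time `t`) contradict `NI7`. -/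
def Stmt_SI7 : Prop := ∀ α : ℝ, 0 < α → α < 1 / 2 → ∃ c : ℝ, 0 < c ∧ ∀ κ M K : ℝ, 0 < κ → 0 < M → 0 < K →
  ∃ E₀ : ℝ, 0 < E₀ ∧ ∀ (T : ℝ) (θ : ℝ → P2 → ℝ) (φ : ℝ → P2 → ℂ), Sol α κ T θ φ →
  ∀ (t₀ t : ℝ) (x h : P2), 0 < t₀ → t₀ < t → t < T →
    (∀ s ∈ Icc t₀ t, Mod7 (θ s) (E₀ * Real.exp (K * (s - t₀))) (6 * M) (lam7 α c κ t₀ s) (α / 2)) →
    0 < nm h → nm h < lam7 α c κ t₀ t / 2 →
    θ t (x + h) - θ t x ≠ 6 * M * W7 (α / 2) (nm h / lam7 α c κ t₀ t)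

/-- **MA7.** The theorem for the direction `(1,0)`.
Paper. `c` from `SI7`; `K` from `SD7`, `E₀` from `SI7`, `ε = min M (E₀²/(8M))`. `MX7` gives `|θ| ≤ M` on `[t₀,T)`. At `t₀`: the increment by `(a,0)` is at most `min (M|a|) (ε(1+|a|)) (2M) ≤ 2 (εM)^{1/2} |a|^{1/2} < E₀ |a|^{1/2}` for `a ≠ 0` (for `|a| ≤ 1` use `M|a|` and `2ε`, for `|a| ≥ 1` use `2M` and
`2ε|a|`; `min A B ≤ (A B)^{1/2}`). `TC7` with `E t = E₀ exp(K(t-t₀))`, `lam = lam7` (continuous, `≥ 1`, equal to `1` at `t₀`); the second alternative is excluded by `SD7` and `SI7`. Finally `6M W7(nm l/λ) ≤ 6M nm l/λ`. -/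
def Stmt_MA7 : Prop := ∀ α : ℝ, 0 < α → α < 1 / 2 → ∃ c : ℝ, 0 < c ∧ ∀ κ M : ℝ, 0 < κ → 0 < M →
  ∃ ε : ℝ, 0 < ε ∧ ∀ (T : ℝ) (θ : ℝ → P2 → ℝ) (φ : ℝ → P2 → ℂ), Sol α κ T θ φ → ∀ t₀ : ℝ, 0 < t₀ → t₀ < T →
    (∀ x, |θ t₀ x| ≤ M) → (∀ x y : P2, |θ t₀ x - θ t₀ y| ≤ M * nm (x - y)) →
    (∀ (x : P2) (a : ℝ), |θ t₀ (x.1 + a, x.2) - θ t₀ x| ≤ ε * (1 + |a|)) →
    ∀ t ∈ Ico t₀ T, ∀ x y : P2,
      |θ t x - θ t y| ≤ 6 * M * (1 + c * κ * (t - t₀)) ^ (-(1 / (2 * α))) * nm (x - y)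

end Pool.Agent.SQG
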