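import Pool.Agent.SQG.Stmts7

/-!
# The direction of the gradient: the statements of the modules (Theorem 8)

Target. `0 < α < 1/2`, `0 ≤ δ < 1 - 2α`. There is `ε₀ > 0` (depending on `α`, `δ`) such that the following holds. Let `θ` be a bounded smooth
solution on `(0,T)` with `|θ(t,x) - θ(t,y)| ≤ A |x-y|^δ`. Suppose that the direction `n = ∇θ/|∇θ|` satisfies, for all `t` and all `x`, `y` with `|x-y| ≤ ρ`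
and `|∇θ(t,x)|, |∇θ(t,y)| > K`,
`|n(t,x) - n(t,y)| ≤ m(t) |x-y|^{β + 2α/r} + (ε₀ κ/A) |x-y|^β`, `β = 1 - 2α - δ`, with `∫_0^T m^r < ∞`, `1 < r < ∞`.
Then `θ` is bounded in `C^{1-α}` on `[t₀,T)`, so there is no blow-up. So the deficit `1 - 2α - δ` of the regularity of `θ` can be supplied by the
regularity of the DIRECTION of the gradient, where the gradient is large. For `δ = 0` nothing but boundedness of `θ` is used.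

Proof: two-point maximum principle with the modulus `N(t) |h|^{1-α}`. At a touching point the gradient is large and parallel to `h` at both points. By
rotation `h = (0,b)`. Only the second component of the velocity increment enters. It is controlled by the increments of `θ` between points which are
symmetric with respect to the vertical line. In a square of side `2s` where the gradient is almost vertical or at most `K`, `∂₂θ ≥ -K`, so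
`∫ |∂₂θ| ≤ ∫ ∂₂θ + 8 K s² ≤ 2s A (2s)^δ + 8 K s²`: the function is almost monotone in the direction of its gradient, and this bounds `∫ |∂₁θ|`.
-/

set_option autoImplicit false

namespace Pool.Agent.SQG

open Complex MeasureTheory Set Filter Topology ProbabilityTheory

/-- the gradient -/
noncomputable def gr8 (φ : P2 → ℂ) (x : P2) : P2 := ((IF (D1 φ) x).re, (IF (D2 φ) x).re)

/-- the direction of a vector -/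
noncomputable def dv8 (v : P2) : P2 := (v.1 / nm v, v.2 / nm v)

/-- the direction of the gradient is continuous with modulus `a s^p + b s^q` at distances `≤ ρ`, where the gradient is larger than `K` -/
def Dir8 (φ : P2 → ℂ) (ρ K a p b q : ℝ) : Prop := ∀ x y : P2, nm (x - y) ≤ ρ → K < nm (gr8 φ x) → K < nm (gr8 φ y) →
  nm (dv8 (gr8 φ x) - dv8 (gr8 φ y)) ≤ a * nm (x - y) ^ p + b * nm (x - y) ^ q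

/-- isotropic Hölder continuity -/
def Ho8 (f : P2 → ℝ) (A δ : ℝ) : Prop := ∀ x y : P2, |f x - f y| ≤ A * nm (x - y) ^ δ

/-- the square of side `2s` -/
def Sq8 (s : ℝ) : Set P2 := Icc (-s) s ×ˢ Icc (-s) s

/-- the integral of the increments between points of a square which are symmetric with respect to the vertical line through its centre `p` -/
noncomputable def J8 (f : P2 → ℝ) (p : P2) (s : ℝ) : ℝ :=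
  ∫ y in Sq8 s, |f (p.1 + y.1, p.2 + y.2) - f (p.1 - y.1, p.2 + y.2)|

/-- **MJ8.** A continuous increasing function whose lower left derivative is at least `g` at EVERY point.
Paper. Let `g' = indicator (Ioo 0 T) g`, an integrable function on `ℝ`. Vitali-Carathéodory (`MeasureTheory.exists_lt_lowerSemicontinuous_integral_lt`): there is a
lower semicontinuous `G : ℝ → EReal`, `g' x < G x` for all `x`, `x ↦ (G x).toReal` integrable, `G < ⊤` almost everywhere. Let `P x = max 0 (G x).toReal` and `E t = ∫ x in Iic t, P x`: continuous,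
monotone, `0 ≤ E ≤ ∫ P`. For `t ∈ (0,T)`: `g t < G t`, so `g t < G s` for `s` near `t`, and then `g t ≤ P s` for almost all these `s`; so `E t - E s = ∫_s^t P ≥ g t (t - s)` for `s < t` near `t`. -/
def Stmt_MJ8 : Prop := ∀ (T : ℝ) (g : ℝ → ℝ), 0 < T → (∀ t ∈ Ioo 0 T, 0 ≤ g t) → IntegrableOn g (Ioo 0 T) →
  ∃ (E : ℝ → ℝ) (B : ℝ), Continuous E ∧ Monotone E ∧ (∀ t, 0 ≤ E t ∧ E t ≤ B) ∧
    ∀ t ∈ Ioo 0 T, ∀ᶠ s in 𝓝[<] t, g t * (t - s) ≤ E t - E s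

/-- **TC8.** The first touching point, for the modulus `N(t) |h|^σ`.
Paper: as `Stmt_TCI` (`Tci.lean`; there `N` is constant) and `Stmt_TC2` (`Tc2.lean`, there the modulus depends on time); `L(|l₁|+|l₂|) ≤ 2 L nm l < N t₀ (nm l)^σ ≤ N t (nm l)^σ` for small `nm l`, so in a
sequence of bad points `nm l` is bounded below; at `t₀`: `2 L₀ nm l < N t₀ (nm l)^σ` for `0 < nm l ≤ 1`; `nm h = 1` is impossible by `2M₀ < N t`. -/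
def Stmt_TC8 : Prop := ∀ (T : ℝ) (θ : ℝ → P2 → ℝ), Reg T θ →
  ∀ (M₀ σ t₀ L₀ : ℝ) (N : ℝ → ℝ), 0 < t₀ → t₀ < T → (∀ t ∈ Ioo 0 T, ∀ x, |θ t x| ≤ M₀) → 0 < σ → σ < 1 →
  ContinuousOn N (Ico t₀ T) → (∀ t ∈ Ico t₀ T, N t₀ ≤ N t) →
  (∀ x y : P2, |θ t₀ x - θ t₀ y| ≤ L₀ * (|x.1 - y.1| + |x.2 - y.2|)) → 0 ≤ L₀ → 2 * L₀ < N t₀ → 2 * M₀ < N t₀ →
  (∀ t ∈ Ico t₀ T, ∀ (y l : P2), nm l ≤ 1 → |θ t (y + l) - θ t y| ≤ N t * nm l ^ σ) ∨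
  ∃ (t : ℝ) (x h : P2), t₀ < t ∧ t < T ∧ 0 < nm h ∧ nm h < 1 ∧ θ t (x + h) - θ t x = N t * nm h ^ σ ∧
    ∀ s ∈ Icc t₀ t, ∀ (y l : P2), nm l ≤ 1 → |θ s (y + l) - θ s y| ≤ N s * nm l ^ σ

/-- **FO8.** The equation at a touching point, for the modulus `N(t) |h|^σ` and `h = (0,b)`; `D` is a lower left derivative of `N`.
Paper: as `Stmt_FOI` (`Foi.lean`). `ψ s = θ s (x+h) - θ s x` is `≤ N s b^σ` for `s ∈ [t₀,t]`, with equality at `t`; so `ψ t - ψ s ≥ (N t - N s) b^σ ≥ D b^σ (t - s)` for `s < t` near `t`, and `ψ'(t) ≥ D b^σ`.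
`y ↦ θ t (y+h) - θ t y` has a maximum at `x`, so `∇θ(x+h) = ∇θ(x)`. `l ↦ θ t (x+l) - N t (nm l)^σ` has a local maximum at `l = h`, so `∇θ(x+h) = N t σ b^{σ-2} h = (0, N t σ b^{σ-1})`. Insert this in the difference of the
equations at `x+h` and `x`: `ψ'(t) = -(V2(x+h) - V2(x)) N t σ b^{σ-1} - κ (Lθ(x+h) - Lθ(x))`. -/
def Stmt_FO8 : Prop := ∀ (α κ T : ℝ) (θ : ℝ → P2 → ℝ) (φ : ℝ → P2 → ℂ), Sol α κ T θ φ →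
  ∀ (σ t₀ t D b : ℝ) (N : ℝ → ℝ) (x : P2), 0 < t₀ → t₀ < t → t < T → 0 ≤ N t → 0 ≤ σ → 0 < b → b < 1 →
    (∀ᶠ s in 𝓝[<] t, D * (t - s) ≤ N t - N s) → θ t (x.1, x.2 + b) - θ t x = N t * b ^ σ →
    (∀ s ∈ Icc t₀ t, ∀ (y l : P2), nm l ≤ 1 → |θ s (y + l) - θ s y| ≤ N s * nm l ^ σ) →
    gr8 (φ t) x = (0, N t * σ * b ^ (σ - 1)) ∧ gr8 (φ t) (x.1, x.2 + b) = (0, N t * σ * b ^ (σ - 1)) ∧
    D * b ^ σ + κ * (IF (LL α (φ t)) (x.1, x.2 + b) - IF (LL α (φ t)) x).re ≤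
      ‖IF (V2 (φ t)) (x.1, x.2 + b) - IF (V2 (φ t)) x‖ * (N t * σ * b ^ (σ - 1))

/-- **VA8.** Gaussian averages in terms of `J8`. (The first integral is `B1 r f p`.)
Paper. `gm` is invariant under `(z₁,z₂) ↦ (-z₁,z₂)`, so with `G(y) = f(p+y) - f(p₁-y₁,p₂+y₂)` the two integrals are `(1/2) ∫ w(z) G(r z) dgm(z)`, `w = z₁` resp. `w = z₁z₂`. Let `|z|_∞ = max |z₁| |z₂|`.
Part `|z|_∞ > S/r`: `|G(rz)| ≤ A (2r|z₁|)^δ ≤ 2A r^δ (1+|z₁|)` and `1 ≤ (r|z|_∞/S)²`, so it is at most `A r^{δ+2} S^{-2} ∫ |w| (1+|z₁|)(z₁²+z₂²) dgm`.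
Part `|z|_∞ ≤ S/r`: the density of `gm` times `|w|` is at most `C₀ exp(-|z|_∞²/4)` (`x exp(-x²/4) ≤ 1`), and `exp(-|z|_∞²/4) ≤ Σ_{k ≥ 0} exp(-k²/4) 1_{|z|_∞ ≤ k+1}`; the integral of `|G(rz)|` over
`|z|_∞ ≤ k' := min (k+1) (S/r)` is `r^{-2} J8 f p (r k') ≤ r^{-2} Σ_i A_i (r(k+2))^{2+δ_i} = Σ_i A_i r^{δ_i} (k+2)^{2+δ_i}`. So it is at most `Σ_i C(δ_i) A_i r^{δ_i}` with `C(d) = C₀ Σ_k exp(-k²/4) (k+2)^{2+d}`. -/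
def Stmt_VA8 : Prop := ∃ C : ℝ → ℝ, (∀ d, 0 < C d) ∧ ∀ (f : P2 → ℝ) (φ : P2 → ℂ), NF f φ →
  ∀ (A δ A₁ δ₁ A₂ δ₂ r S : ℝ) (p : P2), 0 ≤ δ → δ < 1 → 0 < δ₁ → δ₁ < 1 → 0 < δ₂ → δ₂ < 1 → 0 ≤ A → 0 ≤ A₁ → 0 ≤ A₂ →
  H1 f A δ → 0 < r → 0 < S →
  (∀ s, 0 < s → s ≤ S → J8 f p s ≤ A₁ * (s + r) ^ (2 + δ₁) + A₂ * (s + r) ^ (2 + δ₂)) →
  |∫ z : P2, z.1 * f (p.1 + r * z.1, p.2 + r * z.2) ∂gm| ≤
    C δ₁ * A₁ * r ^ δ₁ + C δ₂ * A₂ * r ^ δ₂ + C δ * A * r ^ (δ + 2) * S ^ (-2 : ℝ) ∧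
  |∫ z : P2, z.1 * z.2 * f (p.1 + r * z.1, p.2 + r * z.2) ∂gm| ≤
    C δ₁ * A₁ * r ^ δ₁ + C δ₂ * A₂ * r ^ δ₂ + C δ * A * r ^ (δ + 2) * S ^ (-2 : ℝ)

/-- **VD8.** The derivative of `B1 r f` in direction `2`. Paper: the auxiliary lemmas of `Eb.lean` (`sh`, `der1`, `ibp`): differentiation under the integral and Gaussian integration by parts in `z₂`:
`∂₂ B1 r f (x) = ∫ z₁ (∂₂f)(x+rz) dgm = r⁻¹ ∫ z₁ z₂ f(x+rz) dgm`. -/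
def Stmt_VD8 : Prop := ∀ (f : P2 → ℝ) (φ : P2 → ℂ), NF f φ → ∀ (r τ : ℝ) (x : P2), 0 < r →
  HasDerivAt (fun τ : ℝ => B1 r f (x.1, x.2 + τ))
    (r⁻¹ * ∫ z : P2, z.1 * z.2 * f (x.1 + r * z.1, x.2 + τ + r * z.2) ∂gm) τ

/-- **VE8.** The vertical increments of the vertical velocity in terms of `J8` at the TWO points.
Paper. By `GB` it is at most `√(2/π) ∫_{r>0} |B1 r f (x+h) - B1 r f x| / r dr`, `h = (0,b)`. `r ≤ b`: `VA8` at both points with `S/2` for `S` (`s^{..} ≤ (s+r)^{..}`); integral at most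
`2 Σ C A_i b^{δ_i}/δ_i + 8 C A b^{δ+2} S^{-2}`, and `b^{δ+1} ≤ S^{δ+1}`. `b < r ≤ S/2`: by `VD8` and the mean value theorem the difference is `(b/r) ∫ z₁z₂ f(p+rz) dgm`, `p = (x₁, x₂+τ)`, `0 < τ < b`. For `s ≤ S/2` the square with centre `p` is
contained in the one with centre `x` and side `2(s+τ)`, and the vertical line is the same: `J8 f p s ≤ J8 f x (s+τ) ≤ Σ A_i (s+r)^{2+δ_i}` (`s+τ ≤ S`). By `VA8` (with `S/2`) the integral over these `r` is at most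
`Σ C A_i b ∫_b^∞ r^{δ_i-2} dr + 4 C A b S^{-2} ∫_0^{S/2} r^δ dr ≤ C' (Σ A_i b^{δ_i} + A b S^{δ-1})`. `r > S/2`: `EB` (exponent `δ`), integral at most `C A b ∫_{S/2}^∞ r^{δ-2} dr = C' A b S^{δ-1}`. -/
def Stmt_VE8 : Prop := ∃ C : ℝ → ℝ, (∀ d, 0 < C d) ∧ ∀ (f : P2 → ℝ) (φ : P2 → ℂ), NF f φ →
  ∀ (A δ A₁ δ₁ A₂ δ₂ b S : ℝ) (x : P2), 0 ≤ δ → δ < 1 → 0 < δ₁ → δ₁ < 1 → 0 < δ₂ → δ₂ < 1 → 0 ≤ A → 0 ≤ A₁ → 0 ≤ A₂ →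
  H1 f A δ → 0 < b → b ≤ S / 2 →
  (∀ s, 0 < s → s ≤ S → J8 f x s ≤ A₁ * s ^ (2 + δ₁) + A₂ * s ^ (2 + δ₂)) →
  (∀ s, 0 < s → s ≤ S → J8 f (x.1, x.2 + b) s ≤ A₁ * s ^ (2 + δ₁) + A₂ * s ^ (2 + δ₂)) →
  ‖IF (V2 φ) (x.1, x.2 + b) - IF (V2 φ) x‖ ≤ C δ₁ * A₁ * b ^ δ₁ + C δ₂ * A₂ * b ^ δ₂ + C δ * A * b * S ^ (δ - 1)

/-- **FB8.** The flux bound.
Paper. For `y ∈ Sq8 s`: `|f(p₁+y₁,p₂+y₂) - f(p₁-y₁,p₂+y₂)| ≤ ∫_{-s}^s |∂₁f(p₁+a,p₂+y₂)| da ≤ ∫_{-s}^s (2ω(∂₂f(p₁+a,p₂+y₂) + K) + K) da =: Ψ(y₂)`. So `J8 ≤ 2s ∫_{-s}^s Ψ(y₂) dy₂`, and (Fubini)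
`∫∫ ∂₂f(p₁+a,p₂+y₂) dy₂ da = ∫ (f(p₁+a,p₂+s) - f(p₁+a,p₂-s)) da ≤ 2s A (2s)^δ ≤ 4 A s^{1+δ}`. So `J8 ≤ 2s (2ω · 4 A s^{1+δ} + (2ω+1) K · 4s²)`. Derivatives: `DER`. -/
def Stmt_FB8 : Prop := ∀ (f : P2 → ℝ) (φ : P2 → ℂ), NF f φ → ∀ (A δ K ω s : ℝ) (p : P2), 0 ≤ A → 0 ≤ δ → δ < 1 → 0 ≤ K →
  0 ≤ ω → ω ≤ 1 / 2 → 0 < s → Ho8 f A δ →
  (∀ y ∈ Sq8 s, |(gr8 φ (p + y)).1| ≤ 2 * ω * ((gr8 φ (p + y)).2 + K) + K) →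
  J8 f p s ≤ 16 * ω * A * s ^ (2 + δ) + 16 * K * s ^ (3 : ℝ)

/-- **DI8.** From the direction of the gradient to `J8`.
Paper. `dv8 (0,g) = (0,1)`. Let `s ≤ S`, `y ∈ Sq8 s`, `ω = a (2s)^p + b (2s)^q ≤ 1/2`; `nm y ≤ 2s ≤ ρ`. If `nm (gr8 φ (x+y)) > K`, write `gr8 φ (x+y) = G n`, `G = nm > 0`, `|n - (0,1)| ≤ ω`: `|n₁| ≤ ω`, `n₂ ≥ 1 - ω ≥ 1/2`, so
`|G n₁| ≤ ω G ≤ 2ω G n₂`. Otherwise `|∂₁f| ≤ K` and `∂₂f + K ≥ 0`. So `FB8` applies: `16 ω A s^{2+δ} ≤ 32 A a s^{2+δ+p} + 32 A b s^{2+δ+q}` (`p, q ≤ 1`) and `16 K s³ ≤ 16 K s^{2+δ+p}` (`s ≤ 1`). -/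
def Stmt_DI8 : Prop := ∀ (f : P2 → ℝ) (φ : P2 → ℂ), NF f φ → ∀ (A δ K ρ a p b q S g : ℝ) (x : P2), 0 ≤ A → 0 ≤ δ → δ < 1 →
  0 ≤ K → 0 ≤ a → 0 < p → p ≤ 1 → 0 ≤ b → 0 < q → q ≤ 1 → δ + p ≤ 1 → 0 < S → S ≤ 1 → 2 * S ≤ ρ →
  a * (2 * S) ^ p + b * (2 * S) ^ q ≤ 1 / 2 → Ho8 f A δ → Dir8 φ ρ K a p b q → K < g → gr8 φ x = (0, g) →
  ∀ s, 0 < s → s ≤ S → J8 f x s ≤ (32 * A * a + 16 * K) * s ^ (2 + (δ + p)) + 32 * A * b * s ^ (2 + (δ + q))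

/-- **RT8.** Rotation invariance of `Dir8`. Paper: `gr8 (φ∘ρ) x = ρ⁻¹ (gr8 φ (ρ x))` (see `hD1`, `hD2` in `Rot.lean`: `IF_lin`, `IF_rot`), `dv8 (ρ⁻¹ v) = ρ⁻¹ (dv8 v)`, `nm (ρ⁻¹ v) = nm v`, `nm (ρ x - ρ y) = nm (x - y)`. -/
def Stmt_RT8 : Prop := ∀ (e : P2) (f : P2 → ℝ) (φ : P2 → ℂ) (ρ K a p b q : ℝ), e.1 ^ 2 + e.2 ^ 2 = 1 → NF f φ →
  Dir8 φ ρ K a p b q →
  Dir8 (fun ξ => φ (e.1 * ξ.1 - e.2 * ξ.2, e.2 * ξ.1 + e.1 * ξ.2)) ρ K a p b q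

/-- **NM8.** The choice of the scale `S`, and the numerical inequality.
Paper. `β = 1-2α-δ ∈ (0,1)`, `β' = β + 2α/r`, `m' = max m 1`, `μ' = max μ 1`, `S = min (min 1 (ρ/2)) (min ((4m')^{-1/β'}/2) ((4μ')^{-1/β}/2))`: then `m (2S)^β' ≤ 1/4`, `μ (2S)^β ≤ 1/4`.
`S^{δ-1} ≤ 1 + (ρ/2)^{δ-1} + 2 (4m')^{(1-δ)/β'} + 2 (4μ')^{(1-δ)/β}` (`2^{1-δ} ≤ 2`), and `(1-δ)/β' ≤ r` (as `β' r = β r + 2α ≥ β + 2α = 1-δ`), so `(4m')^{(1-δ)/β'} ≤ (4m')^r ≤ 4^r (1 + m^r)`.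
Young: `X b^{-2α(1-1/r)} ≤ κc b^{-2α} + κc^{1-r} X^r` for `X ≥ 0` (weighted arithmetic-geometric mean of `X^r κc^{1-r}` and `κc b^{-2α}`, weights `1/r`, `1-1/r`), with `X = C₁(32 A m + 16 K)`, `X^r ≤ 2^r ((32 C₁ A)^r m^r + (16 C₁ K)^r)`. -/
def Stmt_NM8 : Prop := ∀ α δ r κc A K ρ μ C₁ C₃ : ℝ, 0 < α → α < 1 / 2 → 0 ≤ δ → δ < 1 - 2 * α → 1 < r → 0 < κc → 0 < A →
  0 ≤ K → 0 < ρ → 0 ≤ μ → 0 < C₁ → 0 < C₃ → ∃ Cs : ℝ, 0 < Cs ∧ ∀ m, 0 ≤ m → ∃ S, 0 < S ∧ S ≤ 1 ∧ 2 * S ≤ ρ ∧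
    m * (2 * S) ^ (1 - 2 * α - δ + 2 * α / r) + μ * (2 * S) ^ (1 - 2 * α - δ) ≤ 1 / 2 ∧
    ∀ b, 0 < b → b ≤ 1 → C₁ * (32 * A * m + 16 * K) * b ^ (-(2 * α * (1 - 1 / r))) + C₃ * A * S ^ (δ - 1) ≤
      κc * b ^ (-2 * α) + Cs * (1 + m ^ r)

/-- **SV8.** The velocity at a touching point. `cR` is any positive number (it will be the constant of `RFI`).
Paper. `β = 1-2α-δ`, `p = β + 2α/r`, `δ₁ = δ + p = 1 - 2α(1-1/r) ∈ (0,1)`, `δ₂ = δ + β = 1-2α`. `C` from `VE8`, `C'` from `UB` (exponent `1-α`). `ε₀ = cR/(256 C(δ₂))`, `μ = ε₀κ/A`; `NM8` with `κc = κ cR/4`, `C₁ = C(δ₁)`, `C₃ = max (C δ) (2C')` gives `Cs`, and for the given `m` it gives `S`.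
`g := N(1-α) b^{-α} > K`. Case `b ≤ S/2`: `DI8` at `x` and at `(x₁,x₂+b)` gives the hypotheses of `VE8` with `A₁ = 32 A m + 16 K`, `A₂ = 32 A μ = 32 ε₀ κ`; so `‖δV2‖ g ≤ N b^{1-α} (C(δ₁) A₁ b^{δ₁-1} + 32 C(δ₂) ε₀ κ b^{-2α} + C(δ) A S^{δ-1})`,
`32 C(δ₂) ε₀ = cR/8`, `δ₁ - 1 = -2α(1-1/r)`. Case `b > S/2`: `UB` with `H1 f N (1-α)`: `‖δV2‖ ≤ C' N b^{1-α} = C' (f(x₁,x₂+b) - f x) ≤ C' A b^δ`, so `‖δV2‖ g ≤ N b^{1-α} C' A b^{δ-1} ≤ N b^{1-α} · 2 C' A S^{δ-1}`. In both cases the total is at most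
`N b^{1-α} (κ cR/8 b^{-2α} + κ cR/4 b^{-2α} + Cs (1+m^r)) < N b^{1-α} (κ cR b^{-2α} + Cs (1+m^r))`. -/
def Stmt_SV8 : Prop := ∀ α δ cR : ℝ, 0 < α → α < 1 / 2 → 0 ≤ δ → δ < 1 - 2 * α → 0 < cR → ∃ ε₀ : ℝ, 0 < ε₀ ∧
  ∀ κ A r ρ K : ℝ, 0 < κ → 0 < A → 1 < r → 0 < ρ → 0 ≤ K → ∃ Cs : ℝ, 0 < Cs ∧
  ∀ (f : P2 → ℝ) (φ : P2 → ℂ), NF f φ → ∀ (m N b : ℝ) (x : P2), 0 ≤ m → 0 < N → 0 < b → b < 1 → Ho8 f A δ →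
    Ho8 f N (1 - α) → Dir8 φ ρ K m (1 - 2 * α - δ + 2 * α / r) (ε₀ * κ / A) (1 - 2 * α - δ) →
    f (x.1, x.2 + b) - f x = N * b ^ (1 - α) → gr8 φ x = (0, N * (1 - α) * b ^ (-α)) →
    gr8 φ (x.1, x.2 + b) = (0, N * (1 - α) * b ^ (-α)) → K < N * (1 - α) →
    ‖IF (V2 φ) (x.1, x.2 + b) - IF (V2 φ) x‖ * (N * (1 - α) * b ^ (-α)) <
      N * b ^ (1 - α) * (κ * cR * b ^ (-2 * α) + Cs * (1 + m ^ r))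

/-- **MA8.** The theorem.
Paper. `σ = 1-α`. `cR` from `RFI` (exponent `σ`), `ε₀` from `SV8`, `Cs` from `SV8`. `M₀ ≥ 0`. `MJ8` with `g t = 2 Cs (1 + m t ^ r)`: `E`. `N s = N₀ exp(E s - E t₀)`, with `L₀ ≥ 0` from `Reg.lip` at `t₀`, `N₀ > 2L₀`, `N₀ > 2M₀`, `N₀ (1-α) > K`, `N₀ > 0`. Suppose the second alternative of `TC8` at
`(t,x,h)`; `b = nm h`. Rotation as in `Rfi.lean`: `e = (h₂/b, -h₁/b)`, `ρ (0,b) = h`, `x' = ρ⁻¹ x`; by `ROT` the rotated function is a solution `θ'`, with `θ' t (x'+(0,b)) - θ' t x' = N t b^σ`, the last clause of `TC8` for `θ'`, `Ho8` and (`RT8`) `Dir8`. `D = Cs (1 + m t ^ r) N t`: as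
`N t - N s ≥ N s (E t - E s)` and `N s ≥ N t / 2` for `s < t` near `t` (continuity), the hypothesis of `FO8` holds. `Ho8 (θ' t) (N t) σ`: for `nm l ≥ 1` use `2M₀ ≤ N t`. `FO8`, `RFI` (`(..).re ≥ cR N b^{σ-2α}`) and `SV8` give `D b^σ + κ cR N b^{σ-2α} < N b^σ (κ cR b^{-2α} + Cs (1+m^r))`, a contradiction.
So the first alternative: `C = N₀ exp B`. -/
def Stmt_MA8 : Prop := ∀ α δ : ℝ, 0 < α → α < 1 / 2 → 0 ≤ δ → δ < 1 - 2 * α → ∃ ε₀ : ℝ, 0 < ε₀ ∧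
  ∀ (κ T : ℝ) (θ : ℝ → P2 → ℝ) (φ : ℝ → P2 → ℂ), 0 < κ → 0 < T → Sol α κ T θ φ →
  ∀ (M₀ A r ρ K : ℝ) (m : ℝ → ℝ), (∀ t ∈ Ioo 0 T, ∀ x, |θ t x| ≤ M₀) → 0 < A → (∀ t ∈ Ioo 0 T, Ho8 (θ t) A δ) → 1 < r →
  0 < ρ → 0 ≤ K → (∀ t ∈ Ioo 0 T, 0 ≤ m t) → IntegrableOn (fun t => m t ^ r) (Ioo 0 T) →
  (∀ t ∈ Ioo 0 T, Dir8 (φ t) ρ K (m t) (1 - 2 * α - δ + 2 * α / r) (ε₀ * κ / A) (1 - 2 * α - δ)) →
  ∀ t₀ ∈ Ioo 0 T, ∃ C, ∀ t ∈ Ico t₀ T, ∀ x y : P2, |θ t x - θ t y| ≤ C * nm (x - y) ^ (1 - α)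

end Pool.Agent.SQG
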