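import Pool.Agent.SQG.Stmts2

/-!
# TC2: the first touching point, for a modulus which grows in time
-/

set_option autoImplicit false

namespace Pool.Agent.SQG

open Complex MeasureTheory Set Filter Topology ProbabilityTheory

namespace TC2Aux

lemma o2_neg (n k β p : ℝ) (m : ℕ) (h : P2) : O2 n k β p m (-h) = O2 n k β p m h := by
  simp [O2, (even_two_mul m).neg_pow]

lemma o2_snd_nonneg (k p : ℝ) (m : ℕ) (hk : 0 ≤ k) (h : P2) :
    0 ≤ k * h.1 ^ (2 * m) * |h.2| ^ (-p) := by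
  have h1 : 0 ≤ h.1 ^ (2 * m) := (even_two_mul m).pow_nonneg _
  positivity

lemma o2_ge (n k β p : ℝ) (m : ℕ) (hk : 0 ≤ k) (h : P2) :
    n * |h.2| ^ β ≤ O2 n k β p m h := by
  unfold O2
  have := o2_snd_nonneg k p m hk h
  linarith

lemma o2_nonneg (n k β p : ℝ) (m : ℕ) (hn : 0 ≤ n) (hk : 0 ≤ k) (h : P2) :
    0 ≤ O2 n k β p m h :=
  (mul_nonneg hn (by positivity)).trans (o2_ge n k β p m hk h)

/-- An elementary inequality. -/
lemma elem (L a b k p : ℝ) (m : ℕ) (hL : 0 ≤ L) (ha : 0 ≤ a) (hb : 0 < b) (hk : 1 ≤ k)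
    (hm : 1 ≤ m) :
    L * a ≤ k * a ^ (2 * m) * b ^ (-p) + L * (1 + L) * b ^ (p / (2 * m - 1)) := by
  have hbp : 0 < b ^ p := Real.rpow_pos_of_pos hb p
  have hbe : 0 < b ^ (p / (2 * m - 1)) := Real.rpow_pos_of_pos hb _
  have hm' : (1 : ℝ) ≤ m := by exact_mod_cast hm
  by_cases h : L * a ≤ k * a ^ (2 * m) * b ^ (-p)
  · have : 0 ≤ L * (1 + L) * b ^ (p / (2 * m - 1)) := by positivity
    linarith
  rw [not_le] at h
  have h0 : 0 ≤ k * a ^ (2 * m) * b ^ (-p) := by positivity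
  -- `a ≤ (1 + L) b ^ e`
  have h1 : a ≤ (1 + L) * b ^ (p / (2 * m - 1)) := by
    by_contra hcon
    rw [not_le] at hcon
    have ha0 : 0 < a := lt_of_le_of_lt (by positivity) hcon
    have h2 : ((1 + L) * b ^ (p / (2 * m - 1))) ^ (2 * m - 1) ≤ a ^ (2 * m - 1) :=
      pow_le_pow_left₀ (by positivity) hcon.le _
    have h3 : (b ^ (p / (2 * m - 1))) ^ (2 * m - 1) = b ^ p := by
      rw [← Real.rpow_natCast, ← Real.rpow_mul hb.le]
      congr 1
      rw [Nat.cast_sub (by omega)]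
      push_cast
      field_simp
      have : (2 * (m : ℝ) - 1) ≠ 0 := by linarith
      rw [mul_div_assoc, div_self this, mul_one]
    rw [mul_pow, h3] at h2
    have h4 : 1 + L ≤ (1 + L) ^ (2 * m - 1) := by
      refine le_self_pow₀ (by linarith) (by omega)
    have h5 : (1 + L) * b ^ p ≤ a ^ (2 * m - 1) :=
      (mul_le_mul_of_nonneg_right h4 hbp.le).trans h2
    have h6 : a ^ (2 * m) = a ^ (2 * m - 1) * a := by
      rw [← pow_succ]; congr 1; omega
    have h7 : b ^ (-p) = (b ^ p)⁻¹ := Real.rpow_neg hb.le p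
    have h8 : (1 + L) * a ≤ a ^ (2 * m) * b ^ (-p) := by
      rw [h6, h7]
      rw [← div_eq_mul_inv, le_div_iff₀ hbp]
      calc (1 + L) * a * b ^ p = (1 + L) * b ^ p * a := by ring
        _ ≤ a ^ (2 * m - 1) * a := mul_le_mul_of_nonneg_right h5 ha0.le
    have h9 : a ^ (2 * m) * b ^ (-p) ≤ k * a ^ (2 * m) * b ^ (-p) := by
      have : 0 ≤ a ^ (2 * m) * b ^ (-p) := by positivity
      nlinarith
    nlinarith
  calc L * a ≤ L * ((1 + L) * b ^ (p / (2 * m - 1))) := mul_le_mul_of_nonneg_left h1 hL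
    _ = L * (1 + L) * b ^ (p / (2 * m - 1)) := by ring
    _ ≤ _ := by linarith

/-- the exponent -/
noncomputable def ex (p : ℝ) (m : ℕ) : ℝ := min (p / (2 * m - 1)) 1

lemma ex_gt {p β : ℝ} {m : ℕ} (hm : 1 ≤ m) (hβ1 : β < 1) (hp : (2 * m - 1) * β < p) :
    β < ex p m := by
  have hm' : (1 : ℝ) ≤ m := by exact_mod_cast hm
  refine lt_min ?_ hβ1
  rw [lt_div_iff₀ (by linarith)]
  linarith

/-- A bad displacement cannot be small. -/
lemma bad (n k β p L : ℝ) (m : ℕ) (hL : 0 ≤ L) (hk : 1 ≤ k) (hm : 1 ≤ m) {l : P2}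
    (hl : l ∈ Rq) (h : O2 n k β p m l ≤ L * (|l.1| + |l.2|)) :
    n * |l.2| ^ β ≤ L * (2 + L) * |l.2| ^ ex p m := by
  obtain ⟨hb, hb1, ha1⟩ := hl
  have h1 := elem L |l.1| |l.2| k p m hL (abs_nonneg _) hb hk hm
  rw [(even_two_mul m).pow_abs] at h1
  have h2 : n * |l.2| ^ β + k * l.1 ^ (2 * m) * |l.2| ^ (-p) ≤ L * (|l.1| + |l.2|) := h
  have h3 : |l.2| ^ (p / (2 * m - 1)) ≤ |l.2| ^ ex p m :=
    Real.rpow_le_rpow_of_exponent_ge hb hb1 (min_le_left _ _)
  have h4 : |l.2| ^ (1 : ℝ) ≤ |l.2| ^ ex p m :=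
    Real.rpow_le_rpow_of_exponent_ge hb hb1 (min_le_right _ _)
  rw [Real.rpow_one] at h4
  have h5 : L * (1 + L) * |l.2| ^ (p / (2 * m - 1)) ≤ L * (1 + L) * |l.2| ^ ex p m :=
    mul_le_mul_of_nonneg_left h3 (by positivity)
  have h6 : L * |l.2| ≤ L * |l.2| ^ ex p m := mul_le_mul_of_nonneg_left h4 hL
  nlinarith

/-- the compact set of the parameters -/
def box (t₀ t₁ R η : ℝ) : Set (ℝ × P2 × P2) :=
  Icc t₀ t₁ ×ˢ (Icc (-R) R ×ˢ Icc (-R) R) ×ˢ
    ((Icc (-1) 1 ×ˢ Icc (-1) 1) ∩ {k : P2 | η ≤ |k.2|})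

lemma box_compact (t₀ t₁ R η : ℝ) : IsCompact (box t₀ t₁ R η) := by
  unfold box
  refine isCompact_Icc.prod ((isCompact_Icc.prod isCompact_Icc).prod ?_)
  refine (isCompact_Icc.prod isCompact_Icc).inter_right ?_
  have c2 : Continuous fun k : P2 => |k.2| := continuous_snd.abs
  exact isClosed_le continuous_const c2

lemma box_cont {T : ℝ} {θ : ℝ → P2 → ℝ} (hR : Reg T θ) (n k β p : ℝ) (m : ℕ) (E : ℝ → ℝ)
    (t₀ t₁ R η : ℝ) (h0 : 0 < t₀) (h1 : t₁ < T) (hη : 0 < η) (hE : ContinuousOn E (Ico t₀ T)) :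
    ContinuousOn (fun q : ℝ × P2 × P2 => |θ q.1 (q.2.1 + q.2.2) - θ q.1 q.2.1| -
      E q.1 * O2 n k β p m q.2.2) (box t₀ t₁ R η) := by
  have ht : ∀ q ∈ box t₀ t₁ R η, q.1 ∈ Ioo 0 T := by
    intro q hq
    exact ⟨h0.trans_le hq.1.1, hq.1.2.trans_lt h1⟩
  have hne : ∀ q ∈ box t₀ t₁ R η, |q.2.2.2| ≠ 0 := by
    intro q hq
    exact (hη.trans_le hq.2.2.2).ne'
  have a1 : ContinuousOn (fun q : ℝ × P2 × P2 => θ q.1 (q.2.1 + q.2.2))
      (box t₀ t₁ R η) := by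
    refine hR.cont.comp (f := fun q : ℝ × P2 × P2 => (q.1, q.2.1 + q.2.2))
      (by fun_prop) ?_
    intro q hq
    exact ⟨ht q hq, mem_univ _⟩
  have a2 : ContinuousOn (fun q : ℝ × P2 × P2 => θ q.1 q.2.1)
      (box t₀ t₁ R η) := by
    refine hR.cont.comp (f := fun q : ℝ × P2 × P2 => (q.1, q.2.1))
      (by fun_prop) ?_
    intro q hq
    exact ⟨ht q hq, mem_univ _⟩
  have a3 : ContinuousOn (fun q : ℝ × P2 × P2 => E q.1) (box t₀ t₁ R η) := by
    refine hE.comp (f := fun q : ℝ × P2 × P2 => q.1) (by fun_prop) ?_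
    intro q hq
    exact ⟨hq.1.1, hq.1.2.trans_lt h1⟩
  have c1 : ContinuousOn (fun q : ℝ × P2 × P2 => |q.2.2.2|) (box t₀ t₁ R η) := by
    fun_prop
  refine (a1.sub a2).abs.sub (a3.mul ?_)
  unfold O2
  refine ((c1.rpow_const fun q hq => Or.inl (hne q hq)).const_mul n).add ?_
  refine ContinuousOn.mul ?_ (c1.rpow_const fun q hq => Or.inl (hne q hq))
  fun_prop

end TC2Aux

open TC2Aux in
theorem tc2 : Stmt_TC2 := by
  intro T θ hReg M₀ β p n k t₀ L₀ m E ht₀ htT hM₀ hm hβ hβ1 hp hEc hE1 hL₀ hL₀0 hLn hMn hMk hk1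
  have hm' : (1 : ℝ) ≤ m := by exact_mod_cast hm
  have hp0 : 0 < p := by nlinarith
  have hM₀0 : 0 ≤ M₀ := (abs_nonneg _).trans (hM₀ t₀ ⟨ht₀, htT⟩ 0)
  have hn : 0 < n := by linarith
  have hk0 : 0 ≤ k := by linarith
  have hex := ex_gt hm hβ1 hp
  have hEO : ∀ t ∈ Ico t₀ T, ∀ l : P2, O2 n k β p m l ≤ E t * O2 n k β p m l := by
    intro t ht l
    have h1 := hE1 t ht
    have h2 := o2_nonneg n k β p m hn.le hk0 l
    nlinarith
  -- the set of bad times
  set S : Set ℝ := {t | t ∈ Ico t₀ T ∧ ∃ y l : P2, l ∈ Rq ∧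
    E t * O2 n k β p m l ≤ |θ t (y + l) - θ t y|} with hS
  by_cases hne : S.Nonempty
  swap
  · left
    intro t ht y l hl
    by_contra hcon
    rw [not_le] at hcon
    exact hne ⟨t, ht, y, l, hl, hcon.le⟩
  right
  obtain ⟨t₁, ht₁, hbad⟩ := hne
  obtain ⟨L, hL0, hL⟩ := hReg.lip t₀ t₁ ht₀ ht₁.2
  have hIco : ∀ s ∈ Icc t₀ t₁, s ∈ Ico t₀ T := fun s hs => ⟨hs.1, hs.2.trans_lt ht₁.2⟩
  -- lower bound for `|l₂|`
  set η : ℝ := (n / (L * (2 + L) + 1)) ^ (1 / (ex p m - β)) with hη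
  have hη0 : 0 < η := by positivity
  have hη1 : ∀ s ∈ Icc t₀ t₁, ∀ y l : P2, l ∈ Rq →
      E s * O2 n k β p m l ≤ |θ s (y + l) - θ s y| → η ≤ |l.2| := by
    intro s hs y l hl hb
    have h1 := hL s hs (y + l) y
    have h2 : |(y + l).1 - y.1| + |(y + l).2 - y.2| = |l.1| + |l.2| := by simp
    rw [h2] at h1
    have h3 := bad n k β p L m hL0 hk1 hm hl (((hEO s (hIco s hs) l).trans hb).trans h1)
    have hk0 : 0 < |l.2| := hl.1
    have h5 : |l.2| ^ ex p m = |l.2| ^ β * |l.2| ^ (ex p m - β) := by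
      rw [← Real.rpow_add hk0]
      congr 1
      ring
    rw [h5] at h3
    have h6 : 0 < |l.2| ^ β := by positivity
    have h6' : 0 < |l.2| ^ (ex p m - β) := by positivity
    have h7 : n ≤ L * (2 + L) * |l.2| ^ (ex p m - β) := by
      have : n * |l.2| ^ β ≤ (L * (2 + L) * |l.2| ^ (ex p m - β)) * |l.2| ^ β := by
        linarith
      exact le_of_mul_le_mul_right this h6
    have h8 : n / (L * (2 + L) + 1) ≤ |l.2| ^ (ex p m - β) := by
      rw [div_le_iff₀ (by positivity)]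
      linarith
    have hlb : 0 < ex p m - β := by linarith
    calc η ≤ (|l.2| ^ (ex p m - β)) ^ (1 / (ex p m - β)) :=
          Real.rpow_le_rpow (by positivity) h8 (by positivity)
      _ = |l.2| := by
          rw [← Real.rpow_mul hk0.le, mul_one_div_cancel hlb.ne', Real.rpow_one]
  -- bound for `y`
  obtain ⟨R, hR⟩ := hReg.dec t₀ t₁ ht₀ ht₁.2 (n * η ^ β / 4) (by positivity)
  set R' : ℝ := max R 0 + 2 with hR'
  have hy : ∀ s ∈ Icc t₀ t₁, ∀ y l : P2, l ∈ Rq →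
      E s * O2 n k β p m l ≤ |θ s (y + l) - θ s y| → |y.1| + |y.2| ≤ R' := by
    intro s hs y l hl hb
    by_contra hcon
    rw [not_le] at hcon
    have e1 := hη1 s hs y l hl hb
    have e2 : n * η ^ β ≤ E s * O2 n k β p m l := by
      refine le_trans ?_ ((o2_ge n k β p m hk0 l).trans (hEO s (hIco s hs) l))
      exact mul_le_mul_of_nonneg_left (Real.rpow_le_rpow hη0.le e1 hβ.le) hn.le
    have hk1' : |l.1| ≤ 1 := hl.2.2
    have hk2 := hl.2.1
    have e3 : R ≤ |y.1| + |y.2| := by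
      have := le_max_left R 0
      linarith
    have e4 : R ≤ |(y + l).1| + |(y + l).2| := by
      have i1 : |y.1| - |l.1| ≤ |(y + l).1| := by
        have := abs_sub_abs_le_abs_sub y.1 (-l.1)
        rw [abs_neg, sub_neg_eq_add] at this
        exact this
      have i2 : |y.2| - |l.2| ≤ |(y + l).2| := by
        have := abs_sub_abs_le_abs_sub y.2 (-l.2)
        rw [abs_neg, sub_neg_eq_add] at this
        exact this
      have := le_max_left R 0
      linarith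
    have e5 := hR s hs y e3
    have e6 := hR s hs (y + l) e4
    have e7 : |θ s (y + l) - θ s y| ≤ |θ s (y + l)| + |θ s y| := abs_sub _ _
    have e8 : 0 < n * η ^ β := by positivity
    linarith
  -- the compact set of the bad parameters
  set K : Set (ℝ × P2 × P2) := box t₀ t₁ R' η ∩
    (fun q : ℝ × P2 × P2 => |θ q.1 (q.2.1 + q.2.2) - θ q.1 q.2.1| -
      E q.1 * O2 n k β p m q.2.2) ⁻¹' (Ici 0) with hK
  have hKc : IsCompact K := by
    have hb := box_compact t₀ t₁ R' η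
    refine hb.of_isClosed_subset ?_ inter_subset_left
    exact (box_cont hReg n k β p m E t₀ t₁ R' η ht₀ ht₁.2 hη0
      hEc).preimage_isClosed_of_isClosed hb.isClosed isClosed_Ici
  have hmemK : ∀ s ∈ Icc t₀ t₁, ∀ y l : P2, l ∈ Rq →
      E s * O2 n k β p m l ≤ |θ s (y + l) - θ s y| → (s, y, l) ∈ K := by
    intro s hs y l hl hb
    have e1 := hη1 s hs y l hl hb
    have e2 := hy s hs y l hl hb
    have f1 := abs_nonneg y.1
    have f2 := abs_nonneg y.2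
    have g1 := abs_le.1 (show |y.1| ≤ R' by linarith)
    have g2 := abs_le.1 (show |y.2| ≤ R' by linarith)
    refine ⟨⟨hs, ⟨g1, g2⟩, ⟨abs_le.1 hl.2.2, abs_le.1 hl.2.1⟩, e1⟩, ?_⟩
    simp only [mem_preimage, mem_Ici]
    linarith
  have hKS : ∀ q ∈ K, q.1 ∈ Icc t₀ t₁ ∧ q.2.2 ∈ Rq ∧
      E q.1 * O2 n k β p m q.2.2 ≤ |θ q.1 (q.2.1 + q.2.2) - θ q.1 q.2.1| := by
    intro q hq
    refine ⟨hq.1.1, ⟨hη0.trans_le hq.1.2.2.2, abs_le.2 hq.1.2.2.1.2, abs_le.2 hq.1.2.2.1.1⟩, ?_⟩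
    have := hq.2
    simp only [mem_preimage, mem_Ici] at this
    linarith
  have hKne : K.Nonempty := by
    obtain ⟨y, l, hl, hb⟩ := hbad
    exact ⟨_, hmemK t₁ ⟨ht₁.1, le_rfl⟩ y l hl hb⟩
  obtain ⟨q, hqK, hqmin⟩ := hKc.exists_isMinOn hKne continuous_fst.continuousOn
  obtain ⟨t, y, l⟩ := q
  obtain ⟨hpt, hpk, hpb⟩ := hKS _ hqK
  simp only at hpt hpk hpb
  have htI : t ∈ Ioo 0 T := ⟨ht₀.trans_le hpt.1, hpt.2.trans_lt ht₁.2⟩
  have htE := hIco t hpt
  -- `t₀ < t`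
  have htt : t₀ < t := by
    rcases hpt.1.lt_or_eq with h | h
    · exact h
    exfalso
    rw [← h] at hpb
    have h1 := hL₀ (y + l) y
    have h2 : |(y + l).1 - y.1| + |(y + l).2 - y.2| = |l.1| + |l.2| := by simp
    rw [h2] at h1
    have hl0 : 0 < |l.2| := hpk.1
    have h3 := bad n k β p L₀ m hL₀0 hk1 hm hpk
      (((hEO t₀ ⟨le_rfl, htT⟩ l).trans hpb).trans h1)
    have h4 : |l.2| ^ ex p m ≤ |l.2| ^ β :=
      Real.rpow_le_rpow_of_exponent_ge hl0 hpk.2.1 hex.le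
    have h5 : 0 < |l.2| ^ β := by positivity
    have h6 : L₀ * (2 + L₀) * |l.2| ^ ex p m ≤ L₀ * (2 + L₀) * |l.2| ^ β :=
      mul_le_mul_of_nonneg_left h4 (by positivity)
    have h7 : L₀ * (2 + L₀) * |l.2| ^ β < n * |l.2| ^ β := mul_lt_mul_of_pos_right hLn h5
    linarith
  -- before `t`
  have hbef : ∀ s ∈ Ico t₀ t, ∀ y' l' : P2, l' ∈ Rq →
      |θ s (y' + l') - θ s y'| < E s * O2 n k β p m l' := by
    intro s hs y' l' hl'
    by_contra hcon
    rw [not_lt] at hcon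
    have h1 := hmemK s ⟨hs.1, hs.2.le.trans hpt.2⟩ y' l' hl' hcon
    have h2 : t ≤ s := hqmin h1
    exact absurd hs.2 (not_lt.2 h2)
  have hle : ∀ s ∈ Icc t₀ t, ∀ y' l' : P2, l' ∈ Rq →
      |θ s (y' + l') - θ s y'| ≤ E s * O2 n k β p m l' := by
    intro s hs y' l' hl'
    rcases hs.2.lt_or_eq with h | h
    · exact (hbef s ⟨hs.1, h⟩ y' l' hl').le
    rw [h]
    have hc : ∀ z : P2, Tendsto (fun s => θ s z) (𝓝[<] t) (𝓝 (θ t z)) := by
      intro z
      have h1 : ContinuousOn (fun s => θ s z) (Ioo 0 T) :=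
        hReg.cont.comp (f := fun s : ℝ => (s, z)) (by fun_prop)
          fun s hs => ⟨hs, mem_univ _⟩
      exact ((h1.continuousAt (Ioo_mem_nhds htI.1 htI.2)).tendsto).mono_left
        nhdsWithin_le_nhds
    have hcE : Tendsto E (𝓝[<] t) (𝓝 (E t)) :=
      ((hEc.continuousAt (Ico_mem_nhds htt htI.2)).tendsto).mono_left nhdsWithin_le_nhds
    have h2 : Tendsto (fun s => |θ s (y' + l') - θ s y'|) (𝓝[<] t)
        (𝓝 |θ t (y' + l') - θ t y'|) := ((hc _).sub (hc _)).abs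
    have h3 : Tendsto (fun s => E s * O2 n k β p m l') (𝓝[<] t)
        (𝓝 (E t * O2 n k β p m l')) := hcE.mul_const _
    refine le_of_tendsto_of_tendsto h2 h3 ?_
    filter_upwards [Ico_mem_nhdsLT htt] with s hs
    exact (hbef s hs y' l' hl').le
  -- equality
  have hfin : ∀ x h : P2, h ∈ Rq → θ t (x + h) - θ t x = E t * O2 n k β p m h →
      |h.2| < 1 ∧ |h.1| < 1 := by
    intro x h hh heq
    have hh0 : 0 < |h.2| := hh.1
    have h3 := abs_le.1 (hM₀ t htI (x + h))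
    have h4 := abs_le.1 (hM₀ t htI x)
    have h5 := hEO t htE h
    constructor
    · rcases hh.2.1.lt_or_eq with h1 | h1
      · exact h1
      exfalso
      have h2 := o2_ge n k β p m hk0 h
      rw [h1, Real.one_rpow, mul_one] at h2
      linarith [h3.2, h4.1]
    · rcases hh.2.2.lt_or_eq with h1 | h1
      · exact h1
      exfalso
      have h2 : k ≤ O2 n k β p m h := by
        unfold O2
        have e1 : h.1 ^ (2 * m) = 1 := by
          rw [← (even_two_mul m).pow_abs, h1, one_pow]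
        have e2 : 1 ≤ |h.2| ^ (-p) :=
          Real.one_le_rpow_of_pos_of_le_one_of_nonpos hh0 hh.2.1 (by linarith)
        have e3 : 0 ≤ n * |h.2| ^ β := by positivity
        rw [e1, mul_one]
        nlinarith
      linarith [h3.2, h4.1]
  have heq := le_antisymm (hle t ⟨htt.le, le_rfl⟩ y l hpk) hpb
  rcases le_total 0 (θ t (y + l) - θ t y) with hs | hs
  · rw [abs_of_nonneg hs] at heq
    obtain ⟨f1, f2⟩ := hfin y l hpk heq
    exact ⟨t, y, l, htt, htI.2, hpk.1, f1, f2, heq, hle⟩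
  · rw [abs_of_nonpos hs] at heq
    have hk' : -l ∈ Rq := by
      refine ⟨?_, ?_, ?_⟩
      · simpa using abs_pos.1 hpk.1
      · simpa using hpk.2.1
      · simpa using hpk.2.2
    have heq' : θ t (y + l + -l) - θ t (y + l) = E t * O2 n k β p m (-l) := by
      rw [o2_neg, ← heq, add_neg_cancel_right]
      ring
    obtain ⟨f1, f2⟩ := hfin (y + l) (-l) hk' heq'
    exact ⟨t, y + l, -l, htt, htI.2, hk'.1, f1, f2, heq', hle⟩

end Pool.Agent.SQG
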