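import Pool.Agent.SQG.Stmts

/-!
# TCH: the first touching point
-/

set_option autoImplicit false

namespace Pool.Agent.SQG

open Complex MeasureTheory Set Filter Topology ProbabilityTheory

namespace TCHAux

lemma om_neg (N M β lam δ : ℝ) (h : P2) : Om N M β lam δ (-h) = Om N M β lam δ h := by
  simp [Om]

lemma om_ge (N M β lam δ : ℝ) (hM : 0 < M) (h : P2) :
    N * |h.2| ^ β ≤ Om N M β lam δ h := by
  unfold Om
  have : 0 ≤ 2 * M * h.1 ^ 2 * |h.2| ^ (lam * (δ - 2)) := by positivity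
  linarith

lemma sum_le {lam : ℝ} (hl : lam < 1) {k : P2} (hk : k ∈ Rg lam) :
    |k.1| + |k.2| ≤ 2 * |k.2| ^ lam := by
  obtain ⟨h0, h1, h2⟩ := hk
  have h3 : |k.2| ^ (1 : ℝ) ≤ |k.2| ^ lam := Real.rpow_le_rpow_of_exponent_ge h0 h1 hl.le
  rw [Real.rpow_one] at h3
  linarith

/-- the compact set of the parameters -/
def box (t₀ t₁ R η lam : ℝ) : Set (ℝ × P2 × P2) :=
  Icc t₀ t₁ ×ˢ (Icc (-R) R ×ˢ Icc (-R) R) ×ˢ
    ((Icc (-1) 1 ×ˢ Icc (-1) 1) ∩ {k : P2 | η ≤ |k.2| ∧ |k.2| ≤ 1 ∧ |k.1| ≤ |k.2| ^ lam})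

lemma box_compact (t₀ t₁ R η lam : ℝ) (hl : 0 < lam) : IsCompact (box t₀ t₁ R η lam) := by
  unfold box
  refine isCompact_Icc.prod ((isCompact_Icc.prod isCompact_Icc).prod ?_)
  refine (isCompact_Icc.prod isCompact_Icc).inter_right ?_
  have c2 : Continuous fun k : P2 => |k.2| := continuous_snd.abs
  have c1 : Continuous fun k : P2 => |k.1| := continuous_fst.abs
  refine (isClosed_le continuous_const c2).inter ((isClosed_le c2 continuous_const).inter
    (isClosed_le c1 ?_))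
  exact c2.rpow_const fun _ => Or.inr hl.le

lemma box_cont {T : ℝ} {θ : ℝ → P2 → ℝ} (hR : Reg T θ) (N M β lam δ t₀ t₁ R η : ℝ)
    (h0 : 0 < t₀) (h1 : t₁ < T) (hη : 0 < η) :
    ContinuousOn (fun p : ℝ × P2 × P2 => |θ p.1 (p.2.1 + p.2.2) - θ p.1 p.2.1| -
      Om N M β lam δ p.2.2) (box t₀ t₁ R η lam) := by
  have ht : ∀ p ∈ box t₀ t₁ R η lam, p.1 ∈ Ioo 0 T := by
    intro p hp
    exact ⟨h0.trans_le hp.1.1, hp.1.2.trans_lt h1⟩
  have hne : ∀ p ∈ box t₀ t₁ R η lam, |p.2.2.2| ≠ 0 := by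
    intro p hp
    exact (hη.trans_le hp.2.2.2.1).ne'
  have a1 : ContinuousOn (fun p : ℝ × P2 × P2 => θ p.1 (p.2.1 + p.2.2))
      (box t₀ t₁ R η lam) := by
    refine hR.cont.comp (f := fun p : ℝ × P2 × P2 => (p.1, p.2.1 + p.2.2))
      (by fun_prop) ?_
    intro p hp
    exact ⟨ht p hp, mem_univ _⟩
  have a2 : ContinuousOn (fun p : ℝ × P2 × P2 => θ p.1 p.2.1)
      (box t₀ t₁ R η lam) := by
    refine hR.cont.comp (f := fun p : ℝ × P2 × P2 => (p.1, p.2.1))
      (by fun_prop) ?_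
    intro p hp
    exact ⟨ht p hp, mem_univ _⟩
  have c1 : ContinuousOn (fun p : ℝ × P2 × P2 => |p.2.2.2|) (box t₀ t₁ R η lam) := by
    fun_prop
  refine (a1.sub a2).abs.sub ?_
  unfold Om
  refine ((c1.rpow_const fun p hp => Or.inl (hne p hp)).const_mul N).add ?_
  refine ContinuousOn.mul ?_ (c1.rpow_const fun p hp => Or.inl (hne p hp))
  fun_prop

end TCHAux

open TCHAux in
theorem tch : Stmt_TCH := by
  intro T θ hReg M₀ M δ lam β N t₀ L₀ ht₀ htT hM₀ hM hH1 hδ hβ hβl hl1 hL₀ hMN hLN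
  have hl0 : 0 < lam := hβ.trans hβl
  have hM₀0 : 0 ≤ M₀ := (abs_nonneg _).trans (hM₀ t₀ ⟨ht₀, htT⟩ 0)
  have hN : 0 < N := by linarith
  -- the set of bad times
  set S : Set ℝ := {t | t ∈ Ico t₀ T ∧ ∃ y k : P2, k ∈ Rg lam ∧
    Om N M β lam δ k ≤ |θ t (y + k) - θ t y|} with hS
  by_cases hne : S.Nonempty
  swap
  · left
    intro t ht x b hb
    by_contra hcon
    rw [not_le] at hcon
    apply hne
    have hb0 : b ≠ 0 := by
      rintro rfl
      simp [Real.zero_rpow hβ.ne'] at hcon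
    refine ⟨t, ht, x, (0, b), ⟨abs_pos.2 hb0, hb, ?_⟩, ?_⟩
    · simp only [abs_zero]
      positivity
    · have e : x + ((0, b) : P2) = (x.1, x.2 + b) := by ext <;> simp
      rw [e]
      have : Om N M β lam δ (0, b) = N * |b| ^ β := by simp [Om]
      rw [this]
      exact hcon.le
  right
  obtain ⟨t₁, ht₁, hbad⟩ := hne
  obtain ⟨L, hL0, hL⟩ := hReg.lip t₀ t₁ ht₀ ht₁.2
  -- lower bound for `|k₂|`
  set η : ℝ := (N / (2 * L + 1)) ^ (1 / (lam - β)) with hη
  have hη0 : 0 < η := by positivity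
  have hη1 : ∀ s ∈ Icc t₀ t₁, ∀ y k : P2, k ∈ Rg lam →
      Om N M β lam δ k ≤ |θ s (y + k) - θ s y| → η ≤ |k.2| := by
    intro s hs y k hk hb
    have h1 := hL s hs (y + k) y
    have h2 : |(y + k).1 - y.1| + |(y + k).2 - y.2| = |k.1| + |k.2| := by simp
    rw [h2] at h1
    have h3 := om_ge N M β lam δ hM k
    have h4 : N * |k.2| ^ β ≤ (2 * L + 1) * |k.2| ^ lam := by
      have h5 : L * (|k.1| + |k.2|) ≤ L * (2 * |k.2| ^ lam) :=
        mul_le_mul_of_nonneg_left (sum_le hl1 hk) hL0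
      have h6 : 0 ≤ |k.2| ^ lam := by positivity
      linarith
    have hk0 : 0 < |k.2| := hk.1
    have h5 : |k.2| ^ lam = |k.2| ^ β * |k.2| ^ (lam - β) := by
      rw [← Real.rpow_add hk0]
      congr 1
      ring
    rw [h5] at h4
    have h6 : 0 < |k.2| ^ β := by positivity
    have h7 : N ≤ (2 * L + 1) * |k.2| ^ (lam - β) := by
      have : N * |k.2| ^ β ≤ ((2 * L + 1) * |k.2| ^ (lam - β)) * |k.2| ^ β := by
        linarith
      exact le_of_mul_le_mul_right this h6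
    have h8 : N / (2 * L + 1) ≤ |k.2| ^ (lam - β) := by
      rw [div_le_iff₀ (by positivity)]
      linarith
    have hlb : 0 < lam - β := by linarith
    calc η ≤ (|k.2| ^ (lam - β)) ^ (1 / (lam - β)) :=
          Real.rpow_le_rpow (by positivity) h8 (by positivity)
      _ = |k.2| := by
          rw [← Real.rpow_mul hk0.le, mul_one_div_cancel hlb.ne', Real.rpow_one]
  -- bound for `y`
  obtain ⟨R, hR⟩ := hReg.dec t₀ t₁ ht₀ ht₁.2 (N * η ^ β / 4) (by positivity)
  set R' : ℝ := max R 0 + 2 with hR'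
  have hy : ∀ s ∈ Icc t₀ t₁, ∀ y k : P2, k ∈ Rg lam →
      Om N M β lam δ k ≤ |θ s (y + k) - θ s y| → |y.1| + |y.2| ≤ R' := by
    intro s hs y k hk hb
    by_contra hcon
    rw [not_le] at hcon
    have e1 := hη1 s hs y k hk hb
    have e2 : N * η ^ β ≤ Om N M β lam δ k := by
      refine le_trans ?_ (om_ge N M β lam δ hM k)
      exact mul_le_mul_of_nonneg_left (Real.rpow_le_rpow hη0.le e1 hβ.le) hN.le
    have hk1 : |k.1| ≤ 1 := hk.2.2.trans (Real.rpow_le_one (abs_nonneg _) hk.2.1 hl0.le)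
    have hk2 := hk.2.1
    have e3 : R ≤ |y.1| + |y.2| := by
      have := le_max_left R 0
      linarith
    have e4 : R ≤ |(y + k).1| + |(y + k).2| := by
      have i1 : |y.1| - |k.1| ≤ |(y + k).1| := by
        have := abs_sub_abs_le_abs_sub y.1 (-k.1)
        rw [abs_neg, sub_neg_eq_add] at this
        exact this
      have i2 : |y.2| - |k.2| ≤ |(y + k).2| := by
        have := abs_sub_abs_le_abs_sub y.2 (-k.2)
        rw [abs_neg, sub_neg_eq_add] at this
        exact this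
      have := le_max_left R 0
      linarith
    have e5 := hR s hs y e3
    have e6 := hR s hs (y + k) e4
    have e7 : |θ s (y + k) - θ s y| ≤ |θ s (y + k)| + |θ s y| := abs_sub _ _
    have e8 : 0 < N * η ^ β := by positivity
    linarith
  -- the compact set of the bad parameters
  set K : Set (ℝ × P2 × P2) := box t₀ t₁ R' η lam ∩
    (fun p : ℝ × P2 × P2 => |θ p.1 (p.2.1 + p.2.2) - θ p.1 p.2.1| -
      Om N M β lam δ p.2.2) ⁻¹' (Ici 0) with hK
  have hKc : IsCompact K := by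
    have hb := box_compact t₀ t₁ R' η lam hl0
    refine hb.of_isClosed_subset ?_ inter_subset_left
    exact (box_cont hReg N M β lam δ t₀ t₁ R' η ht₀ ht₁.2 hη0).preimage_isClosed_of_isClosed
      hb.isClosed isClosed_Ici
  have hmemK : ∀ s ∈ Icc t₀ t₁, ∀ y k : P2, k ∈ Rg lam →
      Om N M β lam δ k ≤ |θ s (y + k) - θ s y| → (s, y, k) ∈ K := by
    intro s hs y k hk hb
    have e1 := hη1 s hs y k hk hb
    have e2 := hy s hs y k hk hb
    have hk1 : |k.1| ≤ 1 := hk.2.2.trans (Real.rpow_le_one (abs_nonneg _) hk.2.1 hl0.le)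
    have hk2 := hk.2.1
    have f1 := abs_nonneg y.1
    have f2 := abs_nonneg y.2
    have g1 := abs_le.1 (show |y.1| ≤ R' by linarith)
    have g2 := abs_le.1 (show |y.2| ≤ R' by linarith)
    refine ⟨⟨hs, ⟨g1, g2⟩, ⟨abs_le.1 hk1, abs_le.1 hk2⟩, e1, hk.2.1, hk.2.2⟩, ?_⟩
    simp only [mem_preimage, mem_Ici]
    linarith
  have hKS : ∀ p ∈ K, p.1 ∈ Icc t₀ t₁ ∧ p.2.2 ∈ Rg lam ∧
      Om N M β lam δ p.2.2 ≤ |θ p.1 (p.2.1 + p.2.2) - θ p.1 p.2.1| := by
    intro p hp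
    refine ⟨hp.1.1, ⟨hη0.trans_le hp.1.2.2.2.1, hp.1.2.2.2.2.1, hp.1.2.2.2.2.2⟩, ?_⟩
    have := hp.2
    simp only [mem_preimage, mem_Ici] at this
    linarith
  have hKne : K.Nonempty := by
    obtain ⟨y, k, hk, hb⟩ := hbad
    exact ⟨_, hmemK t₁ ⟨ht₁.1, le_rfl⟩ y k hk hb⟩
  obtain ⟨p, hpK, hpmin⟩ := hKc.exists_isMinOn hKne continuous_fst.continuousOn
  obtain ⟨t, y, k⟩ := p
  obtain ⟨hpt, hpk, hpb⟩ := hKS _ hpK
  simp only at hpt hpk hpb
  have htI : t ∈ Ioo 0 T := ⟨ht₀.trans_le hpt.1, hpt.2.trans_lt ht₁.2⟩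
  -- `t₀ < t`
  have htt : t₀ < t := by
    rcases hpt.1.lt_or_eq with h | h
    · exact h
    exfalso
    rw [← h] at hpb
    have h1 := hL₀ (y + k) y
    have h2 : |(y + k).1 - y.1| + |(y + k).2 - y.2| = |k.1| + |k.2| := by simp
    rw [h2] at h1
    have hk0 : 0 < |k.2| := hpk.1
    have hL₀0 : 0 ≤ L₀ := by
      by_contra hneg
      rw [not_le] at hneg
      have : L₀ * (|k.1| + |k.2|) < 0 := by
        apply mul_neg_of_neg_of_pos hneg
        have := abs_nonneg k.1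
        linarith
      have := abs_nonneg (θ t₀ (y + k) - θ t₀ y)
      linarith
    have h3 : L₀ * (|k.1| + |k.2|) ≤ L₀ * (2 * |k.2| ^ lam) :=
      mul_le_mul_of_nonneg_left (sum_le hl1 hpk) hL₀0
    have h4 : |k.2| ^ lam ≤ |k.2| ^ β :=
      Real.rpow_le_rpow_of_exponent_ge hk0 hpk.2.1 hβl.le
    have h5 : 0 < |k.2| ^ lam := by positivity
    have h6 := om_ge N M β lam δ hM k
    have h7 : 2 * L₀ * |k.2| ^ lam < N * |k.2| ^ lam := mul_lt_mul_of_pos_right hLN h5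
    have h8 : N * |k.2| ^ lam ≤ N * |k.2| ^ β := mul_le_mul_of_nonneg_left h4 hN.le
    linarith
  -- before `t`
  have hbef : ∀ s ∈ Ico t₀ t, ∀ y' k' : P2, k' ∈ Rg lam →
      |θ s (y' + k') - θ s y'| < Om N M β lam δ k' := by
    intro s hs y' k' hk'
    by_contra hcon
    rw [not_lt] at hcon
    have h1 := hmemK s ⟨hs.1, hs.2.le.trans hpt.2⟩ y' k' hk' hcon
    have h2 : t ≤ s := hpmin h1
    exact absurd hs.2 (not_lt.2 h2)
  have hle : ∀ s ∈ Icc t₀ t, ∀ y' k' : P2, k' ∈ Rg lam →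
      |θ s (y' + k') - θ s y'| ≤ Om N M β lam δ k' := by
    intro s hs y' k' hk'
    rcases hs.2.lt_or_eq with h | h
    · exact (hbef s ⟨hs.1, h⟩ y' k' hk').le
    rw [h]
    have hc : ∀ z : P2, Tendsto (fun s => θ s z) (𝓝[<] t) (𝓝 (θ t z)) := by
      intro z
      have h1 : ContinuousOn (fun s => θ s z) (Ioo 0 T) :=
        hReg.cont.comp (f := fun s : ℝ => (s, z)) (by fun_prop)
          fun s hs => ⟨hs, mem_univ _⟩
      exact ((h1.continuousAt (Ioo_mem_nhds htI.1 htI.2)).tendsto).mono_left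
        nhdsWithin_le_nhds
    have h2 : Tendsto (fun s => |θ s (y' + k') - θ s y'|) (𝓝[<] t)
        (𝓝 |θ t (y' + k') - θ t y'|) := ((hc _).sub (hc _)).abs
    refine le_of_tendsto h2 ?_
    filter_upwards [Ico_mem_nhdsLT htt] with s hs
    exact (hbef s hs y' k' hk').le
  -- equality
  have hfin : ∀ x h : P2, h ∈ Rg lam → θ t (x + h) - θ t x = Om N M β lam δ h →
      |h.2| < 1 ∧ |h.1| < |h.2| ^ lam := by
    intro x h hh heq
    have hh0 : 0 < |h.2| := hh.1
    constructor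
    · rcases hh.2.1.lt_or_eq with h1 | h1
      · exact h1
      exfalso
      have h2 := om_ge N M β lam δ hM h
      rw [h1, Real.one_rpow, mul_one, ← heq] at h2
      have h3 := abs_le.1 (hM₀ t htI (x + h))
      have h4 := abs_le.1 (hM₀ t htI x)
      linarith [h3.2, h4.1]
    · rcases hh.2.2.lt_or_eq with h1 | h1
      · exact h1
      exfalso
      have h2 := hle t ⟨htt.le, le_rfl⟩ x (0, h.2) ⟨hh.1, hh.2.1, by
        simp only [abs_zero]; positivity⟩
      have e0 : Om N M β lam δ (0, h.2) = N * |h.2| ^ β := by simp [Om]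
      have e1 : x + ((0, h.2) : P2) = (x.1, x.2 + h.2) := by ext <;> simp
      rw [e0, e1] at h2
      have h3 := hH1 t htI (x.1, x.2 + h.2) h.1
      have e2 : (((x.1, x.2 + h.2) : P2).1 + h.1, ((x.1, x.2 + h.2) : P2).2) = x + h := by
        ext <;> simp
      rw [e2] at h3
      have e3 : Om N M β lam δ h = N * |h.2| ^ β + 2 * (M * |h.1| ^ δ) := by
        unfold Om
        have : h.1 ^ 2 * |h.2| ^ (lam * (δ - 2)) = |h.1| ^ δ := by
          rw [← sq_abs h.1, h1, ← Real.rpow_natCast, ← Real.rpow_mul hh0.le,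
            ← Real.rpow_mul hh0.le, ← Real.rpow_add hh0]
          congr 1
          push_cast
          ring
        rw [← this]
        ring
      have h4 : 0 < M * |h.1| ^ δ := by
        rw [h1]
        positivity
      rw [e3] at heq
      have h5 := abs_le.1 h2
      have h6 := abs_le.1 h3
      linarith [h5.2, h6.2]
  have heq := le_antisymm (hle t ⟨htt.le, le_rfl⟩ y k hpk) hpb
  rcases le_total 0 (θ t (y + k) - θ t y) with hs | hs
  · rw [abs_of_nonneg hs] at heq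
    obtain ⟨f1, f2⟩ := hfin y k hpk heq
    exact ⟨t, y, k, htt, htI.2, hpk.1, f1, f2, heq, hle⟩
  · rw [abs_of_nonpos hs] at heq
    have hk' : -k ∈ Rg lam := by
      refine ⟨?_, ?_, ?_⟩
      · simpa using abs_pos.1 hpk.1
      · simpa using hpk.2.1
      · simpa using hpk.2.2
    have heq' : θ t (y + k + -k) - θ t (y + k) = Om N M β lam δ (-k) := by
      rw [om_neg, ← heq, add_neg_cancel_right]
      ring
    obtain ⟨f1, f2⟩ := hfin (y + k) (-k) hk' heq'
    exact ⟨t, y + k, -k, htt, htI.2, hk'.1, f1, f2, heq', hle⟩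

end Pool.Agent.SQG
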